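import Mathlib

/- solved by helper763 -/


set_option autoImplicit false

namespace Pool.Agent.Helper948.Ent.A1



-- TARGET
theorem shearer_holder {A J : Type*} (B : Finset A) (R : Finset J) (y : A → ℝ) (x : J → A → ℝ)
    (hy : ∀ a ∈ B, 0 ≤ y a) (hx : ∀ j ∈ R, ∀ a ∈ B, 0 ≤ x j a)
    (hX : ∀ j ∈ R, 0 < ∑ a ∈ B, x j a) (C : ℝ) (hC : 0 ≤ C)
    (hR : 0 < R.card) (h : ∀ a ∈ B, y a ^ R.card ≤ C * ∏ j ∈ R, x j a) :
    (∑ a ∈ B, y a) ^ R.card ≤ C * ∏ j ∈ R, ∑ a ∈ B, x j a := by
  set r := R.card with hr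
  have hr0 : (r : ℝ) ≠ 0 := by exact_mod_cast hR.ne'
  have hrpos : (0:ℝ) < r := by exact_mod_cast hR
  set X : J → ℝ := fun j => ∑ a ∈ B, x j a with hXdef
  have hX' : ∀ j ∈ R, 0 < X j := hX
  have hP : 0 < ∏ j ∈ R, X j := Finset.prod_pos hX'
  set Z : ℝ := C * ∏ j ∈ R, X j with hZ
  have hZ0 : 0 ≤ Z := mul_nonneg hC hP.le
  have key : ∀ a ∈ B, y a ≤ Z ^ ((r : ℝ)⁻¹) * ∑ j ∈ R, (r : ℝ)⁻¹ * (x j a / X j) := by
    intro a ha
    have h1 : y a = (y a ^ r) ^ ((r : ℝ)⁻¹) := by
      rw [Real.pow_rpow_inv_natCast (hy a ha) hR.ne']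
    have h2 : C * ∏ j ∈ R, x j a = Z * ∏ j ∈ R, (x j a / X j) := by
      rw [hZ, Finset.prod_div_distrib, mul_assoc, mul_div_cancel₀ _ hP.ne']
    have h3 : ∀ j ∈ R, 0 ≤ x j a / X j := fun j hj => div_nonneg (hx j hj a ha) (hX' j hj).le
    have h4 := Real.geom_mean_le_arith_mean_weighted R (fun _ => (r : ℝ)⁻¹) (fun j => x j a / X j)
      (fun _ _ => by positivity) (by rw [Finset.sum_const, ← hr, nsmul_eq_mul, mul_inv_cancel₀ hr0]) h3
    calc y a = (y a ^ r) ^ ((r : ℝ)⁻¹) := h1
      _ ≤ (Z * ∏ j ∈ R, (x j a / X j)) ^ ((r : ℝ)⁻¹) := by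
          apply Real.rpow_le_rpow (pow_nonneg (hy a ha) _) _ (by positivity)
          rw [← h2]; exact h a ha
      _ = Z ^ ((r : ℝ)⁻¹) * ∏ j ∈ R, (x j a / X j) ^ ((r : ℝ)⁻¹) := by
          rw [Real.mul_rpow hZ0 (Finset.prod_nonneg h3), Real.finsetProd_rpow _ _ h3]
      _ ≤ _ := mul_le_mul_of_nonneg_left h4 (Real.rpow_nonneg hZ0 _)
  have hsum : ∑ a ∈ B, y a ≤ Z ^ ((r : ℝ)⁻¹) := by
    calc ∑ a ∈ B, y a ≤ ∑ a ∈ B, Z ^ ((r : ℝ)⁻¹) * ∑ j ∈ R, (r : ℝ)⁻¹ * (x j a / X j) :=
          Finset.sum_le_sum key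
      _ = Z ^ ((r : ℝ)⁻¹) * ∑ j ∈ R, (r : ℝ)⁻¹ * ((∑ a ∈ B, x j a) / X j) := by
          rw [← Finset.mul_sum, Finset.sum_comm]
          congr 1
          apply Finset.sum_congr rfl
          intro j _
          rw [← Finset.mul_sum, Finset.sum_div]
      _ = Z ^ ((r : ℝ)⁻¹) * ∑ j ∈ R, (r : ℝ)⁻¹ := by
          congr 1
          apply Finset.sum_congr rfl
          intro j hj
          rw [div_self (hX' j hj).ne', mul_one]
      _ = Z ^ ((r : ℝ)⁻¹) := by
          rw [Finset.sum_const, ← hr, nsmul_eq_mul, mul_inv_cancel₀ hr0, mul_one]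
  calc (∑ a ∈ B, y a) ^ r ≤ (Z ^ ((r : ℝ)⁻¹)) ^ r :=
        pow_le_pow_left₀ (Finset.sum_nonneg hy) hsum r
    _ = Z := Real.rpow_inv_natCast_pow hZ0 hR.ne'

open Classical in
theorem shearer_N_mono {T A : Type*} (V : Finset T) {F F' : Finset (T → A)} (h : F' ⊆ F) :
    (F'.image (fun x => fun t : {t // t ∈ V} => x t.1)).card ≤
      (F.image (fun x => fun t : {t // t ∈ V} => x t.1)).card :=
  Finset.card_le_card (Finset.image_subset_image h)

open Classical in
theorem shearer_N_mono_set {T A : Type*} {V W : Finset T} (h : V ⊆ W) (F : Finset (T → A)) :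
    (F.image (fun x => fun t : {t // t ∈ V} => x t.1)).card ≤
      (F.image (fun x => fun t : {t // t ∈ W} => x t.1)).card := by
  have : F.image (fun x => fun t : {t // t ∈ V} => x t.1) =
      (F.image (fun x => fun t : {t // t ∈ W} => x t.1)).image
        (fun y => fun t : {t // t ∈ V} => y ⟨t.1, h t.2⟩) := by
    rw [Finset.image_image]; rfl
  rw [this]
  exact Finset.card_image_le

open Classical in
theorem shearer_N_insert {T A : Type*} (V : Finset T) (t0 : T)
    (F : Finset (T → A)) :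
    (F.image (fun x => fun t : {t // t ∈ insert t0 V} => x t.1)).card =
      ∑ a ∈ F.image (fun x => x t0),
        ((F.filter (fun x => x t0 = a)).image (fun x => fun t : {t // t ∈ V} => x t.1)).card := by
  set W := insert t0 V with hW
  have ht0 : t0 ∈ W := Finset.mem_insert_self _ _
  have hVW : V ⊆ W := Finset.subset_insert _ _
  rw [Finset.card_eq_sum_card_fiberwise
    (f := fun y : ({t // t ∈ W} → A) => y ⟨t0, ht0⟩) (t := F.image (fun x => x t0))]
  · apply Finset.sum_congr rfl
    intro a ha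
    apply Finset.card_bij (fun (y : {t // t ∈ W} → A) _ => fun t : {t // t ∈ V} => y ⟨t.1, hVW t.2⟩)
    · intro y hy
      simp only [Finset.mem_filter, Finset.mem_image] at hy ⊢
      obtain ⟨⟨x, hx, rfl⟩, hxa⟩ := hy
      exact ⟨x, ⟨hx, hxa⟩, rfl⟩
    · intro y hy y' hy' hyy
      simp only [Finset.mem_filter] at hy hy'
      funext t
      by_cases h : t.1 = t0
      · have : t = ⟨t0, ht0⟩ := Subtype.ext h
        rw [this, hy.2, hy'.2]
      · have hV : t.1 ∈ V := by
          exact (Finset.mem_insert.1 t.2).resolve_left h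
        have := congrFun hyy ⟨t.1, hV⟩
        simpa using this
    · intro z hz
      simp only [Finset.mem_filter, Finset.mem_image] at hz
      obtain ⟨x, ⟨hx, hxa⟩, rfl⟩ := hz
      refine ⟨fun t => x t.1, ?_, rfl⟩
      simp only [Finset.mem_filter, Finset.mem_image]
      exact ⟨⟨x, hx, rfl⟩, hxa⟩
  · intro y hy
    simp only [Finset.coe_image, Set.mem_image, Finset.mem_coe] at hy ⊢
    obtain ⟨x, hx, rfl⟩ := hy
    exact ⟨x, hx, rfl⟩

open Classical in
theorem shearer_main {T A J : Type*} [Fintype J] (U : Finset T) (r : ℕ) (hr : 0 < r) :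
    ∀ (Fam : Finset (T → A)) (_ : Fam.Nonempty) (S : J → Finset T) (_ : ∀ j, S j ⊆ U)
      (_ : ∀ t ∈ U, r ≤ (Finset.univ.filter (fun j => t ∈ S j)).card),
    (Fam.image (fun x => fun t : {t // t ∈ U} => x t.1)).card ^ r ≤
      ∏ j, (Fam.image (fun x => fun t : {t // t ∈ S j} => x t.1)).card := by
  induction U using Finset.induction_on with
  | empty =>
    intro Fam hne S hS h
    have h1 : ∀ V : Finset T, 1 ≤ (Fam.image (fun x => fun t : {t // t ∈ V} => x t.1)).card :=
      fun V => Finset.card_pos.2 (hne.image _)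
    have h2 : (Fam.image (fun x => fun t : {t // t ∈ (∅ : Finset T)} => x t.1)).card ≤ 1 := by
      rw [Finset.card_le_one]
      intro a _ b _
      funext t
      exact absurd t.2 (Finset.notMem_empty _)
    have h3 : (Fam.image (fun x => fun t : {t // t ∈ (∅ : Finset T)} => x t.1)).card = 1 :=
      le_antisymm h2 (h1 _)
    rw [h3, one_pow]
    exact Finset.one_le_prod' (fun j _ => h1 (S j))
  | insert t0 U' ht0 ih =>
    intro Fam hne S hS h
    obtain ⟨R, hRsub, hRcard⟩ := Finset.exists_subset_card_eq (h t0 (Finset.mem_insert_self _ _))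
    have hRmem : ∀ j ∈ R, t0 ∈ S j := fun j hj => (Finset.mem_filter.1 (hRsub hj)).2
    set N : Finset T → Finset (T → A) → ℕ :=
      fun V F => (F.image (fun x => fun t : {t // t ∈ V} => x t.1)).card with hN
    have hpos : ∀ V (F : Finset (T → A)), F.Nonempty → 1 ≤ N V F :=
      fun V F hF => Finset.card_pos.2 (hF.image _)
    change (N (insert t0 U') Fam) ^ r ≤ ∏ j, N (S j) Fam
    set B := Fam.image (fun x => x t0) with hB
    set Fa : A → Finset (T → A) := fun a => Fam.filter (fun x => x t0 = a) with hFa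
    have hFne : ∀ a ∈ B, (Fa a).Nonempty := by
      intro a ha
      obtain ⟨x, hx, hxa⟩ := Finset.mem_image.1 ha
      exact ⟨x, Finset.mem_filter.2 ⟨hx, hxa⟩⟩
    have hBne : B.Nonempty := hne.image _
    have hNins : ∀ V, N (insert t0 V) Fam = ∑ a ∈ B, N V (Fa a) := fun V => shearer_N_insert V t0 Fam
    have hIH : ∀ a ∈ B, (N U' (Fa a)) ^ r ≤ ∏ j, N ((S j).erase t0) (Fa a) := by
      intro a ha
      apply ih (Fa a) (hFne a ha) (fun j => (S j).erase t0)
      · intro j t ht
        have h1 := Finset.mem_erase.1 ht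
        exact (Finset.mem_insert.1 (hS j h1.2)).resolve_left h1.1
      · intro t ht
        refine (h t (Finset.mem_insert_of_mem ht)).trans (Finset.card_le_card ?_)
        intro j hj
        simp only [Finset.mem_filter, Finset.mem_univ, true_and] at hj ⊢
        refine Finset.mem_erase.2 ⟨?_, hj⟩
        rintro rfl
        exact ht0 ht
    -- split the product
    have hsplit : ∀ f : J → ℕ, ∏ j, f j = (∏ j ∈ Rᶜ, f j) * ∏ j ∈ R, f j := by
      intro f
      rw [Finset.prod_compl_mul_prod]
    have hRS : ∀ j ∈ R, N (S j) Fam = ∑ a ∈ B, N ((S j).erase t0) (Fa a) := by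
      intro j hj
      rw [← hNins, Finset.insert_erase (hRmem j hj)]
    have hC : ∀ a ∈ B, (N U' (Fa a)) ^ r ≤
        (∏ j ∈ Rᶜ, N (S j) Fam) * ∏ j ∈ R, N ((S j).erase t0) (Fa a) := by
      intro a ha
      refine (hIH a ha).trans ?_
      rw [hsplit]
      apply Nat.mul_le_mul_right
      apply Finset.prod_le_prod'
      intro j _
      exact (shearer_N_mono_set (Finset.erase_subset _ _) _).trans
        (shearer_N_mono _ (Finset.filter_subset _ _))
    have hNle : ∀ j ∈ R, 0 < ∑ a ∈ B, (N ((S j).erase t0) (Fa a) : ℝ) := by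
      intro j _
      refine Finset.sum_pos (fun a ha => ?_) hBne
      have := hpos ((S j).erase t0) (Fa a) (hFne a ha)
      exact Nat.cast_pos.2 this
    clear_value N B Fa
    have hmain := shearer_holder B R (fun a => (N U' (Fa a) : ℝ))
      (fun j a => (N ((S j).erase t0) (Fa a) : ℝ)) (fun _ _ => Nat.cast_nonneg _)
      (fun _ _ _ _ => Nat.cast_nonneg _) hNle
      ((∏ j ∈ Rᶜ, N (S j) Fam : ℕ) : ℝ) (Nat.cast_nonneg _) (by rw [hRcard]; exact hr)
      (by
        intro a ha
        rw [hRcard]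
        have := hC a ha
        have h2 : (((N U' (Fa a)) ^ r : ℕ) : ℝ) ≤
          (((∏ j ∈ Rᶜ, N (S j) Fam) * ∏ j ∈ R, N ((S j).erase t0) (Fa a) : ℕ) : ℝ) :=
          Nat.cast_le.2 this
        push_cast at h2 ⊢
        exact h2)
    rw [hRcard] at hmain
    rw [hNins, hsplit, Finset.prod_congr rfl hRS]
    exact_mod_cast hmain

open Classical in
/-- Shearer's lemma, counting form. Proof by induction on the number of coordinates: let t0 be a coordinate; for a value a let
F_a be the members of the family with value a at t0, restricted to the other coordinates; |F| = sum_a |F_a|; choose r of the sets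
S j that contain t0; for such j the number of restrictions of F to S j is the sum over a of the number of restrictions of F_a to
S j minus t0 (those are disjoint), for the other j it is at least the number for F_a; use the induction hypothesis
|F_a|^r <= prod_j and Hoelder's inequality (generalised, r factors, e.g. Finset.inner_le_Lp_mul_Lq iterated or
ENNReal.lintegral_prod_norm_pow_le) . Any other proof is fine too. -/
theorem shearer {T A J : Type*} [Fintype T] [Fintype J] (Fam : Finset (T → A)) (hne : Fam.Nonempty)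
    (S : J → Finset T) (r : ℕ)
    (h : ∀ t, r ≤ (Finset.univ.filter (fun j => t ∈ S j)).card) :
    Fam.card ^ r ≤ ∏ j, (Fam.image (fun x => fun t : {t // t ∈ S j} => x t.1)).card := by
  rcases Nat.eq_zero_or_pos r with rfl | hr
  · rw [pow_zero]
    exact Finset.one_le_prod' (fun j _ => Finset.card_pos.2 (hne.image _))
  · have h1 := shearer_main (Finset.univ : Finset T) r hr Fam hne S
      (fun j => Finset.subset_univ _) (fun t _ => h t)
    have h2 : (Fam.image (fun x => fun t : {t // t ∈ (Finset.univ : Finset T)} => x t.1)).card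
        = Fam.card := by
      apply Finset.card_image_of_injective
      intro x y hxy
      funext t
      exact congrFun hxy ⟨t, Finset.mem_univ t⟩
    rw [h2] at h1
    exact h1

end Pool.Agent.Helper948.Ent.A1
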