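import Mathlib

/- solved by helper61 -/


set_option autoImplicit false

namespace Pool.Agent.Helper948.Ent.A2



-- TARGET

open Polynomial in
theorem lind_split (c : ℤ) (n : ℕ) (hn : 0 < n) :
    ∃ f : Fin n → ℤ, ∑ i, f i = c ∧ ∀ i, ‖((f i : ℤ) : ℂ) - (c : ℂ) / n‖ ≤ 1 := by
  obtain ⟨r, hr⟩ : ∃ r : ℕ, (r : ℤ) = c % n := ⟨(c % n).toNat, Int.toNat_of_nonneg (Int.emod_nonneg _ (by positivity))⟩
  have hrn : r < n := by
    have := Int.emod_lt_of_pos c (show (0:ℤ) < n by exact_mod_cast hn)
    omega
  have hdm : c = n * (c / n) + r := by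
    rw [hr]
    exact (Int.mul_ediv_add_emod c n).symm
  refine ⟨fun i => c / n + (if (i : ℕ) < r then 1 else 0), ?_, ?_⟩
  · rw [Finset.sum_add_distrib, Finset.sum_const, Finset.sum_boole]
    rw [Fin.card_filter_val_lt, Finset.card_univ, Fintype.card_fin, min_eq_right hrn.le]
    rw [nsmul_eq_mul]
    exact hdm.symm
  · intro i
    have hn' : (0:ℝ) < n := by exact_mod_cast hn
    have e1 : (((c / n + (if (i : ℕ) < r then 1 else 0) : ℤ)) : ℂ) - (c : ℂ) / n =
        ((((if (i : ℕ) < r then 1 else 0) - r / n : ℝ)) : ℂ) := by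
      have hc : (c : ℂ) = n * ((c / n : ℤ) : ℂ) + r := by exact_mod_cast congrArg (fun x : ℤ => (x : ℂ)) hdm
      rw [hc]
      have hn0 : (n : ℂ) ≠ 0 := by exact_mod_cast hn.ne'
      push_cast
      split_ifs <;> field_simp <;> push_cast <;> ring
    simp only
    rw [e1, Complex.norm_real, Real.norm_eq_abs, abs_le]
    have h1 : (0:ℝ) ≤ r / n := by positivity
    have h2 : (r:ℝ) / n ≤ 1 := by
      rw [div_le_one hn']
      exact_mod_cast hrn.le
    split_ifs <;> constructor <;> linarith

open Polynomial in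
theorem lind_pieces (d n : ℕ) (hn : 0 < n) (q : ℤ[X]) (hq : q.natDegree < d) :
    ∃ f : Fin n → ℤ[X], (∀ i, (f i).natDegree < d) ∧ ∑ i, f i = q ∧
      ∀ i, ∀ z : ℂ, ‖aeval z (f i) - aeval z q / n‖ ≤ ∑ k ∈ Finset.range d, ‖z‖ ^ k := by
  choose g hg1 hg2 using fun k : ℕ => lind_split (q.coeff k) n hn
  have hq' := as_sum_range_C_mul_X_pow' q hq
  refine ⟨fun i => ∑ k ∈ Finset.range d, C (g k i) * X ^ k, ?_, ?_, ?_⟩
  · intro i
    have h1 : (∑ k ∈ Finset.range d, C (g k i) * X ^ k).natDegree ≤ d - 1 := by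
      refine natDegree_sum_le_of_forall_le _ _ (fun k hk => ?_)
      refine (natDegree_C_mul_X_pow_le _ _).trans ?_
      rw [Finset.mem_range] at hk
      omega
    show (∑ k ∈ Finset.range d, C (g k i) * X ^ k).natDegree < d
    omega
  · rw [Finset.sum_comm]
    conv_rhs => rw [hq']
    refine Finset.sum_congr rfl (fun k _ => ?_)
    rw [← Finset.sum_mul, ← map_sum, hg1]
  · intro i z
    have e1 : aeval z (∑ k ∈ Finset.range d, C (g k i) * X ^ k) = ∑ k ∈ Finset.range d, ((g k i : ℤ) : ℂ) * z ^ k := by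
      rw [map_sum]
      refine Finset.sum_congr rfl (fun k _ => ?_)
      simp
    have e2 : aeval z q = ∑ k ∈ Finset.range d, ((q.coeff k : ℤ) : ℂ) * z ^ k := by
      conv_lhs => rw [hq']
      rw [map_sum]
      refine Finset.sum_congr rfl (fun k _ => ?_)
      simp
    simp only
    rw [e1, e2, Finset.sum_div, ← Finset.sum_sub_distrib]
    refine (norm_sum_le _ _).trans (Finset.sum_le_sum (fun k _ => ?_))
    have e3 : ((g k i : ℤ) : ℂ) * z ^ k - ((q.coeff k : ℤ) : ℂ) * z ^ k / n = (((g k i : ℤ) : ℂ) - ((q.coeff k : ℤ) : ℂ) / n) * z ^ k := by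
      ring
    rw [e3, norm_mul, norm_pow]
    calc _ ≤ 1 * ‖z‖ ^ k := mul_le_mul_of_nonneg_right (hg2 k i) (by positivity)
      _ = _ := one_mul _

theorem lind_rho (S : Finset ℂ) (l : ℝ) (hl : 0 < l) (h : ∀ z ∈ S, ‖z‖ < l) :
    ∃ ρ : ℝ, 0 ≤ ρ ∧ ρ < l ∧ ∀ z ∈ S, ‖z‖ ≤ ρ := by
  induction S using Finset.induction_on with
  | empty => exact ⟨0, le_rfl, hl, fun z hz => absurd hz (Finset.notMem_empty _)⟩
  | insert a s ha ih =>
    obtain ⟨ρ, h1, h2, h3⟩ := ih (fun z hz => h z (Finset.mem_insert_of_mem hz))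
    refine ⟨max ρ ‖a‖, le_max_of_le_left h1, max_lt h2 (h a (Finset.mem_insert_self _ _)), ?_⟩
    intro z hz
    rcases Finset.mem_insert.1 hz with hz | hz
    · rw [hz]; exact le_max_right _ _
    · exact (h3 z hz).trans (le_max_left _ _)

open Polynomial in
theorem lind_finite (l : ℝ) (hi : IsIntegral ℤ l) (B : ℝ) :
    {x : ℝ | ∃ q : ℤ[X], aeval l q = x ∧ ∀ z : ℂ, aeval z (minpoly ℤ l) = 0 → ‖aeval z q‖ ≤ B}.Finite := by
  have hiQ : IsIntegral ℚ l := hi.tower_top
  let K := IntermediateField.adjoin ℚ {l}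
  have hfd : FiniteDimensional ℚ K := IntermediateField.adjoin.finiteDimensional hiQ
  have hnf : NumberField K := { to_charZero := inferInstance, to_finiteDimensional := hfd }
  let g : K := IntermediateField.AdjoinSimple.gen ℚ l
  have hg : algebraMap K ℝ g = l := IntermediateField.AdjoinSimple.algebraMap_gen ℚ l
  have hinj : Function.Injective (algebraMap K ℝ) := (algebraMap K ℝ).injective
  have hgi : IsIntegral ℤ g := by
    rw [← isIntegral_algebraMap_iff hinj, hg]
    exact hi
  have hg0 : aeval g (minpoly ℤ l) = 0 := by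
    apply hinj
    rw [← aeval_algebraMap_apply, hg, map_zero]
    exact minpoly.aeval ℤ l
  have hfin := NumberField.Embeddings.finite_of_norm_le K ℂ B
  refine (hfin.image (algebraMap K ℝ)).subset ?_
  rintro x ⟨q, hq, hb⟩
  refine ⟨aeval g q, ⟨?_, ?_⟩, ?_⟩
  · rw [aeval_eq_sum_range]
    exact IsIntegral.sum _ (fun k _ => (hgi.pow k).smul _)
  · intro φ
    have e1 : φ (aeval g q) = aeval (φ g) q := by
      rw [aeval_def, aeval_def, hom_eval₂]
      congr 1
      exact RingHom.ext_int _ _
    have e2 : φ (aeval g (minpoly ℤ l)) = aeval (φ g) (minpoly ℤ l) := by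
      rw [aeval_def, aeval_def, hom_eval₂]
      congr 1
      exact RingHom.ext_int _ _
    rw [e1]
    apply hb
    rw [← e2, hg0, map_zero]
  · rw [← aeval_algebraMap_apply, hg, hq]

/-- Lind's theorem in the form of a positive left eigenvector. Proof: let K = Q(l) (a number field, e.g. IntermediateField.adjoin), let
d be the degree, phi the embeddings of K into the complex numbers; for z in Z[l] write z = sum_{k<d} c_k l^k with integers c_k. Let
J be the set of all z in Z[l] with 0 < z (as a real number), |phi z| ≤ z for all embeddings phi and z ≤ M1; it is finite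
(NumberField.Embeddings.finite_of_norm_le), contains 1 if M1 ≥ 1. Claim: if M is large and M1 = 2 M + kappa with kappa = sum_k (max(1,l))^k, then for every
z in J the number l * z is a sum of elements of J (with repetition). If l * z ≤ M this is clear since |phi (l z)| ≤ |phi l| |phi z| ≤ l z.
Otherwise let n = floor (l z / M) ≥ 1, so l z / n lies in [M, 2M]; write every coordinate c of l z as c = sum_{i<n} floor ((c+i)/n), each
summand differs from c/n by at most 1; so l z = sum_{i<n} z_i with |phi z_i - phi (l z) / n| ≤ kappa for all embeddings phi. For phi l = l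
nothing to do (then phi z_i = z_i); for the other embeddings |phi l| ≤ rho < l, hence |phi z_i| ≤ (rho/l) (l z)/n + kappa ≤ (rho/l)(z_i + kappa) + kappa ≤ z_i if
M is large, because z_i ≥ M - kappa. Take nu z = z and A z z' the number of times z occurs in the chosen
representation of l * z'. The case that l is an integer (d = 1) is included (or do it separately with J a point). -/
theorem lind (l : ℝ) (h1 : 1 ≤ l) (hi : IsIntegral ℤ l)
    (hp : ∀ z : ℂ, Polynomial.aeval z (minpoly ℤ l) = 0 → z ≠ (l : ℂ) → ‖z‖ < l) :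
    ∃ (J : Type) (_ : Fintype J) (_ : Nonempty J) (A : J → J → ℕ) (ν : J → ℝ), (∀ j, 0 < ν j) ∧
      ∀ j', ∑ j, ν j * (A j j' : ℝ) = l * ν j' := by
  classical
  have hPm : (minpoly ℤ l).Monic := minpoly.monic hi
  have hP0 : Polynomial.aeval l (minpoly ℤ l) = 0 := minpoly.aeval ℤ l
  have hd : 0 < (minpoly ℤ l).natDegree := minpoly.natDegree_pos hi
  set P := minpoly ℤ l with hP
  have hPne : P ≠ 1 := by
    intro h
    rw [h, Polynomial.natDegree_one] at hd
    exact lt_irrefl _ hd
  set d := P.natDegree with hdd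
  have hl0 : 0 < l := by linarith
  have hcl : ∀ p : Polynomial ℤ, Polynomial.aeval (l : ℂ) p = ((Polynomial.aeval l p : ℝ) : ℂ) := by
    intro p
    have := Polynomial.aeval_algebraMap_apply (R := ℤ) (A := ℝ) ℂ l p
    simpa using this
  have hPc0 : Polynomial.aeval (l : ℂ) P = 0 := by
    rw [hcl, hP0, Complex.ofReal_zero]
  obtain ⟨ρ, hρ0, hρl, hρ⟩ := lind_rho ((P.map (algebraMap ℤ ℂ)).roots.toFinset.erase (l : ℂ)) l hl0 (by
    intro z hz
    rw [Finset.mem_erase, Multiset.mem_toFinset] at hz
    refine hp z ?_ hz.1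
    have := Polynomial.isRoot_of_mem_roots hz.2
    rw [Polynomial.IsRoot.def, Polynomial.eval_map_algebraMap] at this
    exact this)
  have hroot : ∀ z : ℂ, Polynomial.aeval z P = 0 → z = (l : ℂ) ∨ ‖z‖ ≤ ρ := by
    intro z hz
    by_cases hzl : z = (l : ℂ)
    · exact Or.inl hzl
    · right
      apply hρ
      rw [Finset.mem_erase, Multiset.mem_toFinset, Polynomial.mem_roots (hPm.map _).ne_zero,
        Polynomial.IsRoot.def, Polynomial.eval_map_algebraMap]
      exact ⟨hzl, hz⟩
  have hzl : ∀ z : ℂ, Polynomial.aeval z P = 0 → ‖z‖ ≤ l := by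
    intro z hz
    rcases hroot z hz with h | h
    · rw [h, Complex.norm_real, Real.norm_eq_abs, abs_of_pos hl0]
    · linarith
  set κ : ℝ := ∑ k ∈ Finset.range d, l ^ k with hκ
  have hκ1 : 1 ≤ κ := by
    have : l ^ 0 ≤ κ := Finset.single_le_sum (f := fun k => l ^ k) (fun k _ => by positivity)
      (Finset.mem_range.2 hd)
    simpa using this
  have hκz : ∀ z : ℂ, Polynomial.aeval z P = 0 → ∑ k ∈ Finset.range d, ‖z‖ ^ k ≤ κ := by
    intro z hz
    exact Finset.sum_le_sum (fun k _ => pow_le_pow_left₀ (norm_nonneg _) (hzl z hz) k)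
  set t : ℝ := ρ / l with ht
  have ht0 : 0 ≤ t := by positivity
  have ht1 : t < 1 := by rw [ht, div_lt_one hl0]; exact hρl
  set M : ℝ := 2 * κ / (1 - t) with hM
  have hMt : M * (1 - t) = 2 * κ := by
    rw [hM]; field_simp [show (1 - t) ≠ 0 by linarith]
  have hM2 : 2 * κ ≤ M := by
    rw [hM, le_div_iff₀ (by linarith)]
    nlinarith
  have hMpos : 0 < M := by linarith
  let J : Set ℝ := {x | ∃ q : Polynomial ℤ, q.natDegree < d ∧ Polynomial.aeval l q = x ∧ 0 < x ∧
    x ≤ 2 * M + κ ∧ ∀ z : ℂ, Polynomial.aeval z P = 0 → ‖Polynomial.aeval z q‖ ≤ x}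
  have hJfin : J.Finite := by
    refine (lind_finite l hi (2 * M + κ)).subset ?_
    rintro x ⟨q, -, hq2, -, hq4, hq5⟩
    exact ⟨q, hq2, fun z hz => (hq5 z hz).trans hq4⟩
  have h1J : (1 : ℝ) ∈ J := by
    refine ⟨1, ?_, map_one _, one_pos, by linarith, ?_⟩
    · rw [Polynomial.natDegree_one]; exact hd
    · intro z _
      rw [map_one, norm_one]
  have key : ∀ x ∈ J, ∃ (n : ℕ) (f : Fin n → J), ∑ i, (f i : ℝ) = l * x := by
    rintro x ⟨q, hqd, hqx, hx0, hxM, hqz⟩
    set q' := (Polynomial.X * q) %ₘ P with hq'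
    have hq'd : q'.natDegree < d := Polynomial.natDegree_modByMonic_lt _ hPm hPne
    have hq'z : ∀ z : ℂ, Polynomial.aeval z P = 0 → Polynomial.aeval z q' = z * Polynomial.aeval z q := by
      intro z hz
      rw [hq', Polynomial.aeval_modByMonic_eq_self_of_root hz, map_mul, Polynomial.aeval_X]
    have hq'l : Polynomial.aeval l q' = l * x := by
      rw [hq', Polynomial.aeval_modByMonic_eq_self_of_root hP0, map_mul, Polynomial.aeval_X, hqx]
    have hy0 : 0 < l * x := by positivity
    by_cases hyM : l * x ≤ 2 * M + κ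
    · refine ⟨1, fun _ => ⟨l * x, q', hq'd, hq'l, hy0, hyM, ?_⟩, ?_⟩
      · intro z hz
        rw [hq'z z hz, norm_mul]
        exact mul_le_mul (hzl z hz) (hqz z hz) (norm_nonneg _) hl0.le
      · simp
    · push Not at hyM
      set y := l * x with hy
      set n := ⌊y / M⌋₊ with hn
      have hyM' : 2 < y / M := by
        rw [lt_div_iff₀ hMpos]; linarith
      have hn1 : (n : ℝ) ≤ y / M := Nat.floor_le (by positivity)
      have hn2 : y / M < n + 1 := Nat.lt_floor_add_one _
      have hn3 : (1 : ℝ) < n := by linarith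
      have hnpos : 0 < n := by
        have : (0:ℝ) < n := by linarith
        exact_mod_cast this
      have hn0 : (0:ℝ) < n := by linarith
      obtain ⟨f, hfd, hfs, hfe⟩ := lind_pieces d n hnpos q' hq'd
      have hyn1 : M ≤ y / n := by
        rw [le_div_iff₀ hn0]
        rw [le_div_iff₀ hMpos] at hn1
        linarith
      have hyn2 : y / n ≤ 2 * M := by
        rw [div_le_iff₀ hn0]
        rw [div_lt_iff₀ hMpos] at hn2
        nlinarith
      have hxi : ∀ i, |Polynomial.aeval l (f i) - y / n| ≤ κ := by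
        intro i
        have h3 := (hfe i (l : ℂ)).trans (hκz _ hPc0)
        rw [hcl, hcl, hq'l] at h3
        have h4 : (((Polynomial.aeval l (f i) : ℝ)) : ℂ) - ((y : ℝ) : ℂ) / n = ((Polynomial.aeval l (f i) - y / n : ℝ) : ℂ) := by
          push_cast; ring
        rw [h4, Complex.norm_real, Real.norm_eq_abs] at h3
        exact h3
      have hmem : ∀ i, Polynomial.aeval l (f i) ∈ J := by
        intro i
        have h5 := abs_le.1 (hxi i)
        have hpos : 0 < Polynomial.aeval l (f i) := by linarith [h5.1]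
        refine ⟨f i, hfd i, rfl, hpos, by linarith [h5.2], ?_⟩
        intro z hz
        rcases hroot z hz with h | h
        · rw [h, hcl, Complex.norm_real, Real.norm_eq_abs, abs_of_pos hpos]
        · have h6 := (hfe i z).trans (hκz z hz)
          have h7 : ‖Polynomial.aeval z (f i)‖ ≤ ‖Polynomial.aeval z q' / n‖ + κ := by
            have e : Polynomial.aeval z (f i) = Polynomial.aeval z q' / n + (Polynomial.aeval z (f i) - Polynomial.aeval z q' / n) := by ring
            rw [e]
            exact (norm_add_le _ _).trans (by linarith)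
          have h8 : ‖Polynomial.aeval z q' / n‖ ≤ t * (y / n) := by
            rw [hq'z z hz, norm_div, norm_mul, Complex.norm_natCast]
            have e : t * (y / n) = ρ * x / n := by
              rw [ht, hy]; field_simp
            rw [e]
            refine div_le_div_of_nonneg_right ?_ hn0.le
            exact mul_le_mul h (hqz z hz) (norm_nonneg _) hρ0
          have h9 : 2 * κ ≤ (1 - t) * (y / n) := by
            rw [← hMt, mul_comm]
            exact mul_le_mul_of_nonneg_left hyn1 (by linarith)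
          linarith [h5.1]
      refine ⟨n, fun i => ⟨_, hmem i⟩, ?_⟩
      simp only
      rw [← map_sum, hfs, hq'l]
  choose N F hF using fun x : J => key x.1 x.2
  have hft : Fintype J := hJfin.fintype
  refine ⟨J, hft, ⟨⟨1, h1J⟩⟩, fun j j' => (Finset.univ.filter (fun i : Fin (N j') => F j' i = j)).card,
    fun j => j.1, ?_, ?_⟩
  · rintro ⟨x, q, -, -, hx, -⟩
    exact hx
  · intro j'
    rw [← hF j', ← Finset.sum_fiberwise Finset.univ (F j') (fun i => ((F j' i : J) : ℝ))]
    refine Finset.sum_congr rfl (fun j _ => ?_)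
    rw [Finset.sum_congr rfl (g := fun _ => (j : ℝ))]
    · rw [Finset.sum_const, nsmul_eq_mul, mul_comm]
    · intro i hi
      rw [(Finset.mem_filter.1 hi).2]

end Pool.Agent.Helper948.Ent.A2
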