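import Mathlib

/- solved by helper882 -/


set_option autoImplicit false

namespace Pool.Agent.Helper948.Ent.A3



-- TARGET
open Classical in
/-- From a nonnegative integer matrix to a 0-1 relation with eigenvalue the b-th root of l^a, where q = a / b. Proof: let A' be the a-th power of the matrix A, so that
nu A' = l^a nu. Let E be the set of triples (j, j', i) with i < A' j j' (the edges j → j'). B = Fin b × E; R (p, e) (p', e') iff (p + 1 < b, p' = p + 1, e' = e) or
(p + 1 = b, p' = 0 and target of e = source of e'), i.e. e = (j, j', i), e' = (j', j'', i'). With rho = exp (q log l) we have rho^b = l^a. Weights: for e = (j, j', i) put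
nu' (p, e) = nu j * rho^(-p) ... please check: we need for every b' that the sum of nu' over the R-predecessors of b' is rho * nu' b'. For b' = (p+1, e) the only predecessor is (p, e), so
nu' (p, e) = rho * nu' (p+1, e); for b' = (0, e') with source j' the predecessors are (b-1, e), e with target j', so the sum over them must be rho * nu' (0, e'). With
nu' (p, (j, j', i)) = nu j * rho^(-p) the sum is rho^(-(b-1)) * sum_j nu j A' j j' = rho^(-(b-1)) rho^b nu j' = rho * nu j'. If E is empty then
nu A' = 0, impossible as l > 0. -/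
theorem tower (l : ℝ) (h1 : 1 ≤ l) (J : Type) [Fintype J] [Nonempty J] (A : J → J → ℕ) (ν : J → ℝ)
    (hν : ∀ j, 0 < ν j) (hA : ∀ j', ∑ j, ν j * (A j j' : ℝ) = l * ν j') (q : ℚ) (hq : 0 < q) :
    ∃ (B : Type) (_ : Fintype B) (_ : Nonempty B) (R : B → B → Prop) (ν' : B → ℝ), (∀ b, 0 < ν' b) ∧
      ∀ b', ∑ b, (if R b b' then ν' b else 0) = Real.exp ((q : ℝ) * Real.log l) * ν' b' := by
  classical
  have hl : 0 < l := by linarith
  -- powers
  have hpow : ∀ a : ℕ, ∃ A' : J → J → ℕ, ∀ j', ∑ j, ν j * (A' j j' : ℝ) = l ^ a * ν j' := by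
    intro a
    induction a with
    | zero =>
      refine ⟨fun j j' => if j = j' then 1 else 0, fun j' => ?_⟩
      simp
    | succ a ih =>
      obtain ⟨A', hA'⟩ := ih
      refine ⟨fun j j' => ∑ k, A' j k * A k j', fun j' => ?_⟩
      calc ∑ j, ν j * ((∑ k, A' j k * A k j' : ℕ) : ℝ)
          = ∑ j, ∑ k, ν j * (A' j k : ℝ) * (A k j' : ℝ) := by
            apply Finset.sum_congr rfl
            intro j _
            rw [Nat.cast_sum, Finset.mul_sum]
            apply Finset.sum_congr rfl
            intro k _
            push_cast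
            ring
        _ = ∑ k, ∑ j, ν j * (A' j k : ℝ) * (A k j' : ℝ) := Finset.sum_comm
        _ = ∑ k, (l ^ a * ν k) * (A k j' : ℝ) := by
            apply Finset.sum_congr rfl
            intro k _
            rw [← Finset.sum_mul, hA']
        _ = l ^ a * ∑ k, ν k * (A k j' : ℝ) := by
            rw [Finset.mul_sum]
            apply Finset.sum_congr rfl
            intro k _
            ring
        _ = l ^ (a + 1) * ν j' := by rw [hA]; ring
  obtain ⟨A', hA'⟩ := hpow q.num.toNat
  set ρ : ℝ := Real.exp ((q : ℝ) * Real.log l) with hρ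
  have hρ0 : 0 < ρ := Real.exp_pos _
  have hb : 0 < q.den := q.den_pos
  have hρb : ρ ^ q.den = l ^ q.num.toNat := by
    rw [hρ, ← Real.exp_nat_mul]
    have h1 : (q.den : ℝ) * ((q : ℝ) * Real.log l) = (q.num.toNat : ℝ) * Real.log l := by
      have h2 : (q : ℝ) = (q.num : ℝ) / (q.den : ℝ) := Rat.cast_def q
      have h3 : ((q.num.toNat : ℕ) : ℝ) = (q.num : ℝ) := by
        have h4 : ((q.num.toNat : ℕ) : ℤ) = q.num := Int.toNat_of_nonneg (Rat.num_pos.mpr hq).le
        exact_mod_cast congrArg (Int.cast (R := ℝ)) h4
      have h5 : (q.den : ℝ) ≠ 0 := by exact_mod_cast hb.ne'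
      rw [h2, h3]
      field_simp
    rw [h1, Real.exp_nat_mul, Real.exp_log hl]
  obtain ⟨j₀⟩ := (inferInstance : Nonempty J)
  have hE : Nonempty (Σ p : J × J, Fin (A' p.1 p.2)) := by
    by_contra hne
    have h0 : ∀ j, A' j j₀ = 0 := by
      intro j
      by_contra h
      exact hne ⟨⟨(j, j₀), ⟨0, Nat.pos_of_ne_zero h⟩⟩⟩
    have h1 := hA' j₀
    have h2 : ∑ j, ν j * (A' j j₀ : ℝ) = 0 := by
      apply Finset.sum_eq_zero
      intro j _
      rw [h0 j, Nat.cast_zero, mul_zero]
    rw [h2] at h1
    have h3 : 0 < l ^ q.num.toNat * ν j₀ := mul_pos (pow_pos hl _) (hν _)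
    linarith
  have : Nonempty (Fin q.den) := ⟨⟨0, hb⟩⟩
  refine ⟨Fin q.den × (Σ p : J × J, Fin (A' p.1 p.2)), inferInstance, inferInstance,
    fun x y => (y.1.val = x.1.val + 1 ∧ y.2 = x.2) ∨
      (x.1.val + 1 = q.den ∧ y.1.val = 0 ∧ x.2.1.2 = y.2.1.1),
    fun x => ν x.2.1.1 * (ρ⁻¹) ^ x.1.val, ?_, ?_⟩
  · intro x
    exact mul_pos (hν _) (pow_pos (inv_pos.mpr hρ0) _)
  · rintro ⟨p', e'⟩
    dsimp only
    rw [Fintype.sum_prod_type]
    dsimp only
    rcases Nat.eq_zero_or_pos p'.val with h0 | h0
    · -- first level
      have hlast : q.den - 1 < q.den := by omega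
      rw [Finset.sum_eq_single (⟨q.den - 1, hlast⟩ : Fin q.den)]
      · rw [Fintype.sum_sigma]
        trans ∑ p : J × J, (if p.2 = e'.1.1 then
          ν p.1 * (A' p.1 p.2 : ℝ) * (ρ⁻¹) ^ (q.den - 1) else 0)
        · apply Finset.sum_congr rfl
          intro p _
          by_cases hp : p.2 = e'.1.1
          · rw [if_pos hp]
            trans ∑ y : Fin (A' p.1 p.2), ν p.1 * (ρ⁻¹) ^ (q.den - 1)
            · apply Finset.sum_congr rfl
              intro y _
              rw [if_pos]
              right
              refine ⟨?_, h0, hp⟩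
              show q.den - 1 + 1 = q.den
              omega
            · rw [Finset.sum_const, Finset.card_univ, Fintype.card_fin, nsmul_eq_mul]
              ring
          · rw [if_neg hp]
            apply Finset.sum_eq_zero
            intro y _
            rw [if_neg]
            rintro (⟨h3, -⟩ | ⟨-, -, h3⟩)
            · rw [h0] at h3; omega
            · exact hp h3
        rw [Fintype.sum_prod_type]
        trans ∑ j : J, ν j * (A' j e'.1.1 : ℝ) * (ρ⁻¹) ^ (q.den - 1)
        · apply Finset.sum_congr rfl
          intro j _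
          rw [Finset.sum_ite_eq' Finset.univ e'.1.1]
          simp
        rw [← Finset.sum_mul, hA', ← hρb, h0, pow_zero, mul_one]
        have h3 : ρ ^ q.den = ρ * ρ ^ (q.den - 1) := by
          conv_lhs => rw [show q.den = (q.den - 1) + 1 by omega]
          rw [pow_succ]; ring
        rw [h3, inv_pow]
        field_simp
      · intro p _ hp
        apply Finset.sum_eq_zero
        intro e _
        rw [if_neg]
        rintro (⟨h3, -⟩ | ⟨h3, -, -⟩)
        · rw [h0] at h3; omega
        · apply hp
          apply Fin.ext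
          show p.val = q.den - 1
          omega
      · intro h; exact absurd (Finset.mem_univ _) h
    · -- later levels
      have hk : p'.val - 1 < q.den := by
        have := p'.isLt
        omega
      rw [Finset.sum_eq_single (⟨p'.val - 1, hk⟩ : Fin q.den)]
      · rw [Finset.sum_eq_single e']
        · rw [if_pos]
          · show ν e'.1.1 * (ρ⁻¹) ^ (p'.val - 1) = ρ * (ν e'.1.1 * (ρ⁻¹) ^ p'.val)
            have h3 : (ρ⁻¹) ^ p'.val = (ρ⁻¹) ^ (p'.val - 1) * ρ⁻¹ := by
              conv_lhs => rw [show p'.val = (p'.val - 1) + 1 by omega]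
              rw [pow_succ]
            rw [h3]
            field_simp
          · left
            refine ⟨?_, rfl⟩
            show p'.val = p'.val - 1 + 1
            omega
        · intro e _ he
          rw [if_neg]
          rintro (⟨-, h3⟩ | ⟨-, h3, -⟩)
          · exact he h3.symm
          · omega
        · intro h; exact absurd (Finset.mem_univ _) h
      · intro p _ hp
        apply Finset.sum_eq_zero
        intro e _
        rw [if_neg]
        rintro (⟨h3, -⟩ | ⟨-, h3, -⟩)
        · apply hp
          apply Fin.ext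
          show p.val = p'.val - 1
          omega
        · omega
      · intro h; exact absurd (Finset.mem_univ _) h

end Pool.Agent.Helper948.Ent.A3
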