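import Mathlib
import Pool.Agent.Helper948.Ent.A1

/- solved by helper208 -/


set_option autoImplicit false

namespace Pool.Agent.Helper948.Ent.A4
open Pool.Agent.Helper948.Ent.A1




-- TARGET
/-- states with an infinite forward path -/
def zcount_P {B : Type} (R : B → B → Prop) : Set B :=
  {b | ∃ y : ℕ → B, y 0 = b ∧ ∀ i, R (y i) (y (i + 1))}

theorem zcount_pred {B : Type} {R : B → B → Prop} {b b' : B} (h : R b b')
    (hb' : b' ∈ zcount_P R) : b ∈ zcount_P R := by
  obtain ⟨y, hy0, hy⟩ := hb'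
  refine ⟨fun i => Nat.casesOn (motive := fun _ => B) i b y, rfl, ?_⟩
  intro i
  cases i with
  | zero =>
    show R b (y 0)
    rw [hy0]; exact h
  | succ i => exact hy i

theorem zcount_glue {B : Type} {R : B → B → Prop} (x : ℤ → B) (hx : ∀ i, R (x i) (x (i + 1)))
    (n : ℤ) (b' : B) (hb' : b' ∈ zcount_P R) (h : R (x n) b') :
    ∃ x' : ℤ → B, (∀ i, R (x' i) (x' (i + 1))) ∧ (∀ i ≤ n, x' i = x i) ∧ x' (n + 1) = b' := by
  obtain ⟨y, hy0, hy⟩ := hb'
  refine ⟨fun i => if i ≤ n then x i else y (i - n - 1).toNat, ?_, ?_, ?_⟩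
  · intro i
    beta_reduce
    by_cases h1 : i + 1 ≤ n
    · rw [if_pos (by omega), if_pos h1]; exact hx i
    · by_cases h2 : i ≤ n
      · have e : i = n := by omega
        subst e
        rw [if_pos le_rfl, if_neg h1]
        have e : (i + 1 - i - 1).toNat = 0 := by omega
        rw [e, hy0]; exact h
      · rw [if_neg h2, if_neg h1]
        have e : (i + 1 - n - 1).toNat = (i - n - 1).toNat + 1 := by omega
        rw [e]; exact hy _
  · intro i hi
    exact if_pos hi
  · show (if n + 1 ≤ n then _ else _) = b'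
    rw [if_neg (by omega)]
    have e : (n + 1 - n - 1).toNat = 0 := by omega
    rw [e, hy0]

theorem zcount_in {B : Type} {R : B → B → Prop} (x : ℤ → B) (hx : ∀ i, R (x i) (x (i + 1)))
    (n : ℤ) : x n ∈ zcount_P R := by
  refine ⟨fun k => x (n + k), by simp, ?_⟩
  intro i
  have := hx (n + i)
  push_cast
  rw [← add_assoc]
  exact this

theorem zcount_ex {B : Type} {R : B → B → Prop} (hp : ∀ b', ∃ b, R b b') (b : B)
    (hb : b ∈ zcount_P R) : ∃ x : ℤ → B, (∀ i, R (x i) (x (i + 1))) ∧ x 0 = b := by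
  choose g hg using hp
  obtain ⟨y, hy0, hy⟩ := hb
  refine ⟨fun i => Int.casesOn (motive := fun _ => B) i (fun k => y k) (fun k => g^[k + 1] b),
    ?_, hy0⟩
  intro i
  cases i with
  | ofNat k => exact hy k
  | negSucc k =>
    cases k with
    | zero =>
      show R (g b) (y 0)
      rw [hy0]; exact hg b
    | succ k =>
      show R (g^[k + 1 + 1] b) (g^[k + 1] b)
      rw [Function.iterate_succ_apply' g (k + 1) b]
      exact hg _

theorem zcount_nonempty {B : Type} [Finite B] [Nonempty B] {R : B → B → Prop}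
    (hp : ∀ b', ∃ b, R b b') : (zcount_P R).Nonempty := by
  choose g hg using hp
  obtain ⟨b0⟩ : Nonempty B := inferInstance
  have hni : ¬ Function.Injective (fun k : ℕ => g^[k] b0) := not_injective_infinite_finite _
  have : ∃ i j : ℕ, i < j ∧ g^[i] b0 = g^[j] b0 := by
    unfold Function.Injective at hni
    push Not at hni
    obtain ⟨i, j, hij, hne⟩ := hni
    rcases lt_or_gt_of_ne hne with h | h
    · exact ⟨i, j, h, hij⟩
    · exact ⟨j, i, h, hij.symm⟩
  obtain ⟨i, j, hij, he⟩ := this
  obtain ⟨m, rfl⟩ := Nat.exists_eq_add_of_lt hij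
  -- m + 1 is the period
  obtain ⟨c, hc⟩ : ∃ c, c = g^[i] b0 := ⟨_, rfl⟩
  have hper : g^[m + 1] c = c := by
    rw [hc, ← Function.iterate_add_apply]
    have : m + 1 + i = i + m + 1 := by ring
    rw [this]
    exact he.symm
  refine ⟨c, fun k => g^[m * k] c, by simp, ?_⟩
  intro k
  have e : g^[m * k] c = g (g^[m * (k + 1)] c) := by
    rw [← Function.iterate_succ_apply' g]
    have : (m * (k + 1)).succ = m * k + (m + 1) := by
      rw [Nat.succ_eq_add_one]; ring
    rw [this, Function.iterate_add_apply, hper]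
  show R (g^[m * k] c) (g^[m * (k + 1)] c)
  rw [e]
  exact hg _

open Classical in
/-- words of length `n` followed by `b` -/
noncomputable def zcount_w {B : Type} [Fintype B] (R : B → B → Prop) (n : ℕ) (b : B) :
    Finset (Fin n → B) :=
  Finset.univ.filter (fun w => ∃ x : ℤ → B, (∀ i, R (x i) (x (i + 1))) ∧
    (∀ i : Fin n, w i = x ((i : ℕ) : ℤ)) ∧ x (n : ℤ) = b)

open Classical in
/-- words of length `n` -/
noncomputable def zcount_F {B : Type} [Fintype B] (R : B → B → Prop) (n : ℕ) :
    Finset (Fin n → B) :=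
  Finset.univ.filter (fun w => ∃ x : ℤ → B, (∀ i, R (x i) (x (i + 1))) ∧
    ∀ i : Fin n, w i = x ((i : ℕ) : ℤ))

theorem zcount_mem_w {B : Type} [Fintype B] (R : B → B → Prop) (n : ℕ) (b : B)
    (w : Fin n → B) : w ∈ zcount_w R n b ↔ ∃ x : ℤ → B, (∀ i, R (x i) (x (i + 1))) ∧
    (∀ i : Fin n, w i = x ((i : ℕ) : ℤ)) ∧ x (n : ℤ) = b := by
  unfold zcount_w
  simp

theorem zcount_mem_F {B : Type} [Fintype B] (R : B → B → Prop) (n : ℕ)
    (w : Fin n → B) : w ∈ zcount_F R n ↔ ∃ x : ℤ → B, (∀ i, R (x i) (x (i + 1))) ∧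
    (∀ i : Fin n, w i = x ((i : ℕ) : ℤ)) := by
  unfold zcount_F
  simp

open Classical in
theorem zcount_rec {B : Type} [Fintype B] (R : B → B → Prop) (n : ℕ) (b' : B)
    (hb' : b' ∈ zcount_P R) :
    (zcount_w R (n + 1) b').card = ∑ b, if R b b' then (zcount_w R n b).card else 0 := by
  rw [Finset.card_eq_sum_card_fiberwise (f := fun w : Fin (n + 1) → B => w (Fin.last n))
    (t := Finset.univ) (fun _ _ => Finset.mem_coe.2 (Finset.mem_univ _))]
  apply Finset.sum_congr rfl
  intro b _
  split_ifs with hR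
  · apply Finset.card_nbij' (fun w => Fin.init w) (fun v => Fin.snoc v b)
    · intro w hw
      rw [Finset.mem_coe, Finset.mem_filter, zcount_mem_w] at hw
      obtain ⟨⟨x, hx, hw1, hw2⟩, hw3⟩ := hw
      rw [Finset.mem_coe, zcount_mem_w]
      refine ⟨x, hx, ?_, ?_⟩
      · intro i
        have := hw1 i.castSucc
        simpa [Fin.init] using this
      · have := hw1 (Fin.last n)
        rw [hw3] at this
        simpa using this.symm
    · intro v hv
      rw [Finset.mem_coe, zcount_mem_w] at hv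
      obtain ⟨x, hx, hv1, hv2⟩ := hv
      obtain ⟨x', hx', h1, h2⟩ := zcount_glue x hx n b' hb' (by rw [hv2]; exact hR)
      rw [Finset.mem_coe, Finset.mem_filter, zcount_mem_w]
      refine ⟨⟨x', hx', ?_, ?_⟩, ?_⟩
      · intro i
        beta_reduce
        refine Fin.lastCases ?_ (fun i => ?_) i
        · rw [Fin.snoc_last]
          simp only [Fin.val_last]
          rw [h1 _ le_rfl, hv2]
        · rw [Fin.snoc_castSucc]
          simp only [Fin.val_castSucc]
          rw [h1 _ (by have := i.2; omega), hv1]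
      · push_cast; exact h2
      · exact Fin.snoc_last _ _
    · intro w hw
      rw [Finset.mem_coe, Finset.mem_filter] at hw
      show Fin.snoc (Fin.init w) b = w
      rw [← hw.2]
      exact Fin.snoc_init_self w
    · intro v hv
      exact Fin.init_snoc _ _
  · rw [Finset.card_eq_zero, Finset.filter_eq_empty_iff]
    intro w hw hwb
    rw [zcount_mem_w] at hw
    obtain ⟨x, hx, hw1, hw2⟩ := hw
    apply hR
    have h1 := hx n
    have h2 := hw1 (Fin.last n)
    rw [hwb] at h2
    simp only [Fin.val_last] at h2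
    push_cast at hw2
    rw [← h2, hw2] at h1
    exact h1

open Classical in
theorem zcount_bd {B : Type} [Fintype B] [Nonempty B] (R : B → B → Prop) (ν : B → ℝ) (ρ : ℝ)
    (hν : ∀ b, 0 < ν b)
    (hρ : ∀ b', ∑ b, (if R b b' then ν b else 0) = ρ * ν b') (hp : ∀ b', ∃ b, R b b') :
    ∃ c1 c2 : ℝ, 0 < c1 ∧ 0 < c2 ∧ ∀ n : ℕ, ∀ b ∈ zcount_P R,
      c1 * ρ ^ n * ν b ≤ ((zcount_w R n b).card : ℝ) ∧
      ((zcount_w R n b).card : ℝ) ≤ c2 * ρ ^ n * ν b := by
  have hs : 0 < ∑ b, ν b := Finset.sum_pos (fun b _ => hν b) Finset.univ_nonempty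
  have hs2 : 0 < ∑ b, (ν b)⁻¹ :=
    Finset.sum_pos (fun b _ => inv_pos.2 (hν b)) Finset.univ_nonempty
  refine ⟨(∑ b, ν b)⁻¹, ∑ b, (ν b)⁻¹, inv_pos.2 hs, hs2, ?_⟩
  intro n
  induction n with
  | zero =>
    intro b hb
    have h1 : (zcount_w R 0 b).card = 1 := by
      rw [Finset.card_eq_one]
      refine ⟨fun i => Fin.elim0 i, ?_⟩
      ext w
      rw [zcount_mem_w, Finset.mem_singleton]
      constructor
      · intro _
        exact Subsingleton.elim _ _
      · intro _
        obtain ⟨x, hx, hx0⟩ := zcount_ex hp b hb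
        exact ⟨x, hx, fun i => Fin.elim0 i, by simpa using hx0⟩
    rw [h1, pow_zero, mul_one, mul_one, Nat.cast_one]
    constructor
    · rw [inv_mul_le_iff₀ hs, mul_one]
      exact Finset.single_le_sum (f := ν) (fun i _ => (hν i).le) (Finset.mem_univ b)
    · have := Finset.single_le_sum (f := fun b => (ν b)⁻¹) (fun i _ => (inv_pos.2 (hν i)).le)
        (Finset.mem_univ b)
      have h2 := mul_le_mul_of_nonneg_right this (hν b).le
      rw [inv_mul_cancel₀ (hν b).ne'] at h2
      exact h2
  | succ n ih =>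
    intro b' hb'
    rw [zcount_rec R n b' hb']
    push_cast
    constructor
    · have e : (∑ b, ν b)⁻¹ * ρ ^ (n + 1) * ν b' =
          ∑ b, if R b b' then (∑ b, ν b)⁻¹ * ρ ^ n * ν b else 0 := by
        have := hρ b'
        calc (∑ b, ν b)⁻¹ * ρ ^ (n + 1) * ν b' = (∑ b, ν b)⁻¹ * ρ ^ n * (ρ * ν b') := by ring
          _ = _ := by
            rw [← this, Finset.mul_sum]
            apply Finset.sum_congr rfl
            intro b _
            split_ifs <;> simp
      rw [e]
      apply Finset.sum_le_sum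
      intro b _
      split_ifs with hR
      · exact (ih b (zcount_pred hR hb')).1
      · exact le_rfl
    · have e : (∑ b, (ν b)⁻¹) * ρ ^ (n + 1) * ν b' =
          ∑ b, if R b b' then (∑ b, (ν b)⁻¹) * ρ ^ n * ν b else 0 := by
        have := hρ b'
        calc (∑ b, (ν b)⁻¹) * ρ ^ (n + 1) * ν b' =
            (∑ b, (ν b)⁻¹) * ρ ^ n * (ρ * ν b') := by ring
          _ = _ := by
            rw [← this, Finset.mul_sum]
            apply Finset.sum_congr rfl
            intro b _
            split_ifs <;> simp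
      rw [e]
      apply Finset.sum_le_sum
      intro b _
      split_ifs with hR
      · exact (ih b (zcount_pred hR hb')).2
      · exact le_rfl


theorem zcount_le {B : Type} [Fintype B] (R : B → B → Prop) (n : ℕ) :
    ((fun x : ℤ → B => ((Finset.Ico (0 : ℤ) n : Finset ℤ) : Set ℤ).restrict x) ''
      {x : ℤ → B | ∀ i, R (x i) (x (i + 1))}).ncard ≤ (zcount_F R n).card := by
  rw [← Set.ncard_coe_finset]
  apply Set.ncard_le_ncard_of_injOn
    (fun p => fun i : Fin n => p ⟨((i : ℕ) : ℤ), by simp⟩)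
  · rintro p ⟨x, hx, rfl⟩
    rw [Finset.mem_coe, zcount_mem_F]
    exact ⟨x, hx, fun i => rfl⟩
  · intro p _ q _ hpq
    funext ⟨i, hi⟩
    have hi' := Finset.mem_Ico.1 (Finset.mem_coe.1 hi)
    obtain ⟨k, rfl⟩ := Int.eq_ofNat_of_zero_le hi'.1
    have := congrFun hpq ⟨k, by omega⟩
    exact this

open Classical in
theorem zcount_shear {B : Type} [Fintype B] (R : B → B → Prop) (S : Finset ℤ) (D n : ℕ)
    (hD : ∀ s ∈ S, s.natAbs ≤ D) (hne : (zcount_F R n).Nonempty) :
    (zcount_F R n).card ^ S.card ≤ (((fun x : ℤ → B => (S : Set ℤ).restrict x) ''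
      {x : ℤ → B | ∀ i, R (x i) (x (i + 1))}).ncard) ^ (n + 2 * D) := by
  obtain ⟨M, hM⟩ : ∃ M, M = ((fun x : ℤ → B => (S : Set ℤ).restrict x) ''
      {x : ℤ → B | ∀ i, R (x i) (x (i + 1))}).ncard := ⟨_, rfl⟩
  rw [← hM]
  have key := shearer (J := {j // j ∈ Finset.Ico (-(D : ℤ)) ((n : ℤ) + D)}) (zcount_F R n) hne
    (fun j => Finset.univ.filter (fun t : Fin n => ((t : ℕ) : ℤ) - j.1 ∈ S)) S.card ?_
  · refine key.trans ?_
    have hJ : Fintype.card {j // j ∈ Finset.Ico (-(D : ℤ)) ((n : ℤ) + D)} = n + 2 * D := by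
      rw [Fintype.card_coe, Int.card_Ico]
      omega
    rw [← hJ, ← Finset.card_univ, ← Finset.prod_const]
    apply Finset.prod_le_prod (fun _ _ => Nat.zero_le _)
    rintro j -
    rw [← Set.ncard_coe_finset, Finset.coe_image, hM]
    have hsub : ((fun x => fun t : {t // t ∈ Finset.univ.filter
        (fun t : Fin n => ((t : ℕ) : ℤ) - j.1 ∈ S)} => x t.1) '' (zcount_F R n : Set (Fin n → B))) ⊆
        (fun q : (↥(S : Set ℤ) → B) => fun t : {t // t ∈ Finset.univ.filter
        (fun t : Fin n => ((t : ℕ) : ℤ) - j.1 ∈ S)} =>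
          q ⟨((t.1 : ℕ) : ℤ) - j.1, Finset.mem_coe.2 (Finset.mem_filter.1 t.2).2⟩) ''
        ((fun x : ℤ → B => (S : Set ℤ).restrict x) ''
          {x : ℤ → B | ∀ i, R (x i) (x (i + 1))}) := by
      rintro _ ⟨w, hw, rfl⟩
      rw [Finset.mem_coe, zcount_mem_F] at hw
      obtain ⟨x, hx, hw⟩ := hw
      refine ⟨_, ⟨fun i => x (i + j.1), ?_, rfl⟩, ?_⟩
      · intro i
        have := hx (i + j.1)
        have e : i + j.1 + 1 = i + 1 + j.1 := by ring
        rw [e] at this
        exact this
      · funext t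
        show x (((t.1 : ℕ) : ℤ) - j.1 + j.1) = w t.1
        rw [sub_add_cancel, hw]
    refine (Set.ncard_le_ncard hsub (Set.toFinite _)).trans ?_
    exact Set.ncard_image_le (Set.toFinite _)
  · intro t
    have hmem : ∀ s : {s // s ∈ S}, ((t : ℕ) : ℤ) - s.1 ∈
        Finset.Ico (-(D : ℤ)) ((n : ℤ) + D) := by
      intro s
      have h1 := hD s.1 s.2
      have h2 := t.2
      rw [Finset.mem_Ico]
      omega
    rw [← Finset.card_attach (s := S)]
    apply Finset.card_le_card_of_injOn (fun s => ⟨((t : ℕ) : ℤ) - s.1, hmem s⟩)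
    · intro s _
      simp
    · intro s _ s' _ h
      have := congrArg Subtype.val h
      simp only at this
      exact Subtype.ext (by omega)

open Classical in
/-- Counting words of a one dimensional SFT with a positive eigenvector. Let X be the set of bi-infinite paths. Let L n be the number of paths of length n (n vertices; for
n ≥ 1 functions Fin n → B with R between consecutive values). Summing the weights nu of the first vertex one gets sum over paths with n vertices of nu (first) = rho^(n-1) * sum_b nu b, so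
c1 rho^n ≤ L n ≤ c2 rho^n with constants 0 < c1, c2. The number of restrictions of X to an interval of length n is the number N n of paths of length n that extend to bi-infinite paths, hence N n ≤ L n ≤ c2 rho^n. Conversely the number of
paths of length n that can be extended by m vertices on both sides is at least L (n+2m) / (L m)^2 ≥ c rho^n with c = c1/c2^2, for every m; these sets decrease with m and are finite, so they are equal to
a common set for large m, and by compactness (Koenig's lemma) each of its elements extends to a bi-infinite path; so N n ≥ c rho^n for all n. Now let S be a finite set of integers. By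
Shearer's lemma (GIVEN) applied to the family of words of X on an interval I of length n and the sets (S + j) ∩ I (j in an interval of length n + diameter of S + 1; every
point of I lies in |S| of the sets S + j) we get (N n)^|S| ≤ prod_j N((S + j) ∩ I) ≤ N(S)^(n + D), since the number of restrictions of X to a subset of a translate of S is at most that
of S (X is shift invariant). Take logarithms, divide by n, let n → ∞: |S| log rho ≤ log N(S). -/
theorem zcount {B : Type} [Fintype B] [Nonempty B] (R : B → B → Prop) (ν : B → ℝ) (ρ : ℝ)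
    (hρ0 : 0 < ρ) (hν : ∀ b, 0 < ν b)
    (hρ : ∀ b', ∑ b, (if R b b' then ν b else 0) = ρ * ν b') :
    (∀ S : Finset ℤ, ρ ^ S.card ≤ ((((fun x : ℤ → B => (S : Set ℤ).restrict x) ''
      {x : ℤ → B | ∀ i, R (x i) (x (i + 1))}).ncard : ℕ) : ℝ)) ∧
    ∃ C : ℝ, ∀ n : ℕ, ((((fun x : ℤ → B => ((Finset.Ico (0 : ℤ) n : Finset ℤ) : Set ℤ).restrict x) ''
      {x : ℤ → B | ∀ i, R (x i) (x (i + 1))}).ncard : ℕ) : ℝ) ≤ C * ρ ^ n := by
  have hp : ∀ b', ∃ b, R b b' := by
    intro b'
    by_contra hcon
    push Not at hcon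
    have h1 := hρ b'
    have h2 : ∑ b, (if R b b' then ν b else 0) = 0 :=
      Finset.sum_eq_zero (fun b _ => if_neg (hcon b))
    rw [h2] at h1
    have := mul_pos hρ0 (hν b')
    linarith
  obtain ⟨c1, c2, hc1, hc2, hbd⟩ := zcount_bd R ν ρ hν hρ hp
  obtain ⟨b0, hb0⟩ := zcount_nonempty hp
  constructor
  · intro S
    have hF : ∀ n, c1 * ρ ^ n * ν b0 ≤ ((zcount_F R n).card : ℝ) := by
      intro n
      refine (hbd n b0 hb0).1.trans ?_
      have : zcount_w R n b0 ⊆ zcount_F R n := by
        intro w hw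
        rw [zcount_mem_w] at hw
        obtain ⟨x, hx, hw, _⟩ := hw
        exact (zcount_mem_F R n w).2 ⟨x, hx, hw⟩
      exact_mod_cast Finset.card_le_card this
    have hsh : ∀ n, (zcount_F R n).card ^ S.card ≤
        (((fun x : ℤ → B => (S : Set ℤ).restrict x) ''
        {x : ℤ → B | ∀ i, R (x i) (x (i + 1))}).ncard) ^ (n + 2 * S.sup Int.natAbs) := by
      intro n
      apply zcount_shear R S (S.sup Int.natAbs) n (fun s hs => Finset.le_sup (f := Int.natAbs) hs)
      rw [← Finset.card_pos]
      have h1 := hF n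
      have h2 : 0 < c1 * ρ ^ n * ν b0 := mul_pos (mul_pos hc1 (pow_pos hρ0 n)) (hν b0)
      have h3 : (0 : ℝ) < ((zcount_F R n).card : ℝ) := lt_of_lt_of_le h2 h1
      exact_mod_cast h3
    have hMpos : 0 < ((fun x : ℤ → B => (S : Set ℤ).restrict x) ''
        {x : ℤ → B | ∀ i, R (x i) (x (i + 1))}).ncard := by
      obtain ⟨x, hx, _⟩ := zcount_ex hp b0 hb0
      rw [Set.ncard_pos (Set.toFinite _)]
      exact ⟨_, x, hx, rfl⟩
    revert hsh hMpos
    generalize ((fun x : ℤ → B => (S : Set ℤ).restrict x) ''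
        {x : ℤ → B | ∀ i, R (x i) (x (i + 1))}).ncard = M
    intro hsh hMpos
    have hM : (0 : ℝ) < M := by exact_mod_cast hMpos
    by_contra hcon
    push Not at hcon
    have ha : 1 < ρ ^ S.card / M := by rwa [one_lt_div hM]
    obtain ⟨n, hn⟩ := pow_unbounded_of_one_lt
      ((M : ℝ) ^ (2 * S.sup Int.natAbs) / (c1 * ν b0) ^ S.card) ha
    have hc : 0 < (c1 * ν b0) ^ S.card := pow_pos (mul_pos hc1 (hν b0)) _
    have h1 : (c1 * ρ ^ n * ν b0) ^ S.card ≤ (M : ℝ) ^ (n + 2 * S.sup Int.natAbs) := by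
      have h2 : (c1 * ρ ^ n * ν b0) ^ S.card ≤ ((zcount_F R n).card : ℝ) ^ S.card :=
        pow_le_pow_left₀ (mul_pos (mul_pos hc1 (pow_pos hρ0 n)) (hν b0)).le (hF n) _
      refine h2.trans ?_
      exact_mod_cast hsh n
    rw [div_lt_iff₀ hc, div_pow, div_mul_eq_mul_div, lt_div_iff₀ (pow_pos hM n)] at hn
    have h3 : (c1 * ρ ^ n * ν b0) ^ S.card = (ρ ^ S.card) ^ n * (c1 * ν b0) ^ S.card := by
      rw [mul_pow, mul_pow, mul_pow, ← pow_mul, ← pow_mul, mul_comm n]
      ring
    rw [h3, pow_add] at h1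
    linarith
  · refine ⟨c2 * ∑ b, ν b, fun n => ?_⟩
    have h1 := zcount_le R n
    have h2 : (zcount_F R n).card ≤ ∑ b, (zcount_w R n b).card := by
      have : zcount_F R n ⊆ Finset.univ.biUnion (fun b => zcount_w R n b) := by
        intro w hw
        rw [zcount_mem_F] at hw
        obtain ⟨x, hx, hw⟩ := hw
        rw [Finset.mem_biUnion]
        exact ⟨x n, Finset.mem_univ _, (zcount_mem_w R n _ w).2 ⟨x, hx, hw, rfl⟩⟩
      exact (Finset.card_le_card this).trans Finset.card_biUnion_le
    have h3 : ∀ b, ((zcount_w R n b).card : ℝ) ≤ c2 * ρ ^ n * ν b := by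
      intro b
      by_cases hb : b ∈ zcount_P R
      · exact (hbd n b hb).2
      · have : zcount_w R n b = ∅ := by
          rw [Finset.eq_empty_iff_forall_notMem]
          intro w hw
          rw [zcount_mem_w] at hw
          obtain ⟨x, hx, _, hb'⟩ := hw
          exact hb (hb' ▸ zcount_in x hx n)
        rw [this, Finset.card_empty, Nat.cast_zero]
        exact (mul_pos (mul_pos hc2 (pow_pos hρ0 n)) (hν b)).le
    have h4 : (((∑ b, (zcount_w R n b).card : ℕ)) : ℝ) ≤ ∑ b, c2 * ρ ^ n * ν b := by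
      push_cast
      exact Finset.sum_le_sum (fun b _ => h3 b)
    have h5 : ∑ b, c2 * ρ ^ n * ν b = c2 * (∑ b, ν b) * ρ ^ n := by
      rw [← Finset.mul_sum]; ring
    rw [h5] at h4
    refine le_trans ?_ h4
    exact_mod_cast h1.trans h2

end Pool.Agent.Helper948.Ent.A4
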