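import Mathlib

/- solved by helper81 -/


set_option autoImplicit false

namespace Pool.Agent.Helper948.Ent.A5



-- TARGET
theorem coind_inj {G : Type} [Group G] (t : G) (ht : ∀ n : ℤ, t ^ n = 1 → n = 0) {a b : ℤ}
    (h : t ^ a = t ^ b) : a = b := by
  have h1 : t ^ (a - b) = 1 := by rw [zpow_sub, h, mul_inv_cancel]
  have h2 := ht _ h1
  omega

theorem coind_n {G : Type} [Group G] (t : G) (ht : ∀ n : ℤ, t ^ n = 1 → n = 0) :
    ∃ n : G → ℤ, ∀ h, n (t * h) = n h + 1 := by
  let s := QuotientGroup.rightRel (Subgroup.zpowers t)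
  let rep : G → G := fun h => Quotient.out (Quotient.mk s h)
  have hrep : ∀ h, ∃ n : ℤ, t ^ n * rep h = h := by
    intro h
    have h1 : s (rep h) h := Quotient.exact (Quotient.out_eq (Quotient.mk s h))
    rw [QuotientGroup.rightRel_apply] at h1
    obtain ⟨n, hn⟩ := Subgroup.mem_zpowers_iff.1 h1
    exact ⟨n, by rw [hn]; group⟩
  choose n hn using hrep
  refine ⟨n, fun h => ?_⟩
  have hr : rep (t * h) = rep h := by
    show Quotient.out (Quotient.mk s (t * h)) = Quotient.out (Quotient.mk s h)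
    congr 1
    apply Quotient.sound
    show s (t * h) h
    rw [QuotientGroup.rightRel_apply]
    refine Subgroup.mem_zpowers_iff.2 ⟨-1, ?_⟩
    group
  have h1 := hn (t * h)
  rw [hr] at h1
  have h2 : t ^ (n h + 1) * rep h = t * h := by
    rw [add_comm, zpow_add, zpow_one, mul_assoc, hn h]
  apply coind_inj t ht
  apply mul_right_cancel (b := rep h)
  rw [h1, h2]

theorem coind_nz {G : Type} [Group G] (t : G) (n : G → ℤ) (hn : ∀ h, n (t * h) = n h + 1)
    (h : G) (i : ℤ) : n (t ^ i * h) = n h + i := by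
  induction i using Int.induction_on with
  | zero => simp
  | succ i ih =>
    have e : t ^ ((i : ℤ) + 1) * h = t * (t ^ (i : ℤ) * h) := by
      rw [add_comm, zpow_add, zpow_one, mul_assoc]
    rw [e, hn, ih]
    ring
  | pred i ih =>
    have e : t * (t ^ (-(i : ℤ) - 1) * h) = t ^ (-(i : ℤ)) * h := by
      rw [← mul_assoc, ← zpow_one_add]
      congr 2
      ring
    have h1 := hn (t ^ (-(i : ℤ) - 1) * h)
    rw [e, ih] at h1
    linarith

/-- the shift space -/
def coindX {G : Type} [Group G] (t : G) {A : Type} (R : A → A → Prop) : Set (G → A) :=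
  {x | ∀ g, R (x g) (x (t * g))}

/-- the paths -/
def coindP {A : Type} (R : A → A → Prop) : Set (ℤ → A) := {x | ∀ i, R (x i) (x (i + 1))}

theorem coind_A {G : Type} [Group G] (t : G) {k : ℕ} (R : Fin k → Fin k → Prop)
    (F F₀ F₁ : Finset G) (h0 : ∀ g ∈ F₀, g ∈ F) (h1 : ∀ g ∈ F₁, g ∈ F) (T : Set G)
    (hT : ∀ g, t * g ∈ T ↔ g ∈ T) (hF0 : ∀ g ∈ F₀, g ∈ T) (hF1 : ∀ g ∈ F₁, g ∉ T) :
    ((fun x : G → Fin k => (F₀ : Set G).restrict x) '' coindX t R).ncard *
      ((fun x : G → Fin k => (F₁ : Set G).restrict x) '' coindX t R).ncard ≤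
      ((fun x : G → Fin k => (F : Set G).restrict x) '' coindX t R).ncard := by
  classical
  let Φ : (↥(F : Set G) → Fin k) → (↥(F₀ : Set G) → Fin k) × (↥(F₁ : Set G) → Fin k) :=
    fun r => (fun i => r ⟨i.1, h0 i.1 i.2⟩, fun i => r ⟨i.1, h1 i.1 i.2⟩)
  rw [← Set.ncard_prod]
  calc _ ≤ (Φ '' ((fun x : G → Fin k => (F : Set G).restrict x) '' coindX t R)).ncard := by
        refine Set.ncard_le_ncard ?_ (Set.toFinite _)
        rintro ⟨r0, r1⟩ ⟨⟨x0, hx0, rfl⟩, ⟨x1, hx1, rfl⟩⟩
        refine ⟨_, ⟨fun g => if g ∈ T then x0 g else x1 g, ?_, rfl⟩, ?_⟩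
        · intro g
          show R (if g ∈ T then x0 g else x1 g) (if t * g ∈ T then x0 (t * g) else x1 (t * g))
          by_cases hg : g ∈ T
          · rw [if_pos hg, if_pos ((hT g).2 hg)]
            exact hx0 g
          · rw [if_neg hg, if_neg (fun h => hg ((hT g).1 h))]
            exact hx1 g
        · refine Prod.ext ?_ ?_
          · funext i
            exact if_pos (hF0 i.1 i.2)
          · funext i
            exact if_neg (hF1 i.1 i.2)
    _ ≤ _ := Set.ncard_image_le (Set.toFinite _)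

theorem coind_B {G : Type} [Group G] (t : G) (ht : ∀ n : ℤ, t ^ n = 1 → n = 0) {B : Type}
    (R : B → B → Prop) {k : ℕ} (e : B ≃ Fin k) (S : Finset ℤ) (F₀ : Finset G) (g₀ : G)
    (hS : ∀ i ∈ S, t ^ i * g₀ ∈ F₀) :
    ((fun x : ℤ → B => (S : Set ℤ).restrict x) '' coindP R).ncard ≤
      ((fun x : G → Fin k => (F₀ : Set G).restrict x) ''
        coindX t (fun a b => R (e.symm a) (e.symm b))).ncard := by
  obtain ⟨n, hn⟩ := coind_n t ht
  let Ψ : (↥(F₀ : Set G) → Fin k) → (↥(S : Set ℤ) → B) :=
    fun r i => e.symm (r ⟨t ^ i.1 * g₀, hS i.1 i.2⟩)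
  calc _ ≤ (Ψ '' ((fun x : G → Fin k => (F₀ : Set G).restrict x) ''
        coindX t (fun a b => R (e.symm a) (e.symm b)))).ncard := by
        refine Set.ncard_le_ncard ?_ (Set.toFinite _)
        rintro r ⟨y, hy, rfl⟩
        refine ⟨_, ⟨fun g => e (y (n g - n g₀)), ?_, rfl⟩, ?_⟩
        · intro g
          show R (e.symm (e (y (n g - n g₀)))) (e.symm (e (y (n (t * g) - n g₀))))
          rw [e.symm_apply_apply, e.symm_apply_apply, hn]
          have h1 : n g + 1 - n g₀ = n g - n g₀ + 1 := by ring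
          rw [h1]
          exact hy _
        · funext i
          show e.symm (e (y (n (t ^ i.1 * g₀) - n g₀))) = y i.1
          rw [e.symm_apply_apply, coind_nz t n hn]
          congr 1
          ring
    _ ≤ _ := Set.ncard_image_le (Set.toFinite _)

theorem coind_C {G : Type} [Group G] (t : G) (ht : ∀ n : ℤ, t ^ n = 1 → n = 0) {B : Type}
    (R : B → B → Prop) {k : ℕ} (e : B ≃ Fin k) (ρ : ℝ) (hρ0 : 0 < ρ)
    (h1 : ∀ S : Finset ℤ, ρ ^ S.card ≤
      ((((fun x : ℤ → B => (S : Set ℤ).restrict x) '' coindP R).ncard : ℕ) : ℝ)) :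
    ∀ (m : ℕ) (F : Finset G), F.card = m → ρ ^ F.card ≤
      ((((fun x : G → Fin k => (F : Set G).restrict x) ''
        coindX t (fun a b => R (e.symm a) (e.symm b))).ncard : ℕ) : ℝ) := by
  classical
  obtain ⟨n, hn⟩ := coind_n t ht
  intro m
  induction m using Nat.strong_induction_on with
  | _ m ih =>
  intro F hF
  rcases F.eq_empty_or_nonempty with h | ⟨g₀, hg₀⟩
  · subst h
    have h2 := coind_B t ht R e ∅ (∅ : Finset G) 1 (by simp)
    have h3 := h1 ∅
    have h4 : ((((fun x : ℤ → B => ((∅ : Finset ℤ) : Set ℤ).restrict x) '' coindP R).ncard : ℕ) : ℝ)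
        ≤ ((((fun x : G → Fin k => ((∅ : Finset G) : Set G).restrict x) ''
        coindX t (fun a b => R (e.symm a) (e.symm b))).ncard : ℕ) : ℝ) := by exact_mod_cast h2
    rw [Finset.card_empty] at h3 ⊢
    exact h3.trans h4
  · let T : Set G := {g | ∃ i : ℤ, g = t ^ i * g₀}
    have hT : ∀ g, t * g ∈ T ↔ g ∈ T := by
      intro g
      constructor
      · rintro ⟨i, hi⟩
        refine ⟨i - 1, ?_⟩
        have : g = t⁻¹ * (t * g) := by group
        rw [this, hi, ← mul_assoc, ← zpow_neg_one, ← zpow_add]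
        congr 2
        ring
      · rintro ⟨i, rfl⟩
        exact ⟨1 + i, by rw [zpow_one_add, mul_assoc]⟩
    have hTn : ∀ g ∈ T, t ^ (n g - n g₀) * g₀ = g := by
      rintro g ⟨i, rfl⟩
      rw [coind_nz t n hn]
      congr 2
      ring
    let F₀ := F.filter (fun g => g ∈ T)
    let F₁ := F.filter (fun g => ¬ g ∈ T)
    have hcard : F₀.card + F₁.card = F.card := Finset.card_filter_add_card_filter_not _
    have hF0pos : 0 < F₀.card :=
      Finset.card_pos.2 ⟨g₀, Finset.mem_filter.2 ⟨hg₀, 0, by simp⟩⟩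
    have hB : ρ ^ F₀.card ≤ ((((fun x : G → Fin k => (F₀ : Set G).restrict x) ''
        coindX t (fun a b => R (e.symm a) (e.symm b))).ncard : ℕ) : ℝ) := by
      let S := F₀.image (fun g => n g - n g₀)
      have hS : S.card = F₀.card := by
        apply Finset.card_image_of_injOn
        intro a ha b hb hab
        have ha' := hTn a (Finset.mem_filter.1 ha).2
        have hb' := hTn b (Finset.mem_filter.1 hb).2
        have hab' : n a - n g₀ = n b - n g₀ := hab
        rw [← ha', ← hb', hab']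
      have h2 := coind_B t ht R e S F₀ g₀ (by
        intro i hi
        obtain ⟨g, hg, rfl⟩ := Finset.mem_image.1 hi
        rw [hTn g (Finset.mem_filter.1 hg).2]
        exact hg)
      have h3 := h1 S
      rw [hS] at h3
      refine h3.trans ?_
      exact_mod_cast h2
    have hC := ih F₁.card (by omega) F₁ rfl
    have hA := coind_A t (fun a b => R (e.symm a) (e.symm b)) F F₀ F₁
      (fun g hg => (Finset.mem_filter.1 hg).1) (fun g hg => (Finset.mem_filter.1 hg).1) T hT
      (fun g hg => (Finset.mem_filter.1 hg).2) (fun g hg => (Finset.mem_filter.1 hg).2)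
    rw [← hcard, pow_add]
    refine (mul_le_mul hB hC (by positivity) (Nat.cast_nonneg _)).trans ?_
    exact_mod_cast hA

theorem coind_D {G : Type} [Group G] [DecidableEq G] (t : G)
    (ht : ∀ n : ℤ, t ^ n = 1 → n = 0) {B : Type}
    [Finite B] (R : B → B → Prop) {k : ℕ} (e : B ≃ Fin k) (m : ℕ) :
    ((fun x : G → Fin k => ((((Finset.Ico (0 : ℤ) m).image (fun i : ℤ => t ^ i) : Finset G)) :
        Set G).restrict x) '' coindX t (fun a b => R (e.symm a) (e.symm b))).ncard ≤
    ((fun x : ℤ → B => ((Finset.Ico (0 : ℤ) m : Finset ℤ) : Set ℤ).restrict x) ''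
      coindP R).ncard := by
  obtain ⟨n, hn⟩ := coind_n t ht
  have hidx : ∀ i : ℤ, n (t ^ i) - n 1 = i := by
    intro i
    have := coind_nz t n hn 1 i
    rw [mul_one] at this
    rw [this]
    ring
  have hmem : ∀ h ∈ (Finset.Ico (0 : ℤ) m).image (fun i : ℤ => t ^ i),
      n h - n 1 ∈ Finset.Ico (0 : ℤ) m := by
    intro h hh
    obtain ⟨i, hi, rfl⟩ := Finset.mem_image.1 hh
    rw [hidx]
    exact hi
  let Θ : (↥((Finset.Ico (0 : ℤ) m : Finset ℤ) : Set ℤ) → B) →
      (↥((((Finset.Ico (0 : ℤ) m).image (fun i : ℤ => t ^ i) : Finset G)) : Set G) → Fin k) :=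
    fun r h => e (r ⟨n h.1 - n 1, hmem h.1 h.2⟩)
  calc _ ≤ (Θ '' ((fun x : ℤ → B => ((Finset.Ico (0 : ℤ) m : Finset ℤ) : Set ℤ).restrict x) ''
      coindP R)).ncard := by
        refine Set.ncard_le_ncard ?_ (Set.toFinite _)
        rintro r ⟨x, hx, rfl⟩
        refine ⟨_, ⟨fun i => e.symm (x (t ^ i)), ?_, rfl⟩, ?_⟩
        · intro i
          have h1 := hx (t ^ i)
          rw [← zpow_one_add, add_comm] at h1
          exact h1
        · funext h
          obtain ⟨i, hi, hih⟩ := Finset.mem_image.1 h.2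
          show e (e.symm (x (t ^ (n h.1 - n 1)))) = x h.1
          rw [e.apply_symm_apply, ← hih, hidx]
    _ ≤ _ := Set.ncard_image_le (Set.toFinite _)

open Classical in
/-- The entropy of the SFT on G given by a relation along the powers of t, in the format of the frozen statement. Let X be the set of all x : G → B with R (x g) (x (t * g)) for all g (transport B to Fin k, k = card B, D = {1, t}, P = the patterns p with
not R (p 1) (p t)). G is the disjoint union of the cosets {t^i g}, and X is the product over the cosets of copies of the set of bi-infinite R-paths. So for a finite set F the number of restrictions of X to F is the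
product over the cosets of the numbers for the finite sets of integers {i | t^i g ∈ F}; by GIVEN it is at least rho^|F|. Hence log rho ≤ every term of the infimum. With F = {1, t, ..., t^(n-1)} the
term is at most (log C + n log rho)/n, so the infimum is log rho. (rho ≥ 1 because 1 ≤ number of restrictions ≤ C rho^n for every n; or rho > 0 is enough.) -/
theorem coind {G : Type} [Group G] (t : G) (ht : ∀ n : ℤ, t ^ n = 1 → n = 0)
    {B : Type} [Fintype B] [Nonempty B] (R : B → B → Prop) (ρ : ℝ) (hρ0 : 0 < ρ)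
    (h1 : ∀ S : Finset ℤ, ρ ^ S.card ≤ ((((fun x : ℤ → B => (S : Set ℤ).restrict x) ''
      {x : ℤ → B | ∀ i, R (x i) (x (i + 1))}).ncard : ℕ) : ℝ))
    (h2 : ∃ C : ℝ, ∀ n : ℕ, ((((fun x : ℤ → B => ((Finset.Ico (0 : ℤ) n : Finset ℤ) : Set ℤ).restrict x) ''
      {x : ℤ → B | ∀ i, R (x i) (x (i + 1))}).ncard : ℕ) : ℝ) ≤ C * ρ ^ n) :
    ∃ k : ℕ, ∃ D : Finset G, ∃ P : Set (G → Fin k),
        Real.log ρ = ⨅ F : {F : Finset G // F.Nonempty},
          Real.log (((fun x : G → Fin k => (F.1 : Set G).restrict x) ''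
            {x : G → Fin k | ∀ g : G, ∀ p ∈ P, ∃ d ∈ D, x (d * g) ≠ p d}).ncard : ℝ)
            / (F.1.card : ℝ) := by
  classical
  have e : B ≃ Fin (Fintype.card B) := Fintype.equivFin B
  have ht1 : t ≠ 1 := by
    intro h
    have := ht 1 (by rw [h, zpow_one])
    exact one_ne_zero this
  refine ⟨Fintype.card B, {1, t}, {p | ¬ R (e.symm (p 1)) (e.symm (p t))}, ?_⟩
  have hX : {x : G → Fin (Fintype.card B) | ∀ g : G,
      ∀ p ∈ {p : G → Fin (Fintype.card B) | ¬ R (e.symm (p 1)) (e.symm (p t))},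
      ∃ d ∈ ({1, t} : Finset G), x (d * g) ≠ p d} =
      coindX t (fun a b => R (e.symm a) (e.symm b)) := by
    ext x
    constructor
    · intro hx g
      by_contra hcon
      obtain ⟨d, hd, hne⟩ := hx g (fun d => x (d * g)) (by
        show ¬ R (e.symm (x (1 * g))) (e.symm (x (t * g)))
        rw [one_mul]
        exact hcon)
      exact hne rfl
    · intro hx g p hp
      by_contra hcon
      push Not at hcon
      have h1 := hcon 1 (by simp)
      have h2 := hcon t (by simp)
      rw [one_mul] at h1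
      apply hp
      rw [← h1, ← h2]
      exact hx g
  rw [hX]
  have hC : ∀ F : Finset G, ρ ^ F.card ≤
      ((((fun x : G → Fin (Fintype.card B) => (F : Set G).restrict x) ''
        coindX t (fun a b => R (e.symm a) (e.symm b))).ncard : ℕ) : ℝ) :=
    fun F => coind_C t ht R e ρ hρ0 h1 F.card F rfl
  have hlow : ∀ F : {F : Finset G // F.Nonempty}, Real.log ρ ≤
      Real.log (((fun x : G → Fin (Fintype.card B) => (F.1 : Set G).restrict x) ''
        coindX t (fun a b => R (e.symm a) (e.symm b))).ncard : ℝ) / (F.1.card : ℝ) := by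
    intro F
    have hc : (0 : ℝ) < F.1.card := by exact_mod_cast F.2.card_pos
    rw [le_div_iff₀ hc]
    have h3 := Real.log_le_log (pow_pos hρ0 _) (hC F.1)
    rw [Real.log_pow] at h3
    linarith
  haveI : Nonempty {F : Finset G // F.Nonempty} := ⟨⟨{1}, Finset.singleton_nonempty 1⟩⟩
  apply le_antisymm
  · exact le_ciInf hlow
  · obtain ⟨C, hC2⟩ := h2
    have hbd : BddBelow (Set.range fun F : {F : Finset G // F.Nonempty} =>
        Real.log (((fun x : G → Fin (Fintype.card B) => (F.1 : Set G).restrict x) ''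
        coindX t (fun a b => R (e.symm a) (e.symm b))).ncard : ℝ) / (F.1.card : ℝ)) := by
      refine ⟨Real.log ρ, ?_⟩
      rintro _ ⟨F, rfl⟩
      exact hlow F
    have hup : ∀ m : ℕ, (⨅ F : {F : Finset G // F.Nonempty},
        Real.log (((fun x : G → Fin (Fintype.card B) => (F.1 : Set G).restrict x) ''
        coindX t (fun a b => R (e.symm a) (e.symm b))).ncard : ℝ) / (F.1.card : ℝ)) ≤
        Real.log C * ((m : ℝ) + 1)⁻¹ + Real.log ρ := by
      intro m
      let F : Finset G := (Finset.Ico (0 : ℤ) ((m + 1 : ℕ) : ℤ)).image (fun i : ℤ => t ^ i)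
      have hFc : F.card = m + 1 := by
        show ((Finset.Ico (0 : ℤ) ((m + 1 : ℕ) : ℤ)).image (fun i : ℤ => t ^ i)).card = m + 1
        rw [Finset.card_image_of_injective _ (fun a b hab => coind_inj t ht hab), Int.card_Ico]
        simp
      have hFn : F.Nonempty := by
        rw [← Finset.card_pos, hFc]; omega
      refine (ciInf_le hbd ⟨F, hFn⟩).trans ?_
      show Real.log (((fun x : G → Fin (Fintype.card B) => (F : Set G).restrict x) ''
        coindX t (fun a b => R (e.symm a) (e.symm b))).ncard : ℝ) / (F.card : ℝ) ≤ _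
      have h3 := coind_D t ht R e (m + 1)
      have h4 := hC2 (m + 1)
      have h5 : ((((fun x : G → Fin (Fintype.card B) => (F : Set G).restrict x) ''
        coindX t (fun a b => R (e.symm a) (e.symm b))).ncard : ℕ) : ℝ) ≤ C * ρ ^ (m + 1) := by
        refine le_trans ?_ h4
        exact_mod_cast h3
      have h6 := hC F
      have h7 : 0 < C * ρ ^ (m + 1) := lt_of_lt_of_le (pow_pos hρ0 _) (h6.trans h5)
      have hCpos : 0 < C := pos_of_mul_pos_left h7 (pow_pos hρ0 _).le
      have h8 := Real.log_le_log (lt_of_lt_of_le (pow_pos hρ0 _) h6) h5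
      rw [Real.log_mul hCpos.ne' (pow_pos hρ0 _).ne', Real.log_pow] at h8
      have hm : (0 : ℝ) < (m : ℝ) + 1 := by positivity
      rw [hFc]
      push_cast at h8 ⊢
      rw [div_le_iff₀ hm]
      have e1 : (Real.log C * ((m : ℝ) + 1)⁻¹ + Real.log ρ) * ((m : ℝ) + 1) =
          Real.log C + ((m : ℝ) + 1) * Real.log ρ := by
        field_simp
      rw [e1]
      exact h8
    have hlim : Filter.Tendsto (fun m : ℕ => Real.log C * ((m : ℝ) + 1)⁻¹ + Real.log ρ)
        Filter.atTop (nhds (Real.log C * 0 + Real.log ρ)) := by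
      refine Filter.Tendsto.add_const _ (Filter.Tendsto.const_mul _ ?_)
      have := tendsto_one_div_add_atTop_nhds_zero_nat (𝕜 := ℝ)
      simpa [one_div] using this
    rw [mul_zero, zero_add] at hlim
    exact ge_of_tendsto' hlim hup

end Pool.Agent.Helper948.Ent.A5
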