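import Pool.Agent.Helper948.Ent.Defs

/- solved by helper576 -/


set_option autoImplicit false

namespace Pool.Agent.Helper948.Ent.A6
open Pool.Agent.Helper948.Dom Pool.Agent.Helper948.Ent


-- TARGET


def lift2_o (b : Bool) : ZMod 2 := if b then 1 else 0

def lift2_P (x0 x1 : Bool) (r ε : ZMod 2) : Bool :=
  (x0 && x1) || (xor x0 x1 && decide (lift2_o x1 - r = ε))

theorem lift2_inj1 : ∀ (x0 x1 y0 y1 : Bool) (r r' : ZMod 2),
    lift2_P x0 x1 r 0 = lift2_P y0 y1 r' 0 → lift2_P x0 x1 r 1 = lift2_P y0 y1 r' 1 →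
    xor x0 x1 = xor y0 y1 ∧ (x0 && x1) = (y0 && y1) := by
  decide

theorem lift2_inj2 : ∀ (x0 x1 y0 y1 : Bool) (r : ZMod 2),
    lift2_P x0 x1 r 0 = lift2_P y0 y1 r 0 → lift2_P x0 x1 r 1 = lift2_P y0 y1 r 1 →
    x0 = y0 ∧ x1 = y1 := by
  decide

theorem lift2_ne : ∀ (x0 x1 : Bool) (r : ZMod 2),
    lift2_P x0 x1 r 0 ≠ lift2_P x0 x1 r 1 → xor x0 x1 = true := by
  decide

theorem lift2_cons : ∀ (c : ZMod 2) (y0 y1 w0 w1 : Bool),
    (y0 && (if c = 0 then w0 else w1)) = false → (y1 && (if c = 0 then w1 else w0)) = false →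
    xor y0 y1 = true → xor w0 w1 = true → lift2_o w1 = lift2_o y1 + c + 1 := by
  decide

theorem lift2_dbl : ∀ (c r ε : ZMod 2) (x0 x1 z0 z1 : Bool),
    (x0 && (if c = 0 then z0 else z1)) = false → (x1 && (if c = 0 then z1 else z0)) = false →
    lift2_P x0 x1 r ε = true → (xor x0 x1 = true) ∨ (z0 = false ∧ z1 = false) := by
  decide

theorem lift2_dbl' : ∀ (c r ε : ZMod 2) (x0 x1 z0 z1 : Bool),
    (x0 && (if c = 0 then z0 else z1)) = false → (x1 && (if c = 0 then z1 else z0)) = false →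
    lift2_P z0 z1 r ε = true → (xor z0 z1 = true) ∨ (x0 = false ∧ x1 = false) := by
  decide

theorem lift2_val : ∀ (r ε : ZMod 2) (x0 x1 : Bool),
    xor x0 x1 = true → lift2_P x0 x1 r ε = true → lift2_o x1 - r = ε := by
  decide

theorem lift2_ff : ∀ (r ε : ZMod 2), lift2_P false false r ε = false := by
  decide

theorem lift2_two : ∀ c : ZMod 2, c = 0 ∨ c = 1 := by decide

theorem lift2_z2 : ∀ s : ZMod 2, s ≠ s + 1 := by decide

theorem lift2_edge {V : Type} {E : V → V → ZMod 2 → Prop} {x : V × ZMod 2 → Bool}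
    (hx : x ∈ Ind1 E) {v u : V} {c : ZMod 2} (h : E v u c) :
    (x (v, 0) && (if c = 0 then x (u, 0) else x (u, 1))) = false ∧
    (x (v, 1) && (if c = 0 then x (u, 1) else x (u, 0))) = false := by
  have h0 := hx v u c 0 h
  have h1 := hx v u c 1 h
  have hc : c = 0 ∨ c = 1 := lift2_two c
  rcases hc with hc | hc
  · subst hc
    simp only [add_zero, if_true] at h0 h1 ⊢
    refine ⟨?_, ?_⟩
    · cases hh : x (v, 0) <;> cases hk : x (u, 0) <;> simp_all
    · cases hh : x (v, 1) <;> cases hk : x (u, 1) <;> simp_all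
  · subst hc
    have e0 : (0 : ZMod 2) + 1 = 1 := by decide
    have e1 : (1 : ZMod 2) + 1 = 0 := by decide
    have e2 : ((1 : ZMod 2) = 0) = False := by simp
    rw [e0] at h0
    rw [e1] at h1
    simp only [e2, if_false]
    refine ⟨?_, ?_⟩
    · cases hh : x (v, 0) <;> cases hk : x (u, 1) <;> simp_all
    · cases hh : x (v, 1) <;> cases hk : x (u, 0) <;> simp_all

/-- class of a configuration -/
def lift2_cls {V : Type} (x : V × ZMod 2 → Bool) : (V → Bool) × (V → Bool) :=
  (fun v => xor (x (v, 0)) (x (v, 1)), fun v => x (v, 0) && x (v, 1))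

/-- Counting independent sets in a 2-lift of a bipartite graph. For x in Ind1 let m v ∈ {0,1,2} be the number of ε with x (v, ε) = true, and o_x v the ε with x (v, ε) = true if m v = 1 (otherwise 0). If E v u c and m v = m u = 1 then o_x u = o_x v + c + 1 (since
o_x u ≠ o_x v + c). For each function m which occurs choose one x_m in Ind1 with this m. Map x to the pair (p0, p1) with p_ε v = true iff m v = 2 or (m v = 1 and o_x v - o_{x_m} v + b v = ε). Since for an edge E v u c with m v = m u = 1 the function o' = o_x - o_{x_m} + b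
satisfies o' u = o' v + 1, both p0 and p1 are independent (and if m v = 2, then m u = 0 for every neighbour: if x (u, ε) is true then x (v, ε - c) is true as well, contradiction). The singly covered vertices of (p0,p1) are those with m v = 1, and o_{x_m} is the consistent lift. The map is injective since m can be read off from (p0, p1). -/
theorem lift2 {V : Type} [Finite V] (E : V → V → ZMod 2 → Prop) (b : V → ZMod 2)
    (hb : ∀ v u c, E v u c → b u = b v + 1) : (Ind1 E).ncard ≤ (Cons E).ncard := by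
  classical
  obtain ⟨rep, hrep⟩ : ∃ rep : (V → Bool) × (V → Bool) → (V × ZMod 2 → Bool),
      ∀ x ∈ Ind1 E, rep (lift2_cls x) ∈ Ind1 E ∧ lift2_cls (rep (lift2_cls x)) = lift2_cls x := by
    refine ⟨fun κ => if h : ∃ y, y ∈ Ind1 E ∧ lift2_cls y = κ then h.choose else fun _ => false, ?_⟩
    intro x hx
    have h : ∃ y, y ∈ Ind1 E ∧ lift2_cls y = lift2_cls x := ⟨x, hx, rfl⟩
    simp only [dif_pos h]
    exact h.choose_spec
  refine Set.ncard_le_ncard_of_injOn (fun x =>
    ((fun v => lift2_P (x (v, 0)) (x (v, 1)) (lift2_o (rep (lift2_cls x) (v, 1)) - b v) 0),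
     (fun v => lift2_P (x (v, 0)) (x (v, 1)) (lift2_o (rep (lift2_cls x) (v, 1)) - b v) 1)))
    ?_ ?_ (Set.toFinite _)
  · intro x hx
    obtain ⟨hr1, hr2⟩ := hrep x hx
    have hr3 : ∀ v, xor (rep (lift2_cls x) (v, 0)) (rep (lift2_cls x) (v, 1)) =
        xor (x (v, 0)) (x (v, 1)) := fun v => congrFun (congrArg Prod.fst hr2) v
    have hind : ∀ ε : ZMod 2, (fun v => lift2_P (x (v, 0)) (x (v, 1))
        (lift2_o (rep (lift2_cls x) (v, 1)) - b v) ε) ∈ Ind0 E := by
      intro ε v u c hE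
      rintro ⟨hv, hu⟩
      simp only at hv hu
      obtain ⟨e1, e2⟩ := lift2_edge hx hE
      obtain ⟨f1, f2⟩ := lift2_edge hr1 hE
      rcases lift2_dbl _ _ _ _ _ _ _ e1 e2 hv with hd | ⟨hz0, hz1⟩
      · rcases lift2_dbl' _ _ _ _ _ _ _ e1 e2 hu with hd' | ⟨hz0, hz1⟩
        · have g1 := lift2_val _ _ _ _ hd hv
          have g2 := lift2_val _ _ _ _ hd' hu
          have g3 := lift2_cons _ _ _ _ _ e1 e2 hd hd'
          have g4 := lift2_cons _ _ _ _ _ f1 f2 ((hr3 v).trans hd) ((hr3 u).trans hd')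
          rw [hb v u c hE, g3, g4] at g2
          refine lift2_z2 ε ?_
          have g5 : ε = ε + 1 := by
            calc ε = _ := g2.symm
              _ = (lift2_o (x (v, 1)) - (lift2_o (rep (lift2_cls x) (v, 1)) - b v)) + 1 := by ring
              _ = ε + 1 := by rw [g1]
          exact g5
        · rw [hz0, hz1, lift2_ff] at hv
          exact Bool.noConfusion hv
      · rw [hz0, hz1, lift2_ff] at hu
        exact Bool.noConfusion hu
    refine ⟨hind 0, hind 1, fun v => lift2_o (rep (lift2_cls x) (v, 1)), ?_⟩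
    intro v u c hE hv hu
    simp only at hv hu
    obtain ⟨f1, f2⟩ := lift2_edge hr1 hE
    exact lift2_cons _ _ _ _ _ f1 f2 ((hr3 v).trans (lift2_ne _ _ _ hv))
      ((hr3 u).trans (lift2_ne _ _ _ hu))
  · intro x _ y _ hxy
    simp only [Prod.mk.injEq] at hxy
    have hcls : lift2_cls x = lift2_cls y := by
      unfold lift2_cls
      refine Prod.ext ?_ ?_
      · funext v
        exact (lift2_inj1 _ _ _ _ _ _ (congrFun hxy.1 v) (congrFun hxy.2 v)).1
      · funext v
        exact (lift2_inj1 _ _ _ _ _ _ (congrFun hxy.1 v) (congrFun hxy.2 v)).2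
    rw [hcls] at hxy
    funext p
    obtain ⟨v, ε⟩ := p
    obtain ⟨h0, h1⟩ := lift2_inj2 _ _ _ _ _ (congrFun hxy.1 v) (congrFun hxy.2 v)
    have hε : ε = 0 ∨ ε = 1 := lift2_two ε
    rcases hε with h | h
    · rw [h]; exact h0
    · rw [h]; exact h1

end Pool.Agent.Helper948.Ent.A6
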