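import Pool.Agent.Helper948.Ent.Defs

/- solved by helper258 -/


set_option autoImplicit false

namespace Pool.Agent.Helper948.Ent.A7
open Pool.Agent.Helper948.Dom Pool.Agent.Helper948.Ent


-- TARGET


/-- Every bad place costs a constant factor. For j ≤ N let A_j be the set of pairs (x0, x1) of independent sets such that for no i < j all vertices of C i are single (v single: x0 v ≠ x1 v). Cons E is contained in A_N, because if all vertices of C i are single then the lift
o contradicts hbad. Claim |A_{j+1}| ≤ (1 - 4^(-M)) |A_j|: map p ∈ A_j to the pair p' with p'_ε v = true iff b v = ε for v ∈ C j, p'_ε u = false for u ∈ Nb j \ C j, and unchanged elsewhere. p' consists of independent sets (edges inside C j join different values of b, edges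
leaving C j end in Nb j) and p' ∈ A_j (the sets Nb i are disjoint, so nothing changes on C i, i < j), and all vertices of C j are single in p'. p is determined by p' and the restriction of p to Nb j (at most 4^M possibilities). So the elements of A_j with all
vertices of C j single are at least |A_j| / 4^M many. A_0 has |Ind0|^2 elements. -/
theorem gap {V : Type} [Finite V] (E : V → V → ZMod 2 → Prop) (b : V → ZMod 2)
    (hb : ∀ v u c, E v u c → b u = b v + 1) (N M : ℕ) (C Nb : Fin N → Finset V)
    (h1 : ∀ i, ∀ v ∈ C i, v ∈ Nb i ∧ ∀ u c, (E v u c ∨ E u v c) → u ∈ Nb i)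
    (h2 : ∀ i, (Nb i).card ≤ M) (h3 : ∀ i j, i ≠ j → Disjoint (Nb i) (Nb j))
    (hbad : ∀ i, ¬ ∃ o : V → ZMod 2, ∀ v ∈ C i, ∀ u ∈ C i, ∀ c, E v u c → o u = o v + c + 1) :
    ((Cons E).ncard : ℝ) ≤ (1 - (1 / 4 : ℝ) ^ M) ^ N * ((Ind0 E).ncard : ℝ) ^ 2 := by
  classical
  haveI : Fintype V := Fintype.ofFinite V
  let A : ℕ → Set ((V → Bool) × (V → Bool)) := fun k =>
    {p | p.1 ∈ Ind0 E ∧ p.2 ∈ Ind0 E ∧ ∀ i : Fin N, (i : ℕ) < k → ∃ v ∈ C i, p.1 v = p.2 v}
  have hq0 : (0 : ℝ) ≤ 1 - (1 / 4 : ℝ) ^ M := by
    have : (1 / 4 : ℝ) ^ M ≤ 1 := pow_le_one₀ (by norm_num) (by norm_num)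
    linarith
  have hstep : ∀ k, k < N → ((A (k + 1)).ncard : ℝ) ≤ (1 - (1 / 4 : ℝ) ^ M) * (A k).ncard := by
    intro k hk
    set j : Fin N := ⟨k, hk⟩ with hj
    let S : Set ((V → Bool) × (V → Bool)) := {p | p ∈ A k ∧ ∀ v ∈ C j, p.1 v ≠ p.2 v}
    have hSA : S ⊆ A k := fun p hp => hp.1
    have hA1 : A (k + 1) = A k \ S := by
      ext p
      constructor
      · rintro ⟨hp1, hp2, hp3⟩
        refine ⟨⟨hp1, hp2, fun i hi => hp3 i (by omega)⟩, ?_⟩
        rintro ⟨-, hs⟩
        obtain ⟨v, hv, he⟩ := hp3 j (by show k < k + 1; omega)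
        exact hs v hv he
      · rintro ⟨hp, hns⟩
        have hp' := hp
        obtain ⟨hp1, hp2, hp3⟩ := hp'
        refine ⟨hp1, hp2, fun i hi => ?_⟩
        by_cases hik : (i : ℕ) < k
        · exact hp3 i hik
        · have hij : i = j := Fin.ext (by show (i : ℕ) = k; omega)
          by_contra hcon
          apply hns
          refine ⟨hp, fun v hv he => hcon ⟨v, ?_, he⟩⟩
          rw [hij]
          exact hv
    have hcardA : (A (k + 1)).ncard + S.ncard = (A k).ncard := by
      rw [hA1]
      exact Set.ncard_sdiff_add_ncard_of_subset hSA (Set.toFinite _)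
    -- the map
    let P : ZMod 2 → (V → Bool) → V → Bool := fun ε x v =>
      if v ∈ C j then decide (b v = ε) else if v ∈ Nb j then false else x v
    have hPout : ∀ ε x v, v ∉ Nb j → P ε x v = x v := by
      intro ε x v hv
      have hvC : v ∉ C j := fun hc => hv (h1 j v hc).1
      simp only [P, if_neg hvC, if_neg hv]
    have hPin : ∀ ε x v, v ∈ C j → P ε x v = decide (b v = ε) := by
      intro ε x v hv
      simp only [P, if_pos hv]
    have hPmid : ∀ ε x v, v ∉ C j → v ∈ Nb j → P ε x v = false := by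
      intro ε x v hv hv'
      simp only [P, if_neg hv, if_pos hv']
    have hPind : ∀ ε x, x ∈ Ind0 E → P ε x ∈ Ind0 E := by
      intro ε x hx v u c hE ⟨hv, hu⟩
      by_cases hvC : v ∈ C j
      · have huN : u ∈ Nb j := (h1 j v hvC).2 u c (Or.inl hE)
        by_cases huC : u ∈ C j
        · rw [hPin ε x v hvC, decide_eq_true_eq] at hv
          rw [hPin ε x u huC, decide_eq_true_eq] at hu
          have h4 := hb v u c hE
          rw [hv, hu] at h4
          have h5 : ∀ t : ZMod 2, t ≠ t + 1 := by decide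
          exact absurd h4 (h5 ε)
        · rw [hPmid ε x u huC huN] at hu
          exact absurd hu (by decide)
      · by_cases hvN : v ∈ Nb j
        · rw [hPmid ε x v hvC hvN] at hv
          exact absurd hv (by decide)
        · by_cases huC : u ∈ C j
          · exact hvN ((h1 j u huC).2 v c (Or.inr hE))
          · by_cases huN : u ∈ Nb j
            · rw [hPmid ε x u huC huN] at hu
              exact absurd hu (by decide)
            · rw [hPout ε x v hvN] at hv
              rw [hPout ε x u huN] at hu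
              exact hx v u c hE ⟨hv, hu⟩
    have hcardS : (A k).ncard ≤ S.ncard * 4 ^ M := by
      let f : ((V → Bool) × (V → Bool)) → ((V → Bool) × (V → Bool)) ×
          ((↥(Nb j) → Bool) × (↥(Nb j) → Bool)) := fun p =>
        ((P 0 p.1, P 1 p.2), (fun v => p.1 v.1, fun v => p.2 v.1))
      have hf1 : ∀ p ∈ A k, f p ∈ S ×ˢ (Set.univ : Set ((↥(Nb j) → Bool) × (↥(Nb j) → Bool))) := by
        rintro p ⟨hp1, hp2, hp3⟩
        refine ⟨⟨⟨hPind 0 _ hp1, hPind 1 _ hp2, ?_⟩, ?_⟩, Set.mem_univ _⟩
        · intro i hi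
          obtain ⟨v, hv, he⟩ := hp3 i hi
          have hij : i ≠ j := by
            intro h
            rw [h] at hi
            exact absurd hi (lt_irrefl k)
          have hvN : v ∉ Nb j := fun h => (Finset.disjoint_left.mp (h3 i j hij)) (h1 i v hv).1 h
          refine ⟨v, hv, ?_⟩
          show P 0 p.1 v = P 1 p.2 v
          rw [hPout _ _ v hvN, hPout _ _ v hvN]
          exact he
        · intro v hv
          show P 0 p.1 v ≠ P 1 p.2 v
          rw [hPin _ _ v hv, hPin _ _ v hv]
          have : ∀ t : ZMod 2, decide (t = 0) ≠ decide (t = 1) := by decide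
          exact this (b v)
      have hf2 : Set.InjOn f (A k) := by
        intro p _ p' _ hpp
        simp only [f, Prod.mk.injEq] at hpp
        obtain ⟨⟨e1, e2⟩, e3, e4⟩ := hpp
        apply Prod.ext
        · funext v
          by_cases hv : v ∈ Nb j
          · exact congrFun e3 ⟨v, hv⟩
          · have := congrFun e1 v
            rw [hPout _ _ v hv, hPout _ _ v hv] at this
            exact this
        · funext v
          by_cases hv : v ∈ Nb j
          · exact congrFun e4 ⟨v, hv⟩
          · have := congrFun e2 v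
            rw [hPout _ _ v hv, hPout _ _ v hv] at this
            exact this
      refine (Set.ncard_le_ncard_of_injOn f hf1 hf2 (Set.toFinite _)).trans ?_
      rw [Set.ncard_prod, Set.ncard_univ, Nat.card_eq_fintype_card, Fintype.card_prod,
        Fintype.card_fun, Fintype.card_coe, Fintype.card_bool]
      apply Nat.mul_le_mul_left
      rw [← mul_pow]
      exact Nat.pow_le_pow_right (by norm_num) (h2 j)
    have h5 : ((A k).ncard : ℝ) ≤ S.ncard * 4 ^ M := by exact_mod_cast hcardS
    have h6 : ((A (k + 1)).ncard : ℝ) + S.ncard = (A k).ncard := by exact_mod_cast hcardA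
    have h7 : (1 / 4 : ℝ) ^ M * (A k).ncard ≤ S.ncard := by
      have h8 := mul_le_mul_of_nonneg_left h5 (by positivity : (0 : ℝ) ≤ (1 / 4 : ℝ) ^ M)
      have h9 : (1 / 4 : ℝ) ^ M * ((S.ncard : ℝ) * 4 ^ M) = S.ncard := by
        rw [mul_left_comm, ← mul_pow]
        norm_num
      linarith
    linarith [sub_mul (1 : ℝ) ((1 / 4 : ℝ) ^ M) ((A k).ncard : ℝ)]
  have hall : ∀ k, k ≤ N → ((A k).ncard : ℝ) ≤
      (1 - (1 / 4 : ℝ) ^ M) ^ k * ((Ind0 E).ncard : ℝ) ^ 2 := by
    intro k
    induction k with
    | zero =>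
      intro _
      have : A 0 = Ind0 E ×ˢ Ind0 E := by
        ext p
        constructor
        · rintro ⟨hp1, hp2, -⟩
          exact ⟨hp1, hp2⟩
        · rintro ⟨hp1, hp2⟩
          exact ⟨hp1, hp2, fun i hi => absurd hi (Nat.not_lt_zero _)⟩
      rw [this, Set.ncard_prod, pow_zero, one_mul, Nat.cast_mul, sq]
    | succ k ih =>
      intro hk
      refine (hstep k (by omega)).trans ?_
      rw [pow_succ', mul_assoc]
      exact mul_le_mul_of_nonneg_left (ih (by omega)) hq0
  refine le_trans ?_ (hall N le_rfl)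
  have hsub : Cons E ⊆ A N := by
    rintro p ⟨hp1, hp2, o, ho⟩
    refine ⟨hp1, hp2, fun i _ => ?_⟩
    by_contra hcon
    push Not at hcon
    exact hbad i ⟨o, fun v hv u hu c hE => ho v u c hE (hcon v hv) (hcon u hu)⟩
  exact_mod_cast Set.ncard_le_ncard hsub (Set.toFinite _)

end Pool.Agent.Helper948.Ent.A7
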