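import Mathlib

/- solved by helper545 -/


set_option autoImplicit false

namespace Pool.Agent.Helper948.Ent.A8



-- TARGET
/-- Greedy choice: take a maximal subset S of Pos such that the sets Nb v (v ∈ S) are pairwise disjoint. Every element of Pos is in S or its Nb meets Nb w for some w ∈ S; for each w at most M * M elements v have this property (each u lies in at most M sets Nb v). Note that Nb v is nonempty. -/
theorem select {V : Type} (Pos : Finset V) (Nb : V → Finset V) (M : ℕ)
    (h1 : ∀ v ∈ Pos, v ∈ Nb v) (h2 : ∀ v ∈ Pos, (Nb v).card ≤ M)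
    (h3 : ∀ u, ({v ∈ (Pos : Set V) | u ∈ Nb v}).ncard ≤ M) :
    ∃ S ⊆ Pos, (∀ v ∈ S, ∀ w ∈ S, v ≠ w → Disjoint (Nb v) (Nb w)) ∧ Pos.card ≤ S.card * (M * M) := by
  classical
  let P : Finset V → Prop := fun S => ∀ v ∈ S, ∀ w ∈ S, v ≠ w → Disjoint (Nb v) (Nb w)
  have hne : (Pos.powerset.filter P).Nonempty := by
    refine ⟨∅, Finset.mem_filter.mpr ⟨Finset.empty_mem_powerset _, ?_⟩⟩
    intro v hv
    exact absurd hv (Finset.notMem_empty v)
  obtain ⟨S, hS, hmax⟩ := Finset.exists_max_image (Pos.powerset.filter P) Finset.card hne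
  rw [Finset.mem_filter, Finset.mem_powerset] at hS
  obtain ⟨hSP, hSd⟩ := hS
  have hSd' : ∀ v ∈ S, ∀ w ∈ S, v ≠ w → Disjoint (Nb v) (Nb w) := hSd
  refine ⟨S, hSP, hSd', ?_⟩
  have hcov : ∀ v ∈ Pos, ∃ w ∈ S, ∃ u ∈ Nb w, u ∈ Nb v := by
    intro v hv
    by_cases hvS : v ∈ S
    · exact ⟨v, hvS, v, h1 v hv, h1 v hv⟩
    · by_contra hcon
      push Not at hcon
      have hins : insert v S ∈ Pos.powerset.filter P := by
        rw [Finset.mem_filter, Finset.mem_powerset]
        refine ⟨Finset.insert_subset hv hSP, ?_⟩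
        intro a ha b hb hab
        rcases Finset.mem_insert.mp ha with ha1 | ha1
        · rcases Finset.mem_insert.mp hb with hb1 | hb1
          · exact absurd (ha1.trans hb1.symm) hab
          · rw [ha1, Finset.disjoint_left]
            intro u hu hub
            exact hcon b hb1 u hub hu
        · rcases Finset.mem_insert.mp hb with hb1 | hb1
          · rw [hb1, Finset.disjoint_left]
            intro u hu hub
            exact hcon a ha1 u hu hub
          · exact hSd' a ha1 b hb1 hab
      have := hmax _ hins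
      rw [Finset.card_insert_of_notMem hvS] at this
      omega
  have hsub : Pos ⊆ S.biUnion fun w => (Nb w).biUnion fun u => Pos.filter fun v => u ∈ Nb v := by
    intro v hv
    obtain ⟨w, hw, u, hu, huv⟩ := hcov v hv
    exact Finset.mem_biUnion.mpr ⟨w, hw, Finset.mem_biUnion.mpr ⟨u, hu,
      Finset.mem_filter.mpr ⟨hv, huv⟩⟩⟩
  have hM : ∀ u, (Pos.filter fun v => u ∈ Nb v).card ≤ M := by
    intro u
    have h4 := h3 u
    have h5 : ({v ∈ (Pos : Set V) | u ∈ Nb v}) = ((Pos.filter fun v => u ∈ Nb v : Finset V) : Set V) := by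
      ext v
      simp
    rwa [h5, Set.ncard_coe_finset] at h4
  refine (Finset.card_le_card hsub).trans ?_
  rw [← smul_eq_mul]
  refine Finset.card_biUnion_le.trans ?_
  refine Finset.sum_le_card_nsmul _ _ _ fun w hw => ?_
  refine Finset.card_biUnion_le.trans ?_
  refine (Finset.sum_le_card_nsmul _ _ _ fun u _ => hM u).trans ?_
  rw [smul_eq_mul]
  exact Nat.mul_le_mul_right _ (h2 w (hSP hw))

end Pool.Agent.Helper948.Ent.A8
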