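import Pool.Agent.Helper948.Ent.Defs

/- solved by helper393 -/


set_option autoImplicit false

namespace Pool.Agent.Helper948.Ent.B1
open Pool.Agent.Helper948.Dom Pool.Agent.Helper948.Ent






-- TARGET
theorem path_tz_mul (g h : F) : tz (g * h) = tz g + tz h := by
  simp only [tz, map_mul, toAdd_mul]

theorem path_tz_inv (g : F) : tz (g⁻¹) = - tz g := by
  simp only [tz, map_inv, toAdd_inv]

theorem path_tz_fa : tz fa = 0 := by
  simp [tz, tau, fa]

theorem path_tz_ft : tz ft = 1 := by
  simp [tz, tau, ft]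

theorem path_tz_one : tz (1 : F) = 0 := by
  simp [tz]

theorem path_cons (x : Fin 2 × Bool) (v : List (Fin 2 × Bool)) :
    FreeGroup.mk (x :: v) = FreeGroup.mk [x] * FreeGroup.mk v := by
  rw [FreeGroup.mul_mk]
  rfl

theorem path_letters (x : Fin 2 × Bool) :
    FreeGroup.mk [x] = fa ∨ FreeGroup.mk [x] = fa⁻¹ ∨ FreeGroup.mk [x] = ft ∨
      FreeGroup.mk [x] = ft⁻¹ := by
  obtain ⟨c, b⟩ := x
  fin_cases c <;> cases b
  · right; left
    rfl
  · left
    rfl
  · right; right; right
    rfl
  · right; right; left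
    rfl

theorem path_aux (u : List (Fin 2 × Bool)) : ∀ i : ℕ, u.length ≤ i →
    ∃ i' : ℕ, (i' : ℤ) = (i : ℤ) - tz (FreeGroup.mk u) ∧ i' ≤ i + u.length ∧ i ≤ i' + u.length ∧
      ft ^ i' * FreeGroup.mk u * (ft ^ i)⁻¹ ∈ W (i + u.length) := by
  induction u with
  | nil =>
    intro i _
    have e : FreeGroup.mk ([] : List (Fin 2 × Bool)) = 1 := rfl
    refine ⟨i, ?_, by simp, by simp, ?_⟩
    · rw [e, path_tz_one, sub_zero]
    · rw [e, mul_one, mul_inv_cancel]
      exact one_mem _
  | cons x v ih =>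
    intro i hi
    rw [List.length_cons] at hi ⊢
    obtain ⟨j, h1, h2, h3, h4⟩ := ih i (by omega)
    have h5 : ft ^ j * FreeGroup.mk v * (ft ^ i)⁻¹ ∈ W (i + (v.length + 1)) :=
      W_mono (by omega) h4
    have hA : A j ∈ W (i + (v.length + 1)) := A_mem (by omega)
    rw [path_cons]
    rcases path_letters x with hx | hx | hx | hx
    · rw [hx]
      refine ⟨j, ?_, by omega, by omega, ?_⟩
      · rw [path_tz_mul, path_tz_fa, h1]; ring
      · have e : ft ^ j * (fa * FreeGroup.mk v) * (ft ^ i)⁻¹ =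
            A j * (ft ^ j * FreeGroup.mk v * (ft ^ i)⁻¹) := by
          simp only [A]; group
        rw [e]
        exact mul_mem hA h5
    · rw [hx]
      refine ⟨j, ?_, by omega, by omega, ?_⟩
      · rw [path_tz_mul, path_tz_inv, path_tz_fa, h1]; ring
      · have e : ft ^ j * (fa⁻¹ * FreeGroup.mk v) * (ft ^ i)⁻¹ =
            (A j)⁻¹ * (ft ^ j * FreeGroup.mk v * (ft ^ i)⁻¹) := by
          simp only [A]; group
        rw [e]
        exact mul_mem (inv_mem hA) h5
    · rw [hx]
      obtain ⟨k, rfl⟩ : ∃ k, j = k + 1 := ⟨j - 1, by omega⟩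
      refine ⟨k, ?_, by omega, by omega, ?_⟩
      · rw [path_tz_mul, path_tz_ft]
        push_cast at h1
        linarith
      · have e : ft ^ k * (ft * FreeGroup.mk v) * (ft ^ i)⁻¹ =
            ft ^ (k + 1) * FreeGroup.mk v * (ft ^ i)⁻¹ := by
          rw [pow_succ]; group
        rw [e]
        exact h5
    · rw [hx]
      refine ⟨j + 1, ?_, by omega, by omega, ?_⟩
      · rw [path_tz_mul, path_tz_inv, path_tz_ft]
        push_cast
        linarith
      · have e : ft ^ (j + 1) * (ft⁻¹ * FreeGroup.mk v) * (ft ^ i)⁻¹ =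
            ft ^ j * FreeGroup.mk v * (ft ^ i)⁻¹ := by
          rw [pow_succ]; group
        rw [e]
        exact h5


/-- Path lemma: t^i' u t^(-i) lies in W (i+s), where i' = i - tz u. Induction on the word u (the last letter is applied first; FreeGroup.mk (s :: w) = letter * FreeGroup.mk w):
the letter a at depth j contributes A j = t^j a t^(-j) (and t^(i') a^{±1} t^(-i') is A i' or its inverse), the letter t lowers the depth by one and t^{-1} raises it by one.
Generalise to: for words of length ≤ s' ≤ s the depth i' satisfies i - s' ≤ i' ≤ i + s' and the element lies in W (i + s'). -/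
theorem path (u : List (Fin 2 × Bool)) (s i : ℕ) (hu : u.length ≤ s) (hi : s ≤ i) :
    ∃ i' : ℕ, (i' : ℤ) = (i : ℤ) - tz (FreeGroup.mk u) ∧ i' ≤ i + s ∧ i ≤ i' + s ∧
      ft ^ i' * FreeGroup.mk u * (ft ^ i)⁻¹ ∈ W (i + s) := by
  obtain ⟨i', h1, h2, h3, h4⟩ := path_aux u i (hu.trans hi)
  exact ⟨i', h1, by omega, by omega, W_mono (by omega) h4⟩

end Pool.Agent.Helper948.Ent.B1
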