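import Mathlib

/- solved by helper474 -/


set_option autoImplicit false

namespace Pool.Agent.Helper948.Ent.B10



-- TARGET
open Filter Topology in
theorem int_weight_real {ι κ : Type*} [Fintype ι] [Fintype κ] (M : κ → ι → ℤ) (S : Set ι)
    (w : ι → ℝ) (c : ℝ)
    (h : ∀ ε : ℝ, 0 < ε → ∃ x : ι → ℝ, (∀ i, 0 ≤ x i) ∧ ∑ i, x i = 1 ∧ (∀ i, i ∉ S → x i ≤ ε) ∧
      (∀ k, ∑ i, (M k i : ℝ) * x i = 0) ∧ c - ε ≤ ∑ i, w i * x i) :
    ∃ x : ι → ℝ, (∀ i, 0 ≤ x i) ∧ ∑ i, x i = 1 ∧ (∀ i, i ∉ S → x i = 0) ∧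
      (∀ k, ∑ i, (M k i : ℝ) * x i = 0) ∧ c ≤ ∑ i, w i * x i := by
  have h' : ∀ n : ℕ, ∃ x : ι → ℝ, (∀ i, 0 ≤ x i) ∧ ∑ i, x i = 1 ∧
      (∀ i, i ∉ S → x i ≤ 1 / ((n : ℝ) + 1)) ∧
      (∀ k, ∑ i, (M k i : ℝ) * x i = 0) ∧ c - 1 / ((n : ℝ) + 1) ≤ ∑ i, w i * x i :=
    fun n => h _ (by positivity)
  choose x hx0 hx1 hxS hxM hxw using h'
  obtain ⟨y, hy, φ, hφ, hlim⟩ := (isCompact_stdSimplex ℝ ι).tendsto_subseq (x := x)
    (fun n => ⟨hx0 n, hx1 n⟩)
  have hcoord : ∀ i, Tendsto (fun n => x (φ n) i) atTop (𝓝 (y i)) := fun i =>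
    (tendsto_pi_nhds.1 hlim) i
  have h2 : Tendsto (fun n : ℕ => 1 / (((φ n : ℕ) : ℝ) + 1)) atTop (𝓝 0) :=
    tendsto_one_div_add_atTop_nhds_zero_nat.comp hφ.tendsto_atTop
  refine ⟨y, hy.1, hy.2, ?_, ?_, ?_⟩
  · intro i hi
    exact le_antisymm (le_of_tendsto_of_tendsto' (hcoord i) h2 (fun n => hxS (φ n) i hi)) (hy.1 i)
  · intro k
    have h1 : Tendsto (fun n => ∑ i, (M k i : ℝ) * x (φ n) i) atTop
        (𝓝 (∑ i, (M k i : ℝ) * y i)) :=
      tendsto_finsetSum _ (fun i _ => (hcoord i).const_mul _)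
    refine tendsto_nhds_unique h1 ?_
    have : (fun n => ∑ i, (M k i : ℝ) * x (φ n) i) = fun _ => 0 := by
      funext n
      exact hxM _ k
    rw [this]
    exact tendsto_const_nhds
  · have h1 : Tendsto (fun n => ∑ i, w i * x (φ n) i) atTop (𝓝 (∑ i, w i * y i)) :=
      tendsto_finsetSum _ (fun i _ => (hcoord i).const_mul _)
    have h3 : Tendsto (fun n : ℕ => c - 1 / (((φ n : ℕ) : ℝ) + 1)) atTop (𝓝 (c - 0)) :=
      h2.const_sub c
    rw [sub_zero] at h3
    exact le_of_tendsto_of_tendsto' h3 h1 (fun n => hxw (φ n))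

theorem int_weight_rat {ι κ : Type*} [Fintype ι] [Fintype κ] (M : κ → ι → ℤ) (w : ι → ℝ) (a : ℝ)
    (x : ι → ℝ)
    (hx : ∀ i, 0 ≤ x i) (hM : ∀ k, ∑ i, (M k i : ℝ) * x i = 0)
    (hw : a * ∑ i, x i < ∑ i, w i * x i) :
    ∃ z : ι → ℚ, (∀ i, 0 ≤ z i) ∧ (∀ i, 0 < x i → 0 < z i) ∧ (∀ i, x i = 0 → z i = 0) ∧
      (∀ k, ∑ i, (M k i : ℚ) * z i = 0) ∧ a * ∑ i, (z i : ℝ) < ∑ i, w i * (z i : ℝ) := by
  classical
  let U : Submodule ℚ ℝ := Submodule.span ℚ (Set.range x)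
  have : FiniteDimensional ℚ U := FiniteDimensional.span_of_finite ℚ (Set.finite_range x)
  let b := Module.finBasis ℚ U
  have hxU : ∀ i, x i ∈ U := fun i => Submodule.subset_span ⟨i, rfl⟩
  let u : ι → U := fun i => ⟨x i, hxU i⟩
  -- the continuous functions
  have hrep : ∀ i, x i = ∑ j, ((b.repr (u i) j : ℚ) : ℝ) * ((b j : U) : ℝ) := by
    intro i
    have h1 := b.sum_repr (u i)
    have h2 := congrArg (fun w : U => (w : ℝ)) h1
    simp only [Submodule.coe_sum, Submodule.coe_smul] at h2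
    have h3 : ((u i : U) : ℝ) = x i := rfl
    rw [h3] at h2
    rw [← h2]
    apply Finset.sum_congr rfl
    intro j _
    rw [Rat.smul_def]
  have hopen : IsOpen ({e : Fin (Module.finrank ℚ U) → ℝ |
      ∀ i, 0 < x i → 0 < ∑ j, ((b.repr (u i) j : ℚ) : ℝ) * e j} ∩
      {e | a * ∑ i, ∑ j, ((b.repr (u i) j : ℚ) : ℝ) * e j <
        ∑ i, w i * ∑ j, ((b.repr (u i) j : ℚ) : ℝ) * e j}) := by
    refine IsOpen.inter ?_ (isOpen_lt (by fun_prop) (by fun_prop))
    have : {e : Fin (Module.finrank ℚ U) → ℝ |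
      ∀ i, 0 < x i → 0 < ∑ j, ((b.repr (u i) j : ℚ) : ℝ) * e j} = ⋂ i, {e | 0 < x i → 
        0 < ∑ j, ((b.repr (u i) j : ℚ) : ℝ) * e j} := by
      ext e
      simp
    rw [this]
    apply isOpen_iInter_of_finite
    intro i
    by_cases hi : 0 < x i
    · simp only [hi, true_imp_iff]
      exact isOpen_lt continuous_const (by fun_prop)
    · simp only [hi, false_imp_iff]
      exact isOpen_univ
  have hdense : DenseRange (Pi.map (fun (_ : Fin (Module.finrank ℚ U)) (q : ℚ) => (q : ℝ))) :=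
    DenseRange.piMap (fun _ => Rat.denseRange_cast)
  obtain ⟨_, ⟨hy, hyw⟩, ⟨v, rfl⟩⟩ := hdense.inter_open_nonempty _ hopen
    ⟨fun j => ((b j : U) : ℝ), by
      intro i hi
      show 0 < ∑ j, ((b.repr (u i) j : ℚ) : ℝ) * ((b j : U) : ℝ)
      rw [← hrep i]
      exact hi, by
      show a * ∑ i, ∑ j, ((b.repr (u i) j : ℚ) : ℝ) * ((b j : U) : ℝ) <
        ∑ i, w i * ∑ j, ((b.repr (u i) j : ℚ) : ℝ) * ((b j : U) : ℝ)
      have h1 : ∑ i, ∑ j, ((b.repr (u i) j : ℚ) : ℝ) * ((b j : U) : ℝ) = ∑ i, x i :=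
        Finset.sum_congr rfl fun i _ => (hrep i).symm
      have h2 : ∑ i, w i * ∑ j, ((b.repr (u i) j : ℚ) : ℝ) * ((b j : U) : ℝ) = ∑ i, w i * x i :=
        Finset.sum_congr rfl fun i _ => by rw [← hrep i]
      rw [h1, h2]
      exact hw⟩
  let T : U →ₗ[ℚ] ℚ := b.constr ℚ v
  have hT : ∀ w : U, T w = ∑ j, b.repr w j * v j := by
    intro w
    simp only [T]
    rw [Module.Basis.constr_apply_fintype]
    apply Finset.sum_congr rfl
    intro j _
    rw [smul_eq_mul, Module.Basis.equivFun_apply]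
  have hTc : ∀ i, ((T (u i) : ℚ) : ℝ) = ∑ j, ((b.repr (u i) j : ℚ) : ℝ) *
        (Pi.map (fun (_ : Fin (Module.finrank ℚ U)) (q : ℚ) => (q : ℝ)) v) j := by
    intro i
    rw [hT]
    push_cast
    rfl
  have hpos : ∀ i, 0 < x i → 0 < T (u i) := by
    intro i hi
    have h1 := hy i hi
    rw [← hTc] at h1
    exact_mod_cast h1
  have hzero : ∀ i, x i = 0 → T (u i) = 0 := by
    intro i hi
    have : u i = 0 := Subtype.ext hi
    rw [this, map_zero]
  refine ⟨fun i => T (u i), ?_, hpos, hzero, ?_, ?_⟩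
  · intro i
    rcases (hx i).lt_or_eq with h | h
    · exact (hpos i h).le
    · exact (hzero i h.symm).ge
  · intro k
    have h1 : ∑ i, (M k i : ℚ) • u i = 0 := by
      apply Subtype.ext
      simp only [Submodule.coe_sum, Submodule.coe_smul, Submodule.coe_zero]
      rw [← hM k]
      apply Finset.sum_congr rfl
      intro i _
      rw [Rat.smul_def]
      push_cast
      rfl
    have h2 := congrArg T h1
    rw [map_sum, map_zero] at h2
    rw [← h2]
    apply Finset.sum_congr rfl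
    intro i _
    rw [map_smul, smul_eq_mul]
  · have h1 : a * ∑ i, ∑ j, ((b.repr (u i) j : ℚ) : ℝ) *
        (Pi.map (fun (_ : Fin (Module.finrank ℚ U)) (q : ℚ) => (q : ℝ)) v) j <
        ∑ i, w i * ∑ j, ((b.repr (u i) j : ℚ) : ℝ) *
        (Pi.map (fun (_ : Fin (Module.finrank ℚ U)) (q : ℚ) => (q : ℝ)) v) j := hyw
    simp only [← hTc] at h1
    exact h1

/-- Linear programming. Step 1 (compactness of the simplex): there is a real x ≥ 0 with sum 1, x i = 0 for i ∉ S, M x = 0 and sum w i x i ≥ c (take ε = 1/n, a convergent subsequence in the compact standard simplex). Step 2: rational points are dense in the kernel of an integer matrix restricted to the coordinates where x i > 0: let V be the rational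
subspace of ℚ^ι of all z with M z = 0 and z i = 0 whenever x i = 0; x lies in its real span (the kernel of a rational system has a rational basis; e.g. take a basis of ℝ over ℚ-span of the coordinates x i, or use the argument that a real solution is a limit of rational ones via LinearMap / Submodule.baseChange, or: write x = sum_j β_j z_j where the β_j are ℚ-linearly independent reals spanning the ℚ-span of the
coordinates and z_j ∈ ℚ^ι; then M z_j = 0 for every j and z_j i = 0 when x i = 0; now replace each β_j by a close rational number). So there are rational z with M z = 0, z i = 0 when x i = 0, and |z i - x i| as small as we like, thus z i > 0 when x i > 0 and (c - ε) sum z i ≤ sum w i z i. Multiply by a common denominator.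
A proof of a similar statement (without weights) is in Pool/Agent/Helper948/Dom/JE.lean in the team repository (git pull in /workdir/pool/outputs/live). -/
theorem int_weight {ι κ : Type*} [Fintype ι] [Fintype κ] (M : κ → ι → ℤ) (S : Set ι) (w : ι → ℝ)
    (c : ℝ)
    (h : ∀ ε : ℝ, 0 < ε → ∃ x : ι → ℝ, (∀ i, 0 ≤ x i) ∧ ∑ i, x i = 1 ∧ (∀ i, i ∉ S → x i ≤ ε) ∧
      (∀ k, ∑ i, (M k i : ℝ) * x i = 0) ∧ c - ε ≤ ∑ i, w i * x i) :
    ∀ ε : ℝ, 0 < ε → ∃ n : ι → ℕ, (∃ i, n i ≠ 0) ∧ (∀ i, i ∉ S → n i = 0) ∧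
      (∀ k, ∑ i, M k i * (n i : ℤ) = 0) ∧ (c - ε) * ∑ i, (n i : ℝ) ≤ ∑ i, w i * (n i : ℝ) := by
  classical
  intro ε hε
  obtain ⟨x, hx0, hx1, hxS, hxM, hxw⟩ := int_weight_real M S w c h
  obtain ⟨z, hz0, hzpos, hzz, hzM, hzw⟩ := int_weight_rat M w (c - ε) x hx0 hxM
    (by rw [hx1]; linarith)
  -- common denominator
  have hD : 0 < ∏ j, (z j).den := Finset.prod_pos (fun j _ => (z j).den_pos)
  have hn : ∀ i, ∃ n : ℕ, (n : ℚ) = ((∏ j, (z j).den : ℕ) : ℚ) * z i := by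
    intro i
    refine ⟨(∏ j ∈ Finset.univ.erase i, (z j).den) * (z i).num.toNat, ?_⟩
    have h1 : (∏ j, (z j).den) = (z i).den * ∏ j ∈ Finset.univ.erase i, (z j).den :=
      (Finset.mul_prod_erase _ _ (Finset.mem_univ i)).symm
    have h2 : (((z i).num.toNat : ℕ) : ℚ) = ((z i).num : ℚ) := by
      have h3 : (((z i).num.toNat : ℕ) : ℤ) = (z i).num :=
        Int.toNat_of_nonneg (Rat.num_nonneg.2 (hz0 i))
      exact_mod_cast congrArg (fun t : ℤ => (t : ℚ)) h3
    have h4 : ((z i).den : ℚ) * z i = (z i).num := Rat.den_mul_eq_num (z i)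
    rw [h1, Nat.cast_mul, Nat.cast_mul, h2, ← h4]
    ring
  choose n hn using hn
  refine ⟨n, ?_, ?_, ?_, ?_⟩
  · obtain ⟨i, -, hi⟩ : ∃ i ∈ Finset.univ, 0 < x i := by
      by_contra hcon
      push Not at hcon
      have h1 : ∑ i, x i ≤ 0 := Finset.sum_nonpos (fun i hi => hcon i hi)
      rw [hx1] at h1
      linarith
    refine ⟨i, fun h0 => ?_⟩
    have h1 := hn i
    rw [h0, Nat.cast_zero] at h1
    have h2 : 0 < ((∏ j, (z j).den : ℕ) : ℚ) * z i :=
      mul_pos (by exact_mod_cast hD) (hzpos i hi)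
    rw [← h1] at h2
    exact lt_irrefl _ h2
  · intro i hi
    have h1 := hn i
    rw [hzz i (hxS i hi), mul_zero] at h1
    exact_mod_cast h1
  · intro k
    have h1 : ((∑ i, M k i * (n i : ℤ) : ℤ) : ℚ) = 0 := by
      push_cast
      have h2 : ∀ i, (M k i : ℚ) * (n i : ℚ) = ((∏ j, (z j).den : ℕ) : ℚ) * ((M k i : ℚ) * z i) := by
        intro i
        rw [hn i]
        ring
      rw [Finset.sum_congr rfl (fun i _ => h2 i), ← Finset.mul_sum, hzM k, mul_zero]
    exact_mod_cast h1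
  · have hnr : ∀ i, (n i : ℝ) = ((∏ j, (z j).den : ℕ) : ℝ) * (z i : ℝ) := by
      intro i
      exact_mod_cast congrArg (fun t : ℚ => (t : ℝ)) (hn i)
    have hDr : (0 : ℝ) < ((∏ j, (z j).den : ℕ) : ℝ) := by exact_mod_cast hD
    have h1 := mul_lt_mul_of_pos_left hzw hDr
    have h2 : ∑ i, (n i : ℝ) = ((∏ j, (z j).den : ℕ) : ℝ) * ∑ i, (z i : ℝ) := by
      rw [Finset.mul_sum]
      exact Finset.sum_congr rfl fun i _ => hnr i
    have h3 : ∑ i, w i * (n i : ℝ) = ((∏ j, (z j).den : ℕ) : ℝ) * ∑ i, w i * (z i : ℝ) := by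
      rw [Finset.mul_sum]
      refine Finset.sum_congr rfl fun i _ => ?_
      rw [hnr i]; ring
    rw [h2, h3]
    calc (c - ε) * (((∏ j, (z j).den : ℕ) : ℝ) * ∑ i, (z i : ℝ))
        = ((∏ j, (z j).den : ℕ) : ℝ) * ((c - ε) * ∑ i, (z i : ℝ)) := by ring
      _ ≤ _ := h1.le

end Pool.Agent.Helper948.Ent.B10
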