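import Pool.Agent.Helper948.Ent.Defs
import Pool.Agent.Helper948.Dom.JB

/- solved by helper288 -/


set_option autoImplicit false

namespace Pool.Agent.Helper948.Ent.B11
open Pool.Agent.Helper948.Dom Pool.Agent.Helper948.Ent Pool.Agent.Helper948.Dom.JB








-- TARGET
theorem build_w_transport_aux {P X : Type*} [Fintype P] [Fintype X] (g : X → P) (r : P → ℕ)
    (h : ∀ ψ, Nat.card {x // g x = ψ} = r ψ) :
    ∃ e : {x : P × ℕ // x.2 < r x.1} ≃ X, ∀ x, g (e x) = x.1.1 := by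
  classical
  have h1 : ∀ ψ, Nonempty (Fin (r ψ) ≃ {x // g x = ψ}) := by
    intro ψ
    rw [← h ψ]
    exact ⟨(Finite.equivFin {x // g x = ψ}).symm⟩
  have e1 : ∀ ψ, Fin (r ψ) ≃ {x // g x = ψ} := fun ψ => (h1 ψ).some
  obtain ⟨e0, he0⟩ : ∃ e0 : {x : P × ℕ // x.2 < r x.1} ≃ Σ ψ, Fin (r ψ), ∀ x, (e0 x).1 = x.1.1 :=
    ⟨{ toFun := fun x => ⟨x.1.1, ⟨x.1.2, x.2⟩⟩
       invFun := fun y => ⟨(y.1, y.2.1), y.2.2⟩
       left_inv := fun x => rfl
       right_inv := fun y => rfl }, fun x => rfl⟩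
  refine ⟨(e0.trans (Equiv.sigmaCongrRight e1)).trans (Equiv.sigmaFiberEquiv g), ?_⟩
  intro x
  have h2 : g ((Equiv.sigmaFiberEquiv g) ((Equiv.sigmaCongrRight e1) (e0 x))) =
      ((Equiv.sigmaCongrRight e1) (e0 x)).1 := ((Equiv.sigmaCongrRight e1) (e0 x)).2.2
  show g ((Equiv.sigmaFiberEquiv g) ((Equiv.sigmaCongrRight e1) (e0 x))) = _
  rw [h2]
  exact he0 x

theorem build_w_transport {P : Type*} [Fintype P] (N : P → P → ℕ) (r s : P → ℕ)
    (hr : ∀ ψ, ∑ ψ', N ψ ψ' = r ψ) (hs : ∀ ψ', ∑ ψ, N ψ ψ' = s ψ') :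
    ∃ f : {x : P × ℕ // x.2 < r x.1} ≃ {x : P × ℕ // x.2 < s x.1},
      ∀ x, N x.1.1 (f x).1.1 ≠ 0 := by
  classical
  obtain ⟨e, he⟩ := build_w_transport_aux (X := Σ p : P × P, Fin (N p.1 p.2)) (fun y => y.1.1) r (by
    intro ψ
    rw [Nat.card_eq_fintype_card, Fintype.card_subtype, Finset.card_filter, Fintype.sum_sigma,
      Fintype.sum_prod_type, ← hr ψ]
    simp only [Finset.sum_const, Finset.card_univ, Fintype.card_fin, smul_eq_mul]
    rw [Finset.sum_eq_single ψ]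
    · simp
    · intro b _ hb
      simp [hb]
    · intro hn
      exact absurd (Finset.mem_univ _) hn)
  obtain ⟨e', he'⟩ := build_w_transport_aux (X := Σ p : P × P, Fin (N p.1 p.2)) (fun y => y.1.2) s (by
    intro ψ
    rw [Nat.card_eq_fintype_card, Fintype.card_subtype, Finset.card_filter, Fintype.sum_sigma,
      Fintype.sum_prod_type, ← hs ψ]
    simp only [Finset.sum_const, Finset.card_univ, Fintype.card_fin, smul_eq_mul]
    refine Finset.sum_congr rfl fun a _ => ?_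
    rw [Finset.sum_eq_single ψ]
    · simp
    · intro b _ hb
      simp [hb]
    · intro hn
      exact absurd (Finset.mem_univ _) hn)
  refine ⟨e.trans e'.symm, ?_⟩
  intro x
  have h1 := he x
  have h2 := he' (e'.symm (e x))
  rw [Equiv.apply_symm_apply] at h2
  show N x.1.1 (e'.symm (e x)).1.1 ≠ 0
  rw [← h1, ← h2]
  have h3 := (e x).2.2
  exact (lt_of_le_of_lt (Nat.zero_le _) h3).ne'


/-- points of the space on which the free group will act -/
def build_w_V {G P : Type} (M : G → P → ℕ) : Type := {x : G × P × ℕ // x.2.2 < M x.1 x.2.1}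

/-- the action of the window -/
@[reducible] def build_w_Act {G P : Type} [Group G] (H : Subgroup G) [MulAction H P] (M : G → P → ℕ)
    (hM : ∀ (h : H) (γ : G) (ψ : P), M ((h : G) * γ) (h • ψ) = M γ ψ) : MulAction H (build_w_V M) where
  smul h x := ⟨((h : G) * x.1.1, h • x.1.2.1, x.1.2.2), by
    show x.1.2.2 < M ((h : G) * x.1.1) (h • x.1.2.1)
    rw [hM]; exact x.2⟩
  one_smul x := by
    apply Subtype.ext
    show (((1 : H) : G) * x.1.1, (1 : H) • x.1.2.1, x.1.2.2) = x.1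
    rw [Subgroup.coe_one, one_mul, one_smul]
  mul_smul h k x := by
    apply Subtype.ext
    show (((h * k : H) : G) * x.1.1, (h * k) • x.1.2.1, x.1.2.2) =
      ((h : G) * ((k : G) * x.1.1), h • (k • x.1.2.1), x.1.2.2)
    rw [Subgroup.coe_mul, mul_assoc, mul_smul]

/-- the fibres -/
def build_w_Fib {G P : Type} (M : G → P → ℕ) (γ : G) :
    {v : build_w_V M // v.1.1 = γ} ≃ {x : P × ℕ // x.2 < M γ x.1} where
  toFun v := ⟨v.1.1.2, by
    have h1 := v.1.2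
    have h2 : v.1.1.1 = γ := v.2
    rw [h2] at h1
    exact h1⟩
  invFun x := ⟨⟨(γ, x.1), x.2⟩, rfl⟩
  left_inv v := by
    rcases v with ⟨⟨⟨g, ψ, j⟩, hj⟩, rfl⟩
    rfl
  right_inv x := rfl

theorem build_w_Finite {G P : Type} [Finite G] [Finite P] (M : G → P → ℕ) : Finite (build_w_V M) := by
  let g : build_w_V M → Σ q : G × P, Fin (M q.1 q.2) := fun x => ⟨(x.1.1, x.1.2.1), ⟨x.1.2.2, x.2⟩⟩
  apply Finite.of_injective g
  rintro ⟨⟨a, b, c⟩, h⟩ ⟨⟨a', b', c'⟩, h'⟩ hh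
  simp only [g, Sigma.mk.injEq, Prod.mk.injEq] at hh
  obtain ⟨⟨rfl, rfl⟩, h3⟩ := hh
  rw [heq_eq_eq, Fin.mk.injEq] at h3
  subst h3
  rfl


def build_w_Equiv {G P : Type} (M : G → P → ℕ) : build_w_V M ≃ Σ q : G × P, Fin (M q.1 q.2) where
  toFun x := ⟨(x.1.1, x.1.2.1), ⟨x.1.2.2, x.2⟩⟩
  invFun y := ⟨(y.1.1, y.1.2, y.2.1), y.2.2⟩
  left_inv x := rfl
  right_inv y := rfl

theorem build_w_sum {G P : Type} [Fintype G] [Fintype P] (M : G → P → ℕ)
    [Fintype (build_w_V M)] (H : G → P → ℝ) :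
    ∑ v : build_w_V M, H v.1.1 v.1.2.1 = ∑ γ : G, ∑ ψ : P, (M γ ψ : ℝ) * H γ ψ := by
  rw [Fintype.sum_equiv (build_w_Equiv M) (fun v => H v.1.1 v.1.2.1)
    (fun y => H y.1.1 y.1.2) (fun v => rfl), Fintype.sum_sigma, Fintype.sum_prod_type]
  refine Finset.sum_congr rfl fun γ _ => Finset.sum_congr rfl fun ψ _ => ?_
  show ∑ _y : Fin (M γ ψ), H γ ψ = _
  rw [Finset.sum_const, Finset.card_univ, Fintype.card_fin, nsmul_eq_mul]

/-- averaging argument -/
theorem build_w_avg {Q V : Type} [Group Q] [Fintype Q] [Fintype V] [Nonempty V]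
    (φ : Q →* Equiv.Perm V) (Fv : V → ℝ) (c : ℝ) (h : c * (Fintype.card V : ℝ) ≤ ∑ v, Fv v) :
    ∃ v, ∀ g : Q, c * (Fintype.card Q : ℝ) ≤ ∑ q : Q, Fv (φ q (φ g v)) := by
  have htr : ∀ (v : V) (g : Q), ∑ q : Q, Fv (φ q (φ g v)) = ∑ q : Q, Fv (φ q v) := by
    intro v g
    have h1 := Equiv.sum_comp (Equiv.mulRight g) (fun q => Fv (φ q v))
    rw [← h1]
    refine Finset.sum_congr rfl fun q _ => ?_
    rw [Equiv.coe_mulRight, map_mul]
    rfl
  by_contra hcon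
  have hcon' : ∀ v, ∑ q : Q, Fv (φ q v) < c * (Fintype.card Q : ℝ) := by
    intro v
    by_contra hv
    apply hcon
    refine ⟨v, fun g => ?_⟩
    rw [htr v g]
    exact not_lt.mp hv
  have h2 : ∑ v : V, ∑ q : Q, Fv (φ q v) < ∑ v : V, c * (Fintype.card Q : ℝ) :=
    Finset.sum_lt_sum_of_nonempty Finset.univ_nonempty (fun v _ => hcon' v)
  rw [Finset.sum_comm] at h2
  have h3 : ∀ q : Q, ∑ v : V, Fv (φ q v) = ∑ v, Fv v := fun q => Equiv.sum_comp (φ q) Fv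
  rw [Finset.sum_congr rfl (fun q _ => h3 q), Finset.sum_const, Finset.sum_const,
    Finset.card_univ, Finset.card_univ, nsmul_eq_mul, nsmul_eq_mul] at h2
  have hQ : (0 : ℝ) < (Fintype.card Q : ℝ) := by exact_mod_cast Fintype.card_pos
  have h4 := mul_le_mul_of_nonneg_left h hQ.le
  have h5 : (Fintype.card Q : ℝ) * (c * (Fintype.card V : ℝ)) =
      (Fintype.card V : ℝ) * (c * (Fintype.card Q : ℝ)) := by ring
  rw [h5] at h4
  exact absurd h2 (not_lt.mpr h4)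

/-- Weighted version of the theorem build_periodic in Pool/Agent/Helper948/Dom/JH.lean in the team repository (/workdir/pool/outputs/live after git pull; proof by helper189, please reuse it; window_ext is GIVEN, the theorem transport is in Pool/Agent/Helper948/Dom/JF.lean, copy its proof). Same construction: M γ ψ = sum over ψ' of N (γ, ψ, ψ'), V = {(γ, ψ, j) : j < M γ ψ}, the window acts by h • (γ, ψ, j) = (h γ, h • ψ, j),
transport gives bijections from the fibre over γ to the fibre over tγ such that N (γ, ψ, ψ') ≠ 0 when (γ,ψ,j) ↦ (tγ,ψ',j'), window_ext gives φ : F →* Perm V. For v ∈ V let F(v) = f (γ v) (ψ v). The sum of F over V is sum_i N i * f i.1 i.2.1 and |V| = sum_i N i. So some orbit O of F on V satisfies c |O| ≤ sum of F over O. It contains a point v0 with γ v0 = 1 (the first coordinate of φ g v is g * γ v). Put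
K' = K ⊓ ker φ, st g = ψ-coordinate of φ g v0; the first coordinate of φ g v0 is the class of g. The map F/K' → O, g ↦ φ g v0 has all fibres of the same size, so the average of F over O is the average over F/K' of f (class g) (st g). The third condition: apply the last part of window_ext to v = φ g v0: v = w • v1 with w ∈ W m, φ t v1 = f v1 up to the window element; use the element w⁻¹ of W m: φ (w⁻¹ g) v0 = v1 and
φ (t w⁻¹ g) v0 = (t w⁻¹ t⁻¹) φ t v = f (p v1) v1. -/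
theorem build_w {P : Type} [Fintype P] (K : Subgroup F) [hKn : K.Normal] [hKf : K.FiniteIndex]
    (m : ℕ) [MulAction ((W (m + 1)).map (QuotientGroup.mk' K)) P]
    (N : (F ⧸ K) × P × P → ℕ) (hN : ∃ i, N i ≠ 0) [Fintype (F ⧸ K)]
    (hinv : ∀ (h : (W (m + 1)).map (QuotientGroup.mk' K)) (γ : F ⧸ K) (ψ : P),
      ∑ ψ', N ((h : F ⧸ K) * γ, h • ψ, ψ') = ∑ ψ', N (γ, ψ, ψ'))
    (hflow : ∀ γ ψ', ∑ ψ, N (γ, ψ, ψ') = ∑ ψ'', N ((ft : F ⧸ K) * γ, ψ', ψ''))
    (f : (F ⧸ K) → P → ℝ) (c : ℝ)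
    (hc : c * ∑ i, (N i : ℝ) ≤ ∑ i, (N i : ℝ) * f i.1 i.2.1) :
    ∃ K' : Subgroup F, FN K' ∧ Ext K m K' ∧ ∃ st : F → P,
      (∀ g, ∀ κ ∈ K', st (g * κ) = st g) ∧
      (∀ (w : F) (hw : w ∈ W (m + 1)) (g : F), st (w * g) =
        (⟨QuotientGroup.mk' K w, Subgroup.mem_map_of_mem _ hw⟩ :
          (W (m + 1)).map (QuotientGroup.mk' K)) • st g) ∧
      (∀ g, ∃ w ∈ W m, N (((w * g : F) : F ⧸ K), st (w * g), st (ft * (w * g))) ≠ 0) ∧
      c * (K'.index : ℝ) ≤ ∑ᶠ q : F ⧸ K', f ((q.out : F) : F ⧸ K) (st q.out) := by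
  classical
  let M : (F ⧸ K) → P → ℕ := fun γ ψ => ∑ ψ', N (γ, ψ, ψ')
  letI act : MulAction ((W (m + 1)).map (QuotientGroup.mk' K)) (build_w_V M) :=
    build_w_Act ((W (m + 1)).map (QuotientGroup.mk' K)) M hinv
  have hfin : Finite (build_w_V M) := build_w_Finite M
  have hex : ∀ γ : F ⧸ K, ∃ e : {x : P × ℕ // x.2 < M γ x.1} ≃
      {x : P × ℕ // x.2 < M ((ft : F ⧸ K) * γ) x.1}, ∀ x, N (γ, x.1.1, (e x).1.1) ≠ 0 := by
    intro γ
    exact build_w_transport (fun ψ ψ' => N (γ, ψ, ψ')) (M γ) (M ((ft : F ⧸ K) * γ)) (fun ψ => rfl)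
      (fun ψ' => hflow γ ψ')
  choose e he using hex
  let p : build_w_V M → F ⧸ K := fun v => v.1.1
  let bij : ∀ γ : F ⧸ K, {v : build_w_V M // p v = γ} ≃
      {v : build_w_V M // p v = QuotientGroup.mk' K ft * γ} :=
    fun γ => (build_w_Fib M γ).trans ((e γ).trans (build_w_Fib M ((ft : F ⧸ K) * γ)).symm)
  have hbij : ∀ v : build_w_V M, N (p v, v.1.2.1, (bij (p v) ⟨v, rfl⟩ : build_w_V M).1.2.1) ≠ 0 := by
    intro v
    exact he (p v) ⟨v.1.2, v.2⟩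
  obtain ⟨φ, hφ1, hφ2, hφ3⟩ := window_ext (QuotientGroup.mk' K) m p (fun h v => rfl) bij
  haveI hne : Nonempty (build_w_V M) := by
    obtain ⟨⟨γ, ψ, ψ'⟩, hi⟩ := hN
    refine ⟨⟨(γ, ψ, 0), ?_⟩⟩
    show 0 < ∑ ψ', N (γ, ψ, ψ')
    exact lt_of_lt_of_le (Nat.pos_of_ne_zero hi)
      (Finset.single_le_sum (f := fun ψ' => N (γ, ψ, ψ')) (fun _ _ => Nat.zero_le _)
        (Finset.mem_univ ψ'))
  letI : Fintype (build_w_V M) := Fintype.ofFinite _
  obtain ⟨K', hK'⟩ : ∃ K' : Subgroup F, K' = K ⊓ φ.ker := ⟨_, rfl⟩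
  have hFN : FN K' := by
    rw [hK']
    exact ⟨inferInstance, inferInstance⟩
  haveI := hFN.normal
  haveI := hFN.fin
  letI : Fintype (F ⧸ K') := Fintype.ofFinite _
  -- the weight
  obtain ⟨Fv, hFv⟩ : ∃ Fv : build_w_V M → ℝ, Fv = fun v => f v.1.1 v.1.2.1 := ⟨_, rfl⟩
  have hsumF : ∑ v, Fv v = ∑ i, (N i : ℝ) * f i.1 i.2.1 := by
    rw [hFv, build_w_sum M f, Fintype.sum_prod_type]
    refine Finset.sum_congr rfl fun γ _ => ?_
    rw [Fintype.sum_prod_type]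
    refine Finset.sum_congr rfl fun ψ _ => ?_
    show ((∑ ψ', N (γ, ψ, ψ') : ℕ) : ℝ) * f γ ψ = _
    rw [Nat.cast_sum, Finset.sum_mul]
  have hcard : (Fintype.card (build_w_V M) : ℝ) = ∑ i, (N i : ℝ) := by
    have h1 := build_w_sum M (fun _ _ => (1 : ℝ))
    rw [Finset.sum_const, Finset.card_univ, nsmul_eq_mul, mul_one] at h1
    rw [h1, Fintype.sum_prod_type]
    refine Finset.sum_congr rfl fun γ _ => ?_
    rw [Fintype.sum_prod_type]
    refine Finset.sum_congr rfl fun ψ _ => ?_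
    show ((∑ ψ', N (γ, ψ, ψ') : ℕ) : ℝ) * 1 = _
    rw [Nat.cast_sum, mul_one]
  have hcV : c * (Fintype.card (build_w_V M) : ℝ) ≤ ∑ v, Fv v := by
    rw [hcard, hsumF]
    exact hc
  have hker : ∀ κ ∈ K', φ κ = 1 := by
    intro κ hκ
    rw [hK'] at hκ
    exact hκ.2
  obtain ⟨Φ, hΦ⟩ : ∃ Φ : F ⧸ K' →* Equiv.Perm (build_w_V M), ∀ g : F, Φ (g : F ⧸ K') = φ g :=
    ⟨QuotientGroup.lift K' φ hker, fun g => rfl⟩
  obtain ⟨v, hv⟩ := build_w_avg Φ Fv c hcV
  obtain ⟨g0, hg0⟩ := QuotientGroup.mk_surjective (s := K) (p v)⁻¹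
  obtain ⟨v0, hv0⟩ : ∃ v0, v0 = φ g0 v := ⟨_, rfl⟩
  have hpv0 : p v0 = 1 := by
    rw [hv0, hφ1]
    show (g0 : F ⧸ K) * p v = 1
    rw [hg0, inv_mul_cancel]
  have hpg : ∀ g : F, (φ g v0).1.1 = (g : F ⧸ K) := by
    intro g
    have h1 := hφ1 g v0
    rw [hpv0, mul_one] at h1
    exact h1
  refine ⟨K', hFN, ⟨?_, ?_⟩, fun g => (φ g v0).1.2.1, ?_, ?_, ?_, ?_⟩
  · rw [hK']
    exact inf_le_left
  · intro w hw hwK
    rw [hK']
    refine ⟨hwK, ?_⟩
    show φ w = 1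
    apply Equiv.ext
    intro v
    rw [hφ2 w hw v]
    have h1 : (⟨QuotientGroup.mk' K w, Subgroup.mem_map_of_mem (QuotientGroup.mk' K) hw⟩ :
        (W (m + 1)).map (QuotientGroup.mk' K)) = 1 := by
      apply Subtype.ext
      show QuotientGroup.mk' K w = 1
      exact (QuotientGroup.eq_one_iff w).2 hwK
    rw [h1, one_smul]
    rfl
  · intro g k hk
    show (φ (g * k) v0).1.2.1 = (φ g v0).1.2.1
    rw [map_mul, hker k hk, mul_one]
  · intro w hw g
    show (φ (w * g) v0).1.2.1 = _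
    have h1 : φ (w * g) v0 = φ w (φ g v0) := by
      rw [map_mul]; rfl
    rw [h1, hφ2 w hw (φ g v0)]
    rfl
  · intro g
    obtain ⟨w, hw, v1, hv1, hv2⟩ := hφ3 (φ g v0)
    refine ⟨w⁻¹, inv_mem hw, ?_⟩
    have h1 : φ (w⁻¹ * g) v0 = v1 := by
      have h2 : φ w v1 = φ g v0 := by
        rw [hφ2 w (W_mono (Nat.le_succ m) hw) v1]
        exact hv1.symm
      rw [map_mul, Equiv.Perm.mul_apply, ← h2, ← Equiv.Perm.mul_apply, ← map_mul, inv_mul_cancel,
        map_one]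
      rfl
    have h3 : φ (ft * (w⁻¹ * g)) v0 = (bij (p v1) ⟨v1, rfl⟩ : build_w_V M) := by
      have h4 : φ (ft * w * ft⁻¹) (φ (ft * (w⁻¹ * g)) v0) = φ ft (φ g v0) := by
        rw [← Equiv.Perm.mul_apply, ← map_mul, ← Equiv.Perm.mul_apply, ← map_mul]
        congr 2
        group
      rw [hv2, ← hφ2 _ (conj_mem hw)] at h4
      exact (φ (ft * w * ft⁻¹)).injective h4
    show N (((w⁻¹ * g : F) : F ⧸ K), (φ (w⁻¹ * g) v0).1.2.1, (φ (ft * (w⁻¹ * g)) v0).1.2.1) ≠ 0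
    rw [← hpg (w⁻¹ * g), h3, h1]
    exact hbij v1
  · have h1 := hv (g0 : F ⧸ K')
    rw [Subgroup.index_eq_card, Nat.card_eq_fintype_card, finsum_eq_sum_of_fintype]
    refine h1.trans (le_of_eq ?_)
    refine Finset.sum_congr rfl fun q _ => ?_
    have h2 : Φ q = φ q.out := by
      rw [← hΦ q.out, QuotientGroup.out_eq']
    rw [h2, hΦ, ← hv0, hFv]
    show f (φ q.out v0).1.1 (φ q.out v0).1.2.1 = f ((q.out : F) : F ⧸ K) (φ q.out v0).1.2.1
    rw [hpg]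

end Pool.Agent.Helper948.Ent.B11
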