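import Pool.Agent.Helper948.Ent.Defs

/- solved by helper720 -/


set_option autoImplicit false

namespace Pool.Agent.Helper948.Ent.B6
open Pool.Agent.Helper948.Dom Pool.Agent.Helper948.Ent






-- TARGET
theorem pat_mul_rp (K : Subgroup F) [hKn : K.Normal] (m : ℕ) (h : Wb K m) :
    rp K m h ∈ W (m + 1) ∧ QuotientGroup.mk' K (rp K m h) = h :=
  (Subgroup.mem_map.1 h.2).choose_spec

theorem pat_mul_key {B : Type} (K K' : Subgroup F) [hKn : K.Normal] (m : ℕ) (hK' : FN K')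
    (hE : Ext K m K') (z : F → B) (hz : ∀ g, ∀ κ ∈ K', z (g * κ) = z g) (w w' : F)
    (hw : w ∈ W (m + 1)) (hw' : w' ∈ W (m + 1))
    (h : QuotientGroup.mk' K w = QuotientGroup.mk' K w') (g : F) : z (w * g) = z (w' * g) := by
  have h1 : w'⁻¹ * w ∈ K := by
    rw [← QuotientGroup.eq]
    exact h.symm
  have h2 : w'⁻¹ * w ∈ K' := hE.2 _ (mul_mem (inv_mem hw') hw) h1
  have h3 : g⁻¹ * (w'⁻¹ * w) * g⁻¹⁻¹ ∈ K' := hK'.normal.conj_mem _ h2 g⁻¹
  have h4 := hz (w' * g) _ h3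
  rw [← h4]
  congr 1
  group

/-- Basic properties of pat. rp K m h ∈ W (m+1) and its class is h (Exists.choose_spec). If w, w' ∈ W (m+1) have the same class modulo K then w' = w κ with κ ∈ K ∩ W (m+1) ⊆ K' (Ext K m K'), and z (w κ g) = z (w g (g⁻¹ κ g)) = z (w g) as K' is normal (FN K'). -/
theorem pat_mul {B : Type} (K K' : Subgroup F) [hKn : K.Normal] (m : ℕ) (hK' : FN K')
    (hE : Ext K m K') (z : F → B) (hz : ∀ g, ∀ κ ∈ K', z (g * κ) = z g) (w : F) (hw : w ∈ W (m + 1)) :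
    (∀ g, pat K m z g ⟨QuotientGroup.mk' K w, Subgroup.mem_map_of_mem _ hw⟩ = z (w * g)) ∧
    ∀ g, pat K m z (w * g) =
      fun h => pat K m z g (h * ⟨QuotientGroup.mk' K w, Subgroup.mem_map_of_mem _ hw⟩) := by
  constructor
  · intro g
    obtain ⟨h1, h2⟩ := pat_mul_rp K m ⟨QuotientGroup.mk' K w, Subgroup.mem_map_of_mem _ hw⟩
    exact pat_mul_key K K' m hK' hE z hz _ _ h1 hw h2 g
  · intro g
    funext h
    obtain ⟨h1, h2⟩ := pat_mul_rp K m
      (h * ⟨QuotientGroup.mk' K w, Subgroup.mem_map_of_mem _ hw⟩)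
    obtain ⟨h3, h4⟩ := pat_mul_rp K m h
    show z (rp K m h * (w * g)) = z (rp K m
      (h * ⟨QuotientGroup.mk' K w, Subgroup.mem_map_of_mem _ hw⟩) * g)
    rw [← mul_assoc]
    refine pat_mul_key K K' m hK' hE z hz _ _ (mul_mem h3 hw) h1 ?_ g
    rw [h2, map_mul, h4]
    rfl

end Pool.Agent.Helper948.Ent.B6
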