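import Pool.Agent.Helper948.Ent.Defs
import Pool.Agent.Helper948.Ent.B6
import Pool.Agent.Helper948.Ent.B10
import Pool.Agent.Helper948.Ent.B11

/- solved by helper577 -/


set_option autoImplicit false

namespace Pool.Agent.Helper948.Ent.B12
open Pool.Agent.Helper948.Dom Pool.Agent.Helper948.Ent Pool.Agent.Helper948.Ent.B6 Pool.Agent.Helper948.Ent.B10 Pool.Agent.Helper948.Ent.B11








-- TARGET

theorem wnn_sum1 {R G P : Type} [CommRing R] [Fintype G] [Fintype P] [DecidableEq G]
    [DecidableEq P] (x : G × P × P → R) (a : G) (b : P) :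
    ∑ i : G × P × P, (if i.1 = a ∧ i.2.1 = b then (1:R) else 0) * x i = ∑ ψ, x (a, b, ψ) := by
  rw [Fintype.sum_prod_type, Finset.sum_eq_single a]
  · rw [Fintype.sum_prod_type, Finset.sum_eq_single b]
    · simp
    · intro c _ hc; simp [hc]
    · simp
  · intro c _ hc; simp [hc]
  · simp

theorem wnn_sum2 {R G P : Type} [CommRing R] [Fintype G] [Fintype P] [DecidableEq G]
    [DecidableEq P] (x : G × P × P → R) (a : G) (b : P) :
    ∑ i : G × P × P, (if i.1 = a ∧ i.2.2 = b then (1:R) else 0) * x i = ∑ ψ, x (a, ψ, b) := by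
  rw [Fintype.sum_prod_type, Finset.sum_eq_single a]
  · rw [Fintype.sum_prod_type]
    refine Finset.sum_congr rfl fun ψ _ => ?_
    rw [Finset.sum_eq_single b]
    · simp
    · intro c _ hc; simp [hc]
    · simp
  · intro c _ hc; simp [hc]
  · simp

theorem wnn_swap {Q ι : Type} [Fintype Q] [Fintype ι] [DecidableEq ι] (T : Q → ι) (φ : ι → ℝ)
    (N : ℝ) :
    ∑ i, φ i * ((∑ q, (if T q = i then (1:ℝ) else 0)) / N) = (∑ q, φ (T q)) / N := by
  have h1 : ∀ i, φ i * ((∑ q, (if T q = i then (1:ℝ) else 0)) / N)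
      = (∑ q, φ i * (if T q = i then (1:ℝ) else 0)) / N := by
    intro i
    rw [← mul_div_assoc, Finset.mul_sum]
  rw [Finset.sum_congr rfl (fun i _ => h1 i), ← Finset.sum_div, Finset.sum_comm]
  congr 1
  refine Finset.sum_congr rfl (fun q _ => ?_)
  rw [Finset.sum_eq_single (T q)]
  · simp
  · intro b _ hb
    rw [if_neg (Ne.symm hb), mul_zero]
  · simp

/-- Closure theorem. Let P = (Wb K m → B), finite, with the action (h0 • ψ) h = ψ (h * h0) of Wb K m. For (K', z) from the hypothesis let x (γ, ψ, ψ') = (number of q in F/K' with tr K m z q.out = (γ, ψ, ψ')) / K'.index. By pat_mul (GIVEN): pat (w g) = w • pat g for w ∈ W (m+1). Left multiplications by w and by t permute F/K' (and tr is constant on cosets g K'), so exactly: sum_ψ' x (w γ, w • ψ, ψ') =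
sum_ψ' x (γ, ψ, ψ') and sum_ψ x (γ, ψ, ψ') = sum_ψ'' x (t γ, ψ', ψ''), total mass 1, x i ≤ ε for i ∉ S, and sum_i x i * f i.1 i.2.1 = (1/index) * sum over q ≥ c - ε. Apply int_weight (GIVEN) with these linear equations (indexed by a sum type of (Wb × (F/K) × P) and ((F/K) × P)) to get an integral solution N supported on S, then build_w (GIVEN) with c replaced by c - ε. Put z g = (st g) 1. Then pat K m z g = st g
(z (rp h * g) = (h • st g) 1 = st g h). For every g there is w ∈ W m with N (class (w g), st (w g), st (t w g)) ≠ 0, so tr K m z (w g) ∈ S, and by the invariance hS for w⁻¹ (and pat_mul, t w⁻¹ (w g) = (t w⁻¹ t⁻¹) (t w g)) tr K m z g ∈ S. A similar argument is in Pool/Agent/Helper948/Dom/JI.lean in the team repository (c_sum1, c_sum2, c_aux). -/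
theorem wnn {B : Type} [Fintype B] (K : Subgroup F) [hKn : K.Normal] (m : ℕ) (hK : FN K)
    (S : Set ((F ⧸ K) × (Wb K m → B) × (Wb K m → B)))
    (hS : ∀ (w : F) (hw : w ∈ W m) (γ : F ⧸ K) (ψ ψ' : Wb K m → B), (γ, ψ, ψ') ∈ S →
      ((w : F ⧸ K) * γ,
        (fun h => ψ (h * ⟨QuotientGroup.mk' K w,
          Subgroup.mem_map_of_mem _ (W_mono (Nat.le_succ m) hw)⟩)),
        (fun h => ψ' (h * ⟨QuotientGroup.mk' K (ft * w * ft⁻¹),
          Subgroup.mem_map_of_mem _ (conj_mem hw)⟩))) ∈ S)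
    (f : (F ⧸ K) → (Wb K m → B) → ℝ) (c : ℝ)
    (h : ∀ ε : ℝ, 0 < ε → ∃ K' : Subgroup F, FN K' ∧ Ext K m K' ∧ ∃ z : F → B,
      (∀ g, ∀ κ ∈ K', z (g * κ) = z g) ∧
      (({q : F ⧸ K' | tr K m z q.out ∉ S}.ncard : ℕ) : ℝ) ≤ ε * (K'.index : ℝ) ∧
      (c - ε) * (K'.index : ℝ) ≤ ∑ᶠ q : F ⧸ K', f ((q.out : F) : F ⧸ K) (pat K m z q.out)) :
    ∀ ε : ℝ, 0 < ε → ∃ K' : Subgroup F, FN K' ∧ Ext K m K' ∧ ∃ z : F → B,
      (∀ g, ∀ κ ∈ K', z (g * κ) = z g) ∧ (∀ g, tr K m z g ∈ S) ∧
      (c - ε) * (K'.index : ℝ) ≤ ∑ᶠ q : F ⧸ K', f ((q.out : F) : F ⧸ K) (pat K m z q.out) := by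
  classical
  have hKf := hK.fin
  letI : Fintype (F ⧸ K) := Fintype.ofFinite _
  letI : Fintype (Wb K m) := Fintype.ofFinite _
  letI act : MulAction ((W (m + 1)).map (QuotientGroup.mk' K)) (Wb K m → B) :=
    { smul := fun η ψ h => ψ (h * η)
      one_smul := fun ψ => by
        funext h
        show ψ (h * 1) = ψ h
        rw [mul_one]
      mul_smul := fun a b ψ => by
        funext h
        show ψ (h * (a * b)) = ψ (h * a * b)
        rw [mul_assoc] }
  have hsm : ∀ (η : (W (m + 1)).map (QuotientGroup.mk' K)) (ψ : Wb K m → B),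
      η • ψ = fun h => ψ (h * η) := fun _ _ => rfl
  let M : ((Wb K m) × (F ⧸ K) × (Wb K m → B)) ⊕ ((F ⧸ K) × (Wb K m → B)) →
      (F ⧸ K) × (Wb K m → B) × (Wb K m → B) → ℤ := fun k i =>
    match k with
    | .inl (h, γ, ψ) => (if i.1 = (h : F ⧸ K) * γ ∧ i.2.1 = h • ψ then 1 else 0)
        - (if i.1 = γ ∧ i.2.1 = ψ then 1 else 0)
    | .inr (γ, ψ') => (if i.1 = γ ∧ i.2.2 = ψ' then 1 else 0)
        - (if i.1 = (ft : F ⧸ K) * γ ∧ i.2.1 = ψ' then 1 else 0)
  have key := int_weight M S (fun i => f i.1 i.2.1) c (by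
    intro ε hε
    obtain ⟨K', hK', hE, z, hz, hz1, hz2⟩ := h ε hε
    have hKn' := hK'.normal
    have hKf' := hK'.fin
    letI : Fintype (F ⧸ K') := Fintype.ofFinite _
    have hidx : (K'.index : ℝ) = (Fintype.card (F ⧸ K') : ℝ) := by
      rw [Subgroup.index, Nat.card_eq_fintype_card]
    have hidx0 : (0 : ℝ) < (K'.index : ℝ) := by
      rw [hidx]
      exact_mod_cast Fintype.card_pos
    obtain ⟨hp1, hp2⟩ := pat_mul K K' m hK' hE z hz 1 (one_mem _)
    have hpat : ∀ g, ∀ κ ∈ K', pat K m z (g * κ) = pat K m z g := by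
      intro g κ hκ
      funext h
      show z (rp K m h * (g * κ)) = z (rp K m h * g)
      rw [← mul_assoc]
      exact hz _ κ hκ
    have htr : ∀ g, ∀ κ ∈ K', tr K m z (g * κ) = tr K m z g := by
      intro g κ hκ
      have e1 : ((g * κ : F) : F ⧸ K) = (g : F ⧸ K) := by
        rw [QuotientGroup.eq]
        have : (g * κ)⁻¹ * g = κ⁻¹ := by group
        rw [this]
        exact inv_mem (hE.1 hκ)
      unfold tr
      rw [e1, hpat g κ hκ, ← mul_assoc, hpat _ κ hκ]
    let T : F ⧸ K' → (F ⧸ K) × (Wb K m → B) × (Wb K m → B) := fun q => tr K m z q.out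
    have hT : ∀ g : F, T (g : F ⧸ K') = tr K m z g := by
      intro g
      show tr K m z ((g : F ⧸ K').out) = tr K m z g
      have h1 : ((((g : F ⧸ K').out : F)) : F ⧸ K') = (g : F ⧸ K') := Quotient.out_eq' _
      have h2 : g⁻¹ * ((g : F ⧸ K').out) ∈ K' := QuotientGroup.eq.mp h1.symm
      have h3 : ((g : F ⧸ K').out) = g * (g⁻¹ * ((g : F ⧸ K').out)) := by group
      rw [h3]
      exact htr _ _ h2
    refine ⟨fun i => (∑ q : F ⧸ K', (if T q = i then (1:ℝ) else 0)) / (K'.index : ℝ),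
      ?_, ?_, ?_, ?_, ?_⟩
    · intro i
      refine div_nonneg (Finset.sum_nonneg (fun q _ => ?_)) hidx0.le
      split_ifs <;> norm_num
    · have h1 := wnn_swap T (fun _ => 1) (K'.index : ℝ)
      simp only [one_mul] at h1
      rw [h1]
      simp only [Finset.sum_const, Finset.card_univ, nsmul_eq_mul, mul_one]
      rw [← hidx]
      exact div_self hidx0.ne'
    · intro i hi
      rw [div_le_iff₀ hidx0]
      refine le_trans ?_ hz1
      rw [Finset.sum_boole]
      have : (Finset.univ.filter (fun q : F ⧸ K' => T q = i)).card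
          ≤ ({q : F ⧸ K' | tr K m z q.out ∉ S}.ncard : ℕ) := by
        rw [← Set.ncard_coe_finset]
        apply Set.ncard_le_ncard _ (Set.toFinite _)
        intro q hq
        simp only [Finset.coe_filter, Finset.mem_univ, true_and, Set.mem_setOf_eq] at hq ⊢
        show T q ∉ S
        rw [hq]
        exact hi
      exact_mod_cast this
    · rintro (⟨h, γ, ψ⟩ | ⟨γ, ψ'⟩)
      · obtain ⟨h, hh⟩ := h
        obtain ⟨w, hw, rfl⟩ := Subgroup.mem_map.mp hh
        obtain ⟨-, hpw⟩ := pat_mul K K' m hK' hE z hz w hw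
        rw [wnn_swap T (fun i => (M (.inl (⟨QuotientGroup.mk' K w, hh⟩, γ, ψ)) i : ℝ))]
        rw [div_eq_zero_iff]
        left
        simp only [M, Int.cast_sub, Int.cast_ite, Int.cast_one, Int.cast_zero,
          Finset.sum_sub_distrib]
        rw [sub_eq_zero]
        rw [← Equiv.sum_comp (MulAction.toPerm (w : F) : Equiv.Perm (F ⧸ K'))]
        refine Finset.sum_congr rfl (fun q _ => ?_)
        induction q using QuotientGroup.induction_on with
        | H g =>
          have e0 : (MulAction.toPerm (w : F) : Equiv.Perm (F ⧸ K')) ((g : F) : F ⧸ K')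
              = ((w * g : F) : F ⧸ K') := rfl
          rw [e0, hT, hT]
          have e1 : (tr K m z (w * g)).1 = (QuotientGroup.mk' K w) * (g : F ⧸ K) := rfl
          have e2 : (tr K m z (w * g)).2.1 =
            (⟨QuotientGroup.mk' K w, hh⟩ : Wb K m) • (pat K m z g) := hpw g
          have e3 : (tr K m z g).1 = (g : F ⧸ K) := rfl
          have e4 : (tr K m z g).2.1 = pat K m z g := rfl
          rw [e1, e2, e3, e4]
          refine if_congr ?_ rfl rfl
          constructor
          · rintro ⟨ha, hb⟩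
            exact ⟨mul_left_cancel ha, MulAction.injective _ hb⟩
          · rintro ⟨ha, hb⟩
            rw [ha, hb]
            exact ⟨rfl, rfl⟩
      · rw [wnn_swap T (fun i => (M (.inr (γ, ψ')) i : ℝ))]
        rw [div_eq_zero_iff]
        left
        simp only [M, Int.cast_sub, Int.cast_ite, Int.cast_one, Int.cast_zero,
          Finset.sum_sub_distrib]
        rw [sub_eq_zero]
        symm
        rw [← Equiv.sum_comp (MulAction.toPerm (ft : F) : Equiv.Perm (F ⧸ K'))]
        refine Finset.sum_congr rfl (fun q _ => ?_)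
        induction q using QuotientGroup.induction_on with
        | H g =>
          have e0 : (MulAction.toPerm (ft : F) : Equiv.Perm (F ⧸ K')) ((g : F) : F ⧸ K')
              = ((ft * g : F) : F ⧸ K') := rfl
          rw [e0, hT, hT]
          have e1 : (tr K m z (ft * g)).1 = (ft : F ⧸ K) * (g : F ⧸ K) := rfl
          have e2 : (tr K m z (ft * g)).2.1 = pat K m z (ft * g) := rfl
          have e3 : (tr K m z g).1 = (g : F ⧸ K) := rfl
          have e4 : (tr K m z g).2.2 = pat K m z (ft * g) := rfl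
          rw [e1, e2, e3, e4]
          refine if_congr ?_ rfl rfl
          constructor
          · rintro ⟨ha, hb⟩
            exact ⟨mul_left_cancel ha, hb⟩
          · rintro ⟨ha, hb⟩
            rw [ha]
            exact ⟨rfl, hb⟩
    · have h1 := wnn_swap T (fun i => f i.1 i.2.1) (K'.index : ℝ)
      rw [h1, le_div_iff₀ hidx0]
      refine hz2.trans (le_of_eq ?_)
      rw [finsum_eq_sum_of_fintype]
      rfl)
  intro ε hε
  obtain ⟨N, hN, hNS, hNM, hNw⟩ := key ε hε
  have hb := build_w (P := Wb K m → B) K m N hN (by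
    intro h γ ψ
    have e1 := hNM (.inl (h, γ, ψ))
    simp only [M, sub_mul, Finset.sum_sub_distrib] at e1
    rw [wnn_sum1, wnn_sum1, sub_eq_zero] at e1
    exact_mod_cast e1) (by
    intro γ ψ'
    have e1 := hNM (.inr (γ, ψ'))
    simp only [M, sub_mul, Finset.sum_sub_distrib] at e1
    rw [wnn_sum1, wnn_sum2, sub_eq_zero] at e1
    exact_mod_cast e1) f (c - ε) (by
    refine hNw.trans (le_of_eq ?_)
    exact Finset.sum_congr rfl (fun i _ => mul_comm _ _))
  obtain ⟨K', hK', hE, st, hst, hstw, hstN, hstc⟩ := hb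
  have hrp : ∀ h : Wb K m, rp K m h ∈ W (m + 1) ∧ QuotientGroup.mk' K (rp K m h) = h :=
    fun h => (Subgroup.mem_map.1 h.2).choose_spec
  have hpst : ∀ g, pat K m (fun g => st g 1) g = st g := by
    intro g
    funext h
    show st (rp K m h * g) 1 = st g h
    rw [hstw _ (hrp h).1 g, hsm]
    show st g (1 * _) = st g h
    rw [one_mul]
    congr 1
    exact Subtype.ext (hrp h).2
  have hzst : ∀ g, ∀ κ ∈ K', (fun g => st g 1) (g * κ) = (fun g => st g 1) g := by
    intro g κ hκ
    show st (g * κ) 1 = st g 1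
    rw [hst g κ hκ]
  refine ⟨K', hK', hE, fun g => st g 1, hzst, ?_, ?_⟩
  · intro g
    obtain ⟨w, hw, hNw'⟩ := hstN g
    have hmem : (((w * g : F) : F ⧸ K), st (w * g), st (ft * (w * g))) ∈ S := by
      by_contra hc
      exact hNw' (hNS _ hc)
    have h2 := hS w⁻¹ (inv_mem hw) _ _ _ hmem
    have hw' : w⁻¹ ∈ W (m + 1) := W_mono (Nat.le_succ m) (inv_mem hw)
    obtain ⟨-, hq1⟩ := pat_mul K K' m hK' hE (fun g => st g 1) hzst w⁻¹ hw'
    obtain ⟨-, hq2⟩ := pat_mul K K' m hK' hE (fun g => st g 1) hzst (ft * w⁻¹ * ft⁻¹)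
      (conj_mem (inv_mem hw))
    have e1 := hq1 (w * g)
    have e2 := hq2 (ft * (w * g))
    have e3 : w⁻¹ * (w * g) = g := by group
    have e4 : ft * w⁻¹ * ft⁻¹ * (ft * (w * g)) = ft * g := by group
    rw [e3, hpst (w * g)] at e1
    rw [e4, hpst (ft * (w * g))] at e2
    have e5 : ((w⁻¹ : F) : F ⧸ K) * ((w * g : F) : F ⧸ K) = (g : F ⧸ K) := by
      rw [← QuotientGroup.mk_mul, e3]
    unfold tr
    rw [e1, e2, ← e5]
    exact h2
  · refine hstc.trans (le_of_eq ?_)
    refine finsum_congr (fun q => ?_)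
    rw [hpst]

end Pool.Agent.Helper948.Ent.B12
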