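import Pool.Agent.Helper948.Ent.Defs

/- solved by helper792 -/


set_option autoImplicit false

namespace Pool.Agent.Helper948.Ent.B4
open Pool.Agent.Helper948.Dom Pool.Agent.Helper948.Ent






-- TARGET
theorem pigeon_tz_mul (g h : F) : tz (g * h) = tz g + tz h := by
  simp [tz, map_mul, toAdd_mul]

theorem pigeon_ph_K (l : ℕ) (K : Subgroup F) (hd : Div l K) (g κ : F) (hκ : κ ∈ K) :
    ph l (g * κ) = ph l g := by
  obtain ⟨c, hc⟩ := hd κ hκ
  unfold ph
  rw [pigeon_tz_mul, hc, Int.add_mul_emod_self_left]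

theorem pigeon_tz_ft (i : ℕ) : tz (ft ^ i) = i := by
  simp [tz, tau, ft]

theorem pigeon_out (K : Subgroup F) (g : F) : ∃ κ ∈ K, ((g : F ⧸ K)).out = g * κ := by
  have h : ((((g : F ⧸ K)).out : F) : F ⧸ K) = (g : F ⧸ K) := Quotient.out_eq' _
  have h2 : (g : F ⧸ K) = ((((g : F ⧸ K)).out : F) : F ⧸ K) := h.symm
  rw [QuotientGroup.eq] at h2
  exact ⟨g⁻¹ * ((g : F ⧸ K)).out, h2, by group⟩

theorem pigeon_ph_out (l : ℕ) (K : Subgroup F) (hd : Div l K) (g : F) :
    ph l ((g : F ⧸ K)).out = ph l g := by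
  obtain ⟨κ, hκ, h⟩ := pigeon_out K g
  rw [h, pigeon_ph_K l K hd g κ hκ]

theorem pigeon_ph_lt (l : ℕ) (hl : 0 < l) (g : F) : ph l g < l := by
  unfold ph
  have h1 := Int.emod_lt_of_pos (tz g) (by exact_mod_cast hl : (0 : ℤ) < (l : ℤ))
  have h2 := Int.emod_nonneg (tz g) (by exact_mod_cast hl.ne' : (l : ℤ) ≠ 0)
  omega

theorem pigeon_ph_ft (l : ℕ) (hl : 0 < l) (i : ℕ) (g : F) :
    ph l (ft ^ i * g) = (i + ph l g) % l := by
  have h2 := Int.emod_nonneg (tz g) (by exact_mod_cast hl.ne' : (l : ℤ) ≠ 0)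
  have h3 := Int.emod_nonneg ((i : ℤ) + tz g) (by exact_mod_cast hl.ne' : (l : ℤ) ≠ 0)
  unfold ph
  rw [pigeon_tz_mul, pigeon_tz_ft]
  zify
  rw [Int.toNat_of_nonneg h3, Int.toNat_of_nonneg h2]
  simp

theorem pigeon_card (l : ℕ) (hl : 0 < l) (K : Subgroup F) (hd : Div l K) [Fintype (F ⧸ K)]
    (i : ℕ) (hi : i < l) :
    (Finset.univ.filter (fun q : F ⧸ K => ph l q.out = i)).card =
      (Finset.univ.filter (fun q : F ⧸ K => ph l q.out = 0)).card := by
  classical
  symm
  refine Finset.card_bij' (fun q _ => (ft ^ i) • q) (fun q _ => (ft ^ i)⁻¹ • q) ?_ ?_ ?_ ?_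
  · intro q hq
    rw [Finset.mem_filter] at hq ⊢
    refine ⟨Finset.mem_univ _, ?_⟩
    have h1 : (ft ^ i) • q = ((ft ^ i * q.out : F) : F ⧸ K) := by
      conv_lhs => rw [← Quotient.out_eq' q]
      rfl
    rw [h1, pigeon_ph_out l K hd, pigeon_ph_ft l hl, hq.2]
    exact Nat.mod_eq_of_lt (by omega)
  · intro q hq
    rw [Finset.mem_filter] at hq ⊢
    refine ⟨Finset.mem_univ _, ?_⟩
    have h1 : (ft ^ i)⁻¹ • q = (((ft ^ i)⁻¹ * q.out : F) : F ⧸ K) := by
      conv_lhs => rw [← Quotient.out_eq' q]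
      rfl
    rw [h1, pigeon_ph_out l K hd]
    have h2 := pigeon_ph_ft l hl i ((ft ^ i)⁻¹ * q.out)
    rw [mul_inv_cancel_left, hq.2] at h2
    have h3 := pigeon_ph_lt l hl ((ft ^ i)⁻¹ * q.out)
    set p := ph l ((ft ^ i)⁻¹ * q.out) with hp
    by_contra hne
    by_cases h4 : i + p < l
    · rw [Nat.mod_eq_of_lt h4] at h2
      omega
    · have h5 : (i + p) % l = i + p - l := by
        rw [Nat.mod_eq_sub_mod (by omega)]
        exact Nat.mod_eq_of_lt (by omega)
      omega
  · intro q _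
    exact inv_smul_smul _ _
  · intro q _
    exact smul_inv_smul _ _

theorem pigeon_bd (l r : ℕ) (hl : 0 < l) (K : Subgroup F) (hd : Div l K) [Fintype (F ⧸ K)] :
    l * (Finset.univ.filter
      (fun q : F ⧸ K => ph l q.out < 2 * r ∨ l ≤ ph l q.out + 2 * r)).card ≤
      4 * r * K.index := by
  classical
  set c := (Finset.univ.filter (fun q : F ⧸ K => ph l q.out = 0)).card with hc
  have htot : K.index = l * c := by
    have h1 : K.index = (Finset.univ : Finset (F ⧸ K)).card := by
      rw [Finset.card_univ, Subgroup.index, Nat.card_eq_fintype_card]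
    rw [h1, Finset.card_eq_sum_card_fiberwise (f := fun q : F ⧸ K => ph l q.out)
      (t := Finset.range l) (by
        intro q _
        simp only [Finset.coe_range, Set.mem_Iio]
        exact pigeon_ph_lt l hl _)]
    rw [Finset.sum_congr rfl (fun i hi => pigeon_card l hl K hd i (Finset.mem_range.1 hi))]
    rw [Finset.sum_const, Finset.card_range, smul_eq_mul]
  set bad := (Finset.range l).filter (fun i => i < 2 * r ∨ l ≤ i + 2 * r) with hbad
  have hbc : bad.card ≤ 4 * r := by
    have : bad ⊆ Finset.range (2 * r) ∪ Finset.Ico (l - 2 * r) l := by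
      intro i hi
      rw [hbad, Finset.mem_filter, Finset.mem_range] at hi
      rw [Finset.mem_union, Finset.mem_range, Finset.mem_Ico]
      omega
    calc bad.card ≤ _ := Finset.card_le_card this
      _ ≤ _ := Finset.card_union_le _ _
      _ ≤ 4 * r := by rw [Finset.card_range, Nat.card_Ico]; omega
  have hcard : (Finset.univ.filter
      (fun q : F ⧸ K => ph l q.out < 2 * r ∨ l ≤ ph l q.out + 2 * r)).card = bad.card * c := by
    rw [Finset.card_eq_sum_card_fiberwise (f := fun q : F ⧸ K => ph l q.out)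
      (t := bad) (by
        intro q hq
        simp only [Finset.coe_filter, Finset.mem_univ, true_and, Set.mem_setOf_eq] at hq
        simp only [hbad, Finset.coe_filter, Finset.mem_range, Set.mem_setOf_eq]
        exact ⟨pigeon_ph_lt l hl _, hq⟩)]
    rw [Finset.sum_congr rfl (g := fun _ => c) ?_, Finset.sum_const, smul_eq_mul]
    intro i hi
    rw [hbad, Finset.mem_filter, Finset.mem_range] at hi
    rw [hc, ← pigeon_card l hl K hd i hi.1, Finset.filter_filter]
    congr 1
    apply Finset.filter_congr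
    intro q _
    constructor
    · intro h; exact h.2
    · intro h; rw [h]; exact ⟨hi.2, rfl⟩
  rw [hcard, htot]
  calc l * (bad.card * c) = bad.card * (l * c) := by ring
    _ ≤ 4 * r * (l * c) := Nat.mul_le_mul_right _ hbc

theorem pigeon_Cfg_fin (k : ℕ) (K : Subgroup F) [Finite (F ⧸ K)] : (Cfg k K).Finite := by
  classical
  have := Fintype.ofFinite (F ⧸ K)
  have hinj : Set.InjOn (fun (x : F → ℕ) => (fun q : F ⧸ K => x q.out)) (Cfg k K) := by
    intro x hx y hy hxy
    funext g
    obtain ⟨κ, hκ, h⟩ := pigeon_out K g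
    have h1 := congrFun hxy (g : F ⧸ K)
    simp only [h] at h1
    rw [hx.2 g κ hκ, hy.2 g κ hκ] at h1
    exact h1
  refine Set.Finite.of_finite_image ?_ hinj
  refine Set.Finite.subset (Finset.finite_toSet
    (Fintype.piFinset (fun _ : F ⧸ K => Finset.range k))) ?_
  rintro _ ⟨x, hx, rfl⟩
  simp only [Finset.mem_coe, Fintype.mem_piFinset, Finset.mem_range]
  intro q
  exact hx.1 _

theorem pigeon_US_sub (I : Inp) (r n l : ℕ) (hl : l ∣ n) (hl0 : 0 < l) (hn0 : 0 < n)
    (K : Subgroup F) : US I r n K ⊆ US I r l K := by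
  intro x hx
  refine ⟨hx.1, fun g h1 h2 => ?_⟩
  have hmod : ph n g % l = ph l g := by
    have h3 := Int.emod_nonneg (tz g) (by exact_mod_cast hl0.ne' : (l : ℤ) ≠ 0)
    have h4 := Int.emod_nonneg (tz g) (by exact_mod_cast hn0.ne' : (n : ℤ) ≠ 0)
    unfold ph
    zify
    rw [Int.toNat_of_nonneg h3, Int.toNat_of_nonneg h4]
    exact Int.emod_emod_of_dvd _ (by exact_mod_cast hl)
  have hdm := Nat.div_add_mod (ph n g) l
  rw [hmod] at hdm
  have hlt := pigeon_ph_lt n hn0 g
  obtain ⟨c, hc⟩ := hl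
  have hj : ph n g / l < c := by
    rw [Nat.div_lt_iff_lt_mul hl0, mul_comm]
    rw [hc] at hlt
    rwa [hc] 
  apply hx.2 g
  · have : 0 ≤ l * (ph n g / l) := Nat.zero_le _
    omega
  · have : l * (ph n g / l) + l ≤ n := by
      rw [hc]
      calc l * (ph (l * c) g / l) + l = l * (ph (l * c) g / l + 1) := by ring
        _ ≤ l * c := Nat.mul_le_mul_left _ (by rw [hc] at hj; exact hj)
    omega

/-- Pigeonhole principle. US I r n K ⊆ US I r l K as in lu_mono (l divides n). Let ∂ be the set of classes q in F/K whose phase modulo l is < 2r or ≥ l - 2r; it has at most (4r/l) * K.index elements, because each phase modulo l occurs exactly K.index / l times (left multiplication by t permutes F/K and raises the phase by one),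
unless 4r ≥ l where the bound is trivial. So the restriction of the elements of US I r n K to ∂ takes at most I.1 ^ ((4r/l) * K.index) values (as real power), some fibre has at least ncard (US I r n K) / that many elements; take y in this fibre; the fibre is contained in Fl I r l K y. Take logarithms and divide by the index. Finiteness: all sets of functions are contained in Cfg I.1 K which is finite because F/K is finite. -/
theorem pigeon (I : Inp) (r n l : ℕ) (hl : l ∣ n) (hl0 : 0 < l) (hn0 : 0 < n) (K : Subgroup F)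
    (hK : FN K) (hd : Div n K) (hne : (US I r n K).Nonempty) :
    ∃ y ∈ US I r n K, lu I r n K - (4 * r / l : ℝ) * Real.log I.1 ≤ lf I r l K y := by
  classical
  have hfin : Finite (F ⧸ K) := by
    have := hK.fin
    infer_instance
  have := Fintype.ofFinite (F ⧸ K)
  have hdl : Div l K := fun κ hκ => dvd_trans (by exact_mod_cast hl) (hd κ hκ)
  have hidx : 0 < K.index := by
    have := hK.fin
    exact Nat.pos_of_ne_zero Subgroup.FiniteIndex.index_ne_zero
  have hUS : (US I r n K).Finite := (pigeon_Cfg_fin I.1 K).subset (fun x hx => hx.1)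
  set D := Finset.univ.filter
      (fun q : F ⧸ K => ph l q.out < 2 * r ∨ l ≤ ph l q.out + 2 * r) with hD
  have hbd : l * D.card ≤ 4 * r * K.index := pigeon_bd l r hl0 K hdl
  set T : Finset (D → ℕ) := Fintype.piFinset (fun _ : D => Finset.range I.1) with hT
  have hTc : T.card = I.1 ^ D.card := by
    rw [hT, Fintype.card_piFinset]
    simp
  let R : (F → ℕ) → (D → ℕ) := fun x q => x (q : F ⧸ K).out
  have hmaps : ∀ x ∈ hUS.toFinset, R x ∈ T := by
    intro x hx
    rw [Set.Finite.mem_toFinset] at hx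
    rw [hT, Fintype.mem_piFinset]
    intro q
    rw [Finset.mem_range]
    exact hx.1.1 _
  obtain ⟨x0, hx0⟩ := hne
  have hI : 0 < I.1 := lt_of_le_of_lt (Nat.zero_le _) (hx0.1.1 1)
  have hTne : T.Nonempty := ⟨R x0, hmaps x0 (by rw [Set.Finite.mem_toFinset]; exact hx0)⟩
  have hScard : hUS.toFinset.card = (US I r n K).ncard := (Set.ncard_eq_toFinset_card _ hUS).symm
  have hSpos : 0 < (US I r n K).ncard := (Set.ncard_pos hUS).2 ⟨x0, hx0⟩
  have hTpos : (0 : ℝ) < (T.card : ℝ) := by exact_mod_cast Finset.card_pos.2 hTne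
  set b : ℝ := ((US I r n K).ncard : ℝ) / (T.card : ℝ) with hb
  have hbpos : 0 < b := div_pos (by exact_mod_cast hSpos) hTpos
  obtain ⟨t, ht, hbt⟩ := Finset.exists_le_card_fiber_of_nsmul_le_card_of_maps_to
    (b := b) hmaps hTne (by
      rw [nsmul_eq_mul, hb, hScard]
      rw [mul_div_cancel₀ _ hTpos.ne'])
  set fib := hUS.toFinset.filter (fun x => R x = t) with hfib
  have hfne : fib.Nonempty := by
    rw [← Finset.card_pos]
    have : (0 : ℝ) < (fib.card : ℝ) := lt_of_lt_of_le hbpos hbt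
    exact_mod_cast this
  obtain ⟨y, hy⟩ := hfne
  rw [hfib, Finset.mem_filter, Set.Finite.mem_toFinset] at hy
  refine ⟨y, hy.1, ?_⟩
  have hFl : (Fl I r l K y).Finite := (pigeon_Cfg_fin I.1 K).subset (fun x hx => hx.1.1)
  have hsub : (fib : Set (F → ℕ)) ⊆ Fl I r l K y := by
    intro x hx
    rw [Finset.mem_coe, hfib, Finset.mem_filter, Set.Finite.mem_toFinset] at hx
    refine ⟨pigeon_US_sub I r n l hl hl0 hn0 K hx.1, fun g hg => ?_⟩
    obtain ⟨κ, hκ, h⟩ := pigeon_out K g
    have hmem : (g : F ⧸ K) ∈ D := by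
      rw [hD, Finset.mem_filter]
      refine ⟨Finset.mem_univ _, ?_⟩
      rw [pigeon_ph_out l K hdl]
      exact hg
    have h1 : R x ⟨(g : F ⧸ K), hmem⟩ = R y ⟨(g : F ⧸ K), hmem⟩ := by rw [hx.2, hy.2]
    have h2 : x ((g : F ⧸ K)).out = y ((g : F ⧸ K)).out := h1
    rw [h, hx.1.1.2 g κ hκ, hy.1.1.2 g κ hκ] at h2
    exact h2
  have hcle : fib.card ≤ (Fl I r l K y).ncard := by
    rw [← Set.ncard_coe_finset fib]
    exact Set.ncard_le_ncard hsub hFl
  have hble : b ≤ ((Fl I r l K y).ncard : ℝ) := le_trans hbt (by exact_mod_cast hcle)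
  have hlog : Real.log b ≤ Real.log ((Fl I r l K y).ncard : ℝ) := Real.log_le_log hbpos hble
  have hlogb : Real.log b = Real.log ((US I r n K).ncard : ℝ) - (D.card : ℝ) * Real.log I.1 := by
    rw [hb, Real.log_div (by exact_mod_cast hSpos.ne') hTpos.ne', hTc]
    push_cast
    rw [Real.log_pow]
  have hlogI : 0 ≤ Real.log (I.1 : ℝ) := Real.log_nonneg (by exact_mod_cast hI)
  unfold lu lf
  have hidx' : (0 : ℝ) < (K.index : ℝ) := by exact_mod_cast hidx
  have hl' : (0 : ℝ) < (l : ℝ) := by exact_mod_cast hl0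
  rw [sub_le_iff_le_add, div_le_iff₀ hidx', add_mul, div_mul_cancel₀ _ hidx'.ne']
  have hDl : (D.card : ℝ) ≤ (4 * r / l : ℝ) * K.index := by
    rw [div_mul_eq_mul_div, le_div_iff₀ hl']
    have : (l : ℝ) * (D.card : ℝ) ≤ 4 * r * K.index := by exact_mod_cast hbd
    linarith
  have h5 := mul_le_mul_of_nonneg_right hDl hlogI
  rw [hlogb] at hlog
  nlinarith [h5, hlog]

end Pool.Agent.Helper948.Ent.B4
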