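import Pool.Agent.Helper948.Ent.Defs
import Pool.Agent.Helper948.Ent.B1

/- solved by helper714 -/


set_option autoImplicit false

namespace Pool.Agent.Helper948.Ent.B5
open Pool.Agent.Helper948.Dom Pool.Agent.Helper948.Ent Pool.Agent.Helper948.Ent.B1








-- TARGET
theorem local_weight_tz_mul (g h : F) : tz (g * h) = tz g + tz h := by
  unfold tz
  rw [map_mul]
  rfl

theorem local_weight_tz_one : tz 1 = 0 := by
  unfold tz
  rw [map_one]
  rfl

theorem local_weight_tz_inv (g : F) : tz g⁻¹ = - tz g := by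
  unfold tz
  rw [map_inv]
  rfl

theorem local_weight_tz_ft : tz ft = 1 := by
  unfold tz tau ft
  rw [FreeGroup.lift_apply_of]
  rfl

theorem local_weight_tz_fa : tz fa = 0 := by
  unfold tz tau fa
  rw [FreeGroup.lift_apply_of]
  rfl

theorem local_weight_tz_pow (i : ℕ) : tz (ft ^ i) = i := by
  induction i with
  | zero => rw [pow_zero, local_weight_tz_one]; rfl
  | succ i ih => rw [pow_succ, local_weight_tz_mul, ih, local_weight_tz_ft]; push_cast; ring

theorem local_weight_tz_W {l : ℕ} {w : F} (h : w ∈ W l) : tz w = 0 := by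
  rw [W] at h
  induction h using Subgroup.closure_induction with
  | mem x hx =>
    obtain ⟨i, -, rfl⟩ := hx
    unfold A
    rw [local_weight_tz_mul, local_weight_tz_mul, local_weight_tz_inv, local_weight_tz_fa]
    ring
  | one => exact local_weight_tz_one
  | mul x y _ _ hx hy => rw [local_weight_tz_mul, hx, hy]; rfl
  | inv x _ hx => rw [local_weight_tz_inv, hx]; rfl

theorem local_weight_ph_spec (l : ℕ) (hl : 0 < l) (g : F) :
    ph l g < l ∧ ∃ c : ℤ, tz g = (ph l g : ℤ) + l * c := by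
  have hl' : (0 : ℤ) < l := by exact_mod_cast hl
  have h1 := Int.emod_nonneg (tz g) hl'.ne'
  have h2 := Int.emod_lt_of_pos (tz g) hl'
  have h3 : ((tz g % (l : ℤ)).toNat : ℤ) = tz g % l := Int.toNat_of_nonneg h1
  refine ⟨?_, tz g / l, ?_⟩
  · unfold ph
    omega
  · unfold ph
    rw [h3]
    exact (Int.emod_add_mul_ediv _ _).symm

theorem local_weight_ph_eq (l : ℕ) (g : F) (p : ℕ) (hp : p < l) (c : ℤ)
    (h : tz g = (p : ℤ) + l * c) : ph l g = p := by
  unfold ph
  rw [h, Int.add_mul_emod_self_left, Int.emod_eq_of_lt (by positivity) (by exact_mod_cast hp)]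
  rfl

theorem local_weight_ph_K {l : ℕ} {K' : Subgroup F} (hd : Div l K') (g κ : F) (hκ : κ ∈ K') :
    ph l (g * κ) = ph l g := by
  obtain ⟨c, hc⟩ := hd κ hκ
  unfold ph
  rw [local_weight_tz_mul, hc, Int.add_mul_emod_self_left]

theorem local_weight_ph_W {l n : ℕ} (w g : F) (hw : w ∈ W n) : ph l (w * g) = ph l g := by
  unfold ph
  rw [local_weight_tz_mul, local_weight_tz_W hw, zero_add]

/-- the label of the tile of `h` -/
def local_weight_tl (l : ℕ) (K' : Subgroup F) (h : F) : Set (F ⧸ K') :=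
  {q | ∃ w ∈ W l, q = ((w * (ft ^ (l - 1 - ph l h) * h) : F) : F ⧸ K')}

theorem local_weight_tl_sub (l : ℕ) (K' : Subgroup F) (h h' w κ : F) (hw : w ∈ W l) (hκ : κ ∈ K')
    (he : ft ^ (l - 1 - ph l h) * h = w * (ft ^ (l - 1 - ph l h') * h') * κ) :
    local_weight_tl l K' h ⊆ local_weight_tl l K' h' := by
  rintro q ⟨w1, hw1, rfl⟩
  refine ⟨w1 * w, mul_mem hw1 hw, ?_⟩
  rw [he]
  have e : w1 * (w * (ft ^ (l - 1 - ph l h') * h') * κ) =
      w1 * w * (ft ^ (l - 1 - ph l h') * h') * κ := by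
    simp only [mul_assoc]
  rw [e]
  exact QuotientGroup.mk_mul_of_mem _ hκ

theorem local_weight_tl_eq (l : ℕ) (K' : Subgroup F) (h h' w κ : F) (hw : w ∈ W l) (hκ : κ ∈ K')
    (he : ft ^ (l - 1 - ph l h) * h = w * (ft ^ (l - 1 - ph l h') * h') * κ) :
    local_weight_tl l K' h = local_weight_tl l K' h' := by
  apply Set.Subset.antisymm (local_weight_tl_sub l K' h h' w κ hw hκ he)
  apply local_weight_tl_sub l K' h' h w⁻¹ κ⁻¹ (inv_mem hw) (inv_mem hκ)
  rw [he]
  simp only [mul_assoc]
  rw [mul_inv_cancel, mul_one, inv_mul_cancel_left]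

theorem local_weight_tl_K {l : ℕ} {K' : Subgroup F} (hd : Div l K') (h κ : F) (hκ : κ ∈ K') :
    local_weight_tl l K' (h * κ) = local_weight_tl l K' h := by
  apply local_weight_tl_eq l K' _ _ 1 κ (one_mem _) hκ
  rw [local_weight_ph_K hd h κ hκ, one_mul, mul_assoc]

theorem local_weight_tl_inner (l r : ℕ) (hl : 0 < l) (K' : Subgroup F) (h : F) (h1 : r ≤ ph l h)
    (h2 : ph l h + r < l) (v : List (Fin 2 × Bool)) (hv : v.length ≤ r) :
    local_weight_tl l K' (FreeGroup.mk v * h) = local_weight_tl l K' h := by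
  obtain ⟨hp, c, hc⟩ := local_weight_ph_spec l hl h
  obtain ⟨i', hi1, hi2, hi3, hi4⟩ := path v r (l - 1 - ph l h) hv (by omega)
  have hi5 : i' < l := by omega
  have hph : ph l (FreeGroup.mk v * h) = l - 1 - i' := by
    apply local_weight_ph_eq l _ _ (by omega) c
    rw [local_weight_tz_mul, hc]
    omega
  apply local_weight_tl_eq l K' _ _ (ft ^ i' * FreeGroup.mk v * (ft ^ (l - 1 - ph l h))⁻¹) 1 ?_ (one_mem _)
  · rw [hph, show l - 1 - (l - 1 - i') = i' by omega]
    simp only [mul_assoc]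
    rw [inv_mul_cancel_left, mul_one]
  · exact W_mono (by omega) hi4

/-- the model tile -/
def local_weight_D (l : ℕ) (u : F) : Prop := ∃ i : ℕ, i < l ∧ ft ^ i * u ∈ W l

theorem local_weight_D_tz {l i : ℕ} {u : F} (h : ft ^ i * u ∈ W l) : tz u = - i := by
  have := local_weight_tz_W h
  rw [local_weight_tz_mul, local_weight_tz_pow] at this
  linarith

/-- the phase of a point of the model tile -/
def local_weight_pu (l : ℕ) (u : F) : ℕ := ph l (ft ^ (l - 1) * u)

theorem local_weight_pu_eq {l i : ℕ} (hi : i < l) {u : F} (h : ft ^ i * u ∈ W l) :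
    local_weight_pu l u = l - 1 - i := by
  apply local_weight_ph_eq l _ _ (by omega) 0
  rw [local_weight_tz_mul, local_weight_tz_pow, local_weight_D_tz h]
  omega

theorem local_weight_ph_top {l : ℕ} (hl : 0 < l) (g u : F) (hg : ph l g = l - 1) :
    ph l (u * g) = local_weight_pu l u := by
  obtain ⟨-, c, hc⟩ := local_weight_ph_spec l hl g
  obtain ⟨hp, d, hd⟩ := local_weight_ph_spec l hl (ft ^ (l - 1) * u)
  apply local_weight_ph_eq l _ _ hp (c + d)
  rw [local_weight_tz_mul, hc, hg]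
  rw [local_weight_tz_mul, local_weight_tz_pow] at hd
  rw [mul_add]
  linarith

theorem local_weight_D_inner (l r : ℕ) (u : F) (hu : local_weight_D l u) (h1 : r ≤ local_weight_pu l u)
    (h2 : local_weight_pu l u + r < l) (v : List (Fin 2 × Bool)) (hv : v.length ≤ r) :
    local_weight_D l (FreeGroup.mk v * u) := by
  obtain ⟨i, hi, hiu⟩ := hu
  rw [local_weight_pu_eq hi hiu] at h1 h2
  obtain ⟨i', hi1, hi2, hi3, hi4⟩ := path v r i hv (by omega)
  refine ⟨i', by omega, ?_⟩
  have e : ft ^ i' * (FreeGroup.mk v * u) =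
      (ft ^ i' * FreeGroup.mk v * (ft ^ i)⁻¹) * (ft ^ i * u) := by
    simp only [mul_assoc]
    rw [inv_mul_cancel_left]
  rw [e]
  exact mul_mem (W_mono (by omega) hi4) hiu

theorem local_weight_tl_of_D {l : ℕ} (hl : 0 < l) (K' : Subgroup F) (g u : F) (hg : ph l g = l - 1)
    (hu : local_weight_D l u) : local_weight_tl l K' (u * g) = local_weight_tl l K' g := by
  obtain ⟨i, hi, hiu⟩ := hu
  apply local_weight_tl_eq l K' _ _ (ft ^ i * u) 1 hiu (one_mem _)
  rw [local_weight_ph_top hl g u hg, local_weight_pu_eq hi hiu, hg, show l - 1 - (l - 1 - i) = i by omega,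
    Nat.sub_self, pow_zero, one_mul, mul_one, mul_assoc]

theorem local_weight_D_of_tl {l : ℕ} (hl : 0 < l) (K' : Subgroup F) (g h : F) (hg : ph l g = l - 1)
    (he : local_weight_tl l K' h = local_weight_tl l K' g) : ∃ u, local_weight_D l u ∧ ∃ κ ∈ K', h = u * g * κ := by
  obtain ⟨hp, -⟩ := local_weight_ph_spec l hl h
  have h1 : (((1 : F) * (ft ^ (l - 1 - ph l h) * h) : F) : F ⧸ K') ∈ local_weight_tl l K' h :=
    ⟨1, one_mem _, rfl⟩
  rw [he] at h1
  obtain ⟨w, hw, h2⟩ := h1
  rw [hg, Nat.sub_self, pow_zero, one_mul, one_mul, eq_comm, QuotientGroup.eq] at h2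
  refine ⟨(ft ^ (l - 1 - ph l h))⁻¹ * w, ⟨l - 1 - ph l h, by omega, ?_⟩, _, h2, ?_⟩
  · rw [mul_inv_cancel_left]
    exact hw
  · simp only [mul_assoc, mul_inv_rev]
    rw [mul_inv_cancel_left, mul_inv_cancel_left, inv_mul_cancel_left]

theorem local_weight_D_uniq {l : ℕ} (K' : Subgroup F) (hn : K'.Normal) (hd : Div l K')
    (g u u' κ κ' : F) (hu : local_weight_D l u) (hu' : local_weight_D l u') (hκ : κ ∈ K') (hκ' : κ' ∈ K')
    (he : u * g * κ = u' * g * κ') : ∃ κ'' ∈ K', κ'' ∈ W l ∧ u' = u * κ'' := by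
  obtain ⟨i, hi, hiu⟩ := hu
  obtain ⟨i', hi', hiu'⟩ := hu'
  have h1 : u⁻¹ * u' = g * (κ * κ'⁻¹) * g⁻¹ := by
    have h2 : u' = u * g * κ * κ'⁻¹ * g⁻¹ := by
      rw [he]
      group
    rw [h2]
    group
  have h3 : u⁻¹ * u' ∈ K' := by
    rw [h1]
    exact hn.conj_mem _ (mul_mem hκ (inv_mem hκ')) g
  have h4 : i = i' := by
    obtain ⟨c, hc⟩ := hd _ h3
    rw [local_weight_tz_mul, local_weight_tz_inv, local_weight_D_tz hiu, local_weight_D_tz hiu'] at hc
    have h5 : (i : ℤ) - i' = l * c := by linarith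
    rcases lt_trichotomy c 0 with h | h | h
    · have : (l : ℤ) * c ≤ - l := by nlinarith
      omega
    · rw [h, mul_zero] at h5
      omega
    · have : (l : ℤ) ≤ l * c := by nlinarith
      omega
  subst h4
  refine ⟨u⁻¹ * u', h3, ?_, (mul_inv_cancel_left u u').symm⟩
  have h6 : u⁻¹ * u' = (ft ^ i * u)⁻¹ * (ft ^ i * u') := by
    rw [mul_inv_rev, mul_assoc, inv_mul_cancel_left]
  rw [h6]
  exact mul_mem (inv_mem hiu) hiu'

/-- the local condition at `h` -/
def local_weight_Pc (I : Inp) (r l : ℕ) (K' : Subgroup F) (y x : F → ℕ) (h : F) : Prop :=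
  x h < I.1 ∧ (∀ κ ∈ K', x (h * κ) = x h) ∧
    (r ≤ ph l h → ph l h + r < l → Av I x h) ∧
    ((ph l h < 2 * r ∨ l ≤ ph l h + 2 * r) → x h = y h)

/-- fillings of one tile -/
def local_weight_St (I : Inp) (r l : ℕ) (K' : Subgroup F) (y : F → ℕ) (t : Set (F ⧸ K')) :
    Set (F → ℕ) :=
  {x | (∀ h, local_weight_tl l K' h ≠ t → x h = 0) ∧ ∀ h, local_weight_tl l K' h = t → local_weight_Pc I r l K' y x h}

/-- the model of the fillings of one tile -/
def local_weight_Mod (I : Inp) (r l : ℕ) (K : Subgroup F) (Y : F → ℕ) : Set (F → ℕ) :=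
  {ζ | (∀ u, ¬ local_weight_D l u → ζ u = 0) ∧ ∀ u, local_weight_D l u → (ζ u < I.1 ∧
    (∀ κ ∈ K, κ ∈ W l → ζ (u * κ) = ζ u) ∧
    (r ≤ local_weight_pu l u → local_weight_pu l u + r < l → Av I ζ u) ∧
    ((local_weight_pu l u < 2 * r ∨ l ≤ local_weight_pu l u + 2 * r) → ζ u = Y u))}

theorem local_weight_Mod_congr (I : Inp) (r l : ℕ) (K : Subgroup F) (Y Y' : F → ℕ)
    (h : ∀ u, local_weight_D l u → Y u = Y' u) : local_weight_Mod I r l K Y = local_weight_Mod I r l K Y' := by
  ext ζ
  constructor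
  · rintro ⟨h1, h2⟩
    refine ⟨h1, fun u hu => ?_⟩
    obtain ⟨a, b, c, d⟩ := h2 u hu
    exact ⟨a, b, c, fun h' => (d h').trans (h u hu)⟩
  · rintro ⟨h1, h2⟩
    refine ⟨h1, fun u hu => ?_⟩
    obtain ⟨a, b, c, d⟩ := h2 u hu
    exact ⟨a, b, c, fun h' => (d h').trans (h u hu).symm⟩

theorem local_weight_D_mul {l : ℕ} {u κ : F} (hu : local_weight_D l u) (hκ : κ ∈ W l) : local_weight_D l (u * κ) := by
  obtain ⟨i, hi, hiu⟩ := hu
  refine ⟨i, hi, ?_⟩
  rw [← mul_assoc]
  exact mul_mem hiu hκ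

theorem local_weight_Av_congr (I : Inp) (r : ℕ) (hr : Rad I r) (x x' : F → ℕ) (h h' : F)
    (he : ∀ v : List (Fin 2 × Bool), v.length ≤ r →
      x (FreeGroup.mk v * h) = x' (FreeGroup.mk v * h')) (ha : Av I x h) : Av I x' h' := by
  intro P hP hq
  apply ha P hP
  intro q hqP
  rw [he q.1 (hr P hP q hqP)]
  exact hq q hqP

open Classical in
theorem local_weight_St_card (I : Inp) (r l m : ℕ) (K K' : Subgroup F) (hn : K'.Normal) (hl : 0 < l)
    (hlm : l ≤ m + 1) (hr : Rad I r) (hd : Div l K') (hext : Ext K m K') (y : F → ℕ)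
    (hy : ∀ g, ∀ κ ∈ K', y (g * κ) = y g) (g : F) (hg : ph l g = l - 1) :
    (local_weight_St I r l K' y (local_weight_tl l K' g)).ncard = (local_weight_Mod I r l K (fun u => y (u * g))).ncard := by
  have hKK : ∀ κ ∈ K, κ ∈ W l → κ ∈ K' := fun κ h1 h2 => hext.2 κ (W_mono hlm h2) h1
  have hconj : ∀ κ ∈ K', g⁻¹ * κ * g ∈ K' := by
    intro κ hκ
    have := hn.conj_mem κ hκ g⁻¹
    rwa [inv_inv] at this
  apply Set.ncard_congr (fun x _ => fun u => if local_weight_D l u then x (u * g) else 0)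
  · -- maps to
    rintro x ⟨-, hx⟩
    refine ⟨fun u hu => if_neg hu, fun u hu => ?_⟩
    obtain ⟨a, b, c, d⟩ := hx (u * g) (local_weight_tl_of_D hl K' g u hg hu)
    rw [local_weight_ph_top hl g u hg] at c d
    refine ⟨?_, ?_, ?_, ?_⟩
    · show (if local_weight_D l u then x (u * g) else 0) < I.1
      rw [if_pos hu]
      exact a
    · intro κ hκ hκW
      show (if local_weight_D l (u * κ) then x (u * κ * g) else 0) = if local_weight_D l u then x (u * g) else 0
      rw [if_pos hu, if_pos (local_weight_D_mul hu hκW)]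
      have e : u * κ * g = u * g * (g⁻¹ * κ * g) := by group
      rw [e]
      exact b _ (hconj κ (hKK κ hκ hκW))
    · intro h1 h2
      refine local_weight_Av_congr I r hr x _ (u * g) u (fun v hv => ?_) (c h1 h2)
      show x (FreeGroup.mk v * (u * g)) = if local_weight_D l (FreeGroup.mk v * u) then
        x (FreeGroup.mk v * u * g) else 0
      rw [if_pos (local_weight_D_inner l r u hu h1 h2 v hv), mul_assoc]
    · intro h1
      show (if local_weight_D l u then x (u * g) else 0) = y (u * g)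
      rw [if_pos hu]
      exact d h1
  · -- injective
    rintro x x' ⟨hx0, hx⟩ ⟨hx0', hx'⟩ he
    funext h
    by_cases ht : local_weight_tl l K' h = local_weight_tl l K' g
    · obtain ⟨u, hu, κ, hκ, rfl⟩ := local_weight_D_of_tl hl K' g h hg ht
      have h1 := congrFun he u
      simp only [if_pos hu] at h1
      have h2 := local_weight_tl_of_D hl K' g u hg hu
      rw [(hx (u * g) h2).2.1 κ hκ, (hx' (u * g) h2).2.1 κ hκ]
      exact h1
    · rw [hx0 h ht, hx0' h ht]
  · -- surjective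
    rintro ζ ⟨hζ0, hζ⟩
    let x : F → ℕ := fun h => if h' : ∃ u, local_weight_D l u ∧ ∃ κ ∈ K', h = u * g * κ then
      ζ h'.choose else 0
    have hx1 : ∀ u κ, local_weight_D l u → κ ∈ K' → x (u * g * κ) = ζ u := by
      intro u κ hu hκ
      have h' : ∃ u', local_weight_D l u' ∧ ∃ κ' ∈ K', u * g * κ = u' * g * κ' := ⟨u, hu, κ, hκ, rfl⟩
      have h1 : x (u * g * κ) = ζ h'.choose := dif_pos h'
      rw [h1]
      obtain ⟨hu', κ', hκ', he⟩ := h'.choose_spec
      obtain ⟨κ'', h2, h3, h4⟩ := local_weight_D_uniq K' hn hd g u h'.choose κ κ' hu hu' hκ hκ' he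
      rw [h4]
      exact (hζ u hu).2.1 κ'' (hext.1 h2) h3
    have hx2 : ∀ h, local_weight_tl l K' h ≠ local_weight_tl l K' g → x h = 0 := by
      intro h hne
      apply dif_neg
      rintro ⟨u, hu, κ, hκ, rfl⟩
      apply hne
      rw [local_weight_tl_K hd _ _ hκ, local_weight_tl_of_D hl K' g u hg hu]
    refine ⟨x, ⟨hx2, fun h ht => ?_⟩, ?_⟩
    · obtain ⟨u, hu, κ, hκ, rfl⟩ := local_weight_D_of_tl hl K' g h hg ht
      obtain ⟨a, b, c, d⟩ := hζ u hu
      refine ⟨?_, ?_, ?_, ?_⟩
      · rw [hx1 u κ hu hκ]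
        exact a
      · intro κ' hκ'
        rw [hx1 u κ hu hκ, mul_assoc (u * g) κ κ', hx1 u (κ * κ') hu (mul_mem hκ hκ')]
      · rw [local_weight_ph_K hd _ _ hκ, local_weight_ph_top hl g u hg]
        intro h1 h2
        refine local_weight_Av_congr I r hr ζ x u _ (fun v hv => ?_) (c h1 h2)
        have e : FreeGroup.mk v * (u * g * κ) = FreeGroup.mk v * u * g * κ := by
          simp only [mul_assoc]
        rw [e, hx1 _ κ (local_weight_D_inner l r u hu h1 h2 v hv) hκ]
      · rw [local_weight_ph_K hd _ _ hκ, local_weight_ph_top hl g u hg, hx1 u κ hu hκ, hy _ κ hκ]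
        exact d
    · funext u
      by_cases hu : local_weight_D l u
      · simp only [if_pos hu]
        have h1 := hx1 u 1 hu (one_mem _)
        rw [mul_one] at h1
        exact h1
      · simp only [if_neg hu]
        exact (hζ0 u hu).symm

open Classical in
/-- product decomposition -/
theorem local_weight_prod {X T : Type} [Fintype T] (τ : X → T) (P : (X → ℕ) → X → Prop)
    (hP : ∀ (x x' : X → ℕ) (h : X), (∀ h', τ h' = τ h → x h' = x' h') → P x h → P x' h) :
    {x : X → ℕ | ∀ h, P x h}.ncard =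
      ∏ t, {x : X → ℕ | (∀ h, τ h ≠ t → x h = 0) ∧ ∀ h, τ h = t → P x h}.ncard := by
  have e : {x : X → ℕ | ∀ h, P x h} ≃
      ∀ t, {x : X → ℕ | (∀ h, τ h ≠ t → x h = 0) ∧ ∀ h, τ h = t → P x h} :=
    { toFun := fun x t => ⟨fun h => if τ h = t then x.1 h else 0, by
        refine ⟨fun h hh => if_neg hh, fun h hh => ?_⟩
        refine hP x.1 _ h (fun h' hh' => ?_) (x.2 h)
        show x.1 h' = if τ h' = t then x.1 h' else 0
        rw [if_pos (hh'.trans hh)]⟩
      invFun := fun z => ⟨fun h => (z (τ h)).1 h, by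
        intro h
        refine hP (z (τ h)).1 _ h (fun h' hh' => ?_) ((z (τ h)).2.2 h rfl)
        show (z (τ h)).1 h' = (z (τ h')).1 h'
        rw [hh']⟩
      left_inv := by
        intro x
        apply Subtype.ext
        funext h
        exact if_pos rfl
      right_inv := by
        intro z
        funext t
        apply Subtype.ext
        funext h
        show (if τ h = t then (z (τ h)).1 h else 0) = (z t).1 h
        by_cases hh : τ h = t
        · rw [if_pos hh]
          subst hh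
          rfl
        · rw [if_neg hh]
          exact ((z t).2.1 h hh).symm }
  calc {x : X → ℕ | ∀ h, P x h}.ncard = Nat.card {x : X → ℕ | ∀ h, P x h} := rfl
    _ = Nat.card (∀ t, {x : X → ℕ | (∀ h, τ h ≠ t → x h = 0) ∧ ∀ h, τ h = t → P x h}) :=
        Nat.card_congr e
    _ = _ := Nat.card_pi

theorem local_weight_Fl_eq (I : Inp) (r l : ℕ) (K' : Subgroup F) (y : F → ℕ) :
    Fl I r l K' y = {x | ∀ h, local_weight_Pc I r l K' y x h} := by
  ext x
  constructor
  · rintro ⟨⟨⟨h1, h2⟩, h3⟩, h4⟩ h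
    exact ⟨h1 h, h2 h, h3 h, h4 h⟩
  · intro hx
    exact ⟨⟨⟨fun g => (hx g).1, fun g => (hx g).2.1⟩, fun g => (hx g).2.2.1⟩,
      fun g => (hx g).2.2.2⟩

theorem local_weight_Fl_card (I : Inp) (r l : ℕ) (K' : Subgroup F) [Fintype (Set (F ⧸ K'))] (hl : 0 < l)
    (hr : Rad I r) (hd : Div l K') (y : F → ℕ) :
    (Fl I r l K' y).ncard = ∏ t, (local_weight_St I r l K' y t).ncard := by
  rw [local_weight_Fl_eq]
  apply local_weight_prod (local_weight_tl l K')
  rintro x x' h he ⟨a, b, c, d⟩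
  refine ⟨?_, ?_, ?_, ?_⟩
  · rw [← he h rfl]
    exact a
  · intro κ hκ
    rw [← he h rfl, ← he _ (local_weight_tl_K hd h κ hκ)]
    exact b κ hκ
  · intro h1 h2
    exact local_weight_Av_congr I r hr x x' h h
      (fun v hv => he _ (local_weight_tl_inner l r hl K' h h1 h2 v hv)) (c h1 h2)
  · intro h1
    rw [← he h rfl]
    exact d h1

theorem local_weight_St_fin (I : Inp) (r l : ℕ) (K' : Subgroup F) [Finite (F ⧸ K')] (hd : Div l K')
    (y : F → ℕ) (t : Set (F ⧸ K')) : (local_weight_St I r l K' y t).Finite := by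
  apply Set.Finite.subset (Set.finite_range (fun z : (F ⧸ K') → Fin (I.1 + 1) =>
    fun h : F => ((z (h : F ⧸ K') : Fin (I.1 + 1)) : ℕ)))
  rintro x ⟨hx0, hx⟩
  have hb : ∀ h, x h < I.1 + 1 := by
    intro h
    by_cases ht : local_weight_tl l K' h = t
    · exact (hx h ht).1.trans (Nat.lt_succ_self _)
    · rw [hx0 h ht]
      exact Nat.succ_pos _
  refine ⟨fun q => ⟨x q.out, hb _⟩, ?_⟩
  funext h
  show x ((h : F ⧸ K').out) = x h
  obtain ⟨κ, hκ⟩ := QuotientGroup.mk_out_eq_mul K' h
  rw [hκ]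
  by_cases ht : local_weight_tl l K' h = t
  · exact (hx h ht).2.1 κ κ.2
  · rw [hx0 h ht, hx0 _ (by rw [local_weight_tl_K hd _ _ κ.2]; exact ht)]

theorem local_weight_St_ne (I : Inp) (r l : ℕ) (K' : Subgroup F) (hl : 0 < l) (hr : Rad I r)
    (hd : Div l K') (y : F → ℕ) (hy : y ∈ US I r l K') (t : Set (F ⧸ K')) :
    (local_weight_St I r l K' y t).Nonempty := by
  classical
  refine ⟨fun h => if local_weight_tl l K' h = t then y h else 0, fun h hh => if_neg hh, fun h hh => ?_⟩
  obtain ⟨⟨h1, h2⟩, h3⟩ := hy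
  refine ⟨?_, ?_, ?_, ?_⟩
  · show (if local_weight_tl l K' h = t then y h else 0) < I.1
    rw [if_pos hh]
    exact h1 h
  · intro κ hκ
    show (if local_weight_tl l K' (h * κ) = t then y (h * κ) else 0) =
      if local_weight_tl l K' h = t then y h else 0
    rw [local_weight_tl_K hd h κ hκ, if_pos hh, if_pos hh]
    exact h2 h κ hκ
  · intro a b
    refine local_weight_Av_congr I r hr y _ h h (fun v hv => ?_) (h3 h a b)
    show y (FreeGroup.mk v * h) =
      if local_weight_tl l K' (FreeGroup.mk v * h) = t then y (FreeGroup.mk v * h) else 0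
    rw [if_pos ((local_weight_tl_inner l r hl K' h a b v hv).trans hh)]
  · intro _
    exact if_pos hh

theorem local_weight_St_one (I : Inp) (r l : ℕ) (K' : Subgroup F) (y : F → ℕ) (t : Set (F ⧸ K'))
    (ht : ∀ h, local_weight_tl l K' h ≠ t) : (local_weight_St I r l K' y t).ncard = 1 := by
  have h1 : local_weight_St I r l K' y t = {fun _ => 0} := by
    ext x
    constructor
    · rintro ⟨h1, -⟩
      exact funext (fun h => h1 h (ht h))
    · intro hx
      have hx' : x = fun _ => 0 := hx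
      rw [hx']
      exact ⟨fun _ _ => rfl, fun h hh => absurd hh (ht h)⟩
  rw [h1, Set.ncard_singleton]

theorem local_weight_relIndex (K K' : Subgroup F) (l m : ℕ) (hlm : l ≤ m + 1) (hext : Ext K m K') :
    K'.relIndex (W l) = K.relIndex (W l) := by
  unfold Subgroup.relIndex
  congr 1
  ext ⟨w, hw⟩
  rw [Subgroup.mem_subgroupOf, Subgroup.mem_subgroupOf]
  exact ⟨fun h => hext.1 h, fun h => hext.2 w (W_mono hlm hw) h⟩

theorem local_weight_count (l : ℕ) (hl : 0 < l) (K' : Subgroup F) [hn : K'.Normal] (hd : Div l K')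
    (g : F) (hg : ph l g = l - 1) :
    {q : F ⧸ K' | ph l q.out = l - 1 ∧ local_weight_tl l K' q.out = local_weight_tl l K' g}.ncard =
      K'.relIndex (W l) := by
  have h1 : {q : F ⧸ K' | ph l q.out = l - 1 ∧ local_weight_tl l K' q.out = local_weight_tl l K' g} =
      (fun q => q * (g : F ⧸ K')) ''
        ((W l).map (QuotientGroup.mk' K') : Set (F ⧸ K')) := by
    ext q
    constructor
    · rintro ⟨hq1, hq2⟩
      have h2 : (((1 : F) * (ft ^ (l - 1 - ph l q.out) * q.out) : F) : F ⧸ K') ∈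
          local_weight_tl l K' q.out := ⟨1, one_mem _, rfl⟩
      rw [hq2] at h2
      obtain ⟨w, hw, h3⟩ := h2
      rw [hg, hq1, Nat.sub_self, pow_zero, one_mul, one_mul, one_mul,
        QuotientGroup.out_eq'] at h3
      exact ⟨(w : F ⧸ K'), ⟨w, hw, rfl⟩, h3.symm⟩
    · rintro ⟨_, ⟨w, hw, rfl⟩, rfl⟩
      obtain ⟨κ, hκ⟩ := QuotientGroup.mk_out_eq_mul K' (w * g)
      have h4 : ((QuotientGroup.mk' K' w) * (g : F ⧸ K')).out = w * g * κ := hκ
      show ph l ((QuotientGroup.mk' K' w) * (g : F ⧸ K')).out = l - 1 ∧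
        local_weight_tl l K' ((QuotientGroup.mk' K' w) * (g : F ⧸ K')).out = local_weight_tl l K' g
      rw [h4, local_weight_ph_K hd _ _ κ.2, local_weight_ph_W w g hw]
      refine ⟨hg, ?_⟩
      rw [local_weight_tl_K hd _ _ κ.2]
      exact local_weight_tl_of_D hl K' g w hg ⟨0, hl, by rw [pow_zero, one_mul]; exact hw⟩
  rw [h1, Set.ncard_image_of_injective _ (mul_left_injective _)]
  have h5 := Subgroup.relIndex_ker (K := W l) (QuotientGroup.mk' K')
  rw [QuotientGroup.ker_mk'] at h5
  rw [h5]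
  rfl

open Classical in
/-- the values prescribed by a pattern on the model tile -/
noncomputable def local_weight_Y (I : Inp) (l m : ℕ) (K : Subgroup F) [K.Normal]
    (ψ : Wb K m → Fin l → Fin (I.1 + 1)) (u : F) : ℕ :=
  if h : (ft ^ ((-tz u).toNat) * u ∈ W (m + 1)) ∧ (-tz u).toNat < l then
    ((ψ ⟨QuotientGroup.mk' K (ft ^ ((-tz u).toNat) * u), Subgroup.mem_map_of_mem _ h.1⟩
      ⟨(-tz u).toNat, h.2⟩ : Fin (I.1 + 1)) : ℕ)
  else 0

theorem local_weight_Y_pat (I : Inp) (l m : ℕ) (K : Subgroup F) [K.Normal] (K' : Subgroup F)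
    (hn : K'.Normal) (hlm : l ≤ m + 1) (hext : Ext K m K') (y : F → ℕ)
    (hy1 : ∀ g, y g < I.1) (hy : ∀ g, ∀ κ ∈ K', y (g * κ) = y g) (g u : F)
    (hu : local_weight_D l u) : local_weight_Y I l m K (pat K m (vb I.1 l y) g) u = y (u * g) := by
  obtain ⟨i, hi, hiu⟩ := hu
  have hi2 : (-tz u).toNat = i := by
    rw [local_weight_D_tz hiu]
    simp
  have hc : (ft ^ ((-tz u).toNat) * u ∈ W (m + 1)) ∧ (-tz u).toNat < l := by
    rw [hi2]
    exact ⟨W_mono hlm hiu, hi⟩
  unfold local_weight_Y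
  rw [dif_pos hc]
  have hspec := (Subgroup.mem_map.1 (Subgroup.mem_map_of_mem (QuotientGroup.mk' K)
    hc.1)).choose_spec
  set ρ : F := (Subgroup.mem_map.1 (Subgroup.mem_map_of_mem (QuotientGroup.mk' K)
    hc.1)).choose with hρ
  obtain ⟨h1, h2⟩ := hspec
  show (Fin.ofNat (I.1 + 1) (y ((ft ^ ((-tz u).toNat))⁻¹ * (ρ * g)))).val = y (u * g)
  have h3 : (ft ^ ((-tz u).toNat) * u)⁻¹ * ρ ∈ K := by
    have h4 : ((ft ^ ((-tz u).toNat) * u : F) : F ⧸ K) = ((ρ : F) : F ⧸ K) := h2.symm
    exact QuotientGroup.eq.mp h4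
  have h5 : (ft ^ ((-tz u).toNat) * u)⁻¹ * ρ ∈ K' :=
    hext.2 _ (mul_mem (inv_mem hc.1) h1) h3
  have h6 : (ft ^ ((-tz u).toNat))⁻¹ * (ρ * g) =
      u * g * (g⁻¹ * ((ft ^ ((-tz u).toNat) * u)⁻¹ * ρ) * g) := by
    group
  have h7 : g⁻¹ * ((ft ^ ((-tz u).toNat) * u)⁻¹ * ρ) * g ∈ K' := by
    have := hn.conj_mem _ h5 g⁻¹
    rwa [inv_inv] at this
  rw [h6, hy _ _ h7, Fin.val_ofNat, Nat.mod_eq_of_lt]
  have := hy1 (u * g)
  omega

/-- The number of fillings is a product of local factors. Notation: tile with top g (phase l-1 modulo l): T(g) = {t^{-i} w g : i < l, w ∈ W l}; it depends only on the coset of g modulo the window (W l) and K'; the tiles partition F/K', every tile has exactly |W l / (W l ∩ K)| top points. By the path lemma (GIVEN), for h with r ≤ ph l h, ph l h + r < l and a word u of length ≤ r,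
u h is in the tile of h. Hence for y ∈ US I r l K' an element x of Fl I r l K' y is the same as an independent choice, for every tile T, of a function on T which agrees with y on the points of T of phase < 2r or ≥ l-2r and has no forbidden pattern at the points h of T with r ≤ ph l h, ph l h + r < l. So
ncard (Fl ...) = product over the tiles T of N_T, N_T ≥ 1, where N_T only depends on the function (i, w) ↦ y (t^{-i} w g) (i < l, w ∈ W l), g a top point of T, i.e. on the pattern of vb I.1 l y at g (vb I.1 l y (w g) i = y (t^{-i} w g), with values < I.1 + 1, so Fin.ofNat is faithful; pat K m z g h = z (w g) for h the class of w ∈ W (m+1), because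
w and rp K m h differ by an element of K ∩ W (m+1) ⊆ K' and K' is normal; l ≤ m+1). Define f γ ψ = 0 if the phase modulo l of γ (well defined because of Div l K) is not l-1, and otherwise f γ ψ = log (N ψ) / |W l / (W l ∩ K)|, N ψ = number of functions κ : {i < l} × (image of W l in F/K) → {0..k-1} which agree with ψ for i with l-1-i < 2r or l-1-i ≥ l-2r and are admissible. The sum over all
classes q of F/K' counts each tile once. (The terms do not depend on the representative q.out as y is K'-invariant and K' ≤ K.) -/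
theorem local_weight (I : Inp) (r l m : ℕ) (K : Subgroup F) [hKn : K.Normal] (hK : FN K)
    (hr : Rad I r) (hl : 0 < l) (hlm : l ≤ m + 1) (hd : Div l K) :
    ∃ f : (F ⧸ K) → (Wb K m → Fin l → Fin (I.1 + 1)) → ℝ,
      ∀ K' : Subgroup F, FN K' → Ext K m K' → ∀ y ∈ US I r l K',
        Real.log ((Fl I r l K' y).ncard : ℝ) =
          ∑ᶠ q : F ⧸ K', f ((q.out : F) : F ⧸ K) (pat K m (vb I.1 l y) q.out) := by
  classical
  refine ⟨fun γ ψ => if ph l γ.out = l - 1 then
    Real.log ((local_weight_Mod I r l K (local_weight_Y I l m K ψ)).ncard : ℝ) / (K.relIndex (W l) : ℝ) else 0, ?_⟩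
  intro K' hK' hext y hy
  have hn : K'.Normal := hK'.normal
  have hfi : K'.FiniteIndex := hK'.fin
  have hfi2 : K.FiniteIndex := hK.fin
  have hfin : Finite (F ⧸ K') := inferInstance
  have hft : Fintype (F ⧸ K') := Fintype.ofFinite _
  have hd' : Div l K' := fun κ hκ => hd κ (hext.1 hκ)
  have hy1 := hy.1.1
  have hy2 := hy.1.2
  have hM : (K.relIndex (W l) : ℝ) ≠ 0 := by
    have h1 : K.relIndex (W l) ≠ 0 := by
      unfold Subgroup.relIndex
      exact Subgroup.FiniteIndex.index_ne_zero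
    exact_mod_cast h1
  have hpos : ∀ t, ((local_weight_St I r l K' y t).ncard : ℝ) ≠ 0 := by
    intro t
    have h1 : (local_weight_St I r l K' y t).ncard ≠ 0 :=
      ((Set.ncard_pos (local_weight_St_fin I r l K' hd' y t)).mpr
        (local_weight_St_ne I r l K' hl hr hd' y hy t)).ne'
    exact_mod_cast h1
  rw [local_weight_Fl_card I r l K' hl hr hd' y, Nat.cast_prod, Real.log_prod (fun t _ => hpos t),
    finsum_eq_sum_of_fintype]
  have hG : ∀ q : F ⧸ K', (if ph l ((q.out : F) : F ⧸ K).out = l - 1 then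
      Real.log ((local_weight_Mod I r l K (local_weight_Y I l m K (pat K m (vb I.1 l y) q.out))).ncard : ℝ) /
        (K.relIndex (W l) : ℝ) else 0) =
      if ph l q.out = l - 1 then
        Real.log ((local_weight_St I r l K' y (local_weight_tl l K' q.out)).ncard : ℝ) / (K.relIndex (W l) : ℝ)
      else 0 := by
    intro q
    obtain ⟨κ, hκ⟩ := QuotientGroup.mk_out_eq_mul K q.out
    rw [hκ, local_weight_ph_K hd _ _ κ.2]
    by_cases hq : ph l q.out = l - 1
    · rw [if_pos hq, if_pos hq,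
        local_weight_St_card I r l m K K' hn hl hlm hr hd' hext y hy2 q.out hq,
        local_weight_Mod_congr I r l K _ (fun u => y (u * q.out))
          (fun u hu => local_weight_Y_pat I l m K K' hn hlm hext y hy1 hy2 q.out u hu)]
    · rw [if_neg hq, if_neg hq]
  rw [Finset.sum_congr rfl (fun q _ => hG q),
    ← Finset.sum_fiberwise Finset.univ (fun q : F ⧸ K' => local_weight_tl l K' q.out)]
  apply Finset.sum_congr rfl
  intro t _
  have h1 : ∑ q ∈ Finset.univ.filter (fun q : F ⧸ K' => local_weight_tl l K' q.out = t),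
      (if ph l q.out = l - 1 then
        Real.log ((local_weight_St I r l K' y (local_weight_tl l K' q.out)).ncard : ℝ) / (K.relIndex (W l) : ℝ)
      else 0) = ∑ q ∈ Finset.univ.filter (fun q : F ⧸ K' => local_weight_tl l K' q.out = t),
      (if ph l q.out = l - 1 then
        Real.log ((local_weight_St I r l K' y t).ncard : ℝ) / (K.relIndex (W l) : ℝ) else 0) := by
    apply Finset.sum_congr rfl
    intro q hq
    rw [(Finset.mem_filter.mp hq).2]
  rw [h1, ← Finset.sum_filter, Finset.sum_const, Finset.filter_filter]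
  by_cases ht : ∃ h, local_weight_tl l K' h = t
  · obtain ⟨h, rfl⟩ := ht
    obtain ⟨hp, c, hc⟩ := local_weight_ph_spec l hl h
    have hg : ph l (ft ^ (l - 1 - ph l h) * h) = l - 1 := by
      apply local_weight_ph_eq l _ _ (by omega) c
      rw [local_weight_tz_mul, local_weight_tz_pow, hc]
      omega
    have htg : local_weight_tl l K' (ft ^ (l - 1 - ph l h) * h) = local_weight_tl l K' h := by
      apply local_weight_tl_eq l K' _ _ 1 1 (one_mem _) (one_mem _)
      rw [hg, Nat.sub_self, pow_zero, one_mul, mul_one]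
    have hcard : (Finset.univ.filter (fun q : F ⧸ K' => local_weight_tl l K' q.out = local_weight_tl l K' h ∧
        ph l q.out = l - 1)).card = K.relIndex (W l) := by
      rw [← local_weight_relIndex K K' l m hlm hext, ← local_weight_count l hl K' hd' _ hg, htg,
        Set.ncard_eq_toFinset_card']
      congr 1
      ext q
      simp only [Finset.mem_filter, Finset.mem_univ, true_and, Set.mem_toFinset,
        Set.mem_ofPred_eq]
      exact and_comm
    rw [hcard, nsmul_eq_mul]
    field_simp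
  · have ht' : ∀ h, local_weight_tl l K' h ≠ t := fun h hh => ht ⟨h, hh⟩
    rw [local_weight_St_one I r l K' y t ht', Nat.cast_one, Real.log_one, zero_div, smul_zero]

end Pool.Agent.Helper948.Ent.B5
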