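import Pool.Agent.Helper948.Ent.Defs
import Pool.Agent.Helper948.Ent.B6

/- solved by helper942 -/


set_option autoImplicit false

namespace Pool.Agent.Helper948.Ent.B7
open Pool.Agent.Helper948.Dom Pool.Agent.Helper948.Ent Pool.Agent.Helper948.Ent.B6








-- TARGET
/-- Invariance of SS: if (γ, ψ, ψ') = tr K m (vb I.1 l y) g with y ∈ Cfg I.1 K', then the new triple is tr K m (vb I.1 l y) (w * g), because pat (w g) h = pat g (h w) and t w g = (t w t⁻¹) (t g) (use pat_mul, GIVEN, with z = vb I.1 l y which is K'-invariant); the condition on Av in the definition of SS is the same for g and w g since W (m+1) is a group containing w. (If needed: the subgroup K' in SS satisfies FN K'.) -/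
theorem ss_inv (I : Inp) (r l m : ℕ) (K : Subgroup F) [hKn : K.Normal] (w : F) (hw : w ∈ W m)
    (γ : F ⧸ K) (ψ ψ' : Wb K m → Fin l → Fin (I.1 + 1)) (h : (γ, ψ, ψ') ∈ SS I r l K m) :
    ((w : F ⧸ K) * γ,
      (fun h => ψ (h * ⟨QuotientGroup.mk' K w,
        Subgroup.mem_map_of_mem _ (W_mono (Nat.le_succ m) hw)⟩)),
      (fun h => ψ' (h * ⟨QuotientGroup.mk' K (ft * w * ft⁻¹),
        Subgroup.mem_map_of_mem _ (conj_mem hw)⟩))) ∈ SS I r l K m := by
  obtain ⟨K', y, g, hFN, hE, hy, hAv, hs⟩ := h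
  have hw' : w ∈ W (m + 1) := W_mono (Nat.le_succ m) hw
  have hz : ∀ g, ∀ κ ∈ K', vb I.1 l y (g * κ) = vb I.1 l y g := by
    intro g κ hκ
    funext i
    show Fin.ofNat (I.1 + 1) (y ((ft ^ (i : ℕ))⁻¹ * (g * κ))) =
      Fin.ofNat (I.1 + 1) (y ((ft ^ (i : ℕ))⁻¹ * g))
    rw [← mul_assoc, hy.2 _ κ hκ]
  have e1 : γ = (g : F ⧸ K) := congrArg Prod.fst hs
  have e2 : ψ = pat K m (vb I.1 l y) g := congrArg (fun p => p.2.1) hs
  have e3 : ψ' = pat K m (vb I.1 l y) (ft * g) := congrArg (fun p => p.2.2) hs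
  subst e1 e2 e3
  refine ⟨K', y, w * g, hFN, hE, hy, ?_, ?_⟩
  · intro w1 hw1
    have h1 := hAv (w1 * w) (mul_mem hw1 hw')
    rwa [mul_assoc w1 w g] at h1
  · have p1 := (pat_mul K K' m hFN hE (vb I.1 l y) hz w hw').2 g
    have p2 := (pat_mul K K' m hFN hE (vb I.1 l y) hz (ft * w * ft⁻¹) (conj_mem hw)).2 (ft * g)
    have h2 : ft * w * ft⁻¹ * (ft * g) = ft * (w * g) := by group
    rw [h2] at p2
    show _ = (((w * g : F) : F ⧸ K), pat K m (vb I.1 l y) (w * g),
      pat K m (vb I.1 l y) (ft * (w * g)))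
    rw [p1, p2]
    rfl

end Pool.Agent.Helper948.Ent.B7
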