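import Pool.Agent.Helper948.Ent.Defs

/- solved by helper975 -/


set_option autoImplicit false

namespace Pool.Agent.Helper948.Ent.B8
open Pool.Agent.Helper948.Dom Pool.Agent.Helper948.Ent






-- TARGET
theorem bad_count_tz_mul (g h : F) : tz (g * h) = tz g + tz h := by
  simp only [tz, map_mul, toAdd_mul]

theorem bad_count_tz_inv (g : F) : tz g⁻¹ = - tz g := by
  simp only [tz, map_inv, toAdd_inv]

theorem bad_count_tz_ft : tz ft = 1 := by
  simp [tz, tau, ft]

theorem bad_count_tz_pow (r : ℕ) : tz (ft ^ r) = r := by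
  induction r with
  | zero => simp [tz]
  | succ r ih => rw [pow_succ, bad_count_tz_mul, ih, bad_count_tz_ft]; push_cast; ring

theorem bad_count_tz_fa : tz fa = 0 := by
  simp [tz, tau, fa]

theorem bad_count_tz_W (k : ℕ) (w : F) (hw : w ∈ W k) : tz w = 0 := by
  rw [W] at hw
  induction hw using Subgroup.closure_induction with
  | mem x hx =>
    obtain ⟨i, hi, rfl⟩ := hx
    rw [A, bad_count_tz_mul, bad_count_tz_mul, bad_count_tz_inv, bad_count_tz_fa]; ring
  | one => simp [tz]
  | mul x y _ _ hx hy => rw [bad_count_tz_mul, hx, hy]; rfl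
  | inv x _ hx => rw [bad_count_tz_inv, hx]; rfl

/-- the phase homomorphism -/
def bad_count_psi (n : ℕ) : F →* Multiplicative (ZMod n) :=
  (AddMonoidHom.toMultiplicative (Int.castAddHom (ZMod n))).comp tau

theorem bad_count_psi_apply (n : ℕ) (g : F) :
    bad_count_psi n g = Multiplicative.ofAdd ((tz g : ℤ) : ZMod n) := rfl

theorem bad_count_psi_ker (n : ℕ) (K' : Subgroup F) (hd : Div n K') (κ : F) (hκ : κ ∈ K') :
    bad_count_psi n κ = 1 := by
  rw [bad_count_psi_apply, (ZMod.intCast_zmod_eq_zero_iff_dvd _ _).mpr (hd κ hκ)]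
  rfl

/-- If tr K m (vb I.1 l y) g is not in SS then some point t^{-r} w g with w ∈ W (m+1) has a forbidden pattern, so (y ∈ US I r n K') the phase modulo n of t^{-r} w g, which is the phase of t^{-r} g (tz w = 0 for w ∈ W), is < r or ≥ n - r. There are 2r such phases, and each phase modulo n occurs exactly K'.index / n times in F/K' (left multiplication by t permutes F/K' and raises the phase by one modulo n). So the number of bad classes is at most 2r * K'.index / n. -/
theorem bad_count (I : Inp) (r n l m : ℕ) (K K' : Subgroup F) [hKn : K.Normal] (hK' : FN K')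
    (hE : Ext K m K') (hd : Div n K') (hn : 0 < n) (h2 : 2 * r ≤ n) (y : F → ℕ)
    (hy : y ∈ US I r n K') :
    ({q : F ⧸ K' | tr K m (vb I.1 l y) q.out ∉ SS I r l K m}.ncard) * n ≤ 2 * r * K'.index := by
  classical
  haveI := hK'.normal
  haveI := hK'.fin
  haveI : NeZero n := ⟨hn.ne'⟩
  haveI : Finite (F ⧸ K') := Subgroup.finite_quotient_of_finiteIndex
  letI : Fintype (F ⧸ K') := Fintype.ofFinite _
  let Φ : F ⧸ K' →* Multiplicative (ZMod n) :=
    QuotientGroup.lift K' (bad_count_psi n) (fun κ hκ => bad_count_psi_ker n K' hd κ hκ)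
  have hΦ : ∀ g : F, Φ (g : F ⧸ K') = Multiplicative.ofAdd ((tz g : ℤ) : ZMod n) := fun g => rfl
  have hsurj : ∀ c : Multiplicative (ZMod n), c ∈ Set.range Φ := by
    intro c
    refine ⟨((ft ^ (Multiplicative.toAdd c).val : F) : F ⧸ K'), ?_⟩
    rw [hΦ, bad_count_tz_pow]
    have h3 : (((Multiplicative.toAdd c).val : ℤ) : ZMod n) = Multiplicative.toAdd c := by
      push_cast
      exact ZMod.natCast_zmod_val _
    rw [h3]
    rfl
  have hfib : ∀ c : Multiplicative (ZMod n), (Finset.univ.filter (fun q => Φ q = c)).card =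
      (Finset.univ.filter (fun q => Φ q = 1)).card := fun c =>
    MonoidHom.card_fiber_eq_of_mem_range Φ (hsurj c) (hsurj 1)
  set k : ℕ := (Finset.univ.filter (fun q => Φ q = 1)).card with hk
  have htot : n * k = K'.index := by
    rw [Subgroup.index_eq_card, Nat.card_eq_fintype_card, ← Finset.card_univ,
      Finset.card_eq_sum_card_fiberwise (f := Φ) (t := Finset.univ) (fun _ _ => Finset.mem_coe.mpr (Finset.mem_univ _))]
    rw [Finset.sum_congr rfl fun c _ => hfib c, Finset.sum_const, Finset.card_univ, smul_eq_mul]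
    congr 1
    rw [Fintype.card_multiplicative, ZMod.card]
  let C : Finset (Multiplicative (ZMod n)) :=
    (Finset.range (2 * r)).image (fun s : ℕ => Multiplicative.ofAdd ((s : ℕ) : ZMod n))
  have hC : C.card ≤ 2 * r := by
    refine Finset.card_image_le.trans ?_
    rw [Finset.card_range]
  have hbad : ∀ q : F ⧸ K', tr K m (vb I.1 l y) q.out ∉ SS I r l K m → Φ q ∈ C := by
    intro q hq
    have h3 : ∃ w ∈ W (m + 1), ¬ Av I y ((ft ^ r)⁻¹ * (w * q.out)) := by
      by_contra hcon
      push Not at hcon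
      exact hq ⟨K', y, q.out, hK', hE, hy.1, hcon, rfl⟩
    obtain ⟨w, hw, hAv⟩ := h3
    have h4 : ¬ (r ≤ ph n ((ft ^ r)⁻¹ * (w * q.out)) ∧ ph n ((ft ^ r)⁻¹ * (w * q.out)) + r < n) :=
      fun h => hAv (hy.2 _ h.1 h.2)
    have htz : tz ((ft ^ r)⁻¹ * (w * q.out)) = tz q.out - r := by
      rw [bad_count_tz_mul, bad_count_tz_mul, bad_count_tz_inv, bad_count_tz_pow,
        bad_count_tz_W _ w hw]
      ring
    set p : ℕ := ph n ((ft ^ r)⁻¹ * (w * q.out)) with hp
    have hnZ : (0:ℤ) < n := by exact_mod_cast hn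
    have hpZ : (p : ℤ) = (tz q.out - r) % (n : ℤ) := by
      rw [hp, ph, htz, Int.toNat_of_nonneg (Int.emod_nonneg _ hnZ.ne')]
    have hpn : p < n := by
      have := Int.emod_lt_of_pos (tz q.out - r) hnZ
      omega
    have hcast : ((tz q.out : ℤ) : ZMod n) = ((p + r : ℕ) : ZMod n) := by
      have h5 := Int.emod_add_mul_ediv (tz q.out - r) (n : ℤ)
      have h6 : tz q.out = (p : ℤ) + r + n * ((tz q.out - r) / n) := by
        rw [hpZ]; linarith
      rw [h6]
      push_cast
      simp
    have hq2 : Φ q = Multiplicative.ofAdd (((p + r : ℕ)) : ZMod n) := by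
      have h7 : Φ ((q.out : F) : F ⧸ K') = Φ q := by rw [QuotientGroup.out_eq']
      rw [← h7, hΦ, hcast]
    rw [Finset.mem_image]
    by_cases hpr : p < r
    · exact ⟨p + r, Finset.mem_range.mpr (by omega), hq2.symm⟩
    · have hpr' : n ≤ p + r := by
        by_contra h8
        exact h4 ⟨by omega, by omega⟩
      refine ⟨p + r - n, Finset.mem_range.mpr (by omega), ?_⟩
      rw [hq2]
      congr 1
      rw [Nat.cast_sub hpr', ZMod.natCast_self, sub_zero]
  have hle : {q : F ⧸ K' | tr K m (vb I.1 l y) q.out ∉ SS I r l K m}.ncard ≤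
      (Finset.univ.filter (fun q => Φ q ∈ C)).card := by
    rw [← Set.ncard_coe_finset]
    refine Set.ncard_le_ncard ?_ (Set.toFinite _)
    intro q hq
    rw [Finset.mem_coe, Finset.mem_filter]
    exact ⟨Finset.mem_univ _, hbad q hq⟩
  have hcnt : (Finset.univ.filter (fun q => Φ q ∈ C)).card = C.card * k := by
    rw [Finset.card_eq_sum_card_fiberwise (f := Φ) (t := C) (fun q hq => by
      rw [Finset.coe_filter] at hq
      exact hq.2)]
    rw [Finset.sum_congr rfl (g := fun _ => k) ?_, Finset.sum_const, smul_eq_mul]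
    intro c hc
    rw [← hfib c, Finset.filter_filter]
    congr 1
    ext q
    simp only [Finset.mem_filter, Finset.mem_univ, true_and]
    constructor
    · rintro ⟨_, h⟩; exact h
    · intro h; exact ⟨h ▸ hc, h⟩
  calc _ ≤ (C.card * k) * n := Nat.mul_le_mul_right n (hle.trans hcnt.le)
    _ ≤ (2 * r * k) * n := Nat.mul_le_mul_right n (Nat.mul_le_mul_right k hC)
    _ = 2 * r * (n * k) := by ring
    _ = 2 * r * K'.index := by rw [htot]

end Pool.Agent.Helper948.Ent.B8
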