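import Pool.Agent.Helper948.Ent.Defs
import Pool.Agent.Helper948.Ent.B1
import Pool.Agent.Helper948.Ent.B6

/- solved by helper424 -/


set_option autoImplicit false

namespace Pool.Agent.Helper948.Ent.B9
open Pool.Agent.Helper948.Dom Pool.Agent.Helper948.Ent Pool.Agent.Helper948.Ent.B1 Pool.Agent.Helper948.Ent.B6








-- TARGET
theorem ss_sound_key (I : Inp) (r l m : ℕ) (K K' : Subgroup F) [hKn : K.Normal]
    (hK' : FN K') (hE : Ext K m K')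
    (z : F → Fin l → Fin (I.1 + 1)) (hz : ∀ g, ∀ κ ∈ K', z (g * κ) = z g)
    (hs : ∀ g, tr K m z g ∈ SS I r l K m) (g : F) :
    ∃ (y : F → ℕ) (g1 : F), (∀ h, y h < I.1) ∧
      (∀ w ∈ W (m + 1), z (w * g) = vb I.1 l y (w * g1)) ∧
      z (ft * g) = vb I.1 l y (ft * g1) ∧ Av I y ((ft ^ r)⁻¹ * g1) := by
  obtain ⟨K1, y, g1, hK1, hE1, hy, hav, htr⟩ := hs g
  simp only [tr, Prod.mk.injEq] at htr
  obtain ⟨-, ht1, ht2⟩ := htr
  have hvb : ∀ g, ∀ κ ∈ K1, vb I.1 l y (g * κ) = vb I.1 l y g := by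
    intro g κ hκ
    funext i
    simp only [vb]
    rw [← mul_assoc, hy.2 _ κ hκ]
  refine ⟨y, g1, hy.1, ?_, ?_, ?_⟩
  · intro w hw
    rw [← (pat_mul K K' m hK' hE z hz w hw).1 g,
      ← (pat_mul K K1 m hK1 hE1 (vb I.1 l y) hvb w hw).1 g1, ht1]
  · have h1 := (pat_mul K K' m hK' hE z hz 1 (one_mem _)).1 (ft * g)
    have h2 := (pat_mul K K1 m hK1 hE1 (vb I.1 l y) hvb 1 (one_mem _)).1 (ft * g1)
    rw [one_mul] at h1 h2
    rw [← h1, ← h2, ht2]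
  · have h1 := hav 1 (one_mem _)
    rwa [one_mul] at h1

theorem ss_sound_val (k l : ℕ) (y : F → ℕ) (hy : ∀ h, y h < k) (g : F) (i : Fin l) :
    ((vb k l y g i : Fin (k + 1)) : ℕ) = y ((ft ^ (i : ℕ))⁻¹ * g) := by
  simp only [vb, Fin.val_ofNat]
  exact Nat.mod_eq_of_lt (lt_trans (hy _) (Nat.lt_succ_self k))

/-- Soundness of SS. Put x0 g = value of z g ⟨0, _⟩ (a natural number < I.1 + 1). For g let K1, y, g1 witness tr K m z g ∈ SS: pat K m z g = pat K m (vb I.1 l y) g1 and pat K m z (t g) = pat K m (vb I.1 l y) (t g1), y ∈ Cfg I.1 K1. So (by pat_mul with w ∈ W (m+1)) z (w g) = vb I.1 l y (w g1) for all w ∈ W (m+1), and z (t g) = vb I.1 l y (t g1). Hence for i + 1 < l: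
z (t g) (i+1) = y (t^{-(i+1)} t g1) = y (t^{-i} g1) = z g i (y < I.1 so Fin.ofNat does nothing). Therefore z g i = x0 (t^{-i} g) for all i < l, i.e. z = vb I.1 l x0, x0 < I.1, and x0 is K'-invariant. For a pattern and a word u of length ≤ r: by the path lemma u t^{-r} = t^{-i'} w' with i' ≤ 2r < l, w' = t^{i'} u t^{-r} ∈ W (2r) ⊆ W (m+1);
so x0 (u t^{-r} g) = x0 (t^{-i'} w' g) = z (w' g) i' = y (t^{-i'} w' g1) = y (u t^{-r} g1). As Av I y (t^{-r} (1 * g1)) holds, Av I x0 (t^{-r} g) holds; g is arbitrary. -/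
theorem ss_sound (I : Inp) (r l m : ℕ) (K K' : Subgroup F) [hKn : K.Normal] (hr : Rad I r)
    (hrl : 2 * r < l) (hrm : 2 * r ≤ m) (hK' : FN K') (hE : Ext K m K')
    (z : F → Fin l → Fin (I.1 + 1)) (hz : ∀ g, ∀ κ ∈ K', z (g * κ) = z g)
    (hs : ∀ g, tr K m z g ∈ SS I r l K m) : ∃ x0 ∈ XS I K', z = vb I.1 l x0 := by
  have hkey := ss_sound_key I r l m K K' hK' hE z hz hs
  have hl : 0 < l := by omega
  have hstep : ∀ (g : F) (i : ℕ) (hi : i + 1 < l),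
      z (ft * g) ⟨i + 1, hi⟩ = z g ⟨i, by omega⟩ := by
    intro g i hi
    obtain ⟨y, g1, hy, hw, ht, -⟩ := hkey g
    have h1 := hw 1 (one_mem _)
    rw [one_mul, one_mul] at h1
    apply Fin.ext
    rw [ht, h1, ss_sound_val _ _ _ hy, ss_sound_val _ _ _ hy]
    congr 1
    show (ft ^ (i + 1))⁻¹ * (ft * g1) = (ft ^ i)⁻¹ * g1
    rw [pow_succ', mul_inv_rev]
    group
  have hpow : ∀ (i : ℕ) (g : F) (hi : i < l), z g ⟨i, hi⟩ = z ((ft ^ i)⁻¹ * g) ⟨0, hl⟩ := by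
    intro i
    induction i with
    | zero =>
      intro g hi
      rw [pow_zero, inv_one, one_mul]
    | succ i ih =>
      intro g hi
      have h1 := hstep (ft⁻¹ * g) i hi
      rw [mul_inv_cancel_left] at h1
      rw [h1, ih (ft⁻¹ * g) (by omega), pow_succ', mul_inv_rev, mul_assoc]
  obtain ⟨x0, hx0⟩ : ∃ x0 : F → ℕ, ∀ g, x0 g = ((z g ⟨0, hl⟩ : Fin (I.1 + 1)) : ℕ) :=
    ⟨_, fun _ => rfl⟩
  have hlt : ∀ g, x0 g < I.1 := by
    intro g
    obtain ⟨y, g1, hy, hw, -, -⟩ := hkey g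
    have h1 := hw 1 (one_mem _)
    rw [one_mul, one_mul] at h1
    rw [hx0, h1, ss_sound_val _ _ _ hy]
    exact hy _
  have hval : ∀ (g : F) (i : ℕ) (hi : i < l),
      ((z g ⟨i, hi⟩ : Fin (I.1 + 1)) : ℕ) = x0 ((ft ^ i)⁻¹ * g) := by
    intro g i hi
    rw [hpow i g hi, hx0]
  refine ⟨x0, ⟨⟨hlt, ?_⟩, ?_⟩, ?_⟩
  · intro g κ hκ
    rw [hx0, hx0, hz g κ hκ]
  · intro g P hP hall
    obtain ⟨y, g1, hy, hw, -, hav⟩ := hkey (ft ^ r * g)
    apply hav P hP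
    intro q hq
    have h1 := hall q hq
    obtain ⟨i', -, h2, -, h3⟩ := path q.1 r r (hr P hP q hq) le_rfl
    have hi' : i' < l := by omega
    have hW : ft ^ i' * FreeGroup.mk q.1 * (ft ^ r)⁻¹ ∈ W (m + 1) :=
      W_mono (by omega) h3
    have h4 := hval (ft ^ i' * FreeGroup.mk q.1 * (ft ^ r)⁻¹ * (ft ^ r * g)) i' hi'
    rw [hw _ hW, ss_sound_val _ _ _ hy] at h4
    have e1 : (ft ^ i')⁻¹ * (ft ^ i' * FreeGroup.mk q.1 * (ft ^ r)⁻¹ * (ft ^ r * g)) =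
        FreeGroup.mk q.1 * g := by
      simp only [mul_assoc, inv_mul_cancel_left]
    have e2 : (ft ^ i')⁻¹ * (ft ^ i' * FreeGroup.mk q.1 * (ft ^ r)⁻¹ * g1) =
        FreeGroup.mk q.1 * ((ft ^ r)⁻¹ * g1) := by
      simp only [mul_assoc, inv_mul_cancel_left]
    rw [e1, h1] at h4
    simp only at h4
    rw [e2] at h4
    exact h4
  · funext g i
    apply Fin.ext
    rw [ss_sound_val _ _ _ hlt]
    exact hval g i i.2

end Pool.Agent.Helper948.Ent.B9
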