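import Pool.Agent.Helper948.Ent.Defs
import Pool.Agent.Helper948.Ent.B4
import Pool.Agent.Helper948.Ent.B5
import Pool.Agent.Helper948.Ent.B6
import Pool.Agent.Helper948.Ent.B7
import Pool.Agent.Helper948.Ent.B8
import Pool.Agent.Helper948.Ent.B9
import Pool.Agent.Helper948.Ent.B12

/- solved by helper252 -/


set_option autoImplicit false

namespace Pool.Agent.Helper948.Ent.B13
open Pool.Agent.Helper948.Dom Pool.Agent.Helper948.Ent Pool.Agent.Helper948.Ent.B4 Pool.Agent.Helper948.Ent.B5 Pool.Agent.Helper948.Ent.B6 Pool.Agent.Helper948.Ent.B7 Pool.Agent.Helper948.Ent.B8 Pool.Agent.Helper948.Ent.B9 Pool.Agent.Helper948.Ent.B12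








-- TARGET

theorem tcore_ph (l n : ℕ) (hl : 0 < l) (hn : 0 < n) (hln : l ∣ n) (g : F) :
    ∃ k : ℕ, ph n g = l * k + ph l g ∧ l * k + l ≤ n := by
  obtain ⟨d, rfl⟩ := hln
  have hd : 0 < d := Nat.pos_of_ne_zero (by rintro rfl; simp at hn)
  have hlz : (0 : ℤ) < (l : ℤ) := by exact_mod_cast hl
  have hnz : (0 : ℤ) < ((l * d : ℕ) : ℤ) := by exact_mod_cast hn
  have e1 : ((ph (l * d) g : ℕ) : ℤ) = tz g % ((l * d : ℕ) : ℤ) := by
    unfold ph
    exact Int.toNat_of_nonneg (Int.emod_nonneg _ hnz.ne')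
  have e2 : ((ph l g : ℕ) : ℤ) = tz g % (l : ℤ) := by
    unfold ph
    exact Int.toNat_of_nonneg (Int.emod_nonneg _ hlz.ne')
  have e3 : ((ph l g : ℕ) : ℤ) = ((ph (l * d) g : ℕ) : ℤ) % (l : ℤ) := by
    rw [e1, e2]
    have hdvd : (l : ℤ) ∣ ((l * d : ℕ) : ℤ) := ⟨(d : ℤ), by push_cast; ring⟩
    exact (Int.emod_emod_of_dvd _ hdvd).symm
  have e4 : ph l g = ph (l * d) g % l := by exact_mod_cast e3
  have hlt : ph (l * d) g < l * d := by
    have : ((ph (l * d) g : ℕ) : ℤ) < ((l * d : ℕ) : ℤ) := by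
      rw [e1]
      exact Int.emod_lt_of_pos _ hnz
    exact_mod_cast this
  refine ⟨ph (l * d) g / l, ?_, ?_⟩
  · rw [e4]
    exact (Nat.div_add_mod _ _).symm
  · have h1 : ph (l * d) g / l < d := Nat.div_lt_of_lt_mul hlt
    have h2 : l * (ph (l * d) g / l + 1) ≤ l * d := Nat.mul_le_mul_left l h1
    rw [Nat.mul_add, Nat.mul_one] at h2
    exact h2

theorem tcore_US (I : Inp) (r l n : ℕ) (hl : 0 < l) (hn : 0 < n) (hln : l ∣ n) (K' : Subgroup F)
    (y : F → ℕ) (hy : y ∈ US I r n K') : y ∈ US I r l K' := by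
  refine ⟨hy.1, fun g h1 h2 => hy.2 g ?_ ?_⟩
  · obtain ⟨k, hk, _⟩ := tcore_ph l n hl hn hln g
    rw [hk]
    omega
  · obtain ⟨k, hk, hk2⟩ := tcore_ph l n hl hn hln g
    rw [hk]
    omega

theorem tcore_vb (I : Inp) (l : ℕ) (K' : Subgroup F) (y : F → ℕ) (hy : y ∈ Cfg I.1 K') :
    ∀ g, ∀ κ ∈ K', vb I.1 l y (g * κ) = vb I.1 l y g := by
  intro g κ hκ
  funext i
  unfold vb
  rw [← mul_assoc, hy.2 _ κ hκ]


/-- Combination. Let f be the local weight (local_weight for I r l m K). Apply wnn with S = SS I r l K m (hS = ss_inv), B = Fin l → Fin (I.1+1), constant c' = c - (4r/l) log I.1. Hypothesis of wnn: for ε > 0 take N with 2r/N ≤ ε, n, K' from h; pigeon gives y ∈ US I r n K' with lf I r l K' y ≥ lu - (4r/l) log I.1 ≥ c'; y ∈ US I r l K' as l divides n; take z = vb I.1 l y; the number of bad classes is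
≤ 2r/n * index ≤ ε index by bad_count, and lf * index = log ncard = the finite sum. The conclusion of wnn for ε gives K', z with all triples in SS; ss_sound gives x0 ∈ XS I K' with z = vb I.1 l x0; XS ⊆ US, and local_weight for x0 gives the inequality for lf. -/
theorem tcore (I : Inp) (r l m : ℕ) (K : Subgroup F) (hr : Rad I r) (hK : FN K) (hl : 2 * r < l)
    (hlm : l ≤ m + 1) (hd : Div l K) (c : ℝ)
    (h : ∀ N : ℕ, ∃ n, N ≤ n ∧ 0 < n ∧ l ∣ n ∧ ∃ K' : Subgroup F, FN K' ∧ Ext K m K' ∧ Div n K' ∧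
      (US I r n K').Nonempty ∧ c ≤ lu I r n K') :
    ∀ ε : ℝ, 0 < ε → ∃ K' : Subgroup F, FN K' ∧ Ext K m K' ∧ ∃ x0 ∈ XS I K',
      c - (4 * r / l : ℝ) * Real.log I.1 - ε ≤ lf I r l K' x0 := by
  have hKn : K.Normal := hK.normal
  have hl0 : 0 < l := by omega
  obtain ⟨f, hf⟩ := local_weight I r l m K hK hr hl0 hlm hd
  set c' : ℝ := c - (4 * r / l : ℝ) * Real.log I.1 with hc'
  have hidx : ∀ K' : Subgroup F, FN K' → (0 : ℝ) < (K'.index : ℝ) := by
    intro K' hK'
    have := hK'.fin.index_ne_zero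
    exact_mod_cast Nat.pos_of_ne_zero this
  have hw := wnn K m hK (SS I r l K m)
    (fun w hw γ ψ ψ' h => ss_inv I r l m K w hw γ ψ ψ' h) f c' (by
      intro ε hε
      obtain ⟨n, hNn, hn0, hln, K', hK', hE, hd', hne, hclu⟩ :=
        h (max (2 * r) ⌈(2 * r : ℝ) / ε⌉₊)
      have h2r : 2 * r ≤ n := (le_max_left _ _).trans hNn
      have hne2 : (2 * r : ℝ) ≤ ε * n := by
        have h3 : (2 * r : ℝ) / ε ≤ n := by
          calc (2 * r : ℝ) / ε ≤ (⌈(2 * r : ℝ) / ε⌉₊ : ℝ) := Nat.le_ceil _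
            _ ≤ n := by exact_mod_cast (le_max_right _ _).trans hNn
        rw [div_le_iff₀ hε] at h3
        linarith
      obtain ⟨y, hy, hyl⟩ := pigeon I r n l hln hl0 hn0 K' hK' hd' hne
      have hyl' : y ∈ US I r l K' := tcore_US I r l n hl0 hn0 hln K' y hy
      have hip := hidx K' hK'
      have hnp : (0 : ℝ) < (n : ℝ) := by exact_mod_cast hn0
      refine ⟨K', hK', hE, vb I.1 l y, tcore_vb I l K' y hy.1, ?_, ?_⟩
      · have hb := bad_count I r n l m K K' hK' hE hd' hn0 h2r y hy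
        have hb' : (({q : F ⧸ K' | tr K m (vb I.1 l y) q.out ∉ SS I r l K m}.ncard : ℕ) : ℝ) * n ≤
            2 * r * (K'.index : ℝ) := by exact_mod_cast hb
        have h4 : (({q : F ⧸ K' | tr K m (vb I.1 l y) q.out ∉ SS I r l K m}.ncard : ℕ) : ℝ) * n ≤
            ε * (K'.index : ℝ) * n := by
          refine hb'.trans ?_
          have := mul_le_mul_of_nonneg_right hne2 hip.le
          linarith
        exact le_of_mul_le_mul_right h4 hnp
      · rw [← hf K' hK' hE y hyl']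
        have h5 : Real.log ((Fl I r l K' y).ncard : ℝ) = lf I r l K' y * (K'.index : ℝ) := by
          unfold lf
          rw [div_mul_cancel₀ _ hip.ne']
        rw [h5]
        apply mul_le_mul_of_nonneg_right _ hip.le
        have h6 : c' ≤ lu I r n K' - (4 * r / l : ℝ) * Real.log I.1 := by
          rw [hc']
          linarith
        linarith)
  intro ε hε
  obtain ⟨K', hK', hE, z, hz, hs, hsum⟩ := hw ε hε
  obtain ⟨x0, hx0, hzx⟩ := ss_sound I r l m K K' hr hl (by omega) hK' hE z hz hs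
  refine ⟨K', hK', hE, x0, hx0, ?_⟩
  have hx0US : x0 ∈ US I r l K' := ⟨hx0.1, fun g _ _ => hx0.2 g⟩
  have hip := hidx K' hK'
  have h7 := hf K' hK' hE x0 hx0US
  rw [← hzx] at h7
  rw [← h7] at hsum
  unfold lf
  rw [le_div_iff₀ hip]
  exact hsum

end Pool.Agent.Helper948.Ent.B13
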