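import Pool.Agent.Helper948.Ent.Defs
import Pool.Agent.Helper948.Dom.JC

/- solved by helper214 -/


set_option autoImplicit false

namespace Pool.Agent.Helper948.Ent.B14
open Pool.Agent.Helper948.Dom Pool.Agent.Helper948.Ent Pool.Agent.Helper948.Dom.JC








-- TARGET
theorem ce_ext_trans (K K1 K2 : Subgroup F) (m m1 : ℕ) (h1 : Ext K m K1) (h2 : Ext K1 m1 K2)
    (hm : m ≤ m1) : Ext K m K2 :=
  ⟨h2.1.trans h1.1, fun w hw hk => h2.2 w (W_mono (by omega) hw) (h1.2 w hw hk)⟩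

theorem ce_tau_W {k : ℕ} {w : F} (h : w ∈ W k) : tau w = 1 := by
  rw [W] at h
  induction h using Subgroup.closure_induction with
  | mem x hx =>
    obtain ⟨i, hi, rfl⟩ := hx
    have ha : tau fa = 1 := by simp [tau, fa]
    rw [A, map_mul, map_mul, ha, mul_one, ← map_mul, mul_inv_cancel, map_one]
  | one => simp
  | mul x y _ _ hx hy => rw [map_mul, hx, hy, one_mul]
  | inv x _ hx => rw [map_inv, hx, inv_one]

theorem ce_iter (K : Subgroup F) (m : ℕ) (hK : FN K) (hm : ND K m) (j : ℕ) :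
    ∃ K' : Subgroup F, FN K' ∧ Ext K m K' ∧ ND K' (m + j) := by
  induction j with
  | zero => exact ⟨K, hK, ⟨le_refl _, fun w _ hw => hw⟩, hm⟩
  | succ j ih =>
    obtain ⟨K1, h1, h2, h3⟩ := ih
    obtain ⟨K2, g1, g2, g3⟩ := step_ext K1 (m + j) h1 h3
    exact ⟨K2, g1, ce_ext_trans K K1 K2 m (m + j) h2 g2 (by omega), g3⟩

/-- Extension of conditions: iterate step_ext (GIVEN) and intersect with the kernel of F → ℤ/(m+2)!, g ↦ tz g (a normal subgroup of finite index; all elements of W k have tz = 0, so the window relations are not changed; ND is inherited by smaller subgroups, ND.mono). Ext K m K' is K' ≤ K ∧ all w ∈ W (m+1) ∩ K are in K'; K'.par from K' ≤ K. -/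
theorem cond_ext (K : Subgroup F) (m : ℕ) (h : Cond K m) (M : ℕ) (hM : m ≤ M) :
    ∃ K' : Subgroup F, Cond K' M ∧ Ext K m K' := by
  obtain ⟨K1, h1, h2, h3⟩ := ce_iter K m h.fn h.nd (M - m)
  rw [show m + (M - m) = M by omega] at h3
  have : NeZero (M + 1).factorial := ⟨Nat.factorial_ne_zero _⟩
  let φ : F →* Multiplicative (ZMod (M + 1).factorial) :=
    (AddMonoidHom.toMultiplicative (Int.castAddHom (ZMod (M + 1).factorial))).comp tau
  have hφ : ∀ g, g ∈ φ.ker ↔ (((M + 1).factorial : ℕ) : ℤ) ∣ tz g := by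
    intro g
    rw [MonoidHom.mem_ker, ← ZMod.intCast_zmod_eq_zero_iff_dvd]
    exact Iff.rfl
  have := h1.normal
  have := h1.fin
  have : Finite (Multiplicative (ZMod (M + 1).factorial)) :=
    inferInstanceAs (Finite (ZMod (M + 1).factorial))
  have : φ.ker.FiniteIndex := by
    refine ⟨?_⟩
    rw [Subgroup.index_ker]
    exact Nat.card_pos.ne'
  refine ⟨K1 ⊓ φ.ker, ⟨⟨?_, ?_⟩, ?_, ?_, ?_⟩, ?_, ?_⟩
  · infer_instance
  · infer_instance
  · exact h3.mono inf_le_left
  · intro κ hκ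
    exact (hφ κ).1 hκ.2
  · intro κ hκ
    exact h.par κ (h2.1 hκ.1)
  · exact inf_le_left.trans h2.1
  · intro w hw hk
    refine ⟨h2.2 w hw hk, (hφ w).2 ?_⟩
    have : tz w = 0 := by rw [tz, ce_tau_W hw]; rfl
    rw [this]
    exact dvd_zero _

theorem ext_trans (K K1 K2 : Subgroup F) (m m1 : ℕ) (h1 : Ext K m K1) (h2 : Ext K1 m1 K2)
    (hm : m ≤ m1) : Ext K m K2 := ce_ext_trans K K1 K2 m m1 h1 h2 hm

end Pool.Agent.Helper948.Ent.B14
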