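import Pool.Agent.Helper948.Ent.Defs
import Pool.Agent.Helper948.Ent.B1

/- solved by helper882 -/


set_option autoImplicit false

namespace Pool.Agent.Helper948.Ent.B2
open Pool.Agent.Helper948.Dom Pool.Agent.Helper948.Ent Pool.Agent.Helper948.Ent.B1








-- TARGET

theorem luw_tz_mul (g h : F) : tz (g * h) = tz g + tz h := by
  simp [tz, map_mul]

theorem luw_tz_one : tz 1 = 0 := by simp [tz]

theorem luw_tz_inv (g : F) : tz g⁻¹ = - tz g := by
  simp [tz, map_inv]

theorem luw_tz_ft : tz ft = 1 := by simp [tz, tau, ft]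

theorem luw_tz_fa : tz fa = 0 := by simp [tz, tau, fa]

theorem luw_tz_pow (i : ℕ) : tz (ft ^ i) = i := by
  induction i with
  | zero => simp [luw_tz_one]
  | succ i ih => rw [pow_succ, luw_tz_mul, ih, luw_tz_ft]; push_cast; ring

theorem luw_tz_W {n : ℕ} {w : F} (hw : w ∈ W n) : tz w = 0 := by
  rw [W] at hw
  induction hw using Subgroup.closure_induction with
  | mem x hx =>
    obtain ⟨i, hi, rfl⟩ := hx
    rw [A, luw_tz_mul, luw_tz_mul, luw_tz_inv, luw_tz_fa]; ring
  | one => exact luw_tz_one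
  | mul x y _ _ hx hy => rw [luw_tz_mul, hx, hy]; ring
  | inv x _ hx => rw [luw_tz_inv, hx]; ring

theorem luw_ph_lt {n : ℕ} (hn : 0 < n) (g : F) : ph n g < n := by
  unfold ph
  have h1 := Int.emod_lt_of_pos (tz g) (by exact_mod_cast hn : (0 : ℤ) < n)
  have h2 := Int.emod_nonneg (tz g) (by exact_mod_cast hn.ne' : (n : ℤ) ≠ 0)
  omega

theorem luw_ph {n : ℕ} (hn : 0 < n) {K : Subgroup F} (hd : Div n K) {i : ℕ} (hi : i < n) {w : F}
    (hw : w ∈ W n) {κ : F} (hκ : κ ∈ K) {g : F} (hg : ph n g = n - 1) :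
    ph n ((ft ^ i)⁻¹ * w * g * κ) = n - 1 - i := by
  obtain ⟨b, hb⟩ := hd κ hκ
  have h2 := Int.emod_nonneg (tz g) (by exact_mod_cast hn.ne' : (n : ℤ) ≠ 0)
  have h3 : tz g % (n : ℤ) = n - 1 := by
    unfold ph at hg
    omega
  have h4 := Int.emod_add_mul_ediv (tz g) n
  have h5 : tz ((ft ^ i)⁻¹ * w * g * κ) = ((n : ℤ) - 1 - i) + n * (tz g / n + b) := by
    rw [luw_tz_mul, luw_tz_mul, luw_tz_mul, luw_tz_inv, luw_tz_pow, luw_tz_W hw, hb]
    rw [h3] at h4
    linarith
  unfold ph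
  rw [h5, Int.add_mul_emod_self_left, Int.emod_eq_of_lt (by omega) (by omega)]
  omega

/-- the points of phase `n - 1` -/
def luwTop (n : ℕ) : Type := {g : F // ph n g = n - 1}

/-- the tiles -/
def luwSet (n : ℕ) (K : Subgroup F) (hK : K.Normal) : Setoid (luwTop n) where
  r g g' := ∃ w ∈ W n, ∃ κ ∈ K, g.1 = w * g'.1 * κ
  iseqv := {
    refl := fun g => ⟨1, one_mem _, 1, one_mem _, by simp⟩
    symm := by
      rintro g g' ⟨w, hw, κ, hκ, h⟩
      exact ⟨w⁻¹, inv_mem hw, κ⁻¹, inv_mem hκ, by rw [h]; group⟩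
    trans := by
      rintro g g' g'' ⟨w, hw, κ, hκ, h⟩ ⟨w', hw', κ', hκ', h'⟩
      exact ⟨w * w', mul_mem hw hw', κ' * κ, mul_mem hκ' hκ, by rw [h, h']; group⟩ }

/-- admissible patterns of a tile -/
def luwY (I : Inp) (r n : ℕ) (K : Subgroup F) : Set (F → ℕ → ℕ) :=
  {Y | (∀ w i, ¬ (w ∈ W n ∧ i < n) → Y w i = 0) ∧ (∀ w ∈ W n, ∀ i < n, Y w i < I.1) ∧
    (∀ w ∈ W n, ∀ ν ∈ W n, ν ∈ K → ∀ i, Y (w * ν) i = Y w i) ∧
    ∀ w ∈ W n, ∀ i, r ≤ i → i + r < n → ∀ P ∈ I.2,
      ¬ ∀ q ∈ P, Y (ft ^ ((i : ℤ) - tz (FreeGroup.mk q.1)).toNat * FreeGroup.mk q.1 * (ft ^ i)⁻¹ * w)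
        ((i : ℤ) - tz (FreeGroup.mk q.1)).toNat = q.2}

theorem luw_Y_win {I : Inp} {r n : ℕ} {K K' : Subgroup F} (hw : Win K n K') :
    luwY I r n K' = luwY I r n K := by
  ext Y
  constructor
  · rintro ⟨h1, h2, h3, h4⟩
    exact ⟨h1, h2, fun w hw1 ν hν hνK => h3 w hw1 ν hν (hw.2 ν hν hνK), h4⟩
  · rintro ⟨h1, h2, h3, h4⟩
    exact ⟨h1, h2, fun w hw1 ν hν hνK => h3 w hw1 ν hν (hw.1 hνK), h4⟩

theorem luw_main (I : Inp) (r n : ℕ) (K : Subgroup F) (hK : FN K) (hn : 0 < n)
    (hd : Div n K) (hr : Rad I r) :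
    ∃ R : ℕ, 0 < R ∧ K.index = n * (R * (K.subgroupOf (W n)).index) ∧
      (US I r n K).ncard = (luwY I r n K).ncard ^ R := by
  classical
  have hKn := hK.normal
  have hKf := hK.fin
  letI st := luwSet n K hK.normal
  let T := Quotient st
  let gg : T → F := fun τ => (Quotient.out τ).1
  have hgg : ∀ τ, ph n (gg τ) = n - 1 := fun τ => (Quotient.out τ).2
  have hex : ∀ h : F, ∃ i, ∃ τ : T, ∃ w κ : F, i < n ∧ w ∈ W n ∧ κ ∈ K ∧
      h = (ft ^ i)⁻¹ * w * gg τ * κ := by
    intro h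
    have h1 := luw_ph_lt hn h
    have h2 : ph n (ft ^ (n - 1 - ph n h) * h) = n - 1 := by
      have h3 := Int.emod_nonneg (tz h) (by exact_mod_cast hn.ne' : (n : ℤ) ≠ 0)
      have h4 : ((ph n h : ℕ) : ℤ) = tz h % (n : ℤ) := by
        unfold ph; exact Int.toNat_of_nonneg h3
      have h5 := Int.emod_add_mul_ediv (tz h) n
      have h6 : tz (ft ^ (n - 1 - ph n h) * h) = ((n : ℤ) - 1) + n * (tz h / n) := by
        rw [luw_tz_mul, luw_tz_pow]
        have h7 : ((n - 1 - ph n h : ℕ) : ℤ) = (n : ℤ) - 1 - (ph n h : ℤ) := by omega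
        rw [h7, h4]
        linarith
      have h8 : tz (ft ^ (n - 1 - ph n h) * h) % (n : ℤ) = (n : ℤ) - 1 := by
        rw [h6, Int.add_mul_emod_self_left, Int.emod_eq_of_lt (by omega) (by omega)]
      show (tz (ft ^ (n - 1 - ph n h) * h) % (n : ℤ)).toNat = n - 1
      rw [h8]
      omega
    let g : luwTop n := ⟨ft ^ (n - 1 - ph n h) * h, h2⟩
    have h3 : st.r (Quotient.out (Quotient.mk st g)) g := Quotient.mk_out g
    obtain ⟨w, hw, κ, hκ, h4⟩ := st.iseqv.symm h3
    refine ⟨n - 1 - ph n h, Quotient.mk st g, w, κ, by omega, hw, hκ, ?_⟩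
    have h5 : ft ^ (n - 1 - ph n h) * h = w * gg (Quotient.mk st g) * κ := h4
    have h6 : h = (ft ^ (n - 1 - ph n h))⁻¹ * (ft ^ (n - 1 - ph n h) * h) := by group
    rw [h6, h5]
    have h7 : ph n ((ft ^ (n - 1 - ph n h))⁻¹ * (w * gg (Quotient.mk st g) * κ)) = ph n h := by
      rw [← h5, ← h6]
    rw [h7]
    group
  have huniq : ∀ (i i' : ℕ) (τ τ' : T) (w w' κ κ' : F), i < n → i' < n → w ∈ W n → w' ∈ W n →
      κ ∈ K → κ' ∈ K → (ft ^ i)⁻¹ * w * gg τ * κ = (ft ^ i')⁻¹ * w' * gg τ' * κ' →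
      i = i' ∧ τ = τ' ∧ w'⁻¹ * w ∈ K := by
    intro i i' τ τ' w w' κ κ' hi hi' hw hw' hκ hκ' h
    have h1 := luw_ph hn hd hi hw hκ (hgg τ)
    have h2 := luw_ph hn hd hi' hw' hκ' (hgg τ')
    have h3 : i = i' := by
      rw [h, h2] at h1
      omega
    subst h3
    have h4 : w * gg τ * κ = w' * gg τ' * κ' := by
      have h5 : (ft ^ i)⁻¹ * (w * gg τ * κ) = (ft ^ i)⁻¹ * (w' * gg τ' * κ') := by
        have e1 : (ft ^ i)⁻¹ * (w * gg τ * κ) = (ft ^ i)⁻¹ * w * gg τ * κ := by group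
        have e2 : (ft ^ i)⁻¹ * (w' * gg τ' * κ') = (ft ^ i)⁻¹ * w' * gg τ' * κ' := by group
        rw [e1, e2, h]
      exact mul_left_cancel h5
    have h5 : τ = τ' := by
      have h6 : st.r (Quotient.out τ) (Quotient.out τ') := by
        refine ⟨w⁻¹ * w', mul_mem (inv_mem hw) hw', κ' * κ⁻¹, mul_mem hκ' (inv_mem hκ), ?_⟩
        show gg τ = w⁻¹ * w' * gg τ' * (κ' * κ⁻¹)
        have e1 : w⁻¹ * w' * gg τ' * (κ' * κ⁻¹) = w⁻¹ * (w' * gg τ' * κ') * κ⁻¹ := by group
        rw [e1, ← h4]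
        group
      have h7 := Quotient.sound (s := st) h6
      rwa [Quotient.out_eq, Quotient.out_eq] at h7
    subst h5
    refine ⟨rfl, rfl, ?_⟩
    have h6 : w'⁻¹ * w = gg τ * (κ' * κ⁻¹) * (gg τ)⁻¹ := by
      have e1 : w'⁻¹ * w = w'⁻¹ * (w * gg τ * κ) * κ⁻¹ * (gg τ)⁻¹ := by group
      rw [e1, h4]
      group
    rw [h6]
    exact hKn.conj_mem _ (mul_mem hκ' (inv_mem hκ)) _
  -- finiteness
  haveI : Finite (F ⧸ K) := Subgroup.finite_quotient_of_finiteIndex
  have hTfin : Finite T := by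
    apply Finite.of_injective (fun τ : T => (QuotientGroup.mk (gg τ) : F ⧸ K))
    intro τ τ' h
    have h1 : (gg τ)⁻¹ * gg τ' ∈ K := QuotientGroup.eq.mp h
    refine (huniq 0 0 τ τ' 1 1 ((gg τ)⁻¹ * gg τ') 1 hn hn (one_mem _) (one_mem _) h1
      (one_mem _) ?_).2.1
    simp
  obtain ⟨_, τ₀, _⟩ := hex 1
  have hTne : Nonempty T := ⟨τ₀⟩
  refine ⟨Nat.card T, Nat.card_pos, ?_, ?_⟩
  · -- index
    let f : Fin n × (T × (W n ⧸ (K.subgroupOf (W n)))) → F ⧸ K := fun p =>
      QuotientGroup.mk ((ft ^ (p.1 : ℕ))⁻¹ * ((Quotient.out p.2.2 : W n) : F) * gg p.2.1)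
    have hf : Function.Bijective f := by
      constructor
      · rintro ⟨i, τ, c⟩ ⟨i', τ', c'⟩ h
        have h1 : ((ft ^ (i : ℕ))⁻¹ * ((Quotient.out c : W n) : F) * gg τ)⁻¹ *
            ((ft ^ (i' : ℕ))⁻¹ * ((Quotient.out c' : W n) : F) * gg τ') ∈ K :=
          QuotientGroup.eq.mp h
        obtain ⟨h2, h3, h4⟩ := huniq i i' τ τ' (Quotient.out c : W n) (Quotient.out c' : W n) _ 1
          i.2 i'.2 (Quotient.out c : W n).2 (Quotient.out c' : W n).2 h1 (one_mem _)
          (by group)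
        have h5 : i = i' := Fin.ext h2
        subst h5
        subst h3
        have h6 : c = c' := by
          have h7 : (QuotientGroup.mk (Quotient.out c') : W n ⧸ (K.subgroupOf (W n))) =
              QuotientGroup.mk (Quotient.out c) := by
            rw [QuotientGroup.eq, Subgroup.mem_subgroupOf]
            exact h4
          rw [QuotientGroup.out_eq', QuotientGroup.out_eq'] at h7
          exact h7.symm
        rw [h6]
      · intro q
        induction q using QuotientGroup.induction_on with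
        | H h =>
          obtain ⟨i, τ, w, κ, hi, hw, hκ, hh⟩ := hex h
          refine ⟨(⟨i, hi⟩, τ, QuotientGroup.mk ⟨w, hw⟩), ?_⟩
          have h7 : (QuotientGroup.mk (Quotient.out
              (QuotientGroup.mk ⟨w, hw⟩ : W n ⧸ (K.subgroupOf (W n)))) :
              W n ⧸ (K.subgroupOf (W n))) = QuotientGroup.mk ⟨w, hw⟩ := QuotientGroup.out_eq' _
          rw [QuotientGroup.eq, Subgroup.mem_subgroupOf] at h7
          show (QuotientGroup.mk ((ft ^ i)⁻¹ * ((Quotient.out
              (QuotientGroup.mk ⟨w, hw⟩ : W n ⧸ (K.subgroupOf (W n))) : W n) : F) * gg τ) : F ⧸ K)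
            = QuotientGroup.mk h
          rw [QuotientGroup.eq, hh]
          generalize (Quotient.out (QuotientGroup.mk ⟨w, hw⟩ : W n ⧸ (K.subgroupOf (W n))) : W n)
            = v at h7
          have h8 : ((v : F))⁻¹ * w ∈ K := h7
          have h9 : ((ft ^ i)⁻¹ * (v : F) * gg τ)⁻¹ * ((ft ^ i)⁻¹ * w * gg τ * κ) =
              ((gg τ)⁻¹ * ((v : F)⁻¹ * w) * ((gg τ)⁻¹)⁻¹) * κ := by group
          rw [h9]
          exact mul_mem (hKn.conj_mem _ h8 _) hκ
    have h1 := Nat.card_congr (Equiv.ofBijective f hf)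
    rw [Nat.card_prod, Nat.card_prod, Nat.card_eq_fintype_card, Fintype.card_fin] at h1
    exact h1.symm
  · -- number of colourings
    rw [← Nat.card_coe_set_eq, ← Nat.card_coe_set_eq, ← Nat.card_fun]
    have hmem : ∀ x ∈ US I r n K, ∀ τ : T,
        (fun (w : F) (i : ℕ) => if w ∈ W n ∧ i < n then x ((ft ^ i)⁻¹ * w * gg τ) else 0) ∈
          luwY I r n K := by
      rintro x ⟨⟨hx1, hx2⟩, hx3⟩ τ
      refine ⟨?_, ?_, ?_, ?_⟩
      · intro w i h
        exact if_neg h
      · intro w hw i hi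
        show (if w ∈ W n ∧ i < n then x ((ft ^ i)⁻¹ * w * gg τ) else 0) < I.1
        rw [if_pos ⟨hw, hi⟩]
        exact hx1 _
      · intro w hw ν hν hνK i
        show (if w * ν ∈ W n ∧ i < n then x ((ft ^ i)⁻¹ * (w * ν) * gg τ) else 0) =
          (if w ∈ W n ∧ i < n then x ((ft ^ i)⁻¹ * w * gg τ) else 0)
        by_cases hi : i < n
        · rw [if_pos ⟨mul_mem hw hν, hi⟩, if_pos ⟨hw, hi⟩]
          have h1 : (ft ^ i)⁻¹ * (w * ν) * gg τ =
              (ft ^ i)⁻¹ * w * gg τ * ((gg τ)⁻¹ * ν * ((gg τ)⁻¹)⁻¹) := by group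
          rw [h1]
          exact hx2 _ _ (hKn.conj_mem _ hνK _)
        · rw [if_neg (fun h => hi h.2), if_neg (fun h => hi h.2)]
      · intro w hw i hri hirn P hP hall
        have hph := luw_ph hn hd (by omega : i < n) hw (one_mem K) (hgg τ)
        rw [mul_one] at hph
        refine hx3 ((ft ^ i)⁻¹ * w * gg τ) (by omega) (by omega) P hP ?_
        intro q hq
        obtain ⟨j, hj1, hj2, hj3, hj4⟩ := path q.1 r i (hr P hP q hq) hri
        have hjn : ((i : ℤ) - tz (FreeGroup.mk q.1)).toNat = j := by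
          rw [← hj1]; exact Int.toNat_natCast j
        have h1 := hall q hq
        rw [hjn] at h1
        have h2 : ft ^ j * FreeGroup.mk q.1 * (ft ^ i)⁻¹ * w ∈ W n :=
          mul_mem (W_mono (by omega) hj4) hw
        have h3 : (if ft ^ j * FreeGroup.mk q.1 * (ft ^ i)⁻¹ * w ∈ W n ∧ j < n then
          x ((ft ^ j)⁻¹ * (ft ^ j * FreeGroup.mk q.1 * (ft ^ i)⁻¹ * w) * gg τ) else 0) = q.2 := h1
        rw [if_pos ⟨h2, by omega⟩] at h3
        rw [← h3]
        congr 1
        group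
    let Φ : US I r n K → (T → luwY I r n K) := fun x τ => ⟨_, hmem x.1 x.2 τ⟩
    have hΦ : ∀ (x : US I r n K) (τ : T) (w : F) (i : ℕ), (Φ x τ).1 w i =
        if w ∈ W n ∧ i < n then x.1 ((ft ^ i)⁻¹ * w * gg τ) else 0 := fun x τ w i => rfl
    have hbij : Function.Bijective Φ := by
      constructor
      · intro x x' h
        apply Subtype.ext
        funext h0
        obtain ⟨i, τ, w, κ, hi, hw, hκ, hh⟩ := hex h0
        have e1 : x.1 h0 = x.1 ((ft ^ i)⁻¹ * w * gg τ) := by
          rw [hh]; exact x.2.1.2 _ _ hκ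
        have e2 : x'.1 h0 = x'.1 ((ft ^ i)⁻¹ * w * gg τ) := by
          rw [hh]; exact x'.2.1.2 _ _ hκ
        have e3 : (Φ x τ).1 w i = (Φ x' τ).1 w i := by rw [h]
        rw [hΦ, hΦ, if_pos ⟨hw, hi⟩, if_pos ⟨hw, hi⟩] at e3
        rw [e1, e2, e3]
      · intro Y
        choose iF τF wF κF hiF hwF hκF hhF using hex
        let x : F → ℕ := fun h => (Y (τF h)).1 (wF h) (iF h)
        have hx : ∀ (i : ℕ) (τ : T) (w κ : F), i < n → w ∈ W n → κ ∈ K →
            x ((ft ^ i)⁻¹ * w * gg τ * κ) = (Y τ).1 w i := by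
          intro i τ w κ hi hw hκ
          obtain ⟨h1, h2, h3⟩ := huniq i (iF ((ft ^ i)⁻¹ * w * gg τ * κ)) τ
            (τF ((ft ^ i)⁻¹ * w * gg τ * κ)) w (wF ((ft ^ i)⁻¹ * w * gg τ * κ)) κ
            (κF ((ft ^ i)⁻¹ * w * gg τ * κ)) hi (hiF _) hw (hwF _) hκ (hκF _) (hhF _)
          show (Y (τF ((ft ^ i)⁻¹ * w * gg τ * κ))).1 (wF ((ft ^ i)⁻¹ * w * gg τ * κ))
            (iF ((ft ^ i)⁻¹ * w * gg τ * κ)) = _
          have hw' := hwF ((ft ^ i)⁻¹ * w * gg τ * κ)
          rw [← h1, ← h2]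
          generalize wF ((ft ^ i)⁻¹ * w * gg τ * κ) = w' at h3 hw' ⊢
          have h4 := (Y τ).2.2.2.1 w' hw' (w'⁻¹ * w) (mul_mem (inv_mem hw') hw) h3 i
          rw [← h4]
          congr 1
          group
        have hxUS : x ∈ US I r n K := by
          refine ⟨⟨?_, ?_⟩, ?_⟩
          · intro g
            exact (Y (τF g)).2.2.1 _ (hwF g) _ (hiF g)
          · intro g κ hκ
            have e1 := hx (iF g) (τF g) (wF g) (κF g) (hiF g) (hwF g) (hκF g)
            have e2 := hx (iF g) (τF g) (wF g) (κF g * κ) (hiF g) (hwF g) (mul_mem (hκF g) hκ)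
            rw [← hhF g] at e1
            rw [e1, ← e2]
            congr 1
            rw [← mul_assoc, ← hhF g]
          · intro h hr1 hr2 P hP hall
            have hph := luw_ph hn hd (hiF h) (hwF h) (hκF h) (hgg (τF h))
            rw [← hhF h] at hph
            have hin := hiF h
            have hri : r ≤ iF h := by omega
            have hirn : iF h + r < n := by omega
            refine (Y (τF h)).2.2.2.2 (wF h) (hwF h) (iF h) hri hirn P hP ?_
            intro q hq
            obtain ⟨j, hj1, hj2, hj3, hj4⟩ := path q.1 r (iF h) (hr P hP q hq) hri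
            have hjn : ((iF h : ℤ) - tz (FreeGroup.mk q.1)).toNat = j := by
              rw [← hj1]; exact Int.toNat_natCast j
            rw [hjn]
            have h2 : ft ^ j * FreeGroup.mk q.1 * (ft ^ (iF h))⁻¹ * wF h ∈ W n :=
              mul_mem (W_mono (by omega) hj4) (hwF h)
            rw [← hx j (τF h) _ (κF h) (by omega) h2 (hκF h), ← hall q hq]
            congr 1
            conv_rhs => rw [hhF h]
            group
        refine ⟨⟨x, hxUS⟩, ?_⟩
        funext τ
        apply Subtype.ext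
        funext w i
        rw [hΦ]
        by_cases hwi : w ∈ W n ∧ i < n
        · rw [if_pos hwi]
          have e1 := hx i τ w 1 hwi.2 hwi.1 (one_mem _)
          rw [mul_one] at e1
          exact e1
        · rw [if_neg hwi]
          exact ((Y τ).2.1 w i hwi).symm
    exact Nat.card_congr (Equiv.ofBijective Φ hbij)

theorem luw_formula (I : Inp) (r n : ℕ) (K : Subgroup F) (hK : FN K) (hn : 0 < n)
    (hd : Div n K) (hr : Rad I r) :
    lu I r n K = Real.log ((luwY I r n K).ncard : ℝ) /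
      ((n : ℝ) * ((K.subgroupOf (W n)).index : ℝ)) := by
  obtain ⟨R, hR, h1, h2⟩ := luw_main I r n K hK hn hd hr
  unfold lu
  rw [h1, h2]
  push_cast
  rw [Real.log_pow]
  have hR' : (R : ℝ) ≠ 0 := by exact_mod_cast hR.ne'
  have hn' : (n : ℝ) ≠ 0 := by exact_mod_cast hn.ne'
  rw [show (n : ℝ) * ((R : ℝ) * ((K.subgroupOf (W n)).index : ℝ)) =
    (R : ℝ) * ((n : ℝ) * ((K.subgroupOf (W n)).index : ℝ)) by ring]
  rw [mul_div_mul_left _ _ hR']

/-- The normalised number of slab colourings only depends on the window. Write Q = F/K (finite group, n divides tz κ for κ ∈ K so the phase ph n is a function on Q with ph n (a g) = ph n g, ph n (t g) = ph n g + 1 mod n).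
Every g of phase n-1 is the top of a tile T(g) = {t^{-i} w g : i < n, w ∈ W n}; T(g) depends only on the coset (W n) g K, the tiles form a partition of Q into pieces of size n * |W n / (W n ∩ K)|, and by the path lemma for a point h with r ≤ ph n h and ph n h + r < n and a word u of length ≤ r the
point u h lies in the same tile as h. So a colouring is in US iff its restrictions to all the tiles are (restrictions of) admissible ones, all the tiles look alike (right translation; the map (i, w) ↦ t^{-i} w g is injective modulo the equality in W n / (W n ∩ K) which is the same for K and K' by Win), and therefore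
ncard (US I r n K) = c ^ (K.index / (n * |W n / (W n ∩ K)|)), with the same number c (the number of admissible tile patterns) for K and K'. Suggestion: let C be the set of functions κ : ℕ → F → ℕ of the form κ i w = y (t^{-i} w) if i < n ∧ w ∈ W n and 0 otherwise, where y runs over Cfg I.1 K with Av I y (t^{-i} w) for all
w ∈ W n and r ≤ i, i + r < n; show that C is the same set for K' (only the values on W n / (W n ∩ K) matter) and that US I r n K is in bijection with the functions from the set of tiles to C. If US is empty for one it is empty for the other (log 0 = 0). -/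
theorem lu_win (I : Inp) (r n : ℕ) (K K' : Subgroup F) (hK : FN K) (hK' : FN K') (hn : 0 < n)
    (hd : Div n K) (hr : Rad I r) (hw : Win K n K') : lu I r n K' = lu I r n K := by
  have hd' : Div n K' := fun κ hκ => hd κ (hw.1 hκ)
  rw [luw_formula I r n K hK hn hd hr, luw_formula I r n K' hK' hn hd' hr, luw_Y_win hw]
  have h1 : K'.subgroupOf (W n) = K.subgroupOf (W n) := by
    ext w
    rw [Subgroup.mem_subgroupOf, Subgroup.mem_subgroupOf]
    exact ⟨fun h => hw.1 h, fun h => hw.2 _ w.2 h⟩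
  rw [h1]

end Pool.Agent.Helper948.Ent.B2
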