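import Pool.Agent.Helper948.Ent.Defs
import Pool.Agent.Helper948.Ent.B2
import Pool.Agent.Helper948.Ent.B13
import Pool.Agent.Helper948.Ent.B14

/- solved by helper653 -/


set_option autoImplicit false

namespace Pool.Agent.Helper948.Ent.B15
open Pool.Agent.Helper948.Dom Pool.Agent.Helper948.Ent Pool.Agent.Helper948.Ent.B2 Pool.Agent.Helper948.Ent.B13 Pool.Agent.Helper948.Ent.B14








-- TARGET
theorem ts_div {K : Subgroup F} {m : ℕ} (h : Cond K m) (n : ℕ) (hn : 0 < n) (hnm : n ≤ m + 1) :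
    Div n K := by
  intro κ hκ
  have h1 := h.div κ hκ
  have h2 : (n : ℤ) ∣ ((m + 1).factorial : ℤ) := by
    exact_mod_cast Nat.dvd_factorial hn hnm
  exact h2.trans h1

theorem ts_lu_nonneg (I : Inp) (r n : ℕ) (K : Subgroup F) : 0 ≤ lu I r n K := by
  unfold lu
  exact div_nonneg (Real.log_natCast_nonneg _) (Nat.cast_nonneg _)

/-- Let c = sInf (LU I r K m) (the set is nonempty, bounded below by 0). Choose (K1, m1, n1) with lu I r n1 K1 ≤ c + ε. If I.1 = 0 ... US would be empty, contradiction with hne, so I.1 ≥ 1. Choose l > 2r with (4r/l) log I.1 ≤ ε/2. Extend (cond_ext) to (K2, m2) with m2 ≥ m1, l ≤ m2 + 1; Div l K2 because l divides (m2+1)!. Apply tcore to (K2, m2) with this c: for N choose n = l * (N+1), extend (K2, m2) to (K', m') with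
n ≤ m'+1 (cond_ext): then lu I r n K' ∈ LU I r K m (ext_trans), so ≥ c, and US is nonempty by hne. We get K3 with Ext K2 m2 K3, x0 ∈ XS I K3 and lf I r l K3 x0 ≥ c - ε/2 - ε/2. K3 satisfies Cond K3 m2 (ND.mono, divisibility and parity are inherited from K2). By lu_win (n1 ≤ m1 + 1 ≤ m2 + 1, Win K1 n1 K3 follows from the two Ext) lu I r n1 K3 = lu I r n1 K1 ≤ c + ε. Take K' = K3, m' = m2, n2 = l. -/
theorem ts (I : Inp) (r : ℕ) (hr : Rad I r) (K : Subgroup F) (m : ℕ) (h : Cond K m)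
    (hne : ∀ K' m' n, Cond K' m' → Ext K m K' → m ≤ m' → 0 < n → n ≤ m' + 1 →
      (US I r n K').Nonempty) :
    ∀ ε : ℝ, 0 < ε → ∃ K' m' n1 n2 x0, Cond K' m' ∧ Ext K m K' ∧ m ≤ m' ∧ 0 < n1 ∧ n1 ≤ m' + 1 ∧
      0 < n2 ∧ n2 ≤ m' + 1 ∧ x0 ∈ XS I K' ∧ sInf (LU I r K m) - ε ≤ lf I r n2 K' x0 ∧
      lu I r n1 K' ≤ sInf (LU I r K m) + ε := by
  intro ε hε
  have hbdd : BddBelow (LU I r K m) := by
    refine ⟨0, ?_⟩
    rintro u ⟨K', m', n, -, -, -, -, -, rfl⟩
    exact ts_lu_nonneg I r n K'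
  have hLne : (LU I r K m).Nonempty :=
    ⟨_, K, m, 1, h, ⟨le_refl _, fun w _ hw => hw⟩, le_refl _, Nat.one_pos, by omega, rfl⟩
  set c : ℝ := sInf (LU I r K m) with hc
  obtain ⟨u, ⟨K1, m1, n1, hC1, hE1, hm1, hn1, hn1m, rfl⟩, hu⟩ :=
    Real.lt_sInf_add_pos hLne hε
  have hI1 : 0 < I.1 := by
    obtain ⟨x, hx⟩ := hne K m 1 h ⟨le_refl _, fun w _ hw => hw⟩ (le_refl _) Nat.one_pos (by omega)
    have h1 := hx.1.1 1
    omega
  have hlog : 0 ≤ Real.log I.1 := Real.log_natCast_nonneg _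
  obtain ⟨l, hl⟩ := exists_nat_gt (2 * (r:ℝ) + 8 * r * Real.log I.1 / ε)
  have hrl : (0:ℝ) ≤ 8 * r * Real.log I.1 / ε := by positivity
  have hr0 : (0:ℝ) ≤ 2 * (r:ℝ) := by positivity
  have hl1 : 2 * r < l := by
    have h1 : (2 * (r:ℝ)) < l := by linarith
    exact_mod_cast h1
  have hl0 : 0 < l := by omega
  have hl2 : (4 * r / l : ℝ) * Real.log I.1 ≤ ε / 2 := by
    have h1 : 8 * r * Real.log I.1 / ε < l := by linarith
    rw [div_lt_iff₀ hε] at h1
    have h2 : (0:ℝ) < l := by exact_mod_cast hl0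
    rw [div_mul_eq_mul_div, div_le_iff₀ h2]
    linarith
  obtain ⟨K2, hC2, hE2⟩ := cond_ext K1 m1 hC1 (max m1 l) (le_max_left _ _)
  set m2 : ℕ := max m1 l with hm2
  have hm12 : m1 ≤ m2 := le_max_left _ _
  have hlm2 : l ≤ m2 := le_max_right _ _
  have hEK2 : Ext K m K2 := ext_trans K K1 K2 m m1 hE1 hE2 hm1
  obtain ⟨K3, hF3, hE3, x0, hx0, hlf⟩ := tcore I r l m2 K2 hr hC2.fn hl1 (by omega)
    (ts_div hC2 l hl0 (by omega)) c (by
      intro N
      refine ⟨l * (N + 1), ?_, by positivity, dvd_mul_right _ _, ?_⟩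
      · calc N ≤ N + 1 := Nat.le_succ N
          _ = 1 * (N + 1) := (one_mul _).symm
          _ ≤ l * (N + 1) := Nat.mul_le_mul_right _ hl0
      · obtain ⟨K', hC', hE'⟩ := cond_ext K2 m2 hC2 (max m2 (l * (N + 1))) (le_max_left _ _)
        have hle1 : m2 ≤ max m2 (l * (N + 1)) := le_max_left _ _
        have hle2 : l * (N + 1) ≤ max m2 (l * (N + 1)) := le_max_right _ _
        have hpos : 0 < l * (N + 1) := by positivity
        have hEK' : Ext K m K' := ext_trans K K2 K' m m2 hEK2 hE' (by omega)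
        refine ⟨K', hC'.fn, hE', ts_div hC' _ hpos (by omega), ?_, ?_⟩
        · exact hne K' _ _ hC' hEK' (by omega) hpos (by omega)
        · exact csInf_le hbdd ⟨K', _, _, hC', hEK', by omega, hpos, by omega, rfl⟩)
    (ε / 2) (by positivity)
  have hC3 : Cond K3 m2 :=
    { fn := hF3
      nd := hC2.nd.mono hE3.1
      div := fun κ hκ => hC2.div κ (hE3.1 hκ)
      par := fun κ hκ => hC2.par κ (hE3.1 hκ) }
  have hEK3 : Ext K m K3 := ext_trans K K2 K3 m m2 hEK2 hE3 (by omega)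
  have hlu : lu I r n1 K3 = lu I r n1 K1 := by
    refine lu_win I r n1 K1 K3 hC1.fn hF3 hn1 (ts_div hC1 n1 hn1 hn1m) hr
      ⟨hE3.1.trans hE2.1, fun w hw hwK => ?_⟩
    have hw1 : w ∈ W (m1 + 1) := W_mono hn1m hw
    exact hE3.2 w (W_mono (by omega) hw1) (hE2.2 w hw1 hwK)
  refine ⟨K3, m2, n1, l, x0, hC3, hEK3, by omega, hn1, by omega, hl0, by omega, hx0, ?_, ?_⟩
  · linarith
  · rw [hlu]
    exact hu.le

end Pool.Agent.Helper948.Ent.B15
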