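import Pool.Agent.Helper948.Ent.Defs

/- solved by helper49 -/


set_option autoImplicit false

namespace Pool.Agent.Helper948.Ent.B3
open Pool.Agent.Helper948.Dom Pool.Agent.Helper948.Ent






-- TARGET
theorem lu_mono_ph (g : F) (r n j : ℕ) (hn : 0 < n) (hj : 0 < j) (h1 : r ≤ ph n g)
    (h2 : ph n g + r < n) : r ≤ ph (j * n) g ∧ ph (j * n) g + r < j * n := by
  unfold ph at h1 h2 ⊢
  have hn' : (0 : ℤ) < n := by exact_mod_cast hn
  have hj' : (0 : ℤ) < j := by exact_mod_cast hj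
  have hjn : (0 : ℤ) < ((j * n : ℕ) : ℤ) := by
    push_cast
    positivity
  obtain ⟨a, ha⟩ : ∃ a : ℤ, a = tz g % ((j * n : ℕ) : ℤ) := ⟨_, rfl⟩
  obtain ⟨b, hb⟩ : ∃ b : ℤ, b = tz g % (n : ℤ) := ⟨_, rfl⟩
  have ha0 : 0 ≤ a := by rw [ha]; exact Int.emod_nonneg _ hjn.ne'
  have hb0 : 0 ≤ b := by rw [hb]; exact Int.emod_nonneg _ hn'.ne'
  have ha1 : a < j * n := by
    have := Int.emod_lt_of_pos (tz g) hjn
    rw [← ha] at this
    push_cast at this
    exact this
  have hab : a % (n : ℤ) = b := by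
    rw [ha, hb]
    exact Int.emod_emod_of_dvd _ (by push_cast; exact Dvd.intro_left _ rfl)
  have hdiv := Int.emod_add_mul_ediv a (n : ℤ)
  rw [hab] at hdiv
  have hq0 : 0 ≤ a / (n : ℤ) := Int.ediv_nonneg ha0 hn'.le
  have hq1 : a / (n : ℤ) + 1 ≤ j := by
    have : a / (n : ℤ) < j := Int.ediv_lt_of_lt_mul hn' ha1
    omega
  have h3 : 0 ≤ (n : ℤ) * (a / (n : ℤ)) := mul_nonneg hn'.le hq0
  have h4 : (n : ℤ) * (a / (n : ℤ) + 1) ≤ n * j := mul_le_mul_of_nonneg_left hq1 hn'.le
  rw [← ha]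
  rw [← hb] at h1 h2
  have h5 : (r : ℤ) ≤ b := by omega
  have h6 : b + r < n := by omega
  constructor
  · have : (r : ℤ) ≤ a := by linarith
    omega
  · have h7 : a + r < j * n := by linarith
    have h8 : ((a.toNat : ℕ) : ℤ) = a := Int.toNat_of_nonneg ha0
    have h9 : ((a.toNat + r : ℕ) : ℤ) < ((j * n : ℕ) : ℤ) := by
      push_cast
      rw [h8]
      exact h7
    exact_mod_cast h9

theorem lu_mono_fin (k : ℕ) (K : Subgroup F) (hK : FN K) : (Cfg k K).Finite := by
  have hfi : K.FiniteIndex := hK.fin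
  have hQ : Finite (F ⧸ K) := inferInstance
  refine Set.Finite.of_injOn (f := fun (x : F → ℕ) (q : F ⧸ K) => x q.out)
    (t := {y : (F ⧸ K) → ℕ | ∀ q, y q ∈ Set.Iio k}) ?_ ?_ ?_
  · intro x hx q
    exact hx.1 _
  · intro x hx y hy hxy
    funext g
    obtain ⟨κ, hκ⟩ := QuotientGroup.mk_out_eq_mul K g
    have h1 := congrFun hxy (g : F ⧸ K)
    change x ((g : F ⧸ K).out) = y ((g : F ⧸ K).out) at h1
    rw [hκ, hx.2 g κ κ.2, hy.2 g κ κ.2] at h1
    exact h1
  · exact Set.Finite.pi' fun _ => Set.finite_Iio k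

/-- If n divides jn then US I r (jn) K ⊆ US I r n K: if r ≤ ph n g and ph n g + r < n then the same holds modulo j n, because ph n g = ph (j n) g mod n. The set US I r n K is finite (functions on the finite quotient with finitely many values), so the cardinalities compare, log is monotone on natural numbers (log 0 = 0). -/
theorem lu_mono (I : Inp) (r n j : ℕ) (hn : 0 < n) (hj : 0 < j) (K : Subgroup F) (hK : FN K)
    (hd : Div (j * n) K) : lu I r (j * n) K ≤ lu I r n K := by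
  have hsub : US I r (j * n) K ⊆ US I r n K := by
    rintro x ⟨hx1, hx2⟩
    refine ⟨hx1, fun g h1 h2 => ?_⟩
    obtain ⟨h3, h4⟩ := lu_mono_ph g r n j hn hj h1 h2
    exact hx2 g h3 h4
  have hfin : (US I r n K).Finite := (lu_mono_fin I.1 K hK).subset fun x hx => hx.1
  have hcard := Set.ncard_le_ncard hsub hfin
  unfold lu
  refine div_le_div_of_nonneg_right ?_ (Nat.cast_nonneg _)
  rcases Nat.eq_zero_or_pos (US I r (j * n) K).ncard with h | h
  · rw [h, Nat.cast_zero, Real.log_zero]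
    exact Real.log_natCast_nonneg _
  · exact Real.log_le_log (by exact_mod_cast h) (by exact_mod_cast hcard)

end Pool.Agent.Helper948.Ent.B3
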