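import Pool.Agent.Helper948.Ent.Defs
import Pool.Agent.Helper948.Ent.B1

/- solved by helper221 -/


set_option autoImplicit false

namespace Pool.Agent.Helper948.Ent.C1
open Pool.Agent.Helper948.Dom Pool.Agent.Helper948.Ent Pool.Agent.Helper948.Ent.B1








-- TARGET
theorem su_tz_mul (g h : F) : tz (g * h) = tz g + tz h := by simp [tz]

theorem su_tz_inv (g : F) : tz g⁻¹ = - tz g := by simp [tz]

theorem su_tz_one : tz 1 = 0 := by simp [tz]

theorem su_tz_ft : tz ft = 1 := by simp [tz, tau, ft]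

theorem su_tz_fa : tz fa = 0 := by simp [tz, tau, fa]

theorem su_tz_pow (i : ℕ) : tz (ft ^ i) = i := by
  induction i with
  | zero => simp [su_tz_one]
  | succ i ih => rw [pow_succ, su_tz_mul, ih, su_tz_ft]; push_cast; ring

theorem su_tz_W {n : ℕ} {w : F} (h : w ∈ W n) : tz w = 0 := by
  rw [W] at h
  induction h using Subgroup.closure_induction with
  | mem x hx =>
    obtain ⟨i, hi, rfl⟩ := hx
    rw [A, su_tz_mul, su_tz_mul, su_tz_inv, su_tz_fa]; ring
  | one => exact su_tz_one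
  | mul x y _ _ hx hy => rw [su_tz_mul, hx, hy]; rfl
  | inv x _ hx => rw [su_tz_inv, hx]; rfl

theorem su_ph_lt {n : ℕ} (hn : 0 < n) (g : F) : ph n g < n := by
  have h1 := Int.emod_lt_of_pos (tz g) (by exact_mod_cast hn : (0 : ℤ) < n)
  have h2 := Int.emod_nonneg (tz g) (by exact_mod_cast hn.ne' : (n : ℤ) ≠ 0)
  unfold ph; omega

theorem su_ph_cast {n : ℕ} (hn : 0 < n) (g : F) : ((ph n g : ℕ) : ℤ) = tz g % n := by
  have h2 := Int.emod_nonneg (tz g) (by exact_mod_cast hn.ne' : (n : ℤ) ≠ 0)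
  unfold ph; omega

/-- the phase is characterised by the divisibility -/
theorem su_ph_iff {n : ℕ} (hn : 0 < n) (g : F) (p : ℕ) (hp : p < n) :
    ph n g = p ↔ (n : ℤ) ∣ tz g - p := by
  have h1 := su_ph_cast hn g
  have h3 := su_ph_lt hn g
  constructor
  · intro h
    rw [h] at h1
    rw [h1]
    exact Int.dvd_self_sub_emod
  · intro h
    have h4 : (n : ℤ) ∣ tz g - ph n g := by rw [h1]; exact Int.dvd_self_sub_emod
    have h5 : (n : ℤ) ∣ (ph n g : ℤ) - p := by
      have := dvd_sub h h4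
      have e : tz g - (p : ℤ) - (tz g - (ph n g : ℤ)) = (ph n g : ℤ) - p := by ring
      rwa [e] at this
    have h6 : (ph n g : ℤ) - p = 0 := by
      apply Int.eq_zero_of_abs_lt_dvd h5
      rw [abs_lt]; omega
    omega

/-- the equivalence relation on the top points -/
def suS (K : Subgroup F) (n : ℕ) : Setoid {g : F // ph n g = n - 1} :=
  (QuotientGroup.rightRel (W n ⊔ K)).comap Subtype.val

/-- the tiles -/
abbrev suT (K : Subgroup F) (n : ℕ) : Type := Quotient (suS K n)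

/-- top point of a tile -/
noncomputable def sug (K : Subgroup F) (n : ℕ) (τ : suT K n) : F := (Quotient.out τ).1

theorem su_sug_ph (K : Subgroup F) (n : ℕ) (τ : suT K n) : ph n (sug K n τ) = n - 1 :=
  (Quotient.out τ).2

theorem su_mem_sup (K : Subgroup F) [K.Normal] (n : ℕ) (g : F) (h : g ∈ W n ⊔ K) :
    ∃ w ∈ W n, w⁻¹ * g ∈ K := by
  have h1 : g ∈ ((W n ⊔ K : Subgroup F) : Set F) := h
  rw [Subgroup.mul_normal] at h1
  obtain ⟨w, hw, k, hk, rfl⟩ := Set.mem_mul.1 h1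
  exact ⟨w, hw, by simpa using hk⟩

theorem su_dec (K : Subgroup F) (hK : K.Normal) (n : ℕ) (hn : 0 < n) (h : F) :
    ∃ τ : suT K n, ∃ i : ℕ, i < n ∧ ∃ w ∈ W n, ((ft ^ i)⁻¹ * w * sug K n τ)⁻¹ * h ∈ K := by
  have hp := su_ph_lt hn h
  have hdv := (su_ph_iff hn h (ph n h) hp).1 rfl
  have htop : ph n (ft ^ (n - 1 - ph n h) * h) = n - 1 := by
    rw [su_ph_iff hn _ _ (by omega), su_tz_mul, su_tz_pow]
    have e : (((n - 1 - ph n h : ℕ) : ℤ) + tz h - ((n - 1 : ℕ) : ℤ)) = tz h - (ph n h : ℤ) := by omega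
    rw [e]; exact hdv
  let top : {g : F // ph n g = n - 1} := ⟨ft ^ (n - 1 - ph n h) * h, htop⟩
  have hrel : (suS K n).r (Quotient.out (Quotient.mk (suS K n) top)) top := Quotient.mk_out (s := suS K n) top
  have hrel2 : (ft ^ (n - 1 - ph n h) * h) * (sug K n (Quotient.mk (suS K n) top))⁻¹ ∈ W n ⊔ K := by
    have := hrel
    change (QuotientGroup.rightRel (W n ⊔ K)).r _ _ at this
    exact QuotientGroup.rightRel_apply.1 this
  obtain ⟨w, hw, hk⟩ := su_mem_sup K n _ hrel2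
  refine ⟨Quotient.mk (suS K n) top, n - 1 - ph n h, by omega, w, hw, ?_⟩
  set g := sug K n (Quotient.mk (suS K n) top)
  have := hK.conj_mem _ hk g⁻¹
  have e : ((ft ^ (n - 1 - ph n h))⁻¹ * w * g)⁻¹ * h =
      g⁻¹ * (w⁻¹ * (ft ^ (n - 1 - ph n h) * h * g⁻¹)) * g⁻¹⁻¹ := by group
  rw [e]; exact this

theorem su_uniq (K : Subgroup F) (hK : K.Normal) (n : ℕ) (hn : 0 < n) (hd : Div n K)
    (τ σ : suT K n) (i j : ℕ) (hi : i < n) (hj : j < n) (w w' : F) (hw : w ∈ W n) (hw' : w' ∈ W n)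
    (h : ((ft ^ i)⁻¹ * w * sug K n τ)⁻¹ * ((ft ^ j)⁻¹ * w' * sug K n σ) ∈ K) :
    i = j ∧ τ = σ ∧ w⁻¹ * w' ∈ K := by
  have h1 := hd _ h
  have p1 := (su_ph_iff hn _ _ (by omega)).1 (su_sug_ph K n τ)
  have p2 := (su_ph_iff hn _ _ (by omega)).1 (su_sug_ph K n σ)
  simp only [su_tz_mul, su_tz_inv, su_tz_pow, su_tz_W hw, su_tz_W hw'] at h1
  have hij : i = j := by
    have h2 : (n : ℤ) ∣ (i : ℤ) - j := by
      have := dvd_add (dvd_sub h1 p2) p1
      have e : -(-(i : ℤ) + 0 + tz (sug K n τ)) + (-(j : ℤ) + 0 + tz (sug K n σ)) -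
        (tz (sug K n σ) - ((n - 1 : ℕ) : ℤ)) + (tz (sug K n τ) - ((n - 1 : ℕ) : ℤ)) = (i : ℤ) - j := by ring
      rwa [e] at this
    have h3 : (i : ℤ) - j = 0 := by
      apply Int.eq_zero_of_abs_lt_dvd h2
      rw [abs_lt]; omega
    omega
  subst hij
  have h4 : (sug K n τ)⁻¹ * (w⁻¹ * w') * sug K n σ ∈ K := by
    have e : ((ft ^ i)⁻¹ * w * sug K n τ)⁻¹ * ((ft ^ i)⁻¹ * w' * sug K n σ) =
      (sug K n τ)⁻¹ * (w⁻¹ * w') * sug K n σ := by group
    rwa [e] at h
  have h5 : w⁻¹ * w' * (sug K n σ * (sug K n τ)⁻¹) ∈ K := by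
    have := hK.conj_mem _ h4 (sug K n τ)
    have e : sug K n τ * ((sug K n τ)⁻¹ * (w⁻¹ * w') * sug K n σ) * (sug K n τ)⁻¹ =
      w⁻¹ * w' * (sug K n σ * (sug K n τ)⁻¹) := by group
    rwa [e] at this
  have h6 : sug K n σ * (sug K n τ)⁻¹ ∈ W n ⊔ K := by
    have e : sug K n σ * (sug K n τ)⁻¹ = (w⁻¹ * w')⁻¹ * (w⁻¹ * w' * (sug K n σ * (sug K n τ)⁻¹)) := by group
    rw [e]
    exact mul_mem (Subgroup.mem_sup_left (inv_mem (mul_mem (inv_mem hw) hw')))
      (Subgroup.mem_sup_right h5)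
  have h7 : τ = σ := by
    rw [← Quotient.out_eq τ, ← Quotient.out_eq σ]
    apply Quotient.sound
    change (QuotientGroup.rightRel (W n ⊔ K)).r _ _
    exact QuotientGroup.rightRel_apply.2 h6
  subst h7
  refine ⟨rfl, rfl, ?_⟩
  simpa using h5

theorem su_fill (I : Inp) (r n : ℕ) (K Kinf : Subgroup F) (hr : Rad I r) (hn : 0 < n) (hK : K.Normal)
    (hd : Div n K) (hw : Win K n Kinf) (X : suT K n → F → ℕ) (hX : ∀ τ, X τ ∈ XS I Kinf) :
    ∃ y ∈ US I r n K, ∀ τ, ∀ i < n, ∀ w ∈ W n,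
      y ((ft ^ i)⁻¹ * w * sug K n τ) = X τ ((ft ^ i)⁻¹ * w) := by
  choose τ0 i0 hi0 w0 hw0 hk0 using su_dec K hK n hn
  have key : ∀ h τ i w, i < n → w ∈ W n → ((ft ^ i)⁻¹ * w * sug K n τ)⁻¹ * h ∈ K →
      X (τ0 h) ((ft ^ (i0 h))⁻¹ * w0 h) = X τ ((ft ^ i)⁻¹ * w) := by
    intro h τ i w hi hwm hk
    have h1 : ((ft ^ (i0 h))⁻¹ * w0 h * sug K n (τ0 h))⁻¹ * ((ft ^ i)⁻¹ * w * sug K n τ) ∈ K := by
      have := mul_mem (hk0 h) (inv_mem hk)
      have e : ((ft ^ (i0 h))⁻¹ * w0 h * sug K n (τ0 h))⁻¹ * h *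
        (((ft ^ i)⁻¹ * w * sug K n τ)⁻¹ * h)⁻¹ =
        ((ft ^ (i0 h))⁻¹ * w0 h * sug K n (τ0 h))⁻¹ * ((ft ^ i)⁻¹ * w * sug K n τ) := by group
      rwa [e] at this
    obtain ⟨e1, e2, e3⟩ := su_uniq K hK n hn hd _ _ _ _ (hi0 h) hi _ _ (hw0 h) hwm h1
    rw [e1, e2]
    have h2 := (hX τ).1.2 ((ft ^ i)⁻¹ * w0 h) _ (hw.2 _ (mul_mem (inv_mem (hw0 h)) hwm) e3)
    rw [← h2]
    congr 1
    group
  refine ⟨fun h => X (τ0 h) ((ft ^ (i0 h))⁻¹ * w0 h), ⟨⟨fun g => (hX _).1.1 _, ?_⟩, ?_⟩, ?_⟩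
  · intro g κ hκ
    apply key (g * κ) (τ0 g) (i0 g) (w0 g) (hi0 g) (hw0 g)
    rw [← mul_assoc]
    exact mul_mem (hk0 g) hκ
  · intro h h1 h2 P hP hcon
    have hph : ph n h = n - 1 - i0 h := by
      rw [su_ph_iff hn _ _ (by omega)]
      have d1 := hd _ (hk0 h)
      simp only [su_tz_mul, su_tz_inv, su_tz_pow, su_tz_W (hw0 h)] at d1
      have p1 := (su_ph_iff hn _ _ (by omega)).1 (su_sug_ph K n (τ0 h))
      have hlt := hi0 h
      have := dvd_add d1 p1
      have e : -(-(i0 h : ℤ) + 0 + tz (sug K n (τ0 h))) + tz h + (tz (sug K n (τ0 h)) - ((n - 1 : ℕ) : ℤ)) =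
        tz h - ((n - 1 - i0 h : ℕ) : ℤ) := by omega
      rwa [e] at this
    have hlt := hi0 h
    apply (hX (τ0 h)).2 ((ft ^ (i0 h))⁻¹ * w0 h) P hP
    intro q hq
    rw [← hcon q hq]
    obtain ⟨i', e1, e2, e3, e4⟩ := path q.1 r (i0 h) (hr P hP q hq) (by omega)
    have e5 : ft ^ i' * FreeGroup.mk q.1 * (ft ^ (i0 h))⁻¹ ∈ W n := W_mono (by omega) e4
    have e6 := key (FreeGroup.mk q.1 * h) (τ0 h) i'
      (ft ^ i' * FreeGroup.mk q.1 * (ft ^ (i0 h))⁻¹ * w0 h) (by omega) (mul_mem e5 (hw0 h)) (by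
        have e : ((ft ^ i')⁻¹ * (ft ^ i' * FreeGroup.mk q.1 * (ft ^ (i0 h))⁻¹ * w0 h) *
          sug K n (τ0 h))⁻¹ * (FreeGroup.mk q.1 * h) =
          ((ft ^ (i0 h))⁻¹ * w0 h * sug K n (τ0 h))⁻¹ * h := by group
        rw [e]; exact hk0 h)
    change _ = X (τ0 (FreeGroup.mk q.1 * h)) ((ft ^ (i0 (FreeGroup.mk q.1 * h)))⁻¹ * w0 (FreeGroup.mk q.1 * h))
    rw [e6]
    congr 1
    group
  · intro τ i hi w hwm
    exact key _ τ i w hi hwm (by rw [inv_mul_cancel]; exact one_mem _)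

theorem su_fin (k : ℕ) (K : Subgroup F) (hK : FN K) : (Cfg k K).Finite := by
  haveI := hK.normal
  haveI := hK.fin
  haveI : Finite (F ⧸ K) := inferInstance
  let Φ : (F → ℕ) → (F ⧸ K → ℕ) := fun x c => x (Quotient.out c)
  have h1 : (Φ '' Cfg k K).Finite := by
    apply (Set.Finite.pi (fun _ : F ⧸ K => Set.finite_Iio k)).subset
    rintro _ ⟨x, hx, rfl⟩
    intro c _
    exact hx.1 _
  apply Set.Finite.of_finite_image h1
  intro x hx y hy hxy
  funext g
  have h2 : ((Quotient.out (g : F ⧸ K))⁻¹ * g) ∈ K := by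
    rw [← QuotientGroup.eq]
    exact QuotientGroup.out_eq' (g : F ⧸ K)
  have h3 : x (Quotient.out (g : F ⧸ K)) = y (Quotient.out (g : F ⧸ K)) := congrFun hxy (g : F ⧸ K)
  have h4 := hx.2 (Quotient.out (g : F ⧸ K)) _ h2
  have h5 := hy.2 (Quotient.out (g : F ⧸ K)) _ h2
  rw [mul_inv_cancel_left] at h4 h5
  rw [h4, h5, h3]

/-- Upper bound for the entropy of the limit group. Let E be the set of the elements t^{-i} w_h, i < n, where w_h ∈ W n are representatives of the image of W n in F/K (finite); by Win and Div they are distinct modulo Kinf (and modulo K). F/K is partitioned into K.index / |E| tiles T(g) = {t^{-i} w g : i < n, w ∈ W n} (g of phase n-1). If every tile T(g) is filled with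
the restriction of some x_g ∈ XS I Kinf to E (x (t^{-i} w_h g) := x_g (t^{-i} w_h)), then the resulting colouring of F/K is in US I r n K: by the path lemma for a point h = t^{-i} w g with r ≤ i, i + r < n and a word u of length ≤ r the element u t^{-i} w is t^{-i'} w' with i' < n and w' ∈ W n, and if w', w'' ∈ W n are equal modulo K they are equal modulo Kinf.
Hence (NX I Kinf E) ^ (K.index / |E|) ≤ ncard (US I r n K), so log (NX)/|E| ≤ lu. In particular if US is empty then NX I Kinf E = 0, so XS I Kinf is empty (log 0 = 0 and lu ≥ 0 in any case). The choice of one top point g in each tile is arbitrary. -/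
theorem su (I : Inp) (r n : ℕ) (K Kinf : Subgroup F) (hr : Rad I r) (hn : 0 < n) (hK : FN K)
    (hinf : Kinf.Normal) (hd : Div n K) (hw : Win K n Kinf) :
    (US I r n K = ∅ → XS I Kinf = ∅) ∧
    ∃ E : Finset F, E.Nonempty ∧ Dist Kinf E ∧
      Real.log (NX I Kinf E : ℝ) / (E.card : ℝ) ≤ lu I r n K := by
  classical
  have hKn := hK.normal
  haveI := hK.normal
  haveI := hK.fin
  haveI hfin : Finite (F ⧸ K) := inferInstance
  constructor
  · intro hU
    by_contra hne
    obtain ⟨x, hx⟩ := Set.nonempty_iff_ne_empty.2 hne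
    obtain ⟨y, hy, -⟩ := su_fill I r n K Kinf hr hn hKn hd hw (fun _ => x) (fun _ => hx)
    rw [hU] at hy
    exact hy
  · -- representatives of the classes of the window
    let H : Subgroup (F ⧸ K) := (W n).map (QuotientGroup.mk' K)
    have hrep : ∀ c : H, ∃ w ∈ W n, QuotientGroup.mk' K w = c.1 := fun c => by
      obtain ⟨w, hw1, hw2⟩ := Subgroup.mem_map.1 c.2
      exact ⟨w, hw1, hw2⟩
    choose rep hrepW hrepc using hrep
    haveI : Finite H := inferInstance
    haveI : Fintype H := Fintype.ofFinite H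
    let e : Fin n × H → F := fun p => (ft ^ (p.1 : ℕ))⁻¹ * rep p.2
    let E : Finset F := Finset.univ.image e
    have hE1 : 0 < E.card := by
      rw [Finset.card_pos]
      exact ⟨e (⟨0, hn⟩, 1), Finset.mem_image_of_mem _ (Finset.mem_univ _)⟩
    -- finiteness
    have hUfin : (US I r n K).Finite := (su_fin I.1 K hK).subset (fun x hx => hx.1)
    -- finiteness of the set of tiles
    have hTfin : Finite (suT K n) := by
      apply Finite.of_injective (fun τ : suT K n => (sug K n τ : F ⧸ K))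
      intro τ σ hτσ
      have h1 : (sug K n τ)⁻¹ * sug K n σ ∈ K := QuotientGroup.eq.1 hτσ
      exact (su_uniq K hKn n hn hd τ σ 0 0 hn hn 1 1 (one_mem _) (one_mem _) (by simpa using h1)).2.1
    -- the tiles cover
    have hcov : K.index ≤ E.card * Nat.card (suT K n) := by
      have : Function.Surjective (fun p : E × suT K n => ((p.1.1 * sug K n p.2 : F) : F ⧸ K)) := by
        intro c
        obtain ⟨h, rfl⟩ := QuotientGroup.mk_surjective c
        obtain ⟨τ, i, hi, w, hwm, hk⟩ := su_dec K hKn n hn h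
        let c : H := ⟨QuotientGroup.mk' K w, Subgroup.mem_map_of_mem _ hwm⟩
        refine ⟨⟨⟨e (⟨i, hi⟩, c), Finset.mem_image_of_mem _ (Finset.mem_univ _)⟩, τ⟩, ?_⟩
        have h1 : ((rep c : F) : F ⧸ K) = (w : F ⧸ K) := hrepc c
        have h2 : (((ft ^ i)⁻¹ * w * sug K n τ : F) : F ⧸ K) = (h : F ⧸ K) := QuotientGroup.eq.2 hk
        rw [← h2]
        change (((ft ^ i)⁻¹ * rep c * sug K n τ : F) : F ⧸ K) = _
        rw [QuotientGroup.mk_mul, QuotientGroup.mk_mul, h1, ← QuotientGroup.mk_mul, ← QuotientGroup.mk_mul]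
      have h3 := Nat.card_le_card_of_surjective _ this
      rw [Nat.card_prod] at h3
      simpa [Subgroup.index] using h3
    refine ⟨E, Finset.card_pos.1 hE1, ?_, ?_⟩
    · -- distinct
      intro g hg h hh hgh
      obtain ⟨⟨i, c⟩, -, rfl⟩ := Finset.mem_image.1 hg
      obtain ⟨⟨j, d⟩, -, rfl⟩ := Finset.mem_image.1 hh
      have h1 := hw.1 hgh
      have h2 := hd _ h1
      simp only [e, su_tz_mul, su_tz_inv, su_tz_pow, su_tz_W (hrepW c), su_tz_W (hrepW d)] at h2
      have h3 : i = j := by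
        have h3 : (i : ℤ) - (j : ℤ) = 0 := by
          apply Int.eq_zero_of_abs_lt_dvd (m := (n : ℤ))
          · have e : -(-(i : ℤ) + 0) + (-(j : ℤ) + 0) = (i : ℤ) - (j : ℤ) := by ring
            rwa [e] at h2
          · have := i.2
            have := j.2
            rw [abs_lt]; omega
        apply Fin.ext
        omega
      subst h3
      have h4 : (rep c)⁻¹ * rep d ∈ K := by
        have e' : (e (i, c))⁻¹ * e (i, d) = (rep c)⁻¹ * rep d := by simp only [e]; group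
        rwa [e'] at h1
      have h5 : c = d := by
        apply Subtype.ext
        rw [← hrepc c, ← hrepc d]
        exact QuotientGroup.eq.2 h4
      rw [h5]
    · -- the inequality
      have hidx : 0 < K.index := Nat.pos_of_ne_zero Subgroup.FiniteIndex.index_ne_zero
      set R : Set (↥(E : Set F) → ℕ) := (fun x : F → ℕ => (E : Set F).domRestrict x) '' XS I Kinf with hR
      have hNX : NX I Kinf E = R.ncard := rfl
      have hlu : 0 ≤ lu I r n K := div_nonneg (Real.log_natCast_nonneg _) (Nat.cast_nonneg _)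
      rcases Nat.eq_zero_or_pos (R.ncard) with h0 | h0
      · rw [hNX, h0]; simpa using hlu
      · have hRfin : R.Finite := Set.finite_of_ncard_pos h0
        have hpow : R.ncard ^ Nat.card (suT K n) ≤ (US I r n K).ncard := by
          have hch : ∀ r' : R, ∃ x ∈ XS I Kinf, (E : Set F).domRestrict x = r'.1 := fun r' => r'.2
          choose xx hxx1 hxx2 using hch
          have hf : ∀ φ : suT K n → R, ∃ y ∈ US I r n K, ∀ τ, ∀ i < n, ∀ w ∈ W n,
              y ((ft ^ i)⁻¹ * w * sug K n τ) = xx (φ τ) ((ft ^ i)⁻¹ * w) := fun φ =>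
            su_fill I r n K Kinf hr hn hKn hd hw (fun τ => xx (φ τ)) (fun τ => hxx1 _)
          choose yy hyy1 hyy2 using hf
          haveI : Finite R := hRfin
          haveI : Finite (US I r n K) := hUfin
          have hinj : Function.Injective (fun φ : suT K n → R => (⟨yy φ, hyy1 φ⟩ : US I r n K)) := by
            intro φ ψ hφψ
            have h1 : yy φ = yy ψ := congrArg Subtype.val hφψ
            funext τ
            apply Subtype.ext
            rw [← hxx2 (φ τ), ← hxx2 (ψ τ)]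
            funext ⟨g, hg⟩
            obtain ⟨⟨i, c⟩, -, rfl⟩ := Finset.mem_image.1 (Finset.mem_coe.1 hg)
            change xx (φ τ) ((ft ^ (i : ℕ))⁻¹ * rep c) = xx (ψ τ) ((ft ^ (i : ℕ))⁻¹ * rep c)
            rw [← hyy2 φ τ i i.2 _ (hrepW c), ← hyy2 ψ τ i i.2 _ (hrepW c), h1]
          have h2 := Nat.card_le_card_of_injective _ hinj
          rw [Nat.card_fun] at h2
          simpa [Set.ncard] using h2
        have h1 : (Nat.card (suT K n) : ℝ) * Real.log (R.ncard : ℝ) ≤ Real.log ((US I r n K).ncard : ℝ) := by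
          rw [← Real.log_pow]
          apply Real.log_le_log
          · positivity
          · exact_mod_cast hpow
        have h2 : 0 ≤ Real.log (R.ncard : ℝ) := Real.log_natCast_nonneg _
        rw [hNX, lu, div_le_div_iff₀ (by exact_mod_cast hE1) (by exact_mod_cast hidx)]
        have h3 : (K.index : ℝ) ≤ (E.card : ℝ) * (Nat.card (suT K n) : ℝ) := by exact_mod_cast hcov
        calc Real.log (R.ncard : ℝ) * (K.index : ℝ)
            ≤ Real.log (R.ncard : ℝ) * ((E.card : ℝ) * (Nat.card (suT K n) : ℝ)) :=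
              mul_le_mul_of_nonneg_left h3 h2
          _ = ((Nat.card (suT K n) : ℝ) * Real.log (R.ncard : ℝ)) * (E.card : ℝ) := by ring
          _ ≤ Real.log ((US I r n K).ncard : ℝ) * (E.card : ℝ) :=
              mul_le_mul_of_nonneg_right h1 (Nat.cast_nonneg _)

end Pool.Agent.Helper948.Ent.C1
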