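import Pool.Agent.Helper948.Ent.Defs

/- solved by helper333 -/


set_option autoImplicit false

namespace Pool.Agent.Helper948.Ent.C4
open Pool.Agent.Helper948.Dom Pool.Agent.Helper948.Ent






-- TARGET
theorem bad_exists_count {G : Type} [Group G] [Finite G] (H1 H2 E : Subgroup G) (e1 : E ≤ H1)
    (e2 : E ≤ H2) (n1 : ¬ H1 ≤ E) (n2 : ¬ H2 ≤ E) :
    ∃ ψ : G ⧸ E → ZMod 2, ¬ ∃ (φ : G ⧸ H1 → ZMod 2) (φ' : G ⧸ H2 → ZMod 2),
      ∀ g : G, ψ (g : G ⧸ E) = φ (g : G ⧸ H1) + φ' (g : G ⧸ H2) := by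
  by_contra hcon
  push Not at hcon
  let T : (G ⧸ H1 → ZMod 2) × (G ⧸ H2 → ZMod 2) → (G ⧸ E → ZMod 2) := fun p y =>
    p.1 (Subgroup.quotientMapOfLE e1 y) + p.2 (Subgroup.quotientMapOfLE e2 y)
  have hsurj : Function.Surjective T := by
    intro ψ
    obtain ⟨φ, φ', h⟩ := hcon ψ
    refine ⟨(φ, φ'), ?_⟩
    funext y
    induction y using QuotientGroup.induction_on with
    | H g => exact (h g).symm
  have i1 : E.relIndex H1 * H1.index = E.index := Subgroup.relIndex_mul_index e1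
  have i2 : E.relIndex H2 * H2.index = E.index := Subgroup.relIndex_mul_index e2
  have he : E.index ≠ 0 := Subgroup.index_ne_zero_of_finite
  have two1 : 2 ≤ E.relIndex H1 := by
    have h0 : E.relIndex H1 ≠ 0 := by
      intro h; rw [h, zero_mul] at i1; exact he i1.symm
    have h1 : E.relIndex H1 ≠ 1 := fun h => n1 (Subgroup.relIndex_eq_one.1 h)
    omega
  have two2 : 2 ≤ E.relIndex H2 := by
    have h0 : E.relIndex H2 ≠ 0 := by
      intro h; rw [h, zero_mul] at i2; exact he i2.symm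
    have h1 : E.relIndex H2 ≠ 1 := fun h => n2 (Subgroup.relIndex_eq_one.1 h)
    omega
  have hle : H1.index + H2.index ≤ E.index := by nlinarith
  have hcard : Nat.card ((G ⧸ H1 → ZMod 2) × (G ⧸ H2 → ZMod 2)) ≤ Nat.card (G ⧸ E → ZMod 2) := by
    rw [Nat.card_prod, Nat.card_fun, Nat.card_fun, Nat.card_fun, Nat.card_zmod, ← pow_add]
    exact Nat.pow_le_pow_right (by norm_num) hle
  have hbij := hsurj.bijective_of_nat_card_le hcard
  have heq : T (fun _ => 1, fun _ => 1) = T (fun _ => 0, fun _ => 0) := by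
    funext y
    show (1 : ZMod 2) + 1 = 0 + 0
    decide
  have h3 := hbij.1 heq
  have h4 : (1 : ZMod 2) = 0 :=
    congrArg (fun p : (G ⧸ H1 → ZMod 2) × (G ⧸ H2 → ZMod 2) => p.1 ((1 : G) : G ⧸ H1)) h3
  exact absurd h4 (by decide)

theorem bad_exists_inv (c : F → ZMod 2) (g : F) : co c ft⁻¹ g = c (ft⁻¹ * g) := by
  have h := co_mul c ft ft⁻¹ g
  rw [mul_inv_cancel, co_one, co_ft] at h
  exact (CharTwo.add_eq_zero.1 h.symm).symm

theorem bad_exists_conj (c : F → ZMod 2) (w g : F) :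
    co c (ft * w * ft⁻¹) g = c (w * (ft⁻¹ * g)) + co c w (ft⁻¹ * g) + c (ft⁻¹ * g) := by
  rw [co_mul, co_mul, co_ft, bad_exists_inv]

theorem bad_exists_A (c : F → ZMod 2) (m : ℕ) (hc : ∀ w ∈ W m, ∀ g, c (w * g) = c g) :
    ∀ i ≤ m, ∀ g, co c (A i) g = 0 := by
  intro i
  induction i with
  | zero => intro _ g; rw [A_zero, co_fa]
  | succ i ih =>
    intro hi g
    rw [← A_succ, bad_exists_conj, ih (by omega), hc _ (A_mem (by omega)), add_zero,
      CharTwo.add_self_eq_zero]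

theorem bad_exists_W (c : F → ZMod 2) (m : ℕ) (hc : ∀ w ∈ W m, ∀ g, c (w * g) = c g) :
    ∀ w ∈ W (m + 1), ∀ g, co c w g = 0 := by
  intro w hw
  rw [W] at hw
  induction hw using Subgroup.closure_induction with
  | mem x hx =>
    obtain ⟨i, hi, rfl⟩ := hx
    exact bad_exists_A c m hc i (by omega)
  | one => intro g; exact co_one c g
  | mul x y _ _ hx hy => intro g; rw [co_mul, hx, hy, add_zero]
  | inv x _ hx =>
    intro g
    have h := co_mul c x x⁻¹ g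
    rw [mul_inv_cancel, co_one, hx, zero_add] at h
    exact h.symm

/-- Existence of a twist. Write H1 = W (m+1), H2 = t W (m+1) t⁻¹ ⊆ W (m+2), E = t (W m) t⁻¹ ⊆ H1 ∩ H2; W (m+2) is generated by H1 and H2 (it is generated by A 0, ..., A (m+1)). All modulo K1; let O be the image of W (m+2) in F/K1, a finite group, and let a bar denote images. Because of ND K m (A m ∉ (W m) K, so also not in (W m) K1; conjugating by t: A (m+1) ∉ E K1; and ND gives [H2bar : Ebar] ≥ 2;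
also [H1bar : Ebar] ≥ 2 since |H1bar| = |H2bar| (conjugation by t)). Suppose that for every c : F → ZMod 2 which is right K1-invariant and left W m-invariant we have co c u g = 0 for all u ∈ K1 ∩ W (m+2) and all g (values in ZMod 2 are 0 or 1). We derive a contradiction by counting. For such c, co c w g = 0 for all w ∈ W (m+1): for A i, i ≤ m, co c (A i) g = co c (t^i) (a t^{-i} g) + co c (t^{-i}) g,
a sum of terms c (A (i-j) t^{-j} g) + c (t^{-j} g), 1 ≤ j ≤ i, and A (i-j) ∈ W m (better: prove by induction on i that co c (t w t⁻¹) g = c (w t⁻¹ g) + co c w (t⁻¹ g) + c (t⁻¹ g), so co c (t w t⁻¹) = 0 for w ∈ W m if co c w = 0 for w ∈ W m; and co_mul). Fix g = 1 and the orbit W (m+2) K1. Since co c u 1 = 0 for u ∈ K1 ∩ W (m+2) (and co c u (g κ) = co c u g for κ ∈ K1) the function φ (w) := co c w 1, w ∈ W (m+2), is well defined on O (right K1-invariant).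
It satisfies φ (h w) = φ w for h ∈ H1, and for h ∈ H2, h = t w' t⁻¹ with w' ∈ W (m+1): co c h w = c (w' t⁻¹ w) + 0 + c (t⁻¹ w) = c (t⁻¹ h w) + c (t⁻¹ w), so φ'(w) := φ w + c (t⁻¹ w) is invariant under H2. So the function w ↦ c (t⁻¹ w) on O is a sum φ + φ' of a left H1bar-invariant and a left H2bar-invariant function. As c varies over all admissible functions, w ↦ c (t⁻¹ w) on O is an arbitrary left Ebar-invariant function on O (t⁻¹ E = (W m) t⁻¹; extend by 0 outside of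
t⁻¹ O K1). So the map (φ, φ') ↦ φ + φ' from pairs of H1bar- and H2bar-invariant functions O → ZMod 2 onto Ebar-invariant functions is surjective, and not injective since (1,1) ↦ 0, hence 2^(|O|/|Ebar|) < 2^(|O|/|H1bar| + |O|/|H2bar|) ≤ 2^(|O|/|Ebar|), because |Hibar| ≥ 2 |Ebar|. Contradiction. -/
theorem bad_exists (K K1 : Subgroup F) (m : ℕ) (h : Cond K m) (h1 : Cond K1 (m + 1))
    (hE : Ext K m K1) : ∃ c : F → ZMod 2, (∀ g, ∀ κ ∈ K1, c (g * κ) = c g) ∧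
      (∀ w ∈ W m, ∀ g, c (w * g) = c g) ∧ ∃ u ∈ K1, u ∈ W (m + 2) ∧ ∃ g, co c u g = 1 := by
  classical
  by_contra hcon
  push Not at hcon
  have hcon0 : ∀ c : F → ZMod 2, (∀ g, ∀ κ ∈ K1, c (g * κ) = c g) →
      (∀ w ∈ W m, ∀ g, c (w * g) = c g) → ∀ u ∈ K1, u ∈ W (m + 2) → ∀ g, co c u g = 0 := by
    intro c hc1 hc2 u hu1 hu2 g
    have h3 := hcon c hc1 hc2 u hu1 hu2 g
    have h4 : ∀ x : ZMod 2, x ≠ 1 → x = 0 := by decide
    exact h4 _ h3
  have := h1.fn.normal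
  have := h1.fn.fin
  let q : F →* F ⧸ K1 := QuotientGroup.mk' K1
  have hq : ∀ x y : F, q x = q y → x * y⁻¹ ∈ K1 := by
    intro x y hxy
    rw [← QuotientGroup.eq_one_iff]
    show q (x * y⁻¹) = 1
    rw [map_mul, map_inv, hxy, mul_inv_cancel]
  let O : Subgroup (F ⧸ K1) := (W (m + 2)).map q
  let H1 : Subgroup (F ⧸ K1) := (W (m + 1)).map q
  let cj : (F ⧸ K1) →* (F ⧸ K1) := (MulAut.conj (q ft)).toMonoidHom
  have hcj : Function.Injective cj := (MulAut.conj (q ft)).injective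
  have hcja : ∀ x : F, cj (q x) = q (ft * x * ft⁻¹) := by
    intro x
    show q ft * q x * (q ft)⁻¹ = _
    rw [map_mul, map_mul, map_inv]
  let H2 : Subgroup (F ⧸ K1) := H1.map cj
  let E : Subgroup (F ⧸ K1) := ((W m).map q).map cj
  have hH1O : H1 ≤ O := Subgroup.map_mono (W_mono (by omega))
  have hH2O : H2 ≤ O := by
    rintro _ ⟨_, ⟨w, hw, rfl⟩, rfl⟩
    rw [hcja]
    exact ⟨_, conj_mem hw, rfl⟩
  have hE1 : E ≤ H1 := by
    rintro _ ⟨_, ⟨w, hw, rfl⟩, rfl⟩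
    rw [hcja]
    exact ⟨_, conj_mem hw, rfl⟩
  have hE2 : E ≤ H2 := Subgroup.map_mono (Subgroup.map_mono (W_mono (by omega)))
  have hn2 : ¬ H2 ≤ E := by
    intro hle
    have hm : cj (q (A m)) ∈ E := hle ⟨_, ⟨A m, A_mem (by omega), rfl⟩, rfl⟩
    obtain ⟨_, ⟨w, hw, rfl⟩, h5⟩ := hm
    have h6 : q (A m) = q w := (hcj h5).symm
    exact h.nd w hw (hE.1 (hq _ _ h6))
  have hn1 : ¬ H1 ≤ E := by
    intro hle
    have e : E = H1 := le_antisymm hE1 hle
    have hc : Nat.card H2 = Nat.card H1 := Subgroup.card_map_of_injective hcj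
    have : E = H2 := Subgroup.eq_of_le_of_card_ge hE2 (by rw [hc, e])
    exact hn2 this.ge
  obtain ⟨ψ, hψ⟩ := bad_exists_count (H1.subgroupOf O) (H2.subgroupOf O) (E.subgroupOf O)
    (Subgroup.comap_mono hE1) (Subgroup.comap_mono hE2)
    (by
      intro hle
      apply hn1
      intro x hx
      exact hle (show (⟨x, hH1O hx⟩ : O) ∈ H1.subgroupOf O from hx))
    (by
      intro hle
      apply hn2
      intro x hx
      exact hle (show (⟨x, hH2O hx⟩ : O) ∈ H2.subgroupOf O from hx))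
  apply hψ
  let c : F → ZMod 2 := fun g => if hg : q (ft * g) ∈ O then
    ψ (((⟨q (ft * g), hg⟩ : O)⁻¹ : O) : O ⧸ E.subgroupOf O) else 0
  have cval : ∀ (g : F) (x : O), q (ft * g) = x → c g = ψ ((x⁻¹ : O) : O ⧸ E.subgroupOf O) := by
    intro g x hx
    have hg : q (ft * g) ∈ O := hx ▸ x.2
    have hx' : (⟨q (ft * g), hg⟩ : O) = x := Subtype.ext hx
    show (if hg : q (ft * g) ∈ O then
      ψ (((⟨q (ft * g), hg⟩ : O)⁻¹ : O) : O ⧸ E.subgroupOf O) else 0) = _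
    rw [dif_pos hg, hx']
  have cval0 : ∀ g : F, q (ft * g) ∉ O → c g = 0 := fun g hg => dif_neg hg
  have hc1 : ∀ g, ∀ κ ∈ K1, c (g * κ) = c g := by
    intro g κ hκ
    have hqq : q (ft * (g * κ)) = q (ft * g) := by
      have : q κ = 1 := (QuotientGroup.eq_one_iff κ).2 hκ
      rw [← mul_assoc, map_mul q (ft * g) κ, this, mul_one]
    by_cases hg : q (ft * g) ∈ O
    · rw [cval g ⟨_, hg⟩ rfl, cval (g * κ) ⟨_, hg⟩ hqq]
    · rw [cval0 g hg, cval0 (g * κ) (by rw [hqq]; exact hg)]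
  have hc2 : ∀ w ∈ W m, ∀ g, c (w * g) = c g := by
    intro w hw g
    have hwE : q (ft * w * ft⁻¹) ∈ E := by
      rw [← hcja]; exact ⟨_, ⟨w, hw, rfl⟩, rfl⟩
    have hwO : q (ft * w * ft⁻¹) ∈ O := hH1O (hE1 hwE)
    have hqq : q (ft * (w * g)) = q (ft * w * ft⁻¹) * q (ft * g) := by
      rw [← map_mul]; congr 1; group
    by_cases hg : q (ft * g) ∈ O
    · rw [cval g ⟨_, hg⟩ rfl, cval (w * g) (⟨_, hwO⟩ * ⟨_, hg⟩) hqq]
      congr 1
      rw [QuotientGroup.eq]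
      show ((((⟨_, hwO⟩ * ⟨_, hg⟩ : O)⁻¹)⁻¹ * (⟨_, hg⟩ : O)⁻¹ : O) : F ⧸ K1) ∈ E
      have : ((((⟨_, hwO⟩ * ⟨_, hg⟩ : O)⁻¹)⁻¹ * (⟨_, hg⟩ : O)⁻¹ : O) : F ⧸ K1)
          = q (ft * w * ft⁻¹) := by
        push_cast
        group
      rw [this]
      exact hwE
    · rw [cval0 g hg, cval0 (w * g) ?_]
      rw [hqq]
      intro hmem
      exact hg ((Subgroup.mul_mem_cancel_left O hwO).1 hmem)
  have hu := hcon0 c hc1 hc2
  have hW := bad_exists_W c m hc2
  have hrp : ∀ x : O, ∃ w, w ∈ W (m + 2) ∧ q w = x := fun x => Subgroup.mem_map.1 x.2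
  choose rp hrp1 hrp2 using hrp
  let φ0 : O → ZMod 2 := fun x => co c (rp x) 1
  have key : ∀ w ∈ W (m + 2), ∀ x : O, q w = x → co c w 1 = φ0 x := by
    intro w hw x hx
    have h5 : w * (rp x)⁻¹ ∈ K1 := hq _ _ (by rw [hx, hrp2])
    have h6 : w * (rp x)⁻¹ ∈ W (m + 2) := mul_mem hw (inv_mem (hrp1 x))
    have h7 : w = (w * (rp x)⁻¹) * rp x := by group
    rw [h7, co_mul, hu _ h5 h6, zero_add]
  have k1 : ∀ x y : O, x⁻¹ * y ∈ H1.subgroupOf O → φ0 x⁻¹ = φ0 y⁻¹ := by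
    intro x y hxy
    obtain ⟨w, hw, hw'⟩ := (show ((x⁻¹ * y : O) : F ⧸ K1) ∈ H1 from hxy)
    have h5 : q (w⁻¹ * rp x⁻¹) = ((y⁻¹ : O) : F ⧸ K1) := by
      rw [map_mul, map_inv, hrp2, hw']
      push_cast
      group
    have h6 := key _ (mul_mem (inv_mem (W_mono (by omega) hw)) (hrp1 x⁻¹)) _ h5
    rw [← h6, co_mul, hW _ (inv_mem hw), zero_add]
  have k2 : ∀ x y : O, x⁻¹ * y ∈ H2.subgroupOf O →
      φ0 x⁻¹ + ψ (x : O ⧸ E.subgroupOf O) = φ0 y⁻¹ + ψ (y : O ⧸ E.subgroupOf O) := by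
    intro x y hxy
    obtain ⟨_, ⟨w, hw, rfl⟩, hw'⟩ := (show ((x⁻¹ * y : O) : F ⧸ K1) ∈ H2 from hxy)
    rw [hcja] at hw'
    have h5 : q ((ft * w⁻¹ * ft⁻¹) * rp x⁻¹) = ((y⁻¹ : O) : F ⧸ K1) := by
      have h51 : ft * w⁻¹ * ft⁻¹ = (ft * w * ft⁻¹)⁻¹ := by group
      rw [map_mul, h51, map_inv, hrp2, hw']
      push_cast
      group
    have h6 := key _ (mul_mem (conj_mem (inv_mem hw)) (hrp1 x⁻¹)) _ h5
    have h7 : c (ft⁻¹ * rp x⁻¹) = ψ (x : O ⧸ E.subgroupOf O) := by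
      rw [cval (ft⁻¹ * rp x⁻¹) x⁻¹ (by rw [← hrp2 x⁻¹]; congr 1; group), inv_inv]
    have h8 : c (w⁻¹ * (ft⁻¹ * rp x⁻¹)) = ψ (y : O ⧸ E.subgroupOf O) := by
      rw [cval (w⁻¹ * (ft⁻¹ * rp x⁻¹)) y⁻¹ (by rw [← h5]; congr 1; group), inv_inv]
    rw [← h6, co_mul, bad_exists_conj, hW _ (inv_mem hw), mul_one, h7, h8]
    show co c (rp x⁻¹) 1 + _ = _
    generalize co c (rp x⁻¹) 1 = r
    generalize ψ (x : O ⧸ E.subgroupOf O) = a
    generalize ψ (y : O ⧸ E.subgroupOf O) = b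
    revert r a b
    decide
  refine ⟨fun z => Quotient.liftOn' z (fun x => φ0 x⁻¹) ?_,
    fun z => Quotient.liftOn' z (fun x => φ0 x⁻¹ + ψ (x : O ⧸ E.subgroupOf O)) ?_, ?_⟩
  · intro x y hxy
    exact k1 x y (QuotientGroup.leftRel_apply.1 hxy)
  · intro x y hxy
    exact k2 x y (QuotientGroup.leftRel_apply.1 hxy)
  · intro x
    show ψ (x : O ⧸ E.subgroupOf O) = φ0 x⁻¹ + (φ0 x⁻¹ + ψ (x : O ⧸ E.subgroupOf O))
    rw [← add_assoc, CharTwo.add_self_eq_zero, zero_add]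

end Pool.Agent.Helper948.Ent.C4
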