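import Pool.Agent.Helper948.Ent.Defs

/- solved by helper393 -/


set_option autoImplicit false

namespace Pool.Agent.Helper948.Ent.C5
open Pool.Agent.Helper948.Dom Pool.Agent.Helper948.Ent






-- TARGET
theorem tw_sub_inv (c : F → ZMod 2) (u g : F) : co c u⁻¹ g = - co c u (u⁻¹ * g) := by
  have h := co_mul c u u⁻¹ g
  rw [mul_inv_cancel, co_one] at h
  exact eq_neg_of_add_eq_zero_right h.symm

theorem tw_sub_inv' (K1 : Subgroup F) (c : F → ZMod 2)
    (hc : ∀ g, ∀ κ ∈ K1, c (g * κ) = c g) (u : F) :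
    ∀ g, ∀ κ ∈ K1, co c u (g * κ) = co c u g := by
  induction u using FreeGroup.induction_on with
  | C1 => intro g κ _; rw [co_one, co_one]
  | of i =>
    intro g κ hκ
    fin_cases i
    · exact (co_fa c _).trans (co_fa c _).symm
    · exact (co_ft c _).trans ((hc g κ hκ).trans (co_ft c _).symm)
  | inv_of i ih =>
    intro g κ hκ
    rw [tw_sub_inv, tw_sub_inv, ← mul_assoc, ih _ κ hκ]
  | mul u v hu hv =>
    intro g κ hκ
    rw [co_mul, co_mul, ← mul_assoc, hu _ κ hκ, hv _ κ hκ]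

theorem tw_sub_A (m : ℕ) (c : F → ZMod 2) (hcw : ∀ w ∈ W m, ∀ g, c (w * g) = c g) (i : ℕ) :
    i ≤ m → ∀ g, co c (A i) g = 0 := by
  induction i with
  | zero => intro _ g; rw [A_zero, co_fa]
  | succ i ih =>
    intro hi g
    rw [← A_succ, co_mul, co_mul, ih (by omega), co_ft, tw_sub_inv, co_ft,
      hcw _ (A_mem (by omega)), add_zero, add_neg_cancel]

theorem tw_sub_W (m : ℕ) (c : F → ZMod 2) (hcw : ∀ w ∈ W m, ∀ g, c (w * g) = c g) (w : F)
    (hw : w ∈ W (m + 1)) : ∀ g, co c w g = 0 := by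
  rw [W] at hw
  induction hw using Subgroup.closure_induction with
  | mem x hx =>
    obtain ⟨i, hi, rfl⟩ := hx
    exact tw_sub_A m c hcw i (by omega)
  | one => intro g; exact co_one c g
  | mul x y _ _ hx hy => intro g; rw [co_mul, hx, hy, add_zero]
  | inv x _ hx => intro g; rw [tw_sub_inv, hx, neg_zero]

/-- the homomorphism to functions on the quotient -/
noncomputable def tw_sub_hom (K1 K2 : Subgroup F) (hn : K1.Normal) (hle : K2 ≤ K1) (c : F → ZMod 2)
    (hc : ∀ g, ∀ κ ∈ K1, c (g * κ) = c g) : K2 →* ((F ⧸ K1) → Multiplicative (ZMod 2)) where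
  toFun κ := fun q => Multiplicative.ofAdd (co c κ.1 q.out)
  map_one' := by
    funext q
    show Multiplicative.ofAdd (co c 1 q.out) = 1
    rw [co_one]
    rfl
  map_mul' := by
    intro x y
    funext q
    show Multiplicative.ofAdd (co c (x.1 * y.1) q.out) =
      Multiplicative.ofAdd (co c x.1 q.out) * Multiplicative.ofAdd (co c y.1 q.out)
    rw [← ofAdd_add]
    congr 1
    rw [co_mul]
    congr 1
    have e : y.1 * q.out = q.out * (q.out⁻¹ * y.1 * q.out) := by group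
    rw [e]
    apply tw_sub_inv' K1 c hc
    have h1 : q.out⁻¹ * y.1 * (q.out⁻¹)⁻¹ ∈ K1 := hn.conj_mem _ (hle y.2) _
    rwa [inv_inv] at h1


/-- The twisted subgroup. co c u (g κ) = co c u g for κ ∈ K1 (induction on u, or: the permutation (g, ε) ↦ (g κ, ε) commutes with Th c). K3 := {κ ∈ K2 | ∀ g, co c κ g = 0} is a subgroup by co_mul (for κ, κ' ∈ K2 ≤ K1: co c (κ κ') g = co c κ (κ' g) + co c κ' g and κ' g = g (g⁻¹ κ' g)); it is normal: co c (h κ h⁻¹) g = co c h (κ h⁻¹ g) + co c κ (h⁻¹ g) + co c h⁻¹ g, and co c h (κ h⁻¹ g) = co c h (h⁻¹ g (conjugate of κ)) = co c h (h⁻¹ g), and co c h (h⁻¹ g) + co c h⁻¹ g = co c 1 g = 0.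
Finite index: K3 is the kernel of the map κ ↦ (g ↦ co c κ g) from K2 to functions on the finite set F/K1 with values in ZMod 2 (a homomorphism on K2); e.g. K3 is the intersection of K2 with the intersections over representatives g of F/K1 of subgroups of index ≤ 2. Win: for w ∈ W (m+1), co c w g = 0 for all g: by co_mul it is enough for w = A i, i ≤ m; co c (t w t⁻¹) g = c (w t⁻¹ g) + co c w (t⁻¹ g) + c (t⁻¹ g) (use co_mul, co_ft and 0 = co c (t t⁻¹) g), which vanishes for w ∈ W m with co c w = 0 because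
c is left W m-invariant; induct on i (A (i+1) = t (A i) t⁻¹, A i ∈ W m for i < m). -/
theorem tw_sub (K1 K2 : Subgroup F) (m : ℕ) (hK1 : FN K1) (hK2 : FN K2) (hle : K2 ≤ K1)
    (c : F → ZMod 2) (hc : ∀ g, ∀ κ ∈ K1, c (g * κ) = c g) (hcw : ∀ w ∈ W m, ∀ g, c (w * g) = c g) :
    ∃ K3 : Subgroup F, (∀ κ, κ ∈ K3 ↔ κ ∈ K2 ∧ ∀ g, co c κ g = 0) ∧ FN K3 ∧ Win K2 (m + 1) K3 := by
  have hn1 := hK1.normal
  have hn2 := hK2.normal
  have hf1 := hK1.fin
  have hf2 := hK2.fin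
  let K3 : Subgroup F :=
    { carrier := {κ | κ ∈ K2 ∧ ∀ g, co c κ g = 0}
      mul_mem' := by
        rintro a b ⟨ha, ha'⟩ ⟨hb, hb'⟩
        exact ⟨mul_mem ha hb, fun g => by rw [co_mul, ha', hb', add_zero]⟩
      one_mem' := ⟨one_mem _, fun g => co_one c g⟩
      inv_mem' := by
        rintro a ⟨ha, ha'⟩
        exact ⟨inv_mem ha, fun g => by rw [tw_sub_inv, ha', neg_zero]⟩ }
  have hmem : ∀ κ, κ ∈ K3 ↔ κ ∈ K2 ∧ ∀ g, co c κ g = 0 := fun κ => Iff.rfl
  refine ⟨K3, hmem, ⟨⟨?_⟩, ⟨?_⟩⟩, ?_, ?_⟩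
  · intro κ hκ h
    rw [hmem] at hκ ⊢
    refine ⟨hn2.conj_mem _ hκ.1 _, fun g => ?_⟩
    rw [co_mul, co_mul, hκ.2, add_zero]
    have e : κ * (h⁻¹ * g) = (h⁻¹ * g) * ((h⁻¹ * g)⁻¹ * κ * (h⁻¹ * g)) := by group
    have h1 : (h⁻¹ * g)⁻¹ * κ * ((h⁻¹ * g)⁻¹)⁻¹ ∈ K1 := hn1.conj_mem _ (hle hκ.1) _
    rw [inv_inv] at h1
    rw [e, tw_sub_inv' K1 c hc h _ _ h1, ← co_mul, mul_inv_cancel, co_one]
  · have e : K3 = (tw_sub_hom K1 K2 hn1 hle c hc).ker.map K2.subtype := by
      ext κ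
      rw [hmem, Subgroup.mem_map]
      constructor
      · rintro ⟨h1, h2⟩
        refine ⟨⟨κ, h1⟩, ?_, rfl⟩
        rw [MonoidHom.mem_ker]
        funext q
        show Multiplicative.ofAdd (co c κ q.out) = 1
        rw [h2]
        rfl
      · rintro ⟨⟨x, hx⟩, h1, h2⟩
        have h2' : x = κ := h2
        subst h2'
        refine ⟨hx, fun g => ?_⟩
        rw [MonoidHom.mem_ker] at h1
        have h3 : Multiplicative.ofAdd (co c x ((g : F ⧸ K1)).out) = 1 :=
          congrFun h1 (g : F ⧸ K1)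
        have h4 : co c x ((g : F ⧸ K1)).out = 0 := h3
        have h5 : ((g : F ⧸ K1)).out⁻¹ * g ∈ K1 := by
          rw [← QuotientGroup.eq]
          exact QuotientGroup.out_eq' _
        have h6 := tw_sub_inv' K1 c hc x ((g : F ⧸ K1)).out _ h5
        rw [mul_inv_cancel_left] at h6
        rw [h6, h4]
    rw [e, Subgroup.index_map_subtype]
    exact mul_ne_zero Subgroup.FiniteIndex.index_ne_zero Subgroup.FiniteIndex.index_ne_zero
  · intro κ hκ
    exact hκ.1
  · intro w hw hwK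
    exact ⟨hwK, tw_sub_W m c hcw w hw⟩

end Pool.Agent.Helper948.Ent.C5
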