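import Pool.Agent.Helper948.Ent.Defs
import Pool.Agent.Helper948.Ent.A6

/- solved by helper681 -/


set_option autoImplicit false

namespace Pool.Agent.Helper948.Ent.C6
open Pool.Agent.Helper948.Dom Pool.Agent.Helper948.Ent Pool.Agent.Helper948.Ent.A6








-- TARGET
theorem lift_step_coinv (K1 : Subgroup F) (c : F → ZMod 2)
    (hc : ∀ g, ∀ κ ∈ K1, c (g * κ) = c g) (u : F) :
    ∀ g, ∀ κ ∈ K1, co c u (g * κ) = co c u g := by
  induction u using FreeGroup.induction_on with
  | C1 => intro g κ hκ; rw [co_one, co_one]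
  | of i =>
    intro g κ hκ
    fin_cases i
    · change co c fa _ = co c fa _
      rw [co_fa, co_fa]
    · change co c ft _ = co c ft _
      rw [co_ft, co_ft, hc g κ hκ]
  | inv_of i ih =>
    intro g κ hκ
    have key : ∀ u g, co c u⁻¹ g = - co c u (u⁻¹ * g) := by
      intro u g
      have h := co_mul c u u⁻¹ g
      rw [mul_inv_cancel, co_one] at h
      exact eq_neg_of_add_eq_zero_right h.symm
    rw [key, key, ← mul_assoc, ih _ κ hκ]
  | mul u v hu hv =>
    intro g κ hκ
    rw [co_mul, co_mul, ← mul_assoc, hu _ κ hκ, hv _ κ hκ]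

theorem lift_step_av (x : F → ℕ) (g : F) : Av I0 x g ↔
    (¬ (x g = 1 ∧ x (fa * g) = 1)) ∧ ¬ (x g = 1 ∧ x (ft * g) = 1) := by
  have h0 : (FreeGroup.mk ([] : List (Fin 2 × Bool))) = (1 : F) := rfl
  have h1 : (FreeGroup.mk [((0 : Fin 2), true)]) = fa := rfl
  have h2 : (FreeGroup.mk [((1 : Fin 2), true)]) = ft := rfl
  unfold Av I0
  simp only [List.forall_mem_cons, List.not_mem_nil, false_implies, implies_true, and_true, h0, h1,
    h2, one_mul]

theorem lift_step_ph (n : ℕ) (L : Subgroup F) (hd : Div n L) (g κ : F) (hκ : κ ∈ L) :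
    ph n (g * κ) = ph n g := by
  obtain ⟨q, hq⟩ := hd κ hκ
  have h : tz (g * κ) = tz g + n * q := by
    rw [← hq]
    simp [tz]
  unfold ph
  rw [h, Int.add_mul_emod_self_left]

theorem lift_step_fin (L : Subgroup F) (hfin : L.FiniteIndex) (k : ℕ) : (Cfg k L).Finite := by
  classical
  haveI := hfin
  have hsub : Cfg k L ⊆ Set.range (fun (w : F ⧸ L → Fin k) (g : F) => ((w (g : F ⧸ L) : Fin k) : ℕ)) := by
    rintro x ⟨hx1, hx2⟩
    refine ⟨fun v => ⟨x v.out, hx1 _⟩, ?_⟩
    funext g
    obtain ⟨κ, hκ⟩ := QuotientGroup.mk_out_eq_mul L g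
    change x (Quotient.out (g : F ⧸ L)) = x g
    rw [hκ]
    exact hx2 g κ κ.2
  exact (Set.finite_range _).subset hsub

/-- Two-fold covers do not increase the number of independent sets. The hard core model I0, r = 1: x ∈ US I0 1 n L iff x : F → {0,1} is right L-invariant and for all g with 1 ≤ ph n g, ph n g + 1 < n: not (x g = 1 and x (a g) = 1), not (x g = 1 and x (t g) = 1). κ ↦ co c κ g0 is a homomorphism on L (L ≤ K1, K1 normal, c right K1-invariant, so co c u (g κ) = co c u g for κ ∈ K1), so L' = L or L' has index 2 in L. If L' = L the claim is trivial. Otherwise choose for every class q ∈ F/L (left cosets g L) a representative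
q.out; for g ∈ F put ε g = co c g g0 + co c (q.out) g0 where q = class of g ( = co c (q.out⁻¹ g) g0). Then g L' ↦ (g L, ε g) is a bijection from F/L' to V × ZMod 2, V = F/L. Graph on V: E v u s iff for g = v.out: 1 ≤ ph n g, ph n g + 1 < n and ((u = class of a g and s = ε (a g)) or (u = class of t g and s = ε (t g))). Then for all g in the class v: ε (a g) = ε g + s, ε (t g) = ε g + s' with the corresponding s (as co c (a g) g0 = co c g g0, co c (t g) g0 = c (g g0) + co c g g0 and c (g g0) only depends on the class of g modulo K1 — g0 times: g κ g0 = g g0 (g0⁻¹ κ g0)). So US I0 1 n L' ≅ Ind1 E and US I0 1 n L ≅ Ind0 E.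
b v = par of v.out (as an element of ZMod 2; well defined on F/L by hpar, raised by one by a and by t). Then lift2 (GIVEN) gives ncard (US L') ≤ ncard (Cons E) ≤ (ncard (Ind0 E))^2 = ncard (US L)^2; the index doubles; take logarithms (both sets are nonempty, contain 0). -/
theorem lift_step (K1 : Subgroup F) (hK1 : FN K1) (c : F → ZMod 2)
    (hc : ∀ g, ∀ κ ∈ K1, c (g * κ) = c g) (n : ℕ) (hn : 0 < n) (L L' : Subgroup F) (hL : L ≤ K1)
    (hfin : L.FiniteIndex) (hd : Div n L) (hpar : ∀ κ ∈ L, par κ = 1) (g0 : F)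
    (hL' : ∀ κ, κ ∈ L' ↔ κ ∈ L ∧ co c κ g0 = 0) :
    L'.FiniteIndex ∧ lu I0 1 n L' ≤ lu I0 1 n L := by
  classical
  haveI := hK1.normal
  haveI := hfin
  obtain ⟨φ, hφ⟩ : ∃ φ : F → ZMod 2, φ = fun g => co c g g0 := ⟨_, rfl⟩
  have hφκ : ∀ g, ∀ κ ∈ L, φ (g * κ) = φ g + φ κ := by
    intro g κ hκ
    simp only [hφ]
    rw [co_mul]
    have h1 : κ * g0 = g0 * (g0⁻¹ * κ * g0) := by group
    rw [h1, lift_step_coinv K1 c hc]
    have h2 := hK1.normal.conj_mem κ (hL hκ) g0⁻¹
    simpa using h2
  have hL2 : ∀ κ, κ ∈ L' ↔ κ ∈ L ∧ φ κ = 0 := by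
    intro κ
    rw [hL' κ, hφ]
  have hLL : L' ≤ L := fun κ h => ((hL' κ).1 h).1
  let χ : L →* Multiplicative (ZMod 2) := MonoidHom.mk' (fun κ => Multiplicative.ofAdd (φ κ)) (by
    intro a b
    rw [Subgroup.coe_mul, hφκ _ _ b.2]
    rfl)
  have hker : L'.subgroupOf L = χ.ker := by
    ext κ
    rw [Subgroup.mem_subgroupOf, MonoidHom.mem_ker, hL2]
    constructor
    · rintro ⟨_, h⟩
      change Multiplicative.ofAdd (φ κ) = 1
      rw [h]
      rfl
    · intro h
      exact ⟨κ.2, h⟩
  have hidx : L'.index = Nat.card χ.range * L.index := by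
    rw [← Subgroup.relIndex_mul_index hLL, Subgroup.relIndex, hker, Subgroup.index_ker]
  have hcard : Nat.card χ.range ≠ 0 := Nat.card_pos.ne'
  have hfin' : L'.FiniteIndex := ⟨by rw [hidx]; exact mul_ne_zero hcard hfin.index_ne_zero⟩
  refine ⟨hfin', ?_⟩
  by_cases hall : ∀ κ ∈ L, φ κ = 0
  · have hLe : L' = L := by
      ext κ
      rw [hL2]
      exact ⟨fun h => h.1, fun h => ⟨h, hall κ h⟩⟩
    rw [hLe]
  push Not at hall
  obtain ⟨κ1, hκ1, hφ1⟩ := hall
  have hφ1' : φ κ1 = 1 := by
    have h : ∀ a : ZMod 2, a ≠ 0 → a = 1 := by decide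
    exact h _ hφ1
  have hcard2 : Nat.card χ.range = 2 := by
    have hsurj : Function.Surjective χ := by
      intro y
      have h01 : ∀ a : ZMod 2, a = 0 ∨ a = 1 := by decide
      rcases h01 (Multiplicative.toAdd y) with h | h
      · refine ⟨1, ?_⟩
        rw [map_one]
        exact (congrArg Multiplicative.ofAdd h).symm
      · refine ⟨⟨κ1, hκ1⟩, ?_⟩
        change Multiplicative.ofAdd (φ κ1) = y
        rw [hφ1']
        exact (congrArg Multiplicative.ofAdd h).symm
    rw [MonoidHom.range_eq_top.2 hsurj, Subgroup.card_top]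
    simp
  have hφone : φ 1 = 0 := by
    have h := hφκ 1 1 L.one_mem
    rw [mul_one] at h
    exact left_eq_add.mp h
  have h2 : ∀ a : ZMod 2, a + a = 0 := by decide
  let V := F ⧸ L
  let cls : F → V := fun g => (g : F ⧸ L)
  let out : V → F := fun v => Quotient.out v
  have hclsout : ∀ v, cls (out v) = v := fun v => Quotient.out_eq' v
  have hclsmul : ∀ g, ∀ κ ∈ L, cls (g * κ) = cls g := fun g κ hκ => QuotientGroup.mk_mul_of_mem g hκ
  have hclseq : ∀ g h, cls g = cls h → g⁻¹ * h ∈ L := fun g h e => QuotientGroup.eq.1 e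
  obtain ⟨ep, hep⟩ : ∃ ep : F → ZMod 2, ep = fun g => φ g + φ (out (cls g)) := ⟨_, rfl⟩
  have hepκ : ∀ g, ∀ κ ∈ L, ep (g * κ) = ep g + φ κ := by
    intro g κ hκ
    simp only [hep]
    rw [hclsmul g κ hκ, hφκ g κ hκ]
    ring
  have hepout : ∀ v, ep (out v) = 0 := by
    intro v
    simp only [hep]
    rw [hclsout]
    exact h2 _
  obtain ⟨kk, hkk⟩ : ∃ kk : ZMod 2 → F, kk = fun e => if e = 0 then 1 else κ1 := ⟨_, rfl⟩
  have hkkL : ∀ e, kk e ∈ L := by
    intro e
    simp only [hkk]
    split_ifs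
    · exact L.one_mem
    · exact hκ1
  have hφkk : ∀ e, φ (kk e) = e := by
    intro e
    have h01 : ∀ a : ZMod 2, a ≠ 0 → a = 1 := by decide
    simp only [hkk]
    split_ifs with h
    · rw [hφone, h]
    · rw [hφ1', h01 e h]
  let rep : V → ZMod 2 → F := fun v e => out v * kk e
  have hrep3 : ∀ g, ∃ κ' ∈ L', g = rep (cls g) (ep g) * κ' := by
    intro g
    have h1 : cls (rep (cls g) (ep g)) = cls g := by
      simp only [rep]
      rw [hclsmul _ _ (hkkL _), hclsout]
    have h3 := hclseq _ _ h1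
    refine ⟨(rep (cls g) (ep g))⁻¹ * g, ?_, by group⟩
    rw [hL2]
    refine ⟨h3, ?_⟩
    have h4 : ep g = ep (rep (cls g) (ep g)) + φ ((rep (cls g) (ep g))⁻¹ * g) := by
      rw [← hepκ _ _ h3]
      congr 1
      group
    have h5 : ep (rep (cls g) (ep g)) = ep g := by
      simp only [rep]
      rw [hepκ _ _ (hkkL _), hepout, hφkk, zero_add]
    rw [h5] at h4
    exact left_eq_add.mp h4
  let E : V → V → ZMod 2 → Prop := fun v u s => 1 ≤ ph n (out v) ∧ ph n (out v) + 1 < n ∧
    ((u = cls (fa * out v) ∧ s = ep (fa * out v)) ∨ (u = cls (ft * out v) ∧ s = ep (ft * out v)))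
  let b : V → ZMod 2 := fun v => Multiplicative.toAdd (par (out v))
  have hparout : ∀ g, par (out (cls g)) = par g := by
    intro g
    have h1 := hclseq g (out (cls g)) (hclsout (cls g)).symm
    have h3 := hpar _ h1
    rw [map_mul, map_inv, inv_mul_eq_one] at h3
    exact h3.symm
  have hb : ∀ v u c, E v u c → b u = b v + 1 := by
    rintro v u s ⟨_, _, ⟨hu, _⟩ | ⟨hu, _⟩⟩
    · simp only [b]
      rw [hu, hparout, map_mul, toAdd_mul, add_comm]
      congr 1
    · simp only [b]
      rw [hu, hparout, map_mul, toAdd_mul, add_comm]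
      congr 1
  have hstep1 : (US I0 1 n L').ncard ≤ (Ind1 E).ncard := by
    apply Set.ncard_le_ncard_of_injOn
      (fun (x : F → ℕ) (p : V × ZMod 2) => decide (x (rep p.1 p.2) = 1))
    · rintro x ⟨⟨hx1, hx2⟩, hx3⟩ v u s ε ⟨hp1, hp2, hE⟩ ⟨hy1, hy2⟩
      simp only [decide_eq_true_eq] at hy1 hy2
      have hphg : ph n (rep v ε) = ph n (out v) := lift_step_ph n L hd _ _ (hkkL ε)
      have hav := hx3 (rep v ε) (by rw [hphg]; exact hp1) (by rw [hphg]; exact hp2)
      rw [lift_step_av] at hav
      have hw : ∀ w : F, u = cls (w * out v) → s = ep (w * out v) →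
          x (w * rep v ε) = x (rep u (ε + s)) := by
        intro w hu hs
        have h1 : cls (w * rep v ε) = u := by
          simp only [rep]
          rw [← mul_assoc, hclsmul _ _ (hkkL _), hu]
        have h3 : ep (w * rep v ε) = ε + s := by
          simp only [rep]
          rw [← mul_assoc, hepκ _ _ (hkkL _), hφkk, hs, add_comm]
        obtain ⟨κ', hκ', he⟩ := hrep3 (w * rep v ε)
        rw [h1, h3] at he
        rw [he]
        exact hx2 _ _ hκ'
      rcases hE with ⟨hu, hs⟩ | ⟨hu, hs⟩
      · exact hav.1 ⟨hy1, by rw [hw fa hu hs]; exact hy2⟩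
      · exact hav.2 ⟨hy1, by rw [hw ft hu hs]; exact hy2⟩
    · rintro x ⟨⟨hx1, hx2⟩, _⟩ y ⟨⟨hy1, hy2⟩, _⟩ hxy
      funext g
      obtain ⟨κ', hκ', he⟩ := hrep3 g
      have h1 := congrFun hxy (cls g, ep g)
      simp only [decide_eq_decide] at h1
      rw [he, hx2 _ _ hκ', hy2 _ _ hκ']
      have h3 := hx1 (rep (cls g) (ep g))
      have h4 := hy1 (rep (cls g) (ep g))
      have h5 : I0.1 = 2 := rfl
      rw [h5] at h3 h4
      by_cases h6 : x (rep (cls g) (ep g)) = 1
      · rw [h6, h1.1 h6]
      · have h7 : y (rep (cls g) (ep g)) ≠ 1 := fun h => h6 (h1.2 h)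
        omega
  have hstep2 : (Ind0 E).ncard ≤ (US I0 1 n L).ncard := by
    apply Set.ncard_le_ncard_of_injOn
      (fun (x : V → Bool) (g : F) => if x (cls g) = true then 1 else 0)
      (ht := (lift_step_fin L hfin _).subset fun x hx => hx.1)
    · intro x hx
      refine ⟨⟨fun g => ?_, fun g κ hκ => ?_⟩, fun g hg1 hg2 => ?_⟩
      · have h5 : I0.1 = 2 := rfl
        rw [h5]
        simp only
        split_ifs <;> norm_num
      · simp only
        rw [hclsmul g κ hκ]
      · rw [lift_step_av]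
        have hg : ph n (out (cls g)) = ph n g := by
          have h1 := hclseq g (out (cls g)) (hclsout (cls g)).symm
          have h3 := lift_step_ph n L hd g _ h1
          rw [mul_inv_cancel_left] at h3
          exact h3
        have hclw : ∀ w : F, cls (w * g) = cls (w * out (cls g)) := by
          intro w
          have h1 := hclseq g (out (cls g)) (hclsout (cls g)).symm
          have h3 := hclsmul (w * g) _ h1
          rw [← h3]
          congr 1
          group
        constructor
        · rintro ⟨h1, h3⟩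
          have h1' : x (cls g) = true := by
            by_contra hne
            simp [hne] at h1
          have h3' : x (cls (fa * g)) = true := by
            by_contra hne
            simp [hne] at h3
          exact hx (cls g) (cls (fa * g)) (ep (fa * out (cls g)))
            ⟨by rw [hg]; exact hg1, by rw [hg]; exact hg2, Or.inl ⟨hclw fa, rfl⟩⟩ ⟨h1', h3'⟩
        · rintro ⟨h1, h3⟩
          have h1' : x (cls g) = true := by
            by_contra hne
            simp [hne] at h1
          have h3' : x (cls (ft * g)) = true := by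
            by_contra hne
            simp [hne] at h3
          exact hx (cls g) (cls (ft * g)) (ep (ft * out (cls g)))
            ⟨by rw [hg]; exact hg1, by rw [hg]; exact hg2, Or.inr ⟨hclw ft, rfl⟩⟩ ⟨h1', h3'⟩
    · intro x _ y _ hxy
      funext v
      have h1 := congrFun hxy (out v)
      simp only [hclsout] at h1
      cases hxv : x v <;> cases hyv : y v <;> simp_all
  have hstep3 : (Cons E).ncard ≤ (Ind0 E).ncard * (Ind0 E).ncard := by
    rw [← Set.ncard_prod]
    apply Set.ncard_le_ncard _ (Set.toFinite _)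
    rintro p ⟨h1, h3, _⟩
    exact ⟨h1, h3⟩
  have hmain : (US I0 1 n L').ncard ≤ (US I0 1 n L).ncard * (US I0 1 n L).ncard :=
    (hstep1.trans ((lift2 E b hb).trans hstep3)).trans (Nat.mul_le_mul hstep2 hstep2)
  have hLpos : 0 < (L.index : ℝ) := by
    have := hfin.index_ne_zero
    positivity
  unfold lu
  rw [hidx, hcard2]
  push_cast
  rw [div_le_div_iff₀ (by positivity) hLpos]
  have hlog : Real.log ((US I0 1 n L').ncard : ℝ) ≤ 2 * Real.log ((US I0 1 n L).ncard : ℝ) := by
    rcases Nat.eq_zero_or_pos (US I0 1 n L').ncard with h0 | h0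
    · rw [h0]
      have := Real.log_natCast_nonneg (US I0 1 n L).ncard
      simp only [Nat.cast_zero, Real.log_zero]
      linarith
    · have h1 : ((US I0 1 n L').ncard : ℝ) ≤ ((US I0 1 n L).ncard : ℝ) ^ 2 := by
        rw [sq]
        exact_mod_cast hmain
      have h3 := Real.log_le_log (by exact_mod_cast h0) h1
      rw [Real.log_pow] at h3
      exact_mod_cast h3
  calc Real.log ((US I0 1 n L').ncard : ℝ) * (L.index : ℝ)
      ≤ (2 * Real.log ((US I0 1 n L).ncard : ℝ)) * (L.index : ℝ) :=
        mul_le_mul_of_nonneg_right hlog hLpos.le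
    _ = Real.log ((US I0 1 n L).ncard : ℝ) * (2 * (L.index : ℝ)) := by ring

end Pool.Agent.Helper948.Ent.C6
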