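import Pool.Agent.Helper948.Ent.Defs
import Pool.Agent.Helper948.Ent.A6
import Pool.Agent.Helper948.Ent.A7
import Pool.Agent.Helper948.Ent.A8

/- solved by helper504 -/


set_option autoImplicit false

namespace Pool.Agent.Helper948.Ent.C7
open Pool.Agent.Helper948.Dom Pool.Agent.Helper948.Ent Pool.Agent.Helper948.Ent.A6 Pool.Agent.Helper948.Ent.A7 Pool.Agent.Helper948.Ent.A8








-- TARGET
theorem gap_step_co_inv (c : F → ZMod 2) (y g : F) : co c y⁻¹ g = co c y (y⁻¹ * g) := by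
  have h := co_mul c y y⁻¹ g
  rw [mul_inv_cancel, co_one] at h
  have h2 : ∀ a b : ZMod 2, 0 = a + b → b = a := by decide
  exact h2 _ _ h

theorem gap_step_co_right (c : F → ZMod 2) (K : Subgroup F)
    (hc : ∀ g, ∀ κ ∈ K, c (g * κ) = c g) (u : F) :
    ∀ g, ∀ κ ∈ K, co c u (g * κ) = co c u g := by
  induction u using FreeGroup.induction_on with
  | C1 => intro g κ _; rw [co_one, co_one]
  | of i =>
    intro g κ hκ
    fin_cases i
    · show co c fa (g * κ) = co c fa g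
      rw [co_fa, co_fa]
    · show co c ft (g * κ) = co c ft g
      rw [co_ft, co_ft, hc g κ hκ]
  | inv_of i ih =>
    intro g κ hκ
    rw [gap_step_co_inv, gap_step_co_inv, ← mul_assoc, ih _ κ hκ]
  | mul u v hu hv =>
    intro g κ hκ
    rw [co_mul, co_mul, ← mul_assoc, hu _ κ hκ, hv _ κ hκ]

theorem gap_step_mk_cons (l : Fin 2 × Bool) (w : List (Fin 2 × Bool)) :
    ∃ y : F, (y = fa ∨ y = ft) ∧
      ((FreeGroup.mk (l :: w) : F) = y * FreeGroup.mk w ∨
        (FreeGroup.mk (l :: w) : F) = y⁻¹ * FreeGroup.mk w) := by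
  obtain ⟨i, b⟩ := l
  have h1 : (FreeGroup.mk ((i, b) :: w) : F) = FreeGroup.mk [(i, b)] * FreeGroup.mk w := by
    rw [FreeGroup.mul_mk]; rfl
  refine ⟨FreeGroup.of i, ?_, ?_⟩
  · fin_cases i
    · exact Or.inl rfl
    · exact Or.inr rfl
  · cases b
    · right; rw [h1]; rfl
    · left; rw [h1]; rfl

theorem gap_step_tz_mul (g h : F) : tz (g * h) = tz g + tz h := by simp [tz]
theorem gap_step_tz_inv (g : F) : tz g⁻¹ = - tz g := by simp [tz]
theorem gap_step_tz_one : tz (1 : F) = 0 := by simp [tz]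
theorem gap_step_tz_fa : tz fa = 0 := by simp [tz, tau, fa]
theorem gap_step_tz_ft : tz ft = 1 := by simp [tz, tau, ft]

theorem gap_step_tz_y {y : F} (hy : y = fa ∨ y = ft) : 0 ≤ tz y ∧ tz y ≤ 1 := by
  rcases hy with rfl | rfl
  · rw [gap_step_tz_fa]; norm_num
  · rw [gap_step_tz_ft]; norm_num

theorem gap_step_tz_mk (w : List (Fin 2 × Bool)) : |tz (FreeGroup.mk w : F)| ≤ w.length := by
  induction w with
  | nil =>
    have : (FreeGroup.mk [] : F) = 1 := rfl
    rw [this, gap_step_tz_one]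
    simp
  | cons l w ih =>
    obtain ⟨y, hy, h | h⟩ := gap_step_mk_cons l w
    · have hy1 := gap_step_tz_y hy
      rw [h, gap_step_tz_mul]
      rw [abs_le] at ih ⊢
      push_cast [List.length_cons]
      constructor <;> linarith [ih.1, ih.2, hy1.1, hy1.2]
    · have hy1 := gap_step_tz_y hy
      rw [h, gap_step_tz_mul, gap_step_tz_inv]
      rw [abs_le] at ih ⊢
      push_cast [List.length_cons]
      constructor <;> linarith [ih.1, ih.2, hy1.1, hy1.2]

theorem gap_step_par_y {y : F} (hy : y = fa ∨ y = ft) : Multiplicative.toAdd (par y) = 1 := by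
  rcases hy with rfl | rfl
  · simp [par, fa]
  · simp [par, ft]

theorem gap_step_par_mk (w : List (Fin 2 × Bool)) :
    Multiplicative.toAdd (par (FreeGroup.mk w : F)) = (w.length : ZMod 2) := by
  have hneg : ∀ a : ZMod 2, -a = a := by decide
  induction w with
  | nil =>
    have : (FreeGroup.mk [] : F) = 1 := rfl
    rw [this, map_one]
    simp
  | cons l w ih =>
    obtain ⟨y, hy, h | h⟩ := gap_step_mk_cons l w
    · rw [h, map_mul, toAdd_mul, ih, gap_step_par_y hy]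
      push_cast [List.length_cons]
      ring
    · rw [h, map_mul, toAdd_mul, map_inv, toAdd_inv, ih, gap_step_par_y hy, hneg]
      push_cast [List.length_cons]
      ring

theorem gap_step_ph (n : ℕ) (hn : 0 < n) (g : F) : (ph n g : ℤ) = tz g % n := by
  unfold ph
  exact Int.toNat_of_nonneg (Int.emod_nonneg _ (by exact_mod_cast hn.ne'))

theorem gap_step_ph_shift (n : ℕ) (hn : 0 < n) (g h : F) (k j : ℤ)
    (hk : tz h = tz g + k + n * j) (h0 : 0 ≤ (ph n g : ℤ) + k) (h1 : (ph n g : ℤ) + k < n) :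
    (ph n h : ℤ) = ph n g + k := by
  have hg := gap_step_ph n hn g
  rw [hg] at h0 h1 ⊢
  rw [gap_step_ph n hn h, hk]
  have e : tz g + k + n * j = (tz g % n + k) + n * (tz g / n + j) := by
    have := Int.emod_add_mul_ediv (tz g) n
    linear_combination -this
  rw [e, Int.add_mul_emod_self_left, Int.emod_eq_of_lt h0 h1]

theorem gap_step_ph_lt (n : ℕ) (hn : 0 < n) (g : F) : ph n g < n := by
  have h1 := gap_step_ph n hn g
  have h2 := Int.emod_lt_of_pos (tz g) (show (0:ℤ) < n by exact_mod_cast hn)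
  omega

theorem gap_step_ph_class (n : ℕ) (hn : 0 < n) (K2 : Subgroup F) (hdiv : Div n K2) {g h : F}
    (hgh : (g : F ⧸ K2) = (h : F ⧸ K2)) : ph n h = ph n g := by
  have h1 : g⁻¹ * h ∈ K2 := QuotientGroup.eq.mp hgh
  obtain ⟨j, hj⟩ := hdiv _ h1
  rw [gap_step_tz_mul, gap_step_tz_inv] at hj
  have h2 := gap_step_ph_shift n hn g h 0 j (by linarith) (by simp)
    (by rw [add_zero]; exact_mod_cast gap_step_ph_lt n hn g)
  rw [add_zero] at h2
  exact_mod_cast h2

theorem gap_step_av (x : F → ℕ) (g : F) :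
    Av I0 x g ↔ ∀ y : F, (y = fa ∨ y = ft) → ¬ (x g = 1 ∧ x (y * g) = 1) := by
  have e0 : (FreeGroup.mk [] : F) = 1 := rfl
  have e1 : (FreeGroup.mk [((0 : Fin 2), true)] : F) = fa := rfl
  have e2 : (FreeGroup.mk [((1 : Fin 2), true)] : F) = ft := rfl
  simp only [Av, I0, List.mem_cons, List.not_mem_nil, or_false, forall_eq_or_imp, forall_eq, e0,
    e1, e2, one_mul]

/-- the graph -/
def gap_step_E (n : ℕ) (K2 : Subgroup F) (c : F → ZMod 2) (g0 : F) (v w : F ⧸ K2)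
    (s : ZMod 2) : Prop :=
  ∃ g y : F, (y = fa ∨ y = ft) ∧ (g : F ⧸ K2) = v ∧ 1 ≤ ph n g ∧ ph n g + 1 < n ∧
    w = ((y * g : F) : F ⧸ K2) ∧ s = co c y (g * g0)

/-- right invariance through a conjugation -/
theorem gap_step_conj (K2 : Subgroup F) (hK2 : FN K2) (c : F → ZMod 2)
    (hcr : ∀ u g, ∀ κ ∈ K2, co c u (g * κ) = co c u g) (u g g' g0 : F)
    (h : (g : F ⧸ K2) = (g' : F ⧸ K2)) : co c u (g' * g0) = co c u (g * g0) := by
  have h1 : g⁻¹ * g' ∈ K2 := QuotientGroup.eq.mp h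
  have h2 : g0⁻¹ * (g⁻¹ * g') * g0 ∈ K2 := by
    have := hK2.normal.conj_mem _ h1 g0⁻¹
    simpa using this
  have h3 : g' * g0 = (g * g0) * (g0⁻¹ * (g⁻¹ * g') * g0) := by group
  rw [h3, hcr _ _ _ h2]

theorem gap_step_mem (K2 : Subgroup F) (hK2 : FN K2) (c : F → ZMod 2)
    (hcr : ∀ u g, ∀ κ ∈ K2, co c u (g * κ) = co c u g) (g0 : F) (L' : Subgroup F)
    (hL : ∀ κ, κ ∈ L' ↔ κ ∈ K2 ∧ co c κ g0 = 0) (g g' : F)
    (h : (g : F ⧸ K2) = (g' : F ⧸ K2)) (h' : co c g g0 = co c g' g0) : g⁻¹ * g' ∈ L' := by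
  have h1 : g⁻¹ * g' ∈ K2 := QuotientGroup.eq.mp h
  refine (hL _).mpr ⟨h1, ?_⟩
  have h2 : co c g' g0 = co c g ((g⁻¹ * g') * g0) + co c (g⁻¹ * g') g0 := by
    rw [← co_mul]
    congr 1
    group
  have h3 : co c g ((g⁻¹ * g') * g0) = co c g g0 := by
    have h4 : g0⁻¹ * (g⁻¹ * g') * g0 ∈ K2 := by
      have := hK2.normal.conj_mem _ h1 g0⁻¹
      simpa using this
    have h5 : (g⁻¹ * g') * g0 = g0 * (g0⁻¹ * (g⁻¹ * g') * g0) := by group
    rw [h5, hcr _ _ _ h4]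
  rw [h3, ← h'] at h2
  have h6 : ∀ a b : ZMod 2, a = a + b → b = 0 := by decide
  exact h6 _ _ h2

open Classical in
theorem gap_step_inj1 (n : ℕ) (hn : 0 < n) (K2 : Subgroup F) (hK2 : FN K2) (hdiv : Div n K2)
    (c : F → ZMod 2) (hcr : ∀ u g, ∀ κ ∈ K2, co c u (g * κ) = co c u g) (g0 : F)
    (L' : Subgroup F) (hL : ∀ κ, κ ∈ L' ↔ κ ∈ K2 ∧ co c κ g0 = 0) :
    ∃ f : (F → ℕ) → ((F ⧸ K2) × ZMod 2 → Bool),
      (∀ x ∈ US I0 1 n L', f x ∈ Ind1 (gap_step_E n K2 c g0)) ∧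
      Set.InjOn f (US I0 1 n L') := by
  refine ⟨fun x p => decide (∃ g : F, (g : F ⧸ K2) = p.1 ∧ co c g g0 = p.2 ∧ x g = 1), ?_, ?_⟩
  · rintro x ⟨⟨-, hxi⟩, hxa⟩
    intro v w s ε hE
    obtain ⟨g, y, hy, hgv, hp1, hp2, hw, hs⟩ := hE
    rintro ⟨h1, h2⟩
    obtain ⟨g1, hg1, hc1, hx1⟩ := of_decide_eq_true h1
    obtain ⟨g2, hg2, hc2, hx2⟩ := of_decide_eq_true h2
    have hgg : (g : F ⧸ K2) = (g1 : F ⧸ K2) := by rw [hgv]; exact hg1.symm
    have hcl : ((y * g1 : F) : F ⧸ K2) = (g2 : F ⧸ K2) := by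
      have e1 : ((y * g1 : F) : F ⧸ K2) = ((y * g : F) : F ⧸ K2) := by
        rw [QuotientGroup.eq]
        have h3 : g1⁻¹ * g ∈ K2 := QuotientGroup.eq.mp hgg.symm
        have h4 : (y * g1)⁻¹ * (y * g) = g1⁻¹ * g := by group
        rw [h4]
        exact h3
      rw [e1, ← hw]
      exact hg2.symm
    have hco : co c (y * g1) g0 = co c g2 g0 := by
      rw [co_mul, gap_step_conj K2 hK2 c hcr y g g1 g0 hgg, hc1, hc2, hs]
      exact add_comm _ _
    have hmem := gap_step_mem K2 hK2 c hcr g0 L' hL _ _ hcl hco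
    have hx3 : x (y * g1) = 1 := by
      have := hxi (y * g1) _ hmem
      rw [mul_inv_cancel_left] at this
      rw [← this]
      exact hx2
    have hph := gap_step_ph_class n hn K2 hdiv hgg
    have hav := hxa g1 (by omega) (by omega)
    exact (gap_step_av x g1).mp hav y hy ⟨hx1, hx3⟩
  · rintro x ⟨⟨hx2, hxi⟩, -⟩ x' ⟨⟨hx2', hxi'⟩, -⟩ hxx
    have key : ∀ (z : F → ℕ), (∀ g, ∀ κ ∈ L', z (g * κ) = z g) → ∀ g : F,
        (z g = 1 ↔ (fun p : (F ⧸ K2) × ZMod 2 =>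
          decide (∃ g : F, (g : F ⧸ K2) = p.1 ∧ co c g g0 = p.2 ∧ z g = 1))
          ((g : F ⧸ K2), co c g g0) = true) := by
      intro z hz g
      constructor
      · intro h
        exact decide_eq_true ⟨g, rfl, rfl, h⟩
      · intro h
        obtain ⟨g1, h1, h2, h3⟩ := of_decide_eq_true h
        have hmem := gap_step_mem K2 hK2 c hcr g0 L' hL _ _ h1 h2
        have := hz g1 _ hmem
        rw [mul_inv_cancel_left] at this
        rw [this]
        exact h3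
    funext g
    have h1 := key x hxi g
    have h2 := key x' hxi' g
    have h3 := congrFun hxx ((g : F ⧸ K2), co c g g0)
    beta_reduce at h1 h2 h3
    rw [h3] at h1
    have h4 : x g = 1 ↔ x' g = 1 := h1.trans h2.symm
    have h5 : x g < 2 := hx2 g
    have h6 : x' g < 2 := hx2' g
    omega

open Classical in
theorem gap_step_fin (n : ℕ) (K : Subgroup F) [K.FiniteIndex] : (US I0 1 n K).Finite := by
  have hfin : Finite (F ⧸ K) := inferInstance
  refine Set.Finite.of_injOn (f := fun (x : F → ℕ) (q : F ⧸ K) => decide (x q.out = 1))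
    (t := Set.univ) (fun _ _ => Set.mem_univ _) ?_ (Set.toFinite _)
  rintro x ⟨⟨hx2, hxi⟩, -⟩ x' ⟨⟨hx2', hxi'⟩, -⟩ hxx
  funext g
  have h1 : ∀ (z : F → ℕ), (∀ g, ∀ κ ∈ K, z (g * κ) = z g) → z g = z (g : F ⧸ K).out := by
    intro z hz
    have hmem : g⁻¹ * (g : F ⧸ K).out ∈ K := by
      apply QuotientGroup.eq.mp
      exact (QuotientGroup.out_eq' _).symm
    have := hz g _ hmem
    rw [mul_inv_cancel_left] at this
    exact this.symm
  have h3 := congrFun hxx (g : F ⧸ K)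
  beta_reduce at h3
  rw [decide_eq_decide, ← h1 x hxi, ← h1 x' hxi'] at h3
  have h5 : x g < 2 := hx2 g
  have h6 : x' g < 2 := hx2' g
  omega

open Classical in
theorem gap_step_inj0 (n : ℕ) (hn : 0 < n) (K2 : Subgroup F) (hK2 : FN K2) (hdiv : Div n K2)
    (c : F → ZMod 2) (g0 : F) :
    (Ind0 (gap_step_E n K2 c g0)).ncard ≤ (US I0 1 n K2).ncard := by
  have := hK2.fin
  refine Set.ncard_le_ncard_of_injOn
    (fun (y : F ⧸ K2 → Bool) (g : F) => if y (g : F ⧸ K2) = true then 1 else 0) ?_ ?_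
    (gap_step_fin n K2)
  · intro y hy
    refine ⟨⟨fun g => ?_, fun g κ hκ => ?_⟩, fun g hg1 hg2 => ?_⟩
    · show (if y (g : F ⧸ K2) = true then 1 else 0) < 2
      split_ifs <;> norm_num
    · have : ((g * κ : F) : F ⧸ K2) = (g : F ⧸ K2) := by
        rw [eq_comm, QuotientGroup.eq]
        simpa using hκ
      beta_reduce
      rw [this]
    · rw [gap_step_av]
      rintro z hz ⟨h1, h2⟩
      beta_reduce at h1 h2
      have h3 : y (g : F ⧸ K2) = true := by
        by_contra h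
        rw [if_neg h] at h1
        exact absurd h1 (by norm_num)
      have h4 : y ((z * g : F) : F ⧸ K2) = true := by
        by_contra h
        rw [if_neg h] at h2
        exact absurd h2 (by norm_num)
      exact hy _ _ _ ⟨g, z, hz, rfl, hg1, hg2, rfl, rfl⟩ ⟨h3, h4⟩
  · intro y _ y' _ hyy
    funext q
    obtain ⟨g, rfl⟩ := QuotientGroup.mk_surjective q
    have h := congrFun hyy g
    beta_reduce at h
    cases h1 : y (g : F ⧸ K2) <;> cases h2 : y' (g : F ⧸ K2) <;> simp_all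

theorem gap_step_par (n : ℕ) (K2 : Subgroup F) (hpar : ∀ κ ∈ K2, par κ = 1) (c : F → ZMod 2)
    (g0 : F) : ∃ b : F ⧸ K2 → ZMod 2, ∀ v w s, gap_step_E n K2 c g0 v w s → b w = b v + 1 := by
  have h0 : ∀ g : F, par ((g : F ⧸ K2).out) = par g := by
    intro g
    have hmem : g⁻¹ * (g : F ⧸ K2).out ∈ K2 :=
      QuotientGroup.eq.mp (QuotientGroup.out_eq' _).symm
    have h1 := hpar _ hmem
    rw [map_mul, map_inv, inv_mul_eq_one] at h1
    exact h1.symm
  refine ⟨fun v => Multiplicative.toAdd (par v.out), ?_⟩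
  rintro v w s ⟨g, y, hy, rfl, -, -, rfl, -⟩
  beta_reduce
  rw [h0, h0, map_mul, toAdd_mul, gap_step_par_y hy, add_comm]

theorem gap_step_hom (K2 : Subgroup F) (hK2 : FN K2) (c : F → ZMod 2)
    (hcr : ∀ u g, ∀ κ ∈ K2, co c u (g * κ) = co c u g) (g0 κ κ' : F) (h : κ' ∈ K2) :
    co c (κ * κ') g0 = co c κ g0 + co c κ' g0 := by
  rw [co_mul]
  congr 1
  have h2 : g0⁻¹ * κ' * g0 ∈ K2 := by
    have := hK2.normal.conj_mem _ h g0⁻¹
    simpa using this
  have h3 : κ' * g0 = g0 * (g0⁻¹ * κ' * g0) := by group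
  rw [h3, hcr _ _ _ h2]

theorem gap_step_kappa (K2 : Subgroup F) (hK2 : FN K2) (c : F → ZMod 2)
    (hcr : ∀ u g, ∀ κ ∈ K2, co c u (g * κ) = co c u g) (g0 g u : F) (hu : u ∈ K2) :
    co c (g⁻¹ * (u * g)) g0 = co c u (g * g0) := by
  rw [co_mul, co_mul, gap_step_co_inv]
  have h2 : g0⁻¹ * (g⁻¹ * u * g) * g0 ∈ K2 := by
    have h1 : g⁻¹ * u * g ∈ K2 := by
      have := hK2.normal.conj_mem _ hu g⁻¹
      simpa using this
    have := hK2.normal.conj_mem _ h1 g0⁻¹
    simpa using this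
  have h3 : g⁻¹ * (u * g * g0) = g0 * (g0⁻¹ * (g⁻¹ * u * g) * g0) := by group
  rw [h3, hcr _ _ _ h2]
  have h4 : ∀ a b : ZMod 2, a + (b + a) = b := by decide
  exact h4 _ _

theorem gap_step_index (K2 : Subgroup F) (hK2 : FN K2) (c : F → ZMod 2)
    (hcr : ∀ u g, ∀ κ ∈ K2, co c u (g * κ) = co c u g) (g0 : F) (L' : Subgroup F)
    (hL : ∀ κ, κ ∈ L' ↔ κ ∈ K2 ∧ co c κ g0 = 0) (κ0 : F) (hκ0 : κ0 ∈ K2)
    (h1 : co c κ0 g0 = 1) : L'.index = 2 * K2.index := by
  have hle : L' ≤ K2 := fun κ hκ => ((hL κ).mp hκ).1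
  have h2 : L'.relIndex K2 = 2 := by
    unfold Subgroup.relIndex
    rw [Subgroup.index_eq_two_iff]
    refine ⟨⟨κ0, hκ0⟩, fun b => ?_⟩
    have h3 : co c ((b : F) * κ0) g0 = co c (b : F) g0 + 1 := by
      rw [gap_step_hom K2 hK2 c hcr g0 _ _ hκ0, h1]
    have h4 : (b * ⟨κ0, hκ0⟩ ∈ L'.subgroupOf K2) ↔ co c (b : F) g0 + 1 = 0 := by
      rw [Subgroup.mem_subgroupOf]
      constructor
      · intro h
        have := ((hL _).mp h).2
        rw [← h3]
        exact this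
      · intro h
        refine (hL _).mpr ⟨(b * ⟨κ0, hκ0⟩ : K2).2, ?_⟩
        rw [← h3] at h
        exact h
    have h5 : (b ∈ L'.subgroupOf K2) ↔ co c (b : F) g0 = 0 := by
      rw [Subgroup.mem_subgroupOf]
      constructor
      · intro h
        exact ((hL _).mp h).2
      · intro h
        exact (hL _).mpr ⟨b.2, h⟩
    rw [h4, h5]
    generalize co c (b : F) g0 = a
    revert a
    decide
  rw [← Subgroup.relIndex_mul_index hle, h2]

theorem gap_step_smul_out (n : ℕ) (K2 : Subgroup F) (hdiv : Div n K2) (x : F) (q : F ⧸ K2) :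
    ∃ j : ℤ, tz (x • q).out = tz q.out + tz x + n * j := by
  have h1 : ((x * q.out : F) : F ⧸ K2) = (((x • q).out : F) : F ⧸ K2) := by
    rw [QuotientGroup.out_eq']
    have h2 : x • q = x • ((q.out : F) : F ⧸ K2) := by rw [QuotientGroup.out_eq']
    rw [h2]
    rfl
  obtain ⟨j, hj⟩ := hdiv _ (QuotientGroup.eq.mp h1)
  rw [gap_step_tz_mul, gap_step_tz_inv, gap_step_tz_mul] at hj
  exact ⟨j, by linarith⟩

theorem gap_step_tz_pow (k : ℕ) : tz (ft ^ k) = k := by
  induction k with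
  | zero => simp [gap_step_tz_one]
  | succ k ih =>
    rw [pow_succ, gap_step_tz_mul, ih, gap_step_tz_ft]
    push_cast
    ring

open Classical in
theorem gap_step_mid (n ℓ : ℕ) (hn : 4 * ℓ + 8 ≤ n) (K2 : Subgroup F) (hdiv : Div n K2)
    [Fintype (F ⧸ K2)] :
    Fintype.card (F ⧸ K2) ≤ 2 * (Finset.univ.filter
      (fun q : F ⧸ K2 => ℓ + 1 ≤ ph n q.out ∧ ph n q.out + ℓ + 3 ≤ n)).card := by
  have hn0 : 0 < n := by omega
  have h1 := Finset.card_filter_add_card_filter_not (s := (Finset.univ : Finset (F ⧸ K2)))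
    (fun q : F ⧸ K2 => ℓ + 1 ≤ ph n q.out ∧ ph n q.out + ℓ + 3 ≤ n)
  have h2 : (Finset.univ.filter
      (fun q : F ⧸ K2 => ¬ (ℓ + 1 ≤ ph n q.out ∧ ph n q.out + ℓ + 3 ≤ n))).card ≤
      (Finset.univ.filter
      (fun q : F ⧸ K2 => ℓ + 1 ≤ ph n q.out ∧ ph n q.out + ℓ + 3 ≤ n)).card := by
    refine Finset.card_le_card_of_injOn (fun q => (ft ^ (2 * ℓ + 3)) • q) ?_ ?_
    · intro q hq
      have hq' : ¬ (ℓ + 1 ≤ ph n q.out ∧ ph n q.out + ℓ + 3 ≤ n) := by simpa using hq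
      have goal : ℓ + 1 ≤ ph n ((ft ^ (2 * ℓ + 3)) • q).out ∧
          ph n ((ft ^ (2 * ℓ + 3)) • q).out + ℓ + 3 ≤ n := by
        obtain ⟨j, hj⟩ := gap_step_smul_out n K2 hdiv (ft ^ (2 * ℓ + 3)) q
        rw [gap_step_tz_pow] at hj
        have hr := gap_step_ph_lt n hn0 q.out
        by_cases hcase : ph n q.out ≤ ℓ
        · have h3 := gap_step_ph_shift n hn0 q.out _ ((2 * ℓ + 3 : ℕ) : ℤ) j hj (by omega)
            (by omega)
          omega
        · have h3 := gap_step_ph_shift n hn0 q.out ((ft ^ (2 * ℓ + 3)) • q).out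
            (((2 * ℓ + 3 : ℕ) : ℤ) - n) (j + 1) (by rw [hj]; ring) (by omega) (by omega)
          omega
      simpa using goal
    · intro q _ q' _ h
      exact smul_left_cancel _ h
  rw [Finset.card_univ] at h1
  omega

open Classical in
theorem gap_step_pigeon {α β : Type} [Fintype β] [Nonempty β] (S : Finset α) (f : α → β) :
    ∃ y, S.card ≤ (S.filter (fun x => f x = y)).card * Fintype.card β := by
  by_contra h
  push Not at h
  have h1 : ∑ y : β, (S.filter (fun x => f x = y)).card = S.card :=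
    (Finset.card_eq_sum_card_fiberwise (fun x _ => Finset.mem_univ _)).symm
  have h2 : ∑ y : β, (S.filter (fun x => f x = y)).card * Fintype.card β < ∑ _y : β, S.card :=
    Finset.sum_lt_sum_of_nonempty Finset.univ_nonempty (fun y _ => h y)
  rw [← Finset.sum_mul, h1, Finset.sum_const, smul_eq_mul, Finset.card_univ, mul_comm] at h2
  exact lt_irrefl _ h2

theorem gap_step_walk (n : ℕ) (hn : 0 < n) (K2 : Subgroup F) (c : F → ZMod 2)
    (g0 g : F) (w0 : List (Fin 2 × Bool)) (hp1 : w0.length + 1 ≤ ph n g)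
    (hp2 : ph n g + w0.length + 3 ≤ n) (o : F ⧸ K2 → ZMod 2)
    (ho : ∀ w w' : List (Fin 2 × Bool), w <:+ w0 → w' <:+ w0 → ∀ s,
      gap_step_E n K2 c g0 ((FreeGroup.mk w * g : F) : F ⧸ K2)
        ((FreeGroup.mk w' * g : F) : F ⧸ K2) s →
      o ((FreeGroup.mk w' * g : F) : F ⧸ K2) = o ((FreeGroup.mk w * g : F) : F ⧸ K2) + s + 1) :
    ∀ w : List (Fin 2 × Bool), w <:+ w0 → o ((FreeGroup.mk w * g : F) : F ⧸ K2) =
      o (g : F ⧸ K2) + co c (FreeGroup.mk w) (g * g0) + (w.length : ZMod 2) := by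
  have hph : ∀ w : List (Fin 2 × Bool), w <:+ w0 →
      1 ≤ ph n (FreeGroup.mk w * g) ∧ ph n (FreeGroup.mk w * g) + 1 < n := by
    intro w hw
    have h1 := gap_step_tz_mk w
    have h2 := hw.length_le
    rw [abs_le] at h1
    have h3 := gap_step_ph_shift n hn g (FreeGroup.mk w * g) (tz (FreeGroup.mk w)) 0
      (by rw [gap_step_tz_mul]; ring) (by omega) (by omega)
    omega
  intro w
  induction w with
  | nil =>
    intro _
    have h1 : (FreeGroup.mk [] : F) = 1 := rfl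
    rw [h1, one_mul, co_one]
    simp
  | cons l w ih =>
    intro hsuf
    have hw : w <:+ w0 := (List.suffix_cons l w).trans hsuf
    have ih' := ih hw
    obtain ⟨y, hy, h | h⟩ := gap_step_mk_cons l w
    · have hE : gap_step_E n K2 c g0 ((FreeGroup.mk w * g : F) : F ⧸ K2)
          ((FreeGroup.mk (l :: w) * g : F) : F ⧸ K2) (co c y (FreeGroup.mk w * g * g0)) :=
        ⟨FreeGroup.mk w * g, y, hy, rfl, (hph w hw).1, (hph w hw).2,
          by rw [h, mul_assoc], rfl⟩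
      rw [ho w (l :: w) hw hsuf _ hE, ih', h, co_mul, mul_assoc (FreeGroup.mk w) g g0]
      push_cast [List.length_cons]
      ring
    · have hE : gap_step_E n K2 c g0 ((FreeGroup.mk (l :: w) * g : F) : F ⧸ K2)
          ((FreeGroup.mk w * g : F) : F ⧸ K2) (co c y (FreeGroup.mk (l :: w) * g * g0)) :=
        ⟨FreeGroup.mk (l :: w) * g, y, hy, rfl, (hph _ hsuf).1, (hph _ hsuf).2,
          by rw [h]; congr 1; group, rfl⟩
      have h2 := ho (l :: w) w hsuf hw _ hE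
      have h3 : ∀ a b s : ZMod 2, a = b + s + 1 → b = a + s + 1 := by decide
      rw [h3 _ _ _ h2, ih', h, co_mul, gap_step_co_inv]
      have e1 : y⁻¹ * FreeGroup.mk w * g * g0 = y⁻¹ * (FreeGroup.mk w * (g * g0)) := by group
      rw [e1]
      push_cast [List.length_cons]
      ring

/-- Quantitative version of the previous comparison. Let w0 be a word for u, ℓ its length, M = 25 (ℓ+1) (or any convenient constant ≥ bounds below), n0 = 4ℓ + 8, δ = - log (1 - 4^(-M)) / (4 M^2 K1.index). Let K2, n be as in the statement, V = F/K2 (a finite group). Middle points: classes q ∈ V with ℓ + 1 ≤ ph n q ≤ n - ℓ - 3; they are (n - 2ℓ - 3)/n * K2.index ≥ K2.index/2 many (each phase occurs K2.index/n times since t permutes F/K2). By pigeonhole there is g0 ∈ F such that at least (1/K1.index) of the middle classes q = g K2 satisfy g g0 ∈ gb K1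
(for fixed g the condition g0 ∈ g⁻¹ gb K1 holds for exactly one class of g0 modulo K1). Let L' be given. Put for g ∈ F: ε g = co c g g0 + co c (q.out) g0, q = class of g in V; as κ ↦ co c κ g0 is a homomorphism on K2 with kernel L', g L' ↦ (g K2, ε g) is injective F/L' → V × ZMod 2, and it is bijective because for a middle class g with g g0 ∈ gb K1 the element κ = g⁻¹ u g ∈ K2 has co c κ g0 = co c g⁻¹ (u g g0) + co c u (g g0) + co c g g0 = co c u (g g0) = co c u gb = 1 (u g g0 = g g0 * (element of K2 ≤ K1)). Graph: E v x s iff for g = v.out: 1 ≤ ph n g, ph n g + 1 < n and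
((x = class of a g and s = ε (a g)) or (x = class of t g and s = ε (t g))). US I0 1 n L' ≅ Ind1 E, US I0 1 n K2 ≅ Ind0 E, b = par (hpar). For a good position q (middle, g g0 ∈ gb K1) let C q = the classes of w' g for the suffixes w' of the word w0 (the points of the closed walk; it is closed as u ∈ K2 and K2 is normal), Nb q = C q together with all classes a^{±1} p, t^{±1} p for p in C q. All edges of the walk are edges of the graph since all the phases of its points are between 1 and n - 2. If o : V → ZMod 2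
satisfies o y = o x + s + 1 for all edges inside C q, then summing along the closed walk 0 = (total sign) + (length of w0 mod 2) = co c u (g g0) + 0 = 1 (par u = 1 gives even length), contradiction. So hbad holds. select (GIVEN) gives at least (number of good positions)/M^2 ≥ K2.index/(2 M^2 K1.index) positions with disjoint Nb. By lift2 and gap: ncard (US L') ≤ ncard (Cons E) ≤ (1 - 4^(-M))^N ncard (US K2)^2, N ≥ K2.index/(2 M^2 K1.index), L'.index = 2 K2.index. Take logarithms: lu(L') ≤ lu(K2) + N log(1 - 4^(-M)) / (2 K2.index) ≤ lu(K2) - δ. -/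
theorem gap_step (K1 : Subgroup F) (hK1 : FN K1) (hpar : ∀ κ ∈ K1, par κ = 1) (c : F → ZMod 2)
    (hc : ∀ g, ∀ κ ∈ K1, c (g * κ) = c g) (u : F) (hu : u ∈ K1) (gb : F) (hb : co c u gb = 1) :
    ∃ δ : ℝ, 0 < δ ∧ ∃ n0 : ℕ, ∀ n, n0 ≤ n → ∀ K2 : Subgroup F, FN K2 → K2 ≤ K1 → u ∈ K2 →
      Div n K2 → ∃ g0 : F, ∀ L' : Subgroup F, (∀ κ, κ ∈ L' ↔ κ ∈ K2 ∧ co c κ g0 = 0) →
        L'.FiniteIndex ∧ lu I0 1 n L' ≤ lu I0 1 n K2 - δ := by
  classical
  obtain ⟨w0, hw0⟩ : ∃ w0 : List (Fin 2 × Bool), w0 = u.toWord := ⟨_, rfl⟩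
  have hmk : FreeGroup.mk w0 = u := by rw [hw0]; exact FreeGroup.mk_toWord
  obtain ⟨T0, hT0⟩ : ∃ T0 : Finset F, T0 = (w0.tails.map FreeGroup.mk).toFinset := ⟨_, rfl⟩
  have hT0m : ∀ x, x ∈ T0 ↔ ∃ w, w <:+ w0 ∧ FreeGroup.mk w = x := by
    intro x
    rw [hT0, List.mem_toFinset, List.mem_map]
    simp only [List.mem_tails]
  obtain ⟨T, hT⟩ : ∃ T : Finset F, T =
    (({1, fa, ft, fa⁻¹, ft⁻¹} : Finset F) ×ˢ T0).image (fun p => p.1 * p.2) := ⟨_, rfl⟩
  have hTm : ∀ z ∈ ({1, fa, ft, fa⁻¹, ft⁻¹} : Finset F), ∀ x ∈ T0, z * x ∈ T := by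
    intro z hz x hx
    rw [hT, Finset.mem_image]
    exact ⟨(z, x), Finset.mem_product.mpr ⟨hz, hx⟩, rfl⟩
  have hT1 : ∀ x ∈ T0, x ∈ T := by
    intro x hx
    have := hTm 1 (by simp) x hx
    rwa [one_mul] at this
  have h1T0 : (1 : F) ∈ T0 := (hT0m 1).mpr ⟨[], List.nil_suffix, rfl⟩
  have hTy : ∀ y : F, (y = fa ∨ y = ft) → ∀ x ∈ T0, y * x ∈ T ∧ y⁻¹ * x ∈ T := by
    rintro y (rfl | rfl) x hx
    · exact ⟨hTm fa (by simp) x hx, hTm fa⁻¹ (by simp) x hx⟩
    · exact ⟨hTm ft (by simp) x hx, hTm ft⁻¹ (by simp) x hx⟩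
  obtain ⟨M, hM⟩ : ∃ M : ℕ, M = T.card := ⟨_, rfl⟩
  have hM0 : 0 < M := by
    rw [hM]
    exact Finset.card_pos.mpr ⟨1, hT1 1 h1T0⟩
  have hK1fin := hK1.fin
  have hD1 : 0 < K1.index := Nat.pos_of_ne_zero hK1fin.index_ne_zero
  obtain ⟨p, hp⟩ : ∃ p : ℝ, p = 1 - (1 / 4 : ℝ) ^ M := ⟨_, rfl⟩
  have hpow0 : (0:ℝ) < (1 / 4 : ℝ) ^ M := by positivity
  have hpow1 : (1 / 4 : ℝ) ^ M < 1 := pow_lt_one₀ (by norm_num) (by norm_num) hM0.ne'
  have hp0 : 0 < p := by rw [hp]; linarith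
  have hp1 : p < 1 := by rw [hp]; linarith
  have hlog : Real.log p < 0 := Real.log_neg hp0 hp1
  have hMr : (0:ℝ) < (M : ℝ) := by exact_mod_cast hM0
  have hD1r : (0:ℝ) < (K1.index : ℝ) := by exact_mod_cast hD1
  refine ⟨-Real.log p / (4 * (M : ℝ) ^ 2 * (K1.index : ℝ)),
    div_pos (by linarith) (by positivity), 4 * w0.length + 8, ?_⟩
  intro n hn K2 hK2 hle hu2 hdiv
  have hn0 : 0 < n := by omega
  have hK2fin := hK2.fin
  have hcr1 : ∀ u g, ∀ κ ∈ K1, co c u (g * κ) = co c u g := fun u =>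
    gap_step_co_right c K1 hc u
  have hcr : ∀ u g, ∀ κ ∈ K2, co c u (g * κ) = co c u g := fun u g κ hκ =>
    hcr1 u g κ (hle hκ)
  let iF2 : Fintype (F ⧸ K2) := Fintype.ofFinite _
  let iF1 : Fintype (F ⧸ K1) := Fintype.ofFinite _
  have hmid := gap_step_mid n w0.length hn K2 hdiv
  obtain ⟨Mid, hMid⟩ : ∃ Mid : Finset (F ⧸ K2), Mid = Finset.univ.filter
    (fun q : F ⧸ K2 => w0.length + 1 ≤ ph n q.out ∧ ph n q.out + w0.length + 3 ≤ n) := ⟨_, rfl⟩
  have hMidm : ∀ q ∈ Mid, w0.length + 1 ≤ ph n q.out ∧ ph n q.out + w0.length + 3 ≤ n := by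
    intro q hq
    rw [hMid] at hq
    exact (Finset.mem_filter.mp hq).2
  have hmid' : Fintype.card (F ⧸ K2) ≤ 2 * Mid.card := by
    rw [hMid]
    convert hmid
  obtain ⟨y, hy⟩ := gap_step_pigeon Mid (fun q : F ⧸ K2 => ((q.out⁻¹ * gb : F) : F ⧸ K1))
  obtain ⟨g0, hg0⟩ : ∃ g0 : F, (g0 : F ⧸ K1) = y := ⟨y.out, QuotientGroup.out_eq' y⟩
  obtain ⟨Pos, hPos⟩ : ∃ Pos : Finset (F ⧸ K2), Pos =
    Mid.filter (fun q => ((q.out⁻¹ * gb : F) : F ⧸ K1) = y) := ⟨_, rfl⟩
  have hPosM : ∀ q ∈ Pos, q ∈ Mid := by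
    intro q hq
    rw [hPos] at hq
    exact (Finset.mem_filter.mp hq).1
  have hgood : ∀ q ∈ Pos, co c u (q.out * g0) = 1 := by
    intro q hq
    rw [hPos] at hq
    have h1 : ((q.out⁻¹ * gb : F) : F ⧸ K1) = (g0 : F ⧸ K1) := by
      rw [hg0]
      exact (Finset.mem_filter.mp hq).2
    have h2 : (q.out⁻¹ * gb)⁻¹ * g0 ∈ K1 := QuotientGroup.eq.mp h1
    have h3 : q.out * g0 = gb * ((q.out⁻¹ * gb)⁻¹ * g0) := by group
    rw [h3, hcr1 _ _ _ h2, hb]
  refine ⟨g0, ?_⟩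
  intro L' hL
  -- the index
  have hκ : (gb * g0⁻¹)⁻¹ * (u * (gb * g0⁻¹)) ∈ K2 := by
    have := hK2.normal.conj_mem _ hu2 (gb * g0⁻¹)⁻¹
    rw [inv_inv] at this
    rwa [← mul_assoc]
  have hκ1 : co c ((gb * g0⁻¹)⁻¹ * (u * (gb * g0⁻¹))) g0 = 1 := by
    rw [gap_step_kappa K2 hK2 c hcr g0 _ u hu2]
    rw [inv_mul_cancel_right, hb]
  have hidx := gap_step_index K2 hK2 c hcr g0 L' hL _ hκ hκ1
  have hD2 : 0 < K2.index := Nat.pos_of_ne_zero hK2fin.index_ne_zero
  have hLfin : L'.FiniteIndex := ⟨by rw [hidx]; omega⟩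
  refine ⟨hLfin, ?_⟩
  -- cardinalities
  obtain ⟨E, hE⟩ : ∃ E : F ⧸ K2 → F ⧸ K2 → ZMod 2 → Prop, E = gap_step_E n K2 c g0 := ⟨_, rfl⟩
  obtain ⟨f, hf1, hf2⟩ := gap_step_inj1 n hn0 K2 hK2 hdiv c hcr g0 L' hL
  rw [← hE] at hf1
  have hA : (US I0 1 n L').ncard ≤ (Ind1 E).ncard :=
    Set.ncard_le_ncard_of_injOn f hf1 hf2 (Set.toFinite _)
  have hB : (Ind0 E).ncard ≤ (US I0 1 n K2).ncard := by
    rw [hE]
    exact gap_step_inj0 n hn0 K2 hK2 hdiv c g0
  obtain ⟨b, hb'⟩ := gap_step_par n K2 (fun κ hκ => hpar κ (hle hκ)) c g0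
  rw [← hE] at hb'
  have hC := lift2 E b hb'
  obtain ⟨Nb, hNb⟩ : ∃ Nb : F ⧸ K2 → Finset (F ⧸ K2), Nb = fun q => T.image (fun x => x • q) :=
    ⟨_, rfl⟩
  obtain ⟨C, hCdef⟩ : ∃ C : F ⧸ K2 → Finset (F ⧸ K2), C = fun q => T0.image (fun x => x • q) :=
    ⟨_, rfl⟩
  have hNbm : ∀ q v, v ∈ Nb q ↔ ∃ x ∈ T, x • q = v := by
    intro q v
    rw [hNb]
    exact Finset.mem_image
  have hCm : ∀ q v, v ∈ C q ↔ ∃ x ∈ T0, x • q = v := by
    intro q v
    rw [hCdef]
    exact Finset.mem_image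
  have hNbc : ∀ q, (Nb q).card ≤ M := by
    intro q
    rw [hNb, hM]
    exact Finset.card_image_le
  obtain ⟨S, hSP, hSd, hScard⟩ := select Pos Nb M
    (fun v _ => (hNbm v v).mpr ⟨1, hT1 1 h1T0, one_smul _ _⟩) (fun v _ => hNbc v) (by
      intro w
      have hsub : ({v ∈ (Pos : Set (F ⧸ K2)) | w ∈ Nb v}) ⊆
          ((T.image (fun x => x⁻¹ • w) : Finset (F ⧸ K2)) : Set (F ⧸ K2)) := by
        rintro v ⟨-, hv⟩
        obtain ⟨x, hx, hxv⟩ := (hNbm v w).mp hv
        rw [Finset.mem_coe, Finset.mem_image]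
        exact ⟨x, hx, by rw [← hxv, inv_smul_smul]⟩
      refine (Set.ncard_le_ncard hsub (Finset.finite_toSet _)).trans ?_
      rw [Set.ncard_coe_finset, hM]
      exact Finset.card_image_le)
  have hsm : ∀ x g : F, x • (g : F ⧸ K2) = ((x * g : F) : F ⧸ K2) := fun _ _ => rfl
  have hbad : ∀ q ∈ Pos, ¬ ∃ o : F ⧸ K2 → ZMod 2, ∀ v ∈ C q, ∀ w ∈ C q, ∀ s, E v w s →
      o w = o v + s + 1 := by
    rintro q hq ⟨o, ho⟩
    obtain ⟨hq1, hq2⟩ := hMidm q (hPosM q hq)
    have hqo : ((q.out : F) : F ⧸ K2) = q := QuotientGroup.out_eq' q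
    have hin : ∀ w : List (Fin 2 × Bool), w <:+ w0 →
        ((FreeGroup.mk w * q.out : F) : F ⧸ K2) ∈ C q := by
      intro w hw
      refine (hCm q _).mpr ⟨FreeGroup.mk w, (hT0m _).mpr ⟨w, hw, rfl⟩, ?_⟩
      rw [← hsm, hqo]
    have hwalk := gap_step_walk n hn0 K2 c g0 q.out w0 hq1 hq2 o (by
      intro w w' hw hw' s hs
      exact ho _ (hin w hw) _ (hin w' hw') s (by rw [hE]; exact hs)) w0 List.suffix_rfl
    rw [hmk, hgood q hq] at hwalk
    have hcls : ((u * q.out : F) : F ⧸ K2) = (q.out : F ⧸ K2) := by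
      rw [eq_comm, QuotientGroup.eq]
      have := hK2.normal.conj_mem _ hu2 (q.out)⁻¹
      rw [inv_inv] at this
      rwa [← mul_assoc]
    have hlen : (w0.length : ZMod 2) = 0 := by
      rw [← gap_step_par_mk, hmk, hpar u hu]
      rfl
    rw [hcls, hlen] at hwalk
    revert hwalk
    generalize o (q.out : F ⧸ K2) = a
    revert a
    decide
  have hgap := gap E b hb' S.card M (fun i => C (S.equivFin.symm i)) (fun i => Nb (S.equivFin.symm i))
    (by
      intro i v hv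
      obtain ⟨x, hx, hxv⟩ := (hCm _ v).mp hv
      refine ⟨(hNbm _ v).mpr ⟨x, hT1 x hx, hxv⟩, ?_⟩
      rintro w s (h | h)
      · rw [hE] at h
        obtain ⟨g, y, hy, hg, -, -, hw, -⟩ := h
        refine (hNbm _ w).mpr ⟨y * x, (hTy y hy x hx).1, ?_⟩
        rw [mul_smul, hxv, ← hg, hw]
        rfl
      · rw [hE] at h
        obtain ⟨g, y, hy, hg, -, -, hw, -⟩ := h
        refine (hNbm _ w).mpr ⟨y⁻¹ * x, (hTy y hy x hx).2, ?_⟩
        rw [mul_smul, hxv, hw, inv_smul_eq_iff, ← hg]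
        rfl)
    (fun i => hNbc _)
    (by
      intro i j hij
      refine hSd _ (S.equivFin.symm i).2 _ (S.equivFin.symm j).2 ?_
      intro h
      exact hij (S.equivFin.symm.injective (Subtype.ext h)))
    (fun i => hbad _ (hSP (S.equivFin.symm i).2))
  rw [← hp] at hgap
  -- positivity
  have hzero : ∀ K : Subgroup F, (fun _ => 0 : F → ℕ) ∈ US I0 1 n K := by
    intro K
    refine ⟨⟨fun g => ?_, fun g κ _ => rfl⟩, fun g _ _ => ?_⟩
    · show 0 < 2
      norm_num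
    · rw [gap_step_av]
      rintro y - ⟨h, -⟩
      exact absurd h (by norm_num)
  have hApos : 0 < (US I0 1 n L').ncard :=
    (Set.ncard_pos (gap_step_fin n L')).mpr ⟨_, hzero L'⟩
  have hBpos : 0 < (US I0 1 n K2).ncard :=
    (Set.ncard_pos (gap_step_fin n K2)).mpr ⟨_, hzero K2⟩
  obtain ⟨a, ha⟩ : ∃ a : ℕ, a = (US I0 1 n L').ncard := ⟨_, rfl⟩
  obtain ⟨b2, hb2⟩ : ∃ b2 : ℕ, b2 = (US I0 1 n K2).ncard := ⟨_, rfl⟩
  rw [← ha] at hA hApos
  rw [← hb2] at hB hBpos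
  have har : (0:ℝ) < (a : ℝ) := by exact_mod_cast hApos
  have hbr : (0:ℝ) < (b2 : ℝ) := by exact_mod_cast hBpos
  have hmain : (a : ℝ) ≤ p ^ S.card * (b2 : ℝ) ^ 2 := by
    have h1 : (a : ℝ) ≤ ((Cons E).ncard : ℝ) := by exact_mod_cast hA.trans hC
    refine h1.trans (hgap.trans ?_)
    have h2 : ((Ind0 E).ncard : ℝ) ≤ (b2 : ℝ) := by exact_mod_cast hB
    gcongr
  have hlogA : Real.log a ≤ S.card * Real.log p + 2 * Real.log b2 := by
    have h1 := Real.log_le_log har hmain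
    rw [Real.log_mul (by positivity) (by positivity), Real.log_pow, Real.log_pow] at h1
    exact_mod_cast h1
  -- counting
  have hcard2 : Fintype.card (F ⧸ K2) = K2.index := by
    rw [Subgroup.index, Nat.card_eq_fintype_card]
  have hcard1 : Fintype.card (F ⧸ K1) = K1.index := by
    rw [Subgroup.index, Nat.card_eq_fintype_card]
  have hcount : K2.index ≤ 2 * (S.card * (M * M) * K1.index) := by
    rw [hcard2] at hmid'
    rw [hcard1] at hy
    have h1 : Mid.card ≤ Pos.card * K1.index := by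
      rw [hPos]
      convert hy
    have h2 : Pos.card * K1.index ≤ S.card * (M * M) * K1.index :=
      Nat.mul_le_mul_right _ hScard
    omega
  have hcr2 : (K2.index : ℝ) ≤ 2 * (S.card * (M * M) * K1.index) := by exact_mod_cast hcount
  have hD2r : (0:ℝ) < (K2.index : ℝ) := by exact_mod_cast hD2
  unfold lu
  rw [← ha, ← hb2, hidx]
  push_cast
  have e1 : -Real.log p / (4 * (M : ℝ) ^ 2 * (K1.index : ℝ)) ≤
      S.card * (-Real.log p) / (2 * K2.index) := by
    rw [div_le_div_iff₀ (by positivity) (by positivity)]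
    have h1 : (-Real.log p) * (2 * K2.index) ≤
        (-Real.log p) * (2 * (2 * (S.card * (M * M) * K1.index))) :=
      mul_le_mul_of_nonneg_left (by linarith) (by linarith)
    nlinarith [h1]
  have e2 : Real.log a / (2 * K2.index) ≤
      (S.card * Real.log p + 2 * Real.log b2) / (2 * K2.index) := by
    gcongr
  have e3 : (S.card * Real.log p + 2 * Real.log b2) / (2 * (K2.index : ℝ)) =
      Real.log b2 / K2.index - S.card * (-Real.log p) / (2 * K2.index) := by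
    field_simp
    ring
  rw [e3] at e2
  linarith

end Pool.Agent.Helper948.Ent.C7
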