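import Pool.Agent.Helper948.Ent.Defs
import Pool.Agent.Helper948.Ent.B14
import Pool.Agent.Helper948.Ent.C4
import Pool.Agent.Helper948.Ent.C5
import Pool.Agent.Helper948.Ent.C6
import Pool.Agent.Helper948.Ent.C7

/- solved by helper667 -/


set_option autoImplicit false

namespace Pool.Agent.Helper948.Ent.C8
open Pool.Agent.Helper948.Dom Pool.Agent.Helper948.Ent Pool.Agent.Helper948.Ent.B14 Pool.Agent.Helper948.Ent.C4 Pool.Agent.Helper948.Ent.C5 Pool.Agent.Helper948.Ent.C6 Pool.Agent.Helper948.Ent.C7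








-- TARGET
theorem nc_co_inv (c : F → ZMod 2) (u g : F) : co c u⁻¹ g = - co c u (u⁻¹ * g) := by
  have h := co_mul c u u⁻¹ g
  rw [mul_inv_cancel, co_one] at h
  exact eq_neg_of_add_eq_zero_right h.symm

theorem nc_co_K (K1 : Subgroup F) (c : F → ZMod 2) (hc : ∀ g, ∀ κ ∈ K1, c (g * κ) = c g) (u : F) :
    ∀ g, ∀ κ ∈ K1, co c u (g * κ) = co c u g := by
  induction u using FreeGroup.induction_on with
  | C1 => intro g κ _; rw [co_one, co_one]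
  | of i =>
    intro g κ hκ
    fin_cases i
    · show co c fa (g * κ) = co c fa g
      rw [co_fa, co_fa]
    · show co c ft (g * κ) = co c ft g
      rw [co_ft, co_ft, hc g κ hκ]
  | inv_of i ih =>
    intro g κ hκ
    rw [nc_co_inv, nc_co_inv, ← mul_assoc]
    rw [ih _ κ hκ]
  | mul u v hu hv =>
    intro g κ hκ
    rw [co_mul, co_mul, ← mul_assoc, hu _ κ hκ, hv g κ hκ]

theorem nc_co_hom (K1 : Subgroup F) (hn : K1.Normal) (c : F → ZMod 2)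
    (hc : ∀ g, ∀ κ ∈ K1, c (g * κ) = c g) (u v g : F) (hv : v ∈ K1) :
    co c (u * v) g = co c u g + co c v g := by
  rw [co_mul]
  have h1 : v * g = g * (g⁻¹ * v * g) := by group
  have h2 : g⁻¹ * v * g ∈ K1 := by
    have := hn.conj_mem v hv g⁻¹
    simpa using this
  rw [h1, nc_co_K K1 c hc u g _ h2]

theorem nc_sub (K1 : Subgroup F) (hn : K1.Normal) (c : F → ZMod 2)
    (hc : ∀ g, ∀ κ ∈ K1, c (g * κ) = c g) (L : Subgroup F) (hL : L ≤ K1) (q : F) :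
    ∃ L' : Subgroup F, ∀ κ, κ ∈ L' ↔ κ ∈ L ∧ co c κ q = 0 := by
  refine ⟨{ carrier := {κ | κ ∈ L ∧ co c κ q = 0}
            mul_mem' := ?_
            one_mem' := ?_
            inv_mem' := ?_ }, fun κ => Iff.rfl⟩
  · rintro a b ⟨ha, ha'⟩ ⟨hb, hb'⟩
    refine ⟨mul_mem ha hb, ?_⟩
    rw [nc_co_hom K1 hn c hc a b q (hL hb), ha', hb', add_zero]
  · exact ⟨one_mem _, co_one c q⟩
  · rintro a ⟨ha, ha'⟩
    refine ⟨inv_mem ha, ?_⟩
    have h1 := nc_co_hom K1 hn c hc a a⁻¹ q (inv_mem (hL ha))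
    rw [mul_inv_cancel, co_one, ha', zero_add] at h1
    exact h1.symm

theorem nc_fin (K1 : Subgroup F) (hK1 : FN K1) (c : F → ZMod 2)
    (hc : ∀ g, ∀ κ ∈ K1, c (g * κ) = c g) (n : ℕ) (hn : 0 < n) (L : Subgroup F) (hL : L ≤ K1)
    (hfin : L.FiniteIndex) (hd : Div n L) (hpar : ∀ κ ∈ L, par κ = 1) (s : Finset F) :
    ∃ L' : Subgroup F, (∀ κ, κ ∈ L' ↔ κ ∈ L ∧ ∀ q ∈ s, co c κ q = 0) ∧ L'.FiniteIndex ∧
      lu I0 1 n L' ≤ lu I0 1 n L := by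
  classical
  induction s using Finset.induction_on with
  | empty =>
    exact ⟨L, fun κ => by simp, hfin, le_rfl⟩
  | insert a s _ ih =>
    obtain ⟨L', h1, h2, h3⟩ := ih
    have hL'L : L' ≤ L := fun κ hκ => ((h1 κ).1 hκ).1
    obtain ⟨L'', h4⟩ := nc_sub K1 hK1.normal c hc L' (hL'L.trans hL) a
    obtain ⟨h5, h6⟩ := lift_step K1 hK1 c hc n hn L' L'' (hL'L.trans hL) h2
      (fun κ hκ => hd κ (hL'L hκ)) (fun κ hκ => hpar κ (hL'L hκ)) a h4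
    refine ⟨L'', fun κ => ?_, h5, h6.trans h3⟩
    rw [h4, h1]
    constructor
    · rintro ⟨⟨ha, hb⟩, hc'⟩
      refine ⟨ha, fun q hq => ?_⟩
      rcases Finset.mem_insert.1 hq with rfl | hq
      · exact hc'
      · exact hb q hq
    · rintro ⟨ha, hb⟩
      exact ⟨⟨ha, fun q hq => hb q (Finset.mem_insert_of_mem hq)⟩,
        hb a (Finset.mem_insert_self _ _)⟩

/-- cond_ext gives K1 with Cond K1 (m+1), Ext K m K1. bad_exists gives c, u, g with co c u g = 1, u ∈ K1 ∩ W (m+2). gap_step (gb = g) gives δ, n0. Now let K2, m2, n be as stated. u ∈ K2 by Ext K1 (m+1) K2 (W (m+2)), Div n K2 since n divides (m2+1)!. Take K3 from tw_sub (K1, K2, m). Let L1 = {κ ∈ K2 | co c κ g0 = 0} (g0 from gap_step; it is a subgroup, co c u (g κ) = co c u g for κ ∈ K1), lu L1 ≤ lu K2 - δ. Let q1, ..., qs be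
representatives of F/K1 and L_{i+1} = {κ ∈ L_i | co c κ q_i = 0}; lift_step gives lu L_{i+1} ≤ lu L_i (all L_i ≤ K2 ≤ K1, finite index, Div n, parity). The last one is K3 because co c κ (q κ') = co c κ q for κ' ∈ K1. (Better: induction on a finite set of elements.) Cond K3 m2: FN from tw_sub, ND by ND.mono, Div and par from K3 ≤ K2. Ext K m K3: K3 ≤ K2 ≤ K1 ≤ K, and w ∈ W (m+1) ∩ K is in K1 (Ext K m K1), in K2 (W (m+1) ⊆ W (m+2)), in K3 (Win K2 (m+1) K3). -/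
theorem nc (K : Subgroup F) (m : ℕ) (h : Cond K m) : ∃ K1 : Subgroup F, Cond K1 (m + 1) ∧
    Ext K m K1 ∧ ∃ δ : ℝ, 0 < δ ∧ ∃ n0 : ℕ, ∀ n, n0 ≤ n → 0 < n → ∀ (K2 : Subgroup F) (m2 : ℕ),
      Cond K2 m2 → m + 1 ≤ m2 → Ext K1 (m + 1) K2 → n ≤ m2 + 1 →
      ∃ K3 : Subgroup F, Cond K3 m2 ∧ Ext K m K3 ∧ lu I0 1 n K3 ≤ lu I0 1 n K2 - δ := by
  obtain ⟨K1, hC1, hE1⟩ := cond_ext K m h (m + 1) (Nat.le_succ m)
  obtain ⟨c, hc, hcw, u, hu, huW, gb, hgb⟩ := bad_exists K K1 m h hC1 hE1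
  obtain ⟨δ, hδ, n0, hgap⟩ := gap_step K1 hC1.fn hC1.par c hc u hu gb hgb
  refine ⟨K1, hC1, hE1, δ, hδ, n0, ?_⟩
  intro n hn0 hn K2 m2 hC2 hm2 hE2 hnm2
  have hK21 : K2 ≤ K1 := hE2.1
  have hu2 : u ∈ K2 := hE2.2 u huW hu
  have hdiv : Div n K2 := by
    intro κ hκ
    have h1 := hC2.div κ hκ
    have h2 : (n : ℤ) ∣ ((m2 + 1).factorial : ℤ) := by
      exact_mod_cast Nat.dvd_factorial hn hnm2
    exact h2.trans h1
  obtain ⟨K3, hK3, hFN3, hWin3⟩ := tw_sub K1 K2 m hC1.fn hC2.fn hK21 c hc hcw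
  obtain ⟨g0, hg0⟩ := hgap n hn0 K2 hC2.fn hK21 hu2 hdiv
  obtain ⟨L1, hL1⟩ := nc_sub K1 hC1.fn.normal c hc K2 hK21 g0
  obtain ⟨hfin1, hlu1⟩ := hg0 L1 hL1
  have hL12 : L1 ≤ K2 := fun κ hκ => ((hL1 κ).1 hκ).1
  have hnK1 : K1.Normal := hC1.fn.normal
  have hfK1 : K1.FiniteIndex := hC1.fn.fin
  have hfinq : Finite (F ⧸ K1) := inferInstance
  have hrf : (Set.range (fun x : F ⧸ K1 => (Quotient.out x : F))).Finite := Set.finite_range _
  obtain ⟨L', hL', hfin', hlu'⟩ := nc_fin K1 hC1.fn c hc n hn L1 (hL12.trans hK21) hfin1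
    (fun κ hκ => hdiv κ (hL12 hκ)) (fun κ hκ => hC2.par κ (hL12 hκ)) hrf.toFinset
  have heq : L' = K3 := by
    ext κ
    rw [hL', hL1, hK3]
    constructor
    · rintro ⟨⟨ha, _⟩, hb⟩
      refine ⟨ha, fun g => ?_⟩
      have h1 : (Quotient.out (g : F ⧸ K1) : F) ∈ hrf.toFinset := by
        rw [Set.Finite.mem_toFinset]
        exact ⟨_, rfl⟩
      have h2 := hb _ h1
      have h3 : (Quotient.out (g : F ⧸ K1) : F)⁻¹ * g ∈ K1 := by
        rw [← QuotientGroup.eq]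
        exact Quotient.out_eq' _
      have h4 := nc_co_K K1 c hc κ (Quotient.out (g : F ⧸ K1) : F) _ h3
      rw [mul_inv_cancel_left] at h4
      rw [h4, h2]
    · rintro ⟨ha, hb⟩
      exact ⟨⟨ha, hb _⟩, fun q _ => hb q⟩
  rw [heq] at hlu'
  have hK32 : K3 ≤ K2 := fun κ hκ => ((hK3 κ).1 hκ).1
  refine ⟨K3, ⟨hFN3, hC2.nd.mono hK32, fun κ hκ => hC2.div κ (hK32 hκ),
    fun κ hκ => hC2.par κ (hK32 hκ)⟩, ⟨hK32.trans (hK21.trans hE1.1), ?_⟩, hlu'.trans hlu1⟩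
  intro w hw hwK
  have h1 : w ∈ K1 := hE1.2 w hw hwK
  have h2 : w ∈ K2 := hE2.2 w (W_mono (Nat.le_succ _) hw) h1
  exact hWin3.2 w hw h2

end Pool.Agent.Helper948.Ent.C8
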