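import Pool.Agent.Helper948.Ent.Defs
import Pool.Agent.Helper948.Ent.B14
import Pool.Agent.Helper948.Ent.B2
import Pool.Agent.Helper948.Ent.B3
import Pool.Agent.Helper948.Ent.C8

/- solved by helper245 -/


set_option autoImplicit false

namespace Pool.Agent.Helper948.Ent.C9
open Pool.Agent.Helper948.Dom Pool.Agent.Helper948.Ent Pool.Agent.Helper948.Ent.B14 Pool.Agent.Helper948.Ent.B2 Pool.Agent.Helper948.Ent.B3 Pool.Agent.Helper948.Ent.C8








-- TARGET
/-- Take K1, δ, n0 from nc. Show that every element of LU I0 1 K1 (m+1) is at least sInf (LU I0 1 K m) + δ (this set is nonempty: n = 1, K' = K1, and bounded below by 0). Let K2, m2, n be a member (Cond K2 m2, Ext K1 (m+1) K2, m+1 ≤ m2, 0 < n ≤ m2+1). Let n' = n * (n0 + 1) and extend (K2, m2) to (K2', m2') with n' ≤ m2' + 1 (cond_ext). Then lu n K2 = lu n K2' (lu_win; Win K2 n K2' because n ≤ m2 + 1) ≥ lu n' K2' (lu_mono) ≥ lu n' K3 + δ (nc) and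
lu n' K3 ∈ LU I0 1 K m, so ≥ sInf. Rad I0 1 holds (words of length ≤ 1). -/
theorem cinc (K : Subgroup F) (m : ℕ) (h : Cond K m) : ∃ K1 : Subgroup F, Cond K1 (m + 1) ∧
    Ext K m K1 ∧ sInf (LU I0 1 K m) < sInf (LU I0 1 K1 (m + 1)) := by
  obtain ⟨K1, hK1, hE1, δ, hδ, n0, H⟩ := nc K m h
  refine ⟨K1, hK1, hE1, ?_⟩
  have hne : (LU I0 1 K1 (m + 1)).Nonempty :=
    ⟨_, K1, m + 1, 1, hK1, ⟨le_rfl, fun w _ hw => hw⟩, le_rfl, Nat.one_pos, by omega, rfl⟩
  have hbdd : BddBelow (LU I0 1 K m) := by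
    refine ⟨0, ?_⟩
    rintro u ⟨K', m', n, _, _, _, _, _, rfl⟩
    unfold lu
    exact div_nonneg (Real.log_natCast_nonneg _) (Nat.cast_nonneg _)
  have hrad : Rad I0 1 := by
    intro P hP q hq
    simp only [I0, List.mem_cons, List.not_mem_nil, or_false] at hP
    rcases hP with rfl | rfl
    · simp only [List.mem_cons, List.not_mem_nil, or_false] at hq
      rcases hq with rfl | rfl <;> simp
    · simp only [List.mem_cons, List.not_mem_nil, or_false] at hq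
      rcases hq with rfl | rfl <;> simp
  have key : ∀ u ∈ LU I0 1 K1 (m + 1), sInf (LU I0 1 K m) + δ ≤ u := by
    rintro u ⟨K2, m2, n, hC2, hE2, hm2, hn, hn2, rfl⟩
    have hjn : 0 < (n0 + 1) * n := Nat.mul_pos (Nat.succ_pos _) hn
    obtain ⟨K2', hC2', hE2'⟩ := cond_ext K2 m2 hC2 (max m2 ((n0 + 1) * n)) (le_max_left _ _)
    have hle : (n0 + 1) * n ≤ max m2 ((n0 + 1) * n) + 1 :=
      le_trans (le_max_right _ _) (Nat.le_succ _)
    have hE3 : Ext K1 (m + 1) K2' := ext_trans K1 K2 K2' (m + 1) m2 hE2 hE2' hm2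
    obtain ⟨K3, hC3, hE3', hlu⟩ := H ((n0 + 1) * n)
      (le_trans (Nat.le_succ _) (Nat.le_mul_of_pos_right _ hn)) hjn K2' _ hC2'
      (le_trans hm2 (le_max_left _ _)) hE3 hle
    have hdiv1 : Div ((n0 + 1) * n) K2' := by
      intro κ hκ
      exact dvd_trans (Int.natCast_dvd_natCast.mpr (Nat.dvd_factorial hjn hle)) (hC2'.div κ hκ)
    have hdiv2 : Div n K2 := by
      intro κ hκ
      exact dvd_trans (Int.natCast_dvd_natCast.mpr (Nat.dvd_factorial hn hn2)) (hC2.div κ hκ)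
    have h1 := lu_mono I0 1 n (n0 + 1) hn (Nat.succ_pos _) K2' hC2'.fn hdiv1
    have h2 : lu I0 1 n K2' = lu I0 1 n K2 :=
      lu_win I0 1 n K2 K2' hC2.fn hC2'.fn hn hdiv2 hrad
        ⟨hE2'.1, fun w hw hwK => hE2'.2 w (W_mono hn2 hw) hwK⟩
    have h3 : sInf (LU I0 1 K m) ≤ lu I0 1 ((n0 + 1) * n) K3 := by
      apply csInf_le hbdd
      exact ⟨K3, _, (n0 + 1) * n, hC3, hE3', le_trans (by omega) (le_max_left _ _), hjn, hle, rfl⟩
    linarith
  have := le_csInf hne key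
  linarith

end Pool.Agent.Helper948.Ent.C9
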