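import Pool.Agent.Helper948.Ent.Defs
import Pool.Agent.Helper948.Ent.B14
import Pool.Agent.Helper948.Ent.C9

/- solved by helper310 -/


set_option autoImplicit false

namespace Pool.Agent.Helper948.Ent.C10
open Pool.Agent.Helper948.Dom Pool.Agent.Helper948.Ent Pool.Agent.Helper948.Ent.B14 Pool.Agent.Helper948.Ent.C9








-- TARGET
/-- Iterate cinc: (K, m) = (K_0, m), (K_1, m+1), ... with strictly increasing values of sInf (LU ...) ; all satisfy Cond K_i (m+i) and Ext K m K_i (ext_trans; Ext K m K itself holds trivially). Since Z is finite and the values are distinct some value is not in Z. -/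
theorem avoid (K : Subgroup F) (m : ℕ) (h : Cond K m) (Z : Set ℝ) (hZ : Z.Finite) :
    ∃ (K1 : Subgroup F) (m1 : ℕ), m ≤ m1 ∧ Cond K1 m1 ∧ Ext K m K1 ∧
      sInf (LU I0 1 K1 m1) ∉ Z := by
  have key : ∀ (n : ℕ) (K : Subgroup F) (m : ℕ), Cond K m →
      ({z | z ∈ Z ∧ sInf (LU I0 1 K m) ≤ z}).ncard ≤ n →
      ∃ (K1 : Subgroup F) (m1 : ℕ), m ≤ m1 ∧ Cond K1 m1 ∧ Ext K m K1 ∧
        sInf (LU I0 1 K1 m1) ∉ Z := by
    intro n
    induction n with
    | zero =>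
      intro K m h hn
      by_cases hz : sInf (LU I0 1 K m) ∈ Z
      · exfalso
        have hfin : ({z | z ∈ Z ∧ sInf (LU I0 1 K m) ≤ z}).Finite := hZ.subset (fun z hz => hz.1)
        have h0 : ({z | z ∈ Z ∧ sInf (LU I0 1 K m) ≤ z}) = ∅ :=
          (Set.ncard_eq_zero hfin).1 (Nat.le_zero.1 hn)
        have : sInf (LU I0 1 K m) ∈ ({z | z ∈ Z ∧ sInf (LU I0 1 K m) ≤ z}) := ⟨hz, le_refl _⟩
        rw [h0] at this
        exact this
      · exact ⟨K, m, le_refl _, h, ⟨le_refl _, fun w _ hw => hw⟩, hz⟩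
    | succ n ih =>
      intro K m h hn
      by_cases hz : sInf (LU I0 1 K m) ∈ Z
      · obtain ⟨K1, hK1, hE, hlt⟩ := cinc K m h
        have hfin : ({z | z ∈ Z ∧ sInf (LU I0 1 K m) ≤ z}).Finite := hZ.subset (fun z hz => hz.1)
        have hss : ({z | z ∈ Z ∧ sInf (LU I0 1 K1 (m+1)) ≤ z}) ⊂ ({z | z ∈ Z ∧ sInf (LU I0 1 K m) ≤ z}) := by
          refine ⟨fun z hz' => ⟨hz'.1, hlt.le.trans hz'.2⟩, fun hsub => ?_⟩
          have : sInf (LU I0 1 K m) ∈ ({z | z ∈ Z ∧ sInf (LU I0 1 K1 (m+1)) ≤ z}) :=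
            hsub ⟨hz, le_refl _⟩
          exact absurd this.2 (not_le.2 hlt)
        have hcard := Set.ncard_lt_ncard hss hfin
        obtain ⟨K2, m2, hm, hC, hE2, hv⟩ := ih K1 (m+1) hK1 (by omega)
        exact ⟨K2, m2, by omega, hC, ext_trans K K1 K2 m (m+1) hE hE2 (by omega), hv⟩
      · exact ⟨K, m, le_refl _, h, ⟨le_refl _, fun w _ hw => hw⟩, hz⟩
  exact key _ K m h (le_refl _)


end Pool.Agent.Helper948.Ent.C10
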