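import Pool.Agent.Helper948.Ent.Defs

/- solved by helper4 -/


set_option autoImplicit false

namespace Pool.Agent.Helper948.Ent.C11
open Pool.Agent.Helper948.Dom Pool.Agent.Helper948.Ent






-- TARGET
/-- Limit of a chain. Normality: an infimum of normal subgroups. Win (Kc j) n Kinf for n ≤ mc j + 1: if w ∈ W n ∩ Kc j, then w ∈ Kc j' for all j' ≥ j by induction (W n ⊆ W (mc j + 1) ⊆ W (mc j' + 1), Ext), and for j' < j since the chain is decreasing. tz κ = 0 for κ in the infimum: (mc j + 1)! divides tz κ for all j and mc j → ∞. Finite index in W k: choose j with k ≤ mc j + 1; (Kc j).subgroupOf (W k) ≤ Kinf.subgroupOf (W k) and Kc j has finite index.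
See also limit_props in Pool/Agent/Helper948/Dom/JD.lean in the team repository. -/
theorem limit_group (Kc : ℕ → Subgroup F) (mc : ℕ → ℕ) (h1 : ∀ j, Cond (Kc j) (mc j))
    (h2 : ∀ j, mc j < mc (j + 1)) (h3 : ∀ j, Ext (Kc j) (mc j) (Kc (j + 1))) :
    (⨅ j, Kc j).Normal ∧ (∀ j n, n ≤ mc j + 1 → Win (Kc j) n (⨅ i, Kc i)) ∧
    (∀ κ ∈ (⨅ j, Kc j), tz κ = 0) ∧
    (∀ k : ℕ, ((⨅ j, Kc j).subgroupOf (W k)).FiniteIndex) := by
  have hanti : Antitone Kc := antitone_nat_of_succ_le fun j => (h3 j).1
  have hmono : StrictMono mc := strictMono_nat_of_lt_succ h2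
  have h4 : ∀ j, ∀ w ∈ W (mc j + 1), w ∈ Kc j → w ∈ ⨅ i, Kc i := by
    intro j w hw hj
    have h5 : ∀ i, w ∈ Kc (j + i) := by
      intro i
      induction i with
      | zero => exact hj
      | succ i ih =>
        have hle : mc j ≤ mc (j + i) := hmono.monotone (by omega)
        exact (h3 (j + i)).2 w (W_mono (by omega) hw) ih
    rw [Subgroup.mem_iInf]
    intro i
    rcases le_total i j with hij | hij
    · exact hanti hij hj
    · obtain ⟨k, rfl⟩ := Nat.exists_eq_add_of_le hij
      exact h5 k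
  refine ⟨Subgroup.normal_iInf_normal fun j => (h1 j).fn.normal, ?_, ?_, ?_⟩
  · intro j n hn
    exact ⟨iInf_le Kc j, fun w hw hj => h4 j w (W_mono hn hw) hj⟩
  · intro κ hκ
    by_contra hne
    set N := (tz κ).natAbs with hN
    have hNpos : 0 < N := Int.natAbs_pos.2 hne
    have hκN : κ ∈ Kc N := (iInf_le Kc N) hκ
    have hd := (h1 N).div κ hκN
    have hd2 : (mc N + 1).factorial ∣ N := Int.natCast_dvd.1 hd
    have h6 := Nat.le_of_dvd hNpos hd2
    have h7 : mc N + 1 ≤ (mc N + 1).factorial := Nat.self_le_factorial _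
    have h8 : N ≤ mc N := hmono.le_apply
    omega
  · intro k
    have hk : k ≤ mc k := hmono.le_apply
    have e : (⨅ j, Kc j).subgroupOf (W k) = (Kc k).subgroupOf (W k) := by
      ext ⟨w, hw⟩
      rw [Subgroup.mem_subgroupOf, Subgroup.mem_subgroupOf]
      constructor
      · intro h5
        exact (iInf_le Kc k) h5
      · intro h5
        exact h4 k w (W_mono (by omega) hw) h5
    rw [e]
    have := (h1 k).fn.fin
    infer_instance

end Pool.Agent.Helper948.Ent.C11
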