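import Pool.Agent.Helper948.Ent.Defs
import Pool.Agent.Helper948.Ent.B1

/- solved by helper712 -/


set_option autoImplicit false

namespace Pool.Agent.Helper948.Ent.C12
open Pool.Agent.Helper948.Dom Pool.Agent.Helper948.Ent Pool.Agent.Helper948.Ent.B1








-- TARGET
theorem folner_tz_mul (g h : F) : tz (g * h) = tz g + tz h := by
  simp [tz]

theorem folner_tz_inv (g : F) : tz g⁻¹ = - tz g := by
  simp [tz]

theorem folner_tz_ft : tz ft = 1 := by simp [tz, tau, ft]

theorem folner_tz_fa : tz fa = 0 := by simp [tz, tau, fa]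

theorem folner_tz_pow (i : ℕ) : tz (ft ^ i) = i := by
  induction i with
  | zero => simp [tz]
  | succ i ih => rw [pow_succ, folner_tz_mul, ih, folner_tz_ft]; push_cast; ring

theorem folner_tz_zpow (n : ℤ) : tz (ft ^ n) = n := by
  cases n with
  | ofNat n => simpa using folner_tz_pow n
  | negSucc n =>
    rw [zpow_negSucc, folner_tz_inv, folner_tz_pow]
    simp only [Int.negSucc_eq]
    push_cast; ring

theorem folner_tz_W (n : ℕ) (w : F) (hw : w ∈ W n) : tz w = 0 := by
  rw [W] at hw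
  induction hw using Subgroup.closure_induction with
  | mem x hx =>
    obtain ⟨i, hi, rfl⟩ := hx
    rw [A, folner_tz_mul, folner_tz_mul, folner_tz_inv, folner_tz_fa]; ring
  | one => simp [tz]
  | mul x y _ _ hx hy => rw [folner_tz_mul, hx, hy]; ring
  | inv x _ hx => rw [folner_tz_inv, hx]; ring

theorem folner_fin (Kinf : Subgroup F) [hn : Kinf.Normal] (n : ℕ)
    (hf : (Kinf.subgroupOf (W n)).FiniteIndex) :
    ((fun w : F => (w : F ⧸ Kinf)) '' (W n : Set F)).Finite := by
  let φ : W n →* F ⧸ Kinf := (QuotientGroup.mk' Kinf).comp (W n).subtype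
  have hker : φ.ker = Kinf.subgroupOf (W n) := by
    ext x
    rw [MonoidHom.mem_ker, Subgroup.mem_subgroupOf]
    exact QuotientGroup.eq_one_iff (N := Kinf) (x : F)
  have hfi : φ.ker.FiniteIndex := by rw [hker]; exact hf
  have h1 : Finite (W n ⧸ φ.ker) := inferInstance
  have h2 : Finite φ.range := Finite.of_equiv _ (QuotientGroup.quotientKerEquivRange φ).toEquiv
  have h3 : ((fun w : F => (w : F ⧸ Kinf)) '' (W n : Set F)) = (φ.range : Set (F ⧸ Kinf)) := by
    ext q
    constructor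
    · rintro ⟨w, hw, rfl⟩
      exact ⟨⟨w, hw⟩, rfl⟩
    · rintro ⟨⟨w, hw⟩, rfl⟩
      exact ⟨w, hw, rfl⟩
  rw [h3]
  exact Set.toFinite _

/-- Amenability of the limit group. t has infinite order modulo Kinf because tz (t^n) = n ≠ 0; so the quotient is infinite. Foelner sets: let π : F → F/Kinf. For n ≥ 1 let E_n = {π (t^{-i} w) : i < n, w ∈ W n}, a finite set (π (W n) is finite by hf); since tz (t^{-i} w) = -i it is the disjoint union over i < n of sets of the same size s_n = |π (W n)|. Given K finite choose words for its elements and let s be a bound for their lengths. For k = π (u), |u| ≤ s, and f = π (t^{-i} w) with s ≤ i, i + s ≤ n: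
by the path lemma u t^{-i} w = t^{-i'} (t^{i'} u t^{-i}) w with t^{i'} u t^{-i} ∈ W (i + s) ⊆ W n and i' ≤ i + s; choose i + s < n so that i' < n: k f ∈ E_n. So at most 2 s + 1 levels i are bad, and the number of elements of k E_n outside E_n is at most (2 s + 1) s_n < ε n s_n for n large. -/
theorem folner (Kinf : Subgroup F) [hn : Kinf.Normal] (h0 : ∀ κ ∈ Kinf, tz κ = 0)
    (hf : ∀ k : ℕ, (Kinf.subgroupOf (W k)).FiniteIndex) :
    Infinite (F ⧸ Kinf) ∧ (∀ n : ℤ, ((ft : F) : F ⧸ Kinf) ^ n = 1 → n = 0) ∧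
    ∀ K : Finset (F ⧸ Kinf), ∀ ε : ℝ, 0 < ε → ∃ E : Finset (F ⧸ Kinf), E.Nonempty ∧
      ∀ k ∈ K, ((((fun f => k * f) '' (E : Set (F ⧸ Kinf))) \ (E : Set (F ⧸ Kinf))).ncard : ℝ) <
        ε * (E.card : ℝ) := by
  classical
  have h2 : ∀ n : ℤ, ((ft : F) : F ⧸ Kinf) ^ n = 1 → n = 0 := by
    intro n hn1
    rw [← QuotientGroup.mk_zpow, QuotientGroup.eq_one_iff] at hn1
    rw [← folner_tz_zpow n]; exact h0 _ hn1
  refine ⟨?_, h2, ?_⟩
  · refine Infinite.of_injective (fun n : ℤ => ((ft : F) : F ⧸ Kinf) ^ n) ?_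
    intro a b hab
    have h3 : ((ft : F) : F ⧸ Kinf) ^ (a - b) = 1 := by
      rw [zpow_sub]
      simp only at hab
      rw [hab, mul_inv_cancel]
    have := h2 _ h3; omega
  · intro K ε hε
    have hrep : ∀ q : F ⧸ Kinf, ∃ u : List (Fin 2 × Bool), ((FreeGroup.mk u : F) : F ⧸ Kinf) = q := by
      intro q
      obtain ⟨g, rfl⟩ := QuotientGroup.mk_surjective q
      exact ⟨g.toWord, by rw [FreeGroup.mk_toWord]⟩
    choose rp' hrp using hrep
    obtain ⟨s, hs⟩ : ∃ s : ℕ, ∀ k ∈ K, (rp' k).length ≤ s :=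
      ⟨K.sup (fun q => (rp' q).length), fun k hk => Finset.le_sup (f := fun q => (rp' q).length) hk⟩
    obtain ⟨n, hnn⟩ := exists_nat_gt ((2 * s : ℝ) / ε)
    have hn1 : (2 * s : ℝ) < ε * n := by
      rw [div_lt_iff₀ hε] at hnn; linarith
    have hn0 : 0 < n := by
      rcases Nat.eq_zero_or_pos n with h | h
      · rw [h] at hn1
        have : (0 : ℝ) ≤ 2 * s := by positivity
        simp at hn1
        linarith
      · exact h
    have hfin := folner_fin Kinf n (hf n)
    obtain ⟨H, hH⟩ : ∃ H : Finset (F ⧸ Kinf), ∀ q, q ∈ H ↔ ∃ w ∈ W n, (w : F ⧸ Kinf) = q := by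
      refine ⟨hfin.toFinset, fun q => ?_⟩
      rw [Set.Finite.mem_toFinset]
      rfl
    have hH1 : 0 < H.card := Finset.card_pos.2 ⟨1, (hH 1).2 ⟨1, one_mem _, rfl⟩⟩
    let ψ : ℕ × (F ⧸ Kinf) → F ⧸ Kinf := fun p => (((ft : F) : F ⧸ Kinf) ^ p.1)⁻¹ * p.2
    have hψ : ∀ (i : ℕ) (w : F), ψ (i, (w : F ⧸ Kinf)) = (((ft ^ i)⁻¹ * w : F) : F ⧸ Kinf) := by
      intro i w
      rw [QuotientGroup.mk_mul, QuotientGroup.mk_inv, QuotientGroup.mk_pow]
    let E := (Finset.range n ×ˢ H).image ψ
    have hinj : Set.InjOn ψ (Finset.range n ×ˢ H : Finset (ℕ × (F ⧸ Kinf))) := by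
      rintro ⟨i, h⟩ hi ⟨j, h'⟩ hj hij
      rw [Finset.mem_coe, Finset.mem_product] at hi hj
      obtain ⟨w, hw, rfl⟩ := (hH h).1 hi.2
      obtain ⟨w', hw', rfl⟩ := (hH h').1 hj.2
      rw [hψ, hψ, QuotientGroup.eq] at hij
      have h3 := h0 _ hij
      rw [folner_tz_mul, folner_tz_inv, folner_tz_mul, folner_tz_mul, folner_tz_inv, folner_tz_inv,
        folner_tz_pow, folner_tz_pow, folner_tz_W n w hw, folner_tz_W n w' hw'] at h3
      have h4 : i = j := by omega
      subst h4
      have h5 : ψ (i, (w : F ⧸ Kinf)) = ψ (i, (w' : F ⧸ Kinf)) := by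
        rw [hψ, hψ, QuotientGroup.eq]; exact hij
      have h6 : (w : F ⧸ Kinf) = (w' : F ⧸ Kinf) := mul_left_cancel h5
      rw [h6]
    have hE : E.card = n * H.card := by
      rw [Finset.card_image_of_injOn hinj, Finset.card_product, Finset.card_range]
    have hE0 : 0 < E.card := by rw [hE]; exact Nat.mul_pos hn0 hH1
    refine ⟨E, Finset.card_pos.1 hE0, ?_⟩
    intro k hk
    let Bd : Finset ℕ := Finset.range s ∪ Finset.Ico (n - s) n
    have hBd : Bd.card ≤ 2 * s := by
      refine (Finset.card_union_le _ _).trans ?_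
      rw [Finset.card_range, Nat.card_Ico]
      omega
    have hsub : (((fun f => k * f) '' (E : Set (F ⧸ Kinf))) \ (E : Set (F ⧸ Kinf))) ⊆
        (((Bd ×ˢ H).image fun p => k * ψ p : Finset (F ⧸ Kinf)) : Set (F ⧸ Kinf)) := by
      rintro q ⟨⟨f, hfE, rfl⟩, hq⟩
      rw [Finset.mem_coe, Finset.mem_image] at hfE
      obtain ⟨⟨i, h⟩, hih, rfl⟩ := hfE
      rw [Finset.mem_product, Finset.mem_range] at hih
      rw [Finset.mem_coe, Finset.mem_image]
      refine ⟨(i, h), ?_, rfl⟩
      rw [Finset.mem_product]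
      refine ⟨?_, hih.2⟩
      by_contra hbd
      rw [Finset.mem_union, Finset.mem_range, Finset.mem_Ico] at hbd
      push Not at hbd
      have hi1 : s ≤ i := hbd.1
      have hi2 : i < n - s := by
        by_contra hc
        have := hbd.2 (not_lt.1 hc)
        have := hih.1
        simp only at this
        omega
      apply hq
      simp only
      obtain ⟨i', hi'1, hi'2, hi'3, hi'4⟩ := path (rp' k) s i (hs k hk) hi1
      obtain ⟨w, hw, hwq⟩ := (hH h).1 hih.2
      rw [Finset.mem_coe, Finset.mem_image]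
      refine ⟨(i', ((ft ^ i' * FreeGroup.mk (rp' k) * (ft ^ i)⁻¹ * w : F) : F ⧸ Kinf)), ?_, ?_⟩
      · rw [Finset.mem_product, Finset.mem_range]
        refine ⟨?_, ?_⟩
        · simp only; omega
        · rw [hH]
          refine ⟨_, mul_mem (W_mono (by omega) hi'4) hw, rfl⟩
      · rw [hψ]
        change _ = k * ψ (i, h)
        rw [← hwq, hψ, ← hrp k, ← QuotientGroup.mk_mul]
        simp only [hrp k]
        congr 1
        group
    have h7 : (((fun f => k * f) '' (E : Set (F ⧸ Kinf))) \ (E : Set (F ⧸ Kinf))).ncard ≤ 2 * s * H.card := by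
      refine (Set.ncard_le_ncard hsub (Finset.finite_toSet _)).trans ?_
      rw [Set.ncard_coe_finset]
      refine Finset.card_image_le.trans ?_
      rw [Finset.card_product]
      exact Nat.mul_le_mul_right _ hBd
    have h8 : ((((fun f => k * f) '' (E : Set (F ⧸ Kinf))) \ (E : Set (F ⧸ Kinf))).ncard : ℝ) ≤
        2 * s * H.card := by exact_mod_cast h7
    refine lt_of_le_of_lt h8 ?_
    rw [hE]
    push_cast
    have h9 : (0 : ℝ) < H.card := by exact_mod_cast hH1
    calc (2 * s * H.card : ℝ) < (ε * n) * H.card := mul_lt_mul_of_pos_right hn1 h9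
      _ = ε * (n * H.card) := by ring

end Pool.Agent.Helper948.Ent.C12
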