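import Pool.Agent.Helper948.Ent.Defs
import Pool.Agent.Helper948.Ent.B1
import Pool.Agent.Helper948.Ent.A1

/- solved by helper57 -/


set_option autoImplicit false

namespace Pool.Agent.Helper948.Ent.C2
open Pool.Agent.Helper948.Dom Pool.Agent.Helper948.Ent Pool.Agent.Helper948.Ent.B1 Pool.Agent.Helper948.Ent.A1








-- TARGET
theorem sl_tz_mul (g h : F) : tz (g * h) = tz g + tz h := by
  simp [tz, toAdd_mul]

theorem sl_ph_cast (n : ℕ) (hn : 0 < n) (g : F) : ((ph n g : ℕ) : ℤ) = tz g % (n : ℤ) := by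
  unfold ph
  exact Int.toNat_of_nonneg (Int.emod_nonneg _ (by omega))

theorem sl_ph_lt (n : ℕ) (hn : 0 < n) (g : F) : ph n g < n := by
  have h1 := sl_ph_cast n hn g
  have h2 := Int.emod_lt_of_pos (tz g) (show (0:ℤ) < n by omega)
  omega

theorem sl_ph_add (n : ℕ) (hn : 0 < n) (u g : F) (h0 : 0 ≤ (ph n g : ℤ) + tz u)
    (h1 : (ph n g : ℤ) + tz u < n) : ((ph n (u * g) : ℕ) : ℤ) = ph n g + tz u := by
  rw [sl_ph_cast n hn (u * g), sl_tz_mul]
  rw [sl_ph_cast n hn g] at h0 h1 ⊢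
  have e : (tz u + tz g) % (n : ℤ) = (tz g % n + tz u) % n := by
    rw [Int.emod_add_emod, add_comm]
  rw [e, Int.emod_eq_of_lt h0 h1]

theorem sl_ph_K {n : ℕ} {K : Subgroup F} (hd : Div n K) (g : F) {κ : F} (hκ : κ ∈ K) :
    ph n (g * κ) = ph n g := by
  unfold ph
  obtain ⟨c, hc⟩ := hd κ hκ
  rw [sl_tz_mul, hc, Int.add_mul_emod_self_left]

theorem sl_tz_le (u : List (Fin 2 × Bool)) (r : ℕ) (hu : u.length ≤ r) :
    tz (FreeGroup.mk u) ≤ r ∧ -(r : ℤ) ≤ tz (FreeGroup.mk u) := by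
  obtain ⟨i', h1, h2, h3, -⟩ := path u r r hu le_rfl
  constructor <;> omega

/-- the top of the vertical line through `g` -/
def sltop (n : ℕ) (g : F) : F := ft ^ (n - 1 - ph n g) * g

theorem sl_tile_K {n : ℕ} {K Kinf : Subgroup F} (hinf : Kinf.Normal) (hle : Kinf ≤ K)
    (hd : Div n K) (g : F) {κ : F} (hκ : κ ∈ Kinf) :
    sltop n (g * κ) * (sltop n g)⁻¹ ∈ W n ⊔ Kinf := by
  unfold sltop
  rw [sl_ph_K hd g (hle hκ)]
  have e : ft ^ (n - 1 - ph n g) * (g * κ) * (ft ^ (n - 1 - ph n g) * g)⁻¹ =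
      (ft ^ (n - 1 - ph n g) * g) * κ * (ft ^ (n - 1 - ph n g) * g)⁻¹ := by group
  rw [e]
  exact Subgroup.mem_sup_right (hinf.conj_mem κ hκ _)

theorem sl_tile_word {n r : ℕ} (hn : 0 < n) (Kinf : Subgroup F) (g : F)
    (u : List (Fin 2 × Bool)) (hu : u.length ≤ r) (h1 : r ≤ ph n g) (h2 : ph n g + r < n) :
    sltop n (FreeGroup.mk u * g) * (sltop n g)⁻¹ ∈ W n ⊔ Kinf := by
  obtain ⟨i', k1, k2, k3, k4⟩ := path u r (n - 1 - ph n g) hu (by omega)
  obtain ⟨t1, t2⟩ := sl_tz_le u r hu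
  have hp := sl_ph_add n hn (FreeGroup.mk u) g (by omega) (by omega)
  have e : n - 1 - ph n (FreeGroup.mk u * g) = i' := by omega
  unfold sltop
  rw [e]
  have e2 : ft ^ i' * (FreeGroup.mk u * g) * (ft ^ (n - 1 - ph n g) * g)⁻¹ =
      ft ^ i' * FreeGroup.mk u * (ft ^ (n - 1 - ph n g))⁻¹ := by group
  rw [e2]
  exact Subgroup.mem_sup_left (W_mono (by omega) k4)

theorem sl_tile_inj {n : ℕ} {K Kinf : Subgroup F} (hK : K.Normal) (hinf : Kinf.Normal)
    (hd : Div n K) (hw : Win K n Kinf) (g g' : F)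
    (h : sltop n g' * (sltop n g)⁻¹ ∈ W n ⊔ Kinf) (hk : g⁻¹ * g' ∈ K) : g⁻¹ * g' ∈ Kinf := by
  have hph : ph n g' = ph n g := by
    have := sl_ph_K hd g hk
    rwa [mul_inv_cancel_left] at this
  unfold sltop at h
  rw [hph] at h
  have e : ft ^ (n - 1 - ph n g) * g' * (ft ^ (n - 1 - ph n g) * g)⁻¹ =
      (ft ^ (n - 1 - ph n g) * g) * (g⁻¹ * g') * (ft ^ (n - 1 - ph n g) * g)⁻¹ := by group
  rw [e] at h
  obtain ⟨T, hT⟩ : ∃ T : F, T = ft ^ (n - 1 - ph n g) * g := ⟨_, rfl⟩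
  rw [← hT] at h
  haveI := hinf
  have h' : T * (g⁻¹ * g') * T⁻¹ ∈ ((W n ⊔ Kinf : Subgroup F) : Set F) := h
  rw [Subgroup.mul_normal] at h'
  obtain ⟨w, hw1, k, hk1, hwk⟩ := h'
  have hwk' : w * k = T * (g⁻¹ * g') * T⁻¹ := hwk
  have hwK : w ∈ K := by
    have : w = (T * (g⁻¹ * g') * T⁻¹) * k⁻¹ := by rw [← hwk']; group
    rw [this]
    exact K.mul_mem (hK.conj_mem _ hk T) (K.inv_mem (hw.1 hk1))
  have hwi : w ∈ Kinf := hw.2 w hw1 hwK
  have h3 : T * (g⁻¹ * g') * T⁻¹ ∈ Kinf := by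
    rw [← hwk']
    exact Kinf.mul_mem hwi hk1
  have h4 := hinf.conj_mem _ h3 T⁻¹
  have e4 : T⁻¹ * (T * (g⁻¹ * g') * T⁻¹) * T⁻¹⁻¹ = g⁻¹ * g' := by group
  rwa [e4] at h4

theorem sl_glue {I : Inp} {r n : ℕ} {K Kinf : Subgroup F} (hr : Rad I r) (hn : 0 < n)
    (hinf : Kinf.Normal) (hle : Kinf ≤ K) (hd : Div n K) {y : F → ℕ} (hy : y ∈ XS I K)
    {B : Type} (cl : F → B)
    (hcl : ∀ g g', sltop n g' * (sltop n g)⁻¹ ∈ W n ⊔ Kinf → cl g' = cl g)
    (X : B → F → ℕ) (hX : ∀ b, X b ∈ Fl I r n K y) :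
    (fun g => X (cl g) g) ∈ XS I Kinf := by
  refine ⟨⟨fun g => (hX (cl g)).1.1.1 g, ?_⟩, ?_⟩
  · intro g κ hκ
    change X (cl (g * κ)) (g * κ) = X (cl g) g
    rw [hcl g (g * κ) (sl_tile_K hinf hle hd g hκ)]
    exact (hX (cl g)).1.1.2 g κ (hle hκ)
  · intro g P hP hall
    by_cases hc : r ≤ ph n g ∧ ph n g + r < n
    · apply (hX (cl g)).1.2 g hc.1 hc.2 P hP
      intro q hq
      have h1 := hall q hq
      change X (cl (FreeGroup.mk q.1 * g)) (FreeGroup.mk q.1 * g) = q.2 at h1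
      rwa [hcl g _ (sl_tile_word hn Kinf g q.1 (hr P hP q hq) hc.1 hc.2)] at h1
    · apply hy.2 g P hP
      intro q hq
      have h1 := hall q hq
      change X (cl (FreeGroup.mk q.1 * g)) (FreeGroup.mk q.1 * g) = q.2 at h1
      rw [← h1]
      symm
      apply (hX _).2
      by_contra hcon
      push_neg at hcon
      apply hc
      obtain ⟨t1, t2⟩ := sl_tz_le q.1 r (hr P hP q hq)
      have hinv : tz (FreeGroup.mk q.1)⁻¹ = - tz (FreeGroup.mk q.1) := by
        have := sl_tz_mul (FreeGroup.mk q.1)⁻¹ (FreeGroup.mk q.1)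
        rw [inv_mul_cancel] at this
        have h0 : tz 1 = 0 := by simp [tz]
        omega
      have hlt := sl_ph_lt n hn (FreeGroup.mk q.1 * g)
      have hp := sl_ph_add n hn (FreeGroup.mk q.1)⁻¹ (FreeGroup.mk q.1 * g) (by omega) (by omega)
      rw [inv_mul_cancel_left, hinv] at hp
      constructor <;> omega

theorem sl_trans {I : Inp} {Kinf : Subgroup F} (hinf : Kinf.Normal) {x : F → ℕ}
    (hx : x ∈ XS I Kinf) (v : F) : (fun g => x (g * v)) ∈ XS I Kinf := by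
  refine ⟨⟨fun g => hx.1.1 _, ?_⟩, ?_⟩
  · intro g κ hκ
    change x (g * κ * v) = x (g * v)
    have h1 := hinf.conj_mem κ hκ v⁻¹
    have e : g * κ * v = g * v * (v⁻¹ * κ * v⁻¹⁻¹) := by group
    rw [e]
    exact hx.1.2 _ _ h1
  · intro g P hP hall
    apply hx.2 (g * v) P hP
    intro q hq
    have := hall q hq
    change x (FreeGroup.mk q.1 * g * v) = q.2 at this
    rwa [mul_assoc] at this

theorem sl_y_mem {I : Inp} {r n : ℕ} {K : Subgroup F} {y : F → ℕ} (hy : y ∈ XS I K) :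
    y ∈ Fl I r n K y :=
  ⟨⟨hy.1, fun g _ _ => hy.2 g⟩, fun _ _ => rfl⟩

open Classical in
theorem sl_part {I : Inp} {r n : ℕ} {K Kinf : Subgroup F} (hr : Rad I r) (hn : 0 < n)
    (hinf : Kinf.Normal) (hle : Kinf ≤ K) (hd : Div n K) {y : F → ℕ} (hy : y ∈ XS I K)
    {B : Type} (cl : F → B)
    (hcl : ∀ g g', sltop n g' * (sltop n g)⁻¹ ∈ W n ⊔ Kinf → cl g' = cl g)
    (E : Finset F) (v : F) (J : Finset B) (S : {b // b ∈ J} → Finset (F ⧸ K))
    (hS : ∀ b s, s ∈ S b → ∃ e ∈ E, cl (e * v) = b.1 ∧ ((e * v : F) : F ⧸ K) = s)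
    (Fam : Finset (F ⧸ K → ℕ)) (hFam : ∀ f ∈ Fam, ∃ x ∈ Fl I r n K y, ∀ g : F, f g = x g) :
    ∏ b : {b // b ∈ J}, (Fam.image (fun x => fun s : {s // s ∈ S b} => x s.1)).card ≤
      NX I Kinf E := by
  rw [← Fintype.card_piFinset, ← Set.ncard_coe_finset]
  unfold NX
  have hglue : ∀ φ ∈ Fintype.piFinset (fun b : {b // b ∈ J} =>
      Fam.image (fun x => fun s : {s // s ∈ S b} => x s.1)),
      ∃ z ∈ ((fun x : F → ℕ => (E : Set F).domRestrict x) '' XS I Kinf),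
        ∀ (b : {b // b ∈ J}) (e : F) (he : e ∈ E) (_ : cl (e * v) = b.1)
          (hs : ((e * v : F) : F ⧸ K) ∈ S b),
          z ⟨e, he⟩ = φ b ⟨_, hs⟩ := by
    intro φ hφ
    rw [Fintype.mem_piFinset] at hφ
    have hex : ∀ b : {b // b ∈ J}, ∃ x ∈ Fl I r n K y, ∀ (g : F) (hs : (g : F ⧸ K) ∈ S b),
        φ b ⟨_, hs⟩ = x g := by
      intro b
      obtain ⟨f, hf, hfe⟩ := Finset.mem_image.1 (hφ b)
      obtain ⟨x, hx, hxf⟩ := hFam f hf
      refine ⟨x, hx, fun g hs => ?_⟩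
      rw [← hxf g, ← hfe]
    choose X0 hX0 hX0e using hex
    have hX : ∀ b : B, (if h : b ∈ J then X0 ⟨b, h⟩ else y) ∈ Fl I r n K y := by
      intro b
      split_ifs with h
      · exact hX0 _
      · exact sl_y_mem hy
    have hx := sl_trans hinf (sl_glue hr hn hinf hle hd hy cl hcl
      (fun b => if h : b ∈ J then X0 ⟨b, h⟩ else y) hX) v
    refine ⟨_, ⟨_, hx, rfl⟩, ?_⟩
    intro b e he heb hs
    change (if h : cl (e * v) ∈ J then X0 ⟨cl (e * v), h⟩ else y) (e * v) = _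
    have hb : cl (e * v) ∈ J := by rw [heb]; exact b.2
    rw [dif_pos hb]
    have hb2 : (⟨cl (e * v), hb⟩ : {b // b ∈ J}) = b := Subtype.ext heb
    rw [hb2, hX0e b _ hs]
  choose! Z hZ1 hZ2 using hglue
  refine Set.ncard_le_ncard_of_injOn Z (fun φ hφ => hZ1 φ hφ) ?_ ?_
  · intro φ hφ φ' hφ' h
    funext b
    funext s
    obtain ⟨s, hs⟩ := s
    obtain ⟨e, he1, he2, rfl⟩ := hS b s hs
    have a1 := hZ2 φ hφ b e he1 he2 hs
    have a2 := hZ2 φ' hφ' b e he1 he2 hs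
    rw [← a1, ← a2, h]
  · refine Set.Finite.subset (Set.Finite.pi' (fun _ : ((E : Set F) : Type) => Set.finite_Iio I.1)) ?_
    rintro _ ⟨x, hx, rfl⟩ e
    exact hx.1.1 _

open Classical in
theorem sl_cover {n : ℕ} {K Kinf : Subgroup F} (hKn : K.Normal) [Fintype (F ⧸ K)]
    (hinf : Kinf.Normal) (hd : Div n K) (hw : Win K n Kinf)
    (E : Finset F) (hE : Dist Kinf E) {B : Type} (cl : F → B)
    (hcl : ∀ g g', cl g' = cl g → sltop n g' * (sltop n g)⁻¹ ∈ W n ⊔ Kinf)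
    (J : F ⧸ K → Finset B) (hJ : ∀ t, ∀ e ∈ E, cl (e * Quotient.out t) ∈ J t)
    (S : (Σ t : F ⧸ K, {b // b ∈ J t}) → Finset (F ⧸ K))
    (hS : ∀ (t : F ⧸ K) (e : F) (he : e ∈ E),
      ((e * Quotient.out t : F) : F ⧸ K) ∈ S ⟨t, ⟨cl (e * Quotient.out t), hJ t e he⟩⟩)
    (s : F ⧸ K) :
    E.card ≤ (Finset.univ.filter (fun j => s ∈ S j)).card := by
  have hte : ∀ e : F, ((e * Quotient.out ((e⁻¹ : F) * s : F ⧸ K) : F) : F ⧸ K) = s := by
    intro e
    rw [QuotientGroup.mk_mul, QuotientGroup.out_eq', QuotientGroup.mk_inv, mul_inv_cancel_left]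
  obtain ⟨τ, hτ⟩ : ∃ τ : F → F ⧸ K, τ = fun e => ((e⁻¹ : F) * s : F ⧸ K) := ⟨_, rfl⟩
  have hτe : ∀ e : F, ((e * Quotient.out (τ e) : F) : F ⧸ K) = s := by
    intro e; rw [hτ]; exact hte e
  have hcard : E.card = E.attach.card := Finset.card_attach.symm
  rw [hcard]
  refine Finset.card_le_card_of_injOn
    (fun e => (⟨τ e.1, ⟨cl (e.1 * Quotient.out (τ e.1)), hJ _ e.1 e.2⟩⟩ :
      Σ t : F ⧸ K, {b // b ∈ J t})) ?_ ?_
  · intro e _
    have h1 := hS (τ e.1) e.1 e.2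
    rw [hτe] at h1
    simpa using h1
  · intro e _ e' _ h
    rw [Sigma.mk.injEq] at h
    obtain ⟨h1, h2⟩ := h
    have key : ∀ (t t' : F ⧸ K) (b : {b // b ∈ J t}) (b' : {b // b ∈ J t'}), t = t' → HEq b b' →
        b'.1 = b.1 := by
      rintro t _ b b' rfl hb
      rw [eq_of_heq hb]
    have h3 : cl (e'.1 * Quotient.out (τ e'.1)) = cl (e.1 * Quotient.out (τ e.1)) :=
      key _ _ _ _ h1 h2
    rw [← h1] at h3
    have h3' := hcl _ _ h3
    have h4 : (e.1 * Quotient.out (τ e.1))⁻¹ * (e'.1 * Quotient.out (τ e.1)) ∈ K := by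
      rw [← QuotientGroup.eq, hτe e.1, h1, hτe e'.1]
    have h5 := sl_tile_inj hKn hinf hd hw _ _ h3' h4
    have h6 := hinf.conj_mem _ h5 (Quotient.out (τ e.1))
    have e6 : ∀ v : F, v * ((e.1 * v)⁻¹ * (e'.1 * v)) * v⁻¹ = e.1⁻¹ * e'.1 := by
      intro v; group
    rw [e6] at h6
    exact Subtype.ext (hE _ e.2 _ e'.2 h6)

theorem sl_fam {I : Inp} {r n : ℕ} {K : Subgroup F} (hfi : K.FiniteIndex) (y : F → ℕ) :
    ∃ Fam : Finset (F ⧸ K → ℕ), Fam.card = (Fl I r n K y).ncard ∧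
      (∀ f ∈ Fam, ∃ x ∈ Fl I r n K y, ∀ g : F, f g = x g) ∧
      ∀ x ∈ Fl I r n K y, ∃ f ∈ Fam, ∀ g : F, f g = x g := by
  have hout : ∀ g : F, g⁻¹ * (Quotient.out (g : F ⧸ K)) ∈ K := by
    intro g
    rw [← QuotientGroup.eq]
    exact (QuotientGroup.out_eq' (g : F ⧸ K)).symm
  have hinv : ∀ x ∈ Fl I r n K y, ∀ g : F, x (Quotient.out (g : F ⧸ K)) = x g := by
    intro x hx g
    have := hx.1.1.2 g _ (hout g)
    rwa [mul_inv_cancel_left] at this
  obtain ⟨D, hD⟩ : ∃ D : (F → ℕ) → (F ⧸ K → ℕ), D = fun x t => x (Quotient.out t) := ⟨_, rfl⟩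
  have hDa : ∀ x ∈ Fl I r n K y, ∀ g : F, D x (g : F ⧸ K) = x g := by
    intro x hx g
    rw [hD]
    exact hinv x hx g
  have hDinj : Set.InjOn D (Fl I r n K y) := by
    intro x hx x' hx' h
    funext g
    rw [← hDa x hx g, ← hDa x' hx' g, h]
  have hfin1 : (D '' Fl I r n K y).Finite := by
    refine Set.Finite.subset (Set.Finite.pi' (fun _ : F ⧸ K => Set.finite_Iio I.1)) ?_
    rintro _ ⟨x, hx, rfl⟩ t
    rw [hD]
    exact hx.1.1.1 _
  refine ⟨hfin1.toFinset, ?_, ?_, ?_⟩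
  · rw [← Set.ncard_image_of_injOn hDinj, Set.ncard_eq_toFinset_card _ hfin1]
  · intro f hf
    rw [Set.Finite.mem_toFinset] at hf
    obtain ⟨x, hx, rfl⟩ := hf
    exact ⟨x, hx, hDa x hx⟩
  · intro x hx
    exact ⟨D x, by rw [Set.Finite.mem_toFinset]; exact ⟨x, hx, rfl⟩, hDa x hx⟩

open Classical in
/-- the counting inequality -/
theorem sl_count (I : Inp) (r n : ℕ) (K Kinf : Subgroup F) (hr : Rad I r) (hn : 0 < n) (hK : FN K)
    (hinf : Kinf.Normal) (hd : Div n K) (hw : Win K n Kinf) (y : F → ℕ) (hy : y ∈ XS I K)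
    (E : Finset F) (hE : Dist Kinf E) :
    (Fl I r n K y).ncard ^ E.card ≤ (NX I Kinf E) ^ K.index ∧ 0 < (Fl I r n K y).ncard := by
  have hfi := hK.fin
  have hKn := hK.normal
  letI : Fintype (F ⧸ K) := Fintype.ofFinite _
  obtain ⟨Fam, hFc, hFm, hFm2⟩ := sl_fam (I := I) (r := r) (n := n) hfi y
  have hFne : Fam.Nonempty := by
    obtain ⟨f, hf, -⟩ := hFm2 y (sl_y_mem hy)
    exact ⟨f, hf⟩
  refine ⟨?_, by rw [← hFc]; exact hFne.card_pos⟩
  -- classes of tiles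
  obtain ⟨B, cl, hcl⟩ : ∃ (B : Type) (cl : F → B),
      ∀ g g', cl g' = cl g ↔ sltop n g' * (sltop n g)⁻¹ ∈ W n ⊔ Kinf := by
    refine ⟨Quotient (QuotientGroup.rightRel (W n ⊔ Kinf)), fun g => Quotient.mk'' (sltop n g), ?_⟩
    intro g g'
    rw [eq_comm, Quotient.eq'', QuotientGroup.rightRel_apply]
  obtain ⟨J, hJ⟩ : ∃ J : F ⧸ K → Finset B, ∀ t, J t = E.image (fun e => cl (e * Quotient.out t)) :=
    ⟨_, fun _ => rfl⟩
  have hJm : ∀ t, ∀ e ∈ E, cl (e * Quotient.out t) ∈ J t := by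
    intro t e he
    rw [hJ]
    exact Finset.mem_image_of_mem _ he
  obtain ⟨S, hS⟩ : ∃ S : (Σ t : F ⧸ K, {b // b ∈ J t}) → Finset (F ⧸ K),
      ∀ j, S j = (E.filter (fun e => cl (e * Quotient.out j.1) = j.2.1)).image
        (fun e => ((e * Quotient.out j.1 : F) : F ⧸ K)) := ⟨_, fun _ => rfl⟩
  have hcov := sl_cover hKn hinf hd hw E hE cl (fun g g' h => (hcl g g').1 h) J hJm S (by
    intro t e he
    rw [hS, Finset.mem_image]
    exact ⟨e, Finset.mem_filter.2 ⟨he, rfl⟩, rfl⟩)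
  have hsh := shearer Fam hFne S E.card (fun t => by convert hcov t)
  rw [← hFc]
  refine le_trans hsh ?_
  rw [Fintype.prod_sigma, Subgroup.index_eq_card, Nat.card_eq_fintype_card]
  refine le_trans (Finset.prod_le_prod' (g := fun _ => NX I Kinf E) ?_) (by
    rw [Finset.prod_const, Finset.card_univ])
  intro t _
  have hp := sl_part hr hn hinf hw.1 hd hy cl (fun g g' h => (hcl g g').2 h) E (Quotient.out t) (J t)
    (fun b => S ⟨t, b⟩) (by
      intro b s hs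
      change s ∈ S ⟨t, b⟩ at hs
      rw [hS, Finset.mem_image] at hs
      obtain ⟨e, he, hes⟩ := hs
      obtain ⟨he1, he2⟩ := Finset.mem_filter.1 he
      exact ⟨e, he1, he2, hes⟩) Fam hFm
  refine le_trans (le_of_eq ?_) hp
  refine Finset.prod_congr rfl fun b _ => ?_
  congr!

/-- Lower bound for the entropy of the limit group. First Fl I r n K y ⊆ XS I K: for x ∈ Fl and a point g with r ≤ ph g, ph g + r < n the pattern condition is in US; if ph g < r or ph g ≥ n - r then all points u g (|u| ≤ r) have phase < 2r or ≥ n - 2r (the phase changes by at most r, cyclically), where x = y. Tiles in F/Kinf: g ~ g' iff top g' ∈ W n * top g * Kinf, where top g = t^(n-1-ph g) g. Gluing claim: if χ : F → Fl I r n K y is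
a function which is constant on the tiles (and on cosets of Kinf), then x g := χ g g is in XS I Kinf. Proof: take g and words u of length ≤ r. If r ≤ ph g and ph g + r < n all the u g are in the tile of g (path lemma) so x (u g) = χ g (u g) and Av for χ g ∈ XS I K. Otherwise all u g have phase < 2r or ≥ n-2r and x (u g) = y (u g).
Now let q1, ..., qN ∈ F be representatives of F/K, N = K.index. For each v = q_a consider E v (right translate). Since XS I Kinf is invariant under right translations x ↦ x (· * v) (Kinf normal), NX I Kinf E = number of restrictions of XS I Kinf to E v. Partition E into the blocks of elements e with e v in the same tile of F/Kinf. On one tile the map to F/K is injective (if g, g' are in the same tile and g⁻¹ g' ∈ K then they have the same phase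
and top g' = w top g κ with w ∈ W n, hence w ∈ K, hence w ∈ Kinf by Win). By the gluing claim the number of restrictions to E v is at least the product over the blocks b of the number R(b, v) of restrictions of Fl I r n K y to the image of b v in F/K. Shearer's lemma (GIVEN) with T = F/K (finite), Fam = Fl I r n K y as functions on F/K and the sets S_(v,b) = image of b v: every point of F/K is covered by exactly |E| pairs (v, e), e v = that point.
So (ncard Fl)^|E| ≤ prod_(v,b) R(b,v) ≤ (NX I Kinf E)^N. Take logarithms and divide by N. (E is a set of elements distinct modulo Kinf; if E is empty both sides are 0 ≤ log 1.) -/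
theorem sl (I : Inp) (r n : ℕ) (K Kinf : Subgroup F) (hr : Rad I r) (hn : 0 < n) (hK : FN K)
    (hinf : Kinf.Normal) (hd : Div n K) (hw : Win K n Kinf) (y : F → ℕ) (hy : y ∈ XS I K)
    (E : Finset F) (hE : Dist Kinf E) :
    lf I r n K y * (E.card : ℝ) ≤ Real.log (NX I Kinf E : ℝ) := by
  obtain ⟨h1, h2⟩ := sl_count I r n K Kinf hr hn hK hinf hd hw y hy E hE
  haveI := hK.fin
  have hN : 0 < K.index := Nat.pos_of_ne_zero Subgroup.FiniteIndex.index_ne_zero
  have hNr : (0:ℝ) < (K.index : ℝ) := by exact_mod_cast hN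
  unfold lf
  have h3 : Real.log (((Fl I r n K y).ncard : ℝ) ^ E.card) ≤ Real.log ((NX I Kinf E : ℝ) ^ K.index) := by
    apply Real.log_le_log
    · have : (0:ℝ) < ((Fl I r n K y).ncard : ℝ) := by exact_mod_cast h2
      positivity
    · exact_mod_cast h1
  rw [Real.log_pow, Real.log_pow] at h3
  rw [div_mul_eq_mul_div, div_le_iff₀ hNr]
  linarith

end Pool.Agent.Helper948.Ent.C2
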