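import Pool.Agent.Helper948.Ent.Defs

/- solved by helper825 -/


set_option autoImplicit false

namespace Pool.Agent.Helper948.Ent.C3
open Pool.Agent.Helper948.Dom Pool.Agent.Helper948.Ent






-- TARGET
/-- the entropy of the colourings of F/K avoiding the patterns of I -/
noncomputable def entF (I : Inp) (K : Subgroup F) : ℝ :=
  ⨅ E : {E : Finset F // E.Nonempty ∧ Dist K E}, Real.log (NX I K E.1 : ℝ) / (E.1.card : ℝ)

/-- lift of a colouring of `F/K` to `F` -/
def bridge_lift {K : Subgroup F} {k : ℕ} (x : F ⧸ K → Fin k) : F → ℕ :=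
  fun h : F => ((x (h : F ⧸ K) : Fin k) : ℕ)

theorem bridge_XS (K : Subgroup F) [hK : K.Normal] (I : Inp) (S : Set (F ⧸ K → Fin I.1))
    (hS : ∀ x, x ∈ S ↔ ∀ g : F, Av I (bridge_lift x) g) : XS I K = bridge_lift '' S := by
  ext y
  constructor
  · rintro ⟨⟨hy1, hy2⟩, hy3⟩
    have hout : ∀ g : F, y (Quotient.out (g : F ⧸ K)) = y g := by
      intro g
      have h1 : ((Quotient.out (g : F ⧸ K) : F) : F ⧸ K) = (g : F ⧸ K) := QuotientGroup.out_eq' _
      have h2 : g⁻¹ * Quotient.out (g : F ⧸ K) ∈ K := by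
        rw [← QuotientGroup.eq]
        exact h1.symm
      have h3 := hy2 g _ h2
      rw [mul_inv_cancel_left] at h3
      exact h3
    have hly : bridge_lift (fun q : F ⧸ K => (⟨y (Quotient.out q), hy1 _⟩ : Fin I.1)) = y := by
      funext g
      exact hout g
    refine ⟨fun q => ⟨y (Quotient.out q), hy1 _⟩, ?_, hly⟩
    rw [hS, hly]
    exact hy3
  · rintro ⟨x, hx, rfl⟩
    refine ⟨⟨fun g => (x (g : F ⧸ K)).2, ?_⟩, (hS x).1 hx⟩
    intro g κ hκ
    unfold bridge_lift
    have : ((g * κ : F) : F ⧸ K) = (g : F ⧸ K) := by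
      rw [QuotientGroup.eq]
      have : (g * κ)⁻¹ * g = κ⁻¹ := by group
      rw [this]
      exact K.inv_mem hκ
    rw [this]

theorem bridge_ncard (K : Subgroup F) [hK : K.Normal] (I : Inp) (S : Set (F ⧸ K → Fin I.1))
    (hS : ∀ x, x ∈ S ↔ ∀ g : F, Av I (bridge_lift x) g) (E : Finset (F ⧸ K)) (E' : Finset F)
    (h1 : ∀ e ∈ E', (e : F ⧸ K) ∈ E) (h2 : ∀ q ∈ E, ∃ e ∈ E', (e : F ⧸ K) = q) :
    ((fun x : F ⧸ K → Fin I.1 => (E : Set (F ⧸ K)).restrict x) '' S).ncard = NX I K E' := by
  unfold NX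
  rw [bridge_XS K I S hS]
  let j : (↥(E : Set (F ⧸ K)) → Fin I.1) → (↥(E' : Set F) → ℕ) :=
    fun r e => ((r ⟨((e : F) : F ⧸ K), h1 e.1 e.2⟩ : Fin I.1) : ℕ)
  have hj : Function.Injective j := by
    intro r r' hrr
    funext q
    obtain ⟨e, he, heq⟩ := h2 q.1 q.2
    have h3 := congrFun hrr ⟨e, he⟩
    have h4 : r ⟨(e : F ⧸ K), h1 e he⟩ = r' ⟨(e : F ⧸ K), h1 e he⟩ := Fin.ext h3
    have h5 : (⟨(e : F ⧸ K), h1 e he⟩ : ↥(E : Set (F ⧸ K))) = q := Subtype.ext heq
    rw [h5] at h4
    exact h4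
  rw [← Set.ncard_image_of_injective _ hj, Set.image_image, Set.image_image]
  rfl

theorem bridge_main (K : Subgroup F) [hK : K.Normal] (I : Inp) (S : Set (F ⧸ K → Fin I.1))
    (hS : ∀ x, x ∈ S ↔ ∀ g : F, Av I (bridge_lift x) g) :
    (⨅ E : {E : Finset (F ⧸ K) // E.Nonempty},
      Real.log (((fun x : F ⧸ K → Fin I.1 => (E.1 : Set (F ⧸ K)).restrict x) '' S).ncard : ℝ)
        / (E.1.card : ℝ)) = entF I K := by
  classical
  unfold entF
  rw [iInf, iInf]
  congr 1
  ext v
  constructor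
  · rintro ⟨⟨E, hE⟩, rfl⟩
    have hcard : (E.image (fun q : F ⧸ K => (Quotient.out q : F))).card = E.card := by
      apply Finset.card_image_of_injective
      intro q q' h
      exact Quotient.out_injective h
    have hoe : ∀ q : F ⧸ K, ((Quotient.out q : F) : F ⧸ K) = q := fun q => QuotientGroup.out_eq' q
    refine ⟨⟨E.image (fun q : F ⧸ K => (Quotient.out q : F)), hE.image _, ?_⟩, ?_⟩
    · intro g hg h hh hgh
      rw [Finset.mem_image] at hg hh
      obtain ⟨q, _, rfl⟩ := hg
      obtain ⟨q', _, rfl⟩ := hh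
      have h3 : ((Quotient.out q : F) : F ⧸ K) = ((Quotient.out q' : F) : F ⧸ K) := by
        rw [QuotientGroup.eq]
        exact hgh
      rw [hoe, hoe] at h3
      rw [h3]
    · have := bridge_ncard K I S hS E (E.image (fun q : F ⧸ K => (Quotient.out q : F))) (by
        intro e he
        rw [Finset.mem_image] at he
        obtain ⟨q, hq, rfl⟩ := he
        rw [hoe]
        exact hq) (by
        intro q hq
        exact ⟨Quotient.out q, Finset.mem_image_of_mem _ hq, hoe q⟩)
      show Real.log ((NX I K (E.image (fun q : F ⧸ K => (Quotient.out q : F))) : ℕ) : ℝ) /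
        (((E.image (fun q : F ⧸ K => (Quotient.out q : F))).card : ℕ) : ℝ) = _
      rw [hcard, ← this]
  · rintro ⟨⟨E', hE', hD⟩, rfl⟩
    have hcard : (E'.image (fun g : F => (g : F ⧸ K))).card = E'.card := by
      apply Finset.card_image_of_injOn
      intro g hg h hh hgh
      exact hD g hg h hh (QuotientGroup.eq.1 hgh)
    refine ⟨⟨E'.image (fun g : F => (g : F ⧸ K)), hE'.image _⟩, ?_⟩
    have := bridge_ncard K I S hS (E'.image (fun g : F => (g : F ⧸ K))) E' (by
        intro e he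
        exact Finset.mem_image_of_mem _ he) (by
        intro q hq
        rw [Finset.mem_image] at hq
        exact hq)
    show Real.log ((((fun x : F ⧸ K → Fin I.1 =>
        ((E'.image (fun g : F => (g : F ⧸ K)) : Finset (F ⧸ K)) : Set (F ⧸ K)).restrict x) '' S).ncard : ℕ) : ℝ)
        / (((E'.image (fun g : F => (g : F ⧸ K))).card : ℕ) : ℝ) = _
    rw [hcard, this]

/-- Translation between colourings of the group F/K and K-invariant functions on F, first part. Choose for every d ∈ D a word v_d with class d. Let I = (k, L) where L is the list of all patterns [(v_d, p d) : d ∈ D], p : D → Fin k running over the restrictions to D of the elements of P (a finite set; use Finset.toList). Colourings x : F/K → Fin k correspond to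
K-invariant functions F → ℕ with values < k, the condition of the frozen statement (for all g and p ∈ P there is d ∈ D with x (d g) ≠ p d) corresponds to Av. A finite nonempty set E of F/K corresponds to a set of representatives in F (distinct modulo K) and conversely, with the same number of restrictions and the same cardinality. So the two infima are over the same set of values. -/
theorem bridge1 (K : Subgroup F) [hK : K.Normal] (k : ℕ) (D : Finset (F ⧸ K))
    (P : Set (F ⧸ K → Fin k)) : ∃ I : Inp, I.1 = k ∧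
      (⨅ E : {E : Finset (F ⧸ K) // E.Nonempty},
          Real.log (((fun x : F ⧸ K → Fin k => (E.1 : Set (F ⧸ K)).restrict x) ''
            {x : F ⧸ K → Fin k | ∀ g : F ⧸ K, ∀ p ∈ P, ∃ d ∈ D, x (d * g) ≠ p d}).ncard : ℝ)
            / (E.1.card : ℝ)) = entF I K := by
  classical
  let R : Finset (D → Fin k) := Finset.univ.filter (fun ρ => ∃ p ∈ P, ∀ d : D, p d.1 = ρ d)
  let L : List (List (List (Fin 2 × Bool) × ℕ)) :=
    R.toList.map (fun ρ => D.attach.toList.map
      (fun d => ((Quotient.out d.1 : F).toWord, ((ρ d : Fin k) : ℕ))))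
  refine ⟨(k, L), rfl, bridge_main K (k, L) _ ?_⟩
  intro x
  have hoe : ∀ q : F ⧸ K, ((Quotient.out q : F) : F ⧸ K) = q := fun q => QuotientGroup.out_eq' q
  have hval : ∀ (d : F ⧸ K) (g : F),
      bridge_lift x (FreeGroup.mk (Quotient.out d : F).toWord * g) = ((x (d * (g : F ⧸ K)) : Fin k) : ℕ) := by
    intro d g
    rw [FreeGroup.mk_toWord]
    unfold bridge_lift
    rw [QuotientGroup.mk_mul, hoe]
  constructor
  · intro hx g Q hQ hcon
    have hQ' : Q ∈ L := hQ
    simp only [L, List.mem_map, Finset.mem_toList] at hQ'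
    obtain ⟨ρ, hρ, rfl⟩ := hQ'
    simp only [R, Finset.mem_filter, Finset.mem_univ, true_and] at hρ
    obtain ⟨p, hp, hpρ⟩ := hρ
    obtain ⟨d, hd, hne⟩ := hx (g : F ⧸ K) p hp
    apply hne
    have h3 := hcon ((Quotient.out d : F).toWord, ((ρ ⟨d, hd⟩ : Fin k) : ℕ)) (by
      rw [List.mem_map]
      exact ⟨⟨d, hd⟩, by simp, rfl⟩)
    have h4 : bridge_lift x (FreeGroup.mk (Quotient.out d : F).toWord * g) = ((ρ ⟨d, hd⟩ : Fin k) : ℕ) := h3
    rw [hval] at h4
    rw [hpρ ⟨d, hd⟩]
    exact Fin.ext h4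
  · intro hx g p hp
    by_contra hcon
    push Not at hcon
    obtain ⟨g', rfl⟩ := QuotientGroup.mk_surjective g
    refine hx g' (D.attach.toList.map
      (fun d => ((Quotient.out d.1 : F).toWord, ((p d.1 : Fin k) : ℕ)))) ?_ ?_
    · show _ ∈ L
      simp only [L, List.mem_map, Finset.mem_toList]
      refine ⟨fun d => p d.1, ?_, rfl⟩
      simp only [R, Finset.mem_filter, Finset.mem_univ, true_and]
      exact ⟨p, hp, fun d => rfl⟩
    · intro q hq
      rw [List.mem_map] at hq
      obtain ⟨d, _, rfl⟩ := hq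
      show bridge_lift x (FreeGroup.mk (Quotient.out d.1 : F).toWord * g') = _
      rw [hval, hcon d.1 d.2]

/-- Second part: k = I.1, D = the set of classes of all words occurring in the patterns of I (Finset), P = the set of all p : F/K → Fin k for which there is a pattern Q ∈ I.2 such that p (class of q.1) = q.2 for all q ∈ Q and ... careful: the statement needs: x violates at g iff x (d g) = p d for all d ∈ D for some p ∈ P. Take P = {p | ∃ Q ∈ I.2, ∀ q ∈ Q, (p (class of q.1) : ℕ) = q.2};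
then (∃ p ∈ P, ∀ d ∈ D, x (d g) = p d) iff (∃ Q ∈ I.2, ∀ q ∈ Q, x (q.1 g) = q.2): from right to left use p d = x (d g). -/
theorem bridge2 (K : Subgroup F) [hK : K.Normal] (I : Inp) :
    ∃ k : ℕ, ∃ D : Finset (F ⧸ K), ∃ P : Set (F ⧸ K → Fin k), entF I K =
      ⨅ E : {E : Finset (F ⧸ K) // E.Nonempty},
          Real.log (((fun x : F ⧸ K → Fin k => (E.1 : Set (F ⧸ K)).restrict x) ''
            {x : F ⧸ K → Fin k | ∀ g : F ⧸ K, ∀ p ∈ P, ∃ d ∈ D, x (d * g) ≠ p d}).ncard : ℝ)
            / (E.1.card : ℝ) := by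
  classical
  refine ⟨I.1, (I.2.flatMap (fun Q => Q.map (fun q => ((FreeGroup.mk q.1 : F) : F ⧸ K)))).toFinset,
    {p | ∃ Q ∈ I.2, ∀ q ∈ Q, ((p ((FreeGroup.mk q.1 : F) : F ⧸ K) : Fin I.1) : ℕ) = q.2}, ?_⟩
  symm
  apply bridge_main K I
  intro x
  constructor
  · intro hx g Q hQ hcon
    obtain ⟨d, hd, hne⟩ := hx (g : F ⧸ K) (fun c => x (c * (g : F ⧸ K))) ⟨Q, hQ, fun q hq => hcon q hq⟩
    exact hne rfl
  · intro hx g p hp
    obtain ⟨Q, hQ, hpQ⟩ := hp
    by_contra hcon
    push Not at hcon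
    obtain ⟨g', rfl⟩ := QuotientGroup.mk_surjective g
    refine hx g' Q hQ ?_
    intro q hq
    have hd : ((FreeGroup.mk q.1 : F) : F ⧸ K) ∈
        (I.2.flatMap (fun Q => Q.map (fun q => ((FreeGroup.mk q.1 : F) : F ⧸ K)))).toFinset := by
      rw [List.mem_toFinset, List.mem_flatMap]
      exact ⟨Q, hQ, List.mem_map.2 ⟨q, hq, rfl⟩⟩
    have h3 := hcon _ hd
    show ((x ((FreeGroup.mk q.1 * g' : F) : F ⧸ K) : Fin I.1) : ℕ) = q.2
    rw [QuotientGroup.mk_mul, h3]
    exact hpQ q hq

end Pool.Agent.Helper948.Ent.C3
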