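import Pool.Agent.Helper948.Ent.Code

/- solved by helper600 -/


set_option autoImplicit false

namespace Pool.Agent.Helper948.Ent.D1
open Pool.Agent.Helper948.Dom Pool.Agent.Helper948.Ent








-- TARGET
theorem reg_sub_mem_wordsEq (L : ℕ) : ∀ (n : ℕ) (w : List ℕ),
    w ∈ wordsEq L n ↔ w.length = n ∧ ∀ j ∈ w, j < L := by
  intro n
  induction n with
  | zero =>
    intro w
    simp only [wordsEq, List.mem_singleton, List.length_eq_zero_iff]
    constructor
    · rintro rfl
      exact ⟨rfl, by simp⟩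
    · exact fun h => h.1
  | succ n ih =>
    intro w
    simp only [wordsEq, List.mem_flatMap, List.mem_map, List.mem_range]
    constructor
    · rintro ⟨w', hw', j, hj, rfl⟩
      obtain ⟨h1, h2⟩ := (ih w').1 hw'
      refine ⟨by simp [h1], ?_⟩
      intro i hi
      rcases List.mem_cons.1 hi with rfl | hi
      · exact hj
      · exact h2 i hi
    · rintro ⟨h1, h2⟩
      cases w with
      | nil => simp at h1
      | cons j w' =>
        refine ⟨w', (ih w').2 ⟨by simpa using h1, fun i hi => h2 i (List.mem_cons_of_mem _ hi)⟩, j,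
          h2 j List.mem_cons_self, rfl⟩

theorem reg_sub_mem_words (L n : ℕ) (w : List ℕ) :
    w ∈ words L n ↔ w.length ≤ n ∧ ∀ j ∈ w, j < L := by
  simp only [words, List.mem_flatMap, List.mem_range, reg_sub_mem_wordsEq]
  constructor
  · rintro ⟨m, hm, h1, h2⟩
    exact ⟨by omega, h2⟩
  · rintro ⟨h1, h2⟩
    exact ⟨w.length, by omega, rfl, h2⟩

theorem reg_sub_lcode_lt (s : Fin 2 × Bool) : lcode s < 4 := by
  obtain ⟨i, b⟩ := s
  fin_cases i <;> cases b <;> simp [lcode]

theorem reg_sub_enc_surj (w : List ℕ) (h : ∀ j ∈ w, j < 4) :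
    ∃ w' : List (Fin 2 × Bool), enc w' = w := by
  induction w with
  | nil => exact ⟨[], rfl⟩
  | cons j w ih =>
    obtain ⟨w', hw'⟩ := ih (fun i hi => h i (List.mem_cons_of_mem _ hi))
    have hj := h j List.mem_cons_self
    obtain ⟨s, hs⟩ : ∃ s : Fin 2 × Bool, lcode s = j := by
      interval_cases j
      · exact ⟨(0, true), rfl⟩
      · exact ⟨(0, false), rfl⟩
      · exact ⟨(1, true), rfl⟩
      · exact ⟨(1, false), rfl⟩
    refine ⟨s :: w', ?_⟩
    change lcode s :: enc w' = _
    rw [hs, hw']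

theorem reg_sub_enc_lt (w : List (Fin 2 × Bool)) : ∀ j ∈ enc w, j < 4 := by
  intro j hj
  unfold enc at hj
  obtain ⟨s, _, rfl⟩ := List.mem_map.1 hj
  exact reg_sub_lcode_lt s

/-- the permutation given by the tables -/
def reg_sub_perm (N : ℕ) (T : List (List ℕ))
    (h : ∀ v < N, ∀ j < 4, step T j v < N ∧ step T (linv j) (step T j v) = v) (i : Fin 2) :
    Equiv.Perm (Fin N) where
  toFun v := ⟨step T (2 * (i : ℕ)) v, (h v v.2 _ (by omega)).1⟩
  invFun v := ⟨step T (2 * (i : ℕ) + 1) v, (h v v.2 _ (by omega)).1⟩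
  left_inv v := by
    apply Fin.ext
    have h1 := (h v v.2 (2 * (i : ℕ)) (by omega)).2
    have h2 : linv (2 * (i : ℕ)) = 2 * (i : ℕ) + 1 := by
      unfold linv
      rw [if_pos (by omega)]
    rw [h2] at h1
    exact h1
  right_inv v := by
    apply Fin.ext
    have h1 := (h v v.2 (2 * (i : ℕ) + 1) (by omega)).2
    have h2 : linv (2 * (i : ℕ) + 1) = 2 * (i : ℕ) := by
      unfold linv
      rw [if_neg (by omega)]
      omega
    rw [h2] at h1
    exact h1

theorem reg_sub_lw (N : ℕ) (T : List (List ℕ))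
    (h : ∀ v < N, ∀ j < 4, step T j v < N ∧ step T (linv j) (step T j v) = v)
    (w : List (Fin 2 × Bool)) :
    ∀ v : Fin N, (((FreeGroup.lift (reg_sub_perm N T h) (FreeGroup.mk w)) v : Fin N) : ℕ) =
      lw T (enc w) v := by
  induction w with
  | nil =>
    intro v
    have : (FreeGroup.mk ([] : List (Fin 2 × Bool))) = 1 := rfl
    rw [this, map_one]
    rfl
  | cons s w ih =>
    intro v
    have h1 : FreeGroup.mk (s :: w) = FreeGroup.mk [s] * FreeGroup.mk w := by
      rw [FreeGroup.mul_mk]
      rfl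
    rw [h1, map_mul, Equiv.Perm.mul_apply]
    have h2 : ∀ u : Fin N, (((FreeGroup.lift (reg_sub_perm N T h) (FreeGroup.mk [s])) u : Fin N) : ℕ) =
        step T (lcode s) u := by
      intro u
      obtain ⟨i, b⟩ := s
      cases b with
      | true =>
        have h3 : FreeGroup.mk [(i, true)] = FreeGroup.of i := rfl
        rw [h3, FreeGroup.lift_apply_of]
        simp only [lcode, if_true, add_zero]
        rfl
      | false =>
        have h3 : FreeGroup.mk [(i, false)] = (FreeGroup.of i)⁻¹ := rfl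
        rw [h3, map_inv, FreeGroup.lift_apply_of]
        rfl
    rw [h2, ih]
    rfl

theorem reg_sub_comm (N : ℕ) (T R : List (List ℕ)) (h : Reg N T R) (v : ℕ) (hv : v < N)
    (w : List ℕ) (hw : ∀ j ∈ w, j < 4) :
    ∀ u < N, lw T w u < N ∧ step R v (lw T w u) = lw T w (step R v u) := by
  induction w with
  | nil =>
    intro u hu
    exact ⟨hu, rfl⟩
  | cons j w ih =>
    intro u hu
    obtain ⟨h1, h2⟩ := ih (fun i hi => hw i (List.mem_cons_of_mem _ hi)) u hu
    have hj := hw j List.mem_cons_self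
    change step T j (lw T w u) < N ∧ step R v (step T j (lw T w u)) = step T j (lw T w (step R v u))
    refine ⟨(h.2.1 _ h1 j hj).1, ?_⟩
    rw [((h.2.2.2 v hv).2 _ h1).2 j hj, h2]

/-- Regular tables. (1) From the tables: the letters act by permutations of {0..N-1} (first condition of Reg; note linv (linv j) = j for j < 4), this defines a homomorphism F → Perm (Fin N) with FreeGroup.mk w acting as lw T (enc w). K = stabiliser of 0. The maps R v commute with the action and map 0 to v, the action is transitive; so an element fixing 0 fixes every point: K is also the kernel, hence normal,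
and the index is N (orbit of 0). (2) Conversely let Q = F/K with N = K.index elements and an enumeration e : Q ≃ Fin N with e 1 = 0; T = list of the four tables v ↦ e (letter * e⁻¹ v); R v = list of e (e⁻¹ u * e⁻¹ v). Every point is reached from 0 by a word of length ≤ N (shortest word; the intermediate points are distinct). See also Pool/Agent/Helper948/Dom/KA.lean, KB.lean, KC.lean in the team repository (there the action is from the right). -/
theorem reg_sub (N : ℕ) (T R : List (List ℕ)) (h : Reg N T R) :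
    ∃ K : Subgroup F, FN K ∧ IsK K T ∧ K.index = N := by
  obtain ⟨hN, hval, hreach, hR⟩ := id h
  set φ : F →* Equiv.Perm (Fin N) := FreeGroup.lift (reg_sub_perm N T hval) with hφ
  have hlw : ∀ (w : List (Fin 2 × Bool)) (v : Fin N),
      ((φ (FreeGroup.mk w) v : Fin N) : ℕ) = lw T (enc w) v := reg_sub_lw N T hval
  have hker : ∀ g : F, φ g ⟨0, hN⟩ = ⟨0, hN⟩ → φ g = 1 := by
    intro g hg
    obtain ⟨w, rfl⟩ : ∃ w, FreeGroup.mk w = g := ⟨g.toWord, FreeGroup.mk_toWord⟩
    have h0 : lw T (enc w) 0 = 0 := by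
      have := hlw w ⟨0, hN⟩
      rw [hg] at this
      exact this.symm
    ext v
    rw [hlw w v]
    have h1 := (reg_sub_comm N T R h v v.2 (enc w) (reg_sub_enc_lt w) 0 hN).2
    rw [h0, (hR v v.2).1] at h1
    exact h1.symm
  refine ⟨φ.ker, ⟨inferInstance, Subgroup.finiteIndex_ker _⟩, ?_, ?_⟩
  · intro w
    rw [MonoidHom.mem_ker]
    constructor
    · intro h1
      have h2 := hlw w ⟨0, hN⟩
      rw [h1] at h2
      exact h2.symm
    · intro h1
      apply hker
      apply Fin.ext
      rw [hlw w]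
      exact h1
  · rw [Subgroup.index_ker]
    have hbij : Function.Bijective (fun σ : φ.range => (σ.1 ⟨0, hN⟩ : Fin N)) := by
      constructor
      · rintro ⟨_, g, rfl⟩ ⟨_, g', rfl⟩ hgg
        simp only at hgg
        apply Subtype.ext
        simp only
        have h1 : φ (g'⁻¹ * g) ⟨0, hN⟩ = ⟨0, hN⟩ := by
          rw [map_mul, Equiv.Perm.mul_apply, hgg, map_inv]
          simp
        have h2 := hker _ h1
        rw [map_mul, map_inv, inv_mul_eq_one] at h2
        exact h2.symm
      · intro v
        obtain ⟨w, hw, hwv⟩ := hreach v v.2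
        obtain ⟨w', hw'⟩ := reg_sub_enc_surj w ((reg_sub_mem_words 4 N w).1 hw).2
        refine ⟨⟨φ (FreeGroup.mk w'), FreeGroup.mk w', rfl⟩, ?_⟩
        apply Fin.ext
        simp only
        rw [hlw w', hw']
        exact hwv
    rw [Nat.card_congr (Equiv.ofBijective _ hbij), Nat.card_fin]

theorem exists_reg_step (n N : ℕ) (f : ℕ → ℕ → ℕ) (j v : ℕ) (hj : j < n) (hv : v < N) :
    step ((List.range n).map (fun j => (List.range N).map (f j))) j v = f j v := by
  have h1 : ((List.range n).map (fun j => (List.range N).map (f j))).getD j [] =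
      (List.range N).map (f j) := by
    have hl : j < ((List.range n).map (fun j => (List.range N).map (f j))).length := by
      simpa using hj
    rw [List.getD_eq_getElem _ _ hl, List.getElem_map, List.getElem_range]
  have hl2 : v < ((List.range N).map (f j)).length := by
    simpa using hv
  unfold step
  rw [h1, List.getD_eq_getElem _ _ hl2, List.getElem_map, List.getElem_range]

/-- group element of a letter -/
def exists_reg_gl (j : ℕ) : F :=
  if j = 0 then fa else if j = 1 then fa⁻¹ else if j = 2 then ft else ft⁻¹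

theorem exists_reg_gl_mul (j : ℕ) (hj : j < 4) :
    exists_reg_gl (linv j) * exists_reg_gl j = 1 := by
  interval_cases j <;> simp [exists_reg_gl, linv]

theorem exists_reg_linv_lt (j : ℕ) (hj : j < 4) : linv j < 4 := by
  interval_cases j <;> simp [linv]

theorem exists_reg_mk_letter (s : Fin 2 × Bool) :
    FreeGroup.mk [s] = exists_reg_gl (lcode s) := by
  obtain ⟨i, b⟩ := s
  fin_cases i <;> cases b <;>
    simp [exists_reg_gl, lcode, fa, ft, FreeGroup.of, FreeGroup.inv_mk, FreeGroup.invRev]

theorem exists_reg_short {Q : Type} [Group Q] (π : F →* Q) (hπ : Function.Surjective π) (N : ℕ)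
    (e : Q ≃ Fin N) (q : Q) : ∃ w : List (Fin 2 × Bool), w.length ≤ N ∧ π (FreeGroup.mk w) = q := by
  classical
  have hex : ∃ n, ∃ w : List (Fin 2 × Bool), w.length = n ∧ π (FreeGroup.mk w) = q := by
    obtain ⟨g, hg⟩ := hπ q
    exact ⟨_, g.toWord, rfl, by rw [FreeGroup.mk_toWord, hg]⟩
  obtain ⟨w, hw, hwq⟩ := Nat.find_spec hex
  refine ⟨w, ?_, hwq⟩
  by_contra hcon
  push Not at hcon
  obtain ⟨i, j, hij, hf⟩ := Fintype.exists_ne_map_eq_of_card_lt
    (fun i : Fin (w.length + 1) => e (π (FreeGroup.mk (w.drop i)))) (by simp; omega)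
  have key : ∀ i j : ℕ, i < j → j ≤ w.length →
      π (FreeGroup.mk (w.drop i)) = π (FreeGroup.mk (w.drop j)) → False := by
    intro i j hij hj he
    have h1 : π (FreeGroup.mk (w.take i ++ w.drop j)) = q := by
      rw [← FreeGroup.mul_mk, map_mul, ← he, ← map_mul, FreeGroup.mul_mk, List.take_append_drop, hwq]
    have h2 := Nat.find_min' hex ⟨w.take i ++ w.drop j, rfl, h1⟩
    rw [List.length_append, List.length_take, List.length_drop] at h2
    omega
  have hf' : π (FreeGroup.mk (w.drop i)) = π (FreeGroup.mk (w.drop j)) := e.injective hf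
  rcases lt_or_gt_of_ne (fun h : (i : ℕ) = j => hij (Fin.ext h)) with h1 | h1
  · exact key i j h1 (by omega) hf'
  · exact key j i h1 (by omega) hf'.symm


theorem exists_reg (K : Subgroup F) (hK : FN K) :
    ∃ T R : List (List ℕ), Reg K.index T R ∧ IsK K T := by
  classical
  have _i1 := hK.normal
  have _i2 := hK.fin
  have _i3 : Finite (F ⧸ K) := Subgroup.finite_quotient_of_finiteIndex
  set N : ℕ := K.index with hNdef
  have hN : 0 < N := Nat.pos_of_ne_zero _i2.index_ne_zero
  let e0 : (F ⧸ K) ≃ Fin N := Finite.equivFin (F ⧸ K)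
  let e : (F ⧸ K) ≃ Fin N := e0.trans (Equiv.swap (e0 1) ⟨0, hN⟩)
  have he1 : e 1 = ⟨0, hN⟩ := by
    change Equiv.swap (e0 1) ⟨0, hN⟩ (e0 1) = ⟨0, hN⟩
    exact Equiv.swap_apply_left _ _
  let π : F →* (F ⧸ K) := QuotientGroup.mk' K
  have hπ : ∀ g : F, π g = 1 ↔ g ∈ K := fun g => QuotientGroup.eq_one_iff g
  let act : ℕ → ℕ → ℕ := fun j v =>
    if h : v < N then (e (π (exists_reg_gl j) * e.symm ⟨v, h⟩) : ℕ) else 0
  let ract : ℕ → ℕ → ℕ := fun v u =>
    if h : v < N ∧ u < N then (e (e.symm ⟨u, h.2⟩ * e.symm ⟨v, h.1⟩) : ℕ) else 0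
  set T : List (List ℕ) := (List.range 4).map (fun j => (List.range N).map (act j)) with hT
  set R : List (List ℕ) := (List.range N).map (fun j => (List.range N).map (ract j)) with hR
  have hstep : ∀ j < 4, ∀ q : F ⧸ K, step T j (e q : ℕ) = (e (π (exists_reg_gl j) * q) : ℕ) := by
    intro j hj q
    rw [hT, exists_reg_step 4 N act j _ hj (e q).2]
    simp only [act]
    rw [dif_pos (e q).2, Fin.eta, Equiv.symm_apply_apply]
  have hrstep : ∀ p q : F ⧸ K, step R (e p : ℕ) (e q : ℕ) = (e (q * p) : ℕ) := by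
    intro p q
    rw [hR, exists_reg_step N N ract _ _ (e p).2 (e q).2]
    simp only [ract]
    rw [dif_pos ⟨(e p).2, (e q).2⟩, Fin.eta, Fin.eta, Equiv.symm_apply_apply,
      Equiv.symm_apply_apply]
  have hlw : ∀ (w : List (Fin 2 × Bool)) (q : F ⧸ K),
      lw T (enc w) (e q : ℕ) = (e (π (FreeGroup.mk w) * q) : ℕ) := by
    intro w
    induction w with
    | nil =>
      intro q
      have h1 : (FreeGroup.mk ([] : List (Fin 2 × Bool)) : F) = 1 := rfl
      rw [h1, map_one, one_mul]
      rfl
    | cons s w ih =>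
      intro q
      have h1 : (FreeGroup.mk (s :: w) : F) = FreeGroup.mk [s] * FreeGroup.mk w := by
        rw [FreeGroup.mul_mk]; rfl
      change step T (lcode s) (lw T (enc w) (e q : ℕ)) = _
      rw [ih, hstep _ (reg_sub_lcode_lt s), h1, map_mul π, exists_reg_mk_letter, mul_assoc]
  have hsurj : ∀ v < N, ∃ q : F ⧸ K, (e q : ℕ) = v := by
    intro v hv
    exact ⟨e.symm ⟨v, hv⟩, by rw [Equiv.apply_symm_apply]⟩
  have he0 : ((e 1 : Fin N) : ℕ) = 0 := by rw [he1]
  refine ⟨T, R, ⟨hN, ?_, ?_, ?_⟩, ?_⟩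
  · intro v hv j hj
    obtain ⟨q, rfl⟩ := hsurj v hv
    rw [hstep j hj]
    refine ⟨(e _).2, ?_⟩
    rw [hstep _ (exists_reg_linv_lt j hj), ← mul_assoc, ← map_mul, exists_reg_gl_mul j hj, map_one,
      one_mul]
  · intro v hv
    obtain ⟨q, rfl⟩ := hsurj v hv
    obtain ⟨w, hw, hwq⟩ := exists_reg_short π (QuotientGroup.mk'_surjective K) N e q
    refine ⟨enc w, ?_, ?_⟩
    · rw [reg_sub_mem_words]
      exact ⟨by unfold enc; rw [List.length_map]; exact hw, reg_sub_enc_lt w⟩
    · have := hlw w 1
      rw [he0, mul_one, hwq] at this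
      exact this
  · intro v hv
    obtain ⟨p, rfl⟩ := hsurj v hv
    constructor
    · have := hrstep p 1
      rw [he0, one_mul] at this
      exact this
    · intro u hu
      obtain ⟨q, rfl⟩ := hsurj u hu
      rw [hrstep]
      refine ⟨(e _).2, ?_⟩
      intro j hj
      rw [hstep j hj, hrstep, hstep j hj, mul_assoc]
  · intro w
    have h1 := hlw w 1
    rw [he0, mul_one] at h1
    rw [h1, ← hπ]
    constructor
    · intro h2
      rw [h2, he0]
    · intro h2
      apply e.injective
      apply Fin.ext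
      rw [h2, he0]

end Pool.Agent.Helper948.Ent.D1
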