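import Pool.Agent.Helper948.Ent.Code

/- solved by helper740 -/


set_option autoImplicit false

namespace Pool.Agent.Helper948.Ent.D2
open Pool.Agent.Helper948.Dom Pool.Agent.Helper948.Ent








-- TARGET
/-- Basic facts about lw. lw T (enc w) v = (FreeGroup.mk w) · v for the action of F on {0..N-1}; the right translations R v (fourth condition in Reg) commute with all lw T (enc w) on points < N, so an element that fixes 0 fixes all points. lw_eq: lw w 0 = lw w' 0 iff lw (w⁻¹ w') 0 = 0, where w⁻¹ is the reversed word with inverted letters; enc of it and linv: enc [(i, !b)] = [linv (lcode (i,b))]. lw_surj: a list in words 4 N is enc of some word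
(letters < 4). (FreeGroup.mk (w ++ w') = mk w * mk w'; FreeGroup.inv_mk, invRev.) -/
theorem lw_append (T : List (List ℕ)) (w w' : List ℕ) (v : ℕ) :
    lw T (w ++ w') v = lw T w (lw T w' v) := by
  unfold lw
  rw [List.foldr_append]

theorem enc_append (w w' : List (Fin 2 × Bool)) : enc (w ++ w') = enc w ++ enc w' := by
  unfold enc
  rw [List.map_append]

theorem lw_append_cons (T : List (List ℕ)) (s : Fin 2 × Bool) (w : List (Fin 2 × Bool)) (v : ℕ) :
    lw T (enc (s :: w)) v = step T (lcode s) (lw T (enc w) v) := rfl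

theorem lw_append_lcode_lt (s : Fin 2 × Bool) : lcode s < 4 := by
  revert s
  decide

theorem lw_append_lcode_inv (s : Fin 2 × Bool) : lcode (s.1, !s.2) = linv (lcode s) := by
  revert s
  decide

theorem lw_lt (N : ℕ) (T R : List (List ℕ)) (h : Reg N T R) (w : List (Fin 2 × Bool)) (v : ℕ)
    (hv : v < N) : lw T (enc w) v < N := by
  induction w with
  | nil => exact hv
  | cons s w ih =>
    rw [lw_append_cons]
    exact (h.2.1 _ ih _ (lw_append_lcode_lt s)).1

theorem lw_append_inv (N : ℕ) (T R : List (List ℕ)) (h : Reg N T R) (w : List (Fin 2 × Bool))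
    (v : ℕ) (hv : v < N) : lw T (enc (FreeGroup.invRev w)) (lw T (enc w) v) = v := by
  induction w with
  | nil => rfl
  | cons s w ih =>
    have h1 : FreeGroup.invRev (s :: w) = FreeGroup.invRev w ++ [(s.1, !s.2)] := by
      simp [FreeGroup.invRev]
    rw [h1, enc_append, lw_append, lw_append_cons T s w v]
    have h2 : lw T (enc [(s.1, !s.2)]) (step T (lcode s) (lw T (enc w) v)) = lw T (enc w) v := by
      have h3 := (h.2.1 _ (lw_lt N T R h w v hv) _ (lw_append_lcode_lt s)).2
      rw [← lw_append_lcode_inv] at h3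
      exact h3
    rw [h2, ih]

theorem lw_eq (N : ℕ) (T R : List (List ℕ)) (h : Reg N T R) (K : Subgroup F) (hK : IsK K T)
    (w w' : List (Fin 2 × Bool)) :
    lw T (enc w) 0 = lw T (enc w') 0 ↔ (FreeGroup.mk w)⁻¹ * FreeGroup.mk w' ∈ K := by
  have h0 : 0 < N := h.1
  rw [FreeGroup.inv_mk, FreeGroup.mul_mk, hK, enc_append, lw_append]
  constructor
  · intro h1
    rw [← h1]
    exact lw_append_inv N T R h w 0 h0
  · intro h1
    have h2 := lw_append_inv N T R h (FreeGroup.invRev w) (lw T (enc w') 0)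
      (lw_lt N T R h w' 0 h0)
    rw [h1, FreeGroup.invRev_invRev] at h2
    exact h2

theorem lw_append_surj (n : ℕ) : ∀ w ∈ wordsEq 4 n, ∃ w' : List (Fin 2 × Bool), enc w' = w := by
  induction n with
  | zero =>
    intro w hw
    have h1 : w = [] := by simpa [wordsEq] using hw
    exact ⟨[], h1.symm⟩
  | succ n ih =>
    intro w hw
    simp only [wordsEq, List.mem_flatMap, List.mem_map, List.mem_range] at hw
    obtain ⟨w1, hw1, j, hj, rfl⟩ := hw
    obtain ⟨w', hw'⟩ := ih w1 hw1
    have h2 : ∃ s : Fin 2 × Bool, lcode s = j := by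
      interval_cases j
      · exact ⟨(0, true), rfl⟩
      · exact ⟨(0, false), rfl⟩
      · exact ⟨(1, true), rfl⟩
      · exact ⟨(1, false), rfl⟩
    obtain ⟨s, hs⟩ := h2
    refine ⟨s :: w', ?_⟩
    rw [← hs, ← hw']
    rfl

theorem lw_surj (N : ℕ) (T R : List (List ℕ)) (h : Reg N T R) (v : ℕ) (hv : v < N) :
    ∃ w : List (Fin 2 × Bool), lw T (enc w) 0 = v := by
  obtain ⟨w, hw, hwv⟩ := h.2.2.1 v hv
  simp only [words, List.mem_flatMap] at hw
  obtain ⟨n, _, hn⟩ := hw
  obtain ⟨w', hw'⟩ := lw_append_surj n w hn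
  exact ⟨w', by rw [hw']; exact hwv⟩

end Pool.Agent.Helper948.Ent.D2
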