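import Pool.Agent.Helper948.Ent.Code
import Pool.Agent.Helper948.Ent.D2

/- solved by helper936 -/


set_option autoImplicit false

namespace Pool.Agent.Helper948.Ent.D3
open Pool.Agent.Helper948.Dom Pool.Agent.Helper948.Ent Pool.Agent.Helper948.Ent.D2










-- TARGET
theorem emap_aux_lcode (s : Fin 2 × Bool) : lcode s < 4 := by
  rcases s with ⟨i, b⟩
  fin_cases i <;> cases b <;> simp [lcode]

theorem emap_aux_surj (j : ℕ) (hj : j < 4) : ∃ s : Fin 2 × Bool, lcode s = j := by
  interval_cases j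
  · exact ⟨(0, true), by simp [lcode]⟩
  · exact ⟨(0, false), by simp [lcode]⟩
  · exact ⟨(1, true), by simp [lcode]⟩
  · exact ⟨(1, false), by simp [lcode]⟩

theorem emap_aux_cons (T : List (List ℕ)) (s : Fin 2 × Bool) (w : List (Fin 2 × Bool)) (v : ℕ) :
    lw T (enc (s :: w)) v = step T (lcode s) (lw T (enc w) v) := by
  simp [lw, enc]

/-- Equivariant maps. The map m sends lw T' (enc w) 0 to lw T (enc w) 0 by induction on w. Conversely define m as the list v ↦ lw T (enc w_v) 0 where w_v is a word with lw T' (enc w_v) 0 = v (independent of the choice by lw_eq since K' ≤ K). -/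
theorem emap_sound (N : ℕ) (T R : List (List ℕ)) (N' : ℕ) (T' R' : List (List ℕ)) (h : Reg N T R)
    (h' : Reg N' T' R') (K K' : Subgroup F) (hK : IsK K T) (hK' : IsK K' T') (m : List ℕ)
    (hm : Emap N T N' T' m) :
    K' ≤ K ∧ ∀ w : List (Fin 2 × Bool), m.getD (lw T' (enc w) 0) 0 = lw T (enc w) 0 := by
  have key : ∀ w : List (Fin 2 × Bool), m.getD (lw T' (enc w) 0) 0 = lw T (enc w) 0 := by
    intro w
    induction w with
    | nil => simpa [lw, enc] using hm.1
    | cons s w ih =>
      rw [emap_aux_cons, emap_aux_cons, ← ih]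
      exact (hm.2 _ (lw_lt N' T' R' h' w 0 h'.1)).2 _ (emap_aux_lcode s)
  refine ⟨?_, key⟩
  intro g hg
  obtain ⟨w, rfl⟩ := Quot.exists_rep g
  have h1 : lw T' (enc w) 0 = 0 := (hK' w).1 hg
  have h2 := key w
  rw [h1, hm.1] at h2
  exact (hK w).2 h2.symm

theorem emap_exists (N : ℕ) (T R : List (List ℕ)) (N' : ℕ) (T' R' : List (List ℕ)) (h : Reg N T R)
    (h' : Reg N' T' R') (K K' : Subgroup F) (hK : IsK K T) (hK' : IsK K' T') (hle : K' ≤ K) :
    ∃ m : List ℕ, Emap N T N' T' m := by
  classical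
  have hs := lw_surj N' T' R' h'
  choose! W hW using hs
  have hget : ∀ v, v < N' →
      ((List.range N').map (fun v => lw T (enc (W v)) 0)).getD v 0 = lw T (enc (W v)) 0 := by
    intro v hv
    rw [List.getD_eq_getElem?_getD]
    simp [hv]
  refine ⟨(List.range N').map (fun v => lw T (enc (W v)) 0), ?_, ?_⟩
  · rw [hget 0 h'.1]
    exact (hK _).1 (hle ((hK' _).2 (hW 0 h'.1)))
  · intro v hv
    refine ⟨?_, ?_⟩
    · rw [hget v hv]
      exact lw_lt N T R h _ _ h.1
    · intro j hj
      have h1 : step T' j v < N' := (h'.2.1 v hv j hj).1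
      rw [hget v hv, hget _ h1]
      obtain ⟨s, rfl⟩ := emap_aux_surj j hj
      rw [← emap_aux_cons]
      rw [lw_eq N T R h K hK]
      apply hle
      rw [← lw_eq N' T' R' h' K' hK', emap_aux_cons, hW v hv, hW _ h1]

end Pool.Agent.Helper948.Ent.D3
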