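import Pool.Agent.Helper948.Ent.Code
import Pool.Agent.Helper948.Ent.D2
import Pool.Agent.Helper948.Ent.D3

/- solved by helper372 -/


set_option autoImplicit false

namespace Pool.Agent.Helper948.Ent.D4
open Pool.Agent.Helper948.Dom Pool.Agent.Helper948.Ent Pool.Agent.Helper948.Ent.D2 Pool.Agent.Helper948.Ent.D3










-- TARGET
theorem conv_mem_rep (i : ℕ) : FreeGroup.mk (List.replicate i ((1 : Fin 2), true)) = ft ^ i := by
  induction i with
  | zero => rfl
  | succ i ih =>
    rw [List.replicate_succ, pow_succ', ← ih]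
    rfl

theorem conv_mem_rep' (i : ℕ) :
    FreeGroup.mk (List.replicate i ((1 : Fin 2), false)) = (ft ^ i)⁻¹ := by
  induction i with
  | zero => simp [FreeGroup.one_eq_mk]
  | succ i ih =>
    rw [List.replicate_succ, pow_succ, mul_inv_rev, ← ih]
    rfl

/-- the word of a letter -/
def conv_mem_wd (j : ℕ) : List (Fin 2 × Bool) :=
  List.replicate (j / 2) ((1 : Fin 2), true) ++ ((0 : Fin 2), decide (j % 2 = 0)) ::
    List.replicate (j / 2) ((1 : Fin 2), false)

theorem conv_mem_enc (j : ℕ) : enc (conv_mem_wd j) = aw j := by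
  unfold enc conv_mem_wd aw
  rw [List.map_append, List.map_cons, List.map_replicate, List.map_replicate]
  have h1 : lcode ((1 : Fin 2), true) = 2 := rfl
  have h2 : lcode ((1 : Fin 2), false) = 3 := rfl
  have h3 : lcode ((0 : Fin 2), decide (j % 2 = 0)) = j % 2 := by
    rcases Nat.mod_two_eq_zero_or_one j with h | h <;> rw [h] <;> rfl
  rw [h1, h2, h3]

theorem conv_mem_mk (i : ℕ) : FreeGroup.mk (conv_mem_wd (2 * i)) = A i := by
  unfold conv_mem_wd
  have h1 : 2 * i / 2 = i := by omega
  have h2 : 2 * i % 2 = 0 := by omega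
  rw [h1, h2, ← FreeGroup.mul_mk, conv_mem_rep]
  have h3 : FreeGroup.mk (((0 : Fin 2), decide (0 = 0)) :: List.replicate i ((1 : Fin 2), false)) =
      fa * (ft ^ i)⁻¹ := by
    rw [← conv_mem_rep']
    rfl
  rw [h3, A, mul_assoc]

theorem conv_mem_mk' (i : ℕ) : FreeGroup.mk (conv_mem_wd (2 * i + 1)) = (A i)⁻¹ := by
  unfold conv_mem_wd
  have h1 : (2 * i + 1) / 2 = i := by omega
  have h2 : (2 * i + 1) % 2 = 1 := by omega
  rw [h1, h2, ← FreeGroup.mul_mk, conv_mem_rep]
  have h3 : FreeGroup.mk (((0 : Fin 2), decide (1 = 0)) :: List.replicate i ((1 : Fin 2), false)) =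
      fa⁻¹ * (ft ^ i)⁻¹ := by
    rw [← conv_mem_rep']
    rfl
  rw [h3, A]
  group

theorem conv_mem_mkW (j k : ℕ) (hj : j < 2 * k) : FreeGroup.mk (conv_mem_wd j) ∈ W k := by
  rcases Nat.even_or_odd' j with ⟨i, hi | hi⟩
  · rw [hi, conv_mem_mk]
    exact A_mem (by omega)
  · rw [hi, conv_mem_mk']
    exact (W k).inv_mem (A_mem (by omega))

theorem conv_mem_app (w w' : List (Fin 2 × Bool)) : enc (w ++ w') = enc w ++ enc w' := by
  unfold enc
  rw [List.map_append]

/-- words in the `a_i` represent the elements of `W k` -/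
theorem conv_mem (k : ℕ) (r : List ℕ) (hr : ∀ j ∈ r, j < 2 * k) :
    ∃ w : List (Fin 2 × Bool), enc w = conv r ∧ FreeGroup.mk w ∈ W k := by
  induction r with
  | nil => exact ⟨[], rfl, (W k).one_mem⟩
  | cons j r ih =>
    obtain ⟨w, hw1, hw2⟩ := ih (fun i hi => hr i (List.mem_cons_of_mem _ hi))
    refine ⟨conv_mem_wd j ++ w, ?_, ?_⟩
    · rw [conv_mem_app, conv_mem_enc, hw1]
      rfl
    · rw [← FreeGroup.mul_mk]
      exact (W k).mul_mem (conv_mem_mkW j k (hr j List.mem_cons_self)) hw2

/-- every element of `W k` is represented by such a word (`Subgroup.closure_induction` or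
`Subgroup.exists_list_of_mem_closure`) -/
theorem conv_surj (k : ℕ) (g : F) (hg : g ∈ W k) :
    ∃ r : List ℕ, (∀ j ∈ r, j < 2 * k) ∧
      ∃ w : List (Fin 2 × Bool), enc w = conv r ∧ FreeGroup.mk w = g := by
  have step : ∀ (x : F) (j : ℕ), j < 2 * k → FreeGroup.mk (conv_mem_wd j) = x → ∀ y : F,
      (∃ r : List ℕ, (∀ j ∈ r, j < 2 * k) ∧
        ∃ w : List (Fin 2 × Bool), enc w = conv r ∧ FreeGroup.mk w = y) →
      (∃ r : List ℕ, (∀ j ∈ r, j < 2 * k) ∧
        ∃ w : List (Fin 2 × Bool), enc w = conv r ∧ FreeGroup.mk w = x * y) := by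
    rintro x j hj hjx y ⟨r, hr, w, hw1, hw2⟩
    refine ⟨j :: r, ?_, conv_mem_wd j ++ w, ?_, ?_⟩
    · intro i hi
      rcases List.mem_cons.1 hi with h | h
      · rw [h]; exact hj
      · exact hr i h
    · rw [conv_mem_app, conv_mem_enc, hw1]
      rfl
    · rw [← FreeGroup.mul_mk, hjx, hw2]
  rw [W] at hg
  induction hg using Subgroup.closure_induction_left with
  | one => exact ⟨[], by simp, [], rfl, rfl⟩
  | mul_left x hx y _ ih =>
    obtain ⟨i, hi, rfl⟩ := hx
    exact step _ (2 * i) (by omega) (conv_mem_mk i) y ih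
  | inv_mul_cancel x hx y _ ih =>
    obtain ⟨i, hi, rfl⟩ := hx
    exact step _ (2 * i + 1) (by omega) (conv_mem_mk' i) y ih

/-- the word `aw (2 i)` is `a_i` -/
theorem aw_enc (i : ℕ) : ∃ w : List (Fin 2 × Bool), enc w = aw (2 * i) ∧ FreeGroup.mk w = A i :=
  ⟨conv_mem_wd (2 * i), conv_mem_enc _, conv_mem_mk i⟩

/-- membership in `wordsEq` -/
theorem mem_wordsEq (L n : ℕ) (w : List ℕ) : w ∈ wordsEq L n ↔ w.length = n ∧ ∀ j ∈ w, j < L := by
  induction n generalizing w with
  | zero =>
    simp only [wordsEq, List.mem_singleton, List.length_eq_zero_iff]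
    constructor
    · rintro rfl
      exact ⟨rfl, by simp⟩
    · exact fun h => h.1
  | succ n ih =>
    simp only [wordsEq, List.mem_flatMap, List.mem_map, List.mem_range]
    constructor
    · rintro ⟨w', hw', j, hj, rfl⟩
      obtain ⟨h1, h2⟩ := (ih w').mp hw'
      refine ⟨by simp [h1], ?_⟩
      intro i hi
      rcases List.mem_cons.mp hi with rfl | hi
      · exact hj
      · exact h2 i hi
    · rintro ⟨h1, h2⟩
      cases w with
      | nil => simp at h1
      | cons j w =>
        refine ⟨w, (ih w).mpr ⟨by simpa using h1, fun i hi => h2 i (List.mem_cons_of_mem _ hi)⟩,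
          j, h2 j List.mem_cons_self, rfl⟩

/-- membership in `words` -/
theorem mem_words (L n : ℕ) (w : List ℕ) : w ∈ words L n ↔ w.length ≤ n ∧ ∀ j ∈ w, j < L := by
  simp only [words, List.mem_flatMap, List.mem_range, mem_wordsEq]
  constructor
  · rintro ⟨m, hm, h1, h2⟩
    exact ⟨by omega, h2⟩
  · rintro ⟨h1, h2⟩
    exact ⟨w.length, by omega, rfl, h2⟩

/-- Every state reachable by a word is reachable by a word of length at most the number of states.
Proof: take a shortest word `w'` with letters `< L` leading to the state; if its length were `> card X`, two different prefixes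
would lead to the same state (pigeonhole) and the piece between them could be cut out. -/
theorem short_word {X : Type*} [Fintype X] (L : ℕ) (δ : ℕ → X → X) (x : X) (w : List ℕ)
    (hw : ∀ j ∈ w, j < L) :
    ∃ w' : List ℕ, w'.length ≤ Fintype.card X ∧ (∀ j ∈ w', j < L) ∧
      w'.foldl (fun y j => δ j y) x = w.foldl (fun y j => δ j y) x := by
  induction hn : w.length using Nat.strong_induction_on generalizing w with
  | _ n ih =>
    by_cases hle : w.length ≤ Fintype.card X
    · exact ⟨w, hle, hw, rfl⟩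
    · push Not at hle
      obtain ⟨i, j, hij, hf⟩ := Fintype.exists_ne_map_eq_of_card_lt
        (fun i : Fin (w.length + 1) => (w.take i).foldl (fun y j => δ j y) x)
        (by rw [Fintype.card_fin]; omega)
      have key : ∀ i j : Fin (w.length + 1), i < j →
          (w.take i).foldl (fun y j => δ j y) x = (w.take j).foldl (fun y j => δ j y) x →
          ∃ w' : List ℕ, w'.length ≤ Fintype.card X ∧ (∀ j ∈ w', j < L) ∧
            w'.foldl (fun y j => δ j y) x = w.foldl (fun y j => δ j y) x := by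
        intro i j hlt he
        have hlt' : (i : ℕ) < (j : ℕ) := hlt
        have hj := j.2
        have hlen : (w.take i ++ w.drop j).length < n := by
          simp only [List.length_append, List.length_take, List.length_drop]
          omega
        obtain ⟨w', h1, h2, h3⟩ := ih _ hlen (w.take i ++ w.drop j) (by
          intro k hk
          rcases List.mem_append.mp hk with hk | hk
          · exact hw k (List.mem_of_mem_take hk)
          · exact hw k (List.mem_of_mem_drop hk)) rfl
        refine ⟨w', h1, h2, h3.trans ?_⟩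
        rw [List.foldl_append, he, ← List.foldl_append, List.take_append_drop]
      rcases lt_or_gt_of_ne hij with h | h
      · exact key i j h hf
      · exact key j i h hf.symm


theorem winC_iff_short (N' : ℕ) (T' R' : List (List ℕ)) (h' : Reg N' T' R') (L : ℕ) (r : List ℕ)
    (hr : ∀ j ∈ r, j < L) :
    ∃ r' ∈ words L N', lw T' (conv r') 0 = lw T' (conv r) 0 := by
  have h0 : 0 < N' := h'.1
  have hlt : ∀ j v, v < N' → lw T' (aw j) v < N' := by
    intro j v hv
    rw [← conv_mem_enc]
    exact lw_lt N' T' R' h' _ v hv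
  let δ : ℕ → Fin N' → Fin N' := fun j v => ⟨lw T' (aw j) v, hlt j v v.2⟩
  have key : ∀ r : List ℕ, ((r.foldr (fun j y => δ j y) ⟨0, h0⟩ : Fin N') : ℕ) =
      lw T' (conv r) 0 := by
    intro r
    induction r with
    | nil => rfl
    | cons j r ih =>
      have h1 : conv (j :: r) = aw j ++ conv r := by simp [conv]
      rw [List.foldr_cons, h1, lw_append, ← ih]
  obtain ⟨w', h1, h2, h3⟩ := short_word L δ ⟨0, h0⟩ r.reverse (by simpa using hr)
  refine ⟨w'.reverse, (mem_words L N' _).mpr ⟨by simpa using h1, by simpa using h2⟩, ?_⟩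
  rw [← key, ← key, List.foldr_reverse, h3, List.foldl_reverse]

theorem winC_iff (N : ℕ) (T R : List (List ℕ)) (N' : ℕ) (T' R' : List (List ℕ)) (h : Reg N T R)
    (h' : Reg N' T' R') (K K' : Subgroup F) (hK : IsK K T) (hK' : IsK K' T') (m : List ℕ)
    (hm : Emap N T N' T' m) (M : ℕ) :
    (∀ w ∈ W M, w ∈ K → w ∈ K') ↔ WinC (2 * M) N' T' m := by
  have hs := emap_sound N T R N' T' R' h h' K K' hK hK' m hm
  constructor
  · intro hW r hr he
    obtain ⟨w, hw1, hw2⟩ := conv_mem M r ((mem_words _ _ r).mp hr).2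
    rw [← hw1] at he ⊢
    rw [hs.2 w] at he
    exact (hK' w).mp (hW _ hw2 ((hK w).mpr he))
  · intro hC g hg hgK
    obtain ⟨r, hr, w, hw1, hw2⟩ := conv_surj M g hg
    obtain ⟨r', hr', he⟩ := winC_iff_short N' T' R' h' (2 * M) r hr
    have h1 := hC r' hr'
    rw [he, ← hw1, hs.2 w] at h1
    rw [← hw2] at hgK ⊢
    exact (hK' w).mpr (h1 ((hK w).mp hgK))

theorem ndc_iff (N' : ℕ) (T' R' : List (List ℕ)) (h' : Reg N' T' R') (K' : Subgroup F)
    (hn : K'.Normal) (hK' : IsK K' T') (M : ℕ) : ND K' M ↔ NDC M N' T' := by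
  obtain ⟨wA, hA1, hA2⟩ := aw_enc M
  constructor
  · intro hN r hr he
    obtain ⟨w, hw1, hw2⟩ := conv_mem M r ((mem_words _ _ r).mp hr).2
    rw [← hw1, ← hA1, lw_eq N' T' R' h' K' hK', hA2] at he
    exact hN _ hw2 (hn.mem_comm he)
  · intro hN g hg hgK
    obtain ⟨r, hr, w, hw1, hw2⟩ := conv_surj M g hg
    obtain ⟨r', hr', he⟩ := winC_iff_short N' T' R' h' (2 * M) r hr
    apply hN r' hr'
    rw [he, ← hw1, ← hA1, lw_eq N' T' R' h' K' hK', hA2, hw2]
    exact hn.mem_comm hgK

end Pool.Agent.Helper948.Ent.D4
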