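import Pool.Agent.Helper948.Ent.Code
import Pool.Agent.Helper948.Ent.D2

/- solved by helper747 -/


set_option autoImplicit false

namespace Pool.Agent.Helper948.Ent.D5
open Pool.Agent.Helper948.Dom Pool.Agent.Helper948.Ent Pool.Agent.Helper948.Ent.D2










-- TARGET
/-- weights -/
def div_sound_wt (α β : ℤ) : F →* Multiplicative ℤ :=
  FreeGroup.lift (fun i : Fin 2 => if i = 1 then Multiplicative.ofAdd β else Multiplicative.ofAdd α)

/-- weights as integers -/
def div_sound_ps (α β : ℤ) (g : F) : ℤ := Multiplicative.toAdd (div_sound_wt α β g)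

theorem div_sound_ps_mul (α β : ℤ) (g h : F) :
    div_sound_ps α β (g * h) = div_sound_ps α β g + div_sound_ps α β h := by
  simp only [div_sound_ps, map_mul, toAdd_mul]

theorem div_sound_ps_inv (α β : ℤ) (g : F) :
    div_sound_ps α β g⁻¹ = - div_sound_ps α β g := by
  simp only [div_sound_ps, map_inv, toAdd_inv]

theorem div_sound_ps_one (α β : ℤ) : div_sound_ps α β 1 = 0 := by
  simp only [div_sound_ps, map_one, toAdd_one]

theorem div_sound_ps_fa (α β : ℤ) : div_sound_ps α β fa = α := by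
  simp [div_sound_ps, div_sound_wt, fa]

theorem div_sound_ps_ft (α β : ℤ) : div_sound_ps α β ft = β := by
  simp [div_sound_ps, div_sound_wt, ft]

theorem div_sound_mk0 (w : List (Fin 2 × Bool)) :
    FreeGroup.mk (((0 : Fin 2), true) :: w) = fa * FreeGroup.mk w := by
  have h : FreeGroup.mk [((0 : Fin 2), true)] = fa := rfl
  rw [← h, FreeGroup.mul_mk]
  rfl

theorem div_sound_mk1 (w : List (Fin 2 × Bool)) :
    FreeGroup.mk (((0 : Fin 2), false) :: w) = fa⁻¹ * FreeGroup.mk w := by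
  have h : FreeGroup.mk [((0 : Fin 2), false)] = fa⁻¹ := rfl
  rw [← h, FreeGroup.mul_mk]
  rfl

theorem div_sound_mk2 (w : List (Fin 2 × Bool)) :
    FreeGroup.mk (((1 : Fin 2), true) :: w) = ft * FreeGroup.mk w := by
  have h : FreeGroup.mk [((1 : Fin 2), true)] = ft := rfl
  rw [← h, FreeGroup.mul_mk]
  rfl

theorem div_sound_mk3 (w : List (Fin 2 × Bool)) :
    FreeGroup.mk (((1 : Fin 2), false) :: w) = ft⁻¹ * FreeGroup.mk w := by
  have h : FreeGroup.mk [((1 : Fin 2), false)] = ft⁻¹ := rfl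
  rw [← h, FreeGroup.mul_mk]
  rfl

/-- the general condition -/
def div_sound_GC (M α β N : ℕ) (T : List (List ℕ)) (p : ℕ → ℕ) : Prop :=
  p 0 = 0 ∧ ∀ v < N, p v < M ∧ p (step T 0 v) = (p v + α) % M ∧ p (step T 2 v) = (p v + β) % M

theorem div_sound_modEq_fwd {x y a M : ℕ} (h : y = (x + a) % M) :
    ((y : ℤ)) ≡ (a : ℤ) + (x : ℤ) [ZMOD (M : ℤ)] := by
  subst h
  push_cast
  rw [add_comm (a : ℤ)]
  exact Int.mod_modEq _ _

theorem div_sound_gen (M α β N : ℕ) (T R : List (List ℕ)) (h : Reg N T R) (p : ℕ → ℕ)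
    (hp : div_sound_GC M α β N T p) (w : List (Fin 2 × Bool)) :
    ((p (lw T (enc w) 0) : ℕ) : ℤ) ≡ div_sound_ps α β (FreeGroup.mk w) [ZMOD (M : ℤ)] := by
  induction w with
  | nil =>
    have e : lw T (enc []) 0 = 0 := rfl
    have e2 : FreeGroup.mk ([] : List (Fin 2 × Bool)) = (1 : F) := rfl
    rw [e, e2, hp.1, div_sound_ps_one]
    rfl
  | cons s w ih =>
    have hv : lw T (enc w) 0 < N := lw_lt N T R h w 0 h.1
    have hstep : lw T (enc (s :: w)) 0 = step T (lcode s) (lw T (enc w) 0) := rfl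
    rw [hstep]
    set v := lw T (enc w) 0 with hvdef
    obtain ⟨hpv, hp0, hp2⟩ := hp.2 v hv
    obtain ⟨i, b⟩ := s
    fin_cases i
    · cases b
      · -- (0,false)
        show ((p (step T 1 v) : ℕ) : ℤ) ≡ div_sound_ps α β (FreeGroup.mk (((0 : Fin 2), false) :: w))
          [ZMOD (M : ℤ)]
        rw [div_sound_mk1, div_sound_ps_mul, div_sound_ps_inv, div_sound_ps_fa]
        have hu := h.2.1 v hv 1 (by norm_num)
        have hu2 : step T 0 (step T 1 v) = v := hu.2
        have h3 := (hp.2 _ hu.1).2.1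
        rw [hu2] at h3
        have h4 := div_sound_modEq_fwd h3
        have h5 := (h4.symm.trans ih)
        have h6 := Int.ModEq.add_left (-(α : ℤ)) h5
        rw [neg_add_cancel_left] at h6
        exact h6
      · show ((p (step T 0 v) : ℕ) : ℤ) ≡ div_sound_ps α β (FreeGroup.mk (((0 : Fin 2), true) :: w))
          [ZMOD (M : ℤ)]
        rw [div_sound_mk0, div_sound_ps_mul, div_sound_ps_fa]
        exact (div_sound_modEq_fwd hp0).trans (Int.ModEq.add_left _ ih)
    · cases b
      · show ((p (step T 3 v) : ℕ) : ℤ) ≡ div_sound_ps α β (FreeGroup.mk (((1 : Fin 2), false) :: w))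
          [ZMOD (M : ℤ)]
        rw [div_sound_mk3, div_sound_ps_mul, div_sound_ps_inv, div_sound_ps_ft]
        have hu := h.2.1 v hv 3 (by norm_num)
        have hu2 : step T 2 (step T 3 v) = v := hu.2
        have h3 := (hp.2 _ hu.1).2.2
        rw [hu2] at h3
        have h4 := div_sound_modEq_fwd h3
        have h5 := (h4.symm.trans ih)
        have h6 := Int.ModEq.add_left (-(β : ℤ)) h5
        rw [neg_add_cancel_left] at h6
        exact h6
      · show ((p (step T 2 v) : ℕ) : ℤ) ≡ div_sound_ps α β (FreeGroup.mk (((1 : Fin 2), true) :: w))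
          [ZMOD (M : ℤ)]
        rw [div_sound_mk2, div_sound_ps_mul, div_sound_ps_ft]
        exact (div_sound_modEq_fwd hp2).trans (Int.ModEq.add_left _ ih)

theorem div_sound_gen' (M α β N : ℕ) (T R : List (List ℕ)) (h : Reg N T R) (p : ℕ → ℕ)
    (hp : div_sound_GC M α β N T p) (w : List (Fin 2 × Bool)) :
    ((p (lw T (enc w) 0) : ℕ) : ℤ) = div_sound_ps α β (FreeGroup.mk w) % (M : ℤ) := by
  have hv : lw T (enc w) 0 < N := lw_lt N T R h w 0 h.1
  have h1 := div_sound_gen M α β N T R h p hp w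
  have h2 := (hp.2 _ hv).1
  unfold Int.ModEq at h1
  rw [← h1, Int.emod_eq_of_lt (by positivity) (by exact_mod_cast h2)]

theorem div_sound_dvd (M α β N : ℕ) (T R : List (List ℕ)) (h : Reg N T R) (K : Subgroup F)
    (hK : IsK K T) (p : ℕ → ℕ) (hp : div_sound_GC M α β N T p) (κ : F) (hκ : κ ∈ K) :
    (M : ℤ) ∣ div_sound_ps α β κ := by
  have hw : FreeGroup.mk κ.toWord = κ := FreeGroup.mk_toWord
  have h1 := div_sound_gen M α β N T R h p hp κ.toWord
  rw [hw, (hK κ.toWord).mp (by rw [hw]; exact hκ), hp.1] at h1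
  exact (Int.modEq_zero_iff_dvd.mp h1.symm)

theorem div_sound_ex (M α β N : ℕ) (T R : List (List ℕ)) (h : Reg N T R) (K : Subgroup F)
    (hK : IsK K T) (hM : 0 < M) (hd : ∀ κ ∈ K, (M : ℤ) ∣ div_sound_ps α β κ) :
    ∃ p : List ℕ, div_sound_GC M α β N T (fun v => p.getD v 0) := by
  classical
  have hMz : (0 : ℤ) < M := by exact_mod_cast hM
  let f : ℕ → ℕ := fun v => if hv : v < N then
    (div_sound_ps α β (FreeGroup.mk (lw_surj N T R h v hv).choose) % (M : ℤ)).toNat else 0
  have hf : ∀ w : List (Fin 2 × Bool),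
      f (lw T (enc w) 0) = (div_sound_ps α β (FreeGroup.mk w) % (M : ℤ)).toNat := by
    intro w
    have hv : lw T (enc w) 0 < N := lw_lt N T R h w 0 h.1
    have hc := (lw_surj N T R h _ hv).choose_spec
    have h1 := (lw_eq N T R h K hK _ _).mp hc
    have h2 := hd _ h1
    rw [div_sound_ps_mul, div_sound_ps_inv] at h2
    have h3 : div_sound_ps α β (FreeGroup.mk (lw_surj N T R h _ hv).choose) ≡
        div_sound_ps α β (FreeGroup.mk w) [ZMOD (M : ℤ)] := by
      rw [Int.modEq_iff_dvd]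
      rwa [neg_add_eq_sub] at h2
    show (if hv : lw T (enc w) 0 < N then _ else 0) = _
    rw [dif_pos hv]
    unfold Int.ModEq at h3
    rw [h3]
  let p : List ℕ := (List.range N).map f
  have hp : ∀ v < N, p.getD v 0 = f v := by
    intro v hv
    simp only [p, List.getD_eq_getElem?_getD, List.getElem?_map, List.getElem?_range hv,
      Option.map_some, Option.getD_some]
  have hp' : ∀ w : List (Fin 2 × Bool),
      ((p.getD (lw T (enc w) 0) 0 : ℕ) : ℤ) = div_sound_ps α β (FreeGroup.mk w) % (M : ℤ) := by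
    intro w
    rw [hp _ (lw_lt N T R h w 0 h.1), hf w]
    exact Int.toNat_of_nonneg (Int.emod_nonneg _ hMz.ne')
  refine ⟨p, ?_, ?_⟩
  · have h1 := hp' []
    have e : lw T (enc []) 0 = 0 := rfl
    have e2 : FreeGroup.mk ([] : List (Fin 2 × Bool)) = (1 : F) := rfl
    rw [e, e2, div_sound_ps_one, Int.zero_emod] at h1
    exact_mod_cast h1
  · intro v hv
    obtain ⟨w, hw⟩ := lw_surj N T R h v hv
    have h0 := hp' w
    rw [hw] at h0
    have ha := hp' (((0 : Fin 2), true) :: w)
    have hb := hp' (((1 : Fin 2), true) :: w)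
    have ea : lw T (enc (((0 : Fin 2), true) :: w)) 0 = step T 0 v := by
      rw [← hw]; rfl
    have eb : lw T (enc (((1 : Fin 2), true) :: w)) 0 = step T 2 v := by
      rw [← hw]; rfl
    rw [ea, div_sound_mk0, div_sound_ps_mul, div_sound_ps_fa] at ha
    rw [eb, div_sound_mk2, div_sound_ps_mul, div_sound_ps_ft] at hb
    refine ⟨?_, ?_, ?_⟩
    · have : ((p.getD v 0 : ℕ) : ℤ) < M := by
        rw [h0]
        exact Int.emod_lt_of_pos _ hMz
      exact_mod_cast this
    · show p.getD (step T 0 v) 0 = (p.getD v 0 + α) % M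
      have : ((p.getD (step T 0 v) 0 : ℕ) : ℤ) = (((p.getD v 0 + α) % M : ℕ) : ℤ) := by
        push_cast
        rw [ha, h0, Int.emod_add_emod, add_comm]
      exact_mod_cast this
    · show p.getD (step T 2 v) 0 = (p.getD v 0 + β) % M
      have : ((p.getD (step T 2 v) 0 : ℕ) : ℤ) = (((p.getD v 0 + β) % M : ℕ) : ℤ) := by
        push_cast
        rw [hb, h0, Int.emod_add_emod, add_comm]
      exact_mod_cast this

theorem div_sound_tz (g : F) : tz g = div_sound_ps ((0 : ℕ) : ℤ) ((1 : ℕ) : ℤ) g := by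
  have : tau = div_sound_wt ((0 : ℕ) : ℤ) ((1 : ℕ) : ℤ) := by
    apply FreeGroup.ext_hom
    intro i
    fin_cases i
    · simp [tau, div_sound_wt]
    · simp [tau, div_sound_wt]
  unfold tz div_sound_ps
  rw [this]

theorem div_sound_par (g : F) :
    par g = Multiplicative.ofAdd ((div_sound_ps ((1 : ℕ) : ℤ) ((1 : ℕ) : ℤ) g : ℤ) : ZMod 2) := by
  have : par = (AddMonoidHom.toMultiplicative (Int.castAddHom (ZMod 2))).comp
      (div_sound_wt ((1 : ℕ) : ℤ) ((1 : ℕ) : ℤ)) := by
    apply FreeGroup.ext_hom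
    intro i
    fin_cases i
    · simp [par, div_sound_wt]
    · simp [par, div_sound_wt]
  rw [this]
  rfl

theorem div_sound_par_iff (g : F) :
    par g = 1 ↔ ((2 : ℕ) : ℤ) ∣ div_sound_ps ((1 : ℕ) : ℤ) ((1 : ℕ) : ℤ) g := by
  rw [div_sound_par, ofAdd_eq_one, ZMod.intCast_zmod_eq_zero_iff_dvd]

theorem div_sound_DivC (M N : ℕ) (T : List (List ℕ)) (p : List ℕ) :
    DivC M N T p ↔ div_sound_GC M 0 1 N T (fun v => p.getD v 0) := by
  unfold DivC div_sound_GC
  constructor
  · rintro ⟨h1, h2⟩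
    refine ⟨h1, fun v hv => ⟨(h2 v hv).1, ?_, (h2 v hv).2.2⟩⟩
    show p.getD (step T 0 v) 0 = (p.getD v 0 + 0) % M
    rw [add_zero, Nat.mod_eq_of_lt (h2 v hv).1]
    exact (h2 v hv).2.1
  · rintro ⟨h1, h2⟩
    refine ⟨h1, fun v hv => ⟨(h2 v hv).1, ?_, (h2 v hv).2.2⟩⟩
    have h3 := (h2 v hv).2.1
    have h4 := (h2 v hv).1
    simp only [add_zero] at h3 h4
    rw [Nat.mod_eq_of_lt h4] at h3
    exact h3

/-- Phases and parity. DivC M N T p says that p is 0 at the point 0, invariant under a and increased by one modulo M by t, hence also invariant under a⁻¹ and decreased by one under t⁻¹ (apply it at the point step T 3 v, using Reg: step T 2 (step T 3 v) = v). So p (w · 0) = (tz w) mod M = ph M (mk w) by induction on w (tz is a homomorphism: a ↦ 0, t ↦ 1). If mk w ∈ K then w · 0 = 0, so M divides tz w. Conversely p v := ph M (mk w_v), w_v a word with w_v · 0 = v,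
well defined by Div M K. Same for the parity with M = 2 and both generators. -/
theorem div_sound (N : ℕ) (T R : List (List ℕ)) (h : Reg N T R) (K : Subgroup F) (hK : IsK K T)
    (M : ℕ) (hM : 0 < M) (p : List ℕ) (hp : DivC M N T p) :
    Div M K ∧ ∀ w : List (Fin 2 × Bool), p.getD (lw T (enc w) 0) 0 = ph M (FreeGroup.mk w) := by
  have hp' := (div_sound_DivC M N T p).mp hp
  refine ⟨?_, ?_⟩
  · intro κ hκ
    rw [div_sound_tz]
    exact div_sound_dvd M 0 1 N T R h K hK _ hp' κ hκ
  · intro w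
    have h1 := div_sound_gen' M 0 1 N T R h _ hp' w
    unfold ph
    rw [div_sound_tz, ← h1]
    rfl

theorem div_exists (N : ℕ) (T R : List (List ℕ)) (h : Reg N T R) (K : Subgroup F) (hK : IsK K T)
    (M : ℕ) (hM : 0 < M) (hd : Div M K) : ∃ p : List ℕ, DivC M N T p := by
  obtain ⟨p, hp⟩ := div_sound_ex M 0 1 N T R h K hK hM (by
    intro κ hκ
    rw [← div_sound_tz]
    exact hd κ hκ)
  exact ⟨p, (div_sound_DivC M N T p).mpr hp⟩

theorem par_sound (N : ℕ) (T R : List (List ℕ)) (h : Reg N T R) (K : Subgroup F) (hK : IsK K T)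
    (b : List ℕ) (hb : ParC N T b) : ∀ κ ∈ K, par κ = 1 := by
  intro κ hκ
  rw [div_sound_par_iff]
  exact div_sound_dvd 2 1 1 N T R h K hK (fun v => b.getD v 0) hb κ hκ

theorem par_exists (N : ℕ) (T R : List (List ℕ)) (h : Reg N T R) (K : Subgroup F) (hK : IsK K T)
    (hd : ∀ κ ∈ K, par κ = 1) : ∃ b : List ℕ, ParC N T b := by
  exact div_sound_ex 2 1 1 N T R h K hK (by norm_num) (by
    intro κ hκ
    exact (div_sound_par_iff κ).mp (hd κ hκ))

end Pool.Agent.Helper948.Ent.D5
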