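import Pool.Agent.Helper948.Ent.Code
import Pool.Agent.Helper948.Ent.D2
import Pool.Agent.Helper948.Ent.D5

/- solved by helper915 -/


set_option autoImplicit false

namespace Pool.Agent.Helper948.Ent.D6
open Pool.Agent.Helper948.Dom Pool.Agent.Helper948.Ent Pool.Agent.Helper948.Ent.D2 Pool.Agent.Helper948.Ent.D5










-- TARGET
/-- the colouring of `F/K` given by a list -/
def colF (T : List (List ℕ)) (y : List ℕ) : F → ℕ :=
  fun g => y.getD (lw T (enc g.toWord) 0) 0

theorem xcj_mem (L n : ℕ) (l : List ℕ) : l ∈ wordsEq L n ↔ l.length = n ∧ ∀ j ∈ l, j < L := by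
  induction n generalizing l with
  | zero =>
    simp only [wordsEq, List.mem_singleton]
    constructor
    · rintro rfl; simp
    · rintro ⟨h, _⟩; exact List.length_eq_zero_iff.1 h
  | succ n ih =>
    simp only [wordsEq, List.mem_flatMap, List.mem_map, List.mem_range]
    constructor
    · rintro ⟨w, hw, j, hj, rfl⟩
      obtain ⟨h1, h2⟩ := (ih w).1 hw
      refine ⟨by simp [h1], ?_⟩
      intro i hi
      rcases List.mem_cons.1 hi with rfl | hi
      · exact hj
      · exact h2 i hi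
    · rintro ⟨h1, h2⟩
      cases l with
      | nil => simp at h1
      | cons j w =>
        refine ⟨w, (ih w).2 ⟨by simpa using h1, fun i hi => h2 i (List.mem_cons_of_mem _ hi)⟩, j,
          h2 j List.mem_cons_self, rfl⟩

theorem xcj_nodup (L n : ℕ) : (wordsEq L n).Nodup := by
  induction n with
  | zero => simp [wordsEq]
  | succ n ih =>
    simp only [wordsEq]
    rw [List.nodup_flatMap]
    refine ⟨fun w _ => List.Nodup.map (fun a b hab => (List.cons.inj hab).1) List.nodup_range, ?_⟩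
    refine ih.imp ?_
    intro w w' hww l hl hl'
    simp only [List.mem_map] at hl hl'
    obtain ⟨a, _, rfl⟩ := hl
    obtain ⟨b, _, hb⟩ := hl'
    exact hww (List.cons.inj hb).2.symm

theorem xcj_colF (N : ℕ) (T R : List (List ℕ)) (h : Reg N T R) (K : Subgroup F) (hK : IsK K T)
    (y : List ℕ) (w : List (Fin 2 × Bool)) :
    colF T y (FreeGroup.mk w) = y.getD (lw T (enc w) 0) 0 := by
  unfold colF
  rw [(lw_eq N T R h K hK (FreeGroup.mk w).toWord w).2 (by
    rw [FreeGroup.mk_toWord, inv_mul_cancel]; exact K.one_mem)]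

theorem xcj_av (I : Inp) (N : ℕ) (T R : List (List ℕ)) (h : Reg N T R) (K : Subgroup F)
    (hK : IsK K T) (y : List ℕ) (w : List (Fin 2 × Bool)) :
    Av I (colF T y) (FreeGroup.mk w) ↔ AvC I T y (lw T (enc w) 0) := by
  unfold Av AvC
  have hq : ∀ q : List (Fin 2 × Bool), colF T y (FreeGroup.mk q * FreeGroup.mk w) =
      y.getD (lw T (enc q) (lw T (enc w) 0)) 0 := by
    intro q
    rw [FreeGroup.mul_mk, xcj_colF N T R h K hK, enc_append, lw_append]
  simp only [hq]

theorem xcj_cfg (k N : ℕ) (T R : List (List ℕ)) (h : Reg N T R) (K : Subgroup F)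
    (hK : IsK K T) (y : List ℕ) (hy : y ∈ wordsEq k N) : colF T y ∈ Cfg k K := by
  obtain ⟨hy1, hy2⟩ := (xcj_mem _ _ _).1 hy
  refine ⟨fun g => ?_, fun g κ hκ => ?_⟩
  · have h1 : lw T (enc g.toWord) 0 < y.length := by
      rw [hy1]; exact lw_lt N T R h _ 0 h.1
    unfold colF
    rw [List.getD_eq_getElem _ _ h1]
    exact hy2 _ (List.getElem_mem h1)
  · unfold colF
    rw [(lw_eq N T R h K hK (g * κ).toWord g.toWord).2 (by
      rw [FreeGroup.mk_toWord, FreeGroup.mk_toWord]
      have : (g * κ)⁻¹ * g = κ⁻¹ := by group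
      rw [this]; exact K.inv_mem hκ)]

theorem xcj_exists (k N : ℕ) (T R : List (List ℕ)) (h : Reg N T R) (K : Subgroup F)
    (hK : IsK K T) (x : F → ℕ) (hx : x ∈ Cfg k K) : ∃ y ∈ wordsEq k N, colF T y = x := by
  choose w hw using fun v : Fin N => lw_surj N T R h v.1 v.2
  refine ⟨List.ofFn (fun v : Fin N => x (FreeGroup.mk (w v))), ?_, ?_⟩
  · rw [xcj_mem]
    refine ⟨by simp, ?_⟩
    intro j hj
    rw [List.mem_ofFn] at hj
    obtain ⟨v, rfl⟩ := hj
    exact hx.1 _
  · funext g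
    have h1 : lw T (enc g.toWord) 0 < N := lw_lt N T R h _ 0 h.1
    unfold colF
    rw [List.getD_eq_getElem _ _ (by simpa using h1), List.getElem_ofFn]
    have h2 := (lw_eq N T R h K hK (w ⟨_, h1⟩) g.toWord).1 (hw ⟨_, h1⟩)
    rw [FreeGroup.mk_toWord] at h2
    have h3 := hx.2 (FreeGroup.mk (w ⟨_, h1⟩)) _ h2
    rw [mul_inv_cancel_left] at h3
    exact h3.symm

theorem xcj_inj (k N : ℕ) (T R : List (List ℕ)) (h : Reg N T R) (K : Subgroup F)
    (hK : IsK K T) (y y' : List ℕ) (hy : y ∈ wordsEq k N) (hy' : y' ∈ wordsEq k N)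
    (he : colF T y = colF T y') : y = y' := by
  obtain ⟨hy1, _⟩ := (xcj_mem _ _ _).1 hy
  obtain ⟨hy1', _⟩ := (xcj_mem _ _ _).1 hy'
  apply List.ext_getElem (by rw [hy1, hy1'])
  intro v hv hv'
  obtain ⟨w, hw⟩ := lw_surj N T R h v (by rwa [hy1] at hv)
  have h1 := congrFun he (FreeGroup.mk w)
  rw [xcj_colF N T R h K hK, xcj_colF N T R h K hK, hw, List.getD_eq_getElem _ _ hv,
    List.getD_eq_getElem _ _ hv'] at h1
  exact h1

theorem xcj_count (k N : ℕ) (T R : List (List ℕ)) (h : Reg N T R) (K : Subgroup F)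
    (hK : IsK K T) (P : List ℕ → Prop) [DecidablePred P] (Q : (F → ℕ) → Prop)
    (hPQ : ∀ l ∈ wordsEq k N, (P l ↔ Q (colF T l))) :
    ((wordsEq k N).filter (fun l => decide (P l))).length = {x | x ∈ Cfg k K ∧ Q x}.ncard := by
  classical
  have hnd : ((wordsEq k N).filter (fun l => decide (P l))).Nodup := (xcj_nodup k N).filter _
  have h1 : {x | x ∈ Cfg k K ∧ Q x} =
      colF T '' (((wordsEq k N).filter (fun l => decide (P l))).toFinset : Set (List ℕ)) := by
    ext x
    simp only [Set.mem_ofPred_eq, Set.mem_image, Finset.mem_coe, List.mem_toFinset,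
      List.mem_filter, decide_eq_true_eq]
    constructor
    · rintro ⟨hx, hQ⟩
      obtain ⟨y, hy, rfl⟩ := xcj_exists k N T R h K hK x hx
      exact ⟨y, ⟨hy, (hPQ y hy).2 hQ⟩, rfl⟩
    · rintro ⟨y, ⟨hy, hP⟩, rfl⟩
      exact ⟨xcj_cfg k N T R h K hK y hy, (hPQ y hy).1 hP⟩
  rw [h1, Set.InjOn.ncard_image, Set.ncard_coe_finset, List.toFinset_card_of_nodup hnd]
  intro y hy y' hy' he
  simp only [Finset.mem_coe, List.mem_toFinset, List.mem_filter] at hy hy'
  exact xcj_inj k N T R h K hK y y' hy.1 hy'.1 he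

theorem xcj_ph (n M : ℕ) (hM : 0 < M) (hnM : n ∣ M) (g : F) : ph M g % n = ph n g := by
  have hn : 0 < n := Nat.pos_of_dvd_of_pos hnM hM
  unfold ph
  have h1 : (0:ℤ) ≤ tz g % (M:ℤ) := Int.emod_nonneg _ (by exact_mod_cast hM.ne')
  have h2 : (0:ℤ) ≤ tz g % (n:ℤ) := Int.emod_nonneg _ (by exact_mod_cast hn.ne')
  have h3 : (n:ℤ) ∣ (M:ℤ) := by exact_mod_cast hnM
  zify
  rw [Int.toNat_of_nonneg h1, Int.toNat_of_nonneg h2, Int.emod_emod_of_dvd _ h3]

theorem xcj_ul (I : Inp) (r n M N : ℕ) (T R : List (List ℕ)) (h : Reg N T R) (K : Subgroup F)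
    (hK : IsK K T) (hM : 0 < M) (hnM : n ∣ M) (p : List ℕ) (hp : DivC M N T p) (l : List ℕ) :
    UL I r n N T p l ↔ ∀ g, r ≤ ph n g → ph n g + r < n → Av I (colF T l) g := by
  have hph : ∀ w : List (Fin 2 × Bool), p.getD (lw T (enc w) 0) 0 % n = ph n (FreeGroup.mk w) := by
    intro w
    rw [(div_sound N T R h K hK M hM p hp).2 w, xcj_ph n M hM hnM]
  constructor
  · intro hu g h1 h2
    have hv := lw_lt N T R h g.toWord 0 h.1
    have h3 := hph g.toWord
    rw [FreeGroup.mk_toWord] at h3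
    have h4 := hu _ hv (by rw [h3]; exact h1) (by rw [h3]; exact h2)
    rw [← xcj_av I N T R h K hK l, FreeGroup.mk_toWord] at h4
    exact h4
  · intro hu v hv h1 h2
    obtain ⟨w, rfl⟩ := lw_surj N T R h v hv
    rw [hph w] at h1 h2
    exact (xcj_av I N T R h K hK l w).1 (hu _ h1 h2)

theorem xcj_fl (n M N : ℕ) (T R : List (List ℕ)) (h : Reg N T R) (K : Subgroup F)
    (hK : IsK K T) (hM : 0 < M) (hnM : n ∣ M) (p : List ℕ) (hp : DivC M N T p) (y l : List ℕ)
    (C : ℕ → Prop) :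
    (∀ v < N, C (p.getD v 0 % n) → l.getD v 0 = y.getD v 0) ↔
      ∀ g, C (ph n g) → colF T l g = colF T y g := by
  have hph : ∀ w : List (Fin 2 × Bool), p.getD (lw T (enc w) 0) 0 % n = ph n (FreeGroup.mk w) := by
    intro w
    rw [(div_sound N T R h K hK M hM p hp).2 w, xcj_ph n M hM hnM]
  constructor
  · intro hu g h1
    have hv := lw_lt N T R h g.toWord 0 h.1
    have h3 := hph g.toWord
    rw [FreeGroup.mk_toWord] at h3
    have h4 := hu _ hv (by rw [h3]; exact h1)
    exact h4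
  · intro hu v hv h1
    obtain ⟨w, rfl⟩ := lw_surj N T R h v hv
    rw [hph w] at h1
    have := hu _ h1
    rwa [xcj_colF N T R h K hK, xcj_colF N T R h K hK] at this

/-- Counting labellings. Lists in wordsEq k N are the lists of length N with entries < k, without repetitions (wordsEq is Nodup); they correspond bijectively to the elements of Cfg k K: y ↦ colF T y (K-invariant; colF T y (mk w) = y.getD (lw T (enc w) 0) 0 since mk (toWord g) = g and lw_eq; inverse x ↦ list of x (mk w_v), w_v · 0 = v, v < N). For g = mk w and v = w · 0: Av I (colF T y) g iff AvC I T y v, since colF T y (mk q.1 * mk w) =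
y.getD (lw T (enc q.1) (lw T (enc w) 0)) 0. Phases: p.getD v 0 = ph M (mk w) (div_sound), and ph n g = ph M g mod n as n divides M. (n = 0 cannot occur since M > 0.) -/
theorem xc_iff (I : Inp) (N : ℕ) (T R : List (List ℕ)) (h : Reg N T R) (K : Subgroup F)
    (hn : K.Normal) (hK : IsK K T) (y : List ℕ) (hy : XC I N T y) : colF T y ∈ XS I K := by
  refine ⟨xcj_cfg I.1 N T R h K hK y hy.1, fun g => ?_⟩
  have h1 := (xcj_av I N T R h K hK y g.toWord).2 (hy.2 _ (lw_lt N T R h _ 0 h.1))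
  rwa [FreeGroup.mk_toWord] at h1

theorem xc_exists (I : Inp) (N : ℕ) (T R : List (List ℕ)) (h : Reg N T R) (K : Subgroup F)
    (hn : K.Normal) (hK : IsK K T) (x0 : F → ℕ) (hx : x0 ∈ XS I K) :
    ∃ y : List ℕ, XC I N T y ∧ colF T y = x0 := by
  obtain ⟨y, hy, hc⟩ := xcj_exists I.1 N T R h K hK x0 hx.1
  refine ⟨y, ⟨hy, fun v hv => ?_⟩, hc⟩
  obtain ⟨w, rfl⟩ := lw_surj N T R h v hv
  rw [← xcj_av I N T R h K hK y w, hc]
  exact hx.2 _

theorem uc_eq (I : Inp) (r n M N : ℕ) (T R : List (List ℕ)) (h : Reg N T R) (K : Subgroup F)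
    (hn : K.Normal) (hK : IsK K T) (hM : 0 < M) (hnM : n ∣ M) (p : List ℕ) (hp : DivC M N T p) :
    UC I r n N T p = (US I r n K).ncard := by
  unfold UC US
  classical
  exact xcj_count I.1 N T R h K hK (UL I r n N T p)
    (fun x => ∀ g, r ≤ ph n g → ph n g + r < n → Av I x g)
    (fun l _ => xcj_ul I r n M N T R h K hK hM hnM p hp l)

theorem fc_eq (I : Inp) (r n M N : ℕ) (T R : List (List ℕ)) (h : Reg N T R) (K : Subgroup F)
    (hn : K.Normal) (hK : IsK K T) (hM : 0 < M) (hnM : n ∣ M) (p : List ℕ) (hp : DivC M N T p)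
    (y : List ℕ) (hy : y ∈ wordsEq I.1 N) :
    FC I r n N T p y = (Fl I r n K (colF T y)).ncard := by
  unfold FC Fl US
  classical
  have h1 := xcj_count I.1 N T R h K hK (FLl I r n N T p y)
    (fun x => (∀ g, r ≤ ph n g → ph n g + r < n → Av I x g) ∧
      ∀ g, (ph n g < 2 * r ∨ n ≤ ph n g + 2 * r) → x g = colF T y g)
    (fun l _ => by
      unfold FLl
      rw [xcj_ul I r n M N T R h K hK hM hnM p hp l,
        xcj_fl n M N T R h K hK hM hnM p hp y l (fun a => a < 2 * r ∨ n ≤ a + 2 * r)])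
  rw [h1]
  congr 1
  ext x
  simp only [Set.mem_ofPred_eq, and_assoc]

end Pool.Agent.Helper948.Ent.D6
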