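import Pool.Agent.Helper948.Ent.Code

/- solved by helper716 -/


set_option autoImplicit false

namespace Pool.Agent.Helper948.Ent.E4
open Pool.Agent.Helper948.Dom Pool.Agent.Helper948.Ent








-- TARGET
/-- The length of one word is at most the sum of all lengths (List.single_le_sum or List.le_sum_of_mem twice). -/
theorem rad_ok (I : Inp) : Rad I (rad I) := by
  intro P hP q hq
  have h1 : q.1.length ≤ (P.map (fun q => q.1.length)).sum :=
    List.le_sum_of_mem (List.mem_map.2 ⟨q, hq, rfl⟩)
  have h2 : (P.map (fun q => q.1.length)).sum ≤ rad I :=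
    List.le_sum_of_mem (List.mem_map.2 ⟨P, hP, rfl⟩)
  exact h1.trans h2

end Pool.Agent.Helper948.Ent.E4
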