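import Pool.Agent.Helper948.Ent.Code
import Pool.Agent.Helper948.Ent.D1
import Pool.Agent.Helper948.Ent.D2
import Pool.Agent.Helper948.Ent.D3
import Pool.Agent.Helper948.Ent.D4
import Pool.Agent.Helper948.Ent.D5
import Pool.Agent.Helper948.Ent.D6
import Pool.Agent.Helper948.Ent.E4

/- solved by helper653 -/


set_option autoImplicit false

namespace Pool.Agent.Helper948.Ent.E6
open Pool.Agent.Helper948.Dom Pool.Agent.Helper948.Ent Pool.Agent.Helper948.Ent.D1 Pool.Agent.Helper948.Ent.D2 Pool.Agent.Helper948.Ent.D3 Pool.Agent.Helper948.Ent.D4 Pool.Agent.Helper948.Ent.D5 Pool.Agent.Helper948.Ent.D6 Pool.Agent.Helper948.Ent.E4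










-- TARGET
/-- the facts about `K'` certified by a code for the input `I` -/
def FactI (I : Inp) (j : ℕ) (K' : Subgroup F) (c' : Code) : Prop :=
  0 < num c' 3 ∧ num c' 3 ≤ c'.1.1 + 1 ∧
  ((num c' 2 = 1 ∧ US I (rad I) (num c' 3) K' = ∅) ∨
  (num c' 2 = 0 ∧ 0 < num c' 4 ∧ num c' 4 ≤ c'.1.1 + 1 ∧ ∃ x0 ∈ XS I K',
    lu I (rad I) (num c' 3) K' ≤ (num c' 5 : ℝ) / (num c' 1 : ℝ) ∧
    (num c' 6 : ℝ) / (num c' 1 : ℝ) ≤ lf I (rad I) (num c' 4) K' x0 ∧
    (num c' 5 - num c' 6) * (j + 1) ≤ num c' 1 ∧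
    (num c' 5 < num c' 0 ∨ num c' 0 + 1 < num c' 6)))

/-- the facts about `K'` certified by a code for the hard core model -/
def FactH (L : List (ℕ × ℕ)) (K' : Subgroup F) (c' : Code) : Prop :=
  0 < num c' 11 ∧ num c' 11 ≤ c'.1.1 + 1 ∧ 0 < num c' 12 ∧ num c' 12 ≤ c'.1.1 + 1 ∧
  0 < num c' 10 ∧ 0 < num c' 9 ∧ ∃ y0 ∈ XS I0 K',
    lu I0 1 (num c' 11) K' ≤ Real.log ((num c' 9 : ℝ) / (num c' 10 : ℝ)) ∧
    Real.log ((num c' 8 : ℝ) / (num c' 10 : ℝ)) ≤ lf I0 1 (num c' 12) K' y0 ∧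
    ((∀ e ∈ L, e.1 = e.2) ∨
    ev (L.map Prod.snd) (num c' 9) (num c' 10) < ev (L.map Prod.fst) (num c' 8) (num c' 10) ∨
    ev (L.map Prod.fst) (num c' 9) (num c' 10) < ev (L.map Prod.snd) (num c' 8) (num c' 10))

theorem ok_sound_cfg_fin (k : ℕ) (K : Subgroup F) (hK : K.FiniteIndex) : (Cfg k K).Finite := by
  classical
  haveI : Finite (F ⧸ K) := inferInstance
  have hfin : (Set.pi Set.univ (fun _ : F ⧸ K => Set.Iio k)).Finite :=
    Set.Finite.pi (fun _ => Set.finite_Iio k)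
  refine Set.Finite.of_injOn (f := fun x : F → ℕ => fun q : F ⧸ K => x q.out) ?_ ?_ hfin
  · intro x hx q _
    exact hx.1 _
  · intro x hx y hy hxy
    funext g
    obtain ⟨κ, hκ⟩ := QuotientGroup.mk_out_eq_mul K g
    have h1 := congrFun hxy (g : F ⧸ K)
    dsimp only at h1
    rw [hκ, hx.2 g κ κ.2, hy.2 g κ κ.2] at h1
    exact h1

theorem ok_sound_up (U D s N p : ℕ) (hD : 0 < D) (hs : 0 < s) (hN : 0 < N)
    (h : U * (D * s) ^ (s * N) ≤ (D * s + p) ^ (s * N)) :
    Real.log (U : ℝ) / (N : ℝ) ≤ (p : ℝ) / (D : ℝ) := by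
  have hD' : (0 : ℝ) < D := by exact_mod_cast hD
  have hs' : (0 : ℝ) < s := by exact_mod_cast hs
  have hN' : (0 : ℝ) < N := by exact_mod_cast hN
  rcases Nat.eq_zero_or_pos U with hU | hU
  · subst hU
    simp only [Nat.cast_zero, Real.log_zero, zero_div]
    positivity
  · have hU' : (0 : ℝ) < U := by exact_mod_cast hU
    have h1 : (U : ℝ) * (D * s) ^ (s * N) ≤ (D * s + p) ^ (s * N) := by exact_mod_cast h
    have h2 := Real.log_le_log (by positivity) h1
    rw [Real.log_mul hU'.ne' (by positivity), Real.log_pow, Real.log_pow] at h2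
    have h3 : Real.log ((D : ℝ) * s + p) - Real.log ((D : ℝ) * s) ≤ p / (D * s) := by
      rw [← Real.log_div (by positivity) (by positivity)]
      refine (Real.log_le_sub_one_of_pos (by positivity)).trans (le_of_eq ?_)
      field_simp
      ring
    have h4 : Real.log (U : ℝ) ≤ (s * N : ℕ) * (p / (D * s)) := by
      have h5 : ((s * N : ℕ) : ℝ) * (Real.log ((D : ℝ) * s + p) - Real.log ((D : ℝ) * s)) ≤
          (s * N : ℕ) * (p / (D * s)) := mul_le_mul_of_nonneg_left h3 (Nat.cast_nonneg _)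
      linarith
    rw [div_le_div_iff₀ hN' hD']
    have h6 : ((s * N : ℕ) : ℝ) * (p / (D * s)) = p * N / D := by
      push_cast
      field_simp
    rw [h6, le_div_iff₀ hD'] at h4
    exact h4

theorem ok_sound_lo (U D s N q : ℕ) (hD : 0 < D) (hs : 0 < s) (hN : 0 < N) (hq : q < D * s)
    (h : (D * s) ^ (s * N) ≤ U * (D * s - q) ^ (s * N)) :
    (q : ℝ) / (D : ℝ) ≤ Real.log (U : ℝ) / (N : ℝ) := by
  have hD' : (0 : ℝ) < D := by exact_mod_cast hD
  have hs' : (0 : ℝ) < s := by exact_mod_cast hs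
  have hN' : (0 : ℝ) < N := by exact_mod_cast hN
  have hU : 0 < U := by
    rcases Nat.eq_zero_or_pos U with hU | hU
    · subst hU
      rw [zero_mul] at h
      have : 0 < (D * s) ^ (s * N) := by positivity
      omega
    · exact hU
  have hU' : (0 : ℝ) < U := by exact_mod_cast hU
  have hq' : (q : ℝ) < D * s := by exact_mod_cast hq
  have hc : ((D * s - q : ℕ) : ℝ) = D * s - q := by
    rw [Nat.cast_sub hq.le]
    push_cast
    ring
  have h1 : ((D : ℝ) * s) ^ (s * N) ≤ U * ((D : ℝ) * s - q) ^ (s * N) := by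
    rw [← hc]
    exact_mod_cast h
  have hpos : (0 : ℝ) < D * s - q := by linarith
  have h2 := Real.log_le_log (by positivity) h1
  rw [Real.log_mul hU'.ne' (by positivity), Real.log_pow, Real.log_pow] at h2
  have h3 : Real.log ((D : ℝ) * s - q) - Real.log ((D : ℝ) * s) ≤ - (q / (D * s)) := by
    rw [← Real.log_div (by positivity) (by positivity)]
    refine (Real.log_le_sub_one_of_pos (by positivity)).trans (le_of_eq ?_)
    field_simp
    ring
  have h4 : (s * N : ℕ) * (q / (D * s)) ≤ Real.log (U : ℝ) := by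
    have h5 : ((s * N : ℕ) : ℝ) * (Real.log ((D : ℝ) * s - q) - Real.log ((D : ℝ) * s)) ≤
        (s * N : ℕ) * (- (q / (D * s))) := mul_le_mul_of_nonneg_left h3 (Nat.cast_nonneg _)
    linarith
  rw [div_le_div_iff₀ hD' hN']
  have h6 : ((s * N : ℕ) : ℝ) * (q / (D * s)) = q * N / D := by
    push_cast
    field_simp
  rw [h6, div_le_iff₀ hD'] at h4
  exact h4

theorem ok_sound_zero (n : ℕ) (K : Subgroup F) : (fun _ : F => 0) ∈ US I0 1 n K := by
  refine ⟨⟨fun g => ?_, fun g κ _ => rfl⟩, fun g _ _ => ?_⟩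
  · show 0 < 2
    norm_num
  · intro P hP hq
    simp only [I0, List.mem_cons, List.not_mem_nil, or_false] at hP
    rcases hP with rfl | rfl
    · have := hq ([], 1) (by simp)
      simp at this
    · have := hq ([], 1) (by simp)
      simp at this

/-- Soundness of a step. reg_sub for the tables of c' gives K' with IsK K' T', FN K', index N'. K' ≤ K and the map property by emap_sound; Ext K c.1.1 K' by winC_iff (M = c.1.1 + 1); ND by ndc_iff; Div by div_sound with M = (c'.1.1+1)!; parity by par_sound. KC K' c' is then clear (0 < num c' 1 from OkX). FactI: uc_eq, fc_eq, xc_iff (x0 = colF T' (lst c' 4)): if UC = 0 then US is finite (or use ncard = 0 together with finiteness: US ⊆ Cfg which is finite because K' has finite index) so US = ∅. From UC (D s)^(s N) ≤ (D s + p)^(s N):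
log UC ≤ s N log (1 + p/(D s)) ≤ N p / D (log (1+x) ≤ x; if UC = 0 the left side is 0). From (D s)^(s N) ≤ FC (D s - q)^(s N): log FC ≥ - s N log (1 - q/(D s)) ≥ N q / D. FactH: 0 < num c' 9 because UC I0 ≥ 1 (the zero colouring); lu ≤ log (B/D0) from UC D0^N ≤ B^N; if A = 0 then log 0 = 0 ≤ lf; otherwise log (A/D0) ≤ lf from A^N ≤ FC D0^N (FC ≥ 1 since colF T' (lst c' 5) itself is a filling). -/
theorem ok_sound (K : Subgroup F) (c c' : Code) (j : ℕ) (hK : KC K c) (hs : OkStep c j c') :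
    ∃ K' : Subgroup F, KC K' c' ∧ Ext K c.1.1 K' ∧ FactI (inpOf j) j K' c' ∧
      FactH (polOf j) K' c' := by
  obtain ⟨hcond, hReg, hIsK, hidx, hpos⟩ := hK
  obtain ⟨hG, hX, hI, hH⟩ := hs
  obtain ⟨hmm, hReg', hEmap, hWin, hND, hDiv, hPar⟩ := hG
  obtain ⟨hD, hX2⟩ := hX
  obtain ⟨K', hFN, hIsK', hidx'⟩ := reg_sub _ _ _ hReg'
  obtain ⟨hle, hmap⟩ := emap_sound _ _ _ _ _ _ hReg hReg' K K' hIsK hIsK' _ hEmap
  have hext := (winC_iff _ _ _ _ _ _ hReg hReg' K K' hIsK hIsK' _ hEmap (c.1.1 + 1)).2 hWin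
  have hnd := (ndc_iff _ _ _ hReg' K' hFN.normal hIsK' c'.1.1).2 hND
  have hfp : 0 < (c'.1.1 + 1).factorial := Nat.factorial_pos _
  have hdiv := (div_sound _ _ _ hReg' K' hIsK' _ hfp _ hDiv).1
  have hpar := par_sound _ _ _ hReg' K' hIsK' _ hPar
  have hNpos : 0 < c'.1.2.1 := hReg'.1
  have huc : ∀ I r n, 0 < n → n ≤ c'.1.1 + 1 →
      UC I r n c'.1.2.1 c'.1.2.2 (lst c' 2) = (US I r n K').ncard := by
    intro I r n hn1 hn2
    exact uc_eq I r n _ _ _ _ hReg' K' hFN.normal hIsK' hfp (Nat.dvd_factorial hn1 hn2) _ hDiv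
  have hfc : ∀ I r n y, 0 < n → n ≤ c'.1.1 + 1 → y ∈ wordsEq I.1 c'.1.2.1 →
      FC I r n c'.1.2.1 c'.1.2.2 (lst c' 2) y = (Fl I r n K' (colF c'.1.2.2 y)).ncard := by
    intro I r n y hn1 hn2 hy
    exact fc_eq I r n _ _ _ _ hReg' K' hFN.normal hIsK' hfp (Nat.dvd_factorial hn1 hn2) _ hDiv y hy
  have hfinUS : ∀ I r n, (US I r n K').Finite := by
    intro I r n
    exact (ok_sound_cfg_fin I.1 K' hFN.fin).subset (fun x hx => hx.1)
  refine ⟨K', ⟨⟨hFN, hnd, hdiv, hpar⟩, hReg', hIsK', hidx', hD⟩, ⟨hle, hext⟩, ?_, ?_⟩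
  · obtain ⟨h3, h3', hI⟩ := hI
    refine ⟨h3, h3', ?_⟩
    rcases hI with ⟨hf, h0⟩ | ⟨hf, h4, h4', hxc, hup, hlo, h7, h67, h56, hor⟩
    · left
      refine ⟨hf, ?_⟩
      rw [huc _ _ _ h3 h3', Set.ncard_eq_zero (hfinUS _ _ _)] at h0
      exact h0
    · right
      refine ⟨hf, h4, h4', colF c'.1.2.2 (lst c' 4),
        xc_iff _ _ _ _ hReg' K' hFN.normal hIsK' _ hxc, ?_, ?_, h56, hor⟩
      · rw [lu, hidx', ← huc _ _ _ h3 h3']
        exact ok_sound_up _ _ _ _ _ hD h7 hNpos hup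
      · rw [lf, hidx', ← hfc _ _ _ _ h4 h4' hxc.1]
        exact ok_sound_lo _ _ _ _ _ hD h7 hNpos h67 hlo
  · obtain ⟨h11, h11', h12, h12', h10, hxc, hup, hlo, hor⟩ := hH
    have hD0 : (0 : ℝ) < (num c' 10 : ℝ) := by exact_mod_cast h10
    have hN' : (0 : ℝ) < (c'.1.2.1 : ℝ) := by exact_mod_cast hNpos
    have hU : 0 < UC I0 1 (num c' 11) c'.1.2.1 c'.1.2.2 (lst c' 2) := by
      rw [huc _ _ _ h11 h11', Set.ncard_pos (hfinUS _ _ _)]
      exact ⟨_, ok_sound_zero _ _⟩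
    have h9 : 0 < num c' 9 := by
      rcases Nat.eq_zero_or_pos (num c' 9) with h | h
      · rw [h, zero_pow hNpos.ne'] at hup
        have : 0 < UC I0 1 (num c' 11) c'.1.2.1 c'.1.2.2 (lst c' 2) * num c' 10 ^ c'.1.2.1 := by
          positivity
        omega
      · exact h
    have h9' : (0 : ℝ) < (num c' 9 : ℝ) := by exact_mod_cast h9
    refine ⟨h11, h11', h12, h12', h10, h9, colF c'.1.2.2 (lst c' 5),
      xc_iff _ _ _ _ hReg' K' hFN.normal hIsK' _ hxc, ?_, ?_, hor⟩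
    · rw [lu, hidx', ← huc _ _ _ h11 h11']
      set U := UC I0 1 (num c' 11) c'.1.2.1 c'.1.2.2 (lst c' 2) with hUdef
      have hU' : (0 : ℝ) < (U : ℝ) := by exact_mod_cast hU
      have h1 : (U : ℝ) * (num c' 10 : ℝ) ^ c'.1.2.1 ≤ (num c' 9 : ℝ) ^ c'.1.2.1 := by
        exact_mod_cast hup
      have h2 := Real.log_le_log (by positivity) h1
      rw [Real.log_mul hU'.ne' (by positivity), Real.log_pow, Real.log_pow] at h2
      rw [Real.log_div h9'.ne' hD0.ne', div_le_iff₀ hN']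
      linarith
    · rw [lf, hidx', ← hfc _ _ _ _ h12 h12' hxc.1]
      set V := FC I0 1 (num c' 12) c'.1.2.1 c'.1.2.2 (lst c' 2) (lst c' 5) with hVdef
      rcases Nat.eq_zero_or_pos (num c' 8) with h8 | h8
      · rw [h8]
        simp only [Nat.cast_zero, zero_div, Real.log_zero]
        exact div_nonneg (Real.log_natCast_nonneg _) hN'.le
      · have h8' : (0 : ℝ) < (num c' 8 : ℝ) := by exact_mod_cast h8
        have hV : 0 < V := by
          rcases Nat.eq_zero_or_pos V with h | h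
          · rw [h, zero_mul] at hlo
            have : 0 < num c' 8 ^ c'.1.2.1 := by positivity
            omega
          · exact h
        have hV' : (0 : ℝ) < (V : ℝ) := by exact_mod_cast hV
        have h1 : (num c' 8 : ℝ) ^ c'.1.2.1 ≤ (V : ℝ) * (num c' 10 : ℝ) ^ c'.1.2.1 := by
          exact_mod_cast hlo
        have h2 := Real.log_le_log (by positivity) h1
        rw [Real.log_mul hV'.ne' (by positivity), Real.log_pow, Real.log_pow] at h2
        rw [Real.log_div h8'.ne' hD0.ne', le_div_iff₀ hN']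
        linarith

end Pool.Agent.Helper948.Ent.E6
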