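import Pool.Agent.Helper948.Ent.Code
import Pool.Agent.Helper948.Ent.C3
import Pool.Agent.Helper948.Ent.E6

set_option autoImplicit false

namespace Pool.Agent.Helper948.Ent.CH
open Pool.Agent.Helper948.Dom Pool.Agent.Helper948.Ent Pool.Agent.Helper948.Ent.C3 Pool.Agent.Helper948.Ent.E6

/-- the data of the construction -/
structure Chain (c : ℕ → Code) (Kc : ℕ → Subgroup F) : Prop where
  comp : Computable c
  kc : ∀ j, KC (Kc j) (c j)
  ext : ∀ j, Ext (Kc j) (c j).1.1 (Kc (j + 1))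
  lt : ∀ j, (c j).1.1 < (c (j + 1)).1.1
  okx : ∀ j, OkX (c j) (c (j + 1))
  fi : ∀ j, FactI (inpOf j) j (Kc (j + 1)) (c (j + 1))
  fh : ∀ j, FactH (polOf j) (Kc (j + 1)) (c (j + 1))
  i0 : num (c 0) 0 = 1
  i1 : num (c 0) 1 = 1

end Pool.Agent.Helper948.Ent.CH
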