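import Pool.Agent.Helper948.Ent.Defs

set_option autoImplicit false

namespace Pool.Agent.Helper948.Ent
open Pool.Agent.Helper948.Dom

-- DEFS4 BEGIN
/-- the number of a letter: `a ↦ 0`, `a⁻¹ ↦ 1`, `t ↦ 2`, `t⁻¹ ↦ 3` -/
def lcode (s : Fin 2 × Bool) : ℕ := 2 * (s.1 : ℕ) + (if s.2 then 0 else 1)

/-- numbers of the letters of a word -/
def enc (w : List (Fin 2 × Bool)) : List ℕ := w.map lcode

/-- the number of the inverse letter -/
def linv (j : ℕ) : ℕ := if j % 2 = 0 then j + 1 else j - 1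

/-- one step -/
def step (T : List (List ℕ)) (j v : ℕ) : ℕ := (T.getD j []).getD v 0

/-- action of the word `w` on the point `v`, the last letter acts first -/
def lw (T : List (List ℕ)) (w : List ℕ) (v : ℕ) : ℕ := w.foldr (fun j u => step T j u) v

/-- all words of length `n` over the letters `0, ..., L-1` -/
def wordsEq (L : ℕ) : ℕ → List (List ℕ)
  | 0 => [[]]
  | n + 1 => (wordsEq L n).flatMap (fun w => (List.range L).map (fun j => j :: w))

/-- all words of length `≤ n` over the letters `0, ..., L-1` -/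
def words (L n : ℕ) : List (List ℕ) := (List.range (n + 1)).flatMap (wordsEq L)

/-- the word for `a_{j/2}` (`j` even) or its inverse (`j` odd) -/
def aw (j : ℕ) : List ℕ := List.replicate (j / 2) 2 ++ (j % 2) :: List.replicate (j / 2) 3

/-- a word in the `a_i^{±1}` as a word in `a, t` -/
def conv (r : List ℕ) : List ℕ := r.flatMap aw

/-- `T` describes the left action of `F` on a finite group quotient with `N` elements, `R` the right translations -/
def Reg (N : ℕ) (T R : List (List ℕ)) : Prop :=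
  0 < N ∧ (∀ v < N, ∀ j < 4, step T j v < N ∧ step T (linv j) (step T j v) = v) ∧
  (∀ v < N, ∃ w ∈ words 4 N, lw T w 0 = v) ∧
  (∀ v < N, step R v 0 = v ∧ ∀ u < N, step R v u < N ∧
    ∀ j < 4, step R v (step T j u) = step T j (step R v u))

/-- `K` is the stabiliser of the point `0` -/
def IsK (K : Subgroup F) (T : List (List ℕ)) : Prop :=
  ∀ w : List (Fin 2 × Bool), FreeGroup.mk w ∈ K ↔ lw T (enc w) 0 = 0

/-- `h` is an equivariant map -/
def Emap (N : ℕ) (T : List (List ℕ)) (N' : ℕ) (T' : List (List ℕ)) (h : List ℕ) : Prop :=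
  h.getD 0 0 = 0 ∧ ∀ v < N', h.getD v 0 < N ∧ ∀ j < 4, h.getD (step T' j v) 0 = step T j (h.getD v 0)

/-- no new relations in the window `W M` (with `L = 2 M` letters) -/
def WinC (L N' : ℕ) (T' : List (List ℕ)) (h : List ℕ) : Prop :=
  ∀ r ∈ words L N', h.getD (lw T' (conv r) 0) 0 = 0 → lw T' (conv r) 0 = 0

/-- `a_m` is not in the window `W m` -/
def NDC (m N' : ℕ) (T' : List (List ℕ)) : Prop :=
  ∀ r ∈ words (2 * m) N', lw T' (conv r) 0 ≠ lw T' (aw (2 * m)) 0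

/-- `p` is the phase modulo `M` -/
def DivC (M N' : ℕ) (T' : List (List ℕ)) (p : List ℕ) : Prop :=
  p.getD 0 0 = 0 ∧ ∀ v < N', p.getD v 0 < M ∧ p.getD (step T' 0 v) 0 = p.getD v 0 ∧
    p.getD (step T' 2 v) 0 = (p.getD v 0 + 1) % M

/-- `b` is the parity -/
def ParC (N' : ℕ) (T' : List (List ℕ)) (b : List ℕ) : Prop :=
  b.getD 0 0 = 0 ∧ ∀ v < N', b.getD v 0 < 2 ∧ b.getD (step T' 0 v) 0 = (b.getD v 0 + 1) % 2 ∧
    b.getD (step T' 2 v) 0 = (b.getD v 0 + 1) % 2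

/-- no pattern of `I` occurs at the point `v` in the labelling `l` -/
def AvC (I : Inp) (T : List (List ℕ)) (l : List ℕ) (v : ℕ) : Prop :=
  ∀ P ∈ I.2, ¬ ∀ q ∈ P, l.getD (lw T (enc q.1) v) 0 = q.2

/-- labellings avoiding the patterns inside the slabs -/
def UL (I : Inp) (r n N : ℕ) (T : List (List ℕ)) (p : List ℕ) (l : List ℕ) : Prop :=
  ∀ v < N, r ≤ p.getD v 0 % n → p.getD v 0 % n + r < n → AvC I T l v

/-- labellings avoiding the patterns inside the slabs and equal to `y` near the boundary -/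
def FLl (I : Inp) (r n N : ℕ) (T : List (List ℕ)) (p y : List ℕ) (l : List ℕ) : Prop :=
  UL I r n N T p l ∧ ∀ v < N, (p.getD v 0 % n < 2 * r ∨ n ≤ p.getD v 0 % n + 2 * r) →
    l.getD v 0 = y.getD v 0

open Classical in
/-- number of slab labellings -/
noncomputable def UC (I : Inp) (r n N : ℕ) (T : List (List ℕ)) (p : List ℕ) : ℕ :=
  ((wordsEq I.1 N).filter (fun l => decide (UL I r n N T p l))).length

open Classical in
/-- number of fillings -/
noncomputable def FC (I : Inp) (r n N : ℕ) (T : List (List ℕ)) (p y : List ℕ) : ℕ :=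
  ((wordsEq I.1 N).filter (fun l => decide (FLl I r n N T p y l))).length

/-- a labelling avoiding all patterns -/
def XC (I : Inp) (N : ℕ) (T : List (List ℕ)) (y : List ℕ) : Prop :=
  y ∈ wordsEq I.1 N ∧ ∀ v < N, AvC I T y v

/-- a bound for the lengths of the words in `I` -/
def rad (I : Inp) : ℕ := (I.2.map (fun P => (P.map (fun q => q.1.length)).sum)).sum

/-- homogeneous evaluation of the polynomial with coefficients `l` at `x / D`, and the number of coefficients -/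
def evp (l : List ℕ) (x D : ℕ) : ℕ × ℕ :=
  l.foldr (fun c s => (c * D ^ (s.2 + 1) + x * s.1, s.2 + 1)) (0, 0)

/-- `D ^ length * f (x / D)` -/
def ev (l : List ℕ) (x D : ℕ) : ℕ := (evp l x D).1

/-- codes: `((m, N, T), R, V)` where `V` contains the remaining data -/
abbrev Code := (ℕ × ℕ × List (List ℕ)) × List (List ℕ) × List (List ℕ)

/-- the numbers stored in a code -/
def num (c : Code) (i : ℕ) : ℕ := (c.2.2.getD 0 []).getD i 0

/-- the lists stored in a code: 1 the map, 2 the phase, 3 the parity, 4 the colouring for `I`, 5 the colouring for `I0` -/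
def lst (c : Code) (i : ℕ) : List ℕ := c.2.2.getD i []

/-- the group part of a correct step -/
def OkG (c c' : Code) : Prop :=
  c.1.1 < c'.1.1 ∧ Reg c'.1.2.1 c'.1.2.2 c'.2.1 ∧
  Emap c.1.2.1 c.1.2.2 c'.1.2.1 c'.1.2.2 (lst c' 1) ∧
  WinC (2 * (c.1.1 + 1)) c'.1.2.1 c'.1.2.2 (lst c' 1) ∧
  NDC c'.1.1 c'.1.2.1 c'.1.2.2 ∧ DivC (c'.1.1 + 1).factorial c'.1.2.1 c'.1.2.2 (lst c' 2) ∧
  ParC c'.1.2.1 c'.1.2.2 (lst c' 3)

/-- the interval part: numbers 0 and 1 are `a` and `D`, the interval is `[a/D, (a+1)/D]` -/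
def OkX (c c' : Code) : Prop :=
  0 < num c' 1 ∧ ∃ e < num c' 1 + 1, num c' 1 = num c 1 * e ∧ num c 0 * e ≤ num c' 0 ∧
    num c' 0 + 1 ≤ (num c 0 + 1) * e

/-- a certificate for the input `I`: flag 2; n1 = 3, n2 = 4, p = 5, q = 6, s = 7 -/
def OkI (I : Inp) (j : ℕ) (c' : Code) : Prop :=
  0 < num c' 3 ∧ num c' 3 ≤ c'.1.1 + 1 ∧
  ((num c' 2 = 1 ∧ UC I (rad I) (num c' 3) c'.1.2.1 c'.1.2.2 (lst c' 2) = 0) ∨
  (num c' 2 = 0 ∧ 0 < num c' 4 ∧ num c' 4 ≤ c'.1.1 + 1 ∧ XC I c'.1.2.1 c'.1.2.2 (lst c' 4) ∧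
    UC I (rad I) (num c' 3) c'.1.2.1 c'.1.2.2 (lst c' 2) *
      (num c' 1 * num c' 7) ^ (num c' 7 * c'.1.2.1) ≤
        (num c' 1 * num c' 7 + num c' 5) ^ (num c' 7 * c'.1.2.1) ∧
    (num c' 1 * num c' 7) ^ (num c' 7 * c'.1.2.1) ≤
      FC I (rad I) (num c' 4) c'.1.2.1 c'.1.2.2 (lst c' 2) (lst c' 4) *
        (num c' 1 * num c' 7 - num c' 6) ^ (num c' 7 * c'.1.2.1) ∧
    0 < num c' 7 ∧ num c' 6 < num c' 1 * num c' 7 ∧
    (num c' 5 - num c' 6) * (j + 1) ≤ num c' 1 ∧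
    (num c' 5 < num c' 0 ∨ num c' 0 + 1 < num c' 6)))

/-- a certificate for the hard core model and the pair of polynomials `L`: A = 8, B = 9, D = 10, n3 = 11, n4 = 12 -/
def OkH (L : List (ℕ × ℕ)) (c' : Code) : Prop :=
  0 < num c' 11 ∧ num c' 11 ≤ c'.1.1 + 1 ∧ 0 < num c' 12 ∧ num c' 12 ≤ c'.1.1 + 1 ∧
  0 < num c' 10 ∧ XC I0 c'.1.2.1 c'.1.2.2 (lst c' 5) ∧
  UC I0 1 (num c' 11) c'.1.2.1 c'.1.2.2 (lst c' 2) * num c' 10 ^ c'.1.2.1 ≤ num c' 9 ^ c'.1.2.1 ∧
  num c' 8 ^ c'.1.2.1 ≤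
    FC I0 1 (num c' 12) c'.1.2.1 c'.1.2.2 (lst c' 2) (lst c' 5) * num c' 10 ^ c'.1.2.1 ∧
  ((∀ e ∈ L, e.1 = e.2) ∨
    ev (L.map Prod.snd) (num c' 9) (num c' 10) < ev (L.map Prod.fst) (num c' 8) (num c' 10) ∨
    ev (L.map Prod.fst) (num c' 9) (num c' 10) < ev (L.map Prod.snd) (num c' 8) (num c' 10))

/-- the input treated at stage `j` -/
def inpOf (j : ℕ) : Inp := ((Encodable.decode (Nat.unpair j).1 : Option Inp)).getD (0, [])

/-- the pair of polynomials treated at stage `j` -/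
def polOf (j : ℕ) : List (ℕ × ℕ) := ((Encodable.decode j : Option (List (ℕ × ℕ)))).getD []

/-- `c'` is a correct code at stage `j` after `c` -/
def OkStep (c : Code) (j : ℕ) (c' : Code) : Prop :=
  OkG c c' ∧ OkX c c' ∧ OkI (inpOf j) j c' ∧ OkH (polOf j) c'

/-- the subgroup belonging to a code -/
def KC (K : Subgroup F) (c : Code) : Prop :=
  Cond K c.1.1 ∧ Reg c.1.2.1 c.1.2.2 c.2.1 ∧ IsK K c.1.2.2 ∧ K.index = c.1.2.1 ∧ 0 < num c 1
-- DEFS4 END

end Pool.Agent.Helper948.Ent
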