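import Pool.Agent.Helper948.Dom.Defs

set_option autoImplicit false

namespace Pool.Agent.Helper948.Ent
open Pool.Agent.Helper948.Dom

-- DEFS3 BEGIN
/-- exponent sum of `t` -/
def tau : F →* Multiplicative ℤ :=
  FreeGroup.lift (fun i : Fin 2 => if i = 1 then Multiplicative.ofAdd (1 : ℤ) else 1)

/-- exponent sum of `t` as an integer -/
def tz (g : F) : ℤ := Multiplicative.toAdd (tau g)

/-- parity of the length -/
def par : F →* Multiplicative (ZMod 2) :=
  FreeGroup.lift (fun _ : Fin 2 => Multiplicative.ofAdd (1 : ZMod 2))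

/-- all elements of `K` have exponent sum divisible by `n` -/
def Div (n : ℕ) (K : Subgroup F) : Prop := ∀ κ ∈ K, (n : ℤ) ∣ tz κ

/-- phase of `g` modulo `n` -/
def ph (n : ℕ) (g : F) : ℕ := (tz g % (n : ℤ)).toNat

/-- the colourings of `F/K` with `k` colours (as `K`-invariant functions on `F`) -/
def Cfg (k : ℕ) (K : Subgroup F) : Set (F → ℕ) :=
  {x | (∀ g, x g < k) ∧ ∀ g, ∀ κ ∈ K, x (g * κ) = x g}

/-- no pattern of `I` occurs at `g` -/
def Av (I : Inp) (x : F → ℕ) (g : F) : Prop :=
  ∀ P ∈ I.2, ¬ ∀ q ∈ P, x (FreeGroup.mk q.1 * g) = q.2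

/-- the words in the patterns have length at most `r` -/
def Rad (I : Inp) (r : ℕ) : Prop := ∀ P ∈ I.2, ∀ q ∈ P, q.1.length ≤ r

/-- the colourings of `F/K` avoiding the patterns of `I` -/
def XS (I : Inp) (K : Subgroup F) : Set (F → ℕ) := {x | x ∈ Cfg I.1 K ∧ ∀ g, Av I x g}

/-- the colourings avoiding the patterns at the inner points of the slabs of height `n` -/
def US (I : Inp) (r n : ℕ) (K : Subgroup F) : Set (F → ℕ) :=
  {x | x ∈ Cfg I.1 K ∧ ∀ g, r ≤ ph n g → ph n g + r < n → Av I x g}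

/-- the elements of `US` which agree with `y` near the boundary of the slabs -/
def Fl (I : Inp) (r n : ℕ) (K : Subgroup F) (y : F → ℕ) : Set (F → ℕ) :=
  {x | x ∈ US I r n K ∧ ∀ g, (ph n g < 2 * r ∨ n ≤ ph n g + 2 * r) → x g = y g}

/-- the conditions -/
structure Cond (K : Subgroup F) (m : ℕ) : Prop where
  fn : FN K
  nd : ND K m
  div : Div (m + 1).factorial K
  par : ∀ κ ∈ K, par κ = 1

/-- `K'` has the same relations as `K` in the window `W n` -/
def Win (K : Subgroup F) (n : ℕ) (K' : Subgroup F) : Prop :=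
  K' ≤ K ∧ ∀ w ∈ W n, w ∈ K → w ∈ K'

/-- normalised logarithm of the number of slab colourings -/
noncomputable def lu (I : Inp) (r n : ℕ) (K : Subgroup F) : ℝ :=
  Real.log ((US I r n K).ncard : ℝ) / (K.index : ℝ)

/-- normalised logarithm of the number of fillings -/
noncomputable def lf (I : Inp) (r n : ℕ) (K : Subgroup F) (y : F → ℕ) : ℝ :=
  Real.log ((Fl I r n K y).ncard : ℝ) / (K.index : ℝ)

/-- the set of slab entropies of the conditions below `(K, m)` -/
def LU (I : Inp) (r : ℕ) (K : Subgroup F) (m : ℕ) : Set ℝ :=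
  {u | ∃ K' m' n, Cond K' m' ∧ Ext K m K' ∧ m ≤ m' ∧ 0 < n ∧ n ≤ m' + 1 ∧ u = lu I r n K'}

/-- the number of restrictions to `E` of the colourings of `F/K` avoiding the patterns -/
noncomputable def NX (I : Inp) (K : Subgroup F) (E : Finset F) : ℕ :=
  ((fun x : F → ℕ => (E : Set F).domRestrict x) '' XS I K).ncard

/-- the elements of `E` are distinct modulo `K` -/
def Dist (K : Subgroup F) (E : Finset F) : Prop := ∀ g ∈ E, ∀ h ∈ E, g⁻¹ * h ∈ K → g = h

/-- the image of the window `W (m+1)` in `F/K` -/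
abbrev Wb (K : Subgroup F) [K.Normal] (m : ℕ) : Subgroup (F ⧸ K) :=
  (W (m + 1)).map (QuotientGroup.mk' K)

/-- representatives in the window -/
noncomputable def rp (K : Subgroup F) [K.Normal] (m : ℕ) (h : Wb K m) : F :=
  (Subgroup.mem_map.1 h.2).choose

/-- the pattern of `z` in the window at `g` -/
noncomputable def pat {B : Type} (K : Subgroup F) [K.Normal] (m : ℕ) (z : F → B) (g : F) :
    Wb K m → B := fun h => z (rp K m h * g)

/-- the class of `g` and the patterns at `g` and `t g` -/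
noncomputable def tr {B : Type} (K : Subgroup F) [K.Normal] (m : ℕ) (z : F → B) (g : F) :
    (F ⧸ K) × (Wb K m → B) × (Wb K m → B) := ((g : F ⧸ K), pat K m z g, pat K m z (ft * g))

/-- vertical blocks of height `l` -/
def vb (k l : ℕ) (y : F → ℕ) (g : F) : Fin l → Fin (k + 1) :=
  fun i => Fin.ofNat (k + 1) (y ((ft ^ (i : ℕ))⁻¹ * g))

/-- the allowed triples -/
def SS (I : Inp) (r l : ℕ) (K : Subgroup F) [K.Normal] (m : ℕ) :
    Set ((F ⧸ K) × (Wb K m → Fin l → Fin (I.1 + 1)) × (Wb K m → Fin l → Fin (I.1 + 1))) :=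
  {s | ∃ K' y g, FN K' ∧ Ext K m K' ∧ y ∈ Cfg I.1 K' ∧
    (∀ w ∈ W (m + 1), Av I y ((ft ^ r)⁻¹ * (w * g))) ∧ s = tr K m (vb I.1 l y) g}

/-- the hard core model -/
def I0 : Inp := (2, [[([], 1), ([(0, true)], 1)], [([], 1), ([(1, true)], 1)]])
/-- the action of `a` on the 2-cover -/
def thA : Equiv.Perm (F × ZMod 2) where
  toFun p := (fa * p.1, p.2)
  invFun p := (fa⁻¹ * p.1, p.2)
  left_inv p := by simp
  right_inv p := by simp

/-- the action of `t` on the 2-cover twisted by `c` -/
def thT (c : F → ZMod 2) : Equiv.Perm (F × ZMod 2) where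
  toFun p := (ft * p.1, p.2 + c p.1)
  invFun p := (ft⁻¹ * p.1, p.2 - c (ft⁻¹ * p.1))
  left_inv p := by simp
  right_inv p := by simp

/-- the twisted action of `F` -/
def Th (c : F → ZMod 2) : F →* Equiv.Perm (F × ZMod 2) :=
  FreeGroup.lift (fun i : Fin 2 => if i = 1 then thT c else thA)

/-- the sign of the path from `g` to `u g` -/
def co (c : F → ZMod 2) (u g : F) : ZMod 2 := (Th c u (g, 0)).2

/-- independent sets of the graph -/
def Ind0 {V : Type} (E : V → V → ZMod 2 → Prop) : Set (V → Bool) :=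
  {x | ∀ v u c, E v u c → ¬ (x v = true ∧ x u = true)}

/-- independent sets of the 2-lift -/
def Ind1 {V : Type} (E : V → V → ZMod 2 → Prop) : Set (V × ZMod 2 → Bool) :=
  {x | ∀ v u c ε, E v u c → ¬ (x (v, ε) = true ∧ x (u, ε + c) = true)}

/-- pairs of independent sets whose set of singly covered vertices has a consistent lift -/
def Cons {V : Type} (E : V → V → ZMod 2 → Prop) : Set ((V → Bool) × (V → Bool)) :=
  {p | p.1 ∈ Ind0 E ∧ p.2 ∈ Ind0 E ∧
    ∃ o : V → ZMod 2, ∀ v u c, E v u c → p.1 v ≠ p.2 v → p.1 u ≠ p.2 u → o u = o v + c + 1}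

theorem th_apply (c : F → ZMod 2) (u g : F) (ε : ZMod 2) :
    Th c u (g, ε) = (u * g, ε + co c u g) := by
  have key : ∀ u : F, ∀ g ε, Th c u (g, ε) = (u * g, ε + (Th c u (g, 0)).2) := by
    intro u
    induction u using FreeGroup.induction_on with
    | C1 => intro g ε; simp
    | of i =>
      intro g ε
      fin_cases i
      · simp [Th, thA, fa]
      · simp [Th, thT, ft]
    | inv_of i _ =>
      intro g ε
      fin_cases i
      · simp [Th, thA, fa, Equiv.Perm.inv_def, Equiv.symm]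
      · simp [Th, thT, ft, Equiv.Perm.inv_def, Equiv.symm, CharTwo.sub_eq_add]
    | mul u v hu hv =>
      intro g ε
      rw [map_mul, Equiv.Perm.mul_apply, Equiv.Perm.mul_apply, hv g ε, hv g 0, hu, hu (v * g) (0 + _)]
      simp only [mul_assoc, zero_add, Prod.mk.injEq, true_and]
      ring
  exact key u g ε

theorem co_mul (c : F → ZMod 2) (u v g : F) : co c (u * v) g = co c u (v * g) + co c v g := by
  have h := th_apply c (u * v) g 0
  rw [map_mul, Equiv.Perm.mul_apply, th_apply, th_apply] at h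
  have := congrArg Prod.snd h
  simp only [zero_add] at this
  rw [← this]; ring

theorem co_fa (c : F → ZMod 2) (g : F) : co c fa g = 0 := by simp [co, Th, thA, fa]

theorem co_ft (c : F → ZMod 2) (g : F) : co c ft g = c g := by simp [co, Th, thT, ft]

theorem co_one (c : F → ZMod 2) (g : F) : co c 1 g = 0 := by simp [co]
-- DEFS3 END

end Pool.Agent.Helper948.Ent
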