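import Pool.Agent.Helper948.Ent.Code
import Pool.Agent.Helper948.Ent.B5

/- solved by helper175 -/


set_option autoImplicit false

namespace Pool.Agent.Helper948.Ent.E1
open Pool.Agent.Helper948.Dom Pool.Agent.Helper948.Ent Pool.Agent.Helper948.Ent.B5










-- TARGET
theorem lf_win_sum (K K' : Subgroup F) [K.FiniteIndex] [K'.FiniteIndex] (hle : K' ≤ K)
    (G : F → ℝ) (hG : ∀ x, ∀ κ ∈ K, G (x * κ) = G x) :
    ∑ᶠ q : F ⧸ K', G q.out = (K'.relIndex K : ℝ) * ∑ᶠ p : F ⧸ K, G p.out := by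
  classical
  have key : ∀ q : F ⧸ K', G q.out = G ((Subgroup.quotientEquivProdOfLE hle q).1).out := by
    intro q
    have h1 : ((q.out : F) : F ⧸ K) = (Subgroup.quotientEquivProdOfLE hle q).1 := by
      conv_rhs => rw [← QuotientGroup.out_eq' q]
      rfl
    rw [← h1]
    obtain ⟨κ, hκ⟩ := QuotientGroup.mk_out_eq_mul K (q.out : F)
    rw [hκ, hG _ _ κ.2]
  have : Finite (F ⧸ K) := Subgroup.finite_quotient_of_finiteIndex
  have : Finite (F ⧸ K') := Subgroup.finite_quotient_of_finiteIndex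
  have hfin2 : Finite ((F ⧸ K) × (K ⧸ K'.subgroupOf K)) :=
    Finite.of_equiv _ (Subgroup.quotientEquivProdOfLE hle)
  have : Finite (K ⧸ K'.subgroupOf K) := by
    have : Nonempty (F ⧸ K) := ⟨((1 : F) : F ⧸ K)⟩
    exact Finite.prod_right (F ⧸ K)
  have := Fintype.ofFinite (F ⧸ K)
  have := Fintype.ofFinite (F ⧸ K')
  have := Fintype.ofFinite (K ⧸ K'.subgroupOf K)
  rw [finsum_congr key, finsum_eq_sum_of_fintype, finsum_eq_sum_of_fintype]
  rw [Equiv.sum_comp (Subgroup.quotientEquivProdOfLE hle)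
    (fun p : (F ⧸ K) × (K ⧸ K'.subgroupOf K) => G (p.1).out)]
  rw [Fintype.sum_prod_type]
  simp only [Finset.sum_const, Finset.card_univ, nsmul_eq_mul]
  rw [← Finset.mul_sum]
  congr 1
  rw [Subgroup.relIndex, Subgroup.index, Nat.card_eq_fintype_card]

/-- Fl depends only on the window. Apply local_weight (GIVEN) with base (K, m), l = n: for K2 ∈ {K, K'} (Ext K m K trivially) and y ∈ XS I K ⊆ US: log ncard (Fl I r n K2 y) = sum over q in F/K2 of g(q.out), g x := f (class of x in F/K) (pat K m (vb I.1 n y) x). The function g is right K-invariant (y is K-invariant and K is normal), so the sum over F/K' is K'.index / K.index times the sum over F/K (the fibres of F/K' → F/K all have K.relindex size; K'.index = K.index * K'.relindex K). y is also in XS I K' since K' ≤ K. -/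
theorem lf_win (I : Inp) (r n m : ℕ) (K K' : Subgroup F) (hK : FN K) (hK' : FN K') (hr : Rad I r)
    (hn : 0 < n) (hnm : n ≤ m + 1) (hd : Div n K) (hE : Ext K m K') (y : F → ℕ) (hy : y ∈ XS I K) :
    lf I r n K' y = lf I r n K y := by
  have := hK.normal
  have := hK.fin
  have := hK'.fin
  obtain ⟨f, hf⟩ := local_weight I r n m K hK hr hn hnm hd
  have hyK : y ∈ US I r n K := ⟨hy.1, fun g _ _ => hy.2 g⟩
  have hyK' : y ∈ US I r n K' :=
    ⟨⟨hy.1.1, fun g κ hκ => hy.1.2 g κ (hE.1 hκ)⟩, fun g _ _ => hy.2 g⟩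
  have h1 := hf K hK ⟨le_refl _, fun w _ h => h⟩ y hyK
  have h2 := hf K' hK' hE y hyK'
  have hG : ∀ x : F, ∀ κ ∈ K,
      f ((x * κ : F) : F ⧸ K) (pat K m (vb I.1 n y) (x * κ)) =
        f (x : F ⧸ K) (pat K m (vb I.1 n y) x) := by
    intro x κ hκ
    have e1 : ((x * κ : F) : F ⧸ K) = (x : F ⧸ K) :=
      QuotientGroup.mk_mul_of_mem x hκ
    have e2 : pat K m (vb I.1 n y) (x * κ) = pat K m (vb I.1 n y) x := by
      funext h i
      show Fin.ofNat (I.1 + 1) (y ((ft ^ (i : ℕ))⁻¹ * (rp K m h * (x * κ)))) =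
        Fin.ofNat (I.1 + 1) (y ((ft ^ (i : ℕ))⁻¹ * (rp K m h * x)))
      have : (ft ^ (i : ℕ))⁻¹ * (rp K m h * (x * κ)) =
        ((ft ^ (i : ℕ))⁻¹ * (rp K m h * x)) * κ := by group
      rw [this, hy.1.2 _ κ hκ]
    rw [e1, e2]
  have h3 := lf_win_sum K K' hE.1
    (fun x : F => f (x : F ⧸ K) (pat K m (vb I.1 n y) x)) hG
  unfold lf
  rw [h1, h2]
  have h4 : (K'.index : ℝ) = (K'.relIndex K : ℝ) * (K.index : ℝ) := by
    rw [← Subgroup.relIndex_mul_index hE.1]
    push_cast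
    ring
  have h5 : (K'.relIndex K : ℝ) ≠ 0 := by
    intro h0
    rw [h0, zero_mul] at h4
    exact Nat.cast_ne_zero.mpr Subgroup.FiniteIndex.index_ne_zero h4
  rw [h4]
  rw [h3]
  exact mul_div_mul_left _ _ h5

end Pool.Agent.Helper948.Ent.E1
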