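import Pool.Agent.Helper948.Ent.Code
import Pool.Agent.Helper948.Ent.C10
import Pool.Agent.Helper948.Ent.B14
import Pool.Agent.Helper948.Ent.B15

/- solved by helper413 -/


set_option autoImplicit false

namespace Pool.Agent.Helper948.Ent.E2
open Pool.Agent.Helper948.Dom Pool.Agent.Helper948.Ent Pool.Agent.Helper948.Ent.C10 Pool.Agent.Helper948.Ent.B14 Pool.Agent.Helper948.Ent.B15










-- TARGET
/-- the real polynomial with coefficient list `l` -/
noncomputable def sem_H_pl (l : List ℕ) : Polynomial ℝ :=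
  l.foldr (fun c p => Polynomial.C (c : ℝ) + Polynomial.X * p) 0

theorem sem_H_evp_snd (l : List ℕ) (x D : ℕ) : (evp l x D).2 = l.length := by
  induction l with
  | nil => rfl
  | cons c l ih =>
    change (evp l x D).2 + 1 = _
    rw [ih, List.length_cons]

theorem sem_H_ev (l : List ℕ) (x D : ℕ) (hD : 0 < D) :
    (ev l x D : ℝ) = (D : ℝ) ^ l.length * (sem_H_pl l).eval ((x : ℝ) / D) := by
  have hD' : (D : ℝ) ≠ 0 := by exact_mod_cast hD.ne'
  induction l with
  | nil =>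
    simp [ev, evp, sem_H_pl]
  | cons c l ih =>
    have h1 : ev (c :: l) x D = c * D ^ (l.length + 1) + x * ev l x D := by
      change c * D ^ ((evp l x D).2 + 1) + x * (evp l x D).1 = _
      rw [sem_H_evp_snd]
      rfl
    have h2 : sem_H_pl (c :: l) = Polynomial.C (c : ℝ) + Polynomial.X * sem_H_pl l := rfl
    rw [h1, h2, List.length_cons]
    push_cast
    rw [ih]
    simp only [Polynomial.eval_add, Polynomial.eval_C, Polynomial.eval_mul, Polynomial.eval_X]
    field_simp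
    ring

theorem sem_H_pl_inj (L : List (ℕ × ℕ))
    (h : sem_H_pl (L.map Prod.fst) = sem_H_pl (L.map Prod.snd)) : ∀ e ∈ L, e.1 = e.2 := by
  induction L with
  | nil => simp
  | cons a L ih =>
    have h2 : Polynomial.C (a.1 : ℝ) + Polynomial.X * sem_H_pl (L.map Prod.fst)
        = Polynomial.C (a.2 : ℝ) + Polynomial.X * sem_H_pl (L.map Prod.snd) := h
    have h3 : (a.1 : ℝ) = a.2 := by
      have h4 := congrArg (fun p => Polynomial.coeff p 0) h2
      simpa using h4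
    rw [h3] at h2
    have h5 : sem_H_pl (L.map Prod.fst) = sem_H_pl (L.map Prod.snd) := by
      have h6 := add_left_cancel h2
      exact mul_left_cancel₀ Polynomial.X_ne_zero h6
    intro e he
    rcases List.mem_cons.mp he with rfl | he
    · exact_mod_cast h3
    · exact ih h5 e he

theorem sem_H_zero (n : ℕ) (K' : Subgroup F) : (US I0 1 n K').Nonempty := by
  refine ⟨fun _ => 0, ⟨?_, ?_⟩, ?_⟩
  · intro g
    show 0 < 2
    norm_num
  · intro g κ _
    rfl
  · intro g _ _ P hP hall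
    simp only [I0, List.mem_cons, List.not_mem_nil, or_false] at hP
    rcases hP with rfl | rfl
    · have := hall ([], 1) (by simp)
      simp at this
    · have := hall ([], 1) (by simp)
      simp at this

theorem sem_H_rad : Rad I0 1 := by
  intro P hP q hq
  simp only [I0, List.mem_cons, List.not_mem_nil, or_false] at hP
  rcases hP with rfl | rfl
  · simp only [List.mem_cons, List.not_mem_nil, or_false] at hq
    rcases hq with rfl | rfl <;> simp
  · simp only [List.mem_cons, List.not_mem_nil, or_false] at hq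
    rcases hq with rfl | rfl <;> simp

theorem sem_H_frac (c ε : ℝ) (hε : 0 < ε) : ∃ A B D : ℕ, 0 < A ∧ 0 < B ∧ 0 < D ∧
    Real.exp (c - 2 * ε) < (A : ℝ) / D ∧ (A : ℝ) / D ≤ Real.exp (c - ε) ∧
    Real.exp (c + ε) ≤ (B : ℝ) / D ∧ (B : ℝ) / D < Real.exp (c + 2 * ε) := by
  have h1 : 0 < Real.exp (c - ε) - Real.exp (c - 2 * ε) := by
    rw [sub_pos, Real.exp_lt_exp]
    linarith
  have h2 : 0 < Real.exp (c + 2 * ε) - Real.exp (c + ε) := by
    rw [sub_pos, Real.exp_lt_exp]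
    linarith
  obtain ⟨D, hD⟩ := exists_nat_gt (max (1 / (Real.exp (c - ε) - Real.exp (c - 2 * ε)))
    (1 / (Real.exp (c + 2 * ε) - Real.exp (c + ε))))
  have hD1 := (le_max_left _ _).trans_lt hD
  have hD2 := (le_max_right _ _).trans_lt hD
  have hD0 : (0 : ℝ) < D := lt_trans (by positivity) hD1
  rw [div_lt_iff₀ h1] at hD1
  rw [div_lt_iff₀ h2] at hD2
  have hA1 := Nat.lt_floor_add_one ((D : ℝ) * Real.exp (c - ε))
  have hA2 := Nat.floor_le (a := (D : ℝ) * Real.exp (c - ε)) (by positivity)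
  have hB1 := Nat.le_ceil ((D : ℝ) * Real.exp (c + ε))
  have hB2 := Nat.ceil_lt_add_one (a := (D : ℝ) * Real.exp (c + ε)) (by positivity)
  have e1 : Real.exp (c - 2 * ε) * D < (⌊(D : ℝ) * Real.exp (c - ε)⌋₊ : ℝ) := by
    have : (D : ℝ) * (Real.exp (c - ε) - Real.exp (c - 2 * ε))
        = D * Real.exp (c - ε) - Real.exp (c - 2 * ε) * D := by ring
    linarith
  have e2 : (⌈(D : ℝ) * Real.exp (c + ε)⌉₊ : ℝ) < Real.exp (c + 2 * ε) * D := by
    have : (D : ℝ) * (Real.exp (c + 2 * ε) - Real.exp (c + ε))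
        = Real.exp (c + 2 * ε) * D - D * Real.exp (c + ε) := by ring
    linarith
  refine ⟨⌊(D : ℝ) * Real.exp (c - ε)⌋₊, ⌈(D : ℝ) * Real.exp (c + ε)⌉₊, D, ?_, ?_, ?_, ?_, ?_, ?_,
    ?_⟩
  · have : (0 : ℝ) < (⌊(D : ℝ) * Real.exp (c - ε)⌋₊ : ℝ) := lt_trans (by positivity) e1
    exact_mod_cast this
  · rw [Nat.ceil_pos]
    positivity
  · exact_mod_cast hD0
  · rw [lt_div_iff₀ hD0]
    exact e1
  · rw [div_le_iff₀ hD0]
    linarith [mul_comm (D : ℝ) (Real.exp (c - ε))]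
  · rw [le_div_iff₀ hD0, mul_comm]
    exact hB1
  · rw [div_lt_iff₀ hD0]
    exact e2

theorem sem_H_aux (K1 : Subgroup F) (m1 : ℕ) (h1 : Cond K1 m1) (ε : ℝ) (hε : 0 < ε) :
    ∃ (K' : Subgroup F) (m' n3 n4 A B D : ℕ) (y0 : F → ℕ), Cond K' m' ∧ Ext K1 m1 K' ∧ m1 ≤ m' ∧
      0 < n3 ∧ n3 ≤ m' + 1 ∧ 0 < n4 ∧ n4 ≤ m' + 1 ∧ 0 < A ∧ 0 < B ∧ 0 < D ∧ y0 ∈ XS I0 K' ∧
      lu I0 1 n3 K' ≤ Real.log ((B : ℝ) / D) ∧ Real.log ((A : ℝ) / D) ≤ lf I0 1 n4 K' y0 ∧
      Real.exp (sInf (LU I0 1 K1 m1) - 2 * ε) < (A : ℝ) / D ∧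
      (A : ℝ) / D < Real.exp (sInf (LU I0 1 K1 m1) + 2 * ε) ∧
      Real.exp (sInf (LU I0 1 K1 m1) - 2 * ε) < (B : ℝ) / D ∧
      (B : ℝ) / D < Real.exp (sInf (LU I0 1 K1 m1) + 2 * ε) := by
  obtain ⟨K', m', n1, n2, x0, hc', he', hm', hn1, hn1', hn2, hn2', hx0, hlf, hlu⟩ :=
    ts I0 1 sem_H_rad K1 m1 h1 (fun K' m' n _ _ _ _ _ => sem_H_zero n K') ε hε
  obtain ⟨A, B, D, hA, hB, hD, a1, a2, b1, b2⟩ := sem_H_frac (sInf (LU I0 1 K1 m1)) ε hε
  have hD0 : (0 : ℝ) < D := by exact_mod_cast hD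
  have hA0 : (0 : ℝ) < A := by exact_mod_cast hA
  have hB0 : (0 : ℝ) < B := by exact_mod_cast hB
  refine ⟨K', m', n1, n2, A, B, D, x0, hc', he', hm', hn1, hn1', hn2, hn2', hA, hB, hD, hx0, ?_, ?_,
    a1, ?_, ?_, b2⟩
  · refine hlu.trans ?_
    rw [← Real.log_exp (sInf (LU I0 1 K1 m1) + ε)]
    exact Real.log_le_log (Real.exp_pos _) b1
  · refine le_trans ?_ hlf
    rw [← Real.log_exp (sInf (LU I0 1 K1 m1) - ε)]
    exact Real.log_le_log (by positivity) a2
  · refine a2.trans_lt ?_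
    rw [Real.exp_lt_exp]
    linarith
  · refine lt_of_lt_of_le ?_ b1
    rw [Real.exp_lt_exp]
    linarith

theorem sem_H_eps (f g : Polynomial ℝ) (c : ℝ) (hfg : g.eval (Real.exp c) < f.eval (Real.exp c)) :
    ∃ ε : ℝ, 0 < ε ∧ ∀ x x' : ℝ, Real.exp (c - 2 * ε) < x → x < Real.exp (c + 2 * ε) →
      Real.exp (c - 2 * ε) < x' → x' < Real.exp (c + 2 * ε) → g.eval x' < f.eval x := by
  have hcont : Continuous (fun q : ℝ × ℝ => f.eval q.1 - g.eval q.2) := by fun_prop
  have hev : ∀ᶠ q : ℝ × ℝ in nhds (Real.exp c, Real.exp c), 0 < f.eval q.1 - g.eval q.2 := by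
    apply (hcont.tendsto _).eventually
    apply lt_mem_nhds
    simp only
    linarith
  rw [Metric.eventually_nhds_iff] at hev
  obtain ⟨δ, hδ, hball⟩ := hev
  have hexp : ∀ᶠ t : ℝ in nhds 0, dist (Real.exp (c + t)) (Real.exp c) < δ := by
    have h1 : Filter.Tendsto (fun t : ℝ => Real.exp (c + t)) (nhds 0) (nhds (Real.exp (c + 0))) :=
      Continuous.tendsto (by fun_prop) 0
    rw [add_zero] at h1
    exact h1 (Metric.ball_mem_nhds _ hδ)
  rw [Metric.eventually_nhds_iff] at hexp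
  obtain ⟨η, hη, hη'⟩ := hexp
  refine ⟨η / 4, by positivity, ?_⟩
  have e1 := hη' (y := 2 * (η / 4)) (by
    rw [Real.dist_eq, sub_zero, abs_of_pos (by positivity)]
    linarith)
  have e2 := hη' (y := -(2 * (η / 4))) (by
    rw [Real.dist_eq, sub_zero, abs_neg, abs_of_pos (by positivity)]
    linarith)
  rw [← sub_eq_add_neg] at e2
  rw [Real.dist_eq, abs_lt] at e1 e2
  intro x x' hx1 hx2 hx1' hx2'
  have h1 : dist ((x, x') : ℝ × ℝ) (Real.exp c, Real.exp c) < δ := by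
    rw [Prod.dist_eq]
    apply max_lt
    · rw [Real.dist_eq, abs_lt]
      constructor <;> linarith
    · rw [Real.dist_eq, abs_lt]
      constructor <;> linarith
  have h2 := hball h1
  simp only at h2
  linarith

theorem sem_H_lt (l l' : List ℕ) (hl : l.length = l'.length) (A B D : ℕ) (hD : 0 < D)
    (h : (sem_H_pl l').eval ((B : ℝ) / D) < (sem_H_pl l).eval ((A : ℝ) / D)) :
    ev l' B D < ev l A D := by
  have hD0 : (0 : ℝ) < D := by exact_mod_cast hD
  have h1 : (ev l' B D : ℝ) < ev l A D := by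
    rw [sem_H_ev l' B D hD, sem_H_ev l A D hD, hl]
    exact mul_lt_mul_of_pos_left h (by positivity)
  exact_mod_cast h1

/-- ev l x D = D^(length l) * (value at x / D of the polynomial with coefficient list l) (induction on l). Let f, g be the real polynomials with coefficient lists L.map fst, L.map snd. If all pairs in L have equal components take anything (use ts below with ε = 1, any A, B: e.g. A = 1, D = 1? careful: log (A/D) ≤ lf must hold, lf ≥ 0 because y0 is in Fl; B large). Otherwise f - g is a nonzero polynomial, so Z = {y : ℝ | f (e^y) = g (e^y)} is finite. avoid (GIVEN) gives (K1, m1)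
with c = sInf (LU I0 1 K1 m1) not in Z. Say f (e^c) > g (e^c). By continuity there is ε > 0 such that f (x) > g (x') for all x, x' in (e^(c-2ε), e^(c+2ε)). ts (GIVEN) for I0, r = 1 (Rad I0 1 holds; US I0 1 n K' contains 0) and this ε gives K', m', n1, n2, x0. Take D large, A = ⌊D e^(c-ε)⌋ and B = ⌈D e^(c+ε)⌉ so that A / D and B / D are in that interval and A > 0. f and g are increasing on [0,∞) (nonnegative coefficients), but this is not needed. The lists have the same length, so comparing ev is comparing values. -/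
theorem sem_H (K : Subgroup F) (m : ℕ) (h : Cond K m) (L : List (ℕ × ℕ)) :
    ∃ (K' : Subgroup F) (m' n3 n4 A B D : ℕ) (y0 : F → ℕ), Cond K' m' ∧ Ext K m K' ∧ m ≤ m' ∧
      0 < n3 ∧ n3 ≤ m' + 1 ∧ 0 < n4 ∧ n4 ≤ m' + 1 ∧ 0 < A ∧ 0 < B ∧ 0 < D ∧ y0 ∈ XS I0 K' ∧
      lu I0 1 n3 K' ≤ Real.log ((B : ℝ) / D) ∧ Real.log ((A : ℝ) / D) ≤ lf I0 1 n4 K' y0 ∧
      ((∀ e ∈ L, e.1 = e.2) ∨ ev (L.map Prod.snd) B D < ev (L.map Prod.fst) A D ∨
        ev (L.map Prod.fst) B D < ev (L.map Prod.snd) A D) := by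
  by_cases hL : ∀ e ∈ L, e.1 = e.2
  · obtain ⟨K', m', n3, n4, A, B, D, y0, hc', he', hm', hn1, hn1', hn2, hn2', hA, hB, hD, hy0, h1,
      h2, _, _, _, _⟩ := sem_H_aux K m h 1 one_pos
    exact ⟨K', m', n3, n4, A, B, D, y0, hc', he', hm', hn1, hn1', hn2, hn2', hA, hB, hD, hy0, h1,
      h2, Or.inl hL⟩
  · have hne : sem_H_pl (L.map Prod.fst) - sem_H_pl (L.map Prod.snd) ≠ 0 := by
      intro h0
      exact hL (sem_H_pl_inj L (sub_eq_zero.mp h0))
    have hZ : {y : ℝ | (sem_H_pl (L.map Prod.fst) - sem_H_pl (L.map Prod.snd)).eval (Real.exp y)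
        = 0}.Finite := by
      have h1 : {z : ℝ | Polynomial.IsRoot
          (sem_H_pl (L.map Prod.fst) - sem_H_pl (L.map Prod.snd)) z}.Finite :=
        Polynomial.finite_setOf_isRoot hne
      exact h1.preimage (Real.exp_injective.injOn)
    obtain ⟨K1, m1, hm1, hc1, he1, hnot⟩ := avoid K m h _ hZ
    have hnot' : (sem_H_pl (L.map Prod.fst)).eval (Real.exp (sInf (LU I0 1 K1 m1))) ≠
        (sem_H_pl (L.map Prod.snd)).eval (Real.exp (sInf (LU I0 1 K1 m1))) := by
      intro h0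
      apply hnot
      show (sem_H_pl (L.map Prod.fst) - sem_H_pl (L.map Prod.snd)).eval
        (Real.exp (sInf (LU I0 1 K1 m1))) = 0
      rw [Polynomial.eval_sub, h0, sub_self]
    rcases lt_or_gt_of_ne hnot' with hlt | hlt
    · obtain ⟨ε, hε, hev⟩ := sem_H_eps _ _ _ hlt
      obtain ⟨K', m', n3, n4, A, B, D, y0, hc', he', hm', hn1, hn1', hn2, hn2', hA, hB, hD, hy0, h1,
        h2, a1, a2, b1, b2⟩ := sem_H_aux K1 m1 hc1 ε hε
      refine ⟨K', m', n3, n4, A, B, D, y0, hc', ext_trans K K1 K' m m1 he1 he' hm1, hm1.trans hm',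
        hn1, hn1', hn2, hn2', hA, hB, hD, hy0, h1, h2, Or.inr (Or.inr ?_)⟩
      exact sem_H_lt _ _ (by simp) A B D hD (hev _ _ a1 a2 b1 b2)
    · obtain ⟨ε, hε, hev⟩ := sem_H_eps _ _ _ hlt
      obtain ⟨K', m', n3, n4, A, B, D, y0, hc', he', hm', hn1, hn1', hn2, hn2', hA, hB, hD, hy0, h1,
        h2, a1, a2, b1, b2⟩ := sem_H_aux K1 m1 hc1 ε hε
      refine ⟨K', m', n3, n4, A, B, D, y0, hc', ext_trans K K1 K' m m1 he1 he' hm1, hm1.trans hm',
        hn1, hn1', hn2, hn2', hA, hB, hD, hy0, h1, h2, Or.inr (Or.inl ?_)⟩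
      exact sem_H_lt _ _ (by simp) A B D hD (hev _ _ a1 a2 b1 b2)

end Pool.Agent.Helper948.Ent.E2
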