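import Pool.Agent.Helper948.Ent.Code
import Pool.Agent.Helper948.Ent.B15

/- solved by helper942 -/


set_option autoImplicit false

namespace Pool.Agent.Helper948.Ent.E3
open Pool.Agent.Helper948.Dom Pool.Agent.Helper948.Ent Pool.Agent.Helper948.Ent.B15










-- TARGET
theorem sem_I_choose (c : ℝ) (hc : 0 ≤ c) (a D j : ℕ) (hD : 0 < D) :
    ∃ (e a' p q : ℕ) (ε : ℝ), 0 < ε ∧ 0 < e ∧ a * e ≤ a' ∧ a' + 1 ≤ (a + 1) * e ∧
      (p - q) * (j + 1) ≤ D * e ∧ (p < a' ∨ a' + 1 < q) ∧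
      c + ε < (p : ℝ) / (D * e) ∧ (q = 0 ∨ (q : ℝ) / (D * e) < c - ε) := by
  obtain ⟨e, he⟩ : ∃ e : ℕ, e = 8 * (j + 1) := ⟨_, rfl⟩
  have he8 : 8 ≤ e := by omega
  have he0 : 0 < e := by omega
  have heR : (8 : ℝ) ≤ e := by exact_mod_cast he8
  have hDR : (1 : ℝ) ≤ D := by exact_mod_cast hD
  have hDe : (0 : ℝ) < D * e := by positivity
  obtain ⟨X, hX⟩ : ∃ X : ℝ, X = D * e * c := ⟨_, rfl⟩
  have hX0 : 0 ≤ X := by rw [hX]; positivity
  obtain ⟨n, hn⟩ : ∃ n : ℕ, n = ⌊X⌋₊ := ⟨_, rfl⟩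
  have hn1 : (n : ℝ) ≤ X := by rw [hn]; exact Nat.floor_le hX0
  have hn2 : X < n + 1 := by rw [hn]; exact Nat.lt_floor_add_one X
  have hcX : c = X / (D * e) := by
    rw [hX]
    field_simp
  obtain ⟨a', ha1, ha2, ha3⟩ : ∃ a' : ℕ, a * e ≤ a' ∧ a' + 1 ≤ (a + 1) * e ∧
      (n + 2 < a' ∨ a' + 1 < n - 1) := by
    by_cases h : (a + 1 / 2 : ℝ) * e ≤ X
    · refine ⟨a * e, le_refl _, ?_, Or.inr ?_⟩
      · rw [add_mul]
        omega
      · have h1 : ((a * e + 3 : ℕ) : ℝ) < n + 1 := by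
          push_cast
          nlinarith
        have h2 : a * e + 3 < n + 1 := by exact_mod_cast h1
        omega
    · push Not at h
      refine ⟨(a + 1) * e - 1, ?_, ?_, Or.inl ?_⟩
      · rw [add_mul]
        omega
      · have : 1 ≤ (a + 1) * e := by nlinarith
        omega
      · have h1 : ((n + 3 : ℕ) : ℝ) < (((a + 1) * e : ℕ) : ℝ) := by
          push_cast
          nlinarith
        have h2 : n + 3 < (a + 1) * e := by exact_mod_cast h1
        omega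
  refine ⟨e, a', n + 2, n - 1, 1 / (2 * (D * e)), by positivity, he0, ha1, ha2, ?_, ha3, ?_, ?_⟩
  · have h1 : n + 2 - (n - 1) ≤ 3 := by omega
    calc (n + 2 - (n - 1)) * (j + 1) ≤ 3 * (j + 1) := Nat.mul_le_mul_right _ h1
      _ ≤ e := by omega
      _ ≤ D * e := Nat.le_mul_of_pos_left e hD
  · rw [hcX, show X / (D * e) + 1 / (2 * (D * e)) = (X + 1 / 2) / (D * e : ℝ) by
      field_simp]
    refine div_lt_div_of_pos_right ?_ hDe
    push_cast
    linarith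
  · by_cases hn0 : n - 1 = 0
    · exact Or.inl hn0
    · right
      have h1 : 1 ≤ n := by omega
      rw [hcX, show X / (D * e) - 1 / (2 * (D * e)) = (X - 1 / 2) / (D * e : ℝ) by
        field_simp]
      refine div_lt_div_of_pos_right ?_ hDe
      push_cast [Nat.cast_sub h1]
      linarith

theorem sem_I_s (c ε : ℝ) (D e p q : ℕ) (hD : 0 < D) (he : 0 < e)
    (hp : c + ε < (p : ℝ) / (D * e)) (hq : q = 0 ∨ (q : ℝ) / (D * e) < c - ε) :
    ∃ s : ℕ, 0 < s ∧ q < D * e * s ∧ c + ε ≤ s * Real.log (1 + (p : ℝ) / (D * e * s)) ∧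
      (-(s * Real.log (1 - (q : ℝ) / (D * e * s))) ≤ 0 ∨
        -(s * Real.log (1 - (q : ℝ) / (D * e * s))) ≤ c - ε) := by
  have h1 := (Real.tendsto_mul_log_one_add_div_atTop ((p : ℝ) / (D * e))).comp
    tendsto_natCast_atTop_atTop
  have h2 := ((Real.tendsto_mul_log_one_add_div_atTop (-((q : ℝ) / (D * e)))).comp
    tendsto_natCast_atTop_atTop).neg
  rw [neg_neg] at h2
  have e1 := h1.eventually (lt_mem_nhds hp)
  have e2 : ∀ᶠ s : ℕ in Filter.atTop, (-(s * Real.log (1 - (q : ℝ) / (D * e * s))) ≤ 0 ∨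
        -(s * Real.log (1 - (q : ℝ) / (D * e * s))) ≤ c - ε) := by
    rcases hq with hq | hq
    · refine Filter.Eventually.of_forall fun s => Or.inl ?_
      rw [hq]
      simp
    · filter_upwards [h2.eventually (gt_mem_nhds hq)] with s hs
      right
      have h3 : (q : ℝ) / (D * e * s) = (q : ℝ) / (D * e) / s := by rw [div_div]
      rw [h3]
      have h4 : (1 - (q : ℝ) / (D * e) / s) = 1 + -((q : ℝ) / (D * e)) / s := by ring
      rw [h4]
      exact hs.le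
  obtain ⟨s, hs1, hs2, hs3⟩ := (e1.and (e2.and (Filter.eventually_ge_atTop (q + 1)))).exists
  refine ⟨s, by omega, ?_, ?_, hs2⟩
  · have : s ≤ D * e * s := Nat.le_mul_of_pos_left s (Nat.mul_pos hD he)
    omega
  · have h3 : (p : ℝ) / (D * e * s) = (p : ℝ) / (D * e) / s := by rw [div_div]
    rw [h3]
    exact hs1.le

/-- If there is (K', m') with Cond, Ext K m K', m ≤ m' and 0 < n ≤ m'+1 with US I r n K' = ∅ take it. Otherwise ts (GIVEN) applies. Let c = sInf (LU I r K m) ≥ 0 (all elements are ≥ 0). Choose e large and then ε small: let η = 1/(16 D (j+1)). If c ≥ (a + 1/2)/D put a' = a e; otherwise a' = (a+1) e - 1. We want p / (D e) > c + ε ≥ lu and q / (D e) < c - ε ≤ lf (or q = 0), p/(De) - q/(De) ≤ 1/(j+1) and p < a' or a'+1 < q. In the first case (a'+1)/(De) = a/D + 1/(De), far below c: choose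
q = ⌊D e (c - 2ε)⌋ (> a' + 1 for e large and ε small), p = ⌈D e (c + 2ε)⌉. In the second case a'/(De) = (a+1)/D - 1/(De) is far above c: p = ⌈De (c+2ε)⌉ < a', q = max(0, ⌊De(c - 2ε)⌋). Finally s large: s log(1 + x/s) → x and - s log(1 - x/s) → x as s → ∞, so s log (1 + (p/(De))/s) ≥ c + ε since p/(De) ≥ c + 2ε > c + ε, and - s log (1 - (q/(De))/s) ≤ c - ε if q > 0 (q/(De) ≤ c - 2ε), and = 0 ≤ lf if q = 0 (x0 ∈ Fl so lf ≥ 0). -/
theorem sem_I (I : Inp) (r : ℕ) (hr : Rad I r) (K : Subgroup F) (m : ℕ) (h : Cond K m)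
    (a D j : ℕ) (hD : 0 < D) :
    ∃ (K' : Subgroup F) (m' : ℕ), Cond K' m' ∧ Ext K m K' ∧ m ≤ m' ∧
      ((∃ n, 0 < n ∧ n ≤ m' + 1 ∧ US I r n K' = ∅) ∨
      ∃ (n1 n2 a' e p q s : ℕ) (x0 : F → ℕ), 0 < n1 ∧ n1 ≤ m' + 1 ∧ 0 < n2 ∧ n2 ≤ m' + 1 ∧
        x0 ∈ XS I K' ∧ 0 < e ∧ a * e ≤ a' ∧ a' + 1 ≤ (a + 1) * e ∧ 0 < s ∧ q < D * e * s ∧
        (p - q) * (j + 1) ≤ D * e ∧ (p < a' ∨ a' + 1 < q) ∧
        lu I r n1 K' ≤ s * Real.log (1 + (p : ℝ) / (D * e * s)) ∧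
        -(s * Real.log (1 - (q : ℝ) / (D * e * s))) ≤ lf I r n2 K' x0) := by
  by_cases hne : ∀ K' m' n, Cond K' m' → Ext K m K' → m ≤ m' → 0 < n → n ≤ m' + 1 →
      (US I r n K').Nonempty
  · have hc : 0 ≤ sInf (LU I r K m) := by
      refine Real.sInf_nonneg ?_
      rintro u ⟨K', m', n, -, -, -, -, -, rfl⟩
      unfold lu
      exact div_nonneg (Real.log_natCast_nonneg _) (Nat.cast_nonneg _)
    obtain ⟨e, a', p, q, ε, hε, he, ha1, ha2, hpq, hor, hp, hq⟩ :=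
      sem_I_choose (sInf (LU I r K m)) hc a D j hD
    obtain ⟨s, hs0, hs1, hs2, hs3⟩ := sem_I_s (sInf (LU I r K m)) ε D e p q hD he hp hq
    obtain ⟨K', m', n1, n2, x0, hC, hE, hm, hn1, hn1', hn2, hn2', hx0, hlf, hlu⟩ :=
      ts I r hr K m h hne ε hε
    refine ⟨K', m', hC, hE, hm, Or.inr ⟨n1, n2, a', e, p, q, s, x0, hn1, hn1', hn2, hn2', hx0,
      he, ha1, ha2, hs0, hs1, hpq, hor, hlu.trans hs2, ?_⟩⟩
    rcases hs3 with h3 | h3
    · refine h3.trans ?_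
      unfold lf
      exact div_nonneg (Real.log_natCast_nonneg _) (Nat.cast_nonneg _)
    · exact h3.trans hlf
  · push Not at hne
    obtain ⟨K', m', n, hC, hE, hm, hn, hn', hU⟩ := hne
    exact ⟨K', m', hC, hE, hm, Or.inl ⟨n, hn, hn', hU⟩⟩

end Pool.Agent.Helper948.Ent.E3
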