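import Pool.Agent.Helper948.Ent.Code
import Pool.Agent.Helper948.Ent.D1
import Pool.Agent.Helper948.Ent.D2
import Pool.Agent.Helper948.Ent.D3
import Pool.Agent.Helper948.Ent.D4
import Pool.Agent.Helper948.Ent.D5
import Pool.Agent.Helper948.Ent.D6
import Pool.Agent.Helper948.Ent.B14
import Pool.Agent.Helper948.Ent.B2
import Pool.Agent.Helper948.Ent.E1
import Pool.Agent.Helper948.Ent.E2
import Pool.Agent.Helper948.Ent.E3
import Pool.Agent.Helper948.Ent.E4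

/- solved by helper846 -/


set_option autoImplicit false

namespace Pool.Agent.Helper948.Ent.E5
open Pool.Agent.Helper948.Dom Pool.Agent.Helper948.Ent Pool.Agent.Helper948.Ent.D1 Pool.Agent.Helper948.Ent.D2 Pool.Agent.Helper948.Ent.D3 Pool.Agent.Helper948.Ent.D4 Pool.Agent.Helper948.Ent.D5 Pool.Agent.Helper948.Ent.D6 Pool.Agent.Helper948.Ent.B14 Pool.Agent.Helper948.Ent.B2 Pool.Agent.Helper948.Ent.E1 Pool.Agent.Helper948.Ent.E2 Pool.Agent.Helper948.Ent.E3 Pool.Agent.Helper948.Ent.E4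










-- TARGET
theorem ok_exists_log1 (U N X Y : ℕ) (hN : 0 < N) (hX : 0 < X) (hY : 0 < Y)
    (h : Real.log (U : ℝ) / N ≤ Real.log ((Y : ℝ) / X)) : U * X ^ N ≤ Y ^ N := by
  rcases Nat.eq_zero_or_pos U with hU | hU
  · subst hU
    simp
  · have hN' : (0 : ℝ) < N := by exact_mod_cast hN
    have hX' : (0 : ℝ) < X := by exact_mod_cast hX
    have hY' : (0 : ℝ) < Y := by exact_mod_cast hY
    have hU' : (0 : ℝ) < U := by exact_mod_cast hU
    rw [div_le_iff₀ hN'] at h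
    have h2 : Real.log ((Y : ℝ) / X) * N = Real.log (((Y : ℝ) / X) ^ N) := by
      rw [Real.log_pow]; ring
    rw [h2] at h
    have h3 := (Real.log_le_log_iff hU' (by positivity)).1 h
    rw [div_pow, le_div_iff₀ (by positivity)] at h3
    exact_mod_cast h3

theorem ok_exists_log2 (Fc N X Y : ℕ) (hN : 0 < N) (hX : 0 < X) (hY : 0 < Y) (hF : 0 < Fc)
    (h : Real.log ((Y : ℝ) / X) ≤ Real.log (Fc : ℝ) / N) : Y ^ N ≤ Fc * X ^ N := by
  have hN' : (0 : ℝ) < N := by exact_mod_cast hN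
  have hX' : (0 : ℝ) < X := by exact_mod_cast hX
  have hY' : (0 : ℝ) < Y := by exact_mod_cast hY
  have hF' : (0 : ℝ) < Fc := by exact_mod_cast hF
  rw [le_div_iff₀ hN'] at h
  have h2 : Real.log ((Y : ℝ) / X) * N = Real.log (((Y : ℝ) / X) ^ N) := by
    rw [Real.log_pow]; ring
  rw [h2] at h
  have h3 := (Real.log_le_log_iff (by positivity) hF').1 h
  rw [div_pow, div_le_iff₀ (by positivity)] at h3
  exact_mod_cast h3

theorem ok_exists_uc (U N X p s : ℕ) (hN : 0 < N) (hX : 0 < X) (hs : 0 < s)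
    (h : Real.log (U : ℝ) / N ≤ s * Real.log (1 + (p : ℝ) / X)) :
    U * X ^ (s * N) ≤ (X + p) ^ (s * N) := by
  have hN' : (0 : ℝ) < N := by exact_mod_cast hN
  have hX' : (0 : ℝ) < X := by exact_mod_cast hX
  have hs' : (0 : ℝ) < s := by exact_mod_cast hs
  apply ok_exists_log1 U (s * N) X (X + p) (by positivity) hX (by omega)
  have h1 : (((X + p : ℕ) : ℝ)) / X = 1 + (p : ℝ) / X := by
    push_cast
    field_simp
  rw [h1]
  push_cast
  rw [div_le_iff₀ (by positivity)]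
  rw [div_le_iff₀ hN'] at h
  linarith

theorem ok_exists_fc (Fc N X q s : ℕ) (hN : 0 < N) (hX : q < X) (hs : 0 < s) (hF : 0 < Fc)
    (h : -(s * Real.log (1 - (q : ℝ) / X)) ≤ Real.log (Fc : ℝ) / N) :
    X ^ (s * N) ≤ Fc * (X - q) ^ (s * N) := by
  have hN' : (0 : ℝ) < N := by exact_mod_cast hN
  have hX0 : 0 < X := by omega
  have hX' : (0 : ℝ) < X := by exact_mod_cast hX0
  have hs' : (0 : ℝ) < s := by exact_mod_cast hs
  have hqX : (q : ℝ) < X := by exact_mod_cast hX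
  apply ok_exists_log2 Fc (s * N) (X - q) X (by positivity) (by omega) hX0 hF
  have h1 : (((X - q : ℕ) : ℝ)) = (X : ℝ) - q := by
    rw [Nat.cast_sub hX.le]
  have h2 : (X : ℝ) / ((X : ℝ) - q) = (1 - (q : ℝ) / X)⁻¹ := by
    have : (X : ℝ) - q ≠ 0 := by linarith
    field_simp
  rw [h1, h2, Real.log_inv]
  push_cast
  rw [le_div_iff₀ (by positivity)]
  rw [le_div_iff₀ hN'] at h
  linarith

theorem ok_exists_fcpos (I : Inp) (r n N : ℕ) (T : List (List ℕ)) (p y : List ℕ)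
    (hy : XC I N T y) : 0 < FC I r n N T p y := by
  classical
  unfold FC
  apply List.length_pos_of_mem (a := y)
  rw [List.mem_filter]
  refine ⟨hy.1, ?_⟩
  rw [decide_eq_true_eq]
  exact ⟨fun v hv _ _ => hy.2 v hv, fun v _ _ => rfl⟩

theorem ok_exists_grp (K K' : Subgroup F) (c : Code) (hK : KC K c) (m' : ℕ) (h' : Cond K' m')
    (hE : Ext K c.1.1 K') : ∃ (T' R' : List (List ℕ)) (mp p b : List ℕ), Reg K'.index T' R' ∧
      IsK K' T' ∧ Emap c.1.2.1 c.1.2.2 K'.index T' mp ∧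
      WinC (2 * (c.1.1 + 1)) K'.index T' mp ∧ NDC m' K'.index T' ∧
      DivC (m' + 1).factorial K'.index T' p ∧ ParC K'.index T' b := by
  obtain ⟨hC, hR, hI, hN, hD⟩ := hK
  obtain ⟨T', R', hR', hI'⟩ := exists_reg K' h'.fn
  obtain ⟨mp, hmp⟩ := emap_exists _ _ _ _ T' R' hR hR' K K' hI hI' hE.1
  obtain ⟨p, hp⟩ := div_exists _ T' R' hR' K' hI' (m' + 1).factorial (Nat.factorial_pos _) h'.div
  obtain ⟨b, hb⟩ := par_exists _ T' R' hR' K' hI' h'.par
  refine ⟨T', R', mp, p, b, hR', hI', hmp, ?_, ?_, hp, hb⟩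
  · exact (winC_iff _ _ _ _ T' R' hR hR' K K' hI hI' mp hmp (c.1.1 + 1)).1 hE.2
  · exact (ndc_iff _ T' R' hR' K' h'.fn.normal hI' m').1 h'.nd

theorem ok_exists_rad0 : Rad I0 1 := by
  intro P hP q hq
  simp only [I0, List.mem_cons, List.not_mem_nil, or_false] at hP
  rcases hP with rfl | rfl
  · simp only [List.mem_cons, List.not_mem_nil, or_false] at hq
    rcases hq with rfl | rfl <;> simp
  · simp only [List.mem_cons, List.not_mem_nil, or_false] at hq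
    rcases hq with rfl | rfl <;> simp

theorem ok_exists_xs (I : Inp) (K K' : Subgroup F) (h : K' ≤ K) : XS I K ⊆ XS I K' := by
  intro x hx
  exact ⟨⟨hx.1.1, fun g κ hκ => hx.1.2 g κ (h hκ)⟩, hx.2⟩

/-- the part for the hard core model -/
theorem ok_exists_H (L : List (ℕ × ℕ)) (K2 K' : Subgroup F) (m2 m' n3 n4 A B D : ℕ) (y0 : F → ℕ)
    (h2 : Cond K2 m2) (h' : Cond K' m') (hE : Ext K2 m2 K') (hm : m2 ≤ m') (hn3 : 0 < n3)
    (hn3' : n3 ≤ m2 + 1) (hn4 : 0 < n4) (hn4' : n4 ≤ m2 + 1) (hA : 0 < A) (hB : 0 < B) (hD : 0 < D)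
    (hy0 : y0 ∈ XS I0 K2) (hlu : lu I0 1 n3 K2 ≤ Real.log ((B : ℝ) / D))
    (hlf : Real.log ((A : ℝ) / D) ≤ lf I0 1 n4 K2 y0)
    (T' R' : List (List ℕ)) (p : List ℕ) (hR : Reg K'.index T' R') (hI : IsK K' T')
    (hp : DivC (m' + 1).factorial K'.index T' p) :
    ∃ yl : List ℕ, XC I0 K'.index T' yl ∧
      UC I0 1 n3 K'.index T' p * D ^ K'.index ≤ B ^ K'.index ∧
      A ^ K'.index ≤ FC I0 1 n4 K'.index T' p yl * D ^ K'.index := by
  have hN : 0 < K'.index := hR.1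
  have hd3 : Div n3 K2 := fun κ hκ => (Int.natCast_dvd_natCast.2 (Nat.dvd_factorial hn3 hn3')).trans
    (h2.div κ hκ)
  have hd4 : Div n4 K2 := fun κ hκ => (Int.natCast_dvd_natCast.2 (Nat.dvd_factorial hn4 hn4')).trans
    (h2.div κ hκ)
  have e3 : n3 ∣ (m' + 1).factorial := Nat.dvd_factorial hn3 (by omega)
  have e4 : n4 ∣ (m' + 1).factorial := Nat.dvd_factorial hn4 (by omega)
  have hw : Win K2 n3 K' := ⟨hE.1, fun w hw hk => hE.2 w (W_mono hn3' hw) hk⟩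
  have hlu' := lu_win I0 1 n3 K2 K' h2.fn h'.fn hn3 hd3 ok_exists_rad0 hw
  have hlf' := lf_win I0 1 n4 m2 K2 K' h2.fn h'.fn ok_exists_rad0 hn4 hn4' hd4 hE y0 hy0
  obtain ⟨yl, hyl, hyc⟩ := xc_exists I0 _ T' R' hR K' h'.fn.normal hI y0
    (ok_exists_xs I0 K2 K' hE.1 hy0)
  refine ⟨yl, hyl, ?_, ?_⟩
  · apply ok_exists_log1 _ _ _ _ hN hD hB
    rw [uc_eq I0 1 n3 _ _ T' R' hR K' h'.fn.normal hI (Nat.factorial_pos _) e3 p hp]
    rw [← hlu'] at hlu
    exact hlu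
  · apply ok_exists_log2 _ _ _ _ hN hD hA (ok_exists_fcpos I0 1 n4 _ T' p yl hyl)
    rw [fc_eq I0 1 n4 _ _ T' R' hR K' h'.fn.normal hI (Nat.factorial_pos _) e4 p hp yl hyl.1, hyc]
    rw [← hlf'] at hlf
    exact hlf

/-- assembling the code -/
theorem ok_exists_asm (K : Subgroup F) (c : Code) (hK : KC K c) (j : ℕ) (K' : Subgroup F) (m' : ℕ)
    (hm : c.1.1 < m') (T' R' : List (List ℕ)) (mp p b y yl : List ℕ)
    (a' e fl n1 n2 P Q s A B D0 n3 n4 : ℕ)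
    (hR : Reg K'.index T' R') (h1 : Emap c.1.2.1 c.1.2.2 K'.index T' mp)
    (h2 : WinC (2 * (c.1.1 + 1)) K'.index T' mp) (h3 : NDC m' K'.index T')
    (h4 : DivC (m' + 1).factorial K'.index T' p) (h5 : ParC K'.index T' b)
    (he : 0 < e) (h6 : num c 0 * e ≤ a') (h7 : a' + 1 ≤ (num c 0 + 1) * e)
    (h8 : 0 < n1) (h9 : n1 ≤ m' + 1)
    (h10 : (fl = 1 ∧ UC (inpOf j) (rad (inpOf j)) n1 K'.index T' p = 0) ∨
      (fl = 0 ∧ 0 < n2 ∧ n2 ≤ m' + 1 ∧ XC (inpOf j) K'.index T' y ∧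
        UC (inpOf j) (rad (inpOf j)) n1 K'.index T' p * (num c 1 * e * s) ^ (s * K'.index) ≤
          (num c 1 * e * s + P) ^ (s * K'.index) ∧
        (num c 1 * e * s) ^ (s * K'.index) ≤ FC (inpOf j) (rad (inpOf j)) n2 K'.index T' p y *
          (num c 1 * e * s - Q) ^ (s * K'.index) ∧
        0 < s ∧ Q < num c 1 * e * s ∧ (P - Q) * (j + 1) ≤ num c 1 * e ∧
        (P < a' ∨ a' + 1 < Q)))
    (h11 : 0 < n3) (h12 : n3 ≤ m' + 1) (h13 : 0 < n4) (h14 : n4 ≤ m' + 1) (h15 : 0 < D0)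
    (h16 : XC I0 K'.index T' yl)
    (h17 : UC I0 1 n3 K'.index T' p * D0 ^ K'.index ≤ B ^ K'.index)
    (h18 : A ^ K'.index ≤ FC I0 1 n4 K'.index T' p yl * D0 ^ K'.index)
    (h19 : (∀ e ∈ polOf j, e.1 = e.2) ∨
      ev ((polOf j).map Prod.snd) B D0 < ev ((polOf j).map Prod.fst) A D0 ∨
        ev ((polOf j).map Prod.fst) B D0 < ev ((polOf j).map Prod.snd) A D0) :
    OkStep c j ((m', K'.index, T'), R',
      [[a', num c 1 * e, fl, n1, n2, P, Q, s, A, B, D0, n3, n4], mp, p, b, y, yl]) := by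
  have hD : 0 < num c 1 := hK.2.2.2.2
  refine ⟨⟨hm, hR, h1, h2, h3, h4, h5⟩, ⟨?_, e, ?_, ?_, ?_, ?_⟩, ⟨h8, h9, h10⟩,
    ⟨h11, h12, h13, h14, h15, h16, h17, h18, h19⟩⟩
  · show 0 < num c 1 * e
    positivity
  · show e < num c 1 * e + 1
    nlinarith
  · rfl
  · exact h6
  · exact h7

/-- Existence of the next code. Let K, c be given. (1) cond_ext: (K1, m1), m1 = c.1.1 + 1. (2) sem_H for (K1, m1) and L = polOf j: (K2, m2) with n3, n4, A, B, D0, y0. (3) sem_I for (K2, m2), I = inpOf j, r = rad I (rad_ok), a = num c 0, D = num c 1 > 0: (K', m') and either a killed n or numbers. All with ext_trans: Ext K c.1.1 K'. lu_win, lf_win transport the bounds for I0 from K2 to K' (n3, n4 ≤ m2 + 1, Win K2 n3 K' from Ext K2 m2 K' and W_mono; note that XS I0 K2 ⊆ XS I0 K'). Now build the code: exists_reg for K' gives tables (T', R'),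
N' = K'.index; emap_exists for K' ≤ K gives the map; WinC from winC_iff with M = c.1.1 + 1; NDC from ndc_iff; div_exists with M = (m'+1)!; par_exists; xc_exists for the colourings (lists y, y0). Put c' = ((m', N', T'), R', [numbers, map, phase, parity, y, y0]) with numbers = [a', D * e, flag, n1, n2, p, q, s, A, B, D0, n3, n4] (in the killed case flag = 1, e = 1, a' = a, n1 = n, the list y arbitrary, e.g. []). Counting: uc_eq, fc_eq with M = (m'+1)!, n ∣ M for n ≤ m'+1. The inequality for UC: if UC = 0 trivial; otherwise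
lu ≤ s log (1 + p/(D e s)) means log UC ≤ s N' log ((D e s + p)/(D e s)), so UC * (D e s)^(s N') ≤ (D e s + p)^(s N'). Similarly for FC, and for I0: lu ≤ log (B/D0) means UC * D0^N' ≤ B^N', log (A/D0) ≤ lf means A^N' ≤ FC * D0^N' (FC ≥ 1 since y0 ∈ Fl). -/
theorem ok_exists (K : Subgroup F) (c : Code) (hK : KC K c) (j : ℕ) : ∃ c' : Code, OkStep c j c' := by
  have hD : 0 < num c 1 := hK.2.2.2.2
  obtain ⟨K1, hK1, hE1⟩ := cond_ext K c.1.1 hK.1 (c.1.1 + 1) (by omega)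
  obtain ⟨K2, m2, n3, n4, A, B, D0, y0, hK2, hE2, hm2, hn3, hn3', hn4, hn4', hA, hB, hD0, hy0, hlu,
    hlf, hL⟩ := sem_H K1 (c.1.1 + 1) hK1 (polOf j)
  obtain ⟨K', m', hK', hE', hm', hcase⟩ := sem_I (inpOf j) (rad (inpOf j)) (rad_ok _) K2 m2 hK2
    (num c 0) (num c 1) j hD
  have hE12 : Ext K c.1.1 K2 := ext_trans K K1 K2 _ _ hE1 hE2 (by omega)
  have hE : Ext K c.1.1 K' := ext_trans K K2 K' _ _ hE12 hE' (by omega)
  obtain ⟨T', R', mp, p, b, hR, hI, h1, h2, h3, h4, h5⟩ := ok_exists_grp K K' c hK m' hK' hE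
  obtain ⟨yl, h16, h17, h18⟩ := ok_exists_H (polOf j) K2 K' m2 m' n3 n4 A B D0 y0 hK2 hK' hE' hm' hn3 hn3'
    hn4 hn4' hA hB hD0 hy0 hlu hlf T' R' p hR hI h4
  have hN : 0 < K'.index := hR.1
  rcases hcase with ⟨n, hn, hn', hU⟩ | ⟨n1, n2, a', e, P, Q, s, x0, hn1, hn1', hn2, hn2', hx0, he,
    ha1, ha2, hs, hq, hpq, hpa, hlu', hlf'⟩
  · refine ⟨_, ok_exists_asm K c hK j K' m' (by omega) T' R' mp p b [] yl (num c 0) 1 1 n 0 0 0 0
      A B D0 n3 n4 hR h1 h2 h3 h4 h5 one_pos (by omega) (by omega) hn hn' ?_ hn3 (by omega) hn4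
      (by omega) hD0 h16 h17 h18 hL⟩
    left
    refine ⟨rfl, ?_⟩
    rw [uc_eq (inpOf j) (rad (inpOf j)) n _ _ T' R' hR K' hK'.fn.normal hI (Nat.factorial_pos _)
      (Nat.dvd_factorial hn hn') p h4, hU]
    exact Set.ncard_empty _
  · obtain ⟨y, hy, hyc⟩ := xc_exists (inpOf j) _ T' R' hR K' hK'.fn.normal hI x0 hx0
    refine ⟨_, ok_exists_asm K c hK j K' m' (by omega) T' R' mp p b y yl a' e 0 n1 n2 P Q s
      A B D0 n3 n4 hR h1 h2 h3 h4 h5 he ha1 ha2 hn1 hn1' ?_ hn3 (by omega) hn4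
      (by omega) hD0 h16 h17 h18 hL⟩
    right
    have hX : 0 < num c 1 * e * s := by positivity
    refine ⟨rfl, hn2, hn2', hy, ?_, ?_, hs, hq, hpq, hpa⟩
    · apply ok_exists_uc _ _ _ _ _ hN hX hs
      rw [uc_eq (inpOf j) (rad (inpOf j)) n1 _ _ T' R' hR K' hK'.fn.normal hI
        (Nat.factorial_pos _) (Nat.dvd_factorial hn1 hn1') p h4]
      push_cast
      exact hlu'
    · apply ok_exists_fc _ _ _ _ _ hN hq hs (ok_exists_fcpos _ _ _ _ T' p y hy)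
      rw [fc_eq (inpOf j) (rad (inpOf j)) n2 _ _ T' R' hR K' hK'.fn.normal hI
        (Nat.factorial_pos _) (Nat.dvd_factorial hn2 hn2') p h4 y hy.1, hyc]
      push_cast
      exact hlf'

end Pool.Agent.Helper948.Ent.E5
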