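import Pool.Agent.Helper948.Ent.Code

/- solved by helper180 -/


set_option autoImplicit false

namespace Pool.Agent.Helper948.Ent.P1
open Pool.Agent.Helper948.Dom Pool.Agent.Helper948.Ent








-- TARGET
theorem p1_rep (c : ℕ) : Primrec fun n : ℕ => List.replicate n c := by
  refine (Primrec.list_map Primrec.list_range ((Primrec.const c).to₂)).of_eq fun n => ?_
  simp [List.map_const']

/-- Primitive recursiveness of the basic functions. -/
theorem primrec_step : Primrec (fun p : List (List ℕ) × ℕ × ℕ => step p.1 p.2.1 p.2.2) := by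
  unfold step
  exact (Primrec.list_getD 0).comp
    ((Primrec.list_getD []).comp Primrec.fst (Primrec.fst.comp Primrec.snd))
    (Primrec.snd.comp Primrec.snd)

theorem primrec_linv : Primrec linv := by
  unfold linv
  refine Primrec.ite ?_ Primrec.succ ?_
  · exact Primrec.eq.comp (Primrec.nat_mod.comp Primrec.id (Primrec.const 2)) (Primrec.const 0)
  · exact Primrec.nat_sub.comp Primrec.id (Primrec.const 1)

theorem primrec_lw : Primrec (fun p : (List (List ℕ) × List ℕ) × ℕ => lw p.1.1 p.1.2 p.2) := by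
  unfold lw
  have h : Primrec₂ (fun (p : (List (List ℕ) × List ℕ) × ℕ) (q : ℕ × ℕ) => step p.1.1 q.1 q.2) := by
    have h1 : Primrec (fun x : ((List (List ℕ) × List ℕ) × ℕ) × (ℕ × ℕ) =>
        (x.1.1.1, (x.2.1, x.2.2))) :=
      Primrec.pair (Primrec.fst.comp (Primrec.fst.comp Primrec.fst))
        (Primrec.pair (Primrec.fst.comp Primrec.snd) (Primrec.snd.comp Primrec.snd))
    exact (primrec_step.comp h1).to₂
  exact Primrec.list_foldr (Primrec.snd.comp Primrec.fst) Primrec.snd h

theorem primrec_enc : Primrec enc := by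
  unfold enc
  exact Primrec.list_map Primrec.id ((Primrec.dom_finite lcode).comp Primrec.snd).to₂

theorem primrec_wordsEq : Primrec₂ wordsEq := by
  have hg : Primrec₂ (fun (L : ℕ) (p : ℕ × List (List ℕ)) =>
      p.2.flatMap (fun w => (List.range L).map (fun j => j :: w))) := by
    have h3 : Primrec₂ (fun (x : (ℕ × (ℕ × List (List ℕ))) × List ℕ) (j : ℕ) => j :: x.2) :=
      (Primrec.list_cons.comp Primrec.snd (Primrec.snd.comp Primrec.fst)).to₂
    have h2 : Primrec₂ (fun (x : ℕ × (ℕ × List (List ℕ))) (w : List ℕ) =>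
        (List.range x.1).map (fun j => j :: w)) :=
      (Primrec.list_map (Primrec.list_range.comp (Primrec.fst.comp Primrec.fst)) h3).to₂
    exact (Primrec.list_flatMap (Primrec.snd.comp Primrec.snd) h2).to₂
  have h := Primrec.nat_rec (Primrec.const ([[]] : List (List ℕ))) hg
  refine h.of_eq fun L n => ?_
  induction n with
  | zero => rfl
  | succ n ih =>
    simp only [wordsEq] at ih ⊢
    rw [← ih]

theorem primrec_words : Primrec₂ words := by
  unfold words
  have h2 : Primrec₂ (fun (x : ℕ × ℕ) (k : ℕ) => wordsEq x.1 k) :=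
    (primrec_wordsEq.comp (Primrec.fst.comp Primrec.fst) Primrec.snd).to₂
  exact (Primrec.list_flatMap (Primrec.list_range.comp (Primrec.succ.comp Primrec.snd)) h2).to₂

theorem primrec_aw : Primrec aw := by
  unfold aw
  have hd : Primrec fun j : ℕ => j / 2 := Primrec.nat_div.comp Primrec.id (Primrec.const 2)
  have hm : Primrec fun j : ℕ => j % 2 := Primrec.nat_mod.comp Primrec.id (Primrec.const 2)
  exact Primrec.list_append.comp ((p1_rep 2).comp hd)
    (Primrec.list_cons.comp hm ((p1_rep 3).comp hd))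

theorem primrec_conv : Primrec conv := by
  unfold conv
  exact Primrec.list_flatMap Primrec.id (primrec_aw.comp Primrec.snd).to₂

theorem p1_sum : Primrec (fun l : List ℕ => l.sum) := by
  have h : Primrec₂ (fun (_ : List ℕ) (q : ℕ × ℕ) => q.1 + q.2) :=
    (Primrec.nat_add.comp (Primrec.fst.comp Primrec.snd) (Primrec.snd.comp Primrec.snd)).to₂
  refine (Primrec.list_foldr Primrec.id (Primrec.const 0) h).of_eq fun l => ?_
  simp [List.sum]

theorem primrec_rad : Primrec rad := by
  unfold rad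
  have h1 : Primrec₂ (fun (_ : Inp × List (List (Fin 2 × Bool) × ℕ))
      (q : List (Fin 2 × Bool) × ℕ) => q.1.length) :=
    (Primrec.list_length.comp (Primrec.fst.comp Primrec.snd)).to₂
  have h2 : Primrec₂ (fun (_ : Inp) (P : List (List (Fin 2 × Bool) × ℕ)) =>
      (P.map (fun q => q.1.length)).sum) :=
    (p1_sum.comp (Primrec.list_map Primrec.snd h1)).to₂
  exact p1_sum.comp (Primrec.list_map Primrec.snd h2)

theorem primrec_pow : Primrec (fun p : ℕ × ℕ => p.1 ^ p.2) := by
  have h : Primrec₂ (fun (a : ℕ) (q : ℕ × ℕ) => q.2 * a) :=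
    (Primrec.nat_mul.comp (Primrec.snd.comp Primrec.snd) Primrec.fst).to₂
  refine ((Primrec.nat_rec (Primrec.const 1) h).comp Primrec.fst Primrec.snd).of_eq fun p => ?_
  obtain ⟨a, n⟩ := p
  induction n with
  | zero => simp
  | succ n ih => simp only [pow_succ] at ih ⊢; rw [← ih]

theorem primrec_ev : Primrec (fun p : (List ℕ × ℕ) × ℕ => ev p.1.1 p.1.2 p.2) := by
  have h : Primrec₂ (fun (p : (List ℕ × ℕ) × ℕ) (q : ℕ × (ℕ × ℕ)) =>
      (q.1 * p.2 ^ (q.2.2 + 1) + p.1.2 * q.2.1, q.2.2 + 1)) := by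
    have e1 : Primrec (fun x : ((List ℕ × ℕ) × ℕ) × (ℕ × (ℕ × ℕ)) => x.2.2.2 + 1) :=
      Primrec.succ.comp (Primrec.snd.comp (Primrec.snd.comp Primrec.snd))
    have e2 : Primrec (fun x : ((List ℕ × ℕ) × ℕ) × (ℕ × (ℕ × ℕ)) => x.1.2 ^ (x.2.2.2 + 1)) :=
      primrec_pow.comp (Primrec.pair (Primrec.snd.comp Primrec.fst) e1)
    have e3 : Primrec (fun x : ((List ℕ × ℕ) × ℕ) × (ℕ × (ℕ × ℕ)) =>
        x.2.1 * x.1.2 ^ (x.2.2.2 + 1)) :=
      Primrec.nat_mul.comp (Primrec.fst.comp Primrec.snd) e2
    have e4 : Primrec (fun x : ((List ℕ × ℕ) × ℕ) × (ℕ × (ℕ × ℕ)) => x.1.1.2 * x.2.2.1) :=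
      Primrec.nat_mul.comp (Primrec.snd.comp (Primrec.fst.comp Primrec.fst))
        (Primrec.fst.comp (Primrec.snd.comp Primrec.snd))
    exact (Primrec.pair (Primrec.nat_add.comp e3 e4) e1).to₂
  unfold ev evp
  exact Primrec.fst.comp (Primrec.list_foldr (Primrec.fst.comp Primrec.fst)
    (Primrec.const ((0, 0) : ℕ × ℕ)) h)

theorem primrec_num : Primrec₂ num := by
  unfold num
  exact ((Primrec.list_getD 0).comp
    ((Primrec.list_getD []).comp (Primrec.snd.comp (Primrec.snd.comp Primrec.fst))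
      (Primrec.const 0)) Primrec.snd).to₂

theorem primrec_lst : Primrec₂ lst := by
  unfold lst
  exact ((Primrec.list_getD []).comp (Primrec.snd.comp (Primrec.snd.comp Primrec.fst))
    Primrec.snd).to₂

theorem primrec_fact : Primrec Nat.factorial := by
  have h : Primrec₂ (fun (_ : ℕ) (q : ℕ × ℕ) => (q.1 + 1) * q.2) :=
    (Primrec.nat_mul.comp (Primrec.succ.comp (Primrec.fst.comp Primrec.snd))
      (Primrec.snd.comp Primrec.snd)).to₂
  refine ((Primrec.nat_rec (Primrec.const 1) h).comp Primrec.id Primrec.id).of_eq fun n => ?_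
  simp only [id]
  have key : ∀ m : ℕ, Nat.rec (motive := fun _ => ℕ) 1 (fun y IH => (y + 1) * IH) m = m.factorial := by
    intro m
    induction m with
    | zero => rfl
    | succ m ih => rw [Nat.factorial_succ, ← ih]
  exact key n

end Pool.Agent.Helper948.Ent.P1
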