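import Pool.Agent.Helper948.Ent.Code
import Pool.Agent.Helper948.Ent.P1

/- solved by helper658 -/


set_option autoImplicit false

namespace Pool.Agent.Helper948.Ent.P2
open Pool.Agent.Helper948.Dom Pool.Agent.Helper948.Ent Pool.Agent.Helper948.Ent.P1










-- TARGET
theorem primrec_reg_all_lt {α : Type*} [Primcodable α] {R : ℕ → α → Prop}
    (hR : PrimrecPred fun p : ℕ × α => R p.1 p.2) {f : α → ℕ} (hf : Primrec f) :
    PrimrecPred fun a => ∀ x < f a, R x a := by
  have h1 : PrimrecRel R := hR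
  have h2 := (h1.forall_mem_list).comp (Primrec.list_range.comp hf) Primrec.id
  exact h2.of_eq (by simp)

theorem primrec_reg_ex_mem {α β : Type*} [Primcodable α] [Primcodable β] {R : β → α → Prop}
    (hR : PrimrecPred fun p : β × α => R p.1 p.2) {f : α → List β} (hf : Primrec f) :
    PrimrecPred fun a => ∃ x ∈ f a, R x a := by
  have h1 : PrimrecRel R := hR
  have h2 := (h1.exists_mem_list).comp hf Primrec.id
  exact h2.of_eq (by simp)

theorem primrec_reg_step {α : Type*} [Primcodable α] {T : α → List (List ℕ)} {j v : α → ℕ}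
    (hT : Primrec T) (hj : Primrec j) (hv : Primrec v) :
    Primrec fun a => step (T a) (j a) (v a) :=
  primrec_step.comp (Primrec.pair hT (Primrec.pair hj hv))

theorem primrec_reg_p2 : PrimrecPred (fun p : (ℕ × List (List ℕ)) × List (List ℕ) =>
    ∀ v < p.1.1, ∀ j < 4, step p.1.2 j v < p.1.1 ∧ step p.1.2 (linv j) (step p.1.2 j v) = v) := by
  refine primrec_reg_all_lt (α := (ℕ × List (List ℕ)) × List (List ℕ))
    (R := fun v p => ∀ j < 4, step p.1.2 j v < p.1.1 ∧
      step p.1.2 (linv j) (step p.1.2 j v) = v) ?_ (Primrec.fst.comp Primrec.fst)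
  refine primrec_reg_all_lt (α := ℕ × ((ℕ × List (List ℕ)) × List (List ℕ)))
    (R := fun j q => step q.2.1.2 j q.1 < q.2.1.1 ∧
      step q.2.1.2 (linv j) (step q.2.1.2 j q.1) = q.1) ?_ (Primrec.const 4)
  have hj : Primrec fun s : ℕ × (ℕ × ((ℕ × List (List ℕ)) × List (List ℕ))) => s.1 := Primrec.fst
  have hv : Primrec fun s : ℕ × (ℕ × ((ℕ × List (List ℕ)) × List (List ℕ))) => s.2.1 :=
    Primrec.fst.comp Primrec.snd
  have hp : Primrec fun s : ℕ × (ℕ × ((ℕ × List (List ℕ)) × List (List ℕ))) => s.2.2 :=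
    Primrec.snd.comp Primrec.snd
  have hN : Primrec fun s : ℕ × (ℕ × ((ℕ × List (List ℕ)) × List (List ℕ))) => s.2.2.1.1 :=
    Primrec.fst.comp (Primrec.fst.comp hp)
  have hT : Primrec fun s : ℕ × (ℕ × ((ℕ × List (List ℕ)) × List (List ℕ))) => s.2.2.1.2 :=
    Primrec.snd.comp (Primrec.fst.comp hp)
  have hs := primrec_reg_step hT hj hv
  exact (Primrec.nat_lt.comp hs hN).and
    (Primrec.eq.comp (primrec_reg_step hT (primrec_linv.comp hj) hs) hv)

theorem primrec_reg_p3 : PrimrecPred (fun p : (ℕ × List (List ℕ)) × List (List ℕ) =>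
    ∀ v < p.1.1, ∃ w ∈ words 4 p.1.1, lw p.1.2 w 0 = v) := by
  refine primrec_reg_all_lt (α := (ℕ × List (List ℕ)) × List (List ℕ))
    (R := fun v p => ∃ w ∈ words 4 p.1.1, lw p.1.2 w 0 = v) ?_ (Primrec.fst.comp Primrec.fst)
  refine primrec_reg_ex_mem (α := ℕ × ((ℕ × List (List ℕ)) × List (List ℕ))) (β := List ℕ)
    (R := fun w q => lw q.2.1.2 w 0 = q.1) ?_
    (primrec_words.comp (Primrec.const 4) (Primrec.fst.comp (Primrec.fst.comp Primrec.snd)))
  have hw : Primrec fun s : List ℕ × (ℕ × ((ℕ × List (List ℕ)) × List (List ℕ))) => s.1 :=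
    Primrec.fst
  have hv : Primrec fun s : List ℕ × (ℕ × ((ℕ × List (List ℕ)) × List (List ℕ))) => s.2.1 :=
    Primrec.fst.comp Primrec.snd
  have hp : Primrec fun s : List ℕ × (ℕ × ((ℕ × List (List ℕ)) × List (List ℕ))) => s.2.2 :=
    Primrec.snd.comp Primrec.snd
  have hT : Primrec fun s : List ℕ × (ℕ × ((ℕ × List (List ℕ)) × List (List ℕ))) => s.2.2.1.2 :=
    Primrec.snd.comp (Primrec.fst.comp hp)
  exact Primrec.eq.comp
    (primrec_lw.comp (Primrec.pair (Primrec.pair hT hw) (Primrec.const 0))) hv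

theorem primrec_reg_p4 : PrimrecPred (fun p : (ℕ × List (List ℕ)) × List (List ℕ) =>
    ∀ v < p.1.1, step p.2 v 0 = v ∧ ∀ u < p.1.1, step p.2 v u < p.1.1 ∧
    ∀ j < 4, step p.2 v (step p.1.2 j u) = step p.1.2 j (step p.2 v u)) := by
  refine primrec_reg_all_lt (α := (ℕ × List (List ℕ)) × List (List ℕ))
    (R := fun v p => step p.2 v 0 = v ∧ ∀ u < p.1.1, step p.2 v u < p.1.1 ∧
    ∀ j < 4, step p.2 v (step p.1.2 j u) = step p.1.2 j (step p.2 v u)) ?_
    (Primrec.fst.comp Primrec.fst)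
  refine PrimrecPred.and ?_ ?_
  · exact Primrec.eq.comp (primrec_reg_step (Primrec.snd.comp Primrec.snd) Primrec.fst
      (Primrec.const 0)) Primrec.fst
  refine primrec_reg_all_lt (α := ℕ × ((ℕ × List (List ℕ)) × List (List ℕ)))
    (R := fun u q => step q.2.2 q.1 u < q.2.1.1 ∧
      ∀ j < 4, step q.2.2 q.1 (step q.2.1.2 j u) = step q.2.1.2 j (step q.2.2 q.1 u)) ?_
    (Primrec.fst.comp (Primrec.fst.comp Primrec.snd))
  refine PrimrecPred.and ?_ ?_
  · have hu : Primrec fun s : ℕ × (ℕ × ((ℕ × List (List ℕ)) × List (List ℕ))) => s.1 :=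
      Primrec.fst
    have hv : Primrec fun s : ℕ × (ℕ × ((ℕ × List (List ℕ)) × List (List ℕ))) => s.2.1 :=
      Primrec.fst.comp Primrec.snd
    have hp : Primrec fun s : ℕ × (ℕ × ((ℕ × List (List ℕ)) × List (List ℕ))) => s.2.2 :=
      Primrec.snd.comp Primrec.snd
    have hN : Primrec fun s : ℕ × (ℕ × ((ℕ × List (List ℕ)) × List (List ℕ))) => s.2.2.1.1 :=
      Primrec.fst.comp (Primrec.fst.comp hp)
    have hR : Primrec fun s : ℕ × (ℕ × ((ℕ × List (List ℕ)) × List (List ℕ))) => s.2.2.2 :=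
      Primrec.snd.comp hp
    exact Primrec.nat_lt.comp (primrec_reg_step hR hv hu) hN
  refine primrec_reg_all_lt (α := ℕ × (ℕ × ((ℕ × List (List ℕ)) × List (List ℕ))))
    (R := fun j s => step s.2.2.2 s.2.1 (step s.2.2.1.2 j s.1) =
      step s.2.2.1.2 j (step s.2.2.2 s.2.1 s.1)) ?_ (Primrec.const 4)
  have hj : Primrec fun r : ℕ × (ℕ × (ℕ × ((ℕ × List (List ℕ)) × List (List ℕ)))) => r.1 :=
    Primrec.fst
  have hu : Primrec fun r : ℕ × (ℕ × (ℕ × ((ℕ × List (List ℕ)) × List (List ℕ)))) => r.2.1 :=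
    Primrec.fst.comp Primrec.snd
  have hv : Primrec fun r : ℕ × (ℕ × (ℕ × ((ℕ × List (List ℕ)) × List (List ℕ)))) => r.2.2.1 :=
    Primrec.fst.comp (Primrec.snd.comp Primrec.snd)
  have hp : Primrec fun r : ℕ × (ℕ × (ℕ × ((ℕ × List (List ℕ)) × List (List ℕ)))) => r.2.2.2 :=
    Primrec.snd.comp (Primrec.snd.comp Primrec.snd)
  have hT : Primrec fun r : ℕ × (ℕ × (ℕ × ((ℕ × List (List ℕ)) × List (List ℕ)))) =>
      r.2.2.2.1.2 := Primrec.snd.comp (Primrec.fst.comp hp)
  have hR : Primrec fun r : ℕ × (ℕ × (ℕ × ((ℕ × List (List ℕ)) × List (List ℕ)))) =>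
      r.2.2.2.2 := Primrec.snd.comp hp
  exact Primrec.eq.comp (primrec_reg_step hR hv (primrec_reg_step hT hj hu))
    (primrec_reg_step hT hj (primrec_reg_step hR hv hu))

/-- Similar proofs for the domino problem are in Pool/Agent/Helper948/Dom/KP1.lean, KP2.lean, KP3.lean, KP4.lean in the team repository (git pull in /workdir/pool/outputs/live); there walk T v w = w.foldl (fun u j => step T j u) v, here lw uses foldr. PrimrecPred p is ∃ decidability instance, Primrec (decide p); useful: PrimrecPred.and, .or, .not, PrimrecPred.forall_mem_list / PrimrecRel.forall_lt, exists_lt, Primrec.list_foldr, Primrec.list_flatMap, listFilter, PrimrecPred.comp. -/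
theorem primrec_reg : PrimrecPred (fun p : (ℕ × List (List ℕ)) × List (List ℕ) =>
    Reg p.1.1 p.1.2 p.2) := by
  unfold Reg
  exact (Primrec.nat_lt.comp (Primrec.const 0) (Primrec.fst.comp Primrec.fst)).and
    (primrec_reg_p2.and (primrec_reg_p3.and primrec_reg_p4))

theorem primrec_emap : PrimrecPred (fun p : ((ℕ × List (List ℕ)) × (ℕ × List (List ℕ))) × List ℕ =>
    Emap p.1.1.1 p.1.1.2 p.1.2.1 p.1.2.2 p.2) := by
  unfold Emap
  refine PrimrecPred.and ?_ ?_
  · exact Primrec.eq.comp ((Primrec.list_getD 0).comp Primrec.snd (Primrec.const 0))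
      (Primrec.const 0)
  refine primrec_reg_all_lt (α := ((ℕ × List (List ℕ)) × (ℕ × List (List ℕ))) × List ℕ)
    (R := fun v p => p.2.getD v 0 < p.1.1.1 ∧ ∀ j < 4, p.2.getD (step p.1.2.2 j v) 0 =
      step p.1.1.2 j (p.2.getD v 0)) ?_
    (Primrec.fst.comp (Primrec.snd.comp Primrec.fst))
  refine PrimrecPred.and ?_ ?_
  · have hv : Primrec fun q : ℕ × (((ℕ × List (List ℕ)) × (ℕ × List (List ℕ))) × List ℕ) =>
        q.1 := Primrec.fst
    have hh : Primrec fun q : ℕ × (((ℕ × List (List ℕ)) × (ℕ × List (List ℕ))) × List ℕ) =>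
        q.2.2 := Primrec.snd.comp Primrec.snd
    have hN : Primrec fun q : ℕ × (((ℕ × List (List ℕ)) × (ℕ × List (List ℕ))) × List ℕ) =>
        q.2.1.1.1 := Primrec.fst.comp (Primrec.fst.comp (Primrec.fst.comp Primrec.snd))
    exact Primrec.nat_lt.comp ((Primrec.list_getD 0).comp hh hv) hN
  refine primrec_reg_all_lt
    (α := ℕ × (((ℕ × List (List ℕ)) × (ℕ × List (List ℕ))) × List ℕ))
    (R := fun j q => q.2.2.getD (step q.2.1.2.2 j q.1) 0 =
      step q.2.1.1.2 j (q.2.2.getD q.1 0)) ?_ (Primrec.const 4)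
  have hj : Primrec fun r : ℕ × (ℕ × (((ℕ × List (List ℕ)) × (ℕ × List (List ℕ))) × List ℕ)) =>
      r.1 := Primrec.fst
  have hv : Primrec fun r : ℕ × (ℕ × (((ℕ × List (List ℕ)) × (ℕ × List (List ℕ))) × List ℕ)) =>
      r.2.1 := Primrec.fst.comp Primrec.snd
  have hp : Primrec fun r : ℕ × (ℕ × (((ℕ × List (List ℕ)) × (ℕ × List (List ℕ))) × List ℕ)) =>
      r.2.2 := Primrec.snd.comp Primrec.snd
  have hh : Primrec fun r : ℕ × (ℕ × (((ℕ × List (List ℕ)) × (ℕ × List (List ℕ))) × List ℕ)) =>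
      r.2.2.2 := Primrec.snd.comp hp
  have hT : Primrec fun r : ℕ × (ℕ × (((ℕ × List (List ℕ)) × (ℕ × List (List ℕ))) × List ℕ)) =>
      r.2.2.1.1.2 := Primrec.snd.comp (Primrec.fst.comp (Primrec.fst.comp hp))
  have hT' : Primrec fun r : ℕ × (ℕ × (((ℕ × List (List ℕ)) × (ℕ × List (List ℕ))) × List ℕ)) =>
      r.2.2.1.2.2 := Primrec.snd.comp (Primrec.snd.comp (Primrec.fst.comp hp))
  exact Primrec.eq.comp ((Primrec.list_getD 0).comp hh (primrec_reg_step hT' hj hv))
    (primrec_reg_step hT hj ((Primrec.list_getD 0).comp hh hv))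

end Pool.Agent.Helper948.Ent.P2
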