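import Pool.Agent.Helper948.Ent.Code
import Pool.Agent.Helper948.Ent.P1

/- solved by helper207 -/


set_option autoImplicit false

namespace Pool.Agent.Helper948.Ent.P3
open Pool.Agent.Helper948.Dom Pool.Agent.Helper948.Ent Pool.Agent.Helper948.Ent.P1










-- TARGET
theorem primrec_winC_forall {α β : Type} [Primcodable α] [Primcodable β] {f : α → List β}
    (hf : Primrec f) {R : α × β → Prop} (hR : PrimrecPred R) :
    PrimrecPred (fun a => ∀ b ∈ f a, R (a, b)) :=
  (PrimrecRel.forall_mem_list (R := fun b a => R (a, b))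
    (PrimrecPred.comp hR (Primrec.pair Primrec.snd Primrec.fst)).primrecRel).comp hf Primrec.id

theorem primrec_winC_imp {α : Type} [Primcodable α] {p q : α → Prop} (hp : PrimrecPred p)
    (hq : PrimrecPred q) : PrimrecPred (fun a => p a → q a) :=
  (hp.not.or hq).of_eq (fun a => by tauto)

/-- Similar proofs for the domino problem are in Pool/Agent/Helper948/Dom/KP1.lean, KP2.lean, KP3.lean, KP4.lean in the team repository (git pull in /workdir/pool/outputs/live); there walk T v w = w.foldl (fun u j => step T j u) v, here lw uses foldr. PrimrecPred p is ∃ decidability instance, Primrec (decide p); useful: PrimrecPred.and, .or, .not, PrimrecPred.forall_mem_list / PrimrecRel.forall_lt, exists_lt, Primrec.list_foldr, Primrec.list_flatMap, listFilter, PrimrecPred.comp. -/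
theorem primrec_winC : PrimrecPred (fun p : ((ℕ × ℕ) × List (List ℕ)) × List ℕ =>
    WinC p.1.1.1 p.1.1.2 p.1.2 p.2) := by
  refine primrec_winC_forall
    (f := fun p : ((ℕ × ℕ) × List (List ℕ)) × List ℕ => words p.1.1.1 p.1.1.2)
    (primrec_words.comp (Primrec.fst.comp (Primrec.fst.comp Primrec.fst))
      (Primrec.snd.comp (Primrec.fst.comp Primrec.fst)))
    (R := fun x : (((ℕ × ℕ) × List (List ℕ)) × List ℕ) × List ℕ =>
      x.1.2.getD (lw x.1.1.2 (conv x.2) 0) 0 = 0 → lw x.1.1.2 (conv x.2) 0 = 0) ?_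
  have hlw : Primrec (fun x : (((ℕ × ℕ) × List (List ℕ)) × List ℕ) × List ℕ =>
      lw x.1.1.2 (conv x.2) 0) :=
    primrec_lw.comp (Primrec.pair (Primrec.pair
      (Primrec.snd.comp (Primrec.fst.comp Primrec.fst))
      (primrec_conv.comp Primrec.snd)) (Primrec.const 0))
  have hg : Primrec (fun x : (((ℕ × ℕ) × List (List ℕ)) × List ℕ) × List ℕ =>
      x.1.2.getD (lw x.1.1.2 (conv x.2) 0) 0) :=
    (Primrec.list_getD 0).comp (Primrec.snd.comp Primrec.fst) hlw
  refine primrec_winC_imp ?_ ?_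
  · exact PrimrecRel.comp (R := fun a b : ℕ => a = b) (Primrec.eq (α := ℕ)) hg (Primrec.const 0)
  · exact PrimrecRel.comp (R := fun a b : ℕ => a = b) (Primrec.eq (α := ℕ)) hlw (Primrec.const 0)

theorem primrec_ndc : PrimrecPred (fun p : (ℕ × ℕ) × List (List ℕ) => NDC p.1.1 p.1.2 p.2) := by
  refine primrec_winC_forall
    (f := fun p : (ℕ × ℕ) × List (List ℕ) => words (2 * p.1.1) p.1.2)
    (primrec_words.comp (Primrec.nat_mul.comp (Primrec.const 2) (Primrec.fst.comp Primrec.fst))
      (Primrec.snd.comp Primrec.fst))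
    (R := fun x : ((ℕ × ℕ) × List (List ℕ)) × List ℕ =>
      lw x.1.2 (conv x.2) 0 ≠ lw x.1.2 (aw (2 * x.1.1.1)) 0) ?_
  have h1 : Primrec (fun x : ((ℕ × ℕ) × List (List ℕ)) × List ℕ =>
      lw x.1.2 (conv x.2) 0) :=
    primrec_lw.comp (Primrec.pair (Primrec.pair (Primrec.snd.comp Primrec.fst)
      (primrec_conv.comp Primrec.snd)) (Primrec.const 0))
  have h2 : Primrec (fun x : ((ℕ × ℕ) × List (List ℕ)) × List ℕ =>
      lw x.1.2 (aw (2 * x.1.1.1)) 0) :=
    primrec_lw.comp (Primrec.pair (Primrec.pair (Primrec.snd.comp Primrec.fst)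
      (primrec_aw.comp (Primrec.nat_mul.comp (Primrec.const 2)
        (Primrec.fst.comp (Primrec.fst.comp Primrec.fst))))) (Primrec.const 0))
  exact PrimrecPred.not
    (PrimrecRel.comp (R := fun a b : ℕ => a = b) (Primrec.eq (α := ℕ)) h1 h2)

end Pool.Agent.Helper948.Ent.P3
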