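import Pool.Agent.Helper948.Ent.Code
import Pool.Agent.Helper948.Ent.P1

/- solved by helper504 -/


set_option autoImplicit false

namespace Pool.Agent.Helper948.Ent.P4
open Pool.Agent.Helper948.Dom Pool.Agent.Helper948.Ent Pool.Agent.Helper948.Ent.P1










-- TARGET
theorem primrec_divC_rel : PrimrecRel (fun (v : ℕ) (p : ((ℕ × ℕ) × List (List ℕ)) × List ℕ) =>
    p.2.getD v 0 < p.1.1.1 ∧ p.2.getD (step p.1.2 0 v) 0 = p.2.getD v 0 ∧
    p.2.getD (step p.1.2 2 v) 0 = (p.2.getD v 0 + 1) % p.1.1.1) := by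
  have hv : Primrec (fun z : ℕ × (((ℕ × ℕ) × List (List ℕ)) × List ℕ) => z.1) := Primrec.fst
  have hp : Primrec (fun z : ℕ × (((ℕ × ℕ) × List (List ℕ)) × List ℕ) => z.2) := Primrec.snd
  have hl : Primrec (fun z : ℕ × (((ℕ × ℕ) × List (List ℕ)) × List ℕ) => z.2.2) :=
    Primrec.snd.comp hp
  have hT : Primrec (fun z : ℕ × (((ℕ × ℕ) × List (List ℕ)) × List ℕ) => z.2.1.2) :=
    Primrec.snd.comp (Primrec.fst.comp hp)
  have hM : Primrec (fun z : ℕ × (((ℕ × ℕ) × List (List ℕ)) × List ℕ) => z.2.1.1.1) :=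
    Primrec.fst.comp (Primrec.fst.comp (Primrec.fst.comp hp))
  have hg : Primrec (fun z : ℕ × (((ℕ × ℕ) × List (List ℕ)) × List ℕ) => z.2.2.getD z.1 0) :=
    (Primrec.list_getD 0).comp hl hv
  have hs0 : Primrec (fun z : ℕ × (((ℕ × ℕ) × List (List ℕ)) × List ℕ) => step z.2.1.2 0 z.1) :=
    primrec_step.comp (hT.pair ((Primrec.const 0).pair hv))
  have hs2 : Primrec (fun z : ℕ × (((ℕ × ℕ) × List (List ℕ)) × List ℕ) => step z.2.1.2 2 z.1) :=
    primrec_step.comp (hT.pair ((Primrec.const 2).pair hv))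
  have hg0 : Primrec (fun z : ℕ × (((ℕ × ℕ) × List (List ℕ)) × List ℕ) =>
      z.2.2.getD (step z.2.1.2 0 z.1) 0) := (Primrec.list_getD 0).comp hl hs0
  have hg2 : Primrec (fun z : ℕ × (((ℕ × ℕ) × List (List ℕ)) × List ℕ) =>
      z.2.2.getD (step z.2.1.2 2 z.1) 0) := (Primrec.list_getD 0).comp hl hs2
  have hm : Primrec (fun z : ℕ × (((ℕ × ℕ) × List (List ℕ)) × List ℕ) =>
      (z.2.2.getD z.1 0 + 1) % z.2.1.1.1) :=
    Primrec.nat_mod.comp (Primrec.nat_add.comp hg (Primrec.const 1)) hM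
  exact (Primrec.nat_lt.comp hg hM).and ((Primrec.eq.comp hg0 hg).and (Primrec.eq.comp hg2 hm))

theorem primrec_parC_rel : PrimrecRel (fun (v : ℕ) (p : (ℕ × List (List ℕ)) × List ℕ) =>
    p.2.getD v 0 < 2 ∧ p.2.getD (step p.1.2 0 v) 0 = (p.2.getD v 0 + 1) % 2 ∧
    p.2.getD (step p.1.2 2 v) 0 = (p.2.getD v 0 + 1) % 2) := by
  have hv : Primrec (fun z : ℕ × ((ℕ × List (List ℕ)) × List ℕ) => z.1) := Primrec.fst
  have hp : Primrec (fun z : ℕ × ((ℕ × List (List ℕ)) × List ℕ) => z.2) := Primrec.snd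
  have hl : Primrec (fun z : ℕ × ((ℕ × List (List ℕ)) × List ℕ) => z.2.2) :=
    Primrec.snd.comp hp
  have hT : Primrec (fun z : ℕ × ((ℕ × List (List ℕ)) × List ℕ) => z.2.1.2) :=
    Primrec.snd.comp (Primrec.fst.comp hp)
  have hg : Primrec (fun z : ℕ × ((ℕ × List (List ℕ)) × List ℕ) => z.2.2.getD z.1 0) :=
    (Primrec.list_getD 0).comp hl hv
  have hs0 : Primrec (fun z : ℕ × ((ℕ × List (List ℕ)) × List ℕ) => step z.2.1.2 0 z.1) :=
    primrec_step.comp (hT.pair ((Primrec.const 0).pair hv))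
  have hs2 : Primrec (fun z : ℕ × ((ℕ × List (List ℕ)) × List ℕ) => step z.2.1.2 2 z.1) :=
    primrec_step.comp (hT.pair ((Primrec.const 2).pair hv))
  have hg0 : Primrec (fun z : ℕ × ((ℕ × List (List ℕ)) × List ℕ) =>
      z.2.2.getD (step z.2.1.2 0 z.1) 0) := (Primrec.list_getD 0).comp hl hs0
  have hg2 : Primrec (fun z : ℕ × ((ℕ × List (List ℕ)) × List ℕ) =>
      z.2.2.getD (step z.2.1.2 2 z.1) 0) := (Primrec.list_getD 0).comp hl hs2
  have hm : Primrec (fun z : ℕ × ((ℕ × List (List ℕ)) × List ℕ) =>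
      (z.2.2.getD z.1 0 + 1) % 2) :=
    Primrec.nat_mod.comp (Primrec.nat_add.comp hg (Primrec.const 1)) (Primrec.const 2)
  exact (Primrec.nat_lt.comp hg (Primrec.const 2)).and
    ((Primrec.eq.comp hg0 hm).and (Primrec.eq.comp hg2 hm))

/-- Similar proofs for the domino problem are in Pool/Agent/Helper948/Dom/KP1.lean, KP2.lean, KP3.lean, KP4.lean in the team repository (git pull in /workdir/pool/outputs/live); there walk T v w = w.foldl (fun u j => step T j u) v, here lw uses foldr. PrimrecPred p is ∃ decidability instance, Primrec (decide p); useful: PrimrecPred.and, .or, .not, PrimrecPred.forall_mem_list / PrimrecRel.forall_lt, exists_lt, Primrec.list_foldr, Primrec.list_flatMap, listFilter, PrimrecPred.comp. -/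
theorem primrec_divC : PrimrecPred (fun p : ((ℕ × ℕ) × List (List ℕ)) × List ℕ =>
    DivC p.1.1.1 p.1.1.2 p.1.2 p.2) := by
  have h0 : PrimrecPred (fun p : ((ℕ × ℕ) × List (List ℕ)) × List ℕ => p.2.getD 0 0 = 0) :=
    Primrec.eq.comp ((Primrec.list_getD 0).comp Primrec.snd (Primrec.const 0)) (Primrec.const 0)
  have h1 := primrec_divC_rel.forall_mem_list
  have hN : Primrec (fun p : ((ℕ × ℕ) × List (List ℕ)) × List ℕ => List.range p.1.1.2) :=
    Primrec.list_range.comp (Primrec.snd.comp (Primrec.fst.comp Primrec.fst))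
  have h2 := h1.comp hN Primrec.id
  refine (h0.and h2).of_eq ?_
  intro p
  unfold DivC
  simp only [List.mem_range, id]

theorem primrec_parC : PrimrecPred (fun p : (ℕ × List (List ℕ)) × List ℕ =>
    ParC p.1.1 p.1.2 p.2) := by
  have h0 : PrimrecPred (fun p : (ℕ × List (List ℕ)) × List ℕ => p.2.getD 0 0 = 0) :=
    Primrec.eq.comp ((Primrec.list_getD 0).comp Primrec.snd (Primrec.const 0)) (Primrec.const 0)
  have h1 := primrec_parC_rel.forall_mem_list
  have hN : Primrec (fun p : (ℕ × List (List ℕ)) × List ℕ => List.range p.1.1) :=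
    Primrec.list_range.comp (Primrec.fst.comp Primrec.fst)
  have h2 := h1.comp hN Primrec.id
  refine (h0.and h2).of_eq ?_
  intro p
  unfold ParC
  simp only [List.mem_range, id]

end Pool.Agent.Helper948.Ent.P4
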