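import Pool.Agent.Helper948.Ent.Code
import Pool.Agent.Helper948.Ent.P1
import Pool.Agent.Helper948.Ent.P2
import Pool.Agent.Helper948.Ent.P3
import Pool.Agent.Helper948.Ent.P4

/- solved by helper781 -/


set_option autoImplicit false

namespace Pool.Agent.Helper948.Ent.P7
open Pool.Agent.Helper948.Dom Pool.Agent.Helper948.Ent Pool.Agent.Helper948.Ent.P1 Pool.Agent.Helper948.Ent.P2 Pool.Agent.Helper948.Ent.P3 Pool.Agent.Helper948.Ent.P4










-- TARGET
/-- Similar proofs for the domino problem are in Pool/Agent/Helper948/Dom/KP1.lean, KP2.lean, KP3.lean, KP4.lean in the team repository (git pull in /workdir/pool/outputs/live); there walk T v w = w.foldl (fun u j => step T j u) v, here lw uses foldr. PrimrecPred p is ∃ decidability instance, Primrec (decide p); useful: PrimrecPred.and, .or, .not, PrimrecPred.forall_mem_list / PrimrecRel.forall_lt, exists_lt, Primrec.list_foldr, Primrec.list_flatMap, listFilter, PrimrecPred.comp. -/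
theorem primrec_okG : PrimrecPred (fun p : Code × Code => OkG p.1 p.2) := by
  have c1 : Primrec (fun p : Code × Code => p.1.1.1) :=
    Primrec.fst.comp (Primrec.fst.comp Primrec.fst)
  have cN : Primrec (fun p : Code × Code => p.1.1.2.1) :=
    Primrec.fst.comp (Primrec.snd.comp (Primrec.fst.comp Primrec.fst))
  have cT : Primrec (fun p : Code × Code => p.1.1.2.2) :=
    Primrec.snd.comp (Primrec.snd.comp (Primrec.fst.comp Primrec.fst))
  have d1 : Primrec (fun p : Code × Code => p.2.1.1) :=
    Primrec.fst.comp (Primrec.fst.comp Primrec.snd)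
  have dN : Primrec (fun p : Code × Code => p.2.1.2.1) :=
    Primrec.fst.comp (Primrec.snd.comp (Primrec.fst.comp Primrec.snd))
  have dT : Primrec (fun p : Code × Code => p.2.1.2.2) :=
    Primrec.snd.comp (Primrec.snd.comp (Primrec.fst.comp Primrec.snd))
  have dR : Primrec (fun p : Code × Code => p.2.2.1) :=
    Primrec.fst.comp (Primrec.snd.comp Primrec.snd)
  have dl : ∀ i : ℕ, Primrec (fun p : Code × Code => lst p.2 i) := fun i =>
    primrec_lst.comp Primrec.snd (Primrec.const i)
  have e1 : PrimrecPred (fun p : Code × Code => p.1.1.1 < p.2.1.1) := Primrec.nat_lt.comp c1 d1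
  have e2 : PrimrecPred (fun p : Code × Code => Reg p.2.1.2.1 p.2.1.2.2 p.2.2.1) :=
    primrec_reg.comp ((dN.pair dT).pair dR)
  have e3 : PrimrecPred (fun p : Code × Code =>
      Emap p.1.1.2.1 p.1.1.2.2 p.2.1.2.1 p.2.1.2.2 (lst p.2 1)) :=
    primrec_emap.comp (((cN.pair cT).pair (dN.pair dT)).pair (dl 1))
  have m1 : Primrec (fun p : Code × Code => 2 * (p.1.1.1 + 1)) :=
    Primrec.nat_mul.comp (Primrec.const 2) (Primrec.succ.comp c1)
  have e4 : PrimrecPred (fun p : Code × Code =>
      WinC (2 * (p.1.1.1 + 1)) p.2.1.2.1 p.2.1.2.2 (lst p.2 1)) :=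
    primrec_winC.comp (((m1.pair dN).pair dT).pair (dl 1))
  have e5 : PrimrecPred (fun p : Code × Code => NDC p.2.1.1 p.2.1.2.1 p.2.1.2.2) :=
    primrec_ndc.comp ((d1.pair dN).pair dT)
  have m2 : Primrec (fun p : Code × Code => (p.2.1.1 + 1).factorial) :=
    primrec_fact.comp (Primrec.succ.comp d1)
  have e6 : PrimrecPred (fun p : Code × Code =>
      DivC (p.2.1.1 + 1).factorial p.2.1.2.1 p.2.1.2.2 (lst p.2 2)) :=
    primrec_divC.comp (((m2.pair dN).pair dT).pair (dl 2))
  have e7 : PrimrecPred (fun p : Code × Code => ParC p.2.1.2.1 p.2.1.2.2 (lst p.2 3)) :=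
    primrec_parC.comp ((dN.pair dT).pair (dl 3))
  exact e1.and (e2.and (e3.and (e4.and (e5.and (e6.and e7)))))

theorem primrec_okX_aux : PrimrecRel (fun (e : ℕ) (p : Code × Code) => num p.2 1 = num p.1 1 * e ∧
      num p.1 0 * e ≤ num p.2 0 ∧ num p.2 0 + 1 ≤ (num p.1 0 + 1) * e) := by
  have dn2 : ∀ i : ℕ, Primrec (fun p : ℕ × (Code × Code) => num p.2.2 i) := fun i =>
    primrec_num.comp (Primrec.snd.comp Primrec.snd) (Primrec.const i)
  have cn2 : ∀ i : ℕ, Primrec (fun p : ℕ × (Code × Code) => num p.2.1 i) := fun i =>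
    primrec_num.comp (Primrec.fst.comp Primrec.snd) (Primrec.const i)
  have f1 : PrimrecPred (fun p : ℕ × (Code × Code) => num p.2.2 1 = num p.2.1 1 * p.1) :=
    Primrec.eq.comp (dn2 1) (Primrec.nat_mul.comp (cn2 1) Primrec.fst)
  have f2 : PrimrecPred (fun p : ℕ × (Code × Code) => num p.2.1 0 * p.1 ≤ num p.2.2 0) :=
    Primrec.nat_le.comp (Primrec.nat_mul.comp (cn2 0) Primrec.fst) (dn2 0)
  have f3 : PrimrecPred (fun p : ℕ × (Code × Code) =>
      num p.2.2 0 + 1 ≤ (num p.2.1 0 + 1) * p.1) :=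
    Primrec.nat_le.comp (Primrec.succ.comp (dn2 0))
      (Primrec.nat_mul.comp (Primrec.succ.comp (cn2 0)) Primrec.fst)
  exact f1.and (f2.and f3)

theorem primrec_okX_aux2 {R : ℕ → Code × Code → Prop} (hR : PrimrecRel R)
    {f : Code × Code → ℕ} (hf : Primrec f) :
    PrimrecPred (fun p : Code × Code => ∃ x < f p, R x p) := by
  have h : PrimrecRel (fun (L : List ℕ) (b : Code × Code) => ∃ a ∈ L, R a b) := hR.exists_mem_list
  have h2 : PrimrecPred (fun p : Code × Code => ∃ a ∈ List.range (f p), R a p) :=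
    PrimrecRel.comp (R := fun (L : List ℕ) (b : Code × Code) => ∃ a ∈ L, R a b) h
      (Primrec.list_range.comp hf) Primrec.id
  exact h2.of_eq (fun p => by simp only [List.mem_range])

theorem primrec_okX : PrimrecPred (fun p : Code × Code => OkX p.1 p.2) := by
  have dn : ∀ i : ℕ, Primrec (fun p : Code × Code => num p.2 i) := fun i =>
    primrec_num.comp Primrec.snd (Primrec.const i)
  have g1 : PrimrecPred (fun p : Code × Code => 0 < num p.2 1) :=
    Primrec.nat_lt.comp (Primrec.const 0) (dn 1)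
  have g2 := primrec_okX_aux2 primrec_okX_aux (f := fun p : Code × Code => num p.2 1 + 1)
    (Primrec.succ.comp (dn 1))
  exact g1.and g2

end Pool.Agent.Helper948.Ent.P7
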