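import Pool.Agent.Helper948.Ent.Code
import Pool.Agent.Helper948.Ent.P1

/- solved by helper833 -/


set_option autoImplicit false

namespace Pool.Agent.Helper948.Ent.P5
open Pool.Agent.Helper948.Dom Pool.Agent.Helper948.Ent Pool.Agent.Helper948.Ent.P1










-- TARGET
/-- Similar proofs for the domino problem are in Pool/Agent/Helper948/Dom/KP1.lean, KP2.lean, KP3.lean, KP4.lean in the team repository (git pull in /workdir/pool/outputs/live); there walk T v w = w.foldl (fun u j => step T j u) v, here lw uses foldr. PrimrecPred p is ∃ decidability instance, Primrec (decide p); useful: PrimrecPred.and, .or, .not, PrimrecPred.forall_mem_list / PrimrecRel.forall_lt, exists_lt, Primrec.list_foldr, Primrec.list_flatMap, listFilter, PrimrecPred.comp. -/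
theorem primrec_avC : PrimrecPred (fun p : ((Inp × List (List ℕ)) × List ℕ) × ℕ =>
    AvC p.1.1.1 p.1.1.2 p.1.2 p.2) := by
  have h1 : PrimrecRel (fun (q : List (Fin 2 × Bool) × ℕ)
      (p : ((Inp × List (List ℕ)) × List ℕ) × ℕ) =>
      p.1.2.getD (lw p.1.1.2 (enc q.1) p.2) 0 = q.2) := by
    have ha : Primrec (fun a : (List (Fin 2 × Bool) × ℕ) × (((Inp × List (List ℕ)) × List ℕ) × ℕ) =>
        a.2.1.2.getD (lw a.2.1.1.2 (enc a.1.1) a.2.2) 0) := by
      have hT : Primrec (fun a : (List (Fin 2 × Bool) × ℕ) ×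
          (((Inp × List (List ℕ)) × List ℕ) × ℕ) => a.2.1.1.2) :=
        Primrec.snd.comp (Primrec.fst.comp (Primrec.fst.comp Primrec.snd))
      have hw : Primrec (fun a : (List (Fin 2 × Bool) × ℕ) ×
          (((Inp × List (List ℕ)) × List ℕ) × ℕ) => enc a.1.1) :=
        primrec_enc.comp (Primrec.fst.comp Primrec.fst)
      have hv : Primrec (fun a : (List (Fin 2 × Bool) × ℕ) ×
          (((Inp × List (List ℕ)) × List ℕ) × ℕ) => a.2.2) :=
        Primrec.snd.comp Primrec.snd
      have hl : Primrec (fun a : (List (Fin 2 × Bool) × ℕ) ×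
          (((Inp × List (List ℕ)) × List ℕ) × ℕ) => a.2.1.2) :=
        Primrec.snd.comp (Primrec.fst.comp Primrec.snd)
      exact (Primrec.list_getD 0).comp hl (primrec_lw.comp ((hT.pair hw).pair hv))
    have hb : Primrec (fun a : (List (Fin 2 × Bool) × ℕ) × (((Inp × List (List ℕ)) × List ℕ) × ℕ) =>
        a.1.2) := Primrec.snd.comp Primrec.fst
    exact Primrec.eq.comp ha hb
  have h2 : PrimrecRel (fun (P : List (List (Fin 2 × Bool) × ℕ))
      (p : ((Inp × List (List ℕ)) × List ℕ) × ℕ) =>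
      ¬ ∀ q ∈ P, p.1.2.getD (lw p.1.1.2 (enc q.1) p.2) 0 = q.2) :=
    PrimrecPred.not h1.forall_mem_list
  have h3 := h2.forall_mem_list
  have h4 : Primrec (fun p : ((Inp × List (List ℕ)) × List ℕ) × ℕ => p.1.1.1.2) :=
    Primrec.snd.comp (Primrec.fst.comp (Primrec.fst.comp Primrec.fst))
  exact h3.comp h4 Primrec.id

theorem primrec_xc : PrimrecPred (fun p : ((Inp × ℕ) × List (List ℕ)) × List ℕ =>
    XC p.1.1.1 p.1.1.2 p.1.2 p.2) := by
  have hI : Primrec (fun p : ((Inp × ℕ) × List (List ℕ)) × List ℕ => p.1.1.1) :=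
    Primrec.fst.comp (Primrec.fst.comp Primrec.fst)
  have hN : Primrec (fun p : ((Inp × ℕ) × List (List ℕ)) × List ℕ => p.1.1.2) :=
    Primrec.snd.comp (Primrec.fst.comp Primrec.fst)
  have hT : Primrec (fun p : ((Inp × ℕ) × List (List ℕ)) × List ℕ => p.1.2) :=
    Primrec.snd.comp Primrec.fst
  have hy : Primrec (fun p : ((Inp × ℕ) × List (List ℕ)) × List ℕ => p.2) := Primrec.snd
  have h1 : PrimrecPred (fun p : ((Inp × ℕ) × List (List ℕ)) × List ℕ =>
      p.2 ∈ wordsEq p.1.1.1.1 p.1.1.2) := by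
    have h2 : PrimrecRel (fun (L : List (List ℕ)) (b : List ℕ) => ∃ a ∈ L, a = b) :=
      PrimrecRel.exists_mem_list (R := fun a b : List ℕ => a = b) Primrec.eq
    exact (h2.comp (primrec_wordsEq.comp (Primrec.fst.comp hI) hN) hy).of_eq (by simp)
  have h2 : PrimrecPred (fun p : ((Inp × ℕ) × List (List ℕ)) × List ℕ =>
      ∀ v < p.1.1.2, AvC p.1.1.1 p.1.2 p.2 v) := by
    have h3 : PrimrecRel (fun (v : ℕ) (p : ((Inp × ℕ) × List (List ℕ)) × List ℕ) =>
        AvC p.1.1.1 p.1.2 p.2 v) :=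
      primrec_avC.comp ((((hI.comp Primrec.snd).pair (hT.comp Primrec.snd)).pair
        (hy.comp Primrec.snd)).pair Primrec.fst)
    exact (h3.forall_mem_list.comp (Primrec.list_range.comp hN) Primrec.id).of_eq (by simp)
  exact h1.and h2

end Pool.Agent.Helper948.Ent.P5
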