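import Pool.Agent.Helper948.Ent.Code
import Pool.Agent.Helper948.Ent.P1
import Pool.Agent.Helper948.Ent.P5

/- solved by helper122 -/


set_option autoImplicit false

namespace Pool.Agent.Helper948.Ent.P6
open Pool.Agent.Helper948.Dom Pool.Agent.Helper948.Ent Pool.Agent.Helper948.Ent.P1 Pool.Agent.Helper948.Ent.P5










-- TARGET
theorem primrec_uc_imp {α : Type} [Primcodable α] {p q : α → Prop} (hp : PrimrecPred p)
    (hq : PrimrecPred q) : PrimrecPred (fun a => p a → q a) := by
  refine PrimrecPred.of_eq (hp.not.or hq) (fun a => ?_)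
  exact imp_iff_not_or.symm

theorem primrec_uc_ph {γ : Type} [Primcodable γ] {p : γ → List ℕ} {v n : γ → ℕ}
    (hp : Primrec p) (hv : Primrec v) (hn : Primrec n) :
    Primrec (fun g => (p g).getD (v g) 0 % n g) :=
  Primrec.nat_mod.comp ((Primrec.list_getD 0).comp hp hv) hn

theorem primrec_uc_av {γ : Type} [Primcodable γ] {I : γ → Inp} {T : γ → List (List ℕ)}
    {l : γ → List ℕ} {v : γ → ℕ} (hI : Primrec I) (hT : Primrec T) (hl : Primrec l)
    (hv : Primrec v) : PrimrecPred (fun g => AvC (I g) (T g) (l g) (v g)) :=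
  primrec_avC.comp (((hI.pair hT).pair hl).pair hv)

theorem primrec_uc_body {γ : Type} [Primcodable γ] {I : γ → Inp} {T : γ → List (List ℕ)}
    {p l : γ → List ℕ} {v n r : γ → ℕ} (hI : Primrec I) (hT : Primrec T) (hp : Primrec p)
    (hl : Primrec l) (hv : Primrec v) (hn : Primrec n) (hr : Primrec r) :
    PrimrecPred (fun g => r g ≤ (p g).getD (v g) 0 % n g →
      (p g).getD (v g) 0 % n g + r g < n g → AvC (I g) (T g) (l g) (v g)) :=
  primrec_uc_imp (Primrec.nat_le.comp hr (primrec_uc_ph hp hv hn))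
    (primrec_uc_imp (Primrec.nat_lt.comp (Primrec.nat_add.comp (primrec_uc_ph hp hv hn) hr) hn)
      (primrec_uc_av hI hT hl hv))

theorem primrec_uc_ul {γ : Type} [Primcodable γ] {I : γ → Inp} {T : γ → List (List ℕ)}
    {p l : γ → List ℕ} {N n r : γ → ℕ} (hI : Primrec I) (hT : Primrec T) (hp : Primrec p)
    (hl : Primrec l) (hN : Primrec N) (hn : Primrec n) (hr : Primrec r) :
    PrimrecPred (fun g => UL (I g) (r g) (n g) (N g) (T g) (p g) (l g)) := by
  have hs : Primrec (fun q : ℕ × γ => q.2) := Primrec.snd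
  have hR : PrimrecRel (fun (v : ℕ) (g : γ) => r g ≤ (p g).getD v 0 % n g →
      (p g).getD v 0 % n g + r g < n g → AvC (I g) (T g) (l g) v) :=
    primrec_uc_body (γ := ℕ × γ) (hI.comp hs) (hT.comp hs) (hp.comp hs) (hl.comp hs)
      Primrec.fst (hn.comp hs) (hr.comp hs)
  have h := hR.forall_mem_list.comp (Primrec.list_range.comp hN) Primrec.id
  refine PrimrecPred.of_eq h (fun b => ?_)
  unfold UL
  constructor
  · intro h v hv
    exact h v (List.mem_range.mpr hv)
  · intro h v hv
    exact h v (List.mem_range.mp hv)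

theorem primrec_fc_body {γ : Type} [Primcodable γ] {p l y : γ → List ℕ} {v n r : γ → ℕ}
    (hp : Primrec p) (hl : Primrec l) (hy : Primrec y) (hv : Primrec v) (hn : Primrec n)
    (hr : Primrec r) :
    PrimrecPred (fun g => ((p g).getD (v g) 0 % n g < 2 * r g ∨
      n g ≤ (p g).getD (v g) 0 % n g + 2 * r g) → (l g).getD (v g) 0 = (y g).getD (v g) 0) := by
  have h2r : Primrec (fun g => 2 * r g) := Primrec.nat_mul.comp (Primrec.const 2) hr
  have hph := primrec_uc_ph hp hv hn
  exact primrec_uc_imp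
    ((Primrec.nat_lt.comp hph h2r).or (Primrec.nat_le.comp hn (Primrec.nat_add.comp hph h2r)))
    (Primrec.eq.comp ((Primrec.list_getD 0).comp hl hv) ((Primrec.list_getD 0).comp hy hv))

theorem primrec_fc_fl {γ : Type} [Primcodable γ] {I : γ → Inp} {T : γ → List (List ℕ)}
    {p y l : γ → List ℕ} {N n r : γ → ℕ} (hI : Primrec I) (hT : Primrec T) (hp : Primrec p)
    (hy : Primrec y) (hl : Primrec l) (hN : Primrec N) (hn : Primrec n) (hr : Primrec r) :
    PrimrecPred (fun g => FLl (I g) (r g) (n g) (N g) (T g) (p g) (y g) (l g)) := by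
  have hs : Primrec (fun q : ℕ × γ => q.2) := Primrec.snd
  have hR : PrimrecRel (fun (v : ℕ) (g : γ) => ((p g).getD v 0 % n g < 2 * r g ∨
      n g ≤ (p g).getD v 0 % n g + 2 * r g) → (l g).getD v 0 = (y g).getD v 0) :=
    primrec_fc_body (γ := ℕ × γ) (hp.comp hs) (hl.comp hs) (hy.comp hs)
      Primrec.fst (hn.comp hs) (hr.comp hs)
  have h := hR.forall_mem_list.comp (Primrec.list_range.comp hN) Primrec.id
  refine PrimrecPred.of_eq ((primrec_uc_ul hI hT hp hl hN hn hr).and h) (fun b => ?_)
  unfold FLl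
  refine and_congr Iff.rfl ?_
  constructor
  · intro h v hv
    exact h v (List.mem_range.mpr hv)
  · intro h v hv
    exact h v (List.mem_range.mp hv)

theorem primrec_uc_gen {γ : Type} [Primcodable γ] {I : γ → Inp} {T : γ → List (List ℕ)}
    {p : γ → List ℕ} {N n r : γ → ℕ} (hI : Primrec I) (hT : Primrec T) (hp : Primrec p)
    (hN : Primrec N) (hn : Primrec n) (hr : Primrec r) :
    Primrec (fun g => UC (I g) (r g) (n g) (N g) (T g) (p g)) := by
  classical
  have hs : Primrec (fun q : List ℕ × γ => q.2) := Primrec.snd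
  have hR : PrimrecRel (fun (l : List ℕ) (g : γ) => UL (I g) (r g) (n g) (N g) (T g) (p g) l) :=
    primrec_uc_ul (γ := List ℕ × γ) (hI.comp hs) (hT.comp hs) (hp.comp hs)
      Primrec.fst (hN.comp hs) (hn.comp hs) (hr.comp hs)
  have h := Primrec.list_length.comp
    (hR.listFilter.comp (primrec_wordsEq.comp (Primrec.fst.comp hI) hN) Primrec.id)
  refine h.of_eq (fun b => ?_)
  unfold UC
  rfl

theorem primrec_fc_gen {γ : Type} [Primcodable γ] {I : γ → Inp} {T : γ → List (List ℕ)}
    {p y : γ → List ℕ} {N n r : γ → ℕ} (hI : Primrec I) (hT : Primrec T) (hp : Primrec p)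
    (hy : Primrec y) (hN : Primrec N) (hn : Primrec n) (hr : Primrec r) :
    Primrec (fun g => FC (I g) (r g) (n g) (N g) (T g) (p g) (y g)) := by
  classical
  have hs : Primrec (fun q : List ℕ × γ => q.2) := Primrec.snd
  have hR : PrimrecRel (fun (l : List ℕ) (g : γ) =>
      FLl (I g) (r g) (n g) (N g) (T g) (p g) (y g) l) :=
    primrec_fc_fl (γ := List ℕ × γ) (hI.comp hs) (hT.comp hs) (hp.comp hs) (hy.comp hs)
      Primrec.fst (hN.comp hs) (hn.comp hs) (hr.comp hs)
  have h := Primrec.list_length.comp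
    (hR.listFilter.comp (primrec_wordsEq.comp (Primrec.fst.comp hI) hN) Primrec.id)
  refine h.of_eq (fun b => ?_)
  unfold FC
  rfl

/-- Similar proofs for the domino problem are in Pool/Agent/Helper948/Dom/KP1.lean, KP2.lean, KP3.lean, KP4.lean in the team repository (git pull in /workdir/pool/outputs/live); there walk T v w = w.foldl (fun u j => step T j u) v, here lw uses foldr. PrimrecPred p is ∃ decidability instance, Primrec (decide p); useful: PrimrecPred.and, .or, .not, PrimrecPred.forall_mem_list / PrimrecRel.forall_lt, exists_lt, Primrec.list_foldr, Primrec.list_flatMap, listFilter, PrimrecPred.comp. Note that UC and FC are defined with classical decidability; rewrite the filter with the decidability instance coming from the PrimrecPred (List.filter_congr / Subsingleton). -/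
theorem primrec_uc : Primrec (fun p : ((Inp × ℕ × ℕ) × ℕ × List (List ℕ)) × List ℕ =>
    UC p.1.1.1 p.1.1.2.1 p.1.1.2.2 p.1.2.1 p.1.2.2 p.2) := primrec_uc_gen
    (Primrec.fst.comp (Primrec.fst.comp Primrec.fst))
    (Primrec.snd.comp (Primrec.snd.comp Primrec.fst))
    Primrec.snd
    (Primrec.fst.comp (Primrec.snd.comp Primrec.fst))
    (Primrec.snd.comp (Primrec.snd.comp (Primrec.fst.comp Primrec.fst)))
    (Primrec.fst.comp (Primrec.snd.comp (Primrec.fst.comp Primrec.fst)))

theorem primrec_fc : Primrec (fun p : (((Inp × ℕ × ℕ) × ℕ × List (List ℕ)) × List ℕ) × List ℕ =>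
    FC p.1.1.1.1 p.1.1.1.2.1 p.1.1.1.2.2 p.1.1.2.1 p.1.1.2.2 p.1.2 p.2) := primrec_fc_gen
    (Primrec.fst.comp (Primrec.fst.comp (Primrec.fst.comp Primrec.fst)))
    (Primrec.snd.comp (Primrec.snd.comp (Primrec.fst.comp Primrec.fst)))
    (Primrec.snd.comp Primrec.fst)
    Primrec.snd
    (Primrec.fst.comp (Primrec.snd.comp (Primrec.fst.comp Primrec.fst)))
    (Primrec.snd.comp (Primrec.snd.comp (Primrec.fst.comp (Primrec.fst.comp Primrec.fst))))
    (Primrec.fst.comp (Primrec.snd.comp (Primrec.fst.comp (Primrec.fst.comp Primrec.fst))))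

end Pool.Agent.Helper948.Ent.P6
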