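import Pool.Agent.Helper948.Ent.Code
import Pool.Agent.Helper948.Ent.P1
import Pool.Agent.Helper948.Ent.P5
import Pool.Agent.Helper948.Ent.P6

/- solved by helper546 -/


set_option autoImplicit false

namespace Pool.Agent.Helper948.Ent.P8
open Pool.Agent.Helper948.Dom Pool.Agent.Helper948.Ent Pool.Agent.Helper948.Ent.P1 Pool.Agent.Helper948.Ent.P5 Pool.Agent.Helper948.Ent.P6










-- TARGET
/-- Similar proofs for the domino problem are in Pool/Agent/Helper948/Dom/KP1.lean, KP2.lean, KP3.lean, KP4.lean in the team repository (git pull in /workdir/pool/outputs/live); there walk T v w = w.foldl (fun u j => step T j u) v, here lw uses foldr. PrimrecPred p is ∃ decidability instance, Primrec (decide p); useful: PrimrecPred.and, .or, .not, PrimrecPred.forall_mem_list / PrimrecRel.forall_lt, exists_lt, Primrec.list_foldr, Primrec.list_flatMap, listFilter, PrimrecPred.comp. -/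
theorem primrec_okI : PrimrecPred (fun p : (Inp × ℕ) × Code => OkI p.1.1 p.1.2 p.2) := by
  have hn : ∀ i, Primrec (fun p : (Inp × ℕ) × Code => num p.2 i) := fun i =>
    primrec_num.comp Primrec.snd (Primrec.const i)
  have hl : ∀ i, Primrec (fun p : (Inp × ℕ) × Code => lst p.2 i) := fun i =>
    primrec_lst.comp Primrec.snd (Primrec.const i)
  have hI : Primrec (fun p : (Inp × ℕ) × Code => p.1.1) := Primrec.fst.comp Primrec.fst
  have hj : Primrec (fun p : (Inp × ℕ) × Code => p.1.2) := Primrec.snd.comp Primrec.fst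
  have hm : Primrec (fun p : (Inp × ℕ) × Code => p.2.1.1) :=
    Primrec.fst.comp (Primrec.fst.comp Primrec.snd)
  have hm1 : Primrec (fun p : (Inp × ℕ) × Code => p.2.1.1 + 1) := Primrec.succ.comp hm
  have hNT : Primrec (fun p : (Inp × ℕ) × Code => p.2.1.2) :=
    Primrec.snd.comp (Primrec.fst.comp Primrec.snd)
  have hN : Primrec (fun p : (Inp × ℕ) × Code => p.2.1.2.1) := Primrec.fst.comp hNT
  have hT : Primrec (fun p : (Inp × ℕ) × Code => p.2.1.2.2) := Primrec.snd.comp hNT
  have hrad : Primrec (fun p : (Inp × ℕ) × Code => rad p.1.1) := primrec_rad.comp hI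
  have hpow : ∀ {f g : (Inp × ℕ) × Code → ℕ}, Primrec f → Primrec g →
      Primrec (fun p => f p ^ g p) := fun hf hg => primrec_pow.comp (hf.pair hg)
  have hmul : ∀ {f g : (Inp × ℕ) × Code → ℕ}, Primrec f → Primrec g →
      Primrec (fun p => f p * g p) := fun hf hg => Primrec.nat_mul.comp hf hg
  have hadd : ∀ {f g : (Inp × ℕ) × Code → ℕ}, Primrec f → Primrec g →
      Primrec (fun p => f p + g p) := fun hf hg => Primrec.nat_add.comp hf hg
  have hsub : ∀ {f g : (Inp × ℕ) × Code → ℕ}, Primrec f → Primrec g →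
      Primrec (fun p => f p - g p) := fun hf hg => Primrec.nat_sub.comp hf hg
  have hlt : ∀ {f g : (Inp × ℕ) × Code → ℕ}, Primrec f → Primrec g →
      PrimrecPred (fun p => f p < g p) := fun hf hg => Primrec.nat_lt.comp hf hg
  have hle : ∀ {f g : (Inp × ℕ) × Code → ℕ}, Primrec f → Primrec g →
      PrimrecPred (fun p => f p ≤ g p) := fun hf hg => Primrec.nat_le.comp hf hg
  have heq : ∀ {f g : (Inp × ℕ) × Code → ℕ}, Primrec f → Primrec g →
      PrimrecPred (fun p => f p = g p) := fun hf hg => Primrec.eq.comp hf hg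
  have h0 : Primrec (fun _ : (Inp × ℕ) × Code => 0) := Primrec.const 0
  have h1 : Primrec (fun _ : (Inp × ℕ) × Code => 1) := Primrec.const 1
  have huc : Primrec (fun p : (Inp × ℕ) × Code =>
      UC p.1.1 (rad p.1.1) (num p.2 3) p.2.1.2.1 p.2.1.2.2 (lst p.2 2)) :=
    primrec_uc.comp (((hI.pair (hrad.pair (hn 3))).pair (hN.pair hT)).pair (hl 2))
  have hfc : Primrec (fun p : (Inp × ℕ) × Code =>
      FC p.1.1 (rad p.1.1) (num p.2 4) p.2.1.2.1 p.2.1.2.2 (lst p.2 2) (lst p.2 4)) :=
    primrec_fc.comp ((((hI.pair (hrad.pair (hn 4))).pair (hN.pair hT)).pair (hl 2)).pair (hl 4))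
  have hxc : PrimrecPred (fun p : (Inp × ℕ) × Code => XC p.1.1 p.2.1.2.1 p.2.1.2.2 (lst p.2 4)) :=
    primrec_xc.comp (((hI.pair hN).pair hT).pair (hl 4))
  have hexp : Primrec (fun p : (Inp × ℕ) × Code => num p.2 7 * p.2.1.2.1) := hmul (hn 7) hN
  have hDs : Primrec (fun p : (Inp × ℕ) × Code => num p.2 1 * num p.2 7) := hmul (hn 1) (hn 7)
  unfold OkI
  refine (hlt h0 (hn 3)).and ((hle (hn 3) hm1).and (PrimrecPred.or ?_ ?_))
  · exact (heq (hn 2) h1).and (heq huc h0)
  · refine (heq (hn 2) h0).and ((hlt h0 (hn 4)).and ((hle (hn 4) hm1).and (hxc.and ?_)))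
    refine (hle (hmul huc (hpow hDs hexp)) (hpow (hadd hDs (hn 5)) hexp)).and ?_
    refine (hle (hpow hDs hexp) (hmul hfc (hpow (hsub hDs (hn 6)) hexp))).and ?_
    refine (hlt h0 (hn 7)).and ((hlt (hn 6) hDs).and ?_)
    refine (hle (hmul (hsub (hn 5) (hn 6)) (Primrec.succ.comp hj)) (hn 1)).and ?_
    exact (hlt (hn 5) (hn 0)).or (hlt (Primrec.succ.comp (hn 0)) (hn 6))

end Pool.Agent.Helper948.Ent.P8
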