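import Pool.Agent.Helper948.Ent.Code
import Pool.Agent.Helper948.Ent.P1
import Pool.Agent.Helper948.Ent.P5
import Pool.Agent.Helper948.Ent.P6

/- solved by helper422 -/


set_option autoImplicit false

namespace Pool.Agent.Helper948.Ent.P9
open Pool.Agent.Helper948.Dom Pool.Agent.Helper948.Ent Pool.Agent.Helper948.Ent.P1 Pool.Agent.Helper948.Ent.P5 Pool.Agent.Helper948.Ent.P6










-- TARGET
theorem primrec_okH_forall {β : Type} [Primcodable β] {f : β → List (ℕ × ℕ)} (hf : Primrec f) :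
    PrimrecPred (fun b => ∀ e ∈ f b, e.1 = e.2) := by
  have hR : PrimrecRel (fun (e : ℕ × ℕ) (_ : β) => e.1 = e.2) :=
    Primrec.eq.comp (Primrec.fst.comp Primrec.fst) (Primrec.snd.comp Primrec.fst)
  exact hR.forall_mem_list.comp hf Primrec.id

/-- Similar proofs for the domino problem are in Pool/Agent/Helper948/Dom/KP1.lean, KP2.lean, KP3.lean, KP4.lean in the team repository (git pull in /workdir/pool/outputs/live); there walk T v w = w.foldl (fun u j => step T j u) v, here lw uses foldr. PrimrecPred p is ∃ decidability instance, Primrec (decide p); useful: PrimrecPred.and, .or, .not, PrimrecPred.forall_mem_list / PrimrecRel.forall_lt, exists_lt, Primrec.list_foldr, Primrec.list_flatMap, listFilter, PrimrecPred.comp. -/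
theorem primrec_okH : PrimrecPred (fun p : List (ℕ × ℕ) × Code => OkH p.1 p.2) := by
  have hL : Primrec (fun p : List (ℕ × ℕ) × Code => p.1) := Primrec.fst
  have hc : Primrec (fun p : List (ℕ × ℕ) × Code => p.2) := Primrec.snd
  have hn : ∀ i : ℕ, Primrec (fun p : List (ℕ × ℕ) × Code => num p.2 i) := fun i =>
    primrec_num.comp hc (Primrec.const i)
  have hl : ∀ i : ℕ, Primrec (fun p : List (ℕ × ℕ) × Code => lst p.2 i) := fun i =>
    primrec_lst.comp hc (Primrec.const i)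
  have hm : Primrec (fun p : List (ℕ × ℕ) × Code => p.2.1.1) :=
    Primrec.fst.comp (Primrec.fst.comp hc)
  have hN : Primrec (fun p : List (ℕ × ℕ) × Code => p.2.1.2.1) :=
    Primrec.fst.comp (Primrec.snd.comp (Primrec.fst.comp hc))
  have hT : Primrec (fun p : List (ℕ × ℕ) × Code => p.2.1.2.2) :=
    Primrec.snd.comp (Primrec.snd.comp (Primrec.fst.comp hc))
  have a1 : PrimrecPred (fun p : List (ℕ × ℕ) × Code => 0 < num p.2 11) :=
    Primrec.nat_lt.comp (Primrec.const 0) (hn 11)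
  have a2 : PrimrecPred (fun p : List (ℕ × ℕ) × Code => num p.2 11 ≤ p.2.1.1 + 1) :=
    Primrec.nat_le.comp (hn 11) (Primrec.succ.comp hm)
  have a3 : PrimrecPred (fun p : List (ℕ × ℕ) × Code => 0 < num p.2 12) :=
    Primrec.nat_lt.comp (Primrec.const 0) (hn 12)
  have a4 : PrimrecPred (fun p : List (ℕ × ℕ) × Code => num p.2 12 ≤ p.2.1.1 + 1) :=
    Primrec.nat_le.comp (hn 12) (Primrec.succ.comp hm)
  have a5 : PrimrecPred (fun p : List (ℕ × ℕ) × Code => 0 < num p.2 10) :=
    Primrec.nat_lt.comp (Primrec.const 0) (hn 10)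
  have a6 : PrimrecPred (fun p : List (ℕ × ℕ) × Code =>
      XC I0 p.2.1.2.1 p.2.1.2.2 (lst p.2 5)) :=
    primrec_xc.comp ((((Primrec.const I0).pair hN).pair hT).pair (hl 5))
  have hpow : ∀ i : ℕ, Primrec (fun p : List (ℕ × ℕ) × Code => num p.2 i ^ p.2.1.2.1) :=
    fun i => primrec_pow.comp ((hn i).pair hN)
  have hU : Primrec (fun p : List (ℕ × ℕ) × Code =>
      UC I0 1 (num p.2 11) p.2.1.2.1 p.2.1.2.2 (lst p.2 2)) :=
    primrec_uc.comp ((((Primrec.const I0).pair ((Primrec.const 1).pair (hn 11))).pair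
      (hN.pair hT)).pair (hl 2))
  have hF : Primrec (fun p : List (ℕ × ℕ) × Code =>
      FC I0 1 (num p.2 12) p.2.1.2.1 p.2.1.2.2 (lst p.2 2) (lst p.2 5)) :=
    primrec_fc.comp (((((Primrec.const I0).pair ((Primrec.const 1).pair (hn 12))).pair
      (hN.pair hT)).pair (hl 2)).pair (hl 5))
  have a7 : PrimrecPred (fun p : List (ℕ × ℕ) × Code =>
      UC I0 1 (num p.2 11) p.2.1.2.1 p.2.1.2.2 (lst p.2 2) * num p.2 10 ^ p.2.1.2.1 ≤
        num p.2 9 ^ p.2.1.2.1) :=
    Primrec.nat_le.comp (Primrec.nat_mul.comp hU (hpow 10)) (hpow 9)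
  have a8 : PrimrecPred (fun p : List (ℕ × ℕ) × Code =>
      num p.2 8 ^ p.2.1.2.1 ≤
        FC I0 1 (num p.2 12) p.2.1.2.1 p.2.1.2.2 (lst p.2 2) (lst p.2 5) *
          num p.2 10 ^ p.2.1.2.1) :=
    Primrec.nat_le.comp (hpow 8) (Primrec.nat_mul.comp hF (hpow 10))
  have a9 : PrimrecPred (fun p : List (ℕ × ℕ) × Code => ∀ e ∈ p.1, e.1 = e.2) :=
    primrec_okH_forall hL
  have m1 : Primrec (fun p : List (ℕ × ℕ) × Code => p.1.map Prod.fst) :=
    Primrec.list_map hL (Primrec.fst.comp Primrec.snd).to₂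
  have m2 : Primrec (fun p : List (ℕ × ℕ) × Code => p.1.map Prod.snd) :=
    Primrec.list_map hL (Primrec.snd.comp Primrec.snd).to₂
  have e1 : ∀ i j : ℕ, Primrec (fun p : List (ℕ × ℕ) × Code =>
      ev (p.1.map Prod.fst) (num p.2 i) (num p.2 j)) := fun i j =>
    primrec_ev.comp ((m1.pair (hn i)).pair (hn j))
  have e2 : ∀ i j : ℕ, Primrec (fun p : List (ℕ × ℕ) × Code =>
      ev (p.1.map Prod.snd) (num p.2 i) (num p.2 j)) := fun i j =>
    primrec_ev.comp ((m2.pair (hn i)).pair (hn j))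
  have a10 : PrimrecPred (fun p : List (ℕ × ℕ) × Code =>
      ev (p.1.map Prod.snd) (num p.2 9) (num p.2 10) <
        ev (p.1.map Prod.fst) (num p.2 8) (num p.2 10)) :=
    Primrec.nat_lt.comp (e2 9 10) (e1 8 10)
  have a11 : PrimrecPred (fun p : List (ℕ × ℕ) × Code =>
      ev (p.1.map Prod.fst) (num p.2 9) (num p.2 10) <
        ev (p.1.map Prod.snd) (num p.2 8) (num p.2 10)) :=
    Primrec.nat_lt.comp (e1 9 10) (e2 8 10)
  exact a1.and (a2.and (a3.and (a4.and (a5.and (a6.and (a7.and (a8.and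
    (a9.or (a10.or a11)))))))))

end Pool.Agent.Helper948.Ent.P9
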