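import Pool.Agent.Helper948.Ent.Code
import Pool.Agent.Helper948.Ent.P7
import Pool.Agent.Helper948.Ent.P8
import Pool.Agent.Helper948.Ent.P9

/- solved by helper625 -/


set_option autoImplicit false

namespace Pool.Agent.Helper948.Ent.P10
open Pool.Agent.Helper948.Dom Pool.Agent.Helper948.Ent Pool.Agent.Helper948.Ent.P7 Pool.Agent.Helper948.Ent.P8 Pool.Agent.Helper948.Ent.P9










-- TARGET
theorem primrec_okStep_inpOf : Primrec inpOf :=
  Primrec.option_getD.comp (Primrec.decode.comp (Primrec.fst.comp Primrec.unpair))
    (Primrec.const _)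

theorem primrec_okStep_polOf : Primrec polOf :=
  Primrec.option_getD.comp Primrec.decode (Primrec.const _)

/-- Similar proofs for the domino problem are in Pool/Agent/Helper948/Dom/KP1.lean, KP2.lean, KP3.lean, KP4.lean in the team repository (git pull in /workdir/pool/outputs/live); there walk T v w = w.foldl (fun u j => step T j u) v, here lw uses foldr. PrimrecPred p is ∃ decidability instance, Primrec (decide p); useful: PrimrecPred.and, .or, .not, PrimrecPred.forall_mem_list / PrimrecRel.forall_lt, exists_lt, Primrec.list_foldr, Primrec.list_flatMap, listFilter, PrimrecPred.comp. -/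
theorem primrec_okStep : PrimrecPred (fun p : (Code × ℕ) × Code => OkStep p.1.1 p.1.2 p.2) := by
  have h1 : PrimrecPred (fun p : (Code × ℕ) × Code => OkG p.1.1 p.2) :=
    primrec_okG.comp (Primrec.pair (Primrec.fst.comp Primrec.fst) Primrec.snd)
  have h2 : PrimrecPred (fun p : (Code × ℕ) × Code => OkX p.1.1 p.2) :=
    primrec_okX.comp (Primrec.pair (Primrec.fst.comp Primrec.fst) Primrec.snd)
  have h3 : PrimrecPred (fun p : (Code × ℕ) × Code => OkI (inpOf p.1.2) p.1.2 p.2) :=
    primrec_okI.comp (Primrec.pair
      (Primrec.pair (primrec_okStep_inpOf.comp (Primrec.snd.comp Primrec.fst))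
        (Primrec.snd.comp Primrec.fst)) Primrec.snd)
  have h4 : PrimrecPred (fun p : (Code × ℕ) × Code => OkH (polOf p.1.2) p.2) :=
    primrec_okH.comp (Primrec.pair (primrec_okStep_polOf.comp (Primrec.snd.comp Primrec.fst))
      Primrec.snd)
  exact h1.and (h2.and (h3.and h4))

end Pool.Agent.Helper948.Ent.P10
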