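import Pool.Agent.Helper948.Ent.Code
import Pool.Agent.Helper948.Ent.CH
import Pool.Agent.Helper948.Dom.KQ
import Pool.Agent.Helper948.Ent.P10
import Pool.Agent.Helper948.Ent.E5
import Pool.Agent.Helper948.Ent.E6
import Pool.Agent.Helper948.Ent.C3

/- solved by helper258 -/


set_option autoImplicit false

namespace Pool.Agent.Helper948.Ent.F0
open Pool.Agent.Helper948.Dom Pool.Agent.Helper948.Ent Pool.Agent.Helper948.Ent.CH Pool.Agent.Helper948.Dom.KQ Pool.Agent.Helper948.Ent.P10 Pool.Agent.Helper948.Ent.E5 Pool.Agent.Helper948.Ent.E6 Pool.Agent.Helper948.Ent.C3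










-- TARGET
theorem exists_chain_isK_unique (K K' : Subgroup F) (T : List (List ℕ)) (h : IsK K T)
    (h' : IsK K' T) : K = K' := by
  ext g
  obtain ⟨w, rfl⟩ : ∃ w, FreeGroup.mk w = g := Quot.exists_rep g
  rw [h w, h' w]

theorem exists_chain_lw (w : List (Fin 2 × Bool)) :
    lw [[1,0],[1,0],[1,0],[1,0]] (enc w) 0 = w.length % 2 := by
  induction w with
  | nil => rfl
  | cons s w ih =>
    have e : lw [[1,0],[1,0],[1,0],[1,0]] (enc (s :: w)) 0 =
        step [[1,0],[1,0],[1,0],[1,0]] (lcode s) (lw [[1,0],[1,0],[1,0],[1,0]] (enc w) 0) := rfl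
    rw [e, ih, List.length_cons]
    have h4 : lcode s < 4 := by
      obtain ⟨i, b⟩ := s
      unfold lcode
      have := i.2
      dsimp only
      split_ifs <;> omega
    generalize lcode s = j at h4
    have h2 : w.length % 2 < 2 := Nat.mod_lt _ (by norm_num)
    have h3 : (w.length + 1) % 2 = (w.length % 2 + 1) % 2 := by omega
    rw [h3]
    generalize w.length % 2 = v at h2
    interval_cases j <;> interval_cases v <;> rfl

theorem exists_chain_par (w : List (Fin 2 × Bool)) :
    par (FreeGroup.mk w) = Multiplicative.ofAdd (w.length : ZMod 2) := by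
  induction w with
  | nil =>
    have : (FreeGroup.mk [] : F) = 1 := rfl
    rw [this, map_one]
    rfl
  | cons s w ih =>
    have e : (FreeGroup.mk (s :: w) : F) = FreeGroup.mk [s] * FreeGroup.mk w := rfl
    have e1 : par (FreeGroup.mk [s]) = Multiplicative.ofAdd (1 : ZMod 2) := by
      obtain ⟨i, b⟩ := s
      cases b
      · simp only [par, FreeGroup.lift_mk]
        simp
        rfl
      · simp [par, FreeGroup.lift_mk]
    rw [e, map_mul, ih, e1, ← ofAdd_add, List.length_cons]
    congr 1
    push_cast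
    ring

theorem exists_chain_kc0 : KC par.ker
    (((0, 2, [[1,0],[1,0],[1,0],[1,0]]), [[0,1],[1,0]], [[1, 1]]) : Code) := by
  have hfa : par fa = Multiplicative.ofAdd (1 : ZMod 2) := by
    simp [par, fa]
  refine ⟨⟨⟨inferInstance, ?_⟩, ?_, ?_, ?_⟩, ?_, ?_, ?_, ?_⟩
  · exact Subgroup.finiteIndex_ker _
  · intro w hw
    have : w = 1 := by
      have hW : W 0 = ⊥ := by
        rw [W]
        have : {g : F | ∃ i, i < 0 ∧ g = A i} = ∅ := by
          ext g
          simp
        rw [show {g : F | ∃ i, i < (((0, 2, [[1,0],[1,0],[1,0],[1,0]]), [[0,1],[1,0]], [[1, 1]]) : Code).1.1 ∧ g = A i} = ∅ from this]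
        exact Subgroup.closure_empty
      have hw' : w ∈ W 0 := hw
      rw [hW] at hw'
      exact Subgroup.mem_bot.1 hw'
    rw [this]
    change A 0 * 1⁻¹ ∉ par.ker
    rw [inv_one, mul_one, A_zero, MonoidHom.mem_ker, hfa]
    decide
  · intro κ _
    change ((Nat.factorial 1 : ℕ) : ℤ) ∣ tz κ
    simp
  · intro κ hκ
    exact hκ
  · refine ⟨by norm_num, ?_, ?_, ?_⟩
    · change ∀ v < 2, ∀ j < 4, _
      decide
    · intro v hv
      change v < 2 at hv
      interval_cases v
      · refine ⟨[], ?_, rfl⟩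
        simp only [words, List.mem_flatMap, List.mem_range]
        exact ⟨0, by norm_num, by simp [wordsEq]⟩
      · refine ⟨[0], ?_, rfl⟩
        simp only [words, List.mem_flatMap, List.mem_range]
        exact ⟨1, by norm_num, by simp [wordsEq]⟩
    · change ∀ v < 2, _ ∧ ∀ u < 2, _
      decide
  · intro w
    change FreeGroup.mk w ∈ par.ker ↔ lw [[1,0],[1,0],[1,0],[1,0]] (enc w) 0 = 0
    rw [exists_chain_lw, MonoidHom.mem_ker, exists_chain_par]
    rw [show (1 : Multiplicative (ZMod 2)) = Multiplicative.ofAdd 0 from rfl]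
    rw [Multiplicative.ofAdd.injective.eq_iff, ZMod.natCast_eq_zero_iff]
    omega
  · change par.ker.index = 2
    rw [Subgroup.index_ker]
    have : par.range = ⊤ := by
      rw [eq_top_iff]
      intro x _
      have h2 : ∀ y : Multiplicative (ZMod 2), y = 1 ∨ y = Multiplicative.ofAdd 1 := by decide
      rcases h2 x with h | h
      · rw [h]; exact one_mem _
      · rw [h]; exact ⟨fa, hfa⟩
    rw [this]
    simp
  · change 0 < 1
    norm_num

/-- The whole sequence. Start: c0 = ((0, 2, [[1,0],[1,0],[1,0],[1,0]]), [[0,1],[1,0]], [[1, 1]]) (numbers a = 1, D = 1), K0 = kernel of par (index 2). Reg is checked by cases; IsK K0 T: lw of a word is the parity of its length (par (mk w)); Cond K0 0: FN (kernel of a homomorphism to a finite group), ND K0 0: W 0 is trivial and a ∉ K0; Div 1! trivial. Use computable_iter with R c n c' = OkStep c n c', good c = ∃ K, KC K c (hex from ok_exists, hgood from ok_sound,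
hR = primrec_okStep). To get the subgroups Kc coherently: define Kc by recursion/choice: for a sequence c with OkStep (c n) n (c (n+1)) and KC K0 (c 0), use ok_sound repeatedly (exists_seq style: construct a dependent sequence of {K // KC K (c n)} with Nat.rec); note K is determined by c because IsK determines membership, so one can also choose any Kc n with KC (Kc n) (c n) and use uniqueness: IsK K T and IsK K'' T imply K = K''. OkX is part of OkStep; lt is in OkG. -/
theorem exists_chain : ∃ (c : ℕ → Code) (Kc : ℕ → Subgroup F), Chain c Kc := by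
  obtain ⟨c, hc, h0, hs⟩ := computable_iter (fun c n c' => OkStep c n c') primrec_okStep
    (fun c => ∃ K, KC K c) _ ⟨_, exists_chain_kc0⟩ (fun a n ⟨K, hK⟩ => ok_exists K a hK n)
    (fun a n b ⟨K, hK⟩ hs => by
      obtain ⟨K', h, _⟩ := ok_sound K a b n hK hs
      exact ⟨K', h⟩)
  have hg : ∀ n, ∃ K, KC K (c n) := by
    intro n
    induction n with
    | zero => rw [h0]; exact ⟨_, exists_chain_kc0⟩
    | succ n ih =>
      obtain ⟨K, hK⟩ := ih
      obtain ⟨K', h, _⟩ := ok_sound K (c n) (c (n + 1)) n hK (hs n)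
      exact ⟨K', h⟩
  choose Kc hKc using hg
  have hall : ∀ n, Ext (Kc n) (c n).1.1 (Kc (n + 1)) ∧ FactI (inpOf n) n (Kc (n + 1)) (c (n + 1)) ∧
      FactH (polOf n) (Kc (n + 1)) (c (n + 1)) := by
    intro n
    obtain ⟨K', h1, h2, h3, h4⟩ := ok_sound (Kc n) (c n) (c (n + 1)) n (hKc n) (hs n)
    have : K' = Kc (n + 1) := exists_chain_isK_unique _ _ _ h1.2.2.1 (hKc (n + 1)).2.2.1
    subst this
    exact ⟨h2, h3, h4⟩
  refine ⟨c, Kc, ⟨hc, hKc, fun j => (hall j).1, fun j => (hs j).1.1, fun j => (hs j).2.1,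
    fun j => (hall j).2.1, fun j => (hall j).2.2, ?_, ?_⟩⟩
  · rw [h0]; rfl
  · rw [h0]; rfl

end Pool.Agent.Helper948.Ent.F0
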