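import Pool.Agent.Helper948.Ent.Code
import Pool.Agent.Helper948.Ent.CH
import Pool.Agent.Helper948.Ent.B1
import Pool.Agent.Helper948.Ent.C11
import Pool.Agent.Helper948.Ent.P1
import Pool.Agent.Helper948.Ent.E6
import Pool.Agent.Helper948.Ent.C3

/- solved by helper527 -/


set_option autoImplicit false

namespace Pool.Agent.Helper948.Ent.F1
open Pool.Agent.Helper948.Dom Pool.Agent.Helper948.Ent Pool.Agent.Helper948.Ent.CH Pool.Agent.Helper948.Ent.B1 Pool.Agent.Helper948.Ent.C11 Pool.Agent.Helper948.Ent.P1 Pool.Agent.Helper948.Ent.E6 Pool.Agent.Helper948.Ent.C3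










-- TARGET
theorem re_pred_le (c : ℕ → Code) (Kc : ℕ → Subgroup F) (h : Chain c Kc) (j : ℕ) :
    j ≤ (c j).1.1 := by
  induction j with
  | zero => exact Nat.zero_le _
  | succ j ih => exact Nat.succ_le_of_lt (lt_of_le_of_lt ih (h.lt j))

theorem re_pred_key (c : ℕ → Code) (Kc : ℕ → Subgroup F) (h : Chain c Kc)
    (w : List (Fin 2 × Bool)) :
    lw (c (2 * w.length + 2)).1.2.2 (enc w) 0 = 0 ↔ FreeGroup.mk w ∈ ⨅ j, Kc j := by
  rw [← (h.kc (2 * w.length + 2)).2.2.1 w]
  obtain ⟨hn, hwin, -, -⟩ := limit_group Kc (fun j => (c j).1.1) (fun j => (h.kc j).1) h.lt h.ext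
  have hle := re_pred_le c Kc h (2 * w.length + 2)
  have hc := (h.kc (2 * w.length + 2)).1
  constructor
  · intro hw
    obtain ⟨i', h1, h2, h3, h4⟩ := path w w.length w.length le_rfl le_rfl
    have hd := hc.div _ hw
    have htz : tz (FreeGroup.mk w) = 0 := by
      by_contra hne
      have h5 := Int.le_of_dvd (abs_pos.2 hne) ((dvd_abs _ _).2 hd)
      have h6 : (c (2 * w.length + 2)).1.1 + 1 ≤ ((c (2 * w.length + 2)).1.1 + 1).factorial :=
        Nat.self_le_factorial _
      have h7 : |tz (FreeGroup.mk w)| ≤ (w.length : ℤ) := by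
        rw [abs_le]
        constructor <;> omega
      have h8 : (((c (2 * w.length + 2)).1.1 + 1 : ℕ) : ℤ) ≤
          (((c (2 * w.length + 2)).1.1 + 1).factorial : ℤ) := by exact_mod_cast h6
      omega
    rw [htz, sub_zero] at h1
    have hi : i' = w.length := by exact_mod_cast h1
    rw [hi] at h4
    have hu : ft ^ w.length * FreeGroup.mk w * (ft ^ w.length)⁻¹ ∈
        Kc (2 * w.length + 2) := hc.fn.normal.conj_mem _ hw _
    have hu2 := (hwin (2 * w.length + 2) (w.length + w.length) (by
      show w.length + w.length ≤ (c (2 * w.length + 2)).1.1 + 1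
      omega)).2 _ h4 hu
    have hu3 := hn.conj_mem _ hu2 (ft ^ w.length)⁻¹
    have e : (ft ^ w.length)⁻¹ * (ft ^ w.length * FreeGroup.mk w * (ft ^ w.length)⁻¹) *
        ((ft ^ w.length)⁻¹)⁻¹ = FreeGroup.mk w := by group
    rwa [e] at hu3
  · intro hw
    exact (iInf_le Kc _) hw

/-- The word problem is decidable. Let Kinf be the infimum, m_j = (c j).1.1 ≥ j (strictly increasing). Claim: if w has length ≤ s and 2 s ≤ m_j + 1, s < (m_j+1)! then mk w ∈ K_j iff mk w ∈ Kinf. Proof: if mk w ∈ K_j then (m_j+1)! divides tz (mk w) (Cond.div) whose absolute value is at most s, so tz (mk w) = 0; by the path lemma (i = s) u := t^s * mk w * t^{-s} ∈ W (2 s) (i' = s) and u ∈ K_j (normal), so u ∈ Kinf (Win (Kc j) n Kinf for n ≤ m_j + 1, see limit_group) and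
mk w ∈ Kinf (normal). So with j = 2 * w.length + 2: mk w ∈ Kinf iff lw (c j).1.2.2 (enc w) 0 = 0 (IsK), a computable condition (primrec_lw, primrec_enc, h.comp). A ComputablePred is REPred (ComputablePred.to_re). -/
theorem re_pred (c : ℕ → Code) (Kc : ℕ → Subgroup F) (h : Chain c Kc) :
    REPred (fun w : List (Fin 2 × Bool) => FreeGroup.mk w ∈ ⨅ j, Kc j) := by
  have hcj : Computable (fun w : List (Fin 2 × Bool) => c (2 * w.length + 2)) := by
    refine h.comp.comp ?_
    have h1 : Primrec (fun w : List (Fin 2 × Bool) => 2 * w.length + 2) :=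
      Primrec.nat_add.comp (Primrec.nat_mul.comp (Primrec.const 2) Primrec.list_length)
        (Primrec.const 2)
    exact h1.to_comp
  have hT : Computable (fun w : List (Fin 2 × Bool) => (c (2 * w.length + 2)).1.2.2) :=
    Computable.snd.comp (Computable.snd.comp (Computable.fst.comp hcj))
  have hg : Computable (fun w : List (Fin 2 × Bool) =>
      lw (c (2 * w.length + 2)).1.2.2 (enc w) 0) :=
    primrec_lw.to_comp.comp ((hT.pair primrec_enc.to_comp).pair (Computable.const 0))
  have hdec : Computable (fun n : ℕ => decide (n = 0)) := by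
    obtain ⟨_, h1⟩ := (Primrec.eq (α := ℕ)).comp Primrec.id (Primrec.const 0)
    exact h1.to_comp.of_eq fun n => by congr
  have hp : ComputablePred (fun w : List (Fin 2 × Bool) =>
      lw (c (2 * w.length + 2)).1.2.2 (enc w) 0 = 0) :=
    ⟨inferInstance, hdec.comp hg⟩
  exact hp.to_re.of_eq fun w => re_pred_key c Kc h w

end Pool.Agent.Helper948.Ent.F1
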