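import Pool.Agent.Helper948.Ent.Code
import Pool.Agent.Helper948.Ent.CH
import Pool.Agent.Helper948.Ent.C11
import Pool.Agent.Helper948.Ent.C1
import Pool.Agent.Helper948.Ent.C2
import Pool.Agent.Helper948.Ent.E4
import Pool.Agent.Helper948.Ent.E6
import Pool.Agent.Helper948.Ent.C3

/- solved by helper627 -/


set_option autoImplicit false

namespace Pool.Agent.Helper948.Ent.F2
open Pool.Agent.Helper948.Dom Pool.Agent.Helper948.Ent Pool.Agent.Helper948.Ent.CH Pool.Agent.Helper948.Ent.C11 Pool.Agent.Helper948.Ent.C1 Pool.Agent.Helper948.Ent.C2 Pool.Agent.Helper948.Ent.E4 Pool.Agent.Helper948.Ent.E6 Pool.Agent.Helper948.Ent.C3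










-- TARGET
theorem bounds_val (I : Inp) (K : Subgroup F) (E : Finset F) :
    0 ≤ Real.log (NX I K E : ℝ) / (E.card : ℝ) :=
  div_nonneg (Real.log_natCast_nonneg _) (Nat.cast_nonneg _)

theorem bounds_nonneg (I : Inp) (K : Subgroup F) : 0 ≤ entF I K :=
  Real.iInf_nonneg (fun E => bounds_val I K E.1)

theorem bounds_le (I : Inp) (K : Subgroup F) (E : Finset F) (hE : E.Nonempty) (hD : Dist K E) :
    entF I K ≤ Real.log (NX I K E : ℝ) / (E.card : ℝ) := by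
  have hb : BddBelow (Set.range (fun E : {E : Finset F // E.Nonempty ∧ Dist K E} =>
      Real.log (NX I K E.1 : ℝ) / (E.1.card : ℝ))) := by
    refine ⟨0, ?_⟩
    rintro _ ⟨E, rfl⟩
    exact bounds_val I K E.1
  exact ciInf_le hb ⟨E, hE, hD⟩

theorem bounds_one (K : Subgroup F) : Dist K ({1} : Finset F) := by
  intro g hg h hh _
  rw [Finset.mem_singleton] at hg hh
  rw [hg, hh]

theorem bounds_nonempty (K : Subgroup F) : Nonempty {E : Finset F // E.Nonempty ∧ Dist K E} :=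
  ⟨⟨{1}, Finset.singleton_nonempty 1, bounds_one K⟩⟩

theorem bounds_ge (I : Inp) (K : Subgroup F) (a : ℝ)
    (ha : ∀ E : Finset F, E.Nonempty → Dist K E → a ≤ Real.log (NX I K E : ℝ) / (E.card : ℝ)) :
    a ≤ entF I K := by
  haveI := bounds_nonempty K
  exact le_ciInf (fun E => ha E.1 E.2.1 E.2.2)

theorem bounds_div (c : ℕ → Code) (Kc : ℕ → Subgroup F) (h : Chain c Kc) (j n : ℕ)
    (hn : 0 < n) (hle : n ≤ (c j).1.1 + 1) : Div n (Kc j) := by
  intro κ hκ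
  have h1 := (h.kc j).1.div κ hκ
  have h2 : (n : ℤ) ∣ (((c j).1.1 + 1).factorial : ℤ) :=
    Int.natCast_dvd_natCast.2 (Nat.dvd_factorial hn hle)
  exact h2.trans h1

theorem bounds_win (c : ℕ → Code) (Kc : ℕ → Subgroup F) (h : Chain c Kc) (j n : ℕ)
    (hle : n ≤ (c j).1.1 + 1) : Win (Kc j) n (⨅ i, Kc i) :=
  (limit_group Kc (fun j => (c j).1.1) (fun j => (h.kc j).1) h.lt h.ext).2.1 j n hle

theorem bounds_normal (c : ℕ → Code) (Kc : ℕ → Subgroup F) (h : Chain c Kc) :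
    (⨅ i, Kc i).Normal :=
  (limit_group Kc (fun j => (c j).1.1) (fun j => (h.kc j).1) h.lt h.ext).1

theorem bounds_up (c : ℕ → Code) (Kc : ℕ → Subgroup F) (h : Chain c Kc) (j n r : ℕ) (I : Inp)
    (hr : Rad I r) (hn : 0 < n) (hle : n ≤ (c j).1.1 + 1) :
    entF I (⨅ i, Kc i) ≤ lu I r n (Kc j) := by
  obtain ⟨_, E, hE, hD, hv⟩ := su I r n (Kc j) (⨅ i, Kc i) hr hn (h.kc j).1.fn
    (bounds_normal c Kc h) (bounds_div c Kc h j n hn hle) (bounds_win c Kc h j n hle)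
  exact (bounds_le I _ E hE hD).trans hv

theorem bounds_emp (c : ℕ → Code) (Kc : ℕ → Subgroup F) (h : Chain c Kc) (j n r : ℕ) (I : Inp)
    (hr : Rad I r) (hn : 0 < n) (hle : n ≤ (c j).1.1 + 1) (hU : US I r n (Kc j) = ∅) :
    entF I (⨅ i, Kc i) = 0 := by
  obtain ⟨h1, _⟩ := su I r n (Kc j) (⨅ i, Kc i) hr hn (h.kc j).1.fn
    (bounds_normal c Kc h) (bounds_div c Kc h j n hn hle) (bounds_win c Kc h j n hle)
  have h2 := h1 hU
  apply le_antisymm _ (bounds_nonneg _ _)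
  refine (bounds_le I _ {1} (Finset.singleton_nonempty 1) (bounds_one _)).trans ?_
  have h3 : NX I (⨅ i, Kc i) {1} = 0 := by
    rw [NX, h2, Set.image_empty, Set.ncard_empty]
  rw [h3]
  simp

theorem bounds_lo (c : ℕ → Code) (Kc : ℕ → Subgroup F) (h : Chain c Kc) (j n r : ℕ) (I : Inp)
    (hr : Rad I r) (hn : 0 < n) (hle : n ≤ (c j).1.1 + 1) (y : F → ℕ) (hy : y ∈ XS I (Kc j)) :
    lf I r n (Kc j) y ≤ entF I (⨅ i, Kc i) := by
  apply bounds_ge
  intro E hE hD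
  have h1 := sl I r n (Kc j) (⨅ i, Kc i) hr hn (h.kc j).1.fn
    (bounds_normal c Kc h) (bounds_div c Kc h j n hn hle) (bounds_win c Kc h j n hle) y hy E hD
  rw [le_div_iff₀ (by exact_mod_cast Finset.card_pos.2 hE)]
  exact h1

theorem bounds_rad : Rad I0 1 := by
  intro P hP q hq
  simp only [I0, List.mem_cons, List.not_mem_nil, or_false] at hP
  rcases hP with rfl | rfl
  · simp only [List.mem_cons, List.not_mem_nil, or_false] at hq
    rcases hq with rfl | rfl <;> simp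
  · simp only [List.mem_cons, List.not_mem_nil, or_false] at hq
    rcases hq with rfl | rfl <;> simp

/-- Entropy bounds. Kinf = infimum is normal, Win (Kc (j+1)) n Kinf for n ≤ m + 1, m = (c (j+1)).1.1 (limit_group from h.kc, h.ext, h.lt). Div n K for n ≤ m + 1 (n divides (m+1)!). entF is an infimum over a nonempty (E = {1}), bounded below by 0 (log of a natural number divided by a natural number is ≥ 0) set. Upper bound: su gives E with the value ≤ lu, so entF ≤ lu ≤ p/D. If US = ∅ then XS I Kinf = ∅, NX = 0, all values are 0. Lower bound: sl gives lf ≤ log NX / |E| for every nonempty E, so lf ≤ entF (le_ciInf).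
rad_ok: Rad I (rad I). For I0: Rad I0 1. -/
theorem bounds (c : ℕ → Code) (Kc : ℕ → Subgroup F) (h : Chain c Kc) (j : ℕ) :
    0 ≤ entF (inpOf j) (⨅ i, Kc i) ∧
    ((num (c (j + 1)) 2 = 1 ∧ entF (inpOf j) (⨅ i, Kc i) = 0) ∨
    (num (c (j + 1)) 2 = 0 ∧
      entF (inpOf j) (⨅ i, Kc i) ≤ (num (c (j + 1)) 5 : ℝ) / (num (c (j + 1)) 1 : ℝ) ∧
      (num (c (j + 1)) 6 : ℝ) / (num (c (j + 1)) 1 : ℝ) ≤ entF (inpOf j) (⨅ i, Kc i) ∧
      (num (c (j + 1)) 5 - num (c (j + 1)) 6) * (j + 1) ≤ num (c (j + 1)) 1 ∧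
      (num (c (j + 1)) 5 < num (c (j + 1)) 0 ∨ num (c (j + 1)) 0 + 1 < num (c (j + 1)) 6))) := by
  refine ⟨bounds_nonneg _ _, ?_⟩
  obtain ⟨h3, h3', hf⟩ := h.fi j
  rcases hf with ⟨hf, hU⟩ | ⟨hf, h4, h4', x0, hx0, hu, hl, hc, hd⟩
  · exact Or.inl ⟨hf, bounds_emp c Kc h (j + 1) _ _ _ (rad_ok _) h3 h3' hU⟩
  · refine Or.inr ⟨hf, ?_, ?_, hc, hd⟩
    · exact (bounds_up c Kc h (j + 1) _ _ _ (rad_ok _) h3 h3').trans hu
    · exact hl.trans (bounds_lo c Kc h (j + 1) _ _ _ (rad_ok _) h4 h4' x0 hx0)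

theorem boundsH (c : ℕ → Code) (Kc : ℕ → Subgroup F) (h : Chain c Kc) (j : ℕ) :
    0 ≤ entF I0 (⨅ i, Kc i) ∧ 0 < num (c (j + 1)) 10 ∧ 0 < num (c (j + 1)) 9 ∧
    entF I0 (⨅ i, Kc i) ≤ Real.log ((num (c (j + 1)) 9 : ℝ) / (num (c (j + 1)) 10 : ℝ)) ∧
    Real.log ((num (c (j + 1)) 8 : ℝ) / (num (c (j + 1)) 10 : ℝ)) ≤ entF I0 (⨅ i, Kc i) ∧
    ((∀ e ∈ polOf j, e.1 = e.2) ∨
    ev ((polOf j).map Prod.snd) (num (c (j + 1)) 9) (num (c (j + 1)) 10) <
      ev ((polOf j).map Prod.fst) (num (c (j + 1)) 8) (num (c (j + 1)) 10) ∨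
    ev ((polOf j).map Prod.fst) (num (c (j + 1)) 9) (num (c (j + 1)) 10) <
      ev ((polOf j).map Prod.snd) (num (c (j + 1)) 8) (num (c (j + 1)) 10)) := by
  refine ⟨bounds_nonneg _ _, ?_⟩
  obtain ⟨h3, h3', h4, h4', h10, h9, y0, hy0, hu, hl, hc⟩ := h.fh j
  refine ⟨h10, h9, ?_, ?_, hc⟩
  · exact (bounds_up c Kc h (j + 1) _ _ _ bounds_rad h3 h3').trans hu
  · exact hl.trans (bounds_lo c Kc h (j + 1) _ _ _ bounds_rad h4 h4' y0 hy0)

end Pool.Agent.Helper948.Ent.F2
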