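import Pool.Agent.Helper948.Ent.Code
import Pool.Agent.Helper948.Ent.CH
import Pool.Agent.Helper948.Ent.F2
import Pool.Agent.Helper948.Ent.P1
import Pool.Agent.Helper948.Ent.E6
import Pool.Agent.Helper948.Ent.C3

/- solved by helper795 -/


set_option autoImplicit false

namespace Pool.Agent.Helper948.Ent.F3
open Pool.Agent.Helper948.Dom Pool.Agent.Helper948.Ent Pool.Agent.Helper948.Ent.CH Pool.Agent.Helper948.Ent.F2 Pool.Agent.Helper948.Ent.P1 Pool.Agent.Helper948.Ent.E6 Pool.Agent.Helper948.Ent.C3










-- TARGET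
theorem rre_enc (I : Inp) (i : ℕ) : inpOf (Nat.pair (Encodable.encode I) i) = I := by
  simp [inpOf]

theorem rre_inpOf : Primrec inpOf := by
  unfold inpOf
  exact Primrec.option_getD.comp (Primrec.decode.comp (Primrec.fst.comp Primrec.unpair))
    (Primrec.const _)

theorem rre_NX (I : Inp) (K : Subgroup F) : NX I K {1} ≤ I.1 := by
  have h1 : NX I K {1} ≤ (Set.Iio I.1).ncard := by
    unfold NX
    apply Set.ncard_le_ncard_of_injOn (fun f => f ⟨1, by simp⟩)
    · rintro f ⟨x, hx, rfl⟩
      exact hx.1.1 1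
    · intro f _ g _ hfg
      funext ⟨y, hy⟩
      have hy' : y = 1 := by simpa using hy
      subst hy'
      exact hfg
  rw [Set.ncard_eq_toFinset_card', Set.toFinset_Iio, Nat.card_Iio] at h1
  exact h1

theorem rre_log (n : ℕ) : 0 ≤ Real.log (n : ℝ) := Real.log_natCast_nonneg n

theorem rre_bdd (I : Inp) (K : Subgroup F) :
    BddBelow (Set.range (fun E : {E : Finset F // E.Nonempty ∧ Dist K E} =>
      Real.log (NX I K E.1 : ℝ) / (E.1.card : ℝ))) := by
  refine ⟨0, ?_⟩
  rintro _ ⟨E, rfl⟩
  exact div_nonneg (rre_log _) (Nat.cast_nonneg _)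

theorem rre_le (I : Inp) (K : Subgroup F) : entF I K ≤ (I.1 : ℝ) := by
  have hD : ({1} : Finset F).Nonempty ∧ Dist K {1} := by
    refine ⟨Finset.singleton_nonempty _, ?_⟩
    intro g hg k hk _
    rw [Finset.mem_singleton] at hg hk
    rw [hg, hk]
  have h1 : entF I K ≤ Real.log (NX I K {1} : ℝ) / ((({1} : Finset F)).card : ℝ) :=
    ciInf_le (rre_bdd I K) ⟨{1}, hD⟩
  rw [Finset.card_singleton, Nat.cast_one, div_one] at h1
  have h2 : Real.log (NX I K {1} : ℝ) ≤ (NX I K {1} : ℝ) := Real.log_le_self (Nat.cast_nonneg _)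
  have h3 : (NX I K {1} : ℝ) ≤ (I.1 : ℝ) := Nat.cast_le.2 (rre_NX I K)
  linarith

/-- Right recursive enumerability. For the input I put a n = (if inpOf n = I then (if num (c (n+1)) 2 = 1 then 0 else num (c (n+1)) 5) else I.1), b n = (if inpOf n = I then num (c (n+1)) 1 - 1 else 0). These are computable (c is computable, primrec_num; inpOf is primitive recursive: Primrec.decode, Nat.unpair, option_getD; equality on Inp is decidable: Primrec.eq). Note: if the flag is 1 the value is 0 = entF I; otherwise it is p/D ≥ entF I (bounds); for n with inpOf n ≠ I it is I.1 ≥ entF I: indeed entF I K ≤ log (NX I K {1}) ≤ log I.1 ≤ I.1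
(if I.1 = 0 then there are no colourings and entF = 0). For infinitely many n (n = Nat.pair (encode I) i, i arbitrary, n ≥ i) inpOf n = I, and then p/D - entF ≤ p/D - q/D ≤ 1/(n+1) by (p - q)(n+1) ≤ D (truncated subtraction; q/D ≤ entF ≤ p/D so q ≤ p). D = num (c (n+1)) 1 > 0 by KC. So the infimum is entF. -/
theorem rre (c : ℕ → Code) (Kc : ℕ → Subgroup F) (h : Chain c Kc) (I : Inp) :
    0 ≤ entF I (⨅ i, Kc i) ∧ ∃ a b : ℕ → ℕ, Computable a ∧ Computable b ∧
      entF I (⨅ i, Kc i) = ⨅ n : ℕ, (a n : ℝ) / ((b n : ℝ) + 1) := by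
  have hD : ∀ n, 0 < num (c (n + 1)) 1 := fun n => (h.kc (n + 1)).2.2.2.2
  have h0 : 0 ≤ entF I (⨅ i, Kc i) := by
    have := (bounds c Kc h (Nat.pair (Encodable.encode I) 0)).1
    rwa [rre_enc] at this
  refine ⟨h0, ?_⟩
  have hc1 : Computable (fun n => c (n + 1)) := h.comp.comp Computable.succ
  have hnum : ∀ i, Computable (fun n => num (c (n + 1)) i) := fun i =>
    primrec_num.to_comp.comp hc1 (Computable.const i)
  have hinp : Computable (fun n => decide (inpOf n = I)) := by
    have : PrimrecPred (fun n => inpOf n = I) := Primrec.eq.comp rre_inpOf (Primrec.const I)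
    obtain ⟨_, hd⟩ := this
    exact hd.to_comp.of_eq (fun n => by congr)
  have hfl : Computable (fun n => decide (num (c (n + 1)) 2 = 1)) := by
    have : Primrec (fun k : ℕ => decide (k = 1)) := by
      have : PrimrecPred (fun k : ℕ => k = 1) := Primrec.eq.comp Primrec.id (Primrec.const 1)
      exact this.decide
    exact this.to_comp.comp (hnum 2)
  refine ⟨fun n => cond (decide (inpOf n = I)) (cond (decide (num (c (n + 1)) 2 = 1)) 0
      (num (c (n + 1)) 5)) I.1,
    fun n => cond (decide (inpOf n = I)) (num (c (n + 1)) 1 - 1) 0, ?_, ?_, ?_⟩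
  · exact Computable.cond hinp (Computable.cond hfl (Computable.const 0) (hnum 5)) (Computable.const _)
  · exact Computable.cond hinp
      ((Primrec.nat_sub.comp Primrec.id (Primrec.const 1)).to_comp.comp (hnum 1)) (Computable.const 0)
  · set e := entF I (⨅ i, Kc i) with he
    have key : ∀ n, e ≤ ((cond (decide (inpOf n = I)) (cond (decide (num (c (n + 1)) 2 = 1)) 0
      (num (c (n + 1)) 5)) I.1 : ℕ) : ℝ) /
        (((cond (decide (inpOf n = I)) (num (c (n + 1)) 1 - 1) 0 : ℕ) : ℝ) + 1) := by
      intro n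
      by_cases hn : inpOf n = I
      · simp only [hn, decide_true, cond_true]
        have hb := (bounds c Kc h n).2
        rw [hn] at hb
        have hD1 : (((num (c (n + 1)) 1 - 1 : ℕ) : ℝ) + 1) = (num (c (n + 1)) 1 : ℝ) := by
          have := hD n
          rw [← Nat.cast_one (R := ℝ), ← Nat.cast_add, Nat.sub_add_cancel this]
        rw [hD1]
        rcases hb with ⟨h1, h2⟩ | ⟨h1, h2, -⟩
        · simp only [h1, decide_true, cond_true]
          rw [he, h2]; simp
        · have : ¬ (num (c (n + 1)) 2 = 1) := by omega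
          simp only [this, decide_false, cond_false]
          exact h2
      · simp only [hn, decide_false, cond_false]
        simpa using rre_le I (⨅ i, Kc i)
    apply le_antisymm
    · exact le_ciInf key
    · apply le_of_forall_pos_le_add
      intro ε hε
      obtain ⟨i, hi⟩ := exists_nat_one_div_lt hε
      set n := Nat.pair (Encodable.encode I) i with hn
      have hin : i ≤ n := Nat.right_le_pair _ _
      have hI : inpOf n = I := rre_enc I i
      have hbdd : BddBelow (Set.range (fun n => ((cond (decide (inpOf n = I)) (cond (decide (num (c (n + 1)) 2 = 1)) 0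
          (num (c (n + 1)) 5)) I.1 : ℕ) : ℝ) /
          (((cond (decide (inpOf n = I)) (num (c (n + 1)) 1 - 1) 0 : ℕ) : ℝ) + 1))) :=
        ⟨e, by rintro _ ⟨n, rfl⟩; exact key n⟩
      refine (ciInf_le hbdd n).trans ?_
      simp only [hI, decide_true, cond_true]
      have hDn : (0 : ℝ) < (num (c (n + 1)) 1 : ℝ) := Nat.cast_pos.2 (hD n)
      have hD1 : (((num (c (n + 1)) 1 - 1 : ℕ) : ℝ) + 1) = (num (c (n + 1)) 1 : ℝ) := by
        have := hD n
        rw [← Nat.cast_one (R := ℝ), ← Nat.cast_add, Nat.sub_add_cancel this]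
      rw [hD1]
      have hb := (bounds c Kc h n).2
      rw [hI] at hb
      rcases hb with ⟨h1, h2⟩ | ⟨h1, h2, h3, h4, -⟩
      · simp only [h1, decide_true, cond_true]
        rw [Nat.cast_zero, zero_div]
        linarith
      · have : ¬ (num (c (n + 1)) 2 = 1) := by omega
        simp only [this, decide_false, cond_false]
        set p := num (c (n + 1)) 5
        set q := num (c (n + 1)) 6
        set D := num (c (n + 1)) 1
        have hqp : q ≤ p := by
          have : (q : ℝ) / (D : ℝ) ≤ (p : ℝ) / (D : ℝ) := h3.trans h2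
          have := (div_le_div_iff_of_pos_right hDn).1 this
          exact_mod_cast this
        have h5 : ((p : ℝ) - q) * ((n : ℝ) + 1) ≤ D := by
          have : (((p - q) * (n + 1) : ℕ) : ℝ) ≤ (D : ℝ) := Nat.cast_le.2 h4
          rw [Nat.cast_mul, Nat.cast_sub hqp] at this
          push_cast at this
          exact this
        have hn1 : (0 : ℝ) < (n : ℝ) + 1 := by positivity
        have h6 : (p : ℝ) / D - (q : ℝ) / D ≤ 1 / ((n : ℝ) + 1) := by
          rw [← sub_div, div_le_div_iff₀ hDn hn1]
          linarith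
        have h7 : 1 / ((n : ℝ) + 1) ≤ 1 / ((i : ℝ) + 1) := by
          apply one_div_le_one_div_of_le (by positivity)
          have : (i : ℝ) ≤ (n : ℝ) := Nat.cast_le.2 hin
          linarith
        linarith

end Pool.Agent.Helper948.Ent.F3
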