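import Pool.Agent.Helper948.Ent.Code
import Pool.Agent.Helper948.Ent.CH
import Pool.Agent.Helper948.Ent.F2
import Pool.Agent.Helper948.Ent.P1
import Pool.Agent.Helper948.Ent.E6
import Pool.Agent.Helper948.Ent.C3

/- solved by helper545 -/


set_option autoImplicit false

namespace Pool.Agent.Helper948.Ent.F4
open Pool.Agent.Helper948.Dom Pool.Agent.Helper948.Ent Pool.Agent.Helper948.Ent.CH Pool.Agent.Helper948.Ent.F2 Pool.Agent.Helper948.Ent.P1 Pool.Agent.Helper948.Ent.E6 Pool.Agent.Helper948.Ent.C3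










-- TARGET
/-- A computable real outside. Let x = ⨅ n, (num (c n) 0 + 1) / num (c n) 1 (b n = num (c n) 1 - 1, num (c n) 1 > 0 by KC). By OkX the intervals [a_n/D_n, (a_n+1)/D_n] are nested: D_{n+1} = D_n e, a_n e ≤ a_{n+1}, a_{n+1} + 1 ≤ (a_n + 1) e. So x ∈ [a_n/D_n, (a_n+1)/D_n] for all n, in particular x ≥ 1 (a_0 = D_0 = 1) . For an input I let j = Nat.pair (encode I) 0, so inpOf j = I. By bounds: either entF I = 0 ≠ x, or entF I ∈ [q/D, p/D] with p < a or a + 1 < q, where a, D are the numbers 0 and 1 of c (j+1), and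
x ∈ [a/D, (a+1)/D], so entF I ≠ x. -/
theorem xstar (c : ℕ → Code) (Kc : ℕ → Subgroup F) (h : Chain c Kc) :
    ∃ x : ℝ, 0 ≤ x ∧ (∃ a b : ℕ → ℕ, Computable a ∧ Computable b ∧
      x = ⨅ n : ℕ, (a n : ℝ) / ((b n : ℝ) + 1)) ∧ ∀ I : Inp, entF I (⨅ i, Kc i) ≠ x := by
  have hD : ∀ n, 0 < num (c n) 1 := fun n => (h.kc n).2.2.2.2
  have hDR : ∀ n, (0:ℝ) < (num (c n) 1 : ℝ) := fun n => by exact_mod_cast hD n
  have hstep : ∀ n, ∃ e : ℕ, 0 < e ∧ num (c (n + 1)) 1 = num (c n) 1 * e ∧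
      num (c n) 0 * e ≤ num (c (n + 1)) 0 ∧ num (c (n + 1)) 0 + 1 ≤ (num (c n) 0 + 1) * e := by
    intro n
    obtain ⟨h0, e, -, h1, h2, h3⟩ := h.okx n
    refine ⟨e, ?_, h1, h2, h3⟩
    rcases Nat.eq_zero_or_pos e with he | he
    · rw [he, Nat.mul_zero] at h1
      omega
    · exact he
  set u : ℕ → ℝ := fun n => (num (c n) 0 : ℝ) / (num (c n) 1 : ℝ) with hu
  set w : ℕ → ℝ := fun n => ((num (c n) 0 : ℝ) + 1) / (num (c n) 1 : ℝ) with hw
  have humono : Monotone u := by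
    apply monotone_nat_of_le_succ
    intro n
    obtain ⟨e, he, h1, h2, h3⟩ := hstep n
    have heR : (0:ℝ) < e := by exact_mod_cast he
    show (num (c n) 0 : ℝ) / (num (c n) 1 : ℝ) ≤ (num (c (n+1)) 0 : ℝ) / (num (c (n+1)) 1 : ℝ)
    rw [h1, Nat.cast_mul, div_le_div_iff₀ (hDR n) (mul_pos (hDR n) heR)]
    have h2R : (num (c n) 0 : ℝ) * e ≤ (num (c (n+1)) 0 : ℝ) := by exact_mod_cast h2
    nlinarith [hDR n]
  have hwanti : Antitone w := by
    apply antitone_nat_of_succ_le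
    intro n
    obtain ⟨e, he, h1, h2, h3⟩ := hstep n
    have heR : (0:ℝ) < e := by exact_mod_cast he
    show ((num (c (n+1)) 0 : ℝ) + 1) / (num (c (n+1)) 1 : ℝ) ≤
      ((num (c n) 0 : ℝ) + 1) / (num (c n) 1 : ℝ)
    rw [h1, Nat.cast_mul, div_le_div_iff₀ (mul_pos (hDR n) heR) (hDR n)]
    have h3R : (num (c (n+1)) 0 : ℝ) + 1 ≤ ((num (c n) 0 : ℝ) + 1) * e := by exact_mod_cast h3
    nlinarith [hDR n]
  have huw : ∀ m n, u m ≤ w n := by
    intro m n
    have h1 : u m ≤ u (max m n) := humono (le_max_left _ _)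
    have h2 : w (max m n) ≤ w n := hwanti (le_max_right _ _)
    have h3 : u (max m n) ≤ w (max m n) := by
      show (num (c (max m n)) 0 : ℝ) / _ ≤ ((num (c (max m n)) 0 : ℝ) + 1) / _
      exact div_le_div_of_nonneg_right (by linarith) (hDR _).le
    exact h1.trans (h3.trans h2)
  have hbdd : BddBelow (Set.range w) := ⟨u 0, by rintro _ ⟨n, rfl⟩; exact huw 0 n⟩
  have hxw : ∀ n, (⨅ n, w n) ≤ w n := fun n => ciInf_le hbdd n
  have hux : ∀ n, u n ≤ ⨅ n, w n := fun n => le_ciInf fun m => huw n m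
  have hx1 : 1 ≤ ⨅ n, w n := by
    have := hux 0
    have h1 : u 0 = 1 := by
      show (num (c 0) 0 : ℝ) / (num (c 0) 1 : ℝ) = 1
      rw [h.i0, h.i1]
      norm_num
    linarith
  have hnc : ∀ k : ℕ, Computable (fun n => num (c n) k) := fun k =>
    (Primrec₂.to_comp primrec_num).comp h.comp (Computable.const k)
  refine ⟨⨅ n, w n, by linarith, ⟨fun n => num (c n) 0 + 1, fun n => num (c n) 1 - 1,
    Computable.succ.comp (hnc 0), Computable.pred.comp (hnc 1), ?_⟩, ?_⟩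
  · congr 1
    funext n
    show ((num (c n) 0 : ℝ) + 1) / (num (c n) 1 : ℝ) = _
    have h1 : ((num (c n) 1 - 1 : ℕ) : ℝ) + 1 = (num (c n) 1 : ℝ) := by
      rw [Nat.cast_sub (hD n)]
      push_cast
      ring
    rw [h1]
    push_cast
    rfl
  · intro I hI
    have hj : inpOf (Nat.pair (Encodable.encode I) 0) = I := by
      simp [inpOf, Encodable.encodek]
    have hb := bounds c Kc h (Nat.pair (Encodable.encode I) 0)
    rw [hj] at hb
    rw [hI] at hb
    obtain ⟨-, ⟨-, h0⟩ | ⟨-, h1, h2, -, h3⟩⟩ := hb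
    · linarith
    · have h4 := hux (Nat.pair (Encodable.encode I) 0 + 1)
      have h5 := hxw (Nat.pair (Encodable.encode I) 0 + 1)
      have hDp := hDR (Nat.pair (Encodable.encode I) 0 + 1)
      rcases h3 with h3 | h3
      · have h6 : (num (c (Nat.pair (Encodable.encode I) 0 + 1)) 5 : ℝ) /
            (num (c (Nat.pair (Encodable.encode I) 0 + 1)) 1 : ℝ) <
            u (Nat.pair (Encodable.encode I) 0 + 1) :=
          div_lt_div_of_pos_right (by exact_mod_cast h3) hDp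
        linarith
      · have h6 : w (Nat.pair (Encodable.encode I) 0 + 1) <
            (num (c (Nat.pair (Encodable.encode I) 0 + 1)) 6 : ℝ) /
            (num (c (Nat.pair (Encodable.encode I) 0 + 1)) 1 : ℝ) :=
          div_lt_div_of_pos_right (by exact_mod_cast h3) hDp
        linarith


end Pool.Agent.Helper948.Ent.F4
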