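import Pool.Agent.Helper948.Ent.Code
import Pool.Agent.Helper948.Ent.CH
import Pool.Agent.Helper948.Ent.F2
import Pool.Agent.Helper948.Ent.E6
import Pool.Agent.Helper948.Ent.C3

/- solved by helper424 -/


set_option autoImplicit false

namespace Pool.Agent.Helper948.Ent.F5
open Pool.Agent.Helper948.Dom Pool.Agent.Helper948.Ent Pool.Agent.Helper948.Ent.CH Pool.Agent.Helper948.Ent.F2 Pool.Agent.Helper948.Ent.E6 Pool.Agent.Helper948.Ent.C3










-- TARGET
/-- value of the polynomial with coefficient list `l` -/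
noncomputable def notEZ_pr (l : List ℕ) (y : ℝ) : ℝ := l.foldr (fun c s => (c : ℝ) + y * s) 0

theorem notEZ_pr_cons (a : ℕ) (l : List ℕ) (y : ℝ) :
    notEZ_pr (a :: l) y = (a : ℝ) + y * notEZ_pr l y := rfl

theorem notEZ_evp (l : List ℕ) (x D : ℕ) (hD : 0 < D) :
    (evp l x D).2 = l.length ∧
      ((ev l x D : ℕ) : ℝ) = (D : ℝ) ^ l.length * notEZ_pr l ((x : ℝ) / (D : ℝ)) := by
  induction l with
  | nil => exact ⟨rfl, by simp [ev, evp, notEZ_pr]⟩
  | cons a l ih =>
    obtain ⟨ih1, ih2⟩ := ih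
    have e1 : evp (a :: l) x D = (a * D ^ ((evp l x D).2 + 1) + x * (evp l x D).1,
      (evp l x D).2 + 1) := rfl
    refine ⟨by rw [e1, ih1]; rfl, ?_⟩
    have e2 : ev (a :: l) x D = a * D ^ (l.length + 1) + x * ev l x D := by
      unfold ev
      rw [e1, ih1]
    have hD' : (D : ℝ) ≠ 0 := by exact_mod_cast hD.ne'
    rw [e2, notEZ_pr_cons, List.length_cons]
    push_cast
    rw [ih2, pow_succ]
    field_simp

theorem notEZ_mono (l : List ℕ) (y y' : ℝ) (hy : 0 ≤ y) (hyy : y ≤ y') :
    0 ≤ notEZ_pr l y ∧ notEZ_pr l y ≤ notEZ_pr l y' := by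
  induction l with
  | nil => simp [notEZ_pr]
  | cons a l ih =>
    obtain ⟨ih1, ih2⟩ := ih
    rw [notEZ_pr_cons, notEZ_pr_cons]
    have ha : (0 : ℝ) ≤ a := Nat.cast_nonneg _
    refine ⟨by positivity, ?_⟩
    have h1 : y * notEZ_pr l y ≤ y' * notEZ_pr l y' :=
      mul_le_mul hyy ih2 ih1 (hy.trans hyy)
    linarith

theorem notEZ_sum (n : ℕ) (f : ℕ → ℕ) (y : ℝ) :
    notEZ_pr ((List.range n).map f) y = ∑ i ∈ Finset.range n, (f i : ℝ) * y ^ i := by
  induction n generalizing f with
  | zero => simp [notEZ_pr]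
  | succ n ih =>
    rw [List.range_succ_eq_map, List.map_cons, List.map_map, notEZ_pr_cons, ih,
      Finset.sum_range_succ', Finset.mul_sum, add_comm]
    congr 1
    · apply Finset.sum_congr rfl
      intro i _
      simp only [Function.comp_apply, Nat.succ_eq_add_one]
      ring
    · simp

theorem notEZ_int (θ : ℝ) (hθ : 0 < θ) (hint : IsIntegral ℤ θ) (h : ∀ j : ℕ, ∃ A B D : ℕ, 0 < D ∧
      θ ≤ (B : ℝ) / (D : ℝ) ∧ (A : ℝ) / (D : ℝ) ≤ θ ∧
      ((∀ e ∈ polOf j, e.1 = e.2) ∨
        ev ((polOf j).map Prod.snd) B D < ev ((polOf j).map Prod.fst) A D ∨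
        ev ((polOf j).map Prod.fst) B D < ev ((polOf j).map Prod.snd) A D)) : False := by
  obtain ⟨P, hPm, hP0⟩ := hint
  have hP0' : Polynomial.aeval θ P = 0 := by
    rw [Polynomial.aeval_def]
    exact hP0
  rw [Polynomial.aeval_eq_sum_range] at hP0'
  obtain ⟨L, hL⟩ : ∃ L : List (ℕ × ℕ), L = (List.range (P.natDegree + 1)).map
    (fun i => ((P.coeff i).toNat, (-(P.coeff i)).toNat)) := ⟨_, rfl⟩
  obtain ⟨A, B, D, hD, hB, hA, hcase⟩ := h (Encodable.encode L)
  have hpol : polOf (Encodable.encode L) = L := by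
    simp [polOf]
  rw [hpol] at hcase
  have hfst : notEZ_pr (L.map Prod.fst) θ =
      ∑ i ∈ Finset.range (P.natDegree + 1), (((P.coeff i).toNat : ℕ) : ℝ) * θ ^ i := by
    rw [hL, List.map_map]
    exact notEZ_sum _ _ _
  have hsnd : notEZ_pr (L.map Prod.snd) θ =
      ∑ i ∈ Finset.range (P.natDegree + 1), (((-(P.coeff i)).toNat : ℕ) : ℝ) * θ ^ i := by
    rw [hL, List.map_map]
    exact notEZ_sum _ _ _
  have hdiff : notEZ_pr (L.map Prod.fst) θ - notEZ_pr (L.map Prod.snd) θ = 0 := by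
    rw [hfst, hsnd, ← Finset.sum_sub_distrib, ← hP0']
    apply Finset.sum_congr rfl
    intro i _
    have e1 : (((P.coeff i).toNat : ℕ) : ℤ) - (((-(P.coeff i)).toNat : ℕ) : ℤ) = P.coeff i := by
      omega
    have e2 : (((P.coeff i).toNat : ℕ) : ℝ) - (((-(P.coeff i)).toNat : ℕ) : ℝ) =
        ((P.coeff i : ℤ) : ℝ) := by
      rw [← e1]
      push_cast
      rw [e1]
    rw [← sub_mul, e2, zsmul_eq_mul]
  have hDr : (0 : ℝ) < D := by exact_mod_cast hD
  rcases hcase with hc | hc | hc
  · have hmem : (((P.coeff P.natDegree).toNat, (-(P.coeff P.natDegree)).toNat) : ℕ × ℕ) ∈ L := by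
      rw [hL]
      exact List.mem_map.mpr ⟨P.natDegree, List.mem_range.mpr (Nat.lt_succ_self _), rfl⟩
    have h1 := hc _ hmem
    have h2 : P.coeff P.natDegree = 1 := hPm
    rw [h2] at h1
    have h3 : (1 : ℤ).toNat = (-(1 : ℤ)).toNat := h1
    exact absurd h3 (by decide)
  · have h1 : ((ev (L.map Prod.snd) B D : ℕ) : ℝ) < ((ev (L.map Prod.fst) A D : ℕ) : ℝ) := by
      exact_mod_cast hc
    rw [(notEZ_evp _ B D hD).2, (notEZ_evp _ A D hD).2, List.length_map, List.length_map] at h1
    have h2 := lt_of_mul_lt_mul_left h1 (by positivity)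
    have h3 := (notEZ_mono (L.map Prod.snd) θ _ hθ.le hB).2
    have h4 := (notEZ_mono (L.map Prod.fst) ((A : ℝ) / (D : ℝ)) θ (by positivity) hA).2
    linarith
  · have h1 : ((ev (L.map Prod.fst) B D : ℕ) : ℝ) < ((ev (L.map Prod.snd) A D : ℕ) : ℝ) := by
      exact_mod_cast hc
    rw [(notEZ_evp _ B D hD).2, (notEZ_evp _ A D hD).2, List.length_map, List.length_map] at h1
    have h2 := lt_of_mul_lt_mul_left h1 (by positivity)
    have h3 := (notEZ_mono (L.map Prod.fst) θ _ hθ.le hB).2
    have h4 := (notEZ_mono (L.map Prod.snd) ((A : ℝ) / (D : ℝ)) θ (by positivity) hA).2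
    linarith

/-- Transcendence. Suppose entF I0 = q log l with q = r/s (r, s positive integers). Then θ = exp (entF I0) satisfies θ^s = l^r, which is integral over ℤ, so θ is integral (IsIntegral.of_pow) and there is a monic polynomial P ∈ ℤ[X] with P(θ) = 0. Let L be the list of the pairs (max(c_i,0), max(-c_i,0)) as natural numbers for the coefficients c_i of P, i ≤ degree; not all pairs have equal components (leading coefficient 1). Let j = encode L, so polOf j = L. By boundsH there are A, B, D with A/D ≤ θ ≤ B/D (if A = 0 trivial) and ev g B D < ev f A D or ev f B D < ev g A D,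
where f, g are the lists of first and second components. Since ev l x D = D^(length l) * (value of the polynomial with coefficient list l at x / D) (induction on l; the lists have the same length) and polynomials with nonnegative coefficients are increasing on [0,∞), in the first case g(θ) ≤ g(B/D) < f(A/D) ≤ f(θ), so P(θ) = f(θ) - g(θ) ≠ 0; the second case is similar. Contradiction. -/
theorem notEZ (c : ℕ → Code) (Kc : ℕ → Subgroup F) (h : Chain c Kc) (q : ℚ) (hq : 0 < q) (l : ℝ)
    (h1 : 1 ≤ l) (hi : IsIntegral ℤ l) : entF I0 (⨅ i, Kc i) ≠ (q : ℝ) * Real.log l := by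
  intro heq
  have hl0 : 0 < l := by linarith
  have hnum : 0 < q.num := Rat.num_pos.mpr hq
  have hint : IsIntegral ℤ (Real.exp (entF I0 (⨅ i, Kc i))) := by
    apply IsIntegral.of_pow (n := q.den) q.den_pos
    have e1 : Real.exp (entF I0 (⨅ i, Kc i)) ^ q.den = l ^ q.num.toNat := by
      rw [← Real.exp_nat_mul, heq]
      have e2 : (q.den : ℝ) * ((q : ℝ) * Real.log l) = (q.num.toNat : ℝ) * Real.log l := by
        have e3 : (q.den : ℝ) * (q : ℝ) = (q.num.toNat : ℝ) := by
          have e4 : (q : ℝ) = (q.num : ℝ) / (q.den : ℝ) := by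
            exact_mod_cast (Rat.num_div_den q).symm
          have e5 : ((q.num.toNat : ℕ) : ℤ) = q.num := Int.toNat_of_nonneg hnum.le
          have e6 : ((q.num.toNat : ℕ) : ℝ) = (q.num : ℝ) := by exact_mod_cast e5
          have e7 : (q.den : ℝ) ≠ 0 := by exact_mod_cast q.den_ne_zero
          rw [e4, e6]
          field_simp
        rw [← mul_assoc, e3]
      rw [e2, Real.exp_nat_mul, Real.exp_log hl0]
    rw [e1]
    exact hi.pow _
  refine notEZ_int _ (Real.exp_pos _) hint (fun j => ?_)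
  obtain ⟨-, hD, hB, hup, hlo, hcase⟩ := boundsH c Kc h j
  have hDr : (0 : ℝ) < (num (c (j + 1)) 10 : ℝ) := by exact_mod_cast hD
  have hBr : (0 : ℝ) < (num (c (j + 1)) 9 : ℝ) := by exact_mod_cast hB
  refine ⟨num (c (j + 1)) 8, num (c (j + 1)) 9, num (c (j + 1)) 10, hD, ?_, ?_, hcase⟩
  · rw [← Real.le_log_iff_exp_le (by positivity)]
    exact hup
  · rcases Nat.eq_zero_or_pos (num (c (j + 1)) 8) with h2 | h2
    · rw [h2, Nat.cast_zero, zero_div]
      exact (Real.exp_pos _).le
    · have h3 : (0 : ℝ) < (num (c (j + 1)) 8 : ℝ) := by exact_mod_cast h2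
      rw [← Real.log_le_iff_le_exp (by positivity)]
      exact hlo

end Pool.Agent.Helper948.Ent.F5
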