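import Mathlib
import Pool.Agent.Helper948.Ent.A2
import Pool.Agent.Helper948.Ent.A3
import Pool.Agent.Helper948.Ent.A4
import Pool.Agent.Helper948.Ent.A5

/- solved by helper170 -/


set_option autoImplicit false

namespace Pool.Agent.Helper948.Ent.F6
open Pool.Agent.Helper948.Ent.A2 Pool.Agent.Helper948.Ent.A3 Pool.Agent.Helper948.Ent.A4 Pool.Agent.Helper948.Ent.A5




-- TARGET
/-- Combine: lind gives J, A, ν for l; tower gives B, R, ν' with eigenvalue ρ = exp (q log l) > 0; zcount and coind give the SFT with entropy log ρ = q log l. -/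
theorem EZ_sub {G : Type} [Group G] (t : G) (ht : ∀ n : ℤ, t ^ n = 1 → n = 0) (h : ℝ)
    (hh : ∃ q : ℚ, 0 < q ∧ ∃ l : ℝ, 1 ≤ l ∧ IsIntegral ℤ l ∧
        (∀ z : ℂ, Polynomial.aeval z (minpoly ℤ l) = 0 → z ≠ (l : ℂ) → ‖z‖ < l) ∧
        h = (q : ℝ) * Real.log l) :
    ∃ k : ℕ, ∃ D : Finset G, ∃ P : Set (G → Fin k),
        h = ⨅ F : {F : Finset G // F.Nonempty},
          Real.log (((fun x : G → Fin k => (F.1 : Set G).restrict x) ''
            {x : G → Fin k | ∀ g : G, ∀ p ∈ P, ∃ d ∈ D, x (d * g) ≠ p d}).ncard : ℝ)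
            / (F.1.card : ℝ) := by
  obtain ⟨q, hq, l, h1, hi, hp, rfl⟩ := hh
  obtain ⟨J, hJ1, hJ2, A, ν, hν, hA⟩ := lind l h1 hi hp
  obtain ⟨B, hB1, hB2, R, ν', hν', hR⟩ := tower l h1 J A ν hν hA q hq
  obtain ⟨z1, z2⟩ := zcount R ν' (Real.exp ((q : ℝ) * Real.log l)) (Real.exp_pos _) hν' hR
  obtain ⟨k, D, P, hk⟩ := coind t ht R (Real.exp ((q : ℝ) * Real.log l)) (Real.exp_pos _) z1 z2
  rw [Real.log_exp] at hk
  exact ⟨k, D, P, hk⟩

end Pool.Agent.Helper948.Ent.F6
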