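import Pool.Agent.Helper948.Ent.CH
import Pool.Agent.Helper948.Ent.F0
import Pool.Agent.Helper948.Ent.F1
import Pool.Agent.Helper948.Ent.F3
import Pool.Agent.Helper948.Ent.F4
import Pool.Agent.Helper948.Ent.F5
import Pool.Agent.Helper948.Ent.F6
import Pool.Agent.Helper948.Ent.C11
import Pool.Agent.Helper948.Ent.C12
import Pool.Agent.Helper948.Ent.C3

set_option autoImplicit false

namespace Pool.Agent.Helper948.Ent
open Pool.Agent.Helper948.Dom Pool.Agent.Helper948.Ent.CH Pool.Agent.Helper948.Ent.F0 Pool.Agent.Helper948.Ent.F1 Pool.Agent.Helper948.Ent.F3 Pool.Agent.Helper948.Ent.F4 Pool.Agent.Helper948.Ent.F5 Pool.Agent.Helper948.Ent.F6 Pool.Agent.Helper948.Ent.C11 Pool.Agent.Helper948.Ent.C12 Pool.Agent.Helper948.Ent.C3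

theorem final :
  ∃ (G : Type) (_ : Group G), Infinite G ∧ Group.FG G ∧
    (∀ K : Finset G, ∀ ε : ℝ, 0 < ε → ∃ F : Finset G, F.Nonempty ∧
      ∀ k ∈ K, ((((fun f => k * f) '' (F : Set G)) \ (F : Set G)).ncard : ℝ) < ε * (F.card : ℝ)) ∧
    (∃ n : ℕ, ∃ φ : FreeGroup (Fin n) →* G, Function.Surjective φ ∧
      REPred (fun w : List (Fin n × Bool) => φ (FreeGroup.mk w) = 1)) ∧
    ∃ E : Set ℝ,
      E = {h : ℝ | ∃ k : ℕ, ∃ D : Finset G, ∃ P : Set (G → Fin k),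
        h = ⨅ F : {F : Finset G // F.Nonempty},
          Real.log (((fun x : G → Fin k => (F.1 : Set G).restrict x) ''
            {x : G → Fin k | ∀ g : G, ∀ p ∈ P, ∃ d ∈ D, x (d * g) ≠ p d}).ncard : ℝ)
            / (F.1.card : ℝ)} ∧
      {h : ℝ | ∃ q : ℚ, 0 < q ∧ ∃ l : ℝ, 1 ≤ l ∧ IsIntegral ℤ l ∧
        (∀ z : ℂ, Polynomial.aeval z (minpoly ℤ l) = 0 → z ≠ (l : ℂ) → ‖z‖ < l) ∧
        h = (q : ℝ) * Real.log l} ⊂ E ∧
      E ⊂ {x : ℝ | 0 ≤ x ∧ ∃ a b : ℕ → ℕ, Computable a ∧ Computable b ∧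
        x = ⨅ n : ℕ, (a n : ℝ) / ((b n : ℝ) + 1)} := by
  obtain ⟨c, Kc, h⟩ := exists_chain
  obtain ⟨hn, hw, htz, hfin⟩ := limit_group Kc (fun j => (c j).1.1) (fun j => (h.kc j).1) h.lt h.ext
  have hre := re_pred c Kc h
  have hrre := rre c Kc h
  obtain ⟨x, hx0, hxc, hxne⟩ := xstar c Kc h
  have hnot := notEZ c Kc h
  generalize (⨅ j, Kc j) = Kinf at hn hw htz hfin hre hrre hxne hnot
  haveI := hn
  obtain ⟨hinf, htinf, hfol⟩ := folner Kinf htz hfin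
  refine ⟨F ⧸ Kinf, inferInstance, hinf, ?_, hfol,
    ⟨2, QuotientGroup.mk' Kinf, QuotientGroup.mk'_surjective Kinf, ?_⟩, _, rfl, ⟨?_, ?_⟩, ⟨?_, ?_⟩⟩
  · haveI : Group.FG F := by infer_instance
    infer_instance
  · refine hre.of_eq ?_
    intro w
    exact (QuotientGroup.eq_one_iff (N := Kinf) (FreeGroup.mk w)).symm
  · intro y hy
    exact EZ_sub ((ft : F) : F ⧸ Kinf) htinf y hy
  · intro hsub
    obtain ⟨k, D, P, he⟩ := bridge2 Kinf I0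
    obtain ⟨q, hq, l, hl1, hl2, _, hl3⟩ := hsub ⟨k, D, P, he⟩
    exact hnot q hq l hl1 hl2 hl3
  · rintro y ⟨k, D, P, he⟩
    obtain ⟨I, _, hI⟩ := bridge1 Kinf k D P
    have h1 : y = entF I Kinf := he.trans hI
    rw [h1]
    exact hrre I
  · intro hsub
    obtain ⟨k, D, P, he⟩ := hsub ⟨hx0, hxc⟩
    obtain ⟨I, _, hI⟩ := bridge1 Kinf k D P
    exact hxne I (he.trans hI).symm

end Pool.Agent.Helper948.Ent
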